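import Pool.Agent.H37.SM.ZDefs

/-! Module ZRG: rational functions without pole at `s0`. -/

set_option autoImplicit false

namespace Pool.Agent.H37.SM

open Finset Pool.Agent.H22

variable {s0 : ℂ}

/-- Proof: `RatFunc.num_div_denom`; conversely `denom` divides `q` (`RatFunc.denom_div_dvd`). -/
theorem reg_iff (R : RatFunc ℂ) : Reg s0 R ↔ ∃ p q : Polynomial ℂ, q.eval s0 ≠ 0 ∧
    R = algebraMap (Polynomial ℂ) (RatFunc ℂ) p / algebraMap (Polynomial ℂ) (RatFunc ℂ) q := by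
  constructor
  · intro h
    exact ⟨R.num, R.denom, h, (RatFunc.num_div_denom R).symm⟩
  · rintro ⟨p, q, hq, rfl⟩ h0
    obtain ⟨c, hc⟩ := RatFunc.denom_div_dvd p q
    apply hq
    rw [hc, Polynomial.eval_mul, h0, zero_mul]

private theorem zrg_ne {q : Polynomial ℂ} (hq : q.eval s0 ≠ 0) :
    algebraMap (Polynomial ℂ) (RatFunc ℂ) q ≠ 0 := by
  intro h
  have h1 : q = 0 := RatFunc.algebraMap_injective ℂ (by rw [h, map_zero])
  rw [h1, Polynomial.eval_zero] at hq
  exact hq rfl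

theorem reg_natCast (n : ℕ) : Reg s0 (n : RatFunc ℂ) := by
  rw [reg_iff]
  refine ⟨(n : Polynomial ℂ), 1, by simp, ?_⟩
  rw [map_natCast, map_one, div_one]

theorem reg_intCast (n : ℤ) : Reg s0 (n : RatFunc ℂ) := by
  rw [reg_iff]
  refine ⟨(n : Polynomial ℂ), 1, by simp, ?_⟩
  rw [map_intCast, map_one, div_one]

theorem reg_zero : Reg s0 0 := by
  have h := reg_natCast (s0 := s0) 0
  rwa [Nat.cast_zero] at h

theorem reg_X : Reg s0 RatFunc.X := by
  rw [reg_iff]
  refine ⟨Polynomial.X, 1, by simp, ?_⟩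
  rw [RatFunc.algebraMap_X, map_one, div_one]

theorem Reg.add {R S : RatFunc ℂ} (hR : Reg s0 R) (hS : Reg s0 S) : Reg s0 (R + S) := by
  obtain ⟨p, q, hq, rfl⟩ := (reg_iff R).1 hR
  obtain ⟨p', q', hq', rfl⟩ := (reg_iff S).1 hS
  refine (reg_iff _).2 ⟨p * q' + q * p', q * q', ?_, ?_⟩
  · rw [Polynomial.eval_mul]
    exact mul_ne_zero hq hq'
  · rw [div_add_div _ _ (zrg_ne hq) (zrg_ne hq')]
    simp only [map_add, map_mul]

theorem Reg.neg {R : RatFunc ℂ} (hR : Reg s0 R) : Reg s0 (-R) := by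
  obtain ⟨p, q, hq, rfl⟩ := (reg_iff R).1 hR
  refine (reg_iff _).2 ⟨-p, q, hq, ?_⟩
  rw [map_neg]
  ring

theorem Reg.sub {R S : RatFunc ℂ} (hR : Reg s0 R) (hS : Reg s0 S) : Reg s0 (R - S) := by
  rw [sub_eq_add_neg]
  exact hR.add hS.neg

theorem Reg.mul {R S : RatFunc ℂ} (hR : Reg s0 R) (hS : Reg s0 S) : Reg s0 (R * S) := by
  obtain ⟨p, q, hq, rfl⟩ := (reg_iff R).1 hR
  obtain ⟨p', q', hq', rfl⟩ := (reg_iff S).1 hS
  refine (reg_iff _).2 ⟨p * p', q * q', ?_, ?_⟩
  · rw [Polynomial.eval_mul]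
    exact mul_ne_zero hq hq'
  · rw [div_mul_div_comm]
    simp only [map_mul]

theorem Reg.sum {ι : Type*} (T : Finset ι) (f : ι → RatFunc ℂ) (h : ∀ i ∈ T, Reg s0 (f i)) :
    Reg s0 (∑ i ∈ T, f i) := by
  classical
  induction T using Finset.induction_on with
  | empty =>
    rw [Finset.sum_empty]
    exact reg_zero
  | insert i T hi ih =>
    rw [Finset.sum_insert hi]
    exact (h i (Finset.mem_insert_self i T)).add
      (ih fun j hj => h j (Finset.mem_insert_of_mem hj))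

/-- the inverse of a linear form that does not vanish at `s0` -/
theorem reg_inv_linear (A B : ℕ) (h : (A : ℂ) + (B : ℂ) * s0 ≠ 0) :
    Reg s0 ((A : RatFunc ℂ) + (B : RatFunc ℂ) * RatFunc.X)⁻¹ := by
  rw [reg_iff]
  refine ⟨1, (A : Polynomial ℂ) + (B : Polynomial ℂ) * Polynomial.X, ?_, ?_⟩
  · simpa using h
  · rw [map_one, map_add, map_mul, map_natCast, map_natCast, RatFunc.algebraMap_X, one_div]

theorem reg_X_div (h : s0 ≠ -1) : Reg s0 (RatFunc.X / (RatFunc.X + 1)) := by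
  rw [reg_iff]
  refine ⟨Polynomial.X, Polynomial.X + 1, ?_, ?_⟩
  · intro h0
    apply h
    rw [Polynomial.eval_add, Polynomial.eval_X, Polynomial.eval_one] at h0
    linear_combination h0
  · rw [map_add, RatFunc.algebraMap_X, map_one]

/-- linear forms with positive constant term are not zero -/
theorem linear_ne_zero (A B : ℕ) (h : 0 < A) :
    (A : RatFunc ℂ) + (B : RatFunc ℂ) * RatFunc.X ≠ 0 := by
  have h1 : (A : RatFunc ℂ) + (B : RatFunc ℂ) * RatFunc.X =
      algebraMap (Polynomial ℂ) (RatFunc ℂ)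
        ((A : Polynomial ℂ) + (B : Polynomial ℂ) * Polynomial.X) := by
    rw [map_add, map_mul, map_natCast, map_natCast, RatFunc.algebraMap_X]
  rw [h1]
  apply zrg_ne (s0 := 0)
  have h2 : (A : ℂ) ≠ 0 := by exact_mod_cast h.ne'
  simpa using h2

end Pool.Agent.H37.SM
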