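import Pool.Agent.H37.SM.ZDefs
import Pool.Agent.H22.Lattice

/-! Module ZMU: lattice indices. -/

set_option autoImplicit false

namespace Pool.Agent.H37.SM

open Finset Pool.Agent.H22

private theorem zmu_mem_torsion {κ : Type*} (S : Submodule ℤ (κ → ℤ)) (z : κ → ℤ) :
    S.mkQ z ∈ Submodule.torsion ℤ ((κ → ℤ) ⧸ S) ↔ ∃ m : ℤ, m ≠ 0 ∧ m • z ∈ S := by
  rw [Submodule.mem_torsion_iff]
  constructor
  · rintro ⟨⟨m, hm⟩, h⟩
    refine ⟨m, nonZeroDivisors.ne_zero hm, ?_⟩
    have h2 : S.mkQ (m • z) = 0 := by rw [map_smul]; exact h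
    rwa [Submodule.mkQ_apply, Submodule.Quotient.mk_eq_zero] at h2
  · rintro ⟨m, hm, h⟩
    refine ⟨⟨m, mem_nonZeroDivisors_of_ne_zero hm⟩, ?_⟩
    change m • S.mkQ z = 0
    rw [← map_smul, Submodule.mkQ_apply, Submodule.Quotient.mk_eq_zero]
    exact h

private theorem zmu_latIndex_one {κ ι : Type*} (v : ι → κ → ℤ)
    (h : ∀ (m : ℤ) (z : κ → ℤ), m ≠ 0 → m • z ∈ Submodule.span ℤ (Set.range v) →
      z ∈ Submodule.span ℤ (Set.range v)) : latIndex v = 1 := by
  unfold latIndex
  rw [Nat.card_eq_one_iff_unique]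
  refine ⟨⟨?_⟩, ⟨0⟩⟩
  have key : ∀ q : Submodule.torsion ℤ ((κ → ℤ) ⧸ Submodule.span ℤ (Set.range v)), q = 0 := by
    rintro ⟨q, hq⟩
    obtain ⟨z, rfl⟩ := Submodule.mkQ_surjective _ q
    obtain ⟨m, hm, hz⟩ := (zmu_mem_torsion _ z).1 hq
    apply Subtype.ext
    change Submodule.mkQ _ z = 0
    rw [Submodule.mkQ_apply, Submodule.Quotient.mk_eq_zero]
    exact h m z hm hz
  intro q q'
  rw [key q, key q']

private theorem zmu_fin3 : ∀ i j k l : Fin 3, i ≠ j → i ≠ k → j ≠ k → l = i ∨ l = j ∨ l = k := by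
  decide

private theorem zmu_range {κ ι ι' : Type*} (v : ι → κ → ℤ) (v' : ι' → κ → ℤ)
    (h : Set.range v = Set.range v') : latIndex v = latIndex v' := by
  unfold latIndex
  rw [h]

/-- Proof: `latIndex_eq_det` with `N = ⊤` and the standard basis. -/
theorem coneMult_three (x y z : Fin 3 → ℕ) (h : det3Z x y z ≠ 0) :
    (coneMult ![x, y, z] : ℤ) = |det3Z x y z| := by
  classical
  set w : Fin 3 → Fin 3 → ℤ := fun c j => ((![x, y, z] : Fin 3 → Fin 3 → ℕ) c j : ℤ) with hw
  set Q : Matrix (Fin 3) (Fin 3) ℤ := fun c' c => w c c' with hQ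
  have hdet : Q.det = det3Z x y z := by
    rw [Matrix.det_fin_three]
    simp only [hQ, hw, det3Z, Matrix.cons_val_zero, Matrix.cons_val_one, Matrix.cons_val]
    ring
  let b : Module.Basis (Fin 3) ℤ (⊤ : Submodule ℤ (Fin 3 → ℤ)) :=
    (Pi.basisFun ℤ (Fin 3)).map Submodule.topEquiv.symm
  have hb : ∀ c, ((b c : (⊤ : Submodule ℤ (Fin 3 → ℤ))) : Fin 3 → ℤ) = Pi.single c 1 := by
    intro c
    simp only [b, Module.Basis.map_apply, Pi.basisFun_apply]
    rfl
  have key := latIndex_eq_det (⊤ : Submodule ℤ (Fin 3 → ℤ)) (fun _ _ _ _ => trivial) b w Q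
    (by
      intro c
      ext j
      simp only [hb, Finset.sum_apply, Pi.smul_apply, smul_eq_mul, hQ]
      simp [Pi.single_apply]) (by rw [hdet]; exact h)
  have h2 : coneMult ![x, y, z] = latIndex w := rfl
  rw [h2, key, hdet]
  exact Int.natCast_natAbs _

/-- Proof: `latIndex_eq_det` with `N = {z | n·z = 0}`, which has the two coordinates different from `i` as
coordinates (`n_i = ±1`); the determinant of `x, y` in them is `± det3Z x y (eN i)`. -/
theorem coneMult_two (x y : Fin 3 → ℕ) (n : Fin 3 → ℤ) (i : Fin 3) (hi : n i = 1 ∨ n i = -1)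
    (hx : ∑ j, n j * (x j : ℤ) = 0) (hy : ∑ j, n j * (y j : ℤ) = 0)
    (h : det3Z x y (eN i) ≠ 0) : (coneMult ![x, y] : ℤ) = |det3Z x y (eN i)| := by
  classical
  have hii : n i * n i = 1 := by rcases hi with h | h <;> rw [h] <;> norm_num
  let L : (Fin 3 → ℤ) →ₗ[ℤ] ℤ := ∑ j, n j • LinearMap.proj j
  have hL : ∀ z, L z = n i * z i + ∑ c : Fin 2, n (i.succAbove c) * z (i.succAbove c) := by
    intro z
    have : L z = ∑ j, n j * z j := by
      simp [L, LinearMap.sum_apply]
    rw [this, Fin.sum_univ_succAbove _ i]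
  set N : Submodule ℤ (Fin 3 → ℤ) := LinearMap.ker L with hN
  have hmem : ∀ z, z ∈ N ↔ n i * z i + ∑ c : Fin 2, n (i.succAbove c) * z (i.succAbove c) = 0 := by
    intro z
    rw [hN, LinearMap.mem_ker, hL]
  have hval : ∀ z ∈ N, z i = - (n i * ∑ c : Fin 2, n (i.succAbove c) * z (i.succAbove c)) := by
    intro z hz
    have h1 := (hmem z).1 hz
    linear_combination (-z i) * hii + n i * h1
  have hext : ∀ z ∈ N, ∀ z' ∈ N, (∀ c, z (i.succAbove c) = z' (i.succAbove c)) → z = z' := by
    intro z hz z' hz' hc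
    ext j
    rcases Fin.eq_self_or_eq_succAbove i j with rfl | ⟨c, rfl⟩
    · rw [hval z hz, hval z' hz']
      simp only [hc]
    · exact hc c
  let e : N ≃ₗ[ℤ] (Fin 2 → ℤ) :=
    { toFun := fun z c => (z : Fin 3 → ℤ) (i.succAbove c)
      map_add' := fun _ _ => rfl
      map_smul' := fun _ _ => rfl
      invFun := fun y => ⟨i.insertNth (- (n i * ∑ c : Fin 2, n (i.succAbove c) * y c)) y, by
        rw [hmem]
        simp only [Fin.insertNth_apply_same, Fin.insertNth_apply_succAbove]
        linear_combination (-(∑ c : Fin 2, n (i.succAbove c) * y c)) * hii⟩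
      left_inv := by
        intro z
        apply Subtype.ext
        apply hext _ _ _ z.2
        · intro c
          simp only [Fin.insertNth_apply_succAbove]
        · exact Subtype.prop _
      right_inv := by
        intro y
        ext c
        simp only [Fin.insertNth_apply_succAbove] }
  let b : Module.Basis (Fin 2) ℤ N := Module.Basis.ofEquivFun e
  have hb : ∀ c c', (b c : Fin 3 → ℤ) (i.succAbove c') = (Pi.single c 1 : Fin 2 → ℤ) c' := by
    intro c c'
    have h1 : e (b c) = Pi.single c 1 := by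
      simp only [b, Module.Basis.coe_ofEquivFun, LinearEquiv.apply_symm_apply]
    exact congrFun h1 c'
  set w : Fin 2 → Fin 3 → ℤ := fun c j => ((![x, y] : Fin 2 → Fin 3 → ℕ) c j : ℤ) with hw
  have hwN : ∀ c, w c ∈ N := by
    intro c
    rw [hmem]
    have h0 : ∀ z : Fin 3 → ℤ, ∑ j, n j * z j =
        n i * z i + ∑ c : Fin 2, n (i.succAbove c) * z (i.succAbove c) := fun z =>
      Fin.sum_univ_succAbove _ i
    rw [← h0]
    fin_cases c
    · exact hx
    · exact hy
  set Q : Matrix (Fin 2) (Fin 2) ℤ := fun c' c => w c (i.succAbove c') with hQ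
  have hdet : Q.det = det3Z x y (eN i) ∨ Q.det = - det3Z x y (eN i) := by
    rw [Matrix.det_fin_two]
    simp only [hQ, hw]
    fin_cases i
    · left
      simp [det3Z, eN, Fin.succAbove]
      ring
    · right
      simp [det3Z, eN, Fin.succAbove]
      ring
    · left
      simp [det3Z, eN, Fin.succAbove]
      ring
  have hdet0 : Q.det ≠ 0 := by
    rcases hdet with h1 | h1 <;> rw [h1]
    · exact h
    · exact neg_ne_zero.2 h
  have key := latIndex_eq_det N (by
      intro k z hk hz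
      rw [hN, LinearMap.mem_ker] at hz ⊢
      rw [map_smul] at hz
      exact (smul_eq_zero.mp hz).resolve_left hk) b w Q
    (by
      intro c
      apply hext _ (hwN c)
      · exact Submodule.sum_mem _ fun c' _ => Submodule.smul_mem _ _ (b c').2
      · intro c'
        simp only [Finset.sum_apply, Pi.smul_apply, smul_eq_mul, hb, hQ]
        simp [Pi.single_apply]) hdet0
  have h2 : coneMult ![x, y] = latIndex w := rfl
  rw [h2, key, Int.natCast_natAbs]
  rcases hdet with h1 | h1 <;> rw [h1]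
  exact abs_neg _

/-- exchange of the two generators -/
theorem coneMult_swap (x y : Fin 3 → ℕ) : coneMult ![x, y] = coneMult ![y, x] := by
  unfold coneMult
  apply zmu_range
  ext z
  simp only [Set.mem_range]
  constructor
  · rintro ⟨c, rfl⟩
    fin_cases c
    · exact ⟨1, rfl⟩
    · exact ⟨0, rfl⟩
  · rintro ⟨c, rfl⟩
    fin_cases c
    · exact ⟨1, rfl⟩
    · exact ⟨0, rfl⟩

/-- Proof: the span of `w`, `e_i` is saturated (`z` with `z_j w_k = z_k w_j` has `(z_j, z_k) = t (w_j, w_k)`), so the torsion of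
the quotient is trivial. -/
theorem coneMult_unit (w : Fin 3 → ℕ) (i j k : Fin 3) (hij : i ≠ j) (hik : i ≠ k) (hjk : j ≠ k)
    (h : Nat.gcd (w j) (w k) = 1) : coneMult ![w, eN i] = 1 ∧ coneMult ![eN i, w] = 1 := by
  have main : coneMult ![w, eN i] = 1 := by
    unfold coneMult
    apply zmu_latIndex_one
    have hspan : ∀ z : Fin 3 → ℤ, z ∈ Submodule.span ℤ (Set.range (fun (c : Fin 2) (j : Fin 3) =>
        ((![w, eN i] : Fin 2 → Fin 3 → ℕ) c j : ℤ))) ↔
        ∃ c d : ℤ, ∀ l, z l = c * (w l : ℤ) + d * (eN i l : ℤ) := by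
      intro z
      rw [Submodule.mem_span_range_iff_exists_fun]
      constructor
      · rintro ⟨f, hf⟩
        refine ⟨f 0, f 1, fun l => ?_⟩
        rw [← hf]
        simp [Fin.sum_univ_two]
      · rintro ⟨c, d, hcd⟩
        refine ⟨![c, d], ?_⟩
        ext l
        rw [hcd l]
        simp [Fin.sum_univ_two]
    intro m z hm hz
    rw [hspan] at hz ⊢
    obtain ⟨c, d, hcd⟩ := hz
    have hcop : IsCoprime (w j : ℤ) (w k : ℤ) := Nat.isCoprime_iff_coprime.2 h
    obtain ⟨s, t, hst⟩ := hcop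
    have hj := hcd j
    have hk := hcd k
    have ej : (eN i j : ℤ) = 0 := by simp [eN, hij.symm]
    have ek : (eN i k : ℤ) = 0 := by simp [eN, hik.symm]
    have ei : (eN i i : ℤ) = 1 := by simp [eN]
    rw [ej] at hj
    rw [ek] at hk
    simp only [Pi.smul_apply, smul_eq_mul, mul_zero, add_zero] at hj hk
    have hc : c = m * (s * z j + t * z k) := by
      linear_combination (-c) * hst - s * hj - t * hk
    have hzj : z j = (s * z j + t * z k) * (w j : ℤ) := by
      apply mul_left_cancel₀ hm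
      rw [hj]
      conv_lhs => rw [hc]
      ring
    have hzk : z k = (s * z j + t * z k) * (w k : ℤ) := by
      apply mul_left_cancel₀ hm
      rw [hk]
      conv_lhs => rw [hc]
      ring
    refine ⟨s * z j + t * z k, z i - (s * z j + t * z k) * (w i : ℤ), fun l => ?_⟩
    have hl : l = i ∨ l = j ∨ l = k := zmu_fin3 i j k l hij hik hjk
    rcases hl with rfl | rfl | rfl
    · rw [ei]; ring
    · rw [ej, mul_zero, add_zero]; exact hzj
    · rw [ek, mul_zero, add_zero]; exact hzk
  exact ⟨main, by rw [coneMult_swap]; exact main⟩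

/-- a primitive vector has multiplicity one -/
theorem coneMult_one (w : Fin 3 → ℕ) (h : ∀ d : ℕ, (∀ j, d ∣ w j) → d = 1) :
    coneMult ![w] = 1 := by
  unfold coneMult
  apply zmu_latIndex_one
  have hspan : ∀ z : Fin 3 → ℤ, z ∈ Submodule.span ℤ (Set.range (fun (c : Fin 1) (j : Fin 3) =>
      ((![w] : Fin 1 → Fin 3 → ℕ) c j : ℤ))) ↔ ∃ c : ℤ, ∀ l, z l = c * (w l : ℤ) := by
    intro z
    rw [Submodule.mem_span_range_iff_exists_fun]
    constructor
    · rintro ⟨f, hf⟩
      refine ⟨f 0, fun l => ?_⟩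
      rw [← hf]
      simp
    · rintro ⟨c, hc⟩
      refine ⟨![c], ?_⟩
      ext l
      rw [hc l]
      simp
  have hg : Nat.gcd (w 0) (Nat.gcd (w 1) (w 2)) = 1 := by
    apply h
    intro j
    fin_cases j
    · exact Nat.gcd_dvd_left _ _
    · exact (Nat.gcd_dvd_right _ _).trans (Nat.gcd_dvd_left _ _)
    · exact (Nat.gcd_dvd_right _ _).trans (Nat.gcd_dvd_right _ _)
  have hbez : ∃ a : Fin 3 → ℤ, ∑ j, a j * (w j : ℤ) = 1 := by
    have h1 := Nat.gcd_eq_gcd_ab (w 0) (Nat.gcd (w 1) (w 2))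
    have h2 := Nat.gcd_eq_gcd_ab (w 1) (w 2)
    rw [hg] at h1
    refine ⟨![Nat.gcdA (w 0) (Nat.gcd (w 1) (w 2)),
      Nat.gcdB (w 0) (Nat.gcd (w 1) (w 2)) * Nat.gcdA (w 1) (w 2),
      Nat.gcdB (w 0) (Nat.gcd (w 1) (w 2)) * Nat.gcdB (w 1) (w 2)], ?_⟩
    rw [Fin.sum_univ_three]
    simp only [Matrix.cons_val_zero, Matrix.cons_val_one, Matrix.cons_val]
    push_cast at h1
    linear_combination (-1 : ℤ) * h1 - Nat.gcdB (w 0) (Nat.gcd (w 1) (w 2)) * h2
  obtain ⟨a, ha⟩ := hbez
  intro m z hm hz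
  rw [hspan] at hz ⊢
  obtain ⟨c, hc⟩ := hz
  simp only [Pi.smul_apply, smul_eq_mul] at hc
  have hc' : c = m * ∑ j, a j * z j := by
    calc c = c * ∑ j, a j * (w j : ℤ) := by rw [ha, mul_one]
      _ = ∑ j, a j * (c * (w j : ℤ)) := by
          rw [Finset.mul_sum]
          exact Finset.sum_congr rfl fun j _ => by ring
      _ = ∑ j, a j * (m * z j) := Finset.sum_congr rfl fun j _ => by rw [hc j]
      _ = m * ∑ j, a j * z j := by
          rw [Finset.mul_sum]
          exact Finset.sum_congr rfl fun j _ => by ring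
  refine ⟨∑ j, a j * z j, fun l => ?_⟩
  apply mul_left_cancel₀ hm
  rw [hc l]
  conv_lhs => rw [hc']
  ring

/-- the multiplicity does not change if a vector is added on which an integral functional takes
the value `±1` while it vanishes on the others -/
theorem latIndex_insert {κ ι : Type*} [Fintype κ] [Fintype ι] (v : Option ι → κ → ℤ)
    (φ : (κ → ℤ) →ₗ[ℤ] ℤ) (h0 : ∀ i, φ (v (some i)) = 0) (h1 : φ (v none) = 1 ∨ φ (v none) = -1) :
    latIndex v = latIndex (fun i => v (some i)) := by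
  have hee : φ (v none) * φ (v none) = 1 := by rcases h1 with h | h <;> rw [h] <;> norm_num
  set S := Submodule.span ℤ (Set.range v) with hS
  set S' := Submodule.span ℤ (Set.range fun i => v (some i)) with hS'
  have hle : S' ≤ S := by
    apply Submodule.span_mono
    rintro _ ⟨i, rfl⟩
    exact ⟨some i, rfl⟩
  have hvn : v none ∈ S := Submodule.subset_span ⟨none, rfl⟩
  have hφ : ∀ z ∈ S', φ z = 0 := by
    intro z hz
    have : S' ≤ LinearMap.ker φ := by
      apply Submodule.span_le.2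
      rintro _ ⟨i, rfl⟩
      exact h0 i
    exact this hz
  have hdec : ∀ z ∈ S, z - (φ (v none) * φ z) • v none ∈ S' := by
    intro z hz
    rw [hS, Submodule.mem_span_range_iff_exists_fun] at hz
    obtain ⟨c, rfl⟩ := hz
    rw [Fintype.sum_option]
    have hs : ∑ i, c (some i) • v (some i) ∈ S' :=
      Submodule.sum_mem _ fun i _ => Submodule.smul_mem _ _ (Submodule.subset_span ⟨i, rfl⟩)
    rw [map_add, hφ _ hs, map_smul, smul_eq_mul, add_zero]
    have : φ (v none) * (c none * φ (v none)) = c none := by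
      linear_combination (c none) * hee
    rw [this, add_sub_cancel_left]
    exact hs
  let f : Submodule.torsion ℤ ((κ → ℤ) ⧸ S') → Submodule.torsion ℤ ((κ → ℤ) ⧸ S) := fun q =>
    ⟨Submodule.factor hle q.1, by
      obtain ⟨q, hq⟩ := q
      obtain ⟨z, rfl⟩ := Submodule.mkQ_surjective _ q
      obtain ⟨m, hm, hz⟩ := (zmu_mem_torsion _ z).1 hq
      change S.mkQ z ∈ _
      exact (zmu_mem_torsion _ z).2 ⟨m, hm, hle hz⟩⟩
  have hf : Function.Bijective f := by
    constructor
    · rintro ⟨q, hq⟩ ⟨q', hq'⟩ hqq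
      obtain ⟨z, rfl⟩ := Submodule.mkQ_surjective _ q
      obtain ⟨z', rfl⟩ := Submodule.mkQ_surjective _ q'
      have h2 : S.mkQ z = S.mkQ z' := congrArg Subtype.val hqq
      apply Subtype.ext
      change S'.mkQ z = S'.mkQ z'
      rw [← sub_eq_zero, ← map_sub, Submodule.mkQ_apply, Submodule.Quotient.mk_eq_zero] at h2 ⊢
      obtain ⟨m, hm, hz⟩ := (zmu_mem_torsion _ z).1 hq
      obtain ⟨m', hm', hz'⟩ := (zmu_mem_torsion _ z').1 hq'
      have e1 : φ z = 0 := by
        have := hφ _ hz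
        rw [map_smul, smul_eq_mul] at this
        exact (mul_eq_zero.1 this).resolve_left hm
      have e2 : φ z' = 0 := by
        have := hφ _ hz'
        rw [map_smul, smul_eq_mul] at this
        exact (mul_eq_zero.1 this).resolve_left hm'
      have h3 := hdec _ h2
      rw [map_sub, e1, e2, sub_zero, mul_zero, zero_smul, sub_zero] at h3
      exact h3
    · rintro ⟨q, hq⟩
      obtain ⟨z, rfl⟩ := Submodule.mkQ_surjective _ q
      obtain ⟨m, hm, hz⟩ := (zmu_mem_torsion _ z).1 hq
      have h3 := hdec _ hz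
      have h4 : m • (z - (φ (v none) * φ z) • v none) ∈ S' := by
        convert h3 using 1
        rw [map_smul, smul_eq_mul, smul_sub, smul_smul]
        congr 2
        ring
      refine ⟨⟨S'.mkQ (z - (φ (v none) * φ z) • v none), (zmu_mem_torsion _ _).2 ⟨m, hm, h4⟩⟩, ?_⟩
      apply Subtype.ext
      change S.mkQ (z - (φ (v none) * φ z) • v none) = S.mkQ z
      rw [← sub_eq_zero, ← map_sub, Submodule.mkQ_apply, Submodule.Quotient.mk_eq_zero]
      have : z - (φ (v none) * φ z) • v none - z = - ((φ (v none) * φ z) • v none) := by abel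
      rw [this]
      exact Submodule.neg_mem _ (Submodule.smul_mem _ _ hvn)
  exact (Nat.card_eq_of_bijective f hf).symm

end Pool.Agent.H37.SM
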