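import Pool.Agent.H37.SM.PLB

/-! Module ADJ: the adjacent facet of an edge of a compact facet. -/

set_option autoImplicit false

namespace Pool.Agent.H37.SM

open Finset

variable {r : ℕ} {F : Dat r} {w : Fin 3 → ℤ} {N : ℤ}

theorem adj_ell (w : Fin 3 → ℤ) (N : ℤ) (i : Fin r) :
    ell w N (F.hat i) = ∑ j, w j * F.a i j - N := by
  simp [ell, Fin.sum_univ_three]

/-- linear algebra: a vector orthogonal to `u` is a combination of `w` and `ν` -/
theorem adj_span (k w ν u : Fin 3 → ℝ) (hu : u ≠ 0) (hk : ∑ j, k j * u j = 0)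
    (hw : ∑ j, w j * u j = 0) (hν : ∑ j, ν j * u j = 0)
    (hind : ∀ c d : ℝ, (∀ j, c * w j + d * ν j = 0) → c = 0 ∧ d = 0) :
    ∃ α β : ℝ, ∀ j, k j = α * ν j + β * w j := by
  let M : Matrix (Fin 3) (Fin 3) ℝ := ![k, w, ν]
  have hM : M.det = 0 := by
    rw [← Matrix.exists_mulVec_eq_zero_iff]
    refine ⟨u, hu, ?_⟩
    funext i
    fin_cases i
    · exact hk
    · exact hw
    · exact hν
  rw [← Matrix.exists_vecMul_eq_zero_iff] at hM
  obtain ⟨c, hc, hc0⟩ := hM
  have hj : ∀ j, c 0 * k j + c 1 * w j + c 2 * ν j = 0 := by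
    intro j
    have := congrFun hc0 j
    simp only [Matrix.vecMul, dotProduct, Fin.sum_univ_three, Pi.zero_apply] at this
    exact this
  have h0 : c 0 ≠ 0 := by
    intro h0
    obtain ⟨h1, h2⟩ := hind (c 1) (c 2) (fun j => by
      have := hj j
      rw [h0, zero_mul, zero_add] at this
      exact this)
    apply hc
    funext i
    fin_cases i
    · exact h0
    · exact h1
    · exact h2
  refine ⟨-(c 2 / c 0), -(c 1 / c 0), fun j => ?_⟩
  have := hj j
  field_simp
  linarith

/-- Proof. `N > 0` (`N_pos`). For real `s` let `w_s = ν + s w` (and `N_s = s N`). The constraints `(w_s)_j ≥ 0` and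
`w_s · a_i - N_s ≥ 0` hold for large `s` (for `i` in the face the second is `ν · a_i ≥ 0`; otherwise `w · a_i - N > 0`;
`w_j > 0`). Let `s*` be the maximum of the numbers `- ν_j / w_j` and `- ν·a_i / (w·a_i - N)`, `i` not in the face: a rational
number; all constraints hold at `s*` and one of those with positive `s`-coefficient is an equality. `ν` and `w` are
linearly independent (`ν·a_p = 0`, `w·a_p = N ≠ 0`, `ν ≠ 0` by `h3`), so `w_{s*} ≠ 0`. Let `w' = ρ w_{s*}` be the primitive integral
multiple, `ρ > 0`, `N' = ρ s* N = w'·a_p`, an integer. `Facet`: nonnegative, primitive, `min_le`, attained at `p`. `ray`: `k` is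
constant on the face of `w'`, so `k·(a_p - a_q) = 0`; `w`, `ν` are both orthogonal to `a_p - a_q ≠ 0`, so `k = α ν + β w`. If the equality
at `s*` is `(w_s)_j = 0`, then `0 = k_j = α ν_j + β w_j`, if it is `i` then `k·(a_i - a_p) = 0`, i.e. `α ν·a_i + β (w·a_i - N) = 0`: one linear
equation in `(α, β)` with nonzero `β`-coefficient, also satisfied by `w'`: so `k` is a multiple of `w'`. Finally
`ellR w' N' x = ρ (ν·x + s* ellR w N x)`. -/
theorem exists_adjacent (hF : Facet F w N) (hw : Pos3 w) (p q : Fin r) (hpq : p ≠ q)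
    (hp : p ∈ F.face w N) (hq : q ∈ F.face w N) (ν : Fin 3 → ℤ)
    (h1 : ∑ j, ν j * F.a p j = 0) (h2 : ∑ j, ν j * F.a q j = 0)
    (hnn : ∀ i ∈ F.face w N, 0 ≤ ∑ j, ν j * F.a i j)
    (h3 : ∃ i ∈ F.face w N, 0 < ∑ j, ν j * F.a i j) :
    ∃ (w' : Fin 3 → ℤ) (N' : ℤ) (ρ : ℝ), Facet F w' N' ∧ p ∈ F.face w' N' ∧ q ∈ F.face w' N' ∧
      0 < ρ ∧ ∀ x : Fin 4 → ℝ, ellR w N x = 0 →
        ellR w' N' x = ρ * ∑ j : Fin 3, (ν j : ℝ) * x j.castSucc := by
  classical
  have hN := N_pos hF hw
  have hwp : ∑ j, w j * F.a p j = N := by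
    have := mem_face.mp hp
    rw [adj_ell] at this
    linarith
  have hwq : ∑ j, w j * F.a q j = N := by
    have := mem_face.mp hq
    rw [adj_ell] at this
    linarith
  let a : Fin 3 ⊕ Fin r → ℤ := Sum.elim w (fun i => ell w N (F.hat i))
  let b : Fin 3 ⊕ Fin r → ℤ := Sum.elim ν (fun i => ∑ j, ν j * F.a i j)
  let T : Finset (Fin 3 ⊕ Fin r) := univ.filter (fun t => 0 < a t)
  have hT : ∀ t, t ∈ T ↔ 0 < a t := fun t => by simp [T]
  obtain ⟨t, htT, hmax⟩ := Finset.exists_max_image T (fun t => -(b t : ℚ) / (a t : ℚ))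
    ⟨Sum.inl 0, (hT _).2 (hw 0)⟩
  have hat : 0 < a t := (hT t).1 htT
  have hcmp : ∀ t' : Fin 3 ⊕ Fin r, 0 < a t' → b t * a t' ≤ b t' * a t := by
    intro t' ht'
    have h := hmax t' ((hT t').2 ht')
    have e1 : (0 : ℚ) < a t := by exact_mod_cast hat
    have e2 : (0 : ℚ) < a t' := by exact_mod_cast ht'
    rw [div_le_div_iff₀ e2 e1] at h
    have h' : -(b t') * a t ≤ -(b t) * a t' := by exact_mod_cast h
    linarith
  -- the integral vector
  let v : Fin 3 → ℤ := fun j => a t * ν j - b t * w j
  have hv0 : ∀ j, 0 ≤ v j := by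
    intro j
    have := hcmp (Sum.inl j) (hw j)
    simp only [a, b, Sum.elim_inl] at this
    simp only [v]
    linarith
  have hva : ∀ i, ∑ j, v j * F.a i j = a t * (∑ j, ν j * F.a i j) - b t * (∑ j, w j * F.a i j) := by
    intro i
    simp only [v, Fin.sum_univ_three]
    ring
  have hvmin : ∀ i, 0 ≤ ∑ j, v j * F.a i j + b t * N := by
    intro i
    have e : ∑ j, v j * F.a i j + b t * N = a t * (∑ j, ν j * F.a i j) - b t * ell w N (F.hat i) := by
      rw [hva, adj_ell]; ring
    rw [e]
    by_cases hi : 0 < ell w N (F.hat i)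
    · have := hcmp (Sum.inr i) hi
      simp only [b, a, Sum.elim_inr] at this ⊢
      linarith
    · have hi0 : ell w N (F.hat i) = 0 := le_antisymm (not_lt.1 hi) (hF.min_le i)
      rw [hi0, mul_zero, sub_zero]
      exact mul_nonneg hat.le (hnn i (mem_face.mpr hi0))
  have hvp : ∑ j, v j * F.a p j + b t * N = 0 := by
    rw [hva, h1, hwp]; ring
  have hvq : ∑ j, v j * F.a q j + b t * N = 0 := by
    rw [hva, h2, hwq]; ring
  have hvne : ∃ j, v j ≠ 0 := by
    by_contra hcon
    push Not at hcon
    have e1 : b t * N = 0 := by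
      have := hvp
      simp only [hcon, zero_mul, Finset.sum_const_zero, zero_add] at this
      exact this
    have e2 : b t = 0 := (mul_eq_zero.mp e1).resolve_right hN.ne'
    obtain ⟨i, -, hi⟩ := h3
    have e3 : ∀ j, ν j = 0 := by
      intro j
      have := hcon j
      simp only [v, e2, zero_mul, sub_zero] at this
      exact (mul_eq_zero.mp this).resolve_left hat.ne'
    simp only [e3, zero_mul, Finset.sum_const_zero] at hi
    exact absurd hi (lt_irrefl _)
  -- the primitive vector
  let g : ℤ := (Int.gcd (v 0) (Int.gcd (v 1) (v 2)) : ℤ)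
  have hg : ∀ j, g ∣ v j := by
    have e1 : g ∣ (Int.gcd (v 1) (v 2) : ℤ) := Int.gcd_dvd_right _ _
    intro j
    fin_cases j
    · exact Int.gcd_dvd_left _ _
    · exact e1.trans (Int.gcd_dvd_left _ _)
    · exact e1.trans (Int.gcd_dvd_right _ _)
  have hgdvd : ∀ d : ℤ, (∀ j, d ∣ v j) → d ∣ g := fun d hd =>
    Int.dvd_coe_gcd (hd 0) (Int.dvd_coe_gcd (hd 1) (hd 2))
  have hg0 : 0 < g := by
    have e1 : 0 ≤ g := Int.natCast_nonneg _
    refine lt_of_le_of_ne e1 fun h => ?_
    obtain ⟨j, hj⟩ := hvne
    have := hg j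
    rw [← h] at this
    exact hj (zero_dvd_iff.mp this)
  choose w' hw' using hg
  have hgR : (g : ℝ) ≠ 0 := by exact_mod_cast hg0.ne'
  -- the value
  have hgN : g * (∑ j, w' j * F.a p j) = - (b t * N) := by
    have : g * (∑ j, w' j * F.a p j) = ∑ j, v j * F.a p j := by
      rw [Finset.mul_sum]
      refine Finset.sum_congr rfl fun j _ => ?_
      rw [hw' j]; ring
    rw [this]; linarith
  set N' : ℤ := ∑ j, w' j * F.a p j with hN'
  have hell : ∀ i, g * ell w' N' (F.hat i) = ∑ j, v j * F.a i j + b t * N := by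
    intro i
    rw [adj_ell, mul_sub, hgN, Finset.mul_sum]
    have : ∑ j, g * (w' j * F.a i j) = ∑ j, v j * F.a i j :=
      Finset.sum_congr rfl fun j _ => by rw [hw' j]; ring
    rw [this]; ring
  have hface : ∀ i, i ∈ F.face w' N' ↔ ∑ j, v j * F.a i j + b t * N = 0 := by
    intro i
    rw [mem_face, ← hell i, mul_eq_zero]
    constructor
    · intro h; exact Or.inr h
    · intro h; exact h.resolve_left hg0.ne'
  have hp' : p ∈ F.face w' N' := (hface p).2 hvp
  have hq' : q ∈ F.face w' N' := (hface q).2 hvq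
  refine ⟨w', N', (a t : ℝ) / g, ⟨?_, ?_, ?_, ?_, ?_⟩, hp', hq', ?_, ?_⟩
  · intro j
    have := hv0 j
    rw [hw' j] at this
    exact nonneg_of_mul_nonneg_right this hg0
  · intro d hd
    have e1 : g * d ∣ g := hgdvd (g * d) fun j => by
      rw [hw' j]; exact mul_dvd_mul_left g (hd j)
    have e2 : g * d ∣ g * 1 := by rwa [mul_one]
    exact isUnit_of_dvd_one ((mul_dvd_mul_iff_left hg0.ne').mp e2)
  · intro i
    have := hvmin i
    rw [← hell i] at this
    exact nonneg_of_mul_nonneg_right this hg0
  · exact ⟨p, mem_face.mp hp'⟩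
  · intro k hk hk0
    -- `k` is a combination
    have hu : (fun j => (F.a p j : ℝ) - F.a q j) ≠ 0 := by
      intro h
      apply hpq
      apply F.inj
      funext j
      have := congrFun h j
      simp only [Pi.zero_apply] at this
      have h' : (F.a p j : ℝ) = F.a q j := by linarith
      exact_mod_cast h'
    have hwpR : ∑ j, (w j : ℝ) * F.a p j = N := by exact_mod_cast hwp
    have hwqR : ∑ j, (w j : ℝ) * F.a q j = N := by exact_mod_cast hwq
    have hνpR : ∑ j, (ν j : ℝ) * F.a p j = 0 := by exact_mod_cast h1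
    have hνqR : ∑ j, (ν j : ℝ) * F.a q j = 0 := by exact_mod_cast h2
    obtain ⟨α, β, hαβ⟩ := adj_span k (fun j => (w j : ℝ)) (fun j => (ν j : ℝ))
      (fun j => (F.a p j : ℝ) - F.a q j) hu
      (by
        have := hk p hp' q hq'
        simp only [mul_sub, Finset.sum_sub_distrib]
        linarith)
      (by
        simp only [mul_sub, Finset.sum_sub_distrib]
        linarith)
      (by
        simp only [mul_sub, Finset.sum_sub_distrib]
        linarith)
      (by
        intro c d hcd
        have e0 : c * (∑ j, (w j : ℝ) * F.a p j) + d * (∑ j, (ν j : ℝ) * F.a p j) = 0 := by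
          rw [Finset.mul_sum, Finset.mul_sum, ← Finset.sum_add_distrib]
          refine Finset.sum_eq_zero fun j _ => ?_
          have := hcd j
          have h' : c * ((w j : ℝ) * F.a p j) + d * ((ν j : ℝ) * F.a p j) =
              (c * w j + d * ν j) * F.a p j := by ring
          rw [h', this, zero_mul]
        have e1 : c * N + d * 0 = 0 := by rwa [hwpR, hνpR] at e0
        have hNR : (N : ℝ) ≠ 0 := by exact_mod_cast hN.ne'
        have hc : c = 0 := by
          rw [mul_zero, add_zero] at e1
          exact (mul_eq_zero.mp e1).resolve_right hNR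
        refine ⟨hc, ?_⟩
        obtain ⟨i, -, hi⟩ := h3
        have hiR : (0 : ℝ) < ∑ j, (ν j : ℝ) * F.a i j := by exact_mod_cast hi
        have e2 : d * ∑ j, (ν j : ℝ) * F.a i j = 0 := by
          rw [Finset.mul_sum]
          refine Finset.sum_eq_zero fun j _ => ?_
          have := hcd j
          rw [hc, zero_mul, zero_add] at this
          rw [← mul_assoc, this, zero_mul]
        exact (mul_eq_zero.mp e2).resolve_right hiR.ne')
    -- the equation at the maximum
    have key : α * b t + β * a t = 0 := by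
      rcases ht : t with j | i
      · have hvj : v j = 0 := by
          simp only [v, ht, a, b, Sum.elim_inl]
          ring
        have hwj : w' j = 0 := by
          have := hw' j
          rw [hvj] at this
          exact (mul_eq_zero.mp this.symm).resolve_left hg0.ne'
        have := hk0 j hwj
        rw [hαβ j] at this
        simpa [a, b] using this
      · have hi : i ∈ F.face w' N' := by
          rw [hface, hva]
          have := adj_ell (F := F) w N i
          simp only [ht, a, b, Sum.elim_inr]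
          rw [this]; ring
        have e1 := hk i hi p hp'
        have e0 : ∀ i', ∑ j, k j * (F.a i' j : ℝ) = α * (∑ j, (ν j : ℝ) * F.a i' j) +
            β * ∑ j, (w j : ℝ) * F.a i' j := by
          intro i'
          rw [Finset.mul_sum, Finset.mul_sum, ← Finset.sum_add_distrib]
          refine Finset.sum_congr rfl fun j _ => ?_
          rw [hαβ j]; ring
        rw [e0, e0, hνpR, hwpR] at e1
        have e2 : ((ell w N (F.hat i) : ℤ) : ℝ) = ∑ j, (w j : ℝ) * F.a i j - N := by
          rw [adj_ell]; push_cast; rfl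
        simp only [a, b, Sum.elim_inr]
        rw [e2]
        push_cast
        linarith
    have hatR : (a t : ℝ) ≠ 0 := by exact_mod_cast hat.ne'
    refine ⟨α * g / a t, fun j => ?_⟩
    have e1 : (v j : ℝ) = g * w' j := by rw [hw' j]; push_cast; ring
    have e2 : (v j : ℝ) = a t * ν j - b t * w j := by simp only [v]; push_cast; ring
    rw [hαβ j]
    have e3 : β * a t = - (α * b t) := by linarith
    have e4 : α * g / a t * (w' j : ℝ) = α * (g * w' j) / a t := by ring
    rw [e4, ← e1, e2, eq_div_iff hatR]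
    linear_combination (w j : ℝ) * e3
  · exact div_pos (by exact_mod_cast hat) (by exact_mod_cast hg0)
  · intro x hx
    have e1 : ∀ j, (g : ℝ) * w' j = a t * ν j - b t * w j := by
      intro j
      have : (v j : ℝ) = g * w' j := by rw [hw' j]; push_cast; ring
      rw [← this]
      simp only [v]; push_cast; ring
    have e2 : (g : ℝ) * N' = - (b t * N) := by exact_mod_cast hgN
    have e3 : (g : ℝ) * ellR w' N' x = a t * ∑ j : Fin 3, (ν j : ℝ) * x j.castSucc := by
      have e4 : (g : ℝ) * ellR w' N' x = a t * ∑ j : Fin 3, (ν j : ℝ) * x j.castSucc -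
          b t * ellR w N x := by
        simp only [ellR, Fin.sum_univ_three]
        have f0 := e1 0
        have f1 := e1 1
        have f2 := e1 2
        change (g : ℝ) * (w' 0 * x 0 + w' 1 * x 1 + w' 2 * x 2 - N' * x 3) =
          a t * (ν 0 * x 0 + ν 1 * x 1 + ν 2 * x 2) -
            b t * (w 0 * x 0 + w 1 * x 1 + w 2 * x 2 - N * x 3)
        linear_combination x 0 * f0 + x 1 * f1 + x 2 * f2 - x 3 * e2
      rw [e4, hx, mul_zero, sub_zero]
    rw [div_mul_eq_mul_div, eq_div_iff hgR, ← e3]
    ring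

end Pool.Agent.H37.SM
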