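import Pool.Agent.H37.SM.Base

/-! Strong monodromy in three variables: the polygon of a compact facet, the three-operator
complex, definitions only. -/

set_option autoImplicit false

namespace Pool.Agent.H37.SM

open Finset

variable {r : ℕ}

/-- the first three coordinate forms -/
noncomputable def c3 (j : Fin 3) : Fin 4 → ℂ := bs j.castSucc

lemma c3_three (j : Fin 3) : c3 j 3 = 0 := by
  fin_cases j <;> simp [c3, bs]

lemma lin_c3 (j : Fin 3) (p : Pt) : lin (c3 j) p = (p j.castSucc : ℂ) := lin_bs _ _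

lemma lin_c3_hat (F : Dat r) (j : Fin 3) (i : Fin r) : lin (c3 j) (F.hat i) = (F.a i j : ℂ) := by
  rw [lin_c3, F.hat_castSucc]

/-- `D × z` for the three coordinate operators -/
noncomputable def curl3 (F : Dat r) (B : Finset (Fin r)) (s : ℂ) (z : Fin 3 → LL) : Fin 3 → LL :=
  ![D F B s (c3 1) (z 2) - D F B s (c3 2) (z 1),
    D F B s (c3 2) (z 0) - D F B s (c3 0) (z 2),
    D F B s (c3 0) (z 1) - D F B s (c3 1) (z 0)]

/-- `E × z` -/
noncomputable def crossE (F : Dat r) (B : Finset (Fin r)) (z : Fin 3 → LL) : Fin 3 → LL :=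
  ![E F B (c3 1) * z 2 - E F B (c3 2) * z 1,
    E F B (c3 2) * z 0 - E F B (c3 0) * z 2,
    E F B (c3 0) * z 1 - E F B (c3 1) * z 0]

/-- `E · y` -/
noncomputable def dotE (F : Dat r) (B : Finset (Fin r)) (y : Fin 3 → LL) : LL :=
  ∑ j, E F B (c3 j) * y j

/-- the `E_j` generate the unit ideal of the Laurent ring -/
def UnitOn (F : Dat r) (B : Finset (Fin r)) : Prop :=
  ∃ g : Fin 3 → LL, ∑ j, E F B (c3 j) * g j = 1

/-- the part of the polynomial with exponents in `B` has no singular zero in the torus -/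
def NonDeg (F : Dat r) (B : Finset (Fin r)) : Prop :=
  ∀ x : Fin 3 → ℂ, (∀ j, x j ≠ 0) →
    ¬ ((∑ i ∈ B, F.κ i * ∏ j, x j ^ (F.a i j)) = 0 ∧
      ∀ l, (∑ i ∈ B, F.κ i * (F.a i l : ℂ) * ∏ j, x j ^ (F.a i j)) = 0)

/-- the exponents at which the real linear form `k` is minimal -/
noncomputable def Dat.minFace (F : Dat r) (k : Fin 3 → ℝ) : Finset (Fin r) := by
  classical
  exact univ.filter fun i => ∀ i', ∑ j, k j * (F.a i j : ℝ) ≤ ∑ j, k j * (F.a i' j : ℝ)

/-- nondegenerate with respect to all faces of the convex hull of the exponents -/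
def AllNonDeg (F : Dat r) : Prop := ∀ k : Fin 3 → ℝ, NonDeg F (F.minFace k)

/-- all three coordinates of `w` are positive (compact facet) -/
def Pos3 (w : Fin 3 → ℤ) : Prop := ∀ j, 0 < w j

/-- `B₁`-facet: one exponent has `j`-th coordinate `1`, all others have `j`-th coordinate `0` -/
def IsB1 (F : Dat r) (w : Fin 3 → ℤ) (N : ℤ) : Prop :=
  ∃ j : Fin 3, ∃ i ∈ F.face w N, F.a i j = 1 ∧ ∀ i' ∈ F.face w N, i' ≠ i → F.a i' j = 0

/-- The polygon of a compact facet: vertices `v e`, successor `nx`, and for the edge from `v e`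
to `v (nx e)` the adjacent facet `ew e`, `eN e`. -/
structure Poly (F : Dat r) (w : Fin 3 → ℤ) (N : ℤ) where
  /-- number of vertices (and edges) -/
  m : ℕ
  /-- vertices -/
  v : Fin m → Fin r
  /-- successor -/
  nx : Equiv.Perm (Fin m)
  /-- normal of the adjacent facet -/
  ew : Fin m → Fin 3 → ℤ
  /-- its value -/
  eN : Fin m → ℤ
  m_pos : 0 < m
  v_inj : Function.Injective v
  v_face : ∀ e, v e ∈ F.face w N
  facet : ∀ e, Facet F (ew e) (eN e)
  left : ∀ e, v e ∈ F.face (ew e) (eN e)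
  right : ∀ e, v (nx e) ∈ F.face (ew e) (eN e)
  pos : ∀ e e', e' ≠ e → e' ≠ nx e → 0 < ell (ew e) (eN e) (F.hat (v e'))
  nx_ne : ∀ e, nx e ≠ e
  nx_nx_ne : ∀ e, nx (nx e) ≠ e
  cone : ∀ x : Fin 4 → ℝ, ellR w N x = 0 → (∀ e, 0 ≤ ellR (ew e) (eN e) x) →
    ∃ c : Fin m → ℝ, (∀ e, 0 ≤ c e) ∧ x = ∑ e, c e • toR (F.hat (v e))

variable {F : Dat r} {w : Fin 3 → ℤ} {N : ℤ}

/-- the functional of the edge `e` -/
def Poly.el (P : Poly F w N) (e : Fin P.m) (p : Pt) : ℤ := ell (P.ew e) (P.eN e) p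

/-- the real functional of the edge `e` -/
def Poly.elR (P : Poly F w N) (e : Fin P.m) (x : Fin 4 → ℝ) : ℝ := ellR (P.ew e) (P.eN e) x

lemma Poly.el_add (P : Poly F w N) (e : Fin P.m) (p q : Pt) :
    P.el e (p + q) = P.el e p + P.el e q := ell_add _ _ _ _

lemma Poly.el_sub (P : Poly F w N) (e : Fin P.m) (p q : Pt) :
    P.el e (p - q) = P.el e p - P.el e q := ell_sub _ _ _ _

lemma Poly.elR_toR (P : Poly F w N) (e : Fin P.m) (p : Pt) : P.elR e (toR p) = P.el e p :=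
  ellR_toR _ _ _

lemma Poly.el_hat_nonneg (P : Poly F w N) (e : Fin P.m) (i : Fin r) : 0 ≤ P.el e (F.hat i) :=
  (P.facet e).min_le i

/-- the exponents on the edge `e` -/
def Poly.edge (P : Poly F w N) (e : Fin P.m) : Finset (Fin r) :=
  F.face w N ∩ F.face (P.ew e) (P.eN e)

/-- `M_{p₀}` on the slice `ℓ_w = κ` -/
def Poly.M (P : Poly F w N) (κ : ℤ) (p0 : Fin 4 → ℝ) : Set Pt :=
  {p | ell w N p = κ ∧ ∀ e, P.elR e p0 ≤ (P.el e p : ℝ)}

/-- the interior points of degree `d` of the cone over the polygon -/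
def Poly.om (P : Poly F w N) (d : ℤ) : Set Pt :=
  {p | ell w N p = 0 ∧ p 3 = d ∧ ∀ e, 1 ≤ P.el e p}

/-- `μ` is good: no coordinate that vanishes at some exponent of the facet is equal to one -/
def Good (F : Dat r) (w : Fin 3 → ℤ) (N : ℤ) (μ : Pt) : Prop :=
  ∀ j : Fin 3, (∃ i ∈ F.face w N, F.a i j = 0) → 2 ≤ μ j.castSucc

/-- the slice `ℓ_w = κ` -/
def slice (w : Fin 3 → ℤ) (N κ : ℤ) : Set Pt := {p | ell w N p = κ}

lemma face_closed {B : Finset (Fin r)} (hB : B ⊆ F.face w N) (κ : ℤ) :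
    Closed F B (slice w N κ) := by
  intro p hp i hi
  have h1 : ell w N p = κ := hp
  have h2 : ell w N (F.hat i) = 0 := mem_face.mp (hB hi)
  show ell w N (p + F.hat i) = κ
  rw [ell_add, h1, h2, add_zero]

lemma Poly.M_closed (P : Poly F w N) (κ : ℤ) (p0 : Fin 4 → ℝ) :
    Closed F (F.face w N) (P.M κ p0) := by
  intro p hp i hi
  refine ⟨face_closed subset_rfl κ p hp.1 i hi, fun e => ?_⟩
  have h1 := hp.2 e
  have h2 := P.el_hat_nonneg e i
  rw [P.el_add]
  push_cast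
  have h3 : (0 : ℝ) ≤ (P.el e (F.hat i) : ℝ) := by exact_mod_cast h2
  linarith

/-- the ideal part: elements `E · z`, `z` supported in `ω_d` -/
noncomputable def Poly.img (P : Poly F w N) (d : ℤ) : Submodule ℂ LL where
  carrier := {h | ∃ z : Fin 3 → LL, (∀ j, SuppIn (P.om d) (z j)) ∧ h = dotE F (F.face w N) z}
  add_mem' := by
    rintro _ _ ⟨z, hz, rfl⟩ ⟨z', hz', rfl⟩
    refine ⟨fun j => z j + z' j, fun j => (hz j).add (hz' j), ?_⟩
    simp [dotE, mul_add, Finset.sum_add_distrib]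
  zero_mem' := ⟨fun _ => 0, fun _ => suppIn_zero _, by simp [dotE]⟩
  smul_mem' := by
    rintro t _ ⟨z, hz, rfl⟩
    refine ⟨fun j => t • z j, fun j => (hz j).smul t, ?_⟩
    simp [dotE, Finset.smul_sum]

end Pool.Agent.H37.SM
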