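import Pool.Agent.H22.GDefs

/-! Zeta function side: definitions. Overview: section 7 of /team-store/H37_SMC.md -/

set_option autoImplicit false

namespace Pool.Agent.H37.SM

open Finset Pool.Agent.H22

variable {r : ℕ}

/-- the determinant of three real vectors -/
def det3 (x y z : Fin 3 → ℝ) : ℝ :=
  x 0 * (y 1 * z 2 - y 2 * z 1) - x 1 * (y 0 * z 2 - y 2 * z 0) + x 2 * (y 0 * z 1 - y 1 * z 0)

/-- the determinant of three natural vectors -/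
def det3Z (x y z : Fin 3 → ℕ) : ℤ :=
  (x 0 : ℤ) * ((y 1 : ℤ) * z 2 - (y 2 : ℤ) * z 1) - (x 1 : ℤ) * ((y 0 : ℤ) * z 2 - (y 2 : ℤ) * z 0)
    + (x 2 : ℤ) * ((y 0 : ℤ) * z 1 - (y 1 : ℤ) * z 0)

lemma det3_toReal (x y z : Fin 3 → ℕ) : det3 (toReal x) (toReal y) (toReal z) = det3Z x y z := by
  simp [det3, det3Z, toReal]

/-- the unit vector -/
def eN (i : Fin 3) : Fin 3 → ℕ := Pi.single i 1

/-- the exponents at which the weight vector `w` is minimal -/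
noncomputable def faceN (a : Fin r → (Fin 3 →₀ ℕ)) (w : Fin 3 → ℕ) : Finset (Fin r) := by
  classical
  exact univ.filter fun i => ∑ j, a i j * w j = wmin a w

lemma mem_faceN {a : Fin r → (Fin 3 →₀ ℕ)} {w : Fin 3 → ℕ} {i : Fin r} :
    i ∈ faceN a w ↔ ∑ j, a i j * w j = wmin a w := by
  simp [faceN]

/-- rays of the normal fan of the Newton polyhedron (primitive vectors) -/
structure RayN (a : Fin r → (Fin 3 →₀ ℕ)) (w : Fin 3 → ℕ) : Prop where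
  prim : ∀ d : ℕ, (∀ j, d ∣ w j) → d = 1
  ray : ∀ k : Fin 3 → ℝ,
    (∀ i ∈ faceN a w, ∀ i' ∈ faceN a w, ∑ j, k j * (a i j : ℝ) = ∑ j, k j * (a i' j : ℝ)) →
    (∀ j, w j = 0 → k j = 0) → ∃ c : ℝ, ∀ j, k j = c * (w j : ℝ)

/-- `W_w = |w| + N(w) s` -/
noncomputable def WF (a : Fin r → (Fin 3 →₀ ℕ)) (w : Fin 3 → ℕ) : RatFunc ℂ :=
  (wsum w : RatFunc ℂ) + (wmin a w : RatFunc ℂ) * RatFunc.X

/-- the linear form `(1 + s v) · z` -/
noncomputable def Vr (a : Fin r → (Fin 3 →₀ ℕ)) (v : Fin r) (z : Fin 3 → ℕ) : RatFunc ℂ :=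
  (wsum z : RatFunc ℂ) + ((∑ j, a v j * z j : ℕ) : RatFunc ℂ) * RatFunc.X

/-- `c_v(x,y,z) = det(x,y,z) / (V(x) V(y) V(z))` -/
noncomputable def cR (a : Fin r → (Fin 3 →₀ ℕ)) (v : Fin r) (x y z : Fin 3 → ℕ) : RatFunc ℂ :=
  (det3Z x y z : RatFunc ℂ) / (Vr a v x * Vr a v y * Vr a v z)

/-- no pole at `s0` -/
def Reg (s0 : ℂ) (R : RatFunc ℂ) : Prop := R.denom.eval s0 ≠ 0

/-- `w` is critical at `s0` -/
def Crit (a : Fin r → (Fin 3 →₀ ℕ)) (s0 : ℂ) (w : Fin 3 → ℕ) : Prop :=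
  (wsum w : ℂ) + (wmin a w : ℂ) * s0 = 0

/-- The cone of the vertex `v` is three-dimensional. -/
def Full3 (a : Fin r → (Fin 3 →₀ ℕ)) (v : Fin r) : Prop :=
  ∃ u : Fin 3 → Fin 3 → ℝ, LinearIndependent ℝ u ∧ ∀ c, u c ∈ minCone a {v}

/-- The rays of a three-dimensional vertex cone in cyclic order. -/
structure Cyc (a : Fin r → (Fin 3 →₀ ℕ)) (v : Fin r) where
  /-- number of rays -/
  m : ℕ
  /-- the rays -/
  ray : Fin m → Fin 3 → ℕ
  /-- successor -/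
  nx : Equiv.Perm (Fin m)
  rayN : ∀ x, RayN a (ray x)
  mem : ∀ x, v ∈ faceN a (ray x)
  inj : Function.Injective ray
  m_pos : 0 < m
  pos : ∀ x y, y ≠ x → y ≠ nx x →
    0 < det3 (toReal (ray x)) (toReal (ray (nx x))) (toReal (ray y))
  nx_ne : ∀ x, nx x ≠ x
  nx_nx_ne : ∀ x, nx (nx x) ≠ x
  gen : ∀ z ∈ minCone a {v}, ∃ c : Fin m → ℝ, (∀ x, 0 ≤ c x) ∧ z = ∑ x, c x • toReal (ray x)
  hrep : ∀ z : Fin 3 → ℝ, (∀ x, 0 ≤ det3 (toReal (ray x)) (toReal (ray (nx x))) z) →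
    z ∈ minCone a {v}
  complete : ∀ w, RayN a w → v ∈ faceN a w → ∃ x, ray x = w
  normal : ∀ x, ∃ t : ℝ, 0 < t ∧
    ((∃ u, u ≠ v ∧ ∀ z : Fin 3 → ℝ, ∑ j, ((a u j : ℝ) - (a v j : ℝ)) * z j =
        t * det3 (toReal (ray x)) (toReal (ray (nx x))) z) ∨
      (∃ k, ∀ z : Fin 3 → ℝ, z k = t * det3 (toReal (ray x)) (toReal (ray (nx x))) z))

variable {a : Fin r → (Fin 3 →₀ ℕ)} {v : Fin r}

/-- one of the two rays of the face `x` is critical -/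
def Cyc.touch (C : Cyc a v) (s0 : ℂ) (x : Fin C.m) : Prop :=
  Crit a s0 (C.ray x) ∨ Crit a s0 (C.ray (C.nx x))

open Classical in
/-- the index attached to a touching face -/
noncomputable def Cyc.idx (C : Cyc a v) (s0 : ℂ) (ι : (Fin 3 → ℕ) → Fin 3) (x : Fin C.m) :
    Fin 3 := if Crit a s0 (C.ray x) then ι (C.ray x) else ι (C.ray (C.nx x))

open Classical in
/-- the correction term of the face `x` -/
noncomputable def Cyc.tt (C : Cyc a v) (s0 : ℂ) (ι : (Fin 3 → ℕ) → Fin 3) (x : Fin C.m) :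
    RatFunc ℂ :=
  if C.touch s0 x then cR a v (eN (C.idx s0 ι x)) (C.ray x) (C.ray (C.nx x)) else 0

open Classical in
/-- the correction term of the vertex `v` -/
noncomputable def vertT (a : Fin r → (Fin 3 →₀ ℕ)) (s0 : ℂ) (ι : (Fin 3 → ℕ) → Fin 3)
    (v : Fin r) : RatFunc ℂ :=
  if h : Nonempty (Cyc a v) then ∑ x, h.some.tt s0 ι x else 0

/-- The rank two faces which meet a critical facet transversally to the coordinate `ι w`. -/
def TT (a : Fin r → (Fin 3 →₀ ℕ)) (s0 : ℂ) (ι : (Fin 3 → ℕ) → Fin 3) (τ : Finset (Fin r)) : Prop :=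
  ∃ w w', RayN a w ∧ RayN a w' ∧ w ≠ w' ∧ τ = faceN a w ∩ faceN a w' ∧ Crit a s0 w ∧
    ∃ p ∈ τ, ∃ q ∈ τ, a p (ι w) ≠ a q (ι w)

/-- The hypotheses on the critical facets at `s0`. -/
structure Thin (a : Fin r → (Fin 3 →₀ ℕ)) (s0 : ℂ) (ι : (Fin 3 → ℕ) → Fin 3) : Prop where
  /-- width one in the direction `ι w` -/
  pos : ∀ w, RayN a w → Crit a s0 w → 0 < w (ι w)
  le_one : ∀ w, RayN a w → Crit a s0 w → ∀ u ∈ faceN a w, a u (ι w) ≤ 1
  /-- adjacent critical facets have the same index -/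
  adj : ∀ w w', RayN a w → RayN a w' → Crit a s0 w → Crit a s0 w' → w ≠ w' →
    ∀ p ∈ faceN a w ∩ faceN a w', ∀ q ∈ faceN a w ∩ faceN a w', p ≠ q → ι w = ι w'
  /-- one apex or type `(1,1,0)` -/
  type : ∀ w, RayN a w → Crit a s0 w →
    (∀ u ∈ faceN a w, ∀ u' ∈ faceN a w, a u (ι w) = 1 → a u' (ι w) = 1 → u = u') ∨
      ∃ i', i' ≠ ι w ∧ w = eN (ι w) + eN i' ∧ wmin a w = 1

end Pool.Agent.H37.SM
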