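import Pool.Agent.H37.SM.MkDat
import Pool.Agent.H37.SM.Poly
import Pool.Agent.H37.SM.ZDefs

/-! Module BRG: the two formats for rays. -/

set_option autoImplicit false

namespace Pool.Agent.H37.SM

open Finset Pool.Agent.H22

variable {r : ℕ} (a : Fin r → (Fin 3 →₀ ℕ)) (κ : Fin r → ℂ) (ha : Function.Injective a)
  (hκ : ∀ i, κ i ≠ 0)

/-- the functional at an exponent in the natural format -/
theorem ell_mkDat (w : Fin 3 → ℕ) (N : ℤ) (i : Fin r) :
    ell (fun j => (w j : ℤ)) N ((mkDat a κ ha hκ).hat i) = ((∑ j, a i j * w j : ℕ) : ℤ) - N := by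
  simp only [ell, Dat.hat_zero, Dat.hat_one, Dat.hat_two, Dat.hat_three, mkDat,
    Fin.sum_univ_three]
  push_cast
  ring

/-- the faces agree -/
theorem face_mkDat (hr : 0 < r) (w : Fin 3 → ℕ) :
    (mkDat a κ ha hκ).face (fun j => (w j : ℤ)) (wmin a w) = faceN a w := by
  have _ := hr
  ext i
  rw [mem_face, mem_faceN, ell_mkDat, sub_eq_zero]
  exact Nat.cast_inj

/-- rays are facets -/
theorem facet_of_rayN (hr : 0 < r) (w : Fin 3 → ℕ) (hw : RayN a w) :
    Facet (mkDat a κ ha hκ) (fun j => (w j : ℤ)) (wmin a w) := by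
  have : Nonempty (Fin r) := ⟨⟨0, hr⟩⟩
  refine ⟨fun j => Int.natCast_nonneg _, ?_, ?_, ?_, ?_⟩
  · intro d hd
    rw [Int.isUnit_iff_natAbs_eq]
    exact hw.prim d.natAbs fun j => Int.natCast_dvd_natCast.mp (Int.natAbs_dvd.mpr (hd j))
  · intro i
    rw [ell_mkDat, sub_nonneg]
    have : wmin a w ≤ ∑ j, a i j * w j := ciInf_le (OrderBot.bddBelow _) i
    exact_mod_cast this
  · have hmem : sInf (Set.range fun i => ∑ j, a i j * w j) ∈
        Set.range fun i => ∑ j, a i j * w j := Nat.sInf_mem (Set.range_nonempty _)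
    obtain ⟨i, hi⟩ := hmem
    refine ⟨i, ?_⟩
    rw [ell_mkDat, sub_eq_zero, Nat.cast_inj]
    exact hi
  · intro k hk hz
    obtain ⟨c, hc⟩ := hw.ray k (fun i hi i' hi' => by
      have := hk i (by rw [face_mkDat a κ ha hκ hr]; exact hi) i'
        (by rw [face_mkDat a κ ha hκ hr]; exact hi')
      simpa [mkDat] using this) (fun j hj => hz j (by exact_mod_cast hj))
    exact ⟨c, fun j => by simpa using hc j⟩

/-- critical rays: the equation in the other format; `N > 0` -/
theorem crit_iff (w : Fin 3 → ℕ) (s0 : ℂ) :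
    Crit a s0 w ↔ ((wt (fun j => (w j : ℤ)) : ℤ) : ℂ) + ((wmin a w : ℤ) : ℂ) * s0 = 0 := by
  unfold Crit
  simp only [wt, wsum, Fin.sum_univ_three]
  push_cast
  rfl

/-- Proof: a primitive vector is not zero, so `|w| > 0`; if `N = 0` the equation gives `|w| = 0`. -/
theorem wmin_pos_of_crit (w : Fin 3 → ℕ) (hw : RayN a w) (s0 : ℂ) (hc : Crit a s0 w) :
    0 < wmin a w := by
  by_contra h
  have h0 : wmin a w = 0 := by omega
  unfold Crit at hc
  rw [h0, Nat.cast_zero, zero_mul, add_zero] at hc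
  have h1 : wsum w = 0 := by exact_mod_cast hc
  unfold wsum at h1
  have h2 : ∀ j, w j = 0 := fun j => by
    have := Finset.sum_eq_zero_iff.mp h1 j (Finset.mem_univ j)
    exact this
  have := hw.prim 0 fun j => by rw [h2 j]
  omega

end Pool.Agent.H37.SM
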