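import Mathlib

/-! Strong monodromy in three variables: the Laurent ring, the operators `D_c`, supports, facets.
Overview: /team-store/H37_SMC.md -/

set_option autoImplicit false

namespace Pool.Agent.H37.SM

open Finset

/-- a point `(u_1,u_2,u_3,k)` -/
abbrev Pt := Fin 4 → ℤ

/-- the Laurent ring `ℂ[ℤ⁴]`, monomials `x^u T^k` -/
abbrev LL := AddMonoidAlgebra ℂ Pt

/-- exponents and coefficients of the polynomial -/
structure Dat (r : ℕ) where
  /-- exponents -/
  a : Fin r → Fin 3 → ℤ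
  /-- coefficients -/
  κ : Fin r → ℂ
  a_nonneg : ∀ i j, 0 ≤ a i j
  κ_ne : ∀ i, κ i ≠ 0
  inj : Function.Injective a

variable {r : ℕ}

/-- `(a_i, 1)` -/
def Dat.hat (F : Dat r) (i : Fin r) : Pt := ![F.a i 0, F.a i 1, F.a i 2, 1]

@[simp] lemma Dat.hat_zero (F : Dat r) (i : Fin r) : F.hat i 0 = F.a i 0 := rfl
@[simp] lemma Dat.hat_one (F : Dat r) (i : Fin r) : F.hat i 1 = F.a i 1 := rfl
@[simp] lemma Dat.hat_two (F : Dat r) (i : Fin r) : F.hat i 2 = F.a i 2 := rfl
@[simp] lemma Dat.hat_three (F : Dat r) (i : Fin r) : F.hat i 3 = 1 := rfl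

lemma Dat.hat_castSucc (F : Dat r) (i : Fin r) (j : Fin 3) : F.hat i j.castSucc = F.a i j := by
  fin_cases j <;> rfl

lemma Dat.hat_injective (F : Dat r) : Function.Injective F.hat := by
  intro i i' h
  apply F.inj
  funext j
  have := congrFun h j.castSucc
  rwa [F.hat_castSucc, F.hat_castSucc] at this

/-- the linear form with coefficients `c` at the point `p` -/
noncomputable def lin (c : Fin 4 → ℂ) (p : Pt) : ℂ := ∑ j, c j * (p j : ℂ)

lemma lin_add (c : Fin 4 → ℂ) (p q : Pt) : lin c (p + q) = lin c p + lin c q := by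
  simp [lin, mul_add, Finset.sum_add_distrib]

lemma lin_sub (c : Fin 4 → ℂ) (p q : Pt) : lin c (p - q) = lin c p - lin c q := by
  simp [lin, mul_sub, Finset.sum_sub_distrib]

lemma lin_add_left (c d : Fin 4 → ℂ) (p : Pt) : lin (c + d) p = lin c p + lin d p := by
  simp [lin, add_mul, Finset.sum_add_distrib]

lemma lin_smul_left (z : ℂ) (c : Fin 4 → ℂ) (p : Pt) : lin (z • c) p = z * lin c p := by
  simp [lin, Finset.mul_sum, mul_assoc]

/-- coefficient of `x^p` -/
noncomputable def cf (η : LL) (p : Pt) : ℂ := η.coeff p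

lemma ext_cf {η ξ : LL} (h : ∀ p, cf η p = cf ξ p) : η = ξ := by
  apply AddMonoidAlgebra.ext
  exact Finsupp.ext h

@[simp] lemma cf_zero (p : Pt) : cf 0 p = 0 := rfl
@[simp] lemma cf_add (η ξ : LL) (p : Pt) : cf (η + ξ) p = cf η p + cf ξ p := rfl
@[simp] lemma cf_sub (η ξ : LL) (p : Pt) : cf (η - ξ) p = cf η p - cf ξ p := rfl
@[simp] lemma cf_neg (η : LL) (p : Pt) : cf (-η) p = - cf η p := rfl
@[simp] lemma cf_smul (z : ℂ) (η : LL) (p : Pt) : cf (z • η) p = z * cf η p := rfl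

lemma cf_sum {ι : Type*} (S : Finset ι) (η : ι → LL) (p : Pt) :
    cf (∑ i ∈ S, η i) p = ∑ i ∈ S, cf (η i) p := by
  classical
  induction S using Finset.induction_on with
  | empty => simp
  | insert a s ha ih => rw [Finset.sum_insert ha, Finset.sum_insert ha, cf_add, ih]

/-- the monomial `x^p` -/
noncomputable def mono (p : Pt) : LL := AddMonoidAlgebra.single p 1

open Classical in
lemma cf_single (p q : Pt) (z : ℂ) :
    cf (AddMonoidAlgebra.single p z) q = if q = p then z else 0 := by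
  unfold cf
  rw [AddMonoidAlgebra.coeff_single, Finsupp.single_apply]
  simp [eq_comm]

open Classical in
lemma cf_mono (p q : Pt) : cf (mono p) q = if q = p then 1 else 0 := cf_single p q 1

lemma cf_single_mul (p q : Pt) (z : ℂ) (η : LL) :
    cf (AddMonoidAlgebra.single p z * η) q = z * cf η (q - p) := by
  unfold cf
  rw [AddMonoidAlgebra.coeff_single_mul_apply, neg_add_eq_sub]

lemma cf_mono_mul (p q : Pt) (η : LL) : cf (mono p * η) q = cf η (q - p) := by
  unfold mono; rw [cf_single_mul, one_mul]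

lemma cf_finite (η : LL) : {p | cf η p ≠ 0}.Finite := by
  refine (η.coeff.support.finite_toSet).subset ?_
  intro p hp
  exact Finsupp.mem_support_iff.mpr hp

/-! ### Diagonal operators and cutting -/

/-- multiply the coefficient at `p` by `w p` -/
noncomputable def dg (w : Pt → ℂ) : LL →ₗ[ℂ] LL where
  toFun η := AddMonoidAlgebra.ofCoeff (Finsupp.onFinset η.coeff.support
    (fun p => w p * η.coeff p) (fun p hp => by
      rw [Finsupp.mem_support_iff]; exact right_ne_zero_of_mul hp))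
  map_add' η ξ := by
    apply ext_cf; intro p
    simp [cf, mul_add]
  map_smul' z η := by
    apply ext_cf; intro p
    simp [cf, mul_left_comm]

@[simp] lemma cf_dg (w : Pt → ℂ) (η : LL) (p : Pt) : cf (dg w η) p = w p * cf η p := by
  simp [cf, dg]

open Classical in
/-- restriction to the set `X` -/
noncomputable def cut (X : Set Pt) : LL →ₗ[ℂ] LL := dg (fun p => if p ∈ X then 1 else 0)

open Classical in
lemma cf_cut (X : Set Pt) (η : LL) (p : Pt) : cf (cut X η) p = if p ∈ X then cf η p else 0 := by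
  unfold cut; rw [cf_dg]; split_ifs <;> simp

lemma cf_cut_of_mem {X : Set Pt} {p : Pt} (hp : p ∈ X) (η : LL) : cf (cut X η) p = cf η p := by
  rw [cf_cut, if_pos hp]

lemma cf_cut_of_notMem {X : Set Pt} {p : Pt} (hp : p ∉ X) (η : LL) : cf (cut X η) p = 0 := by
  rw [cf_cut, if_neg hp]

/-- `η` is supported in `X` -/
def SuppIn (X : Set Pt) (η : LL) : Prop := ∀ p, cf η p ≠ 0 → p ∈ X

lemma SuppIn.mono {X Y : Set Pt} {η : LL} (h : SuppIn X η) (hXY : X ⊆ Y) : SuppIn Y η :=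
  fun p hp => hXY (h p hp)

lemma SuppIn.cf_eq {X : Set Pt} {η : LL} (h : SuppIn X η) {p : Pt} (hp : p ∉ X) : cf η p = 0 := by
  by_contra h0; exact hp (h p h0)

lemma suppIn_zero (X : Set Pt) : SuppIn X 0 := fun _ hp => absurd rfl hp

lemma SuppIn.add {X : Set Pt} {η ξ : LL} (h : SuppIn X η) (h' : SuppIn X ξ) :
    SuppIn X (η + ξ) := by
  intro p hp
  by_contra hX
  exact hp (by rw [cf_add, h.cf_eq hX, h'.cf_eq hX, add_zero])

lemma SuppIn.sub {X : Set Pt} {η ξ : LL} (h : SuppIn X η) (h' : SuppIn X ξ) :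
    SuppIn X (η - ξ) := by
  intro p hp
  by_contra hX
  exact hp (by rw [cf_sub, h.cf_eq hX, h'.cf_eq hX, sub_zero])

lemma SuppIn.neg {X : Set Pt} {η : LL} (h : SuppIn X η) : SuppIn X (-η) := by
  intro p hp
  by_contra hX
  exact hp (by rw [cf_neg, h.cf_eq hX, neg_zero])

lemma SuppIn.smul {X : Set Pt} {η : LL} (h : SuppIn X η) (z : ℂ) : SuppIn X (z • η) := by
  intro p hp
  by_contra hX
  exact hp (by rw [cf_smul, h.cf_eq hX, mul_zero])

lemma SuppIn.sum {X : Set Pt} {ι : Type*} {S : Finset ι} {η : ι → LL}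
    (h : ∀ i ∈ S, SuppIn X (η i)) : SuppIn X (∑ i ∈ S, η i) := by
  intro p hp
  by_contra hX
  exact hp (by rw [cf_sum]; exact Finset.sum_eq_zero fun i hi => (h i hi).cf_eq hX)

lemma SuppIn.dg {X : Set Pt} {η : LL} (h : SuppIn X η) (w : Pt → ℂ) : SuppIn X (dg w η) := by
  intro p hp
  by_contra hX
  exact hp (by rw [cf_dg, h.cf_eq hX, mul_zero])

lemma suppIn_cut (X : Set Pt) (η : LL) : SuppIn X (cut X η) := by
  intro p hp
  by_contra hX
  exact hp (cf_cut_of_notMem hX η)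

lemma SuppIn.cut {Y : Set Pt} {η : LL} (h : SuppIn Y η) (X : Set Pt) : SuppIn Y (cut X η) :=
  h.dg _

lemma cut_eq_self {X : Set Pt} {η : LL} (h : SuppIn X η) : cut X η = η := by
  apply ext_cf; intro p
  by_cases hp : p ∈ X
  · exact cf_cut_of_mem hp η
  · rw [cf_cut_of_notMem hp, h.cf_eq hp]

lemma suppIn_mono {X : Set Pt} {p : Pt} (hp : p ∈ X) : SuppIn X (mono p) := by
  intro q hq
  rw [cf_mono] at hq
  by_cases h : q = p
  · rw [h]; exact hp
  · rw [if_neg h] at hq; exact absurd rfl hq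

lemma SuppIn.mono_mul {X Y : Set Pt} {η : LL} (h : SuppIn X η) {p : Pt}
    (hp : ∀ q ∈ X, q + p ∈ Y) : SuppIn Y (SM.mono p * η) := by
  intro q hq
  rw [cf_mono_mul] at hq
  have := hp _ (h _ hq)
  rwa [sub_add_cancel] at this

lemma mem_of_cf_mul_ne {η ξ : LL} {p : Pt} (h : cf (η * ξ) p ≠ 0) :
    ∃ q, cf η q ≠ 0 ∧ cf ξ (p - q) ≠ 0 := by
  classical
  by_contra hno
  push Not at hno
  apply h
  have hη : η = ∑ q ∈ η.coeff.support, AddMonoidAlgebra.single q (η.coeff q) := by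
    apply ext_cf; intro q
    rw [cf_sum]
    simp only [cf_single]
    rw [Finset.sum_ite_eq]
    by_cases hq : q ∈ η.coeff.support
    · rw [if_pos hq]; rfl
    · rw [if_neg hq]; exact Finsupp.notMem_support_iff.mp hq
  rw [hη, Finset.sum_mul, cf_sum]
  refine Finset.sum_eq_zero fun q hq => ?_
  rw [cf_single_mul, hno q (Finsupp.mem_support_iff.mp hq), mul_zero]

lemma SuppIn.mul {X Y Z : Set Pt} {η ξ : LL} (h : SuppIn X η) (h' : SuppIn Y ξ)
    (hZ : ∀ p ∈ X, ∀ q ∈ Y, p + q ∈ Z) : SuppIn Z (η * ξ) := by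
  intro p hp
  obtain ⟨q, h1, h2⟩ := mem_of_cf_mul_ne hp
  have := hZ q (h q h1) (p - q) (h' _ h2)
  rwa [add_sub_cancel] at this

/-! ### The operators -/

/-- `E_c^B = ∑_{i ∈ B} κ_i c(â_i) x^{â_i}` -/
noncomputable def E (F : Dat r) (B : Finset (Fin r)) (c : Fin 4 → ℂ) : LL :=
  ∑ i ∈ B, AddMonoidAlgebra.single (F.hat i) (F.κ i * lin c (F.hat i))

lemma cf_E_mul (F : Dat r) (B : Finset (Fin r)) (c : Fin 4 → ℂ) (η : LL) (p : Pt) :
    cf (E F B c * η) p = ∑ i ∈ B, F.κ i * lin c (F.hat i) * cf η (p - F.hat i) := by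
  unfold E
  rw [Finset.sum_mul, cf_sum]
  exact Finset.sum_congr rfl fun i _ => cf_single_mul _ _ _ _

lemma E_add (F : Dat r) (B : Finset (Fin r)) (c d : Fin 4 → ℂ) :
    E F B (c + d) = E F B c + E F B d := by
  apply ext_cf; intro p
  unfold E
  rw [cf_add, cf_sum, cf_sum, cf_sum, ← Finset.sum_add_distrib]
  refine Finset.sum_congr rfl fun i _ => ?_
  rw [cf_single, cf_single, cf_single, lin_add_left]
  split_ifs <;> ring

lemma E_smul (F : Dat r) (B : Finset (Fin r)) (z : ℂ) (c : Fin 4 → ℂ) :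
    E F B (z • c) = z • E F B c := by
  apply ext_cf; intro p
  unfold E
  rw [cf_smul, cf_sum, cf_sum, Finset.mul_sum]
  refine Finset.sum_congr rfl fun i _ => ?_
  rw [cf_single, cf_single, lin_smul_left]
  split_ifs <;> ring

/-- `D_c`: the diagonal part `c(p) - s c_3` plus multiplication by `E_c^B` -/
noncomputable def D (F : Dat r) (B : Finset (Fin r)) (s : ℂ) (c : Fin 4 → ℂ) : LL →ₗ[ℂ] LL where
  toFun η := dg (fun p => lin c p - s * c 3) η + E F B c * η
  map_add' η ξ := by rw [map_add, mul_add]; abel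
  map_smul' z η := by
    rw [map_smul, RingHom.id_apply, smul_add, mul_smul_comm]

lemma D_apply (F : Dat r) (B : Finset (Fin r)) (s : ℂ) (c : Fin 4 → ℂ) (η : LL) :
    D F B s c η = dg (fun p => lin c p - s * c 3) η + E F B c * η := rfl

lemma cf_D (F : Dat r) (B : Finset (Fin r)) (s : ℂ) (c : Fin 4 → ℂ) (η : LL) (p : Pt) :
    cf (D F B s c η) p = (lin c p - s * c 3) * cf η p +
      ∑ i ∈ B, F.κ i * lin c (F.hat i) * cf η (p - F.hat i) := by
  rw [D_apply, cf_add, cf_dg, cf_E_mul]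

lemma D_add_left (F : Dat r) (B : Finset (Fin r)) (s : ℂ) (c d : Fin 4 → ℂ) (η : LL) :
    D F B s (c + d) η = D F B s c η + D F B s d η := by
  apply ext_cf; intro p
  rw [cf_add, cf_D, cf_D, cf_D, lin_add_left]
  simp only [lin_add_left, Pi.add_apply, mul_add, add_mul, Finset.sum_add_distrib]
  ring

lemma D_smul_left (F : Dat r) (B : Finset (Fin r)) (s z : ℂ) (c : Fin 4 → ℂ) (η : LL) :
    D F B s (z • c) η = z • D F B s c η := by
  apply ext_cf; intro p
  rw [cf_smul, cf_D, cf_D, lin_smul_left, mul_add, Finset.mul_sum]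
  congr 1
  · simp only [Pi.smul_apply, smul_eq_mul]; ring
  · refine Finset.sum_congr rfl fun i _ => ?_
    rw [lin_smul_left]; ring

lemma D_sum_left {ι : Type*} (F : Dat r) (B : Finset (Fin r)) (s : ℂ) (S : Finset ι)
    (z : ι → ℂ) (c : ι → Fin 4 → ℂ) (η : LL) :
    D F B s (∑ i ∈ S, z i • c i) η = ∑ i ∈ S, z i • D F B s (c i) η := by
  classical
  induction S using Finset.induction_on with
  | empty =>
    simp only [Finset.sum_empty]
    have := D_smul_left F B s 0 0 η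
    rwa [zero_smul, zero_smul] at this
  | insert a S ha ih =>
    rw [Finset.sum_insert ha, Finset.sum_insert ha, D_add_left, D_smul_left, ih]

/-- the operators commute -/
lemma D_comm (F : Dat r) (B : Finset (Fin r)) (s : ℂ) (c d : Fin 4 → ℂ) (η : LL) :
    D F B s c (D F B s d η) = D F B s d (D F B s c η) := by
  apply ext_cf; intro p
  simp only [cf_D, lin_sub]
  simp only [mul_add, Finset.mul_sum, Finset.sum_add_distrib]
  have h : ∑ i ∈ B, ∑ j ∈ B, F.κ i * lin c (F.hat i) * (F.κ j * lin d (F.hat j) *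
        cf η (p - F.hat i - F.hat j)) =
      ∑ i ∈ B, ∑ j ∈ B, F.κ i * lin d (F.hat i) * (F.κ j * lin c (F.hat j) *
        cf η (p - F.hat i - F.hat j)) := by
    rw [Finset.sum_comm]
    refine Finset.sum_congr rfl fun i _ => Finset.sum_congr rfl fun j _ => ?_
    have : p - F.hat i - F.hat j = p - F.hat j - F.hat i := by abel
    rw [this]; ring
  rw [h]
  have h2 : ∑ i ∈ B, (lin c p - s * c 3) * (F.κ i * lin d (F.hat i) * cf η (p - F.hat i)) +
      ∑ i ∈ B, F.κ i * lin c (F.hat i) *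
        ((lin d p - lin d (F.hat i) - s * d 3) * cf η (p - F.hat i)) =
      ∑ i ∈ B, (lin d p - s * d 3) * (F.κ i * lin c (F.hat i) * cf η (p - F.hat i)) +
      ∑ i ∈ B, F.κ i * lin d (F.hat i) *
        ((lin c p - lin c (F.hat i) - s * c 3) * cf η (p - F.hat i)) := by
    rw [← Finset.sum_add_distrib, ← Finset.sum_add_distrib]
    refine Finset.sum_congr rfl fun i _ => ?_
    ring
  linear_combination h2

/-- `X` is closed under adding the `â_i`, `i ∈ B` -/
def Closed (F : Dat r) (B : Finset (Fin r)) (X : Set Pt) : Prop :=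
  ∀ p ∈ X, ∀ i ∈ B, p + F.hat i ∈ X

lemma Closed.inter {F : Dat r} {B : Finset (Fin r)} {X Y : Set Pt} (hX : Closed F B X)
    (hY : Closed F B Y) : Closed F B (X ∩ Y) :=
  fun p hp i hi => ⟨hX p hp.1 i hi, hY p hp.2 i hi⟩

lemma Closed.union {F : Dat r} {B : Finset (Fin r)} {X Y : Set Pt} (hX : Closed F B X)
    (hY : Closed F B Y) : Closed F B (X ∪ Y) := fun p hp i hi => by
  rcases hp with hp | hp
  · exact Or.inl (hX p hp i hi)
  · exact Or.inr (hY p hp i hi)

lemma SuppIn.D {F : Dat r} {B : Finset (Fin r)} {X : Set Pt} {η : LL} (h : SuppIn X η)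
    (hX : Closed F B X) (s : ℂ) (c : Fin 4 → ℂ) : SuppIn X (D F B s c η) := by
  intro p hp
  by_contra hpX
  apply hp
  rw [cf_D, h.cf_eq hpX, mul_zero, zero_add]
  refine Finset.sum_eq_zero fun i hi => ?_
  rw [h.cf_eq, mul_zero]
  intro hp'
  apply hpX
  have := hX _ hp' i hi
  rwa [sub_add_cancel] at this

lemma SuppIn.E_mul {F : Dat r} {B : Finset (Fin r)} {X : Set Pt} {η : LL} (h : SuppIn X η)
    (hX : Closed F B X) (c : Fin 4 → ℂ) : SuppIn X (E F B c * η) := by
  intro p hp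
  by_contra hpX
  apply hp
  rw [cf_E_mul]
  refine Finset.sum_eq_zero fun i hi => ?_
  rw [h.cf_eq, mul_zero]
  intro hp'
  apply hpX
  have := hX _ hp' i hi
  rwa [sub_add_cancel] at this

/-! ### Facet functionals -/

/-- `ℓ_w(u,k) = w·u - N k` -/
def ell (w : Fin 3 → ℤ) (N : ℤ) (p : Pt) : ℤ := w 0 * p 0 + w 1 * p 1 + w 2 * p 2 - N * p 3

lemma ell_add (w : Fin 3 → ℤ) (N : ℤ) (p q : Pt) : ell w N (p + q) = ell w N p + ell w N q := by
  simp only [ell, Pi.add_apply]; ring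

lemma ell_sub (w : Fin 3 → ℤ) (N : ℤ) (p q : Pt) : ell w N (p - q) = ell w N p - ell w N q := by
  simp only [ell, Pi.sub_apply]; ring

/-- the real version of `ell` -/
def ellR (w : Fin 3 → ℤ) (N : ℤ) (x : Fin 4 → ℝ) : ℝ :=
  w 0 * x 0 + w 1 * x 1 + w 2 * x 2 - N * x 3

/-- an integral point as a real point -/
def toR (p : Pt) : Fin 4 → ℝ := fun j => (p j : ℝ)

lemma ellR_toR (w : Fin 3 → ℤ) (N : ℤ) (p : Pt) : ellR w N (toR p) = ell w N p := by
  simp [ellR, toR, ell]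

lemma ellR_add (w : Fin 3 → ℤ) (N : ℤ) (x y : Fin 4 → ℝ) :
    ellR w N (x + y) = ellR w N x + ellR w N y := by
  simp only [ellR, Pi.add_apply]; ring

lemma ellR_sub (w : Fin 3 → ℤ) (N : ℤ) (x y : Fin 4 → ℝ) :
    ellR w N (x - y) = ellR w N x - ellR w N y := by
  simp only [ellR, Pi.sub_apply]; ring

lemma ellR_smul (w : Fin 3 → ℤ) (N : ℤ) (t : ℝ) (x : Fin 4 → ℝ) :
    ellR w N (t • x) = t * ellR w N x := by
  simp only [ellR, Pi.smul_apply, smul_eq_mul]; ring

/-- the coefficients of `ℓ_w` as a complex linear form -/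
noncomputable def ec (w : Fin 3 → ℤ) (N : ℤ) : Fin 4 → ℂ :=
  ![(w 0 : ℂ), (w 1 : ℂ), (w 2 : ℂ), -(N : ℂ)]

lemma lin_ec (w : Fin 3 → ℤ) (N : ℤ) (p : Pt) : lin (ec w N) p = (ell w N p : ℂ) := by
  simp [lin, ec, ell, Fin.sum_univ_four]; ring

/-- the coordinate linear forms -/
noncomputable def bs (j : Fin 4) : Fin 4 → ℂ := Pi.single j 1

lemma lin_bs (j : Fin 4) (p : Pt) : lin (bs j) p = (p j : ℂ) := by
  simp [lin, bs, Pi.single_apply]

/-- `1̂ = (1,1,1,0)` -/
def one4 : Pt := ![1, 1, 1, 0]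

/-- `|w|` -/
def wt (w : Fin 3 → ℤ) : ℤ := w 0 + w 1 + w 2

lemma ell_one4 (w : Fin 3 → ℤ) (N : ℤ) : ell w N one4 = wt w := by
  simp [ell, one4, wt]

/-- the exponents on the face of `w`, `N` -/
def Dat.face (F : Dat r) (w : Fin 3 → ℤ) (N : ℤ) : Finset (Fin r) :=
  univ.filter fun i => ell w N (F.hat i) = 0

lemma mem_face {F : Dat r} {w : Fin 3 → ℤ} {N : ℤ} {i : Fin r} :
    i ∈ F.face w N ↔ ell w N (F.hat i) = 0 := by
  simp [Dat.face]

/-- `w` is the normal of a facet of the Newton polyhedron `conv(a_i) + ℝ³_{≥0}` (equivalently a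
ray of its normal fan) and `N = min w·a_i` -/
structure Facet (F : Dat r) (w : Fin 3 → ℤ) (N : ℤ) : Prop where
  nonneg : ∀ j, 0 ≤ w j
  prim : ∀ d : ℤ, (∀ j, d ∣ w j) → IsUnit d
  min_le : ∀ i, 0 ≤ ell w N (F.hat i)
  attained : ∃ i, ell w N (F.hat i) = 0
  ray : ∀ k : Fin 3 → ℝ,
    (∀ i ∈ F.face w N, ∀ i' ∈ F.face w N,
      ∑ j, k j * (F.a i j : ℝ) = ∑ j, k j * (F.a i' j : ℝ)) →
    (∀ j, w j = 0 → k j = 0) → ∃ c : ℝ, ∀ j, k j = c * (w j : ℝ)

/-- the boundary of a 1-chain with respect to the forms `c i` -/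
noncomputable def bd {ι : Type*} [Fintype ι] (F : Dat r) (B : Finset (Fin r)) (s : ℂ)
    (c : ι → Fin 4 → ℂ) (η : ι → LL) : LL := ∑ i, D F B s (c i) (η i)

/-- the boundary of a 2-chain (any matrix) -/
noncomputable def bd2 {ι : Type*} [Fintype ι] (F : Dat r) (B : Finset (Fin r)) (s : ℂ)
    (c : ι → Fin 4 → ℂ) (ζ : ι → ι → LL) (j : ι) : LL := ∑ i, D F B s (c i) (ζ i j - ζ j i)

lemma bd_bd2 {ι : Type*} [Fintype ι] (F : Dat r) (B : Finset (Fin r)) (s : ℂ)
    (c : ι → Fin 4 → ℂ) (ζ : ι → ι → LL) : bd F B s c (bd2 F B s c ζ) = 0 := by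
  unfold bd bd2
  simp only [map_sum, map_sub, Finset.sum_sub_distrib]
  rw [sub_eq_zero]
  conv_lhs => rw [Finset.sum_comm]
  refine Finset.sum_congr rfl fun i _ => Finset.sum_congr rfl fun j _ => ?_
  exact D_comm F B s _ _ _

end Pool.Agent.H37.SM
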