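import Pool.Agent.H37.SM.ZG2

/-! Module CLI: critical facets at integers. -/

set_option autoImplicit false

namespace Pool.Agent.H37.SM

open Finset Pool.Agent.H22

variable {r : ℕ} {a : Fin r → (Fin 3 →₀ ℕ)}

private lemma cli_wmin_le (w : Fin 3 → ℕ) (i : Fin r) : wmin a w ≤ ∑ j, a i j * w j := by
  unfold wmin
  exact ciInf_le (OrderBot.bddBelow _) i

private lemma cli_face {w : Fin 3 → ℕ} {u : Fin r} (hu : u ∈ faceN a w) :
    a u 0 * w 0 + a u 1 * w 1 + a u 2 * w 2 = wmin a w := by
  rw [← mem_faceN.mp hu, Fin.sum_univ_three]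

private lemma cli_ge (w : Fin 3 → ℕ) (u : Fin r) :
    wmin a w ≤ a u 0 * w 0 + a u 1 * w 1 + a u 2 * w 2 := by
  have := cli_wmin_le (a := a) w u
  rwa [Fin.sum_univ_three] at this

/-- with two positive coordinates no coordinate is constant on the face -/
private lemma cli_nonconst {w : Fin 3 → ℕ} (hw : RayN a w) (i j : Fin 3) (hij : i ≠ j)
    (hi : 0 < w i) (hj : 0 < w j) : ∃ u ∈ faceN a w, a u i ≠ 0 := by
  classical
  by_contra hno
  push Not at hno
  obtain ⟨c, hc⟩ := hw.ray (Pi.single i 1) (by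
    have e1 : ∀ u ∈ faceN a w, ∑ m, (Pi.single i (1 : ℝ) : Fin 3 → ℝ) m * (a u m : ℝ) = 0 := by
      intro u hu
      refine Finset.sum_eq_zero fun m _ => ?_
      by_cases hm : m = i
      · rw [hm, hno u hu]; simp
      · rw [Pi.single_eq_of_ne hm, zero_mul]
    intro u hu u' hu'
    rw [e1 u hu, e1 u' hu']) (fun m hm => by
      have : m ≠ i := by
        intro h; rw [h] at hm; exact hi.ne' hm
      rw [Pi.single_eq_of_ne this])
  have h1 := hc j
  have h2 := hc i
  rw [Pi.single_eq_of_ne hij.symm] at h1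
  rw [Pi.single_eq_same] at h2
  have hwj : (w j : ℝ) ≠ 0 := by exact_mod_cast hj.ne'
  have hc0 : c = 0 := by
    rcases mul_eq_zero.mp h1.symm with h | h
    · exact h
    · exact absurd h hwj
  rw [hc0, zero_mul] at h2
  exact one_ne_zero h2

private lemma cli_wsum (w : Fin 3 → ℕ) : wsum w = w 0 + w 1 + w 2 := by
  unfold wsum; rw [Fin.sum_univ_three]

private lemma cli_wsum_pos {w : Fin 3 → ℕ} (hw : RayN a w) : 0 < wsum w := by
  rw [cli_wsum]
  by_contra h
  have h0 : w 0 = 0 := by omega
  have h1 : w 1 = 0 := by omega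
  have h2 : w 2 = 0 := by omega
  have := hw.prim 2 (fun j => by fin_cases j <;> simp [h0, h1, h2])
  omega

private lemma cli_crit {m : ℕ} {w : Fin 3 → ℕ} (hc : Crit a (-(m : ℂ)) w) :
    w 0 + w 1 + w 2 = m * wmin a w := by
  unfold Crit at hc
  have h : (wsum w : ℂ) = m * wmin a w := by linear_combination hc
  have h' : wsum w = m * wmin a w := by exact_mod_cast h
  rwa [cli_wsum] at h'

private lemma cli_nat (x y z p q s N : ℕ) (h : p * x + q * y + s * z = N) (hxy : y ≤ x)
    (hxz : z ≤ x) (hy : 0 < y) (hz : 0 < z) (hN : 2 * N ≤ x + y + z) (hp : p ≠ 0) :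
    p = 1 ∧ q = 0 ∧ s = 0 := by
  have hp1 : p = 1 := by
    by_contra hne
    have h2 : 2 ≤ p := by omega
    have h3 : 2 * x ≤ p * x := Nat.mul_le_mul_right x h2
    have h4 : 0 ≤ q * y := Nat.zero_le _
    have h5 : 0 ≤ s * z := Nat.zero_le _
    omega
  subst hp1
  refine ⟨rfl, ?_, ?_⟩
  · by_contra hne
    have h3 : 1 * y ≤ q * y := Nat.mul_le_mul_right y (by omega)
    have h5 : 0 ≤ s * z := Nat.zero_le _
    omega
  · by_contra hne
    have h3 : 1 * z ≤ s * z := Nat.mul_le_mul_right z (by omega)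
    have h5 : 0 ≤ q * y := Nat.zero_le _
    omega

private lemma cli_pair (x y m N : ℕ) (hx : x ≤ N) (hy : y ≤ N) (hx0 : 0 < x)
    (hm : 2 ≤ m) (h : x + y = m * N) : m = 2 ∧ x = N ∧ y = N := by
  have h1 : 2 * N ≤ m * N := Nat.mul_le_mul_right N hm
  have h2 : x = N := by omega
  have h3 : y = N := by omega
  refine ⟨?_, h2, h3⟩
  have h4 : m * N = 2 * N := by omega
  exact Nat.eq_of_mul_eq_mul_right (by omega) h4

/-- Critical rays at `s0 = -m`, `m ≥ 2`: `|w| = m N`. Either `w` is `e_i + e_{i'}` with `N = 1`, `m = 2`, or all coordinates are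
positive and there is an index `i` with `w_i = N`, such that the only exponent of the face with positive `i`-th coordinate is
`e_i`, and `e_i` is in the face. -/
theorem crit_int (hr : 0 < r) (m : ℕ) (hm : 2 ≤ m) (w : Fin 3 → ℕ) (hw : RayN a w)
    (hc : Crit a (-(m : ℂ)) w) :
    (m = 2 ∧ wmin a w = 1 ∧ ∃ i i' : Fin 3, i ≠ i' ∧ w = eN i + eN i') ∨
      ((∀ j, 0 < w j) ∧ ∃ i, w i = wmin a w ∧ (∃ u ∈ faceN a w, a u i = 1) ∧
        ∀ u ∈ faceN a w, a u i ≠ 0 → ∀ j, a u j = eN i j) := by
  have hsum := cli_crit hc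
  set N := wmin a w with hN
  have h2N : 2 * N ≤ m * N := Nat.mul_le_mul_right N hm
  have hle : ∀ u ∈ faceN a w, ∀ i, a u i ≠ 0 → w i ≤ N := by
    intro u hu i hi
    have h1 := cli_face hu
    have h2 : w i ≤ a u i * w i := Nat.le_mul_of_pos_left _ (Nat.pos_of_ne_zero hi)
    have h3 : a u i * w i ≤ a u 0 * w 0 + a u 1 * w 1 + a u 2 * w 2 := by
      fin_cases i
      · show a u 0 * w 0 ≤ _
        omega
      · show a u 1 * w 1 ≤ _
        omega
      · show a u 2 * w 2 ≤ _
        omega
    rw [h1] at h3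
    exact h2.trans h3
  have hle' : ∀ i j : Fin 3, i ≠ j → 0 < w i → 0 < w j → w i ≤ N := by
    intro i j hij hi hj
    obtain ⟨u, hu, hui⟩ := cli_nonconst hw i j hij hi hj
    exact hle u hu i hui
  have hmN1 : m * N ≠ 1 := by
    intro h
    have := Nat.eq_one_of_mul_eq_one_right h
    omega
  have hprim1 : ∀ d, d ∣ w 0 → d ∣ w 1 → d ∣ w 2 → d = 1 := by
    intro d h0 h1 h2
    apply hw.prim
    intro j
    fin_cases j
    · exact h0
    · exact h1
    · exact h2
  rcases Nat.eq_zero_or_pos (w 0) with h0 | h0 <;> rcases Nat.eq_zero_or_pos (w 1) with h1 | h1 <;>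
    rcases Nat.eq_zero_or_pos (w 2) with h2 | h2
  · exfalso
    have := cli_wsum_pos hw
    rw [cli_wsum] at this
    omega
  · exfalso
    have := hprim1 (w 2) (by rw [h0]; exact dvd_zero _) (by rw [h1]; exact dvd_zero _) dvd_rfl
    omega
  · exfalso
    have := hprim1 (w 1) (by rw [h0]; exact dvd_zero _) dvd_rfl (by rw [h2]; exact dvd_zero _)
    omega
  · left
    obtain ⟨e1, e2, e3⟩ := cli_pair (w 1) (w 2) m N (hle' 1 2 (by decide) h1 h2)
      (hle' 2 1 (by decide) h2 h1) h1 hm (by omega)
    have e4 := hprim1 N (by rw [h0]; exact dvd_zero _) (by rw [e2]) (by rw [e3])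
    refine ⟨e1, e4, 1, 2, by decide, ?_⟩
    funext j
    fin_cases j
    · simp [eN, h0]
    · simp [eN, e2, e4]
    · simp [eN, e3, e4]
  · exfalso
    have := hprim1 (w 0) dvd_rfl (by rw [h1]; exact dvd_zero _) (by rw [h2]; exact dvd_zero _)
    omega
  · left
    obtain ⟨e1, e2, e3⟩ := cli_pair (w 0) (w 2) m N (hle' 0 2 (by decide) h0 h2)
      (hle' 2 0 (by decide) h2 h0) h0 hm (by omega)
    have e4 := hprim1 N (by rw [e2]) (by rw [h1]; exact dvd_zero _) (by rw [e3])
    refine ⟨e1, e4, 0, 2, by decide, ?_⟩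
    funext j
    fin_cases j
    · simp [eN, e2, e4]
    · simp [eN, h1]
    · simp [eN, e3, e4]
  · left
    obtain ⟨e1, e2, e3⟩ := cli_pair (w 0) (w 1) m N (hle' 0 1 (by decide) h0 h1)
      (hle' 1 0 (by decide) h1 h0) h0 hm (by omega)
    have e4 := hprim1 N (by rw [e2]) (by rw [e3]) (by rw [h2]; exact dvd_zero _)
    refine ⟨e1, e4, 0, 1, by decide, ?_⟩
    funext j
    fin_cases j
    · simp [eN, e2, e4]
    · simp [eN, e3, e4]
    · simp [eN, h2]
  · right
    have hpos : ∀ j, 0 < w j := by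
      intro j; fin_cases j
      · exact h0
      · exact h1
      · exact h2
    refine ⟨hpos, ?_⟩
    obtain ⟨i, hi⟩ := Finite.exists_max w
    have hex : ∀ i : Fin 3, ∃ u ∈ faceN a w, a u i ≠ 0 := by
      intro i
      have hd : ∀ i : Fin 3, ∃ j, i ≠ j := by decide
      obtain ⟨j, hj⟩ := hd i
      exact cli_nonconst hw i j hj (hpos i) (hpos j)
    have key : ∀ u ∈ faceN a w, a u i ≠ 0 → ∀ j, a u j = eN i j := by
      intro u hu hui
      have hf := cli_face hu
      fin_cases i
      · have hui' : a u 0 ≠ 0 := hui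
        have m1 : w 1 ≤ w 0 := hi 1
        have m2 : w 2 ≤ w 0 := hi 2
        obtain ⟨e1, e2, e3⟩ := cli_nat (w 0) (w 1) (w 2) (a u 0) (a u 1) (a u 2) N hf m1 m2 h1 h2
          (by omega) hui'
        intro j; fin_cases j
        · simpa [eN] using e1
        · simpa [eN] using e2
        · simpa [eN] using e3
      · have hui' : a u 1 ≠ 0 := hui
        have m1 : w 0 ≤ w 1 := hi 0
        have m2 : w 2 ≤ w 1 := hi 2
        obtain ⟨e1, e2, e3⟩ := cli_nat (w 1) (w 0) (w 2) (a u 1) (a u 0) (a u 2) N (by omega) m1 m2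
          h0 h2 (by omega) hui'
        intro j; fin_cases j
        · simpa [eN] using e2
        · simpa [eN] using e1
        · simpa [eN] using e3
      · have hui' : a u 2 ≠ 0 := hui
        have m1 : w 0 ≤ w 2 := hi 0
        have m2 : w 1 ≤ w 2 := hi 1
        obtain ⟨e1, e2, e3⟩ := cli_nat (w 2) (w 0) (w 1) (a u 2) (a u 0) (a u 1) N (by omega) m1 m2
          h0 h1 (by omega) hui'
        intro j; fin_cases j
        · simpa [eN] using e2
        · simpa [eN] using e3
        · simpa [eN] using e1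
    obtain ⟨u, hu, hui⟩ := hex i
    have hk := key u hu hui
    have hf := cli_face hu
    have hui1 : a u i = 1 := by rw [hk i]; simp [eN]
    refine ⟨i, ?_, ⟨u, hu, hui1⟩, key⟩
    rw [hk 0, hk 1, hk 2] at hf
    rw [← hN] at hf
    rw [← hf]
    fin_cases i <;> simp [eN]

private lemma cli_par (c v d : Fin 3 → ℂ) (hc : ∃ i, c i ≠ 0) (hv : ∀ i j, c i * v j = c j * v i)
    (hd : ∀ i j, c i * d j = c j * d i) (hd0 : ∃ i, d i ≠ 0) : ∃ t, ∀ j, v j = t * d j := by
  obtain ⟨i, hi⟩ := hc
  have hdi : d i ≠ 0 := by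
    intro h
    obtain ⟨j, hj⟩ := hd0
    have := hd i j
    rw [h, mul_zero] at this
    exact hj ((mul_eq_zero.mp this).resolve_left hi)
  refine ⟨v i / d i, fun j => ?_⟩
  have h1 := hv i j
  have h2 := hd i j
  field_simp
  have h3 : c i * (v j * d i) = c i * (v i * d j) := by
    linear_combination d i * h1 - v i * h2
  exact mul_left_cancel₀ hi h3

private lemma cli_perp (x y v : Fin 3 → ℂ) (h1 : x 0 * v 0 + x 1 * v 1 + x 2 * v 2 = 0)
    (h2 : y 0 * v 0 + y 1 * v 1 + y 2 * v 2 = 0) :
    ∀ i j, (![x 1 * y 2 - x 2 * y 1, x 2 * y 0 - x 0 * y 2, x 0 * y 1 - x 1 * y 0] : Fin 3 → ℂ) i *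
      v j = (![x 1 * y 2 - x 2 * y 1, x 2 * y 0 - x 0 * y 2, x 0 * y 1 - x 1 * y 0] : Fin 3 → ℂ) j *
      v i := by
  have e01 : (x 1 * y 2 - x 2 * y 1) * v 1 = (x 2 * y 0 - x 0 * y 2) * v 0 := by
    linear_combination y 2 * h1 - x 2 * h2
  have e02 : (x 1 * y 2 - x 2 * y 1) * v 2 = (x 0 * y 1 - x 1 * y 0) * v 0 := by
    linear_combination (-y 1) * h1 + x 1 * h2
  have e12 : (x 2 * y 0 - x 0 * y 2) * v 2 = (x 0 * y 1 - x 1 * y 0) * v 1 := by
    linear_combination y 0 * h1 - x 0 * h2
  intro i j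
  fin_cases i <;> fin_cases j
  · rfl
  · exact e01
  · exact e02
  · exact e01.symm
  · rfl
  · exact e12
  · exact e02.symm
  · exact e12.symm
  · rfl

/-- Two exponents on two distinct critical facets: `1 + s0 p` is a multiple of `p - q`; coordinates with values in `{0,1}` are
different at `p` and `q`. -/
theorem crit_two (ha : Function.Injective a) (hr : 0 < r) (s0 : ℂ) (w w' : Fin 3 → ℕ)
    (hw : RayN a w) (hw' : RayN a w') (hne : w ≠ w') (hc : Crit a s0 w) (hc' : Crit a s0 w')
    (p q : Fin r) (hpq : p ≠ q) (hp : p ∈ faceN a w ∩ faceN a w')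
    (hq : q ∈ faceN a w ∩ faceN a w') :
    ∃ t : ℂ, ∀ j, 1 + s0 * (a p j : ℂ) = t * ((a p j : ℂ) - (a q j : ℂ)) := by
  obtain ⟨hp1, hp2⟩ := Finset.mem_inter.mp hp
  obtain ⟨hq1, hq2⟩ := Finset.mem_inter.mp hq
  have hfc : ∀ (z : Fin 3 → ℕ) (u : Fin r), u ∈ faceN a z →
      (z 0 : ℂ) * a u 0 + z 1 * a u 1 + z 2 * a u 2 = wmin a z := by
    intro z u hu
    have h := cli_face hu
    have h' : ((a u 0 * z 0 + a u 1 * z 1 + a u 2 * z 2 : ℕ) : ℂ) = (wmin a z : ℂ) := by
      exact_mod_cast h
    push_cast at h'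
    linear_combination h'
  have hcw : ∀ z : Fin 3 → ℕ, Crit a s0 z → (z 0 : ℂ) + z 1 + z 2 + wmin a z * s0 = 0 := by
    intro z hz
    unfold Crit at hz
    rw [cli_wsum] at hz
    push_cast at hz
    exact hz
  have a1 := hfc w p hp1
  have a2 := hfc w' p hp2
  have b1 := hfc w q hq1
  have b2 := hfc w' q hq2
  have c1 := hcw w hc
  have c2 := hcw w' hc'
  refine cli_par (![(w 1 : ℂ) * w' 2 - w 2 * w' 1, w 2 * w' 0 - w 0 * w' 2,
    w 0 * w' 1 - w 1 * w' 0]) (fun j => 1 + s0 * (a p j : ℂ)) (fun j => (a p j : ℂ) - (a q j : ℂ))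
    ?_ ?_ ?_ ?_
  · by_contra hno
    push Not at hno
    have z0 : (w 1 : ℂ) * w' 2 - w 2 * w' 1 = 0 := hno 0
    have z1 : (w 2 : ℂ) * w' 0 - w 0 * w' 2 = 0 := hno 1
    have z2 : (w 0 : ℂ) * w' 1 - w 1 * w' 0 = 0 := hno 2
    have r0 : (w 1 : ℝ) * w' 2 - w 2 * w' 1 = 0 := by exact_mod_cast z0
    have r1 : (w 2 : ℝ) * w' 0 - w 0 * w' 2 = 0 := by exact_mod_cast z1
    have r2 : (w 0 : ℝ) * w' 1 - w 1 * w' 0 = 0 := by exact_mod_cast z2
    have hind := rayN_indep hw hw' hne
    rw [LinearIndependent.pair_iff] at hind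
    have hall : ∀ i, w i = 0 := by
      intro i
      have := (hind (w' i : ℝ) (-(w i : ℝ)) (by
        funext j
        simp only [Pi.add_apply, Pi.smul_apply, smul_eq_mul, toReal, Pi.zero_apply]
        fin_cases i <;> fin_cases j
        · show (w' 0 : ℝ) * w 0 + -(w 0 : ℝ) * w' 0 = 0
          ring
        · show (w' 0 : ℝ) * w 1 + -(w 0 : ℝ) * w' 1 = 0
          linear_combination -r2
        · show (w' 0 : ℝ) * w 2 + -(w 0 : ℝ) * w' 2 = 0
          linear_combination r1
        · show (w' 1 : ℝ) * w 0 + -(w 1 : ℝ) * w' 0 = 0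
          linear_combination r2
        · show (w' 1 : ℝ) * w 1 + -(w 1 : ℝ) * w' 1 = 0
          ring
        · show (w' 1 : ℝ) * w 2 + -(w 1 : ℝ) * w' 2 = 0
          linear_combination -r0
        · show (w' 2 : ℝ) * w 0 + -(w 2 : ℝ) * w' 0 = 0
          linear_combination -r1
        · show (w' 2 : ℝ) * w 1 + -(w 2 : ℝ) * w' 1 = 0
          linear_combination r0
        · show (w' 2 : ℝ) * w 2 + -(w 2 : ℝ) * w' 2 = 0
          ring)).2
      have h2 : (w i : ℝ) = 0 := by linarith
      exact_mod_cast h2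
    have := cli_wsum_pos hw
    rw [cli_wsum, hall 0, hall 1, hall 2] at this
    omega
  · refine cli_perp (fun j => (w j : ℂ)) (fun j => (w' j : ℂ)) _ ?_ ?_
    · linear_combination c1 + s0 * a1
    · linear_combination c2 + s0 * a2
  · refine cli_perp (fun j => (w j : ℂ)) (fun j => (w' j : ℂ)) _ ?_ ?_
    · linear_combination a1 - b1
    · linear_combination a2 - b2
  · by_contra hno
    push Not at hno
    apply hpq
    apply ha
    ext j
    have h := hno j
    have h' : (a p j : ℂ) = a q j := by linear_combination h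
    exact_mod_cast h'

/-- first type of critical ray with its index -/
private def CliA (a : Fin r → (Fin 3 →₀ ℕ)) (w : Fin 3 → ℕ) (i : Fin 3) : Prop :=
  (∀ j, 0 < w j) ∧ w i = wmin a w ∧ ∀ u ∈ faceN a w, a u i ≠ 0 → ∀ j, a u j = eN i j

/-- second type of critical ray with its two indices -/
private def CliB (a : Fin r → (Fin 3 →₀ ℕ)) (w : Fin 3 → ℕ) (i i' : Fin 3) : Prop :=
  i ≠ i' ∧ w = eN i + eN i' ∧ wmin a w = 1 ∧
    ((∃ u, ∀ j, a u j = eN i' j) → ∃ u, ∀ j, a u j = eN i j)

private lemma cli_dotB (i i' : Fin 3) (P : Fin 3 → ℕ) :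
    ∑ j, P j * (eN i + eN i') j = P i + P i' := by
  simp only [Pi.add_apply, mul_add, Finset.sum_add_distrib, eN, Pi.single_apply, mul_ite, mul_one,
    mul_zero, Finset.sum_ite_eq', Finset.mem_univ, if_true]

private lemma cli_B_face {w : Fin 3 → ℕ} {i i' : Fin 3} (h : CliB a w i i') {u : Fin r}
    (hu : u ∈ faceN a w) : a u i + a u i' = 1 := by
  obtain ⟨-, h2, h3, -⟩ := h
  have h4 := mem_faceN.mp hu
  rw [h3] at h4
  rw [h2] at h4
  rw [← h4]
  exact (cli_dotB i i' (fun j => a u j)).symm

private lemma cli_B_ge {w : Fin 3 → ℕ} {i i' : Fin 3} (h : CliB a w i i') (u : Fin r) :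
    1 ≤ a u i + a u i' := by
  obtain ⟨-, h2, h3, -⟩ := h
  have h4 := cli_wmin_le (a := a) w u
  rw [h3] at h4
  rw [h2] at h4
  refine h4.trans_eq ?_
  exact cli_dotB i i' (fun j => a u j)

private lemma cli_sum3 (f : Fin 3 → ℕ) (i j k : Fin 3) (hij : i ≠ j) (hik : i ≠ k) (hjk : j ≠ k) :
    ∑ l, f l = f i + f j + f k := by
  have h : (univ : Finset (Fin 3)) = {i, j, k} := by
    revert i j k; decide
  rw [h, Finset.sum_insert, Finset.sum_insert, Finset.sum_singleton]
  · ring
  · simpa using hjk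
  · simp only [Finset.mem_insert, Finset.mem_singleton, not_or]
    exact ⟨hij, hik⟩

private lemma cli_third (i j k l : Fin 3) (hij : i ≠ j) (hik : i ≠ k) (hjk : j ≠ k) :
    l = i ∨ l = j ∨ l = k := by
  revert i j k l; decide

private lemma eN_self (i : Fin 3) : eN i i = 1 := by simp [eN]

private lemma eN_ne {i j : Fin 3} (h : j ≠ i) : eN i j = 0 := by simp [eN, h]

/-- the main combinatorial step, `p_i = 1`, `q_i = 0` -/
private lemma cli_adj {m : ℕ} (hm : 2 ≤ m) {w w' : Fin 3 → ℕ} {i j k : Fin 3} (hij : i ≠ j)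
    (hik : i ≠ k) (hjk : j ≠ k) (hw : CliA a w i ∨ ∃ i', CliB a w i i')
    (hw' : CliA a w' j ∨ ∃ j', CliB a w' j j') (hne : w ≠ w') (p q : Fin r)
    (hp : p ∈ faceN a w) (hp' : p ∈ faceN a w') (hq : q ∈ faceN a w) (hq' : q ∈ faceN a w')
    (hpi : a p i = 1) (hqi : a q i = 0) (hj : (a p j = 1 ∧ a q j = 0) ∨ (a p j = 0 ∧ a q j = 1))
    (hrel : ∀ l, (1 : ℤ) - m * a p l = (1 - m) * (a p l - a q l)) : False := by
  rcases hj with ⟨hpj, hqj⟩ | ⟨hpj, hqj⟩
  · -- `p_j = 1`
    rcases hw with hA | ⟨i', hB⟩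
    · have := hA.2.2 p hp (by omega) j
      rw [eN_ne hij.symm] at this
      omega
    · rcases hw' with hA' | ⟨j', hB'⟩
      · have := hA'.2.2 p hp' (by omega) i
        rw [eN_ne hij] at this
        omega
      · have e1 := cli_B_face hB hp
        have e2 := cli_B_face hB' hp'
        have e3 := cli_B_face hB hq
        have hi' : i' = k := by
          rcases cli_third i j k i' hij hik hjk with h | h | h
          · exact absurd h.symm hB.1
          · rw [h] at e1; omega
          · exact h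
        have hj' : j' = k := by
          rcases cli_third i j k j' hij hik hjk with h | h | h
          · rw [h] at e2; omega
          · exact absurd h.symm hB'.1
          · exact h
        subst hi'
        subst hj'
        -- `q = e_k`
        obtain ⟨u, hu⟩ := hB.2.2.2 ⟨q, fun l => by
          rcases cli_third i j j' l hij hik hjk with h | h | h
          · rw [h, eN_ne hik]; exact hqi
          · rw [h, eN_ne hjk]; exact hqj
          · rw [h, eN_self]; omega⟩
        have e4 := cli_B_ge hB' u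
        rw [hu j, hu j', eN_ne hij.symm, eN_ne hik.symm] at e4
        omega
  · -- `p_j = 0`, `q_j = 1`
    have h1 := hrel j
    rw [hpj, hqj] at h1
    have hm2 : m = 2 := by push_cast at h1; omega
    subst hm2
    have h2 := hrel k
    push_cast at h2
    have hpk : a p k + a q k = 1 := by omega
    have hqA : CliA a w' j → ∀ l, a q l = eN j l := fun hA' => hA'.2.2 q hq' (by omega)
    have hpA : CliA a w i → ∀ l, a p l = eN i l := fun hA => hA.2.2 p hp (by omega)
    rcases hw with hA | ⟨i', hB⟩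
    · have e1 := hpA hA k
      rw [eN_ne hik.symm] at e1
      rcases hw' with hA' | ⟨j', hB'⟩
      · have e2 := hqA hA' k
        rw [eN_ne hjk.symm] at e2
        omega
      · have e2 := cli_B_face hB' hp'
        have hj' : j' = i := by
          rcases cli_third i j k j' hij hik hjk with h | h | h
          · exact h
          · exact absurd h.symm hB'.1
          · rw [h] at e2; omega
        subst hj'
        obtain ⟨u, hu⟩ := hB'.2.2.2 ⟨p, hpA hA⟩
        -- `w . u = w_j`, `w . q = w_j + w_k`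
        have e3 := cli_wmin_le (a := a) w u
        rw [← mem_faceN.mp hq, cli_sum3 _ j' j k hij hik hjk, cli_sum3 _ j' j k hij hik hjk,
          hu j', hu j, hu k, eN_self, eN_ne hij, eN_ne hjk.symm, hqi, hqj] at e3
        have e4 : a q k = 1 := by omega
        rw [e4] at e3
        have := hA.1 k
        omega
    · have e1 := cli_B_face hB hq
      rcases hw' with hA' | ⟨j', hB'⟩
      · have e2 := hqA hA' k
        rw [eN_ne hjk.symm] at e2
        have hi' : i' = j := by
          rcases cli_third i j k i' hij hik hjk with h | h | h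
          · exact absurd h.symm hB.1
          · exact h
          · rw [h] at e1; omega
        subst hi'
        obtain ⟨u, hu⟩ := hB.2.2.2 ⟨q, hqA hA'⟩
        have e3 := cli_wmin_le (a := a) w' u
        rw [← mem_faceN.mp hp', cli_sum3 _ i i' k hij hik hjk, cli_sum3 _ i i' k hij hik hjk,
          hu i, hu i', hu k, eN_self, eN_ne hij.symm, eN_ne hik.symm, hpi, hpj] at e3
        have e4 : a p k = 1 := by omega
        rw [e4] at e3
        have := hA'.1 k
        omega
      · have e2 := cli_B_face hB hp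
        have e3 := cli_B_face hB' hp'
        have e4 := cli_B_face hB' hq'
        rcases cli_third i j k i' hij hik hjk with h | h | h
        · exact absurd h.symm hB.1
        · -- `i' = j`
          subst h
          have hj' : j' = k := by
            rcases cli_third i i' k j' hij hik hjk with h | h | h
            · exfalso
              subst h
              apply hne
              rw [hB.2.1, hB'.2.1, add_comm]
            · exact absurd h.symm hB'.1
            · exact h
          subst hj'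
          -- `q = e_j`
          obtain ⟨u, hu⟩ := hB.2.2.2 ⟨q, fun l => by
            rcases cli_third i i' j' l hij hik hjk with h | h | h
            · rw [h, eN_ne hij]; exact hqi
            · rw [h, eN_self]; exact hqj
            · rw [h, eN_ne hjk.symm]; omega⟩
          have e5 := cli_B_ge hB' u
          rw [hu i', hu j', eN_ne hij.symm, eN_ne hik.symm] at e5
          omega
        · -- `i' = k`
          subst h
          have hj' : j' = i := by
            rcases cli_third i j i' j' hij hik hjk with h | h | h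
            · exact h
            · exact absurd h.symm hB'.1
            · rw [h] at e4; omega
          subst hj'
          obtain ⟨u, hu⟩ := hB'.2.2.2 ⟨p, fun l => by
            rcases cli_third j' j i' l hij hik hjk with h | h | h
            · rw [h, eN_self]; exact hpi
            · rw [h, eN_ne hij.symm]; exact hpj
            · rw [h, eN_ne hik.symm]; omega⟩
          have e5 := cli_B_ge hB u
          rw [hu j', hu i', eN_ne hij, eN_ne hjk.symm] at e5
          omega

private lemma cli_spec (hr : 0 < r) (m : ℕ) (hm : 2 ≤ m) (w : Fin 3 → ℕ) (hw : RayN a w)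
    (hc : Crit a (-(m : ℂ)) w) : ∃ i, CliA a w i ∨ ∃ i', CliB a w i i' := by
  rcases crit_int hr m hm w hw hc with ⟨-, h2, i, i', hii, hwe⟩ | ⟨h1, i, h2, -, h4⟩
  · by_cases h : ∃ u, ∀ j, a u j = eN i j
    · exact ⟨i, Or.inr ⟨i', hii, hwe, h2, fun _ => h⟩⟩
    · exact ⟨i', Or.inr ⟨i, hii.symm, by rw [hwe, add_comm], h2, fun h' => absurd h' h⟩⟩
  · exact ⟨i, Or.inl ⟨h1, h2, h4⟩⟩

/-- Proof. Integers `s0 = n ≠ -1`. If `n ≥ 0` there is no critical ray (`|w| > 0`): any `ι`. Let `n = -m`, `m ≥ 2`. Define `ι w` by choice: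
for `w` with positive coordinates the index `i` of `crit_int`; for `w = e_i + e_{i'}` an index `i` among the two such that there is
an exponent `u` of the face with `a_u = e_i`, if possible, otherwise any of the two. -/
theorem thin_int (ha : Function.Injective a) (hr : 0 < r) (n : ℤ) (hn : n ≠ -1) :
    ∃ ι, Thin a (n : ℂ) ι := by
  classical
  rcases le_or_gt 0 n with h0 | h0
  · -- no critical ray
    have hno : ∀ w, RayN a w → ¬ Crit a (n : ℂ) w := by
      intro w hw hc
      unfold Crit at hc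
      have h1 : (wsum w : ℤ) + (wmin a w : ℤ) * n = 0 := by exact_mod_cast hc
      have h2 := cli_wsum_pos hw
      have h3 : 0 ≤ (wmin a w : ℤ) * n := mul_nonneg (Int.natCast_nonneg _) h0
      omega
    exact ⟨fun _ => 0, fun w hw hc => absurd hc (hno w hw), fun w hw hc => absurd hc (hno w hw),
      fun w w' hw _ hc => absurd hc (hno w hw), fun w hw hc => absurd hc (hno w hw)⟩
  · obtain ⟨m, hm⟩ := Int.eq_ofNat_of_zero_le (show 0 ≤ -n by omega)
    have hm2 : 2 ≤ m := by omega
    have hnc : (n : ℂ) = -(m : ℂ) := by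
      have : n = -(m : ℤ) := by omega
      rw [this]; push_cast; ring
    rw [hnc]
    have hspec := fun (w : Fin 3 → ℕ) (h : RayN a w ∧ Crit a (-(m : ℂ)) w) =>
      cli_spec hr m hm2 w h.1 h.2
    let ι : (Fin 3 → ℕ) → Fin 3 := fun w =>
      if h : RayN a w ∧ Crit a (-(m : ℂ)) w then (hspec w h).choose else 0
    have hι : ∀ w, RayN a w → Crit a (-(m : ℂ)) w → CliA a w (ι w) ∨ ∃ i', CliB a w (ι w) i' := by
      intro w h1 h2
      have h3 : ι w = (hspec w ⟨h1, h2⟩).choose := dif_pos ⟨h1, h2⟩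
      rw [h3]
      exact (hspec w ⟨h1, h2⟩).choose_spec
    have hle : ∀ w, RayN a w → Crit a (-(m : ℂ)) w → ∀ u ∈ faceN a w, a u (ι w) ≤ 1 := by
      intro w hw hc u hu
      rcases hι w hw hc with hA | ⟨i', hB⟩
      · by_cases h : a u (ι w) = 0
        · omega
        · rw [hA.2.2 u hu h (ι w), eN_self]
      · have := cli_B_face hB hu
        omega
    refine ⟨ι, ?_, hle, ?_, ?_⟩
    · intro w hw hc
      rcases hι w hw hc with hA | ⟨i', hB⟩
      · exact hA.1 _
      · have h := congrFun hB.2.1 (ι w)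
        rw [Pi.add_apply, eN_self] at h
        omega
    · intro w w' hw hw' hc hc' hne p hp q hq hpq
      by_contra hij
      obtain ⟨hp1, hp2⟩ := Finset.mem_inter.mp hp
      obtain ⟨hq1, hq2⟩ := Finset.mem_inter.mp hq
      obtain ⟨t, ht⟩ := crit_two ha hr _ w w' hw hw' hne hc hc' p q hpq hp hq
      have hd : ∀ l, a p l ≤ 1 → a q l ≤ 1 → (a p l = 1 ∧ a q l = 0 ∧ t = 1 - m) ∨
          (a p l = 0 ∧ a q l = 1 ∧ t = -1) := by
        intro l h1 h2
        have h3 := ht l
        have e1 : a p l = 0 ∨ a p l = 1 := by omega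
        have e2 : a q l = 0 ∨ a q l = 1 := by omega
        rcases e1 with e1 | e1 <;> rcases e2 with e2 | e2
        · rw [e1, e2] at h3; simp at h3
        · rw [e1, e2] at h3
          right
          refine ⟨e1, e2, ?_⟩
          push_cast at h3
          linear_combination h3
        · rw [e1, e2] at h3
          left
          refine ⟨e1, e2, ?_⟩
          push_cast at h3
          linear_combination -h3
        · rw [e1, e2] at h3
          exfalso
          push_cast at h3
          have h4 : (m : ℂ) = 1 := by linear_combination -h3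
          have h5 : m = 1 := by exact_mod_cast h4
          omega
      have hthird : ∀ x y : Fin 3, x ≠ y → ∃ z, x ≠ z ∧ y ≠ z := by decide
      obtain ⟨k, hik, hjk⟩ := hthird _ _ hij
      have hjd := hd (ι w') (hle w' hw' hc' p hp2) (hle w' hw' hc' q hq2)
      rcases hd (ι w) (hle w hw hc p hp1) (hle w hw hc q hq1) with ⟨d1, d2, d3⟩ | ⟨d1, d2, d3⟩
      · refine cli_adj hm2 hij hik hjk (hι w hw hc) (hι w' hw' hc') hne p q hp1 hp2 hq1 hq2 d1 d2
          (by rcases hjd with h | h
              · exact Or.inl ⟨h.1, h.2.1⟩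
              · exact Or.inr ⟨h.1, h.2.1⟩) (fun l => ?_)
        have h3 := ht l
        rw [d3] at h3
        have h4 : (1 : ℂ) - m * a p l = (1 - m) * (a p l - a q l) := by linear_combination h3
        exact_mod_cast h4
      · -- exchange `p` and `q`
        refine cli_adj hm2 hij hik hjk (hι w hw hc) (hι w' hw' hc') hne q p hq1 hq2 hp1 hp2 d2 d1
          (by rcases hjd with h | h
              · exact Or.inr ⟨h.2.1, h.1⟩
              · exact Or.inl ⟨h.2.1, h.1⟩) (fun l => ?_)
        have h3 := ht l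
        rw [d3] at h3
        have h4 : (1 : ℂ) - m * a q l = (1 - m) * (a q l - a p l) := by linear_combination h3
        exact_mod_cast h4
    · intro w hw hc
      rcases hι w hw hc with hA | ⟨i', hB⟩
      · left
        intro u hu u' hu' h1 h2
        apply ha
        ext j
        rw [hA.2.2 u hu (by omega) j, hA.2.2 u' hu' (by omega) j]
      · right
        exact ⟨i', hB.1.symm, hB.2.1, hB.2.2.1⟩

end Pool.Agent.H37.SM
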