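import Pool.Agent.H37.SM.SLI

/-! Module CRD: coordinate facets and special edges. -/

set_option autoImplicit false

namespace Pool.Agent.H37.SM

open Finset

variable {r : ℕ} {F : Dat r} {w : Fin 3 → ℤ} {N : ℤ}

/-- the functional with the weights `φ` -/
noncomputable def crdPhi (φ : Pt → ℂ) : LL →ₗ[ℂ] ℂ where
  toFun η := Finsupp.linearCombination ℂ φ η.coeff
  map_add' η ξ := by
    have h : (η + ξ).coeff = η.coeff + ξ.coeff := rfl
    rw [h, map_add]
  map_smul' z η := by
    have h : (z • η).coeff = z • η.coeff := rfl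
    rw [h, map_smul, RingHom.id_apply]

lemma crdPhi_single (φ : Pt → ℂ) (p : Pt) (z : ℂ) :
    crdPhi φ (AddMonoidAlgebra.single p z) = z * φ p := by
  show Finsupp.linearCombination ℂ φ (AddMonoidAlgebra.single p z).coeff = z * φ p
  rw [AddMonoidAlgebra.coeff_single, Finsupp.linearCombination_single, smul_eq_mul]

lemma crdPhi_zero (φ : Pt → ℂ) (η : LL) (h : ∀ p, cf η p ≠ 0 → φ p = 0) : crdPhi φ η = 0 := by
  show Finsupp.linearCombination ℂ φ η.coeff = 0
  rw [Finsupp.linearCombination_apply, Finsupp.sum]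
  refine Finset.sum_eq_zero fun p hp => ?_
  rw [h p (Finsupp.mem_support_iff.mp hp), smul_zero]

/-- the transposed operator -/
noncomputable def crdT (F : Dat r) (B : Finset (Fin r)) (s : ℂ) (φ : Pt → ℂ) (c : Fin 4 → ℂ)
    (p : Pt) : ℂ :=
  (lin c p - s * c 3) * φ p + ∑ i ∈ B, F.κ i * lin c (F.hat i) * φ (p + F.hat i)

lemma crdPhi_D (F : Dat r) (B : Finset (Fin r)) (s : ℂ) (φ : Pt → ℂ) (c : Fin 4 → ℂ) (η : LL) :
    crdPhi φ (D F B s c η) = crdPhi (crdT F B s φ c) η := by
  induction η using AddMonoidAlgebra.induction_linear with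
  | zero => rw [map_zero, map_zero, map_zero]
  | add η ξ hη hξ => rw [map_add, map_add, map_add, hη, hξ]
  | single p z =>
    rw [D_apply, map_add, crdPhi_single]
    have h1 : dg (fun p => lin c p - s * c 3) (AddMonoidAlgebra.single p z) =
        AddMonoidAlgebra.single p ((lin c p - s * c 3) * z) := by
      apply ext_cf
      intro q
      rw [cf_dg, cf_single, cf_single]
      split_ifs with h
      · rw [h]
      · rw [mul_zero]
    have h2 : E F B c * AddMonoidAlgebra.single p z =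
        ∑ i ∈ B, AddMonoidAlgebra.single (F.hat i + p) (F.κ i * lin c (F.hat i) * z) := by
      unfold E
      rw [Finset.sum_mul]
      refine Finset.sum_congr rfl fun i _ => ?_
      rw [AddMonoidAlgebra.single_mul_single]
    rw [h1, h2, map_sum, crdPhi_single]
    simp only [crdPhi_single]
    unfold crdT
    rw [mul_add, Finset.mul_sum]
    congr 1
    · ring
    · refine Finset.sum_congr rfl fun i _ => ?_
      rw [add_comm (F.hat i) p]
      ring

lemma crdT_add (F : Dat r) (B : Finset (Fin r)) (s : ℂ) (φ : Pt → ℂ) (c d : Fin 4 → ℂ)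
    (p : Pt) : crdT F B s φ (c + d) p = crdT F B s φ c p + crdT F B s φ d p := by
  unfold crdT
  simp only [lin_add_left, Pi.add_apply, mul_add, add_mul, Finset.sum_add_distrib]
  ring

lemma crdT_smul (F : Dat r) (B : Finset (Fin r)) (s : ℂ) (φ : Pt → ℂ) (z : ℂ) (c : Fin 4 → ℂ)
    (p : Pt) : crdT F B s φ (z • c) p = z * crdT F B s φ c p := by
  unfold crdT
  simp only [lin_smul_left, Pi.smul_apply, smul_eq_mul, mul_add, Finset.mul_sum]
  congr 1
  · ring
  · refine Finset.sum_congr rfl fun i _ => ?_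
    ring

/-- two term recurrences on the integers -/
lemma crd_rec (a : ℤ → ℂ) (b : ℂ) (ha : ∀ k, a k ≠ 0) (hb : b ≠ 0) :
    ∃ ψ : ℤ → ℂ, (∀ k, a k * ψ k + b * ψ (k + 1) = 0) ∧ ∀ k, ψ k ≠ 0 := by
  let P : ℕ → ℂ := fun n => ∏ i ∈ range n, (-a i / b)
  let Q : ℕ → ℂ := fun n => ∏ i ∈ range n, (-b / a (-(i : ℤ) - 1))
  let ψ : ℤ → ℂ := fun k => if 0 ≤ k then P k.toNat else Q (-k).toNat
  have hP : ∀ n, P n ≠ 0 := fun n => Finset.prod_ne_zero_iff.mpr fun i _ =>
    div_ne_zero (neg_ne_zero.mpr (ha _)) hb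
  have hQ : ∀ n, Q n ≠ 0 := fun n => Finset.prod_ne_zero_iff.mpr fun i _ =>
    div_ne_zero (neg_ne_zero.mpr hb) (ha _)
  have h0 : P 0 = 1 := Finset.prod_range_zero _
  have h0' : Q 0 = 1 := Finset.prod_range_zero _
  refine ⟨ψ, ?_, ?_⟩
  · intro k
    by_cases hk : 0 ≤ k
    · obtain ⟨n, rfl⟩ := Int.eq_ofNat_of_zero_le hk
      have e1 : ψ (n : ℤ) = P n := by simp [ψ]
      have e2 : ψ ((n : ℤ) + 1) = P (n + 1) := by
        have : (0 : ℤ) ≤ (n : ℤ) + 1 := by omega
        have h3 : ((n : ℤ) + 1).toNat = n + 1 := by omega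
        simp only [ψ, if_pos this, h3]
      have e3 : P (n + 1) = P n * (-a n / b) := Finset.prod_range_succ _ _
      rw [e1, e2, e3]
      field_simp
      ring
    · obtain ⟨n, hn⟩ : ∃ n : ℕ, k = -(n : ℤ) - 1 := ⟨(-k - 1).toNat, by omega⟩
      have e1 : ψ k = Q (n + 1) := by
        have h3 : (-k).toNat = n + 1 := by omega
        simp only [ψ, if_neg hk, h3]
      have e2 : ψ (k + 1) = Q n := by
        by_cases hn0 : n = 0
        · have h4 : (0 : ℤ) ≤ k + 1 := by omega
          have h3 : (k + 1).toNat = 0 := by omega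
          simp only [ψ, if_pos h4, h3]
          rw [hn0, h0, h0']
        · have h4 : ¬ (0 : ℤ) ≤ k + 1 := by omega
          have h3 : (-(k + 1)).toNat = n := by omega
          simp only [ψ, if_neg h4, h3]
      have e3 : Q (n + 1) = Q n * (-b / a (-(n : ℤ) - 1)) := Finset.prod_range_succ _ _
      rw [e1, e2, e3, hn]
      have := ha (-(n : ℤ) - 1)
      field_simp
      ring
  · intro k
    show (if 0 ≤ k then P k.toNat else Q (-k).toNat) ≠ 0
    split_ifs
    · exact hP _
    · exact hQ _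

/-- a point of the torus at which a nonzero polynomial in two variables does not vanish -/
lemma crd_point (B : Finset (Fin r)) (e f : Fin r → ℤ) (κ : Fin r → ℂ) (he : ∀ i, 0 ≤ e i)
    (hf : ∀ i, 0 ≤ f i) (hinj : ∀ i ∈ B, ∀ i' ∈ B, e i = e i' → f i = f i' → i = i')
    (hB : B.Nonempty) (hκ : ∀ i, κ i ≠ 0) :
    ∃ x y : ℂ, x ≠ 0 ∧ y ≠ 0 ∧ ∑ i ∈ B, κ i * x ^ (e i) * y ^ (f i) ≠ 0 := by
  classical
  by_contra hno
  push Not at hno
  let m : Fin r → (Fin 2 →₀ ℕ) := fun i =>
    Finsupp.single 0 (e i).toNat + Finsupp.single 1 (f i).toNat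
  let g : MvPolynomial (Fin 2) ℂ := ∑ i ∈ B, MvPolynomial.monomial (m i) (κ i)
  have hm0 : ∀ i, m i 0 = (e i).toNat := fun i => by simp [m]
  have hm1 : ∀ i, m i 1 = (f i).toNat := fun i => by simp [m]
  have hg : g ≠ 0 := by
    obtain ⟨i0, hi0⟩ := hB
    intro hg
    have h1 : MvPolynomial.coeff (m i0) g = κ i0 := by
      show MvPolynomial.coeff (m i0) (∑ i ∈ B, MvPolynomial.monomial (m i) (κ i)) = κ i0
      rw [MvPolynomial.coeff_sum, Finset.sum_eq_single i0]
      · rw [MvPolynomial.coeff_monomial, if_pos rfl]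
      · intro i hi hne
        rw [MvPolynomial.coeff_monomial, if_neg]
        intro h
        apply hne
        have h2 : m i 0 = m i0 0 := by rw [h]
        have h3 : m i 1 = m i0 1 := by rw [h]
        rw [hm0, hm0] at h2
        rw [hm1, hm1] at h3
        have h4 := he i
        have h5 := he i0
        have h6 := hf i
        have h7 := hf i0
        exact hinj i hi i0 hi0 (by omega) (by omega)
      · intro h
        exact absurd hi0 h
    rw [hg, MvPolynomial.coeff_zero] at h1
    exact hκ i0 h1.symm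
  have hP : (MvPolynomial.X 0 * MvPolynomial.X 1 * g : MvPolynomial (Fin 2) ℂ) ≠ 0 :=
    mul_ne_zero (mul_ne_zero (MvPolynomial.X_ne_zero 0) (MvPolynomial.X_ne_zero 1)) hg
  apply hP
  apply MvPolynomial.funext
  intro v
  rw [map_mul, map_mul, MvPolynomial.eval_X, MvPolynomial.eval_X, map_zero]
  by_cases hv0 : v 0 = 0
  · rw [hv0, zero_mul, zero_mul]
  by_cases hv1 : v 1 = 0
  · rw [hv1, mul_zero, zero_mul]
  have h1 := hno (v 0) (v 1) hv0 hv1
  have h2 : MvPolynomial.eval v g = ∑ i ∈ B, κ i * v 0 ^ (e i) * v 1 ^ (f i) := by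
    show MvPolynomial.eval v (∑ i ∈ B, MvPolynomial.monomial (m i) (κ i)) = _
    rw [map_sum]
    refine Finset.sum_congr rfl fun i _ => ?_
    rw [MvPolynomial.eval_monomial, Finsupp.prod_fintype _ _ (fun _ => pow_zero _),
      Fin.prod_univ_two, hm0, hm1]
    have h4 : v 0 ^ (e i) = v 0 ^ (e i).toNat := by
      conv_lhs => rw [← Int.toNat_of_nonneg (he i)]
      rw [zpow_natCast]
    have h5 : v 1 ^ (f i) = v 1 ^ (f i).toNat := by
      conv_lhs => rw [← Int.toNat_of_nonneg (hf i)]
      rw [zpow_natCast]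
    rw [h4, h5]
    ring
  rw [h2, h1, mul_zero]

lemma crd_closed_univ (F : Dat r) (B : Finset (Fin r)) : Closed F B Set.univ :=
  fun _ _ _ _ => Set.mem_univ _

lemma crd_bd_sub {ι : Type*} [Fintype ι] (F : Dat r) (B : Finset (Fin r)) (s : ℂ)
    (c : ι → Fin 4 → ℂ) (η : ι → LL) (ζ : ι → ι → LL) :
    bd F B s c (fun j => η j - bd2 F B s c ζ j) = bd F B s c η := by
  have h := bd_bd2 F B s c ζ
  have h1 : bd F B s c (fun j => η j - bd2 F B s c ζ j) =
      bd F B s c η - bd F B s c (bd2 F B s c ζ) := by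
    unfold bd
    simp only [map_sub, Finset.sum_sub_distrib]
  rw [h1, h, sub_zero]

lemma crd_wt_eq {s0 : ℂ} (hs : (wt w : ℂ) + N * s0 = 0) (n : ℤ) (h : (n : ℂ) + N * s0 = 0) :
    n = wt w := by
  have : (n : ℂ) = (wt w : ℂ) := by linear_combination h - hs
  exact_mod_cast this

/-- cutting the right hand side -/
lemma crd_cut_one (η : LL) (h : SuppIn {p | wt w < ell w N p} (η - mono one4)) :
    cut (slice w N (wt w)) η = mono one4 := by
  apply ext_cf
  intro p
  by_cases hp : ell w N p = wt w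
  · rw [cf_cut_of_mem (show p ∈ slice w N (wt w) from hp)]
    have h1 : cf (η - mono one4) p = 0 := by
      apply h.cf_eq
      intro h2
      have h3 : wt w < ell w N p := h2
      omega
    rw [cf_sub] at h1
    linear_combination h1
  · rw [cf_cut_of_notMem (show p ∉ slice w N (wt w) from hp), cf_mono, if_neg]
    rintro rfl
    exact hp (ell_one4 w N)

lemma crd_supp_le (η : LL) (h : SuppIn {p | wt w < ell w N p} (η - mono one4)) :
    SuppIn {p | wt w ≤ ell w N p} η := by
  have h1 : η = (η - mono one4) + mono one4 := by abel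
  rw [h1]
  refine SuppIn.add (h.mono ?_) (suppIn_mono ?_)
  · intro p hp
    have h2 : wt w < ell w N p := hp
    exact h2.le
  · show wt w ≤ ell w N one4
    rw [ell_one4]

lemma crd_bd_cut {ι : Type*} [Fintype ι] (F : Dat r) (B : Finset (Fin r)) (s : ℂ)
    (c : ι → Fin 4 → ℂ) (hmin : ∀ l ∈ B, 0 ≤ ell w N (F.hat l)) (n : ℤ) (η : ι → LL)
    (hη : ∀ i, SuppIn {p | n ≤ ell w N p} (η i)) :
    bd F (B ∩ F.face w N) s c (fun i => cut (slice w N n) (η i)) =
      cut (slice w N n) (bd F B s c η) := by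
  unfold bd
  rw [map_sum]
  refine Finset.sum_congr rfl fun i _ => ?_
  rw [cut_D s (c i) B n hmin (η i) (hη i)]

lemma crd_sum_bs (c : Fin 4 → ℂ) : ∑ i, c i • bs i = c := by
  funext l
  rw [Finset.sum_apply, Finset.sum_eq_single l]
  · simp [bs]
  · intro i _ hne
    simp [bs, hne.symm]
  · intro h
    exact absurd (Finset.mem_univ l) h

/-- raising and cutting along one facet -/
lemma crd_step (B : Finset (Fin r)) (s0 : ℂ) (hmin : ∀ l ∈ B, 0 ≤ ell w N (F.hat l))
    (hs : (wt w : ℂ) + N * s0 = 0) (X : Set Pt) (hX : Closed F B X) (η : Fin 4 → LL)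
    (hη : ∀ j, SuppIn X (η j)) (hZ : ∀ j, SuppIn (Zc j) (η j))
    (hb : SuppIn {p | wt w < ell w N p} (bd F B s0 bs η - mono one4)) :
    ∃ y : Fin 4 → LL, (∀ j, SuppIn (X ∩ slice w N (wt w)) (y j)) ∧ (∀ j, SuppIn (Zc j) (y j)) ∧
      bd F (B ∩ F.face w N) s0 bs y = mono one4 := by
  obtain ⟨ζ, h1, h2⟩ := raise1 F B s0 bs (ec w N) w N (crd_sum_bs _) hmin X hX (wt w) η hη
    (fun n hn hn' => absurd (crd_wt_eq hs n hn') (by omega)) (crd_supp_le _ hb)
  refine ⟨fun j => cut (slice w N (wt w)) (η j - bd2 F B s0 bs ζ j), ?_, ?_, ?_⟩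
  · intro j p hp
    have h3 := (h1 j).cut (slice w N (wt w)) p hp
    have h4 := suppIn_cut (slice w N (wt w)) _ p hp
    exact ⟨h3.1, h4⟩
  · intro j
    exact (h2 Zc (stable_Zc F B s0) hZ j).cut _
  · rw [crd_bd_cut F B s0 bs hmin (wt w) _ (fun i => (h1 i).mono Set.inter_subset_right),
      crd_bd_sub]
    exact crd_cut_one _ hb

lemma crd_G0 (hw : ∀ j, 0 ≤ w j) {G : LL} (hG : SuppIn Gset G) :
    SuppIn {p | wt w + N ≤ ell w N p} G := by
  refine hG.mono ?_
  rintro p ⟨h3, hp⟩
  show wt w + N ≤ ell w N p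
  have h0 := hp 0
  have h1 := hp 1
  have h2 := hp 2
  have e0 : (0 : Fin 3).castSucc = (0 : Fin 4) := rfl
  have e1 : (1 : Fin 3).castSucc = (1 : Fin 4) := rfl
  have e2 : (2 : Fin 3).castSucc = (2 : Fin 4) := rfl
  rw [e0] at h0
  rw [e1] at h1
  rw [e2] at h2
  unfold ell wt
  rw [h3]
  nlinarith [hw 0, hw 1, hw 2, mul_nonneg (hw 0) (sub_nonneg.mpr h0),
    mul_nonneg (hw 1) (sub_nonneg.mpr h1), mul_nonneg (hw 2) (sub_nonneg.mpr h2)]

/-- Coordinate facets `w = e_j`: `x_j^N` divides `f` exactly, `N ≥ 2`.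

Proof. Let `i0, i1` be the two indices different from `j`; take `HasId` for them. `η_{i0}`, `η_{i1}` are
supported in `{1 + N ≤ ℓ_w}` (`|w| = 1`), so `D_j η_j + D_3 η_3 = mono one4 + (level > 1)`. `raise1` for the
family `{j.castSucc, 3}` (`e = (1, -N)`) to `{1 ≤ ℓ_w}`, cut at the level `1` (`cut_D`); on it `D_j = N D_3`
(`D_ec`: `D_j - N D_3 = 0` as `1 + N s0 = 0`). So `mono one4 = D_j y`, `y` on the slice `u_j - N k = 1`, with
the face operator, face `= {a_j = N}`. Let `g = ∑_{face} κ_i x^{a_{i,i0}} x'^{a_{i,i1}}`, a nonzero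
polynomial in two variables; choose `ρ, ρ' ≠ 0` with `γ = g(ρ, ρ') ≠ 0`. Functional
`Φ(x^u T^k) = φ_k ρ^{u_{i0}} ρ'^{u_{i1}}` on the slice, where `(1 + N k) φ_k + N γ φ_{k+1} = 0`, `φ_0 = 1`
(possible since `1 + N k ≠ 0` for all integers `k`, `N ≥ 2`): `Φ(D_j y) = 0` since
`D_j(x^u T^k) = (1 + N k) x^u T^k + ∑ κ_i N x^{u + a_i} T^{k+1}`; but `Φ(mono one4) = ρ ρ' ≠ 0`. -/
theorem root_coord (hF : Facet F w N) (j : Fin 3) (hj : ∀ l, w l = if l = j then 1 else 0)
    (hN : 2 ≤ N) (s0 : ℂ) (hs : (wt w : ℂ) + N * s0 = 0) : ¬ HasId F s0 := by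
  intro hId
  have hidx : ∀ j : Fin 3, ∃ i0 i1 : Fin 3, i0 ≠ i1 ∧ i0 ≠ j ∧ i1 ≠ j ∧
      (univ : Finset (Fin 3)) = {j, i0, i1} := by decide
  obtain ⟨i0, i1, h01, h0j, h1j, huniv⟩ := hidx j
  obtain ⟨c, η, ξ, G0, G1, hG0, -, hη, -, -, -, hH0, -, hH1, -⟩ := hId i0 i1 h01
  have hsum : ∀ f : Fin 3 → ℤ, ∑ l, f l = f j + f i0 + f i1 := by
    intro f
    rw [huniv, Finset.sum_insert, Finset.sum_insert, Finset.sum_singleton]
    · ring
    · rw [Finset.mem_singleton]; exact h01
    · rw [Finset.mem_insert, Finset.mem_singleton]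
      rintro (h | h)
      · exact h0j h.symm
      · exact h1j h.symm
  have hwj : w j = 1 := by rw [hj, if_pos rfl]
  have hw0 : w i0 = 0 := by rw [hj, if_neg h0j]
  have hw1 : w i1 = 0 := by rw [hj, if_neg h1j]
  have hwt : wt w = 1 := by
    have h1 := hsum w
    rw [Fin.sum_univ_three, hwj, hw0, hw1] at h1
    unfold wt
    omega
  have hell : ∀ p, ell w N p = p j.castSucc - N * p 3 := by
    intro p
    have h1 := hsum (fun l => w l * p l.castSucc)
    rw [Fin.sum_univ_three] at h1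
    simp only [hwj, hw0, hw1] at h1
    have e0 : (0 : Fin 3).castSucc = (0 : Fin 4) := rfl
    have e1 : (1 : Fin 3).castSucc = (1 : Fin 4) := rfl
    have e2 : (2 : Fin 3).castSucc = (2 : Fin 4) := rfl
    rw [e0, e1, e2] at h1
    unfold ell
    linear_combination h1
  have hη0 : SuppIn {p | 1 < ell w N p} (η i0.castSucc) := by
    have h1 := hH0 w N hF.nonneg (by
      intro l hl
      rw [Finset.mem_singleton] at hl
      rw [hl, hw0]) hF.min_le
    refine h1.mono ?_
    intro p hp
    have h2 : wt w + N ≤ ell w N p := hp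
    show 1 < ell w N p
    omega
  have hη1 : SuppIn {p | 1 < ell w N p} (η i1.castSucc) := by
    have h1 := hH1 w N hF.nonneg (by
      intro l hl
      rw [Finset.mem_insert, Finset.mem_singleton] at hl
      rcases hl with hl | hl
      · rw [hl, hw0]
      · rw [hl, hw1]) hF.min_le
    refine h1.mono ?_
    intro p hp
    have h2 : wt w + N ≤ ell w N p := hp
    show 1 < ell w N p
    omega
  have hG : SuppIn {p | 1 < ell w N p} G0 := by
    refine (crd_G0 (N := N) hF.nonneg hG0).mono ?_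
    intro p hp
    have h2 : wt w + N ≤ ell w N p := hp
    show 1 < ell w N p
    omega
  have hmin : ∀ l ∈ (univ : Finset (Fin r)), 0 ≤ ell w N (F.hat l) := fun l _ => hF.min_le l
  have hcl := closed_gt (F := F) (w := w) (N := N) univ hmin 1
  -- the two operators
  let cc : Fin 2 → Fin 4 → ℂ := ![bs j.castSucc, bs 3]
  let ee : Fin 2 → ℂ := ![1, -(N : ℂ)]
  have hbs : (ec w N) = bs j.castSucc + (-(N : ℂ)) • bs 3 := by
    conv_lhs => rw [← crd_sum_bs (ec w N)]
    rw [Fin.sum_univ_castSucc]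
    have h1 : ∀ l : Fin 3, ec w N l.castSucc = (w l : ℂ) := by
      intro l
      fin_cases l <;> rfl
    have h2 : ec w N (Fin.last 3) = -(N : ℂ) := rfl
    rw [h2]
    congr 1
    rw [Finset.sum_eq_single j]
    · rw [h1, hwj, Int.cast_one, one_smul]
    · intro l _ hne
      rw [h1, hj, if_neg hne, Int.cast_zero, zero_smul]
    · intro h
      exact absurd (Finset.mem_univ j) h
  have hec : ∑ i, ee i • cc i = ec w N := by
    rw [Fin.sum_univ_two, hbs]
    show (1 : ℂ) • bs j.castSucc + (-(N : ℂ)) • bs 3 = _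
    rw [one_smul]
  let η' : Fin 2 → LL := ![η j.castSucc, η 3]
  have hbd : bd F univ s0 cc η' = D F univ s0 (bs j.castSucc) (η j.castSucc) +
      D F univ s0 (bs 3) (η 3) := by
    unfold bd
    rw [Fin.sum_univ_two]
    rfl
  have hb : SuppIn {p | wt w < ell w N p} (bd F univ s0 cc η' - mono one4) := by
    have h1 : bd F univ s0 cc η' - mono one4 = G0 - D F univ s0 (bs i0.castSucc) (η i0.castSucc)
        - D F univ s0 (bs i1.castSucc) (η i1.castSucc) := by
      have h2 : bd F univ s0 bs η = D F univ s0 (bs j.castSucc) (η j.castSucc) +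
          D F univ s0 (bs i0.castSucc) (η i0.castSucc) +
          D F univ s0 (bs i1.castSucc) (η i1.castSucc) + D F univ s0 (bs 3) (η 3) := by
        unfold bd
        rw [Fin.sum_univ_castSucc]
        congr 1
        rw [huniv, Finset.sum_insert, Finset.sum_insert, Finset.sum_singleton]
        · abel
        · rw [Finset.mem_singleton]; exact h01
        · rw [Finset.mem_insert, Finset.mem_singleton]
          rintro (h | h)
          · exact h0j h.symm
          · exact h1j h.symm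
      rw [hη] at h2
      rw [hbd]
      have h3 : G0 = D F univ s0 (bs j.castSucc) (η j.castSucc) +
          D F univ s0 (bs i0.castSucc) (η i0.castSucc) +
          D F univ s0 (bs i1.castSucc) (η i1.castSucc) + D F univ s0 (bs 3) (η 3)
          - mono one4 := by
        rw [← h2]
        abel
      rw [h3]
      abel
    rw [h1, hwt]
    exact (hG.sub (hη0.D hcl s0 _)).sub (hη1.D hcl s0 _)
  obtain ⟨ζ, h1, -⟩ := raise1 F univ s0 cc ee w N hec hmin Set.univ (crd_closed_univ F univ)
    (wt w) η' (fun _ _ _ => Set.mem_univ _)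
    (fun n hn hn' => absurd (crd_wt_eq hs n hn') (by omega)) (crd_supp_le _ hb)
  have h2 := crd_bd_cut F univ s0 cc hmin (wt w) _ (fun i => (h1 i).mono Set.inter_subset_right)
  rw [crd_bd_sub, crd_cut_one _ hb, Finset.univ_inter] at h2
  set B := F.face w N with hBdef
  set y0 := cut (slice w N (wt w)) (η' 0 - bd2 F univ s0 cc ζ 0) with hy0
  set y1 := cut (slice w N (wt w)) (η' 1 - bd2 F univ s0 cc ζ 1) with hy1
  have h3 : D F B s0 (bs j.castSucc) y0 + D F B s0 (bs 3) y1 = mono one4 := by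
    rw [← h2]
    unfold bd
    rw [Fin.sum_univ_two]
    rfl
  have hN0 : (N : ℂ) ≠ 0 := by
    have : N ≠ 0 := by omega
    exact_mod_cast this
  have hy1s : SuppIn (slice w N (wt w)) y1 := suppIn_cut _ _
  have hy0s : SuppIn (slice w N (wt w)) y0 := suppIn_cut _ _
  have h4 : D F B s0 (bs 3) y1 = (1 / (N : ℂ)) • D F B s0 (bs j.castSucc) y1 := by
    have h5 := D_ec (F := F) s0 (wt w) B subset_rfl y1 hy1s
    rw [hs, zero_smul, hbs, D_add_left, D_smul_left] at h5
    have h6 : D F B s0 (bs j.castSucc) y1 = (N : ℂ) • D F B s0 (bs 3) y1 := by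
      rw [neg_smul] at h5
      exact add_neg_eq_zero.mp h5
    rw [h6, smul_smul, one_div, inv_mul_cancel₀ hN0, one_smul]
  set y := y0 + (1 / (N : ℂ)) • y1 with hy
  have hys : SuppIn (slice w N (wt w)) y := hy0s.add (hy1s.smul _)
  have h5 : D F B s0 (bs j.castSucc) y = mono one4 := by
    rw [hy, map_add, map_smul, ← h4, h3]
  -- the functional
  have haj : ∀ i ∈ B, F.a i j = N := by
    intro i hi
    have h6 := mem_face.mp hi
    rw [hell, F.hat_castSucc, F.hat_three] at h6
    omega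
  obtain ⟨x, x', hx, hx', hγ⟩ := crd_point B (fun i => F.a i i0) (fun i => F.a i i1) F.κ
    (fun i => F.a_nonneg i i0) (fun i => F.a_nonneg i i1) (by
      intro i hi i' hi' h6 h7
      apply F.inj
      funext l
      have hl : l ∈ (univ : Finset (Fin 3)) := Finset.mem_univ l
      rw [huniv, Finset.mem_insert, Finset.mem_insert, Finset.mem_singleton] at hl
      rcases hl with hl | hl | hl
      · rw [hl, haj i hi, haj i' hi']
      · rw [hl]; exact h6
      · rw [hl]; exact h7) (by
      obtain ⟨i, hi⟩ := hF.attained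
      exact ⟨i, mem_face.mpr hi⟩) F.κ_ne
  set γ := ∑ i ∈ B, F.κ i * x ^ (F.a i i0) * x' ^ (F.a i i1) with hγdef
  obtain ⟨ψ, hψ, hψ0⟩ := crd_rec (fun k => 1 + (N : ℂ) * k) ((N : ℂ) * γ) (by
      intro k h6
      have h7 : (1 : ℤ) + N * k = 0 := by exact_mod_cast h6
      have h8 : N ∣ 1 := ⟨-k, by linear_combination h7⟩
      have h9 := Int.le_of_dvd one_pos h8
      omega) (mul_ne_zero hN0 hγ)
  let φ : Pt → ℂ := fun p => ψ (p 3) * x ^ (p i0.castSucc) * x' ^ (p i1.castSucc)
  have h6 : crdPhi φ (mono one4) = 0 := by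
    rw [← h5, crdPhi_D]
    apply crdPhi_zero
    intro p hp
    have hpl : ell w N p = wt w := hys p hp
    rw [hell, hwt] at hpl
    have e3 : bs j.castSucc 3 = 0 := c3_three j
    unfold crdT
    rw [lin_bs, e3, mul_zero, sub_zero]
    have h7 : ∀ i ∈ B, F.κ i * lin (bs j.castSucc) (F.hat i) * φ (p + F.hat i) =
        (F.κ i * x ^ (F.a i i0) * x' ^ (F.a i i1)) *
          (N * ψ (p 3 + 1) * x ^ (p i0.castSucc) * x' ^ (p i1.castSucc)) := by
      intro i hi
      rw [lin_bs, F.hat_castSucc, haj i hi]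
      show F.κ i * (N : ℂ) * (ψ ((p + F.hat i) 3) * x ^ ((p + F.hat i) i0.castSucc) *
        x' ^ ((p + F.hat i) i1.castSucc)) = _
      rw [Pi.add_apply, Pi.add_apply, Pi.add_apply, F.hat_castSucc, F.hat_castSucc, F.hat_three,
        zpow_add₀ hx, zpow_add₀ hx']
      ring
    rw [Finset.sum_congr rfl h7, ← Finset.sum_mul, ← hγdef]
    have h8 : (p j.castSucc : ℂ) = 1 + (N : ℂ) * (p 3 : ℤ) := by
      have : p j.castSucc = 1 + N * p 3 := by omega
      rw [this]
      push_cast
      ring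
    rw [h8]
    have h9 := hψ (p 3)
    show (1 + (N : ℂ) * (p 3 : ℤ)) * (ψ (p 3) * x ^ (p i0.castSucc) * x' ^ (p i1.castSucc)) + _ = 0
    linear_combination (x ^ (p i0.castSucc) * x' ^ (p i1.castSucc)) * h9
  have h7 : crdPhi φ (mono one4) = φ one4 := by
    unfold mono
    rw [crdPhi_single, one_mul]
  rw [h7] at h6
  have h8 : φ one4 ≠ 0 :=
    mul_ne_zero (mul_ne_zero (hψ0 _) (zpow_ne_zero _ hx)) (zpow_ne_zero _ hx')
  exact h8 h6

/-- Special edges.

Proof. Take `HasId` (any indices). `raise1` along `w` (family `bs`, `e = (w,-N)`) to `{|w| ≤ ℓ_w}`, cut at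
`|w|` (`cut_D`, operators of `B = F.face w N`); the coordinate supports `Zc` are kept (`stable_Zc`). So
`bd F B s0 bs λ = mono one4`, `λ_l` in `Zc l ∩ slice`. Then `raise1` along `w'` with `B`,
`X = slice w N |w|`, to `{|w'| ≤ ℓ_{w'}}` (levels below `|w'|` are not critical), cut at the level `|w'|`: operators of
`B' = {p, q}`. All chains are now supported on `Y = {ℓ_w = |w|, ℓ_{w'} = |w'|}`. Integral points of `Y`:
`w, w'` are independent (primitive, nonnegative, distinct), so `{ℓ_w = ℓ_{w'} = 0}` is spanned by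
`p̂, q̂`, and a point of `Y` is `1̂ + α p̂ + β q̂`, `α` its `i`-coordinate minus one, so
`α, β = k - α` are integers; `u_i = u_j = 1 + α =: ρ`. By `Zc` all four components have `ρ ≥ 1` (for the component
`i` the `j`-coordinate is `≥ 1`!). On `Y`: `D_i[ρ,k] = ρ [ρ,k] + κ_p [ρ+1,k+1]`, `D_j` the same,
`D_3[ρ,k] = (k - s0)[ρ,k] + κ_p [ρ+1,k+1] + κ_q [ρ,k+1]`, and `N D_3 = ∑ w_l D_l`, `N' D_3 = ∑ w'_l D_l` on `Y` gives that
the third coordinate operator is a combination of `D_i, D_j, D_3` (one of `w_l`, `w'_l` is not zero for the third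
index `l`: if both vanish then `w·q = N > 0` is impossible as `q_i = q_j = 0`). Functional on `ρ ≥ 1`:
`Φ[ρ,k] = (-1)^ρ (ρ-1)! κ_p^{-ρ} ψ_{k-ρ}`, `(m - s0) ψ_m + κ_q ψ_{m+1} = 0`, all `ψ_m ≠ 0` (`s0` not an integer). It
kills `D_i`, `D_j`, `D_3` on `ρ ≥ 1`, and `Φ(mono one4) = Φ[1,0] ≠ 0`. -/
theorem root_special {w' : Fin 3 → ℤ} {N' : ℤ} (hF : Facet F w N) (hF' : Facet F w' N')
    (hN : 0 < N) (hN' : 0 < N') (hne : w ≠ w') (s0 : ℂ) (hs : (wt w : ℂ) + N * s0 = 0)
    (hs' : (wt w' : ℂ) + N' * s0 = 0) (hs0 : ∀ n : ℤ, s0 ≠ n) (i j : Fin 3) (hij : i ≠ j)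
    (p q : Fin r) (hpq : F.face w N ∩ F.face w' N' = {p, q}) (h1 : F.a p i = 1)
    (h2 : F.a p j = 1) (h3 : F.a q i = 0) (h4 : F.a q j = 0) : ¬ HasId F s0 := by
  intro hId
  obtain ⟨c, η, ξ, G0, G1, hG0, -, hη, -, hZ, -, -, -, -, -⟩ := hId 0 1 (by decide)
  have hb : SuppIn {p | wt w < ell w N p} (bd F univ s0 bs η - mono one4) := by
    have e1 : bd F univ s0 bs η - mono one4 = G0 := by
      rw [hη]; abel
    rw [e1]
    refine (crd_G0 (N := N) hF.nonneg hG0).mono ?_
    intro P hP
    have e2 : wt w + N ≤ ell w N P := hP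
    show wt w < ell w N P
    omega
  obtain ⟨y, hy1, hy2, hy3⟩ := crd_step (F := F) univ s0 (fun l _ => hF.min_le l) hs Set.univ
    (crd_closed_univ F univ) η (fun _ _ _ => Set.mem_univ _) hZ hb
  rw [Finset.univ_inter] at hy3
  have hb' : SuppIn {p | wt w' < ell w' N' p} (bd F (F.face w N) s0 bs y - mono one4) := by
    rw [hy3, sub_self]
    exact suppIn_zero _
  obtain ⟨μ, hμ1, hμ2, hμ3⟩ := crd_step (F := F) (F.face w N) s0 (fun l _ => hF'.min_le l) hs'
    (slice w N (wt w)) (face_closed subset_rfl _) y (fun j => (hy1 j).mono Set.inter_subset_right)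
    hy2 hb'
  rw [hpq] at hμ3
  have hpq0 : p ≠ q := by
    rintro rfl
    omega
  have hidx : ∀ i j : Fin 3, i ≠ j → ∃ l : Fin 3, l ≠ i ∧ l ≠ j ∧
      (univ : Finset (Fin 3)) = {i, j, l} := by decide
  obtain ⟨l, hli, hlj, huniv⟩ := hidx i j hij
  have hsum : ∀ {M : Type} [AddCommMonoid M] (f : Fin 3 → M), ∑ m, f m = f i + f j + f l := by
    intro M _ f
    rw [huniv, Finset.sum_insert, Finset.sum_insert, Finset.sum_singleton, add_assoc]
    · rw [Finset.mem_singleton]; exact fun h => hlj h.symm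
    · rw [Finset.mem_insert, Finset.mem_singleton]
      rintro (h | h)
      · exact hij h
      · exact hli h.symm
  have hell : ∀ (v : Fin 3 → ℤ) (M : ℤ) (P : Pt), ell v M P = v i * P i.castSucc +
      v j * P j.castSucc + v l * P l.castSucc - M * P 3 := by
    intro v M P
    have e := hsum (fun m => v m * P m.castSucc)
    rw [Fin.sum_univ_three] at e
    have e0 : (0 : Fin 3).castSucc = (0 : Fin 4) := rfl
    have e1 : (1 : Fin 3).castSucc = (1 : Fin 4) := rfl
    have e2 : (2 : Fin 3).castSucc = (2 : Fin 4) := rfl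
    rw [e0, e1, e2] at e
    unfold ell
    linear_combination e
  have hwt : ∀ v : Fin 3 → ℤ, wt v = v i + v j + v l := by
    intro v
    have e := hsum v
    rw [Fin.sum_univ_three] at e
    exact e
  have hp : p ∈ F.face w N ∩ F.face w' N' := by
    rw [hpq]; exact Finset.mem_insert_self _ _
  have hq : q ∈ F.face w N ∩ F.face w' N' := by
    rw [hpq]; exact Finset.mem_insert_of_mem (Finset.mem_singleton_self _)
  rw [Finset.mem_inter, mem_face, mem_face, hell, hell] at hp hq
  simp only [F.hat_castSucc, F.hat_three, h1, h2, h3, h4] at hp hq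
  obtain ⟨hpw, hpw'⟩ := hp
  obtain ⟨hqw, hqw'⟩ := hq
  set A := F.a p l with hA
  set A' := F.a q l with hA'
  have hA'0 : 0 ≤ A' := F.a_nonneg q l
  have hwl : 0 < w l := by
    rcases (hF.nonneg l).lt_or_eq with h | h
    · exact h
    · rw [← h] at hqw
      omega
  have hwl' : 0 < w' l := by
    rcases (hF'.nonneg l).lt_or_eq with h | h
    · exact h
    · rw [← h] at hqw'
      omega
  -- the determinant
  have hdet : w j * w' l - w' j * w l ≠ 0 := by
    intro hd
    have hi' : w i * w' l - w' i * w l = 0 := by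
      have e1 : w i + w j = w l * (A' - A) := by linear_combination hpw - hqw
      have e2 : w' i + w' j = w' l * (A' - A) := by linear_combination hpw' - hqw'
      linear_combination w' l * e1 - w l * e2 - hd
    have hprop : ∀ m, w m * w' l = w' m * w l := by
      intro m
      have hm : m ∈ (univ : Finset (Fin 3)) := Finset.mem_univ m
      rw [huniv, Finset.mem_insert, Finset.mem_insert, Finset.mem_singleton] at hm
      rcases hm with hm | hm | hm
      · rw [hm]; linear_combination hi'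
      · rw [hm]; linear_combination hd
      · rw [hm]; ring
    obtain ⟨g, a, b, hg, hco, ea, eb⟩ : ∃ g a b : ℤ, 0 < g ∧ IsCoprime a b ∧ w l = a * g ∧
        w' l = b * g := by
      have hg0 : 0 < Int.gcd (w l) (w' l) := Int.gcd_pos_of_ne_zero_left _ hwl.ne'
      obtain ⟨a, b, hco, ea, eb⟩ := Int.exists_gcd_one hg0
      exact ⟨Int.gcd (w l) (w' l), a, b, by exact_mod_cast hg0,
        Int.isCoprime_iff_gcd_eq_one.mpr hco, ea, eb⟩
    have hab : ∀ m, w m * b = w' m * a := by
      intro m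
      have e := hprop m
      rw [ea, eb] at e
      have e' : (w m * b) * g = (w' m * a) * g := by linear_combination e
      exact mul_right_cancel₀ hg.ne' e'
    have ha : IsUnit a := hF.prim a fun m => hco.dvd_of_dvd_mul_right ⟨w' m, by
      rw [hab m]; ring⟩
    have hb : IsUnit b := hF'.prim b fun m => hco.symm.dvd_of_dvd_mul_right ⟨w m, by
      rw [← hab m]; ring⟩
    have ha0 : 0 < a := by
      by_contra hcon
      have : a * g ≤ 0 := mul_nonpos_of_nonpos_of_nonneg (not_lt.mp hcon) hg.le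
      omega
    have hb0 : 0 < b := by
      by_contra hcon
      have : b * g ≤ 0 := mul_nonpos_of_nonpos_of_nonneg (not_lt.mp hcon) hg.le
      omega
    have ha1 : a = 1 := by
      rcases Int.isUnit_iff.mp ha with h | h
      · exact h
      · omega
    have hb1 : b = 1 := by
      rcases Int.isUnit_iff.mp hb with h | h
      · exact h
      · omega
    apply hne
    funext m
    have e := hab m
    rw [ha1, hb1, mul_one, mul_one] at e
    exact e
  -- the points of the support
  have hY : ∀ m P, cf (μ m) P ≠ 0 → P i.castSucc = P j.castSucc ∧ 1 ≤ P i.castSucc ∧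
      ell w N P = wt w ∧ ell w' N' P = wt w' := by
    intro m P hP
    have e1 : ell w N P = wt w := (hμ1 m P hP).1
    have e2 : ell w' N' P = wt w' := (hμ1 m P hP).2
    have e5 : P i.castSucc = P j.castSucc := by
      have e3 := e1
      have e4 := e2
      rw [hell, hwt] at e3 e4
      set R := P l.castSucc - 1 - (P i.castSucc - 1) * A - (P 3 - P i.castSucc + 1) * A' with hR
      have e6 : w j * (P j.castSucc - P i.castSucc) + w l * R = 0 := by
        rw [hR]
        linear_combination e3 - (P i.castSucc - 1) * hpw - (P 3 - P i.castSucc + 1) * hqw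
      have e7 : w' j * (P j.castSucc - P i.castSucc) + w' l * R = 0 := by
        rw [hR]
        linear_combination e4 - (P i.castSucc - 1) * hpw' - (P 3 - P i.castSucc + 1) * hqw'
      have e8 : (w j * w' l - w' j * w l) * (P j.castSucc - P i.castSucc) = 0 := by
        linear_combination w' l * e6 - w l * e7
      rcases mul_eq_zero.mp e8 with h | h
      · exact absurd h hdet
      · omega
    refine ⟨e5, ?_, e1, e2⟩
    have e9 := hμ2 m P hP
    by_cases hm : i.castSucc = m
    · have e10 := e9 j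
      rw [if_neg] at e10
      · omega
      · intro h
        rw [← hm] at h
        exact hij (Fin.castSucc_injective 3 h).symm
    · have e10 := e9 i
      rw [if_neg hm] at e10
      exact e10
  -- the functional
  have hκp := F.κ_ne p
  have hκq := F.κ_ne q
  obtain ⟨g, hg, hg0⟩ := crd_rec (fun k => if 1 ≤ k then (k : ℂ) else 1) (F.κ p) (by
    intro k
    show (if 1 ≤ k then (k : ℂ) else 1) ≠ 0
    split_ifs with h
    · have : k ≠ 0 := by omega
      exact_mod_cast this
    · exact one_ne_zero) hκp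
  obtain ⟨ψ, hψ, hψ0⟩ := crd_rec (fun k => (k : ℂ) - s0) (F.κ q) (by
    intro k h
    exact hs0 k (sub_eq_zero.mp h).symm) hκq
  let φ : Pt → ℂ := fun P => g (P i.castSucc) * ψ (P 3 - P i.castSucc)
  have hφp : ∀ P, φ (P + F.hat p) = g (P i.castSucc + 1) * ψ (P 3 - P i.castSucc) := by
    intro P
    show g ((P + F.hat p) i.castSucc) * ψ ((P + F.hat p) 3 - (P + F.hat p) i.castSucc) = _
    rw [Pi.add_apply, Pi.add_apply, F.hat_castSucc, F.hat_three, h1]
    congr 2
    ring
  have hφq : ∀ P, φ (P + F.hat q) = g (P i.castSucc) * ψ (P 3 - P i.castSucc + 1) := by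
    intro P
    show g ((P + F.hat q) i.castSucc) * ψ ((P + F.hat q) 3 - (P + F.hat q) i.castSucc) = _
    rw [Pi.add_apply, Pi.add_apply, F.hat_castSucc, F.hat_three, h3, add_zero]
    congr 2
    ring
  have hT : ∀ (cc : Fin 4 → ℂ) (P : Pt), crdT F {p, q} s0 φ cc P =
      (lin cc P - s0 * cc 3) * φ P + (F.κ p * lin cc (F.hat p) * φ (P + F.hat p) +
        F.κ q * lin cc (F.hat q) * φ (P + F.hat q)) := by
    intro cc P
    unfold crdT
    rw [Finset.sum_pair hpq0]
  have hTi : ∀ P : Pt, 1 ≤ P i.castSucc → crdT F {p, q} s0 φ (bs i.castSucc) P = 0 := by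
    intro P hP
    have e3 : bs i.castSucc 3 = 0 := c3_three i
    rw [hT, lin_bs, lin_bs, lin_bs, F.hat_castSucc, F.hat_castSucc, h1, h3, e3, hφp]
    have e := hg (P i.castSucc)
    simp only [if_pos hP] at e
    show _ * (g (P i.castSucc) * ψ (P 3 - P i.castSucc)) + _ = 0
    push_cast
    linear_combination ψ (P 3 - P i.castSucc) * e
  have hTj : ∀ P : Pt, 1 ≤ P i.castSucc → P i.castSucc = P j.castSucc →
      crdT F {p, q} s0 φ (bs j.castSucc) P = 0 := by
    intro P hP hPj
    have e3 : bs j.castSucc 3 = 0 := c3_three j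
    rw [hT, lin_bs, lin_bs, lin_bs, F.hat_castSucc, F.hat_castSucc, h2, h4, e3, hφp, ← hPj]
    have e := hg (P i.castSucc)
    simp only [if_pos hP] at e
    show _ * (g (P i.castSucc) * ψ (P 3 - P i.castSucc)) + _ = 0
    push_cast
    linear_combination ψ (P 3 - P i.castSucc) * e
  have hT3 : ∀ P : Pt, 1 ≤ P i.castSucc → crdT F {p, q} s0 φ (bs 3) P = 0 := by
    intro P hP
    have e3 : bs 3 3 = 1 := by simp [bs]
    rw [hT, lin_bs, lin_bs, lin_bs, F.hat_three, F.hat_three, e3, hφp, hφq]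
    have e := hg (P i.castSucc)
    simp only [if_pos hP] at e
    have e' := hψ (P 3 - P i.castSucc)
    show _ * (g (P i.castSucc) * ψ (P 3 - P i.castSucc)) + _ = 0
    push_cast at e' ⊢
    linear_combination ψ (P 3 - P i.castSucc) * e + g (P i.castSucc) * e'
  have hTe : ∀ P : Pt, ell w N P = wt w → crdT F {p, q} s0 φ (ec w N) P = 0 := by
    intro P hP
    have e3 : ec w N 3 = -(N : ℂ) := rfl
    have e4 : ell w N (F.hat p) = 0 := by
      rw [hell, F.hat_castSucc, F.hat_castSucc, F.hat_castSucc, F.hat_three, h1, h2]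
      exact hpw
    have e5 : ell w N (F.hat q) = 0 := by
      rw [hell, F.hat_castSucc, F.hat_castSucc, F.hat_castSucc, F.hat_three, h3, h4]
      exact hqw
    rw [hT, lin_ec, lin_ec, lin_ec, e3, hP, e4, e5]
    push_cast
    linear_combination φ P * hs
  have hecs : ec w N = (w i : ℂ) • bs i.castSucc + (w j : ℂ) • bs j.castSucc +
      (w l : ℂ) • bs l.castSucc + (-(N : ℂ)) • bs 3 := by
    conv_lhs => rw [← crd_sum_bs (ec w N)]
    rw [Fin.sum_univ_castSucc]
    have e1 : ∀ m : Fin 3, ec w N m.castSucc = (w m : ℂ) := by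
      intro m
      fin_cases m <;> rfl
    have e2 : ec w N (Fin.last 3) = -(N : ℂ) := rfl
    rw [e2, hsum (fun m : Fin 3 => ec w N m.castSucc • bs m.castSucc), e1, e1, e1]
    rfl
  have hTl : ∀ P : Pt, 1 ≤ P i.castSucc → P i.castSucc = P j.castSucc → ell w N P = wt w →
      crdT F {p, q} s0 φ (bs l.castSucc) P = 0 := by
    intro P hP hPj hPe
    have e := hTe P hPe
    rw [hecs, crdT_add, crdT_add, crdT_add, crdT_smul, crdT_smul, crdT_smul, crdT_smul,
      hTi P hP, hTj P hP hPj, hT3 P hP] at e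
    have hwl0 : (w l : ℂ) ≠ 0 := by exact_mod_cast hwl.ne'
    have e' : (w l : ℂ) * crdT F {p, q} s0 φ (bs l.castSucc) P = 0 := by
      linear_combination e
    rcases mul_eq_zero.mp e' with h | h
    · exact absurd h hwl0
    · exact h
  have hT0 : ∀ (m : Fin 4) (P : Pt), cf (μ m) P ≠ 0 → crdT F {p, q} s0 φ (bs m) P = 0 := by
    intro m P hP
    obtain ⟨f1, f2, f3, f4⟩ := hY m P hP
    refine Fin.lastCases ?_ (fun m' => ?_) m
    · exact hT3 P f2
    · have hm : m' ∈ (univ : Finset (Fin 3)) := Finset.mem_univ m'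
      rw [huniv, Finset.mem_insert, Finset.mem_insert, Finset.mem_singleton] at hm
      rcases hm with hm | hm | hm
      · rw [hm]; exact hTi P f2
      · rw [hm]; exact hTj P f2 f1
      · rw [hm]; exact hTl P f2 f1 f3
  have h6 : crdPhi φ (mono one4) = 0 := by
    rw [← hμ3]
    unfold bd
    rw [map_sum]
    refine Finset.sum_eq_zero fun m _ => ?_
    rw [crdPhi_D]
    exact crdPhi_zero _ _ (hT0 m)
  have h7 : crdPhi φ (mono one4) = φ one4 := by
    unfold mono
    rw [crdPhi_single, one_mul]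
  rw [h7] at h6
  exact mul_ne_zero (hg0 _) (hψ0 _) h6

end Pool.Agent.H37.SM
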