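import Pool.Agent.H37.SM.ZDefs

/-! Module CO3: cyclic order of the rays of a three-dimensional cone. -/

set_option autoImplicit false

namespace Pool.Agent.H37.SM

open Finset

lemma co3_coord (φ : (Fin 3 → ℝ) →ₗ[ℝ] ℝ) (v : Fin 3 → ℝ) :
    φ v = v 0 * φ (Pi.single 0 1) + v 1 * φ (Pi.single 1 1) + v 2 * φ (Pi.single 2 1) := by
  have h : v = v 0 • (Pi.single 0 1 : Fin 3 → ℝ) + v 1 • (Pi.single 1 1 : Fin 3 → ℝ) +
      v 2 • (Pi.single 2 1 : Fin 3 → ℝ) := by
    funext i
    fin_cases i <;> simp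
  conv_lhs => rw [h]
  simp [map_add, map_smul]

/-- the Pluecker relation for a linear form which vanishes at `x` -/
lemma co3_pl (φ : (Fin 3 → ℝ) →ₗ[ℝ] ℝ) (x y z w : Fin 3 → ℝ) (hx : φ x = 0) :
    φ w * det3 x y z = φ z * det3 x y w + φ y * det3 x w z := by
  have h1 := co3_coord φ x
  rw [hx] at h1
  rw [co3_coord φ w, co3_coord φ z, co3_coord φ y]
  simp only [det3]
  linear_combination (-(y 0 * (z 1 * w 2 - z 2 * w 1) - y 1 * (z 0 * w 2 - z 2 * w 0) +
    y 2 * (z 0 * w 1 - z 1 * w 0))) * h1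

lemma co3_swap12 (x y z : Fin 3 → ℝ) : det3 y x z = - det3 x y z := by
  simp only [det3]; ring

lemma co3_swap23 (x y z : Fin 3 → ℝ) : det3 x z y = - det3 x y z := by
  simp only [det3]; ring

lemma co3_cyc (x y z : Fin 3 → ℝ) : det3 y z x = det3 x y z := by
  simp only [det3]; ring

lemma co3_self (x y : Fin 3 → ℝ) : det3 x y y = 0 := by
  simp only [det3]; ring

lemma co3_self12 (x y : Fin 3 → ℝ) : det3 x x y = 0 := by
  simp only [det3]; ring

lemma co3_self13 (x y : Fin 3 → ℝ) : det3 x y x = 0 := by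
  simp only [det3]; ring

lemma co3_cramer (x y z w : Fin 3 → ℝ) :
    det3 x y z • w = det3 w y z • x + det3 x w z • y + det3 x y w • z := by
  funext i
  fin_cases i <;> simp [det3] <;> ring

section

variable {ι : Type*} (g : ι → Fin 3 → ℝ)
  (φ : ι → (Fin 3 → ℝ) →ₗ[ℝ] ℝ) (h0 : ∀ x, φ x (g x) = 0)
  (hp : ∀ x y, y ≠ x → 0 < φ x (g y))

include h0 hp

/-- three different generators are independent -/
lemma co3_ne {x y z : ι} (hxy : y ≠ x) (hxz : z ≠ x) (hyz : z ≠ y) :
    det3 (g x) (g y) (g z) ≠ 0 := by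
  intro hD
  -- for all `e` the coefficients of the relation vanish
  have key : ∀ e : Fin 3 → ℝ, det3 e (g y) (g z) = 0 := by
    intro e
    have hc : det3 e (g y) (g z) • g x + det3 (g x) e (g z) • g y +
        det3 (g x) (g y) e • g z = 0 := by
      rw [← co3_cramer, hD, zero_smul]
    have e1 := congrArg (φ x) hc
    have e2 := congrArg (φ y) hc
    have e3 := congrArg (φ z) hc
    simp only [map_add, map_smul, smul_eq_mul, map_zero, h0, mul_zero, zero_add, add_zero]
      at e1 e2 e3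
    set A := det3 e (g y) (g z)
    set C := det3 (g x) e (g z)
    set F := det3 (g x) (g y) e
    have p1 := hp x y hxy
    have p2 := hp x z hxz
    have p3 := hp y x hxy.symm
    have p4 := hp y z hyz
    have p5 := hp z x hxz.symm
    have p6 := hp z y hyz.symm
    by_contra hA
    rcases lt_or_gt_of_ne hA with hA | hA
    · have hF : 0 < F := by
        by_contra hF
        have hF' : F ≤ 0 := not_lt.mp hF
        nlinarith [mul_pos_of_neg_of_neg hA (neg_neg_of_pos p3),
          mul_nonneg_of_nonpos_of_nonpos hF' (neg_nonpos_of_nonneg p4.le)]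
      have hC : 0 < C := by
        by_contra hC
        have hC' : C ≤ 0 := not_lt.mp hC
        nlinarith [mul_pos_of_neg_of_neg hA (neg_neg_of_pos p5),
          mul_nonneg_of_nonpos_of_nonpos hC' (neg_nonpos_of_nonneg p6.le)]
      nlinarith [mul_pos hC p1, mul_pos hF p2]
    · have hF : F < 0 := by
        by_contra hF
        have hF' : 0 ≤ F := not_lt.mp hF
        nlinarith [mul_pos hA p3, mul_nonneg hF' p4.le]
      have hC : C < 0 := by
        by_contra hC
        have hC' : 0 ≤ C := not_lt.mp hC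
        nlinarith [mul_pos hA p5, mul_nonneg hC' p6.le]
      nlinarith [mul_pos_of_neg_of_neg hC (neg_neg_of_pos p1),
        mul_pos_of_neg_of_neg hF (neg_neg_of_pos p2)]
  have k0 := key (Pi.single 0 1)
  have k1 := key (Pi.single 1 1)
  have k2 := key (Pi.single 2 1)
  simp [det3] at k0 k1 k2
  have hy := co3_coord (φ y) (g y)
  have hz := co3_coord (φ y) (g z)
  rw [h0] at hy
  have p4 := hp y z hyz
  have q : ∀ j, g y j = 0 := by
    intro j
    have : φ y (g z) * g y j = 0 := by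
      rw [hz]
      fin_cases j <;> simp only [Fin.zero_eta, Fin.mk_one, Fin.reduceFinMk]
      · linear_combination (-(g z 0)) * hy + φ y (Pi.single 1 1) * k2 - φ y (Pi.single 2 1) * k1
      · linear_combination (-(g z 1)) * hy - φ y (Pi.single 0 1) * k2 + φ y (Pi.single 2 1) * k0
      · linear_combination (-(g z 2)) * hy + φ y (Pi.single 0 1) * k1 - φ y (Pi.single 1 1) * k0
    exact (mul_eq_zero.mp this).resolve_left p4.ne'
  have hgy : g y = 0 := funext q
  have := hp x y hxy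
  rw [hgy, map_zero] at this
  exact lt_irrefl _ this

/-- one step: the smallest element for the order around `x` -/
lemma co3_min (s : Finset ι) {x w : ι} (hw : w ≠ x) (hws : w ∈ s) (hxs : x ∉ s) :
    ∃ y ∈ s, ∀ z ∈ s, z ≠ y → 0 < det3 (g x) (g y) (g z) := by
  obtain ⟨y, hy, hmin⟩ := s.exists_min_image
    (fun y => det3 (g x) (g w) (g y) / (φ x (g w) * φ x (g y))) ⟨w, hws⟩
  refine ⟨y, hy, fun z hz hzy => ?_⟩
  have hyx : y ≠ x := fun h => hxs (h ▸ hy)
  have hzx : z ≠ x := fun h => hxs (h ▸ hz)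
  have h1 := hmin z hz
  have pw := hp x w hw
  have py := hp x y hyx
  have pz := hp x z hzx
  rw [div_le_div_iff₀ (mul_pos pw py) (mul_pos pw pz)] at h1
  have h2 := co3_pl (φ x) (g x) (g y) (g z) (g w) (h0 x)
  have h3 : det3 (g x) (g y) (g w) = - det3 (g x) (g w) (g y) := co3_swap23 _ _ _
  rw [h3] at h2
  have h4 : det3 (g x) (g w) (g y) * φ x (g z) ≤ det3 (g x) (g w) (g z) * φ x (g y) := by
    have : (det3 (g x) (g w) (g y) * φ x (g z)) * φ x (g w) ≤
        (det3 (g x) (g w) (g z) * φ x (g y)) * φ x (g w) := by nlinarith [h1]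
    exact le_of_mul_le_mul_right this pw
  have h5 : 0 ≤ φ x (g w) * det3 (g x) (g y) (g z) := by rw [h2]; linarith
  have h6 : 0 ≤ det3 (g x) (g y) (g z) := by
    by_contra hcon
    have := mul_neg_of_pos_of_neg pw (not_le.mp hcon)
    linarith
  exact lt_of_le_of_ne h6 (co3_ne g φ h0 hp hyx hzx hzy).symm

/-- the largest element -/
lemma co3_max (s : Finset ι) {x w : ι} (hw : w ≠ x) (hws : w ∈ s) (hxs : x ∉ s) :
    ∃ y ∈ s, ∀ z ∈ s, z ≠ y → det3 (g x) (g y) (g z) < 0 := by
  obtain ⟨y, hy, hmin⟩ := s.exists_max_image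
    (fun y => det3 (g x) (g w) (g y) / (φ x (g w) * φ x (g y))) ⟨w, hws⟩
  refine ⟨y, hy, fun z hz hzy => ?_⟩
  have hyx : y ≠ x := fun h => hxs (h ▸ hy)
  have hzx : z ≠ x := fun h => hxs (h ▸ hz)
  have h1 := hmin z hz
  have pw := hp x w hw
  have py := hp x y hyx
  have pz := hp x z hzx
  rw [div_le_div_iff₀ (mul_pos pw pz) (mul_pos pw py)] at h1
  have h2 := co3_pl (φ x) (g x) (g y) (g z) (g w) (h0 x)
  have h3 : det3 (g x) (g y) (g w) = - det3 (g x) (g w) (g y) := co3_swap23 _ _ _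
  rw [h3] at h2
  have h4 : det3 (g x) (g w) (g z) * φ x (g y) ≤ det3 (g x) (g w) (g y) * φ x (g z) := by
    have : (det3 (g x) (g w) (g z) * φ x (g y)) * φ x (g w) ≤
        (det3 (g x) (g w) (g y) * φ x (g z)) * φ x (g w) := by nlinarith [h1]
    exact le_of_mul_le_mul_right this pw
  have h5 : φ x (g w) * det3 (g x) (g y) (g z) ≤ 0 := by rw [h2]; linarith
  have h6 : det3 (g x) (g y) (g z) ≤ 0 := by
    by_contra hcon
    have := mul_pos pw (not_le.mp hcon)
    linarith
  exact lt_of_le_of_ne h6 (co3_ne g φ h0 hp hyx hzx hzy)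

end

/-- Proof. Write `g_x = g x`, `[x,y,z] = det3 g_x g_y g_z`.
(1) Successor. Fix `x`, `φ = φ_x`. The order around `x` is given by the sign of `[x,y,z]`
(`co3_min`, `co3_max`). (2) `s (p x) = x`, so `s` is a permutation. (3) `s (s x) ≠ x`.
(4) The last claim: orbit of `x0`, sign change of `D_k`, Cramer's rule. -/
theorem cone3 {ι : Type*} [Fintype ι] [DecidableEq ι] (g : ι → Fin 3 → ℝ)
    (hex : ∀ x, ∃ φ : (Fin 3 → ℝ) →ₗ[ℝ] ℝ, φ (g x) = 0 ∧ ∀ y, y ≠ x → 0 < φ (g y))
    (hspan : ∃ x y z, det3 (g x) (g y) (g z) ≠ 0) :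
    ∃ nx : Equiv.Perm ι, (∀ x, nx x ≠ x) ∧ (∀ x, nx (nx x) ≠ x) ∧
      (∀ x y, y ≠ x → y ≠ nx x → 0 < det3 (g x) (g (nx x)) (g y)) ∧
      ∀ z, (∀ x, 0 ≤ det3 (g x) (g (nx x)) z) → ∃ c : ι → ℝ, (∀ x, 0 ≤ c x) ∧
        z = ∑ x, c x • g x := by
  choose φ h0 hp using hex
  obtain ⟨a, b, c, habc⟩ := hspan
  have hab : a ≠ b := by
    rintro rfl
    exact habc (co3_self12 _ _)
  have hbc : b ≠ c := by
    rintro rfl
    exact habc (co3_self _ _)
  have hac : a ≠ c := by
    rintro rfl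
    exact habc (co3_self13 _ _)
  have third : ∀ x y : ι, ∃ z, z ≠ x ∧ z ≠ y := by
    intro x y
    by_cases h1 : a ≠ x ∧ a ≠ y
    · exact ⟨a, h1⟩
    by_cases h2 : b ≠ x ∧ b ≠ y
    · exact ⟨b, h2⟩
    refine ⟨c, ?_, ?_⟩
    · rintro rfl
      have hay : a = y := by
        by_contra hh
        exact h1 ⟨hac, hh⟩
      have hby : b = y := by
        by_contra hh
        exact h2 ⟨hbc, hh⟩
      exact hab (hay.trans hby.symm)
    · rintro rfl
      have hay : a = x := by
        by_contra hh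
        exact h1 ⟨hh, hac⟩
      have hby : b = x := by
        by_contra hh
        exact h2 ⟨hh, hbc⟩
      exact hab (hay.trans hby.symm)
  have hsucc : ∀ x, ∃ y, y ≠ x ∧ ∀ z, z ≠ x → z ≠ y → 0 < det3 (g x) (g y) (g z) := by
    intro x
    obtain ⟨w, hw, -⟩ := third x x
    obtain ⟨y, hy, hy2⟩ := co3_min g φ h0 hp (univ.erase x) hw (by simp [hw]) (by simp)
    exact ⟨y, (mem_erase.mp hy).1, fun z hz hzy => hy2 z (by simp [hz]) hzy⟩
  have hpred : ∀ x, ∃ y, y ≠ x ∧ ∀ z, z ≠ x → z ≠ y → det3 (g x) (g y) (g z) < 0 := by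
    intro x
    obtain ⟨w, hw, -⟩ := third x x
    obtain ⟨y, hy, hy2⟩ := co3_max g φ h0 hp (univ.erase x) hw (by simp [hw]) (by simp)
    exact ⟨y, (mem_erase.mp hy).1, fun z hz hzy => hy2 z (by simp [hz]) hzy⟩
  choose s hs1 hs2 using hsucc
  choose p hp1 hp2 using hpred
  have hsp : ∀ x, s (p x) = x := by
    intro x
    by_contra hne
    have h1 := hs2 (p x) x (hp1 x).symm (fun h => hne h.symm)
    have h2 := hp2 x (s (p x)) hne (hs1 (p x))
    rw [co3_swap12] at h2
    have h3 : det3 (g (p x)) (g x) (g (s (p x))) = - det3 (g (p x)) (g (s (p x))) (g x) :=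
      co3_swap23 _ _ _
    linarith
  have hsurj : Function.Surjective s := fun x => ⟨p x, hsp x⟩
  have hbij : Function.Bijective s := ⟨Finite.injective_iff_surjective.mpr hsurj, hsurj⟩
  have hss : ∀ x, s (s x) ≠ x := by
    intro x h
    obtain ⟨z, hz1, hz2⟩ := third x (s x)
    have h1 := hs2 x z hz1 hz2
    have h2 := hs2 (s x) z hz2 (by rw [h]; exact hz1)
    rw [h, co3_swap12] at h2
    linarith
  refine ⟨Equiv.ofBijective s hbij, hs1, hss, hs2, ?_⟩
  intro z hz
  have hz' : ∀ x, 0 ≤ det3 (g x) (g (s x)) z := hz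
  -- the orbit of `a`
  set M := Function.minimalPeriod s a with hM
  have hper : a ∈ Function.periodicPts s := by
    have := Function.Injective.mem_periodicPts hbij.1 a
    exact this
  have hM0 : 0 < M := Function.minimalPeriod_pos_of_mem_periodicPts hper
  have hMa : s^[M] a = a := Function.isPeriodicPt_minimalPeriod s a
  have hlt : ∀ k, 0 < k → k < M → s^[k] a ≠ a := by
    intro k hk hkM h
    have : Function.IsPeriodicPt s k a := h
    exact absurd (this.minimalPeriod_le hk) (not_le.mpr hkM)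
  have hM1 : M ≠ 1 := by
    intro h
    rw [h] at hMa
    exact hs1 a hMa
  have hM2 : M ≠ 2 := by
    intro h
    rw [h] at hMa
    exact hss a hMa
  have hD1 : 0 ≤ det3 (g a) (g (s^[1] a)) z := hz' a
  have hDM : det3 (g a) (g (s^[M - 1] a)) z ≤ 0 := by
    have h1 := hz' (s^[M - 1] a)
    have h2 : s (s^[M - 1] a) = a := by
      rw [← Function.iterate_succ_apply' s (M - 1) a,
        show (M - 1).succ = M from Nat.succ_pred_eq_of_pos hM0]
      exact hMa
    rw [h2, co3_swap12] at h1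
    linarith
  obtain ⟨k, hk1, hk2, hk3, hk4⟩ : ∃ k, 1 ≤ k ∧ k + 1 ≤ M - 1 ∧
      0 ≤ det3 (g a) (g (s^[k] a)) z ∧ det3 (g a) (g (s^[k + 1] a)) z ≤ 0 := by
    by_contra hcon
    push Not at hcon
    have hind : ∀ k, 1 ≤ k → k ≤ M - 1 → 0 ≤ det3 (g a) (g (s^[k] a)) z ∧
        (2 ≤ k → 0 < det3 (g a) (g (s^[k] a)) z) := by
      intro k hk
      induction k, hk using Nat.le_induction with
      | base => exact fun _ => ⟨hD1, fun h => by omega⟩
      | succ k hk ih =>
        intro hkM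
        have h1 := hcon k hk hkM (ih (by omega)).1
        exact ⟨h1.le, fun _ => h1⟩
    have := (hind (M - 1) (by omega) le_rfl).2 (by omega)
    linarith
  have hxk : s^[k] a ≠ a := hlt k hk1 (by omega)
  have hxk1 : s^[k + 1] a ≠ a := hlt (k + 1) (by omega) (by omega)
  have hstep : s^[k + 1] a = s (s^[k] a) := Function.iterate_succ_apply' s k a
  set u := s^[k] a with hu
  rw [hstep] at hk4 hxk1
  have hΔ : 0 < det3 (g a) (g u) (g (s u)) := by
    have h1 := hs2 u a hxk.symm hxk1.symm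
    rw [co3_cyc] at h1
    exact h1
  have hc1 : 0 ≤ det3 z (g u) (g (s u)) := by
    have h1 := hz' u
    rw [co3_cyc] at h1
    exact h1
  have hc2 : 0 ≤ det3 (g a) z (g (s u)) := by
    rw [co3_swap23]
    linarith
  have hcr := co3_cramer (g a) (g u) (g (s u)) z
  set Δ := det3 (g a) (g u) (g (s u)) with hΔd
  refine ⟨fun x => (if x = a then det3 z (g u) (g (s u)) / Δ else 0) +
    (if x = u then det3 (g a) z (g (s u)) / Δ else 0) +
    (if x = s u then det3 (g a) (g u) z / Δ else 0), ?_, ?_⟩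
  · intro x
    have e1 : 0 ≤ det3 z (g u) (g (s u)) / Δ := div_nonneg hc1 hΔ.le
    have e2 : 0 ≤ det3 (g a) z (g (s u)) / Δ := div_nonneg hc2 hΔ.le
    have e3 : 0 ≤ det3 (g a) (g u) z / Δ := div_nonneg hk3 hΔ.le
    refine add_nonneg (add_nonneg ?_ ?_) ?_ <;> split_ifs <;> first | assumption | exact le_rfl
  · simp only [add_smul, Finset.sum_add_distrib, ite_smul, zero_smul, Finset.sum_ite_eq',
      Finset.mem_univ, if_true]
    have h1 : Δ⁻¹ • (Δ • z) = Δ⁻¹ • (det3 z (g u) (g (s u)) • g a +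
        det3 (g a) z (g (s u)) • g u + det3 (g a) (g u) z • g (s u)) := by rw [hcr]
    rw [smul_smul, inv_mul_cancel₀ hΔ.ne', one_smul, smul_add, smul_add, smul_smul, smul_smul,
      smul_smul] at h1
    simp only [div_eq_inv_mul]
    exact h1

end Pool.Agent.H37.SM
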