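import Mathlib

/-! Module EXP: exposed generators of a finitely generated pointed cone. -/

set_option autoImplicit false

namespace Pool.Agent.H37.SM

open Finset

/-- Proof. Choose `I` minimal (by inclusion) among all subsets whose cone contains all `g x` (then it
contains the cone of all `g x`: substitute). Let `x ∈ I`. By minimality `g x` is not in the cone of the others
(if it were, `I.erase x` would also do). Let `K` be the convex hull of the `g y`, `y ∈ I`, `y ≠ x`, in the quotient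
by `ℝ g x` (or: work with the linear map `z ↦ z - (δ z / δ (g x)) • g x`, whose kernel is `ℝ g x`): it is compact
and does not contain `0`: `∑ c_y g_y = t g_x` with `c ≥ 0`, `∑ c = 1`; if `t > 0` then `g x` is in the cone of the
others; if `t ≤ 0` apply `δ`: `0 < ∑ c_y δ(g_y) = t δ(g_x) ≤ 0`. Separate `0` from `K` strictly
(`geometric_hahn_banach_point_compact` or similar) and pull back to get `φ`. If there are no other elements in
`I`, take `φ = 0`. -/
theorem exists_exposed {ι : Type*} [Fintype ι] [DecidableEq ι] {n : ℕ} (g : ι → Fin n → ℝ)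
    (δ : (Fin n → ℝ) →ₗ[ℝ] ℝ) (hδ : ∀ x, 0 < δ (g x)) :
    ∃ I : Finset ι,
      (∀ c : ι → ℝ, (∀ x, 0 ≤ c x) → ∃ c' : ι → ℝ, (∀ x, 0 ≤ c' x) ∧ (∀ x ∉ I, c' x = 0) ∧
        ∑ x, c' x • g x = ∑ x, c x • g x) ∧
      ∀ x ∈ I, ∃ φ : (Fin n → ℝ) →ₗ[ℝ] ℝ, φ (g x) = 0 ∧ ∀ y ∈ I, y ≠ x → 0 < φ (g y) := by
  classical
  set P : Finset ι → Prop := fun I => ∀ c : ι → ℝ, (∀ x, 0 ≤ c x) →
    ∃ c' : ι → ℝ, (∀ x, 0 ≤ c' x) ∧ (∀ x ∉ I, c' x = 0) ∧
        ∑ x, c' x • g x = ∑ x, c x • g x with hP
  have hPu : P univ := fun c hc => ⟨c, hc, fun x hx => absurd (mem_univ x) hx, rfl⟩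
  obtain ⟨I, hI, hmin⟩ : ∃ I : Finset ι, P I ∧ ∀ J, P J → I.card ≤ J.card := by
    obtain ⟨I, hI, hm⟩ := Finset.exists_min_image (univ.filter P) Finset.card
      ⟨univ, by simp [hPu]⟩
    exact ⟨I, (mem_filter.1 hI).2, fun J hJ => hm J (by simp [hJ])⟩
  refine ⟨I, hI, fun x hx => ?_⟩
  -- `g x` is not in the cone of the others
  have hnot : ¬ ∃ d : ι → ℝ, (∀ y, 0 ≤ d y) ∧ (∀ y ∉ I.erase x, d y = 0) ∧
      ∑ y, d y • g y = g x := by
    rintro ⟨d, hd0, hd1, hd2⟩
    have h1 : P (I.erase x) := by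
      intro c hc
      obtain ⟨c', h0, h1, h2⟩ := hI c hc
      refine ⟨fun y => (if y = x then 0 else c' y) + c' x * d y, fun y => ?_, fun y hy => ?_, ?_⟩
      · have := h0 y
        have h3 := mul_nonneg (h0 x) (hd0 y)
        show 0 ≤ (if y = x then 0 else c' y) + c' x * d y
        split_ifs <;> linarith
      · show (if y = x then 0 else c' y) + c' x * d y = 0
        rw [hd1 y hy, mul_zero, add_zero]
        split_ifs with h3
        · rfl
        · exact h1 y fun h4 => hy (mem_erase.2 ⟨h3, h4⟩)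
      · rw [← h2]
        have h3 : ∀ y, ((if y = x then 0 else c' y) + c' x * d y) • g y =
            c' y • g y - (if y = x then c' x • g x else 0) + c' x • (d y • g y) := by
          intro y
          split_ifs with h4
          · subst h4
            rw [zero_add, sub_self, zero_add, smul_smul]
          · rw [sub_zero, add_smul, smul_smul]
        rw [Finset.sum_congr rfl fun y _ => h3 y, Finset.sum_add_distrib,
          Finset.sum_sub_distrib, ← Finset.smul_sum, hd2]
        simp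
    have h2 := hmin _ h1
    rw [Finset.card_erase_of_mem hx] at h2
    have h3 := Finset.card_pos.2 ⟨x, hx⟩
    omega
  have hδx := hδ x
  set T : (Fin n → ℝ) →ₗ[ℝ] (Fin n → ℝ) :=
    LinearMap.id - ((δ (g x))⁻¹ • δ).smulRight (g x) with hT
  have hTapp : ∀ z, T z = z - ((δ (g x))⁻¹ * δ z) • g x := fun z => by
    simp [hT]
  set Φ : (ι → ℝ) →ₗ[ℝ] (Fin n → ℝ) := ∑ y, (LinearMap.proj y).smulRight (T (g y)) with hΦ
  have hΦapp : ∀ c, Φ c = ∑ y, c y • T (g y) := fun c => by
    simp [hΦ, LinearMap.sum_apply]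
  set S : Set (ι → ℝ) := stdSimplex ℝ ι ∩ {c | ∀ y ∉ I.erase x, c y = 0} with hS
  have hSconv : Convex ℝ S := by
    refine (convex_stdSimplex ℝ ι).inter ?_
    intro c hc c' hc' a b _ _ _ y hy
    simp [hc y hy, hc' y hy]
  have hScomp : IsCompact S := by
    refine (isCompact_stdSimplex ℝ ι).inter_right ?_
    have : {c : ι → ℝ | ∀ y ∉ I.erase x, c y = 0} = ⋂ y : ι, ⋂ _ : y ∉ I.erase x,
        {c : ι → ℝ | c y = 0} := by
      ext c; simp
    rw [this]
    exact isClosed_iInter fun y => isClosed_iInter fun _ =>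
      isClosed_eq (continuous_apply y) continuous_const
  have hΦc : Continuous Φ := Φ.continuous_of_finiteDimensional
  have hKclosed : IsClosed (Φ '' S) := (hScomp.image hΦc).isClosed
  have hKconv : Convex ℝ (Φ '' S) := hSconv.linear_image Φ
  have h0 : (0 : Fin n → ℝ) ∉ Φ '' S := by
    rintro ⟨c, ⟨hc1, hc2⟩, hc3⟩
    have hc0 : ∀ y, 0 ≤ c y := hc1.1
    have hcs : ∑ y, c y = 1 := hc1.2
    rw [hΦapp] at hc3
    have e1 : ∑ y, c y • T (g y) = ∑ y, c y • g y -
        ((δ (g x))⁻¹ * ∑ y, c y * δ (g y)) • g x := by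
      have e2 : ∀ y, c y • T (g y) = c y • g y - ((δ (g x))⁻¹ * (c y * δ (g y))) • g x := by
        intro y
        rw [hTapp, smul_sub, smul_smul]
        congr 2
        ring
      rw [Finset.sum_congr rfl fun y _ => e2 y, Finset.sum_sub_distrib, ← Finset.sum_smul,
        Finset.mul_sum]
    rw [e1] at hc3
    set t := (δ (g x))⁻¹ * ∑ y, c y * δ (g y) with ht
    have hsum : 0 < ∑ y, c y * δ (g y) := by
      obtain ⟨y, hy⟩ : ∃ y, 0 < c y := by
        by_contra hcon
        push Not at hcon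
        have : ∑ y, c y = 0 := Finset.sum_eq_zero fun y _ => le_antisymm (hcon y) (hc0 y)
        linarith
      exact Finset.sum_pos' (fun z _ => mul_nonneg (hc0 z) (hδ z).le)
        ⟨y, mem_univ y, mul_pos hy (hδ y)⟩
    have htpos : 0 < t := mul_pos (inv_pos.2 hδx) hsum
    apply hnot
    refine ⟨fun y => t⁻¹ * c y, fun y => mul_nonneg (inv_pos.2 htpos).le (hc0 y), fun y hy => ?_,
      ?_⟩
    · show t⁻¹ * c y = 0
      rw [hc2 y hy, mul_zero]
    · have e3 : ∑ y, (t⁻¹ * c y) • g y = t⁻¹ • ∑ y, c y • g y := by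
        rw [Finset.smul_sum]
        exact Finset.sum_congr rfl fun y _ => by rw [smul_smul]
      rw [e3, sub_eq_zero.1 hc3, smul_smul, inv_mul_cancel₀ htpos.ne', one_smul]
  obtain ⟨f, u, hf1, hf2⟩ := geometric_hahn_banach_point_closed hKconv hKclosed h0
  rw [map_zero] at hf1
  refine ⟨f.toLinearMap.comp T, ?_, fun y hy hyx => ?_⟩
  · have : T (g x) = 0 := by
      rw [hTapp, inv_mul_cancel₀ hδx.ne', one_smul, sub_self]
    simp [this]
  · have h1 : T (g y) ∈ Φ '' S := by
      refine ⟨Pi.single y 1, ⟨single_mem_stdSimplex ℝ y, fun z hz => ?_⟩, ?_⟩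
      · have : z ≠ y := by
          rintro rfl
          exact hz (mem_erase.2 ⟨hyx, hy⟩)
        rw [Pi.single_eq_of_ne this]
      · rw [hΦapp, Finset.sum_eq_single y]
        · simp
        · intro z _ hz
          rw [Pi.single_eq_of_ne hz, zero_smul]
        · intro h; exact absurd (mem_univ y) h
    exact hf1.trans (hf2 _ h1)

end Pool.Agent.H37.SM
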