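import Pool.Agent.H37.SM.ADJ
import Pool.Agent.H37.SM.EXP
import Pool.Agent.H37.SM.CO3

/-! Module GEO: the polygon of a compact facet. -/

set_option autoImplicit false

namespace Pool.Agent.H37.SM

open Finset

variable {r : ℕ} {F : Dat r} {w : Fin 3 → ℤ} {N : ℤ}

/-- the exponents as real vectors -/
def geoG (F : Dat r) (i : Fin r) : Fin 3 → ℝ := fun j => (F.a i j : ℝ)

/-- the form `w·` -/
noncomputable def geoD (w : Fin 3 → ℤ) : (Fin 3 → ℝ) →ₗ[ℝ] ℝ :=
  ∑ j, (w j : ℝ) • LinearMap.proj j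

lemma geoD_apply (w : Fin 3 → ℤ) (x : Fin 3 → ℝ) :
    geoD w x = (w 0 : ℝ) * x 0 + (w 1 : ℝ) * x 1 + (w 2 : ℝ) * x 2 := by
  unfold geoD
  rw [LinearMap.sum_apply, Fin.sum_univ_three]
  simp

lemma geo_face {i : Fin r} (hi : i ∈ F.face w N) : geoD w (geoG F i) = N := by
  have h := mem_face.mp hi
  simp only [ell, Dat.hat_zero, Dat.hat_one, Dat.hat_two, Dat.hat_three] at h
  rw [geoD_apply]
  unfold geoG
  have h2 : (w 0 : ℝ) * (F.a i 0 : ℝ) + (w 1 : ℝ) * (F.a i 1 : ℝ) + (w 2 : ℝ) * (F.a i 2 : ℝ) -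
      N * 1 = 0 := by exact_mod_cast h
  linarith

/-- `det3` is linear in the last vector -/
def geoL (x y : Fin 3 → ℝ) : (Fin 3 → ℝ) →ₗ[ℝ] ℝ where
  toFun z := det3 x y z
  map_add' z z' := by simp only [det3, Pi.add_apply]; ring
  map_smul' t z := by
    simp only [det3, Pi.smul_apply, smul_eq_mul, RingHom.id_apply]; ring

lemma geoL_apply (x y z : Fin 3 → ℝ) : geoL x y z = det3 x y z := rfl

lemma geo_det_left (x y : Fin 3 → ℝ) : det3 x y x = 0 := by
  unfold det3; ring

lemma geo_det_right (x y : Fin 3 → ℝ) : det3 x y y = 0 := by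
  unfold det3; ring

/-- vectors spanning the space contain three with nonzero determinant -/
lemma geo_span {κ : Type} [Fintype κ] (g : κ → Fin 3 → ℝ)
    (h : Submodule.span ℝ (Set.range g) = ⊤) : ∃ x y z, det3 (g x) (g y) (g z) ≠ 0 := by
  obtain ⟨ι, a, -, h1, h2⟩ := exists_linearIndependent' ℝ g
  rw [h] at h1
  have b := Module.Basis.mk h2 h1.ge
  have : Fintype ι := FiniteDimensional.fintypeBasisIndex b
  have hcard : Fintype.card ι = 3 := by
    rw [← Module.finrank_eq_card_basis b, Module.finrank_fintype_fun_eq_card, Fintype.card_fin]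
  let e : Fin 3 ≃ ι := (Fintype.equivFinOfCardEq hcard).symm
  have h3 : LinearIndependent ℝ (fun i : Fin 3 => g (a (e i))) := h2.comp e e.injective
  refine ⟨a (e 0), a (e 1), a (e 2), ?_⟩
  let M : Matrix (Fin 3) (Fin 3) ℝ := Matrix.of fun i => g (a (e i))
  have h4 : IsUnit M := Matrix.linearIndependent_rows_iff_isUnit.mp h3
  have h5 : M.det ≠ 0 := by
    have := (Matrix.isUnit_iff_isUnit_det M).mp h4
    exact this.ne_zero
  have h6 : M.det = det3 (g (a (e 0))) (g (a (e 1))) (g (a (e 2))) := by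
    rw [Matrix.det_fin_three]
    simp only [M, Matrix.of_apply]
    unfold det3
    ring
  rw [← h6]
  exact h5

/-- the integral normal vector of an edge -/
def geoNu (F : Dat r) (p q : Fin r) : Fin 3 → ℤ :=
  ![F.a p 1 * F.a q 2 - F.a p 2 * F.a q 1, F.a p 2 * F.a q 0 - F.a p 0 * F.a q 2,
    F.a p 0 * F.a q 1 - F.a p 1 * F.a q 0]

lemma geoNu_sum (F : Dat r) (p q i : Fin r) :
    ((∑ j, geoNu F p q j * F.a i j : ℤ) : ℝ) = det3 (geoG F p) (geoG F q) (geoG F i) := by
  rw [Fin.sum_univ_three]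
  simp only [geoNu, Matrix.cons_val_zero, Matrix.cons_val_one, Matrix.cons_val]
  unfold det3 geoG
  push_cast
  ring

lemma geoNu_sumR (F : Dat r) (p q : Fin r) (x : Fin 4 → ℝ) :
    ∑ j : Fin 3, (geoNu F p q j : ℝ) * x j.castSucc =
      det3 (geoG F p) (geoG F q) (fun j : Fin 3 => x j.castSucc) := by
  rw [Fin.sum_univ_three]
  simp only [geoNu, Matrix.cons_val_zero, Matrix.cons_val_one, Matrix.cons_val]
  unfold det3 geoG
  push_cast
  ring

/-- Proof. `N > 0` (`N_pos`). `exists_exposed` for the exponents `a_i ∈ ℝ³`, `i` in the face, `δ = w·` (value `N > 0`): the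
vertices `I`. The vectors `a_x`, `x ∈ I`, span `ℝ³` (`hspan` of `cone3`): otherwise some `ψ ≠ 0` vanishes on all of them, so on all
exponents of the face (they are in the cone), `ray` gives `ψ = c w`, but `w·a = N ≠ 0`. `cone3` for `x : I` gives the cyclic order and, for
the edge from `x` to `nx x`, the integral vector `ν = a_x × a_{nx x}` with `ν·z = det3 a_x a_{nx x} z`: zero at `x`, `nx x`, positive at
the other vertices, `≥ 0` on all exponents of the face. `exists_adjacent` gives `ew`, `eN`. `pos`: `ell (ew) (eN) â_y = ρ ν·a_y > 0` (`ellR_toR`).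
`cone`: if `ellR w N x = 0` and all `ellR ew eN x ≥ 0` then `det3 a_x a_{nx x} (x_0,x_1,x_2) ≥ 0`, so `(x_0,x_1,x_2) = ∑ c a_x` and
`N x_3 = w·(x_0,x_1,x_2) = N ∑ c`. Number the vertices by `Fin m` (`Finset.equivFin`). -/
theorem exists_poly (hF : Facet F w N) (hw : Pos3 w) : Nonempty (Poly F w N) := by
  classical
  have hN : 0 < N := N_pos hF hw
  have hNR : (0 : ℝ) < N := by exact_mod_cast hN
  let g0 : {i // i ∈ F.face w N} → Fin 3 → ℝ := fun i => geoG F i.1
  obtain ⟨I, hcone, hexp⟩ := exists_exposed g0 (geoD w) (fun i => by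
    show 0 < geoD w (geoG F i.1)
    rw [geo_face i.2]
    exact hNR)
  let g : {x // x ∈ I} → Fin 3 → ℝ := fun x => g0 x.1
  have hgen : ∀ i ∈ F.face w N, ∃ c : {x // x ∈ I} → ℝ, (∀ x, 0 ≤ c x) ∧
      geoG F i = ∑ x, c x • g x := by
    intro i hi
    obtain ⟨c', h1, h2, h3⟩ := hcone (Pi.single ⟨i, hi⟩ 1) (fun x => by
      rw [Pi.single_apply]
      split_ifs
      · exact zero_le_one
      · exact le_rfl)
    refine ⟨fun x => c' x.1, fun x => h1 _, ?_⟩
    have h4 : ∑ x, (Pi.single (⟨i, hi⟩ : {i // i ∈ F.face w N}) (1 : ℝ) :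
        {i // i ∈ F.face w N} → ℝ) x • g0 x = geoG F i := by
      rw [Finset.sum_eq_single (⟨i, hi⟩ : {i // i ∈ F.face w N})]
      · rw [Pi.single_eq_same, one_smul]
      · intro x _ hx
        rw [Pi.single_eq_of_ne hx, zero_smul]
      · intro h
        exact absurd (Finset.mem_univ _) h
    rw [← h4, ← h3]
    have h5 : ∑ x, c' x • g0 x = ∑ x ∈ I, c' x • g0 x := by
      symm
      refine Finset.sum_subset (Finset.subset_univ _) ?_
      intro x _ hx
      rw [h2 x hx, zero_smul]
    rw [h5, ← Finset.sum_coe_sort]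
  have hspan : ∃ x y z, det3 (g x) (g y) (g z) ≠ 0 := by
    apply geo_span
    by_contra hne
    obtain ⟨ψ, hψ0, hψ⟩ := Submodule.exists_le_ker_of_lt_top _ (lt_top_iff_ne_top.mpr hne)
    have hψg : ∀ x, ψ (g x) = 0 := fun x => by
      have := hψ (Submodule.subset_span (Set.mem_range_self x))
      exact LinearMap.mem_ker.mp this
    have hψa : ∀ i ∈ F.face w N, ψ (geoG F i) = 0 := by
      intro i hi
      obtain ⟨c, -, hc⟩ := hgen i hi
      rw [hc, map_sum]
      refine Finset.sum_eq_zero fun x _ => ?_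
      rw [map_smul, hψg, smul_zero]
    have hψsum : ∀ x : Fin 3 → ℝ, ψ x = ∑ j, ψ (Pi.single j 1) * x j := by
      intro x
      have hx : x = ∑ j, (Pi.single j (x j) : Fin 3 → ℝ) := (Finset.univ_sum_single x).symm
      conv_lhs => rw [hx]
      rw [map_sum]
      refine Finset.sum_congr rfl fun j _ => ?_
      have : (Pi.single j (x j) : Fin 3 → ℝ) = x j • Pi.single j 1 := by
        rw [← Pi.single_smul, smul_eq_mul, mul_one]
      rw [this, map_smul, smul_eq_mul, mul_comm]
    obtain ⟨c, hc⟩ := hF.ray (fun j => ψ (Pi.single j 1)) (by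
      intro i hi i' hi'
      have h1 := hψa i hi
      have h2 := hψa i' hi'
      rw [hψsum] at h1 h2
      show ∑ j, ψ (Pi.single j 1) * geoG F i j = ∑ j, ψ (Pi.single j 1) * geoG F i' j
      rw [h1, h2]) (fun j hj => absurd hj (hw j).ne')
    obtain ⟨i, hi⟩ := hF.attained
    have hi' : i ∈ F.face w N := mem_face.mpr hi
    have h1 := hψa i hi'
    rw [hψsum, Fin.sum_univ_three, hc, hc, hc] at h1
    have h2 := geo_face hi'
    rw [geoD_apply] at h2
    have h3 : c * N = 0 := by rw [← h2]; linarith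
    have hc0 : c = 0 := (mul_eq_zero.mp h3).resolve_right hNR.ne'
    apply hψ0
    apply LinearMap.ext
    intro x
    rw [hψsum, LinearMap.zero_apply]
    refine Finset.sum_eq_zero fun j _ => ?_
    have := hc j
    rw [this, hc0, zero_mul, zero_mul]
  obtain ⟨nx, hnx1, hnx2, hpos, hc3⟩ := cone3 g (fun x => by
    obtain ⟨φ, h1, h2⟩ := hexp x.1 x.2
    exact ⟨φ, h1, fun y hy => h2 y.1 y.2 (fun h => hy (Subtype.ext h))⟩) hspan
  have hdnn : ∀ x y, 0 ≤ det3 (g x) (g (nx x)) (g y) := by
    intro x y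
    by_cases h1 : y = x
    · rw [h1, geo_det_left]
    by_cases h2 : y = nx x
    · rw [h2, geo_det_right]
    exact (hpos x y h1 h2).le
  have hadj : ∀ x : {x // x ∈ I}, ∃ (w' : Fin 3 → ℤ) (N' : ℤ) (ρ : ℝ), Facet F w' N' ∧
      x.1.1 ∈ F.face w' N' ∧ (nx x).1.1 ∈ F.face w' N' ∧ 0 < ρ ∧
      ∀ z : Fin 4 → ℝ, ellR w N z = 0 → ellR w' N' z =
        ρ * det3 (g x) (g (nx x)) (fun j : Fin 3 => z j.castSucc) := by
    intro x
    obtain ⟨w', N', ρ, h1, h2, h3, h4, h5⟩ := exists_adjacent hF hw x.1.1 (nx x).1.1 (by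
        intro h
        exact hnx1 x (Subtype.ext (Subtype.ext h)).symm) x.1.2 (nx x).1.2
      (geoNu F x.1.1 (nx x).1.1) (by
        have := geoNu_sum F x.1.1 (nx x).1.1 x.1.1
        rw [geo_det_left] at this
        exact_mod_cast this) (by
        have := geoNu_sum F x.1.1 (nx x).1.1 (nx x).1.1
        rw [geo_det_right] at this
        exact_mod_cast this) (by
        intro i hi
        have h6 := geoNu_sum F x.1.1 (nx x).1.1 i
        obtain ⟨c, hc, hc'⟩ := hgen i hi
        have h7 : 0 ≤ det3 (geoG F x.1.1) (geoG F (nx x).1.1) (geoG F i) := by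
          rw [← geoL_apply, hc', map_sum]
          refine Finset.sum_nonneg fun y _ => ?_
          rw [map_smul, geoL_apply]
          exact mul_nonneg (hc y) (hdnn x y)
        rw [← h6] at h7
        exact_mod_cast h7) (by
        refine ⟨(nx (nx x)).1.1, (nx (nx x)).1.2, ?_⟩
        have h6 := geoNu_sum F x.1.1 (nx x).1.1 (nx (nx x)).1.1
        have h7 : 0 < det3 (geoG F x.1.1) (geoG F (nx x).1.1) (geoG F (nx (nx x)).1.1) :=
          hpos x (nx (nx x)) (hnx2 x) (hnx1 (nx x))
        rw [← h6] at h7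
        exact_mod_cast h7)
    refine ⟨w', N', ρ, h1, h2, h3, h4, ?_⟩
    intro z hz
    rw [h5 z hz, geoNu_sumR]
  choose ew eN ρ hfac hleft hright hρ hell using hadj
  let eq : Fin (Fintype.card {x // x ∈ I}) ≃ {x // x ∈ I} := (Fintype.equivFin _).symm
  obtain ⟨x0, -, -, -⟩ := hspan
  refine ⟨{
    m := Fintype.card {x // x ∈ I}
    v := fun e => (eq e).1.1
    nx := (eq.trans nx).trans eq.symm
    ew := fun e => ew (eq e)
    eN := fun e => eN (eq e)
    m_pos := Fintype.card_pos_iff.mpr ⟨x0⟩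
    v_inj := fun e e' h => eq.injective (Subtype.ext (Subtype.ext h))
    v_face := fun e => (eq e).1.2
    facet := fun e => hfac _
    left := fun e => hleft _
    right := fun e => ?_
    pos := fun e e' h h' => ?_
    nx_ne := fun e h => ?_
    nx_nx_ne := fun e h => ?_
    cone := fun x hx hx' => ?_ }⟩
  · have h1 : eq (((eq.trans nx).trans eq.symm) e) = nx (eq e) := by
      simp
    show (eq (((eq.trans nx).trans eq.symm) e)).1.1 ∈ _
    rw [h1]
    exact hright (eq e)
  · have h1 : eq e' ≠ eq e := fun h2 => h (eq.injective h2)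
    have h2 : eq e' ≠ nx (eq e) := by
      intro h3
      apply h'
      apply eq.injective
      simp [h3]
    have h3 := hpos (eq e) (eq e') h1 h2
    have h4 : ellR w N (toR (F.hat (eq e').1.1)) = 0 := by
      rw [ellR_toR, mem_face.mp (eq e').1.2, Int.cast_zero]
    have h5 := hell (eq e) _ h4
    have h6 : (fun j : Fin 3 => toR (F.hat (eq e').1.1) j.castSucc) = g (eq e') := by
      funext j
      show ((F.hat (eq e').1.1 j.castSucc : ℤ) : ℝ) = _
      rw [F.hat_castSucc]
      rfl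
    rw [h6, ellR_toR] at h5
    have h7 := mul_pos (hρ (eq e)) h3
    rw [← h5] at h7
    exact_mod_cast h7
  · have h1 : eq (((eq.trans nx).trans eq.symm) e) = nx (eq e) := by simp
    rw [h] at h1
    exact hnx1 _ h1.symm
  · have h1 : ∀ e, eq (((eq.trans nx).trans eq.symm) e) = nx (eq e) := by
      intro e; simp
    have h2 := h1 (((eq.trans nx).trans eq.symm) e)
    rw [h, h1] at h2
    exact hnx2 _ h2.symm
  · obtain ⟨c, hc, hz⟩ := hc3 (fun j : Fin 3 => x j.castSucc) (fun y => by
      have h1 := hx' (eq.symm y)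
      simp only [Equiv.apply_symm_apply] at h1
      rw [hell y x hx] at h1
      exact nonneg_of_mul_nonneg_right h1 (hρ y))
    refine ⟨fun e => c (eq e), fun e => hc _, ?_⟩
    have h1 : ∑ e, c (eq e) • toR (F.hat (eq e).1.1) = ∑ y, c y • toR (F.hat y.1.1) :=
      Equiv.sum_comp eq (fun y => c y • toR (F.hat y.1.1))
    rw [h1]
    have hco : ∀ j : Fin 3, x j.castSucc = ∑ y, c y * (F.a y.1.1 j : ℝ) := by
      intro j
      have h2 := congrFun hz j
      rw [Finset.sum_apply] at h2
      exact h2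
    have hlast : x 3 = ∑ y, c y := by
      have h2 : (w 0 : ℝ) * x 0 + (w 1 : ℝ) * x 1 + (w 2 : ℝ) * x 2 = N * ∑ y, c y := by
        have e0 := hco 0
        have e1 := hco 1
        have e2 := hco 2
        have f0 : (0 : Fin 3).castSucc = (0 : Fin 4) := rfl
        have f1 : (1 : Fin 3).castSucc = (1 : Fin 4) := rfl
        have f2 : (2 : Fin 3).castSucc = (2 : Fin 4) := rfl
        rw [f0] at e0
        rw [f1] at e1
        rw [f2] at e2
        rw [e0, e1, e2, Finset.mul_sum, Finset.mul_sum, Finset.mul_sum, Finset.mul_sum,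
          ← Finset.sum_add_distrib, ← Finset.sum_add_distrib]
        refine Finset.sum_congr rfl fun y _ => ?_
        have h3 := geo_face y.1.2
        rw [geoD_apply] at h3
        unfold geoG at h3
        linear_combination c y * h3
      have h3 : (w 0 : ℝ) * x 0 + (w 1 : ℝ) * x 1 + (w 2 : ℝ) * x 2 - N * x 3 = 0 := hx
      have h4 : (N : ℝ) * x 3 = N * ∑ y, c y := by linarith
      exact mul_left_cancel₀ hNR.ne' h4
    funext j
    rw [Finset.sum_apply]
    refine Fin.lastCases ?_ (fun j' => ?_) j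
    · have h2 : x (Fin.last 3) = ∑ y, c y := hlast
      rw [h2]
      refine Finset.sum_congr rfl fun y _ => ?_
      rw [Pi.smul_apply, smul_eq_mul]
      have h3 : toR (F.hat y.1.1) (Fin.last 3) = 1 := toR_three F y.1.1
      rw [h3, mul_one]
    · rw [hco j']
      refine Finset.sum_congr rfl fun y _ => ?_
      rw [Pi.smul_apply, smul_eq_mul]
      have h3 : toR (F.hat y.1.1) j'.castSucc = (F.a y.1.1 j' : ℝ) := by
        show ((F.hat y.1.1 j'.castSucc : ℤ) : ℝ) = _
        rw [F.hat_castSucc]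
      rw [h3]

end Pool.Agent.H37.SM
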