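import Pool.Agent.H37.SM.NCG
import Pool.Agent.H16.SM.Res

/-! Module NCB: non-compact column-`B₁` facets whose apex column is not a monomial. -/

set_option autoImplicit false

namespace Pool.Agent.H37.SM

open Finset

variable {r : ℕ} {F : Dat r} {w : Fin 3 → ℤ} {N : ℤ}

open NB

namespace NB

lemma exists_third : ∀ i0 j : Fin 3, ∃ k : Fin 3, i0 ≠ k ∧ j ≠ k := by decide

lemma minFace_eq (F : Dat r) (kk : Fin 3 → ℤ) (S : Finset (Fin r)) (c : ℤ) (hS : S.Nonempty)
    (h1 : ∀ i ∈ S, ∑ l, kk l * F.a i l = c) (h2 : ∀ i ∉ S, c < ∑ l, kk l * F.a i l) :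
    F.minFace (fun l => (kk l : ℝ)) = S := by
  classical
  have hcast : ∀ i, ∑ l, (kk l : ℝ) * (F.a i l : ℝ) = ((∑ l, kk l * F.a i l : ℤ) : ℝ) := by
    intro i; push_cast; rfl
  have hle : ∀ i, c ≤ ∑ l, kk l * F.a i l := fun i => by
    by_cases hi : i ∈ S
    · exact (h1 i hi).ge
    · exact (h2 i hi).le
  ext i
  unfold Dat.minFace
  simp only [Finset.mem_filter, Finset.mem_univ, true_and, hcast, Int.cast_le]
  constructor
  · intro h
    obtain ⟨i', hi'⟩ := hS
    by_contra hi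
    have := h i'
    rw [h1 i' hi'] at this
    exact absurd (h2 i hi) (not_lt.mpr this)
  · intro hi i'
    rw [h1 i hi]; exact hle i'

end NB

/-- Two exponents in the apex column force a root.

Proof. Let `j ≠ i0` be the coordinate of `hB`, `k` the third index. On the face `a_j ∈ {0, 1}`; both
occur (`ray`, `i1 ≠ i2` in the apex column). Apex column: `a_j = 1`, `a_k = q`, base column `a_j = 0`,
`a_k = p`; `w_j + w_k q = N = w_k p`, so `w_k ∣ w_j`, `w_k = 1` (`prim`), `w_j = p - q`, `N = p`.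
`A(x) = ∑ κ_i x^{a_{i,i0}}` (apex column), `B(x)` (base column), `f_w = x_j x_k^q A(x_{i0}) + x_k^p B(x_{i0})`.
`A` has at least two terms, so it has a root `ρ ≠ 0`. `A'(ρ) ≠ 0`: the apex column is a face of the convex
hull of all exponents: minimise first `w`, then `-e_j`, i.e. `k = w - ε e_j` for small `ε > 0`
(`AllNonDeg`), and a double root `ρ` of `A` gives a singular zero. Same for `B` (`w + ε e_j`). If `B(ρ) = 0` then
`f_w` vanishes on `x_{i0} = ρ`, with derivative `∂_{i0} f_w = x_j x_k^q A'(ρ) + x_k^p B'(ρ)`, which has a zero with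
`x_j, x_k ≠ 0` (both coefficients are nonzero): singular zero of `f_w`, contradiction. So `B(ρ) ≠ 0`.
`slice2` with the coordinate supports: `mono one4 = D_j y_j + D_k y_k` on the slice, `y_k` supported in
`u_j ≥ 1`, `y_j` in `u_j ≥ 0` (all of them `u_{i0} ≥ 1`, `≥ 0`; not needed). Points of the slice:
`u_k = 1 + w_j (1 - u_j) + p κ'`..., determined by `(u_j, κ', u_{i0})`, `κ' = p_3`. With the Laurent field
`𝓛 = ℂ((τ))`, `x_{i0} = ρ + τ`, `A(ρ+τ)`, `B(ρ+τ) ∈ 𝓛^×`, and `c : ℤ → ℂ^×` with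
`c_{n+1} = -(n - s0) c_n` (`s0` not an integer), define for `u_j ≥ 1`
`Φ(x^u T^k) = (-1)^{u_j} (u_j - 1)! c_{k - u_j} · coeff_{-1}( A^{-u_j} B^{u_j - k} (ρ+τ)^{u_{i0}} )` (and `0` for
`u_j ≤ 0`), extended linearly. Then `Φ ∘ D_3 = 0` and `Φ ∘ D_j = 0` on chains with `u_j ≥ 1`, and
`Φ ∘ D_j = 0` also at `u_j = 0` (there `D_j x^u T^k = A·(u_j = 1, k+1)`, and
`coeff_{-1}(A · A^{-1} B^{1-(k+1)} (ρ+τ)^{…}) = 0`: no pole). `D_k = p D_3 - w_j D_j` on the slice. `Φ(mono one4)
= - c_{-1} coeff_{-1}(A^{-1} B (ρ+τ)) ≠ 0` (`A` has a simple zero). Contradiction. -/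
theorem root_noncompact_b1 (hF : Facet F w N) (hN : 0 < N) (i0 : Fin 3) (h0 : w i0 = 0)
    (hpos : ∀ j, j ≠ i0 → 0 < w j) (hnd : AllNonDeg F) (s0 : ℂ)
    (hs : (wt w : ℂ) + N * s0 = 0) (hs0 : ∀ n : ℤ, s0 ≠ n) (j : Fin 3) (hj : j ≠ i0)
    (hB : ∀ i ∈ F.face w N, F.a i j ≤ 1) (i1 i2 : Fin r) (h1 : i1 ∈ F.face w N)
    (h2 : i2 ∈ F.face w N) (h12 : i1 ≠ i2) (ha1 : F.a i1 j = 1) (ha2 : F.a i2 j = 1) :
    ¬ HasId F s0 := by
  classical
  intro hid
  -- the third index
  obtain ⟨k, hk0, hkj⟩ : ∃ k : Fin 3, i0 ≠ k ∧ j ≠ k := exists_third _ _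
  have hj' : i0 ≠ j := fun h => hj h.symm
  have hwj := hpos j hj
  have hwk := hpos k hk0.symm
  have hell := fun p => ell_perm hj' hk0 hkj w N p
  -- the equation of the face
  have hface : ∀ i, i ∈ F.face w N ↔ w j * F.a i j + w k * F.a i k = N := by
    intro i
    rw [mem_face, hell, h0, F.hat_castSucc, F.hat_castSucc, F.hat_castSucc, F.hat_three]
    constructor <;> intro h <;> linarith
  -- a base exponent
  obtain ⟨b0, hb0, hb0j⟩ : ∃ b0 ∈ F.face w N, F.a b0 j = 0 := by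
    by_contra hno
    push Not at hno
    have hall : ∀ i ∈ F.face w N, F.a i j = 1 := fun i hi => by
      have := hno i hi; have := hB i hi; have := F.a_nonneg i j; omega
    obtain ⟨c, hc⟩ := hF.ray (Pi.single j 1) (by
      intro i hi i' hi'
      have : ∀ i ∈ F.face w N, ∑ l, (Pi.single j 1 : Fin 3 → ℝ) l * (F.a i l : ℝ) = 1 := by
        intro i hi
        rw [Finset.sum_eq_single j]
        · rw [Pi.single_eq_same, hall i hi]; norm_num
        · intro l _ hl; rw [Pi.single_eq_of_ne hl, zero_mul]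
        · intro h; exact absurd (mem_univ _) h
      rw [this i hi, this i' hi']) (by
      intro l hl
      by_cases hlj : l = j
      · rw [hlj] at hl; omega
      · rw [Pi.single_eq_of_ne hlj])
    have e1 := hc k
    have e2 := hc j
    rw [Pi.single_eq_of_ne hkj.symm] at e1
    rw [Pi.single_eq_same] at e2
    have : (w k : ℝ) ≠ 0 := by exact_mod_cast hwk.ne'
    have hc0 : c = 0 := by
      rcases mul_eq_zero.mp e1.symm with h | h
      · exact h
      · exact absurd h this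
    rw [hc0, zero_mul] at e2
    exact one_ne_zero e2
  have eb := (hface b0).mp hb0
  have ea := (hface i1).mp h1
  rw [hb0j] at eb
  rw [ha1] at ea
  -- `w k = 1`
  have hwk1 : w k = 1 := by
    have hdvd : ∀ l, w k ∣ w l := by
      intro l
      rcases forall_perm hj' hk0 hkj l with rfl | rfl | rfl
      · rw [h0]; exact dvd_zero _
      · refine ⟨F.a b0 k - F.a i1 k, ?_⟩
        linarith
      · exact dvd_rfl
    have := hF.prim _ hdvd
    rcases Int.isUnit_iff.mp this with h | h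
    · exact h
    · omega
  rw [hwk1] at ea eb
  have hqN : ∀ i ∈ F.face w N, F.a i k = N - w j * F.a i j := by
    intro i hi
    have := (hface i).mp hi
    rw [hwk1] at this
    linarith
  -- the two columns
  set Ap : Finset (Fin r) := (F.face w N).filter (fun i => F.a i j = 1) with hAp
  set Bp : Finset (Fin r) := (F.face w N).filter (fun i => ¬ F.a i j = 1) with hBp
  have hAm : ∀ i ∈ Ap, i ∈ F.face w N ∧ F.a i j = 1 := fun i hi => Finset.mem_filter.mp hi
  have hBm : ∀ i ∈ Bp, i ∈ F.face w N ∧ F.a i j = 0 := fun i hi => by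
    obtain ⟨h, h'⟩ := Finset.mem_filter.mp hi
    refine ⟨h, ?_⟩
    have := hB i h; have := F.a_nonneg i j; omega
  have hsplit : ∀ f : Fin r → ℂ, ∑ i ∈ F.face w N, f i = ∑ i ∈ Ap, f i + ∑ i ∈ Bp, f i :=
    fun f => (Finset.sum_filter_add_sum_filter_not _ _ _).symm
  -- natural exponents
  set a' : Fin r → ℕ := fun i => (F.a i i0).toNat with ha'
  have ha'c : ∀ i, (a' i : ℤ) = F.a i i0 := fun i => Int.toNat_of_nonneg (F.a_nonneg i i0)
  have hinj : ∀ i ∈ Ap, ∀ i' ∈ Ap, a' i = a' i' → i = i' := by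
    intro i hi i' hi' h
    obtain ⟨hf, hj1⟩ := hAm i hi
    obtain ⟨hf', hj1'⟩ := hAm i' hi'
    apply F.inj
    funext l
    rcases forall_perm hj' hk0 hkj l with rfl | rfl | rfl
    · rw [← ha'c, ← ha'c, h]
    · rw [hj1, hj1']
    · rw [hqN i hf, hqN i' hf', hj1, hj1']
  obtain ⟨ρ, hρ, hAρ⟩ := exists_root Ap F.κ a' hinj (fun i _ => F.κ_ne i)
    (Finset.mem_filter.mpr ⟨h1, ha1⟩) (Finset.mem_filter.mpr ⟨h2, ha2⟩) h12
  -- test points
  have htest : ∀ (S : Finset (Fin r)) (t : ℂ), t ≠ 0 → NonDeg F S →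
      ¬ ((∑ i ∈ S, F.κ i * (ρ ^ a' i * t ^ F.a i j)) = 0 ∧
        (∑ i ∈ S, F.κ i * (a' i : ℂ) * (ρ ^ a' i * t ^ F.a i j)) = 0 ∧
        (∑ i ∈ S, F.κ i * (F.a i j : ℂ) * (ρ ^ a' i * t ^ F.a i j)) = 0 ∧
        (∑ i ∈ S, F.κ i * (F.a i k : ℂ) * (ρ ^ a' i * t ^ F.a i j)) = 0) := by
    intro S t ht hS ⟨c1, c2, c3, c4⟩
    set x : Fin 3 → ℂ := fun l => if l = i0 then ρ else if l = j then t else 1 with hx
    have hx0 : x i0 = ρ := by simp [hx]
    have hxj : x j = t := by simp [hx, hj]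
    have hxk : x k = 1 := by simp [hx, hk0.symm, hkj.symm]
    have hprod : ∀ i, ∏ l, x l ^ F.a i l = ρ ^ a' i * t ^ F.a i j := by
      intro i
      rw [prod_perm hj' hk0 hkj, hx0, hxj, hxk, one_zpow, mul_one, ← zpow_natCast, ha'c]
    refine hS x (fun l => ?_) ⟨?_, fun l => ?_⟩
    · rcases forall_perm hj' hk0 hkj l with rfl | rfl | rfl
      · rw [hx0]; exact hρ
      · rw [hxj]; exact ht
      · rw [hxk]; exact one_ne_zero
    · rw [← c1]; exact Finset.sum_congr rfl fun i _ => by rw [hprod]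
    · rcases forall_perm hj' hk0 hkj l with rfl | rfl | rfl
      · rw [← c2]
        refine Finset.sum_congr rfl fun i _ => ?_
        rw [hprod]
        have : ((F.a i l : ℤ) : ℂ) = (a' i : ℂ) := by rw [← ha'c]; simp
        rw [this]
      · rw [← c3]; exact Finset.sum_congr rfl fun i _ => by rw [hprod]
      · rw [← c4]; exact Finset.sum_congr rfl fun i _ => by rw [hprod]
  have hS : ∀ (ε : ℤ) i, ∑ l, ((N + 1) * w l + if l = j then ε else 0) * F.a i l =
      (N + 1) * (w j * F.a i j + F.a i k) + ε * F.a i j := by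
    intro ε i
    rw [sum_perm hj' hk0 hkj, h0, hwk1, if_neg hj', if_pos rfl, if_neg hkj.symm]
    ring
  have hge : ∀ i, N ≤ w j * F.a i j + F.a i k := by
    intro i
    have := hF.min_le i
    rw [hell, h0, F.hat_castSucc, F.hat_castSucc, F.hat_castSucc, F.hat_three, hwk1] at this
    linarith
  have hmf : ∀ i, w j * F.a i j + F.a i k = N → i ∈ F.face w N := by
    intro i hi
    rw [hface, hwk1]; linarith
  have hNonA : NonDeg F Ap := by
    rw [← minFace_eq F (fun l => (N + 1) * w l + if l = j then -1 else 0) Ap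
      ((N + 1) * N - 1) ⟨i1, Finset.mem_filter.mpr ⟨h1, ha1⟩⟩ ?_ ?_]
    · exact hnd _
    · intro i hi
      obtain ⟨hf, hj1⟩ := hAm i hi
      rw [hS, hj1, hqN i hf, hj1]; ring
    · intro i hi
      rw [hS]
      rcases (hge i).eq_or_lt with he | hlt
      · have hf := hmf i he.symm
        have : F.a i j ≠ 1 := fun h => hi (Finset.mem_filter.mpr ⟨hf, h⟩)
        have := hB i hf
        rw [← he]; linarith [show F.a i j ≤ 0 by omega]
      · have e1 := F.a_nonneg i j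
        have e2 := F.a_nonneg i k
        have e3 : F.a i j ≤ w j * F.a i j := by nlinarith
        nlinarith
  have hNonB : NonDeg F Bp := by
    rw [← minFace_eq F (fun l => (N + 1) * w l + if l = j then 1 else 0) Bp
      ((N + 1) * N) ⟨b0, Finset.mem_filter.mpr ⟨hb0, by omega⟩⟩ ?_ ?_]
    · exact hnd _
    · intro i hi
      obtain ⟨hf, hj1⟩ := hBm i hi
      rw [hS, hj1, hqN i hf, hj1]; ring
    · intro i hi
      rw [hS]
      rcases (hge i).eq_or_lt with he | hlt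
      · have hf := hmf i he.symm
        have : F.a i j = 1 := by
          by_contra h
          exact hi (Finset.mem_filter.mpr ⟨hf, h⟩)
        rw [← he, this]; linarith
      · have e1 := F.a_nonneg i j
        nlinarith
  set A1 : ℂ := ∑ i ∈ Ap, F.κ i * a' i * ρ ^ a' i with hA1
  set B0 : ℂ := ∑ i ∈ Bp, F.κ i * ρ ^ a' i with hB0
  set B1 : ℂ := ∑ i ∈ Bp, F.κ i * a' i * ρ ^ a' i with hB1
  -- sums with `t`
  have tA : ∀ (t : ℂ) (g : Fin r → ℂ), ∑ i ∈ Ap, F.κ i * g i * (ρ ^ a' i * t ^ F.a i j) =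
      t * ∑ i ∈ Ap, F.κ i * g i * ρ ^ a' i := by
    intro t g
    rw [Finset.mul_sum]
    refine Finset.sum_congr rfl fun i hi => ?_
    rw [(hAm i hi).2, zpow_one]; ring
  have tB : ∀ (t : ℂ) (g : Fin r → ℂ), ∑ i ∈ Bp, F.κ i * g i * (ρ ^ a' i * t ^ F.a i j) =
      ∑ i ∈ Bp, F.κ i * g i * ρ ^ a' i := by
    intro t g
    refine Finset.sum_congr rfl fun i hi => ?_
    rw [(hBm i hi).2, zpow_zero]; ring
  have tA1 : ∀ t : ℂ, ∑ i ∈ Ap, F.κ i * (ρ ^ a' i * t ^ F.a i j) = 0 := by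
    intro t
    have := tA t (fun _ => 1)
    simp only [mul_one] at this
    rw [this, hAρ, mul_zero]
  have tB1 : ∀ t : ℂ, ∑ i ∈ Bp, F.κ i * (ρ ^ a' i * t ^ F.a i j) = B0 := by
    intro t
    have := tB t (fun _ => 1)
    simp only [mul_one] at this
    rw [this]
  have tAj : ∀ t : ℂ, ∑ i ∈ Ap, F.κ i * (F.a i j : ℂ) * (ρ ^ a' i * t ^ F.a i j) = 0 := by
    intro t
    rw [← tA1 t]
    refine Finset.sum_congr rfl fun i hi => ?_
    rw [(hAm i hi).2]; push_cast; ring
  have tBj : ∀ t : ℂ, ∑ i ∈ Bp, F.κ i * (F.a i j : ℂ) * (ρ ^ a' i * t ^ F.a i j) = 0 := by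
    intro t
    refine Finset.sum_eq_zero fun i hi => ?_
    rw [(hBm i hi).2]; push_cast; ring
  have tAk : ∀ t : ℂ, ∑ i ∈ Ap, F.κ i * (F.a i k : ℂ) * (ρ ^ a' i * t ^ F.a i j) = 0 := by
    intro t
    rw [← mul_zero ((N : ℂ) - w j), ← tA1 t, Finset.mul_sum]
    refine Finset.sum_congr rfl fun i hi => ?_
    rw [hqN i (hAm i hi).1, (hAm i hi).2]; push_cast; ring
  have tBk : ∀ t : ℂ, ∑ i ∈ Bp, F.κ i * (F.a i k : ℂ) * (ρ ^ a' i * t ^ F.a i j) = N * B0 := by
    intro t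
    rw [← tB1 t, Finset.mul_sum]
    refine Finset.sum_congr rfl fun i hi => ?_
    rw [hqN i (hBm i hi).1, (hBm i hi).2]; push_cast; ring
  have hA1ne : A1 ≠ 0 := by
    intro h
    refine htest Ap 1 one_ne_zero hNonA ⟨tA1 1, ?_, tAj 1, tAk 1⟩
    rw [tA, one_mul]; exact h
  have hB0ne : B0 ≠ 0 := by
    intro h
    have hB1ne : B1 ≠ 0 := by
      intro h'
      refine htest Bp 1 one_ne_zero hNonB ⟨?_, ?_, tBj 1, ?_⟩
      · rw [tB1]; exact h
      · rw [tB]; exact h'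
      · rw [tBk, h, mul_zero]
    refine htest (F.face w N) (-B1 / A1) (div_ne_zero (neg_ne_zero.mpr hB1ne) hA1ne)
      (nonDeg_face hF hnd) ⟨?_, ?_, ?_, ?_⟩
    · rw [hsplit, tA1, tB1, h, add_zero]
    · rw [hsplit, tA, tB]
      show -B1 / A1 * A1 + B1 = 0
      rw [div_mul_cancel₀ _ hA1ne, neg_add_cancel]
    · rw [hsplit, tAj, tBj, add_zero]
    · rw [hsplit, tAk, tBk, h, mul_zero, add_zero]
  -- the units
  obtain ⟨uX, huX⟩ := exists_uX hρ
  obtain ⟨uA, huA⟩ : ∃ uA : (PowerSeries ℂ)ˣ,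
      ∑ i ∈ Ap, F.κ i • ((uX ^ (a' i : ℤ) : (PowerSeries ℂ)ˣ) : PowerSeries ℂ) =
        PowerSeries.X * (uA : PowerSeries ℂ) := by
    have e0 := coeff0_sum Ap F.κ a' huX
    have e1 := coeff1_sum Ap F.κ a' huX
    rw [hAρ] at e0
    obtain ⟨g, hg⟩ := PowerSeries.X_dvd_iff.mpr e0
    rw [hg] at e1
    have e2 : PowerSeries.coeff 1 (PowerSeries.X * g) = PowerSeries.constantCoeff g := by
      rw [show (1 : ℕ) = 0 + 1 from rfl, PowerSeries.coeff_succ_X_mul,
        PowerSeries.coeff_zero_eq_constantCoeff_apply]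
    rw [e2] at e1
    have hu : IsUnit g := by
      rw [PowerSeries.isUnit_iff_constantCoeff, isUnit_iff_ne_zero]
      intro h
      rw [h, mul_zero] at e1
      exact hA1ne e1.symm
    exact ⟨hu.unit, by rw [hu.unit_spec]; exact hg⟩
  obtain ⟨uB, huB⟩ : ∃ uB : (PowerSeries ℂ)ˣ,
      ∑ i ∈ Bp, F.κ i • ((uX ^ (a' i : ℤ) : (PowerSeries ℂ)ˣ) : PowerSeries ℂ) =
        (uB : PowerSeries ℂ) := by
    have hu : IsUnit (∑ i ∈ Bp, F.κ i •
        ((uX ^ (a' i : ℤ) : (PowerSeries ℂ)ˣ) : PowerSeries ℂ)) := by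
      rw [PowerSeries.isUnit_iff_constantCoeff, coeff0_sum Bp F.κ a' huX, isUnit_iff_ne_zero]
      exact hB0ne
    exact ⟨hu.unit, hu.unit_spec.symm⟩
  -- the functional
  set φ : Pt → ℂ := fun p => ph s0 uA uB uX (p j.castSucc) (p 3) (p i0.castSucc) with hφ
  have hphA : ∀ p : Pt, 0 ≤ p j.castSucc →
      ∑ i ∈ Ap, F.κ i * φ (p + F.hat i) = -(p j.castSucc : ℂ) * φ p := by
    intro p hp
    rw [hφ]
    simp only
    rw [← ph_apex Ap F.κ (fun i => (a' i : ℤ)) s0 uA uB uX huA hp]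
    refine Finset.sum_congr rfl fun i hi => ?_
    rw [Pi.add_apply, Pi.add_apply, Pi.add_apply, F.hat_castSucc, F.hat_castSucc, F.hat_three,
      (hAm i hi).2, ha'c]
  have hphB : ∀ p : Pt, ∑ i ∈ Bp, F.κ i * φ (p + F.hat i) =
      -((p 3 : ℂ) - p j.castSucc - s0) * φ p := by
    intro p
    rw [hφ]
    simp only
    rw [← ph_base Bp F.κ (fun i => (a' i : ℤ)) hs0 uA uB uX huB]
    refine Finset.sum_congr rfl fun i hi => ?_
    rw [Pi.add_apply, Pi.add_apply, Pi.add_apply, F.hat_castSucc, F.hat_castSucc, F.hat_three,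
      (hBm i hi).2, ha'c, add_zero]
  -- the identity
  obtain ⟨c, η, ξ, G0, G1, hG0, -, hη, -, hZη, -, hHη, -, -, -⟩ := hid i0 j hj'
  have hη3 := hHη w N hF.nonneg (by
    intro l hl; rw [Finset.mem_singleton] at hl; rw [hl, h0]) hF.min_le
  have hb : SuppIn {p | wt w < ell w N p} (bd F univ s0 bs η - mono one4) := by
    rw [hη, add_sub_cancel_left]
    refine hG0.mono fun p hp => ?_
    obtain ⟨hp3, hpl⟩ := hp
    show wt w < ell w N p
    rw [hell, wt_perm hj' hk0 hkj, h0, hp3]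
    have := hpl j
    have := hpl k
    nlinarith
  obtain ⟨y, hy0, hysl, hyb, hyZ1, hyZ0⟩ := slice2 hF hN i0 h0 s0 hs η hη3 hb
  have key : Lf φ (bd F (F.face w N) s0 c3 y) = 0 := by
    unfold bd
    rw [map_sum, sum_perm hj' hk0 hkj, hy0, map_zero, map_zero, zero_add]
    have kj : Lf φ (D F (F.face w N) s0 (c3 j) (y j)) = 0 := by
      refine Lf_D_eq_zero _ _ _ _ _ _ fun p hp => ?_
      have hpj : 0 ≤ p j.castSucc := hyZ0 hZη j p hp j
      rw [c3_three, mul_zero, sub_zero, lin_c3, hsplit]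
      have eA : ∑ i ∈ Ap, F.κ i * lin (c3 j) (F.hat i) * φ (p + F.hat i) =
          ∑ i ∈ Ap, F.κ i * φ (p + F.hat i) := by
        refine Finset.sum_congr rfl fun i hi => ?_
        rw [lin_c3_hat, (hAm i hi).2]; push_cast; ring
      have eB : ∑ i ∈ Bp, F.κ i * lin (c3 j) (F.hat i) * φ (p + F.hat i) = 0 := by
        refine Finset.sum_eq_zero fun i hi => ?_
        rw [lin_c3_hat, (hBm i hi).2]; push_cast; ring
      rw [eA, eB, hphA p hpj]; ring
    have kk : Lf φ (D F (F.face w N) s0 (c3 k) (y k)) = 0 := by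
      refine Lf_D_eq_zero _ _ _ _ _ _ fun p hp => ?_
      have hpj : 1 ≤ p j.castSucc := hyZ1 hZη k p hp j hkj
      have hsl : ell w N p = wt w := hysl k p hp
      rw [hell, h0, hwk1] at hsl
      have hslc : (p k.castSucc : ℂ) = N * ((p 3 : ℂ) - s0) - w j * p j.castSucc := by
        have : (p k.castSucc : ℂ) = (wt w : ℂ) + N * p 3 - w j * p j.castSucc := by
          have : p k.castSucc = wt w + N * p 3 - w j * p j.castSucc := by linarith
          rw [this]; push_cast; ring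
        rw [this]; linear_combination hs
      rw [c3_three, mul_zero, sub_zero, lin_c3, hsplit]
      have eA : ∑ i ∈ Ap, F.κ i * lin (c3 k) (F.hat i) * φ (p + F.hat i) =
          ((N : ℂ) - w j) * ∑ i ∈ Ap, F.κ i * φ (p + F.hat i) := by
        rw [Finset.mul_sum]
        refine Finset.sum_congr rfl fun i hi => ?_
        rw [lin_c3_hat, hqN i (hAm i hi).1, (hAm i hi).2]; push_cast; ring
      have eB : ∑ i ∈ Bp, F.κ i * lin (c3 k) (F.hat i) * φ (p + F.hat i) =
          N * ∑ i ∈ Bp, F.κ i * φ (p + F.hat i) := by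
        rw [Finset.mul_sum]
        refine Finset.sum_congr rfl fun i hi => ?_
        rw [lin_c3_hat, hqN i (hBm i hi).1, (hBm i hi).2]; push_cast; ring
      rw [eA, eB, hphA p (by omega), hphB p, hslc]; ring
    rw [kj, kk, add_zero]
  rw [hyb, Lf_mono] at key
  have hj1 : (one4 : Pt) j.castSucc = 1 := by
    fin_cases j <;> rfl
  rw [hφ] at key
  simp only at key
  rw [hj1] at key
  exact ph_one hs0 uA uB uX _ _ key

end Pool.Agent.H37.SM
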