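import Pool.Agent.H37.SM.KOX

/-! Module PTI: the interior module is not contained in the ideal in degree three. -/

set_option autoImplicit false

namespace Pool.Agent.H37.SM

open Finset

variable {r : ℕ} {F : Dat r} {w : Fin 3 → ℤ} {N : ℤ}

/-- the points of degree `d` in the relative interior of the cone over the edge `e` -/
def Poly.omE (P : Poly F w N) (e : Fin P.m) (d : ℤ) : Set Pt :=
  {p | ell w N p = 0 ∧ p 3 = d ∧ P.el e p = 0 ∧ ∀ e' ≠ e, 1 ≤ P.el e' p}

lemma pti_hat_nonneg (i : Fin r) (l : Fin 4) : 0 ≤ F.hat i l := by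
  fin_cases l
  · exact F.a_nonneg i 0
  · exact F.a_nonneg i 1
  · exact F.a_nonneg i 2
  · show (0 : ℤ) ≤ 1
    norm_num

/-- coordinates of a point of degree one in the interior of the edge -/
lemma pti_coord (P : Poly F w N) (hw : Pos3 w) (e : Fin P.m) (p : Pt) (hp : p ∈ P.omE e 1) :
    ∃ α β : ℝ, 0 < α ∧ 0 < β ∧ α + β = 1 ∧
      toR p = α • toR (F.hat (P.v e)) + β • toR (F.hat (P.v (P.nx e))) := by
  obtain ⟨h1, h2, h3, h4⟩ := hp
  obtain ⟨α, β, hαβ⟩ := P.span2 hw e (toR p) (by rw [ellR_toR, h1, Int.cast_zero])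
    (by rw [P.elR_toR, h3, Int.cast_zero])
  have hlin : ∀ e', (P.el e' p : ℝ) = α * P.el e' (F.hat (P.v e)) +
      β * P.el e' (F.hat (P.v (P.nx e))) := by
    intro e'
    rw [← P.elR_toR, ← P.elR_toR, ← P.elR_toR, hαβ]
    unfold Poly.elR
    rw [ellR_add, ellR_smul, ellR_smul]
  have hα : 0 < α := by
    have h5 := hlin (P.nx e)
    rw [P.el_left (P.nx e), Int.cast_zero, mul_zero, add_zero] at h5
    have h6 : (1 : ℝ) ≤ P.el (P.nx e) p := by exact_mod_cast h4 _ (P.nx_ne e)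
    have h7 : (0 : ℝ) < P.el (P.nx e) (F.hat (P.v e)) := by exact_mod_cast P.el_nx_pos e
    rw [h5] at h6
    by_contra hneg
    push Not at hneg
    nlinarith
  have hβ : 0 < β := by
    have h5 := hlin (P.pv e)
    have h8 : P.el (P.pv e) (F.hat (P.v e)) = 0 := by
      have := P.el_right (P.pv e)
      rwa [P.nx_pv] at this
    rw [h8, Int.cast_zero, mul_zero, zero_add] at h5
    have h6 : (1 : ℝ) ≤ P.el (P.pv e) p := by exact_mod_cast h4 _ (P.pv_ne e)
    have h7 : (0 : ℝ) < P.el (P.pv e) (F.hat (P.v (P.nx e))) := by exact_mod_cast P.el_pv_pos e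
    rw [h5] at h6
    by_contra hneg
    push Not at hneg
    nlinarith
  refine ⟨α, β, hα, hβ, ?_, hαβ⟩
  have h5 := congrFun hαβ 3
  simp only [toR, Pi.add_apply, Pi.smul_apply, smul_eq_mul, F.hat_three, Int.cast_one, mul_one]
    at h5
  rw [h2, Int.cast_one] at h5
  exact h5.symm

lemma pti_fin (P : Poly F w N) (hw : Pos3 w) (e : Fin P.m) : (P.omE e 1).Finite := by
  refine (Set.finite_Icc (0 : Pt) (F.hat (P.v e) + F.hat (P.v (P.nx e)))).subset ?_
  intro p hp
  obtain ⟨α, β, hα, hβ, hs, hc⟩ := pti_coord P hw e p hp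
  have hl : ∀ l, (p l : ℝ) = α * F.hat (P.v e) l + β * F.hat (P.v (P.nx e)) l := fun l =>
    congrFun hc l
  have hn1 : ∀ l, (0 : ℝ) ≤ F.hat (P.v e) l := fun l => by exact_mod_cast pti_hat_nonneg _ l
  have hn2 : ∀ l, (0 : ℝ) ≤ F.hat (P.v (P.nx e)) l := fun l => by
    exact_mod_cast pti_hat_nonneg _ l
  constructor
  · intro l
    have h1 : (0 : ℝ) ≤ p l := by
      rw [hl]
      exact add_nonneg (mul_nonneg hα.le (hn1 l)) (mul_nonneg hβ.le (hn2 l))
    have h2 : (0 : ℤ) ≤ p l := by exact_mod_cast h1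
    exact h2
  · intro l
    have h1 : (p l : ℝ) ≤ F.hat (P.v e) l + F.hat (P.v (P.nx e)) l := by
      rw [hl]
      have h3 : α * F.hat (P.v e) l ≤ 1 * F.hat (P.v e) l :=
        mul_le_mul_of_nonneg_right (by linarith) (hn1 l)
      have h4 : β * F.hat (P.v (P.nx e)) l ≤ 1 * F.hat (P.v (P.nx e)) l :=
        mul_le_mul_of_nonneg_right (by linarith) (hn2 l)
      linarith
    have h2 : p l ≤ F.hat (P.v e) l + F.hat (P.v (P.nx e)) l := by exact_mod_cast h1
    exact h2

/-- the value of the next edge functional in the interior of the edge -/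
lemma pti_nx_lt (P : Poly F w N) (hw : Pos3 w) (e : Fin P.m) (p : Pt) (hp : p ∈ P.omE e 1) :
    P.el (P.nx e) p < P.el (P.nx e) (F.hat (P.v e)) := by
  obtain ⟨α, β, hα, hβ, hs, hc⟩ := pti_coord P hw e p hp
  have h1 : (P.el (P.nx e) p : ℝ) = α * P.el (P.nx e) (F.hat (P.v e)) := by
    rw [← P.elR_toR, ← P.elR_toR, hc]
    have h2 : P.elR (P.nx e) (toR (F.hat (P.v (P.nx e)))) = 0 := by
      rw [P.elR_toR, P.el_left, Int.cast_zero]
    unfold Poly.elR at h2 ⊢
    rw [ellR_add, ellR_smul, ellR_smul, h2, mul_zero, add_zero]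
  have h7 : (0 : ℝ) < P.el (P.nx e) (F.hat (P.v e)) := by exact_mod_cast P.el_nx_pos e
  have h8 : (P.el (P.nx e) p : ℝ) < P.el (P.nx e) (F.hat (P.v e)) := by
    rw [h1]
    nlinarith
  exact_mod_cast h8

/-- the sum of the two ends of an edge is positive on all other edges -/
lemma pti_sum_pos (P : Poly F w N) (e e' : Fin P.m) (he : e' ≠ e) :
    0 < P.el e' (F.hat (P.v e)) + P.el e' (F.hat (P.v (P.nx e))) := by
  have h1 := P.el_hat_nonneg e' (P.v e)
  have h2 := P.el_hat_nonneg e' (P.v (P.nx e))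
  by_cases h : e = P.nx e'
  · have h3 : 0 < P.el e' (F.hat (P.v (P.nx e))) := by
      apply P.pos
      · intro h4
        rw [h] at h4
        exact P.nx_nx_ne e' h4
      · intro h4
        exact he (P.nx.injective h4).symm
    omega
  · have h3 : 0 < P.el e' (F.hat (P.v e)) := P.pos e' e (Ne.symm he) h
    omega

lemma pti_sum_mem (P : Poly F w N) (e : Fin P.m) :
    F.hat (P.v e) + F.hat (P.v (P.nx e)) ∈ P.omE e 2 := by
  refine ⟨?_, ?_, ?_, fun e' he' => ?_⟩
  · rw [ell_add, P.ell_v, P.ell_v, add_zero]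
  · show F.hat (P.v e) 3 + F.hat (P.v (P.nx e)) 3 = 2
    rw [F.hat_three, F.hat_three]
    norm_num
  · rw [P.el_add, P.el_left, P.el_right, add_zero]
  · rw [P.el_add]
    have := pti_sum_pos P e e' he'
    omega

lemma pti_add_mem (P : Poly F w N) (e : Fin P.m) (p : Pt) (hp : p ∈ P.omE e 1) (i : Fin r)
    (h1 : ell w N (F.hat i) = 0) (h2 : P.el e (F.hat i) = 0) : p + F.hat i ∈ P.omE e 2 := by
  refine ⟨?_, ?_, ?_, fun e' he' => ?_⟩
  · rw [ell_add, hp.1, h1, add_zero]
  · show p 3 + F.hat i 3 = 2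
    rw [F.hat_three, hp.2.1]
    norm_num
  · rw [P.el_add, hp.2.2.1, h2, add_zero]
  · rw [P.el_add]
    have h3 := hp.2.2.2 e' he'
    have h4 := P.el_hat_nonneg e' i
    omega

lemma pti_decomp (η : LL) (S : Finset Pt) (hS : ∀ p, cf η p ≠ 0 → p ∈ S) :
    η = ∑ p ∈ S, cf η p • mono p := by
  apply ext_cf
  intro q
  rw [cf_sum]
  simp only [cf_smul, cf_mono, mul_ite, mul_one, mul_zero]
  rw [Finset.sum_ite_eq]
  by_cases hq : q ∈ S
  · rw [if_pos hq]
  · rw [if_neg hq]
    by_contra h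
    exact hq (hS q h)

/-- Some element supported on `omE e 2` is not of the form `∑ E^e_j z_j`, `z_j` on `omE e 1`.

Proof (dimension count). Let `v̂' - v̂ = L ρ`, `v = v e`, `v' = v (nx e)`, `ρ ∈ ℤ⁴` primitive, `L ≥ 1`.
The integral points of `ℓ_w = el e = 0` of degree `d` are `d v̂ + t ρ`, `t ∈ ℤ` (`span2`; the difference to
`d v̂` is an integral vector in `ℝ ρ`), the interior ones are `0 < t < d L` (`pp` and the two
neighbouring functionals). So `omE e 1` has `L - 1` points and `omE e 2` has `2L - 1`. The vectors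
`(a_{i,j})_j`, `i` on the edge, are combinations of those of `v`, `v'`; so
`∑_j E^e_j z_j = ∑_i κ_i x^{â_i} ∑_j a_{ij} z_j` depends only on `∑_j v_j z_j` and `∑_j v'_j z_j`, two
elements of the `(L-1)`-dimensional space: the image has dimension `≤ 2(L-1) < 2L - 1`. -/
theorem Poly.exists_h (P : Poly F w N) (hw : Pos3 w) (hN : 0 < N) (e : Fin P.m) :
    ∃ h : LL, SuppIn (P.omE e 2) h ∧
      ¬ ∃ z : Fin 3 → LL, (∀ j, SuppIn (P.omE e 1) (z j)) ∧ h = dotE F (P.edge e) z := by
  classical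
  set v1 : Pt := F.hat (P.v e) with hv1
  set v2 : Pt := F.hat (P.v (P.nx e)) with hv2
  set S1 : Finset Pt := (pti_fin P hw e).toFinset with hS1
  have hmem1 : ∀ p, p ∈ S1 ↔ p ∈ P.omE e 1 := fun p => Set.Finite.mem_toFinset _
  set S2 : Finset Pt := S1.image (fun p => p + v1) ∪ S1.image (fun p => p + v2) ∪ {v1 + v2}
    with hS2
  have hmem2 : ∀ p ∈ S2, p ∈ P.omE e 2 := by
    intro p hp
    rw [hS2, Finset.mem_union, Finset.mem_union, Finset.mem_image, Finset.mem_image,
      Finset.mem_singleton] at hp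
    rcases hp with (⟨q, hq, rfl⟩ | ⟨q, hq, rfl⟩) | rfl
    · exact pti_add_mem P e q ((hmem1 q).1 hq) _ (P.ell_v e) (P.el_left e)
    · exact pti_add_mem P e q ((hmem1 q).1 hq) _ (P.ell_v (P.nx e)) (P.el_right e)
    · exact pti_sum_mem P e
  have hlt : ∀ p ∈ S1, P.el (P.nx e) p < P.el (P.nx e) v1 := fun p hp =>
    pti_nx_lt P hw e p ((hmem1 p).1 hp)
  have hpos : ∀ p ∈ S1, 0 < P.el (P.nx e) p := fun p hp => by
    have := ((hmem1 p).1 hp).2.2.2 (P.nx e) (P.nx_ne e)
    omega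
  have hz2 : P.el (P.nx e) v2 = 0 := P.el_left (P.nx e)
  have hd1 : Disjoint (S1.image (fun p => p + v1)) (S1.image (fun p => p + v2)) := by
    rw [Finset.disjoint_left]
    intro p hp hp'
    obtain ⟨q, hq, rfl⟩ := Finset.mem_image.1 hp
    obtain ⟨q', hq', h⟩ := Finset.mem_image.1 hp'
    have h1 : P.el (P.nx e) (q' + v2) = P.el (P.nx e) (q + v1) := by rw [h]
    rw [P.el_add, P.el_add, hz2] at h1
    have h2 := hlt q' hq'
    have h3 := hpos q hq
    omega
  have hd2 : Disjoint (S1.image (fun p => p + v1) ∪ S1.image (fun p => p + v2)) {v1 + v2} := by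
    rw [Finset.disjoint_singleton_right, Finset.mem_union]
    rintro (h | h)
    · obtain ⟨q, hq, h⟩ := Finset.mem_image.1 h
      have h1 : P.el (P.nx e) (q + v1) = P.el (P.nx e) (v1 + v2) := by rw [h]
      rw [P.el_add, P.el_add, hz2] at h1
      have h3 := hpos q hq
      omega
    · obtain ⟨q, hq, h⟩ := Finset.mem_image.1 h
      have h1 : P.el (P.nx e) (q + v2) = P.el (P.nx e) (v1 + v2) := by rw [h]
      rw [P.el_add, P.el_add, hz2] at h1
      have h3 := hlt q hq
      omega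
  have hcard : S2.card = 2 * S1.card + 1 := by
    rw [hS2, Finset.card_union_of_disjoint hd2, Finset.card_union_of_disjoint hd1,
      Finset.card_image_of_injective _ (add_left_injective v1),
      Finset.card_image_of_injective _ (add_left_injective v2), Finset.card_singleton]
    ring
  -- coordinates of the exponents on the edge
  have hconv : ∀ i : Fin r, ∃ α β : ℝ, i ∈ P.edge e → ∀ j : Fin 3,
      (F.a i j : ℝ) = α * F.a (P.v e) j + β * F.a (P.v (P.nx e)) j := by
    intro i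
    by_cases hi : i ∈ P.edge e
    · obtain ⟨α, β, _, _, _, h⟩ := P.edge_conv hw e i hi
      refine ⟨α, β, fun _ j => ?_⟩
      have h1 := congrFun h j.castSucc
      simp only [toR, Pi.add_apply, Pi.smul_apply, smul_eq_mul, F.hat_castSucc] at h1
      exact h1
    · exact ⟨0, 0, fun h => absurd h hi⟩
  choose α β hαβ using hconv
  set G : LL := ∑ i ∈ P.edge e, AddMonoidAlgebra.single (F.hat i) (F.κ i * (α i : ℂ)) with hG
  set G' : LL := ∑ i ∈ P.edge e, AddMonoidAlgebra.single (F.hat i) (F.κ i * (β i : ℂ)) with hG'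
  have hE : ∀ j, E F (P.edge e) (c3 j) =
      (F.a (P.v e) j : ℂ) • G + (F.a (P.v (P.nx e)) j : ℂ) • G' := by
    intro j
    apply ext_cf
    intro p
    rw [cf_add, cf_smul, cf_smul]
    unfold E
    rw [cf_sum, hG, hG', cf_sum, cf_sum, Finset.mul_sum, Finset.mul_sum,
      ← Finset.sum_add_distrib]
    refine Finset.sum_congr rfl fun i hi => ?_
    rw [cf_single, cf_single, cf_single, lin_c3_hat]
    have h1 : (F.a i j : ℂ) = (α i : ℂ) * F.a (P.v e) j + (β i : ℂ) * F.a (P.v (P.nx e)) j := by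
      have := hαβ i hi j
      exact_mod_cast congrArg (fun x : ℝ => (x : ℂ)) this
    split_ifs
    · rw [h1]
      ring
    · ring
  -- the linear map
  let μ : (S1 → ℂ) →ₗ[ℂ] LL := Fintype.linearCombination ℂ (fun q : S1 => mono q.1)
  let ev : LL →ₗ[ℂ] (S2 → ℂ) :=
    { toFun := fun η p => cf η p.1
      map_add' := fun η ξ => rfl
      map_smul' := fun z η => rfl }
  let Ψ : (S1 → ℂ) × (S1 → ℂ) →ₗ[ℂ] (S2 → ℂ) :=
    ev.comp (((LinearMap.mulLeft ℂ G).comp μ).coprod ((LinearMap.mulLeft ℂ G').comp μ))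
  have hns : ¬ Function.Surjective Ψ := by
    intro hsurj
    have h1 := LinearMap.finrank_le_finrank_of_surjective hsurj
    rw [Module.finrank_prod, Module.finrank_fintype_fun_eq_card,
      Module.finrank_fintype_fun_eq_card, Fintype.card_coe, Fintype.card_coe, hcard] at h1
    omega
  have hns' : ∃ y : S2 → ℂ, ∀ x, Ψ x ≠ y := by
    by_contra hno
    push Not at hno
    exact hns hno
  obtain ⟨y, hy⟩ := hns'
  refine ⟨∑ p : S2, y p • mono p.1, SuppIn.sum fun p _ => (suppIn_mono (hmem2 p.1 p.2)).smul _, ?_⟩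
  rintro ⟨z, hz, hh⟩
  set Z : LL := ∑ j, (F.a (P.v e) j : ℂ) • z j with hZ
  set Z' : LL := ∑ j, (F.a (P.v (P.nx e)) j : ℂ) • z j with hZ'
  have hZs : SuppIn (P.omE e 1) Z := SuppIn.sum fun j _ => (hz j).smul _
  have hZs' : SuppIn (P.omE e 1) Z' := SuppIn.sum fun j _ => (hz j).smul _
  have hdot : dotE F (P.edge e) z = G * Z + G' * Z' := by
    unfold dotE
    rw [hZ, hZ', Finset.mul_sum, Finset.mul_sum, ← Finset.sum_add_distrib]
    refine Finset.sum_congr rfl fun j _ => ?_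
    rw [hE j, add_mul, smul_mul_assoc, smul_mul_assoc, mul_smul_comm, mul_smul_comm]
  have hμ : ∀ Y : LL, SuppIn (P.omE e 1) Y → μ (fun q => cf Y q.1) = Y := by
    intro Y hY
    show ∑ q : S1, cf Y q.1 • mono q.1 = Y
    rw [Finset.sum_coe_sort S1 (fun q => cf Y q • mono q)]
    exact (pti_decomp Y S1 fun p hp => (hmem1 p).2 (hY p hp)).symm
  apply hy (fun q => cf Z q.1, fun q => cf Z' q.1)
  have h1 : Ψ (fun q => cf Z q.1, fun q => cf Z' q.1) = ev (G * Z + G' * Z') := by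
    show ev (G * μ (fun q => cf Z q.1) + G' * μ (fun q => cf Z' q.1)) = ev (G * Z + G' * Z')
    rw [hμ Z hZs, hμ Z' hZs']
  rw [h1, ← hdot, ← hh]
  funext p
  show cf (∑ p : S2, y p • mono p.1) p.1 = y p
  rw [cf_sum]
  simp only [cf_smul, cf_mono, mul_ite, mul_one, mul_zero]
  rw [Finset.sum_eq_single p]
  · rw [if_pos rfl]
  · intro b _ hb
    rw [if_neg]
    intro h
    exact hb (Subtype.ext h.symm)
  · intro h
    exact absurd (Finset.mem_univ p) h

lemma pti_dot_smul (B : Finset (Fin r)) (z : ℂ) (η : Fin 3 → LL) :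
    dotE F B (fun j => z • η j) = z • dotE F B η := by
  unfold dotE
  rw [Finset.smul_sum]
  exact Finset.sum_congr rfl fun j _ => mul_smul_comm _ _ _

/-- Proof. Take any edge `e`, `h` from `exists_h`, the vector `c_j = (ew e)_j - (eN e/N) w_j`, so that
`∑_j c_j a_{ij} = el e â_i` for exponents of the facet. `J := dotE F face (fun j => c_j • h)
= ∑_i κ_i el e(â_i) x^{â_i} h` is supported in `om 3`, so `J` is a combination of the monomials in
`om 3` and lies in `P.img 2`: `J = E·z`, `z` on `om 2`. Then `y_j = c_j • h - z_j` has `E·y = 0` and is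
supported in `P.M 0 p0` with `p0 = ε (v̂ + v̂')` (thresholds: `el e ≥ 0`, other edges `≥ 1`), degree
2. `koszul`: `y = E × ζ`, `ζ` on `P.M 0 p0`, of degree 1 (cut). The `el e = 0` part:
`c_j • h = (E^e × ζ^e)_j` with `ζ^e` on `omE e 1`. Choose `b` with `∑ c_j b_j = 1` (`c ≠ 0`):
`h = ∑_j b_j c_j h = b · (E^e × ζ^e) = E^e · (ζ^e × b)`, contradiction. -/
theorem partI (P : Poly F w N) (hw : Pos3 w) (hN : 0 < N) (hU : UnitOn F (F.face w N))
    (hUe : ∀ e, UnitOn F (P.edge e)) : ¬ ∀ μ ∈ P.om 3, mono μ ∈ P.img 2 := by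
  classical
  intro hall
  obtain ⟨e⟩ : Nonempty (Fin P.m) := ⟨⟨0, P.m_pos⟩⟩
  obtain ⟨h, hh, hno⟩ := P.exists_h hw hN e
  have hNC : (N : ℂ) ≠ 0 := Int.cast_ne_zero.2 hN.ne'
  set c : Fin 3 → ℂ := fun j => (P.ew e j : ℂ) - (P.eN e : ℂ) / N * (w j : ℂ) with hc
  have hca : ∀ i ∈ F.face w N, ∑ j, c j * (F.a i j : ℂ) = (P.el e (F.hat i) : ℂ) := by
    intro i hi
    have h1 : ell w N (F.hat i) = 0 := mem_face.1 hi
    have h2 : (w 0 : ℂ) * F.a i 0 + w 1 * F.a i 1 + w 2 * F.a i 2 - N = 0 := by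
      have h3 : w 0 * F.a i 0 + w 1 * F.a i 1 + w 2 * F.a i 2 - N * 1 = 0 := h1
      have h4 := congrArg (fun x : ℤ => (x : ℂ)) h3
      push_cast at h4
      linear_combination h4
    have h5 : (P.el e (F.hat i) : ℂ) = (P.ew e 0 : ℂ) * F.a i 0 + P.ew e 1 * F.a i 1 +
        P.ew e 2 * F.a i 2 - P.eN e := by
      have h6 : P.el e (F.hat i) = P.ew e 0 * F.a i 0 + P.ew e 1 * F.a i 1 +
        P.ew e 2 * F.a i 2 - P.eN e * 1 := rfl
      rw [h6]
      push_cast
      ring
    rw [h5, Fin.sum_univ_three, hc]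
    field_simp
    linear_combination (-(P.eN e : ℂ)) * h2
  set J : LL := dotE F (F.face w N) (fun j => c j • h) with hJ
  have hcfJ : ∀ p, cf J p = ∑ i ∈ F.face w N,
      F.κ i * (P.el e (F.hat i) : ℂ) * cf h (p - F.hat i) := by
    intro p
    rw [hJ]
    unfold dotE
    rw [cf_sum]
    simp only [cf_E_mul, cf_smul, lin_c3_hat]
    rw [Finset.sum_comm]
    refine Finset.sum_congr rfl fun i hi => ?_
    rw [← hca i hi, Finset.mul_sum, Finset.sum_mul]
    refine Finset.sum_congr rfl fun j _ => ?_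
    ring
  have hJs : SuppIn (P.om 3) J := by
    intro p hp
    rw [hcfJ] at hp
    obtain ⟨i, hi, hne⟩ := Finset.exists_ne_zero_of_sum_ne_zero hp
    have h1 : cf h (p - F.hat i) ≠ 0 := right_ne_zero_of_mul hne
    have h2 : (P.el e (F.hat i) : ℂ) ≠ 0 := right_ne_zero_of_mul (left_ne_zero_of_mul hne)
    have h3 : P.el e (F.hat i) ≠ 0 := fun h0 => h2 (by rw [h0, Int.cast_zero])
    have h4 := P.el_hat_nonneg e i
    obtain ⟨g1, g2, g3, g4⟩ := hh _ h1
    rw [ell_sub, mem_face.1 hi] at g1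
    rw [P.el_sub] at g3
    have g2' : p 3 - F.hat i 3 = 2 := g2
    rw [F.hat_three] at g2'
    refine ⟨by omega, by omega, fun e' => ?_⟩
    by_cases he' : e' = e
    · rw [he']
      omega
    · have g5 := g4 e' he'
      rw [P.el_sub] at g5
      have g6 := P.el_hat_nonneg e' i
      omega
  have hJm : J ∈ P.img 2 := by
    rw [pti_decomp J (cf_finite J).toFinset fun p hp => (Set.Finite.mem_toFinset _).2 hp]
    refine Submodule.sum_mem _ fun p hp => Submodule.smul_mem _ _ ?_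
    exact hall p (hJs p ((Set.Finite.mem_toFinset _).1 hp))
  obtain ⟨z, hz, hJz⟩ := hJm
  -- the base point
  set v1 : Pt := F.hat (P.v e) with hv1
  set v2 : Pt := F.hat (P.v (P.nx e)) with hv2
  have hsn : ∀ e', (0 : ℝ) ≤ (P.el e' v1 : ℝ) + P.el e' v2 := by
    intro e'
    have h1 := P.el_hat_nonneg e' (P.v e)
    have h2 := P.el_hat_nonneg e' (P.v (P.nx e))
    exact_mod_cast add_nonneg h1 h2
  set T : ℝ := 1 + ∑ e', ((P.el e' v1 : ℝ) + P.el e' v2) with hT
  have hTpos : 0 < T := by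
    have := Finset.sum_nonneg fun e' (_ : e' ∈ (univ : Finset (Fin P.m))) => hsn e'
    linarith
  set p0 : Fin 4 → ℝ := T⁻¹ • (toR v1 + toR v2) with hp0
  have hel0 : ∀ e', P.elR e' p0 = T⁻¹ * ((P.el e' v1 : ℝ) + P.el e' v2) := by
    intro e'
    rw [← P.elR_toR, ← P.elR_toR, hp0]
    unfold Poly.elR
    rw [ellR_smul, ellR_add]
  have hell0 : ellR w N p0 = ((0 : ℤ) : ℝ) := by
    rw [hp0, ellR_smul, ellR_add, ellR_toR, ellR_toR, P.ell_v, P.ell_v]
    simp
  have hee0 : P.elR e p0 = 0 := by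
    rw [hel0, P.el_left, P.el_right]
    simp
  have hle1 : ∀ e', P.elR e' p0 ≤ 1 := by
    intro e'
    rw [hel0, inv_mul_le_iff₀ hTpos, mul_one]
    have h1 := Finset.single_le_sum (f := fun e' => (P.el e' v1 : ℝ) + P.el e' v2)
      (fun e' _ => hsn e') (Finset.mem_univ e')
    linarith
  have hgt0 : ∀ e', e' ≠ e → 0 < P.elR e' p0 := by
    intro e' he'
    rw [hel0]
    have h1 := pti_sum_pos P e e' he'
    have h2 : (0 : ℝ) < (P.el e' v1 : ℝ) + P.el e' v2 := by exact_mod_cast h1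
    exact mul_pos (inv_pos.2 hTpos) h2
  set y : Fin 3 → LL := fun j => c j • h - z j with hy
  have hys : ∀ j, SuppIn (P.M 0 p0) (y j) := by
    intro j
    refine SuppIn.sub (SuppIn.smul ?_ _) ?_
    · refine hh.mono ?_
      rintro p ⟨g1, g2, g3, g4⟩
      refine ⟨g1, fun e' => ?_⟩
      by_cases he' : e' = e
      · rw [he', hee0, g3, Int.cast_zero]
      · refine (hle1 e').trans ?_
        exact_mod_cast g4 e' he'
    · refine (hz j).mono ?_
      rintro p ⟨g1, g2, g3⟩
      refine ⟨g1, fun e' => (hle1 e').trans ?_⟩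
      exact_mod_cast g3 e'
  have hydot : dotE F (F.face w N) y = 0 := by
    have h1 : dotE F (F.face w N) y = J - dotE F (F.face w N) z := by
      rw [hJ, hy]
      unfold dotE
      rw [← Finset.sum_sub_distrib]
      exact Finset.sum_congr rfl fun j _ => mul_sub _ _ _
    rw [h1, hJz, sub_self]
  obtain ⟨ζ, hζ, hyζ⟩ := P.koszul hw hN hU hUe 0 p0 hell0 y hys hydot
  have hMe : ∀ u ∈ P.M 0 p0, 0 ≤ P.el e u := by
    intro u hu
    have h1 := hu.2 e
    rw [hee0] at h1
    exact_mod_cast h1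
  have hMe' : ∀ u ∈ P.M 0 p0, ∀ e' ≠ e, 1 ≤ P.el e' u := by
    intro u hu e' he'
    have h1 := lt_of_lt_of_le (hgt0 e' he') (hu.2 e')
    have h2 : 0 < P.el e' u := by exact_mod_cast h1
    omega
  set ζe : Fin 3 → LL := fun j => cut (P.omE e 1) (ζ j) with hζe
  -- comparison
  have hA : ∀ p : Pt, p 3 = 2 → ell w N p = 0 → P.el e p = 0 → ∀ j1 j2,
      cf (E F (F.face w N) (c3 j1) * ζ j2) p = cf (E F (P.edge e) (c3 j1) * ζe j2) p := by
    intro p g1 g2 g3 j1 j2
    rw [cf_E_mul, cf_E_mul]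
    symm
    have hsub : P.edge e ⊆ F.face w N := Finset.inter_subset_left
    have h0 : ∀ i ∈ P.edge e, F.κ i * lin (c3 j1) (F.hat i) * cf (ζe j2) (p - F.hat i) =
        F.κ i * lin (c3 j1) (F.hat i) * cf (ζ j2) (p - F.hat i) := by
      intro i hi
      congr 1
      by_cases hne : cf (ζ j2) (p - F.hat i) = 0
      · rw [hζe]
        simp only
        rw [cf_cut, hne, ite_self]
      · have hu := hζ j2 _ hne
        apply cf_cut_of_mem
        refine ⟨hu.1, ?_, ?_, hMe' _ hu⟩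
        · show p 3 - F.hat i 3 = 1
          rw [g1, F.hat_three]
          norm_num
        · have h5 : P.el e (F.hat i) = 0 := mem_face.1 (Finset.mem_inter.1 hi).2
          rw [P.el_sub, g3, h5, sub_zero]
    rw [Finset.sum_congr rfl h0]
    refine Finset.sum_subset hsub fun i hi hi' => ?_
    have h5 : P.el e (F.hat i) ≠ 0 := fun h6 =>
      hi' (Finset.mem_inter.2 ⟨hi, mem_face.2 h6⟩)
    have h6 := P.el_hat_nonneg e i
    rw [(hζ j2).cf_eq, mul_zero]
    intro hu
    have h7 := hMe _ hu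
    rw [P.el_sub, g3] at h7
    omega
  have hB : ∀ p : Pt, ¬ (p 3 = 2 ∧ ell w N p = 0 ∧ P.el e p = 0) → ∀ j1 j2,
      cf (E F (P.edge e) (c3 j1) * ζe j2) p = 0 := by
    intro p hp j1 j2
    rw [cf_E_mul]
    refine Finset.sum_eq_zero fun i hi => ?_
    have hi1 : ell w N (F.hat i) = 0 := mem_face.1 (Finset.mem_inter.1 hi).1
    have hi2 : P.el e (F.hat i) = 0 := mem_face.1 (Finset.mem_inter.1 hi).2
    rw [(suppIn_cut (P.omE e 1) (ζ j2)).cf_eq, mul_zero]
    rintro ⟨g1, g2, g3, _⟩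
    apply hp
    rw [ell_sub, hi1] at g1
    rw [P.el_sub, hi2] at g3
    have g2' : p 3 - F.hat i 3 = 1 := g2
    rw [F.hat_three] at g2'
    refine ⟨by omega, by omega, by omega⟩
  have hcr : ∀ j, c j • h = crossE F (P.edge e) ζe j := by
    intro j
    apply ext_cf
    intro p
    by_cases hp : p 3 = 2 ∧ ell w N p = 0 ∧ P.el e p = 0
    · obtain ⟨g1, g2, g3⟩ := hp
      have h1 : cf (c j • h) p = cf (y j) p := by
        rw [hy]
        simp only
        rw [cf_sub, (hz j).cf_eq, sub_zero]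
        intro hu
        have h2 := hu.2.2 e
        omega
      rw [h1, hyζ j]
      fin_cases j
      · show cf (E F (F.face w N) (c3 1) * ζ 2 - E F (F.face w N) (c3 2) * ζ 1) p =
          cf (E F (P.edge e) (c3 1) * ζe 2 - E F (P.edge e) (c3 2) * ζe 1) p
        rw [cf_sub, cf_sub, hA p g1 g2 g3, hA p g1 g2 g3]
      · show cf (E F (F.face w N) (c3 2) * ζ 0 - E F (F.face w N) (c3 0) * ζ 2) p =
          cf (E F (P.edge e) (c3 2) * ζe 0 - E F (P.edge e) (c3 0) * ζe 2) p
        rw [cf_sub, cf_sub, hA p g1 g2 g3, hA p g1 g2 g3]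
      · show cf (E F (F.face w N) (c3 0) * ζ 1 - E F (F.face w N) (c3 1) * ζ 0) p =
          cf (E F (P.edge e) (c3 0) * ζe 1 - E F (P.edge e) (c3 1) * ζe 0) p
        rw [cf_sub, cf_sub, hA p g1 g2 g3, hA p g1 g2 g3]
    · have h1 : cf (c j • h) p = 0 := by
        rw [cf_smul, hh.cf_eq, mul_zero]
        intro hu
        exact hp ⟨hu.2.1, hu.1, hu.2.2.1⟩
      rw [h1]
      symm
      fin_cases j
      · show cf (E F (P.edge e) (c3 1) * ζe 2 - E F (P.edge e) (c3 2) * ζe 1) p = 0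
        rw [cf_sub, hB p hp, hB p hp, sub_zero]
      · show cf (E F (P.edge e) (c3 2) * ζe 0 - E F (P.edge e) (c3 0) * ζe 2) p = 0
        rw [cf_sub, hB p hp, hB p hp, sub_zero]
      · show cf (E F (P.edge e) (c3 0) * ζe 1 - E F (P.edge e) (c3 1) * ζe 0) p = 0
        rw [cf_sub, hB p hp, hB p hp, sub_zero]
  -- `c` is not zero
  have hcne : ∃ j, c j ≠ 0 := by
    by_contra h0
    push Not at h0
    have h1 := hca (P.v (P.pv e)) (P.v_face _)
    rw [Finset.sum_eq_zero fun j _ => by rw [h0 j, zero_mul]] at h1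
    have h2 := P.el_nx_pos (P.pv e)
    rw [P.nx_pv] at h2
    have h3 : P.el e (F.hat (P.v (P.pv e))) = 0 := by exact_mod_cast h1.symm
    omega
  have hζs : ∀ j, SuppIn (P.omE e 1) (ζe j) := fun j => suppIn_cut _ _
  obtain ⟨j0, hj0⟩ := hcne
  have hfin : ∀ z' : Fin 3 → LL, (∀ j, SuppIn (P.omE e 1) (z' j)) →
      crossE F (P.edge e) ζe j0 = dotE F (P.edge e) z' → False := by
    intro z' hz' hcd
    apply hno
    refine ⟨fun j => (c j0)⁻¹ • z' j, fun j => (hz' j).smul _, ?_⟩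
    rw [pti_dot_smul, ← hcd, ← hcr j0, smul_smul, inv_mul_cancel₀ hj0, one_smul]
  fin_cases j0
  · refine hfin ![0, ζe 2, - ζe 1] ?_ ?_
    · intro j
      fin_cases j
      · exact suppIn_zero _
      · exact hζs 2
      · exact (hζs 1).neg
    · show E F (P.edge e) (c3 1) * ζe 2 - E F (P.edge e) (c3 2) * ζe 1 = _
      unfold dotE
      rw [Fin.sum_univ_three]
      show E F (P.edge e) (c3 1) * ζe 2 - E F (P.edge e) (c3 2) * ζe 1 =
        E F (P.edge e) (c3 0) * 0 + E F (P.edge e) (c3 1) * ζe 2 +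
          E F (P.edge e) (c3 2) * (- ζe 1)
      ring
  · refine hfin ![- ζe 2, 0, ζe 0] ?_ ?_
    · intro j
      fin_cases j
      · exact (hζs 2).neg
      · exact suppIn_zero _
      · exact hζs 0
    · show E F (P.edge e) (c3 2) * ζe 0 - E F (P.edge e) (c3 0) * ζe 2 = _
      unfold dotE
      rw [Fin.sum_univ_three]
      show E F (P.edge e) (c3 2) * ζe 0 - E F (P.edge e) (c3 0) * ζe 2 =
        E F (P.edge e) (c3 0) * (- ζe 2) + E F (P.edge e) (c3 1) * 0 +
          E F (P.edge e) (c3 2) * ζe 0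
      ring
  · refine hfin ![ζe 1, - ζe 0, 0] ?_ ?_
    · intro j
      fin_cases j
      · exact hζs 1
      · exact (hζs 0).neg
      · exact suppIn_zero _
    · show E F (P.edge e) (c3 0) * ζe 1 - E F (P.edge e) (c3 1) * ζe 0 = _
      unfold dotE
      rw [Fin.sum_univ_three]
      show E F (P.edge e) (c3 0) * ζe 1 - E F (P.edge e) (c3 1) * ζe 0 =
        E F (P.edge e) (c3 0) * ζe 1 + E F (P.edge e) (c3 1) * (- ζe 0) +
          E F (P.edge e) (c3 2) * 0
      ring

end Pool.Agent.H37.SM
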