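import Pool.Agent.H37.SM.PTO

/-! Module PTJ: every monomial of degree three is a combination of good ones modulo the ideal. -/

set_option autoImplicit false

namespace Pool.Agent.H37.SM

open Finset

variable {r : ℕ} {F : Dat r} {w : Fin 3 → ℤ} {N : ℤ}

namespace PTJaux

lemma sum3 {i j k : Fin 3} (hij : i ≠ j) (hki : k ≠ i) (hkj : k ≠ j) (f : Fin 3 → ℤ) :
    f 0 + f 1 + f 2 = f i + f j + f k := by
  fin_cases i <;> fin_cases j <;> fin_cases k <;> simp_all <;> ring

lemma cases3 {i j k : Fin 3} (hij : i ≠ j) (hki : k ≠ i) (hkj : k ≠ j) (t : Fin 3) :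
    t = i ∨ t = j ∨ t = k := by
  revert i j k t
  decide

lemma ell_perm {i j k : Fin 3} (hij : i ≠ j) (hki : k ≠ i) (hkj : k ≠ j) (p : Pt) :
    ell w N p = w i * p i.castSucc + w j * p j.castSucc + w k * p k.castSucc - N * p 3 := by
  rw [← sum3 hij hki hkj (fun t => w t * p t.castSucc)]
  rfl

/-- only one exponent of the face lies on the `k`-th axis -/
lemma axis_unique (hw : Pos3 w) {i j k : Fin 3} (hij : i ≠ j) (hki : k ≠ i) (hkj : k ≠ j)
    {l l' : Fin r} (hl : l ∈ F.face w N) (hl' : l' ∈ F.face w N) (h1 : F.a l i = 0)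
    (h2 : F.a l j = 0) (h1' : F.a l' i = 0) (h2' : F.a l' j = 0) : l = l' := by
  apply F.inj
  have e1 := mem_face.mp hl
  have e2 := mem_face.mp hl'
  rw [ell_perm hij hki hkj] at e1 e2
  simp only [F.hat_castSucc, F.hat_three, h1, h2, h1', h2', mul_zero, zero_add, mul_one] at e1 e2
  have hk : F.a l k = F.a l' k := by
    have h3 : w k * F.a l k = w k * F.a l' k := by linarith
    exact mul_left_cancel₀ (hw k).ne' h3
  funext t
  rcases cases3 hij hki hkj t with rfl | rfl | rfl
  · rw [h1, h1']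
  · rw [h2, h2']
  · exact hk

/-- adding an exponent of the face -/
lemma om_add (P : Poly F w N) {d : ℤ} {ν : Pt} (hν : ν ∈ P.om d) {a : Fin r}
    (ha : a ∈ F.face w N) : ν + F.hat a ∈ P.om (d + 1) := by
  obtain ⟨h0, h3, hpos⟩ := hν
  refine ⟨?_, ?_, fun e => ?_⟩
  · rw [ell_add, h0, mem_face.mp ha, add_zero]
  · rw [Pi.add_apply, h3, F.hat_three]
  · rw [P.el_add]
    have h1 := hpos e
    have h2 := P.el_hat_nonneg e a
    omega

lemma cf_mono_add (ν q p : Pt) : cf (mono (ν + q)) p = cf (mono ν) (p - q) := by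
  rw [cf_mono, cf_mono]
  by_cases h : p = ν + q
  · rw [if_pos h, if_pos (by rw [h]; abel)]
  · rw [if_neg h, if_neg (fun h' => h (by rw [← h']; abel))]

/-- the Euler element applied to a monomial -/
lemma euler_mono (P : Poly F w N) (hN : 0 < N) {ν : Pt} (hν : ν ∈ P.om 2) :
    ∑ a ∈ F.face w N, F.κ a • mono (ν + F.hat a) ∈ P.img 2 := by
  have hNC : (N : ℂ) ≠ 0 := by exact_mod_cast hN.ne'
  refine ⟨fun j => ((w j : ℂ) / N) • mono ν, fun j => (suppIn_mono hν).smul _, ?_⟩
  apply ext_cf; intro p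
  unfold dotE
  rw [cf_sum, cf_sum]
  have h1 : ∀ j : Fin 3, cf (E F (F.face w N) (c3 j) * (((w j : ℂ) / N) • mono ν)) p =
      ∑ a ∈ F.face w N, F.κ a * (F.a a j : ℂ) * ((w j : ℂ) / N * cf (mono ν) (p - F.hat a)) := by
    intro j
    rw [cf_E_mul]
    refine Finset.sum_congr rfl fun a _ => ?_
    rw [lin_c3_hat, cf_smul]
  rw [Finset.sum_congr rfl fun j _ => h1 j, Finset.sum_comm]
  refine Finset.sum_congr rfl fun a ha => ?_
  rw [cf_smul, cf_mono_add]
  have h2 := mem_face.mp ha
  unfold ell at h2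
  simp only [F.hat_zero, F.hat_one, F.hat_two, F.hat_three, mul_one] at h2
  have h3 : (w 0 : ℂ) * F.a a 0 + w 1 * F.a a 1 + w 2 * F.a a 2 = N := by
    have : w 0 * F.a a 0 + w 1 * F.a a 1 + w 2 * F.a a 2 = N := by linarith
    exact_mod_cast this
  rw [Fin.sum_univ_three]
  field_simp
  rw [← h3]
  ring

end PTJaux

open PTJaux

/-- All monomials of degree three.

Proof. If `μ` has no bad index it is good; one bad index: `one_bad`. Three coordinates equal to one:
`ℓ_w μ = |w| - 3N = 0`, excluded by `h3`. Two bad indices `i ≠ j`, `k` the third: `μ_k ≥ 2` or `k` not bad.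
There is an exponent `v` with `v_i = v_j = 0` (`exists_common`) and `ν = μ - v̂ ∈ om 2`: vertex type for
`i` (or `j`): `vertex_sub`; if both are of edge type use `edge_sub` for `i`: `μ - v̂_1 ∈ om 2` for an end
`v_1` of the edge `{a_i = 0}`, whose `j`-th coordinate is `1 - (v_1)_j ≥ 1` (`om_pos`), so `(v_1)_j = 0` and
`v_1 = v` (both are multiples of the `k`-th unit vector on the face). `ν_i = ν_j = 1`, `ν_k ≥ 2` (else
`2N = |w|`, excluded by `h2`; `ν_k ≥ 1` by `om_pos`). With `c = w/N`: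
`∑_j c_j E_j mono ν = ∑_a κ_a mono (ν + â) ∈ P.img 2`. The terms: `a = v` gives `κ_v mono μ`; `a_i = 0`,
`a ≠ v`: then `a_j ≥ 1` and `ν + â` has exactly the bad index `i` (or none): in `W` by `one_bad`;
same for `a_j = 0`; both `≥ 1`: good. -/
theorem partII (P : Poly F w N) (hw : Pos3 w) (hN : 0 < N) (hB : ¬ IsB1 F w N)
    (hnde : ∀ e, NonDeg F (P.edge e)) (h2 : wt w ≠ 2 * N) (h3 : wt w ≠ 3 * N)
    (W : Submodule ℂ LL) (hW : P.img 2 ≤ W)
    (hgood : ∀ μ ∈ P.om 3, Good F w N μ → mono μ ∈ W) : ∀ μ ∈ P.om 3, mono μ ∈ W := by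
  intro μ hμ
  have hpos : ∀ j : Fin 3, 1 ≤ μ j.castSucc := P.om_pos hw hN 3 μ hμ
  by_cases hgd : Good F w N μ
  · exact hgood μ hμ hgd
  obtain ⟨j, hj, hjlt⟩ : ∃ j : Fin 3, (∃ i ∈ F.face w N, F.a i j = 0) ∧ ¬ 2 ≤ μ j.castSucc := by
    unfold Good at hgd
    push Not at hgd
    obtain ⟨j, h, h'⟩ := hgd
    exact ⟨j, h, by omega⟩
  have hj1 : μ j.castSucc = 1 := by have := hpos j; omega
  by_cases honly : ∀ i, i ≠ j → (∃ l ∈ F.face w N, F.a l i = 0) → 2 ≤ μ i.castSucc
  · exact one_bad P hw hN hB hnde W hW hgood μ hμ j hj hj1 honly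
  push Not at honly
  obtain ⟨i, hij, hi, hilt⟩ := honly
  have hi1 : μ i.castSucc = 1 := by have := hpos i; omega
  have hthird : ∀ i j : Fin 3, ∃ k : Fin 3, k ≠ i ∧ k ≠ j := by decide
  obtain ⟨k, hki, hkj⟩ := hthird i j
  have hμ0 := hμ.1
  have hμ3 := hμ.2.1
  rw [ell_perm hij hki hkj, hμ3, hi1, hj1] at hμ0
  have hwt : wt w = w i + w j + w k := sum3 hij hki hkj w
  have hk2 : 2 ≤ μ k.castSucc := by
    by_contra hlt
    have hk1 : μ k.castSucc = 1 := by have := hpos k; omega
    rw [hk1] at hμ0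
    apply h3
    rw [hwt]; linarith
  obtain ⟨v, hv, hvi, hvj⟩ := exists_common P hw hN 3 (by norm_num) μ hμ i j hij hi1 hj1
  -- ν ∈ om 2
  have hν : μ - F.hat v ∈ P.om 2 := by
    rcases zero_types P hw hN i hi with ⟨e, he⟩ | ⟨e, he⟩
    · have := (he v hv).mp hvi
      rw [this]
      exact vertex_sub P hw hN i e he μ hμ hi1
    · have hend : ∀ v1, v1 ∈ F.face w N → F.a v1 i = 0 → μ - F.hat v1 ∈ P.om 2 → v1 = v := by
        intro v1 hv1 hv1i hm
        have h4 := P.om_pos hw hN 2 _ hm j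
        rw [Pi.sub_apply, hj1, F.hat_castSucc] at h4
        have h5 := F.a_nonneg v1 j
        have h6 : F.a v1 j = 0 := by omega
        exact axis_unique hw hij hki hkj hv1 hv hv1i h6 hvi hvj
      rcases edge_sub P hw hN hB i e he μ hμ hi1 with h | h
      · have h4 : P.v e ∈ P.edge e := Finset.mem_inter.mpr ⟨P.v_face e, P.left e⟩
        rw [← hend _ (P.v_face e) ((he _ (P.v_face e)).mpr h4) h]; exact h
      · have h4 : P.v (P.nx e) ∈ P.edge e := Finset.mem_inter.mpr ⟨P.v_face _, P.right e⟩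
        rw [← hend _ (P.v_face _) ((he _ (P.v_face _)).mpr h4) h]; exact h
  set ν := μ - F.hat v with hνdef
  have hνμ : ν + F.hat v = μ := by rw [hνdef]; abel
  have hνi : ν i.castSucc = 1 := by
    rw [hνdef, Pi.sub_apply, F.hat_castSucc, hvi, hi1]; norm_num
  have hνj : ν j.castSucc = 1 := by
    rw [hνdef, Pi.sub_apply, F.hat_castSucc, hvj, hj1]; norm_num
  have hνk : 2 ≤ ν k.castSucc := by
    by_contra hlt
    have hk1 : ν k.castSucc = 1 := by have := P.om_pos hw hN 2 ν hν k; omega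
    have h0 := hν.1
    rw [ell_perm hij hki hkj, hν.2.1, hνi, hνj, hk1] at h0
    apply h2
    rw [hwt]; linarith
  have hsum := hW (euler_mono P hN hν)
  rw [← Finset.add_sum_erase _ _ hv, hνμ] at hsum
  have hrest : ∑ a ∈ (F.face w N).erase v, F.κ a • mono (ν + F.hat a) ∈ W := by
    refine Submodule.sum_mem _ fun a ha => W.smul_mem _ ?_
    obtain ⟨hav, haf⟩ := Finset.mem_erase.mp ha
    have hom : ν + F.hat a ∈ P.om 3 := by
      have := om_add P hν haf
      exact this
    have hci : (ν + F.hat a) i.castSucc = 1 + F.a a i := by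
      rw [Pi.add_apply, F.hat_castSucc, hνi]
    have hcj : (ν + F.hat a) j.castSucc = 1 + F.a a j := by
      rw [Pi.add_apply, F.hat_castSucc, hνj]
    have hck : 2 ≤ (ν + F.hat a) k.castSucc := by
      rw [Pi.add_apply, F.hat_castSucc]
      have := F.a_nonneg a k
      omega
    have hni := F.a_nonneg a i
    have hnj := F.a_nonneg a j
    by_cases hai : F.a a i = 0
    · have haj : F.a a j ≠ 0 := fun h => hav (axis_unique hw hij hki hkj haf hv hai h hvi hvj)
      refine one_bad P hw hN hB hnde W hW hgood _ hom i hi (by rw [hci, hai]; norm_num) ?_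
      intro t ht _
      rcases cases3 hij hki hkj t with rfl | rfl | rfl
      · exact absurd rfl ht
      · rw [hcj]; omega
      · exact hck
    · by_cases haj : F.a a j = 0
      · refine one_bad P hw hN hB hnde W hW hgood _ hom j hj (by rw [hcj, haj]; norm_num) ?_
        intro t ht _
        rcases cases3 hij hki hkj t with rfl | rfl | rfl
        · rw [hci]; omega
        · exact absurd rfl ht
        · exact hck
      · refine hgood _ hom ?_
        intro t _
        rcases cases3 hij hki hkj t with rfl | rfl | rfl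
        · rw [hci]; omega
        · rw [hcj]; omega
        · exact hck
  have hfin : F.κ v • mono μ ∈ W := by
    have := W.sub_mem hsum hrest
    rwa [add_sub_cancel_right] at this
  have := W.smul_mem (F.κ v)⁻¹ hfin
  rwa [smul_smul, inv_mul_cancel₀ (F.κ_ne v), one_smul] at this

end Pool.Agent.H37.SM
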