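import Pool.Agent.H37.SM.GOD
import Pool.Agent.H37.SM.PTI
import Pool.Agent.H37.SM.PTJ

/-! Module RCO: compact facets which are not `B₁`. -/

set_option autoImplicit false

namespace Pool.Agent.H37.SM

open Finset

variable {r : ℕ} {F : Dat r} {w : Fin 3 → ℤ} {N : ℤ}

theorem rco_key (wj wk wl N aj ak al : ℤ) (hj : 0 < wj) (hk : 0 < wk) (hl : 0 < wl)
    (hkj : wk ≤ wj) (hlj : wl ≤ wj) (haj : 0 ≤ aj) (hak : 0 ≤ ak) (hal : 0 ≤ al)
    (h : wj * aj + wk * ak + wl * al = N) (h2 : 2 * N ≤ wj + wk + wl) (hne : aj ≠ 0) :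
    aj = 1 ∧ ak = 0 ∧ al = 0 := by
  have h1 : 1 ≤ aj := by omega
  have hp1 : 0 ≤ wk * ak := mul_nonneg hk.le hak
  have hp2 : 0 ≤ wl * al := mul_nonneg hl.le hal
  have e1 : aj = 1 := by
    by_contra hcon
    have h3 : 2 ≤ aj := by omega
    have h4 : wj * 2 ≤ wj * aj := mul_le_mul_of_nonneg_left h3 hj.le
    omega
  subst e1
  rw [mul_one] at h
  refine ⟨rfl, ?_, ?_⟩
  · by_contra hcon
    have h3 : 1 ≤ ak := by omega
    have h4 : wk * 1 ≤ wk * ak := mul_le_mul_of_nonneg_left h3 hk.le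
    omega
  · by_contra hcon
    have h3 : 1 ≤ al := by omega
    have h4 : wl * 1 ≤ wl * al := mul_le_mul_of_nonneg_left h3 hl.le
    omega

theorem rco_face (i : Fin r) (hi : i ∈ F.face w N) :
    w 0 * F.a i 0 + w 1 * F.a i 1 + w 2 * F.a i 2 = N := by
  have h1 := mem_face.mp hi
  unfold ell at h1
  simp only [Dat.hat_zero, Dat.hat_one, Dat.hat_two, Dat.hat_three] at h1
  omega

theorem rco_max (hw : Pos3 w) (h : 2 * N ≤ wt w) (j : Fin 3) (hj : ∀ l, w l ≤ w j) (i : Fin r)
    (hi : i ∈ F.face w N) (hne : F.a i j ≠ 0) : ∀ l, F.a i l = if l = j then 1 else 0 := by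
  have h1 := rco_face i hi
  have hn := F.a_nonneg i
  unfold wt at h
  fin_cases j
  · obtain ⟨h3, h4, h5⟩ := rco_key (w 0) (w 1) (w 2) N (F.a i 0) (F.a i 1) (F.a i 2) (hw 0) (hw 1)
      (hw 2) (hj 1) (hj 2) (hn 0) (hn 1) (hn 2) h1 h hne
    intro l
    fin_cases l <;> simp [h3, h4, h5]
  · obtain ⟨h3, h4, h5⟩ := rco_key (w 1) (w 0) (w 2) N (F.a i 1) (F.a i 0) (F.a i 2) (hw 1) (hw 0)
      (hw 2) (hj 0) (hj 2) (hn 1) (hn 0) (hn 2) (by omega) (by omega) hne
    intro l
    fin_cases l <;> simp [h3, h4, h5]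
  · obtain ⟨h3, h4, h5⟩ := rco_key (w 2) (w 0) (w 1) N (F.a i 2) (F.a i 0) (F.a i 1) (hw 2) (hw 0)
      (hw 1) (hj 0) (hj 1) (hn 2) (hn 0) (hn 1) (by omega) (by omega) hne
    intro l
    fin_cases l <;> simp [h3, h4, h5]

/-- For a compact facet `|w| ≥ 2N` implies `B₁`.
Proof. Let `w_j` be the largest coordinate, `3 w_j ≥ |w| ≥ 2N`, so `a_j ≤ 1` on the face
(`2 w_j > N`... as `w·a = N ≤ 3 w_j / 2`). If `a_j = 1` then the other two coordinates contribute
`N - w_j ≤ (|w| - 2 w_j)/2 <` the smaller of the other two weights, so they vanish: `a = e_j`. Not all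
exponents have `a_j = 0` (`ray`: the exponents of the face would lie on a line: take
`k` orthogonal, e.g. in the two other coordinates `(w_l, -w_k)`-direction: all `a` with `a_j = 0`,
`w·a = N` differ by multiples of `(w_l, -w_k)`, `k := (1 in coordinate j, 0, 0)` is constant on the face but
no multiple of `w`). -/
theorem b1_of_ge (hF : Facet F w N) (hw : Pos3 w) (h : 2 * N ≤ wt w) : IsB1 F w N := by
  obtain ⟨j, -, hj⟩ := Finset.exists_max_image univ w univ_nonempty
  have hj' : ∀ l, w l ≤ w j := fun l => hj l (mem_univ l)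
  have hex : ∃ i ∈ F.face w N, F.a i j ≠ 0 := by
    by_contra hcon
    push Not at hcon
    obtain ⟨c, hc⟩ := hF.ray (Pi.single j 1) (by
      intro i hi i' hi'
      have h1 : ∀ i'' : Fin r, ∑ l, (Pi.single j (1 : ℝ) : Fin 3 → ℝ) l * (F.a i'' l : ℝ) =
          (F.a i'' j : ℝ) := by
        intro i''
        rw [Finset.sum_eq_single j]
        · simp
        · intro l _ hl
          simp [Pi.single_apply, hl]
        · intro hh; exact absurd (mem_univ j) hh
      rw [h1, h1, hcon i hi, hcon i' hi']) (fun l hl => absurd hl (hw l).ne')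
    obtain ⟨l, hl⟩ : ∃ l : Fin 3, l ≠ j := exists_ne j
    have h1 := hc l
    rw [Pi.single_apply, if_neg hl] at h1
    have h2 : (w l : ℝ) ≠ 0 := by exact_mod_cast (hw l).ne'
    have h3 : c = 0 := by
      rcases mul_eq_zero.mp h1.symm with h4 | h4
      · exact h4
      · exact absurd h4 h2
    have h4 := hc j
    rw [h3, zero_mul, Pi.single_eq_same] at h4
    exact one_ne_zero h4
  obtain ⟨i, hi, hij⟩ := hex
  have hi1 := rco_max hw h j hj' i hi hij
  refine ⟨j, i, hi, by rw [hi1 j, if_pos rfl], ?_⟩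
  intro i' hi' hne
  by_contra hij'
  have hi2 := rco_max hw h j hj' i' hi' hij'
  exact hne (F.inj (funext fun l => by rw [hi1 l, hi2 l]))

/-- Root theorem for compact facets: `s0 = -|w|/N` is not an integer, not `B₁`: the identities of
section 1 are impossible. Proof: `wt w ≠ 2N, 3N` since `s0 ≠ -2, -3`; `good_mem`,
`partII` with `W = P.img 2`, `partI`. Nondegeneracy of the edges: `nonDeg_inter`, `nss`. -/
theorem root_compact (hF : Facet F w N) (hw : Pos3 w) (hnd : AllNonDeg F) (s0 : ℂ)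
    (hs : (wt w : ℂ) + N * s0 = 0) (hs0 : ∀ n : ℤ, s0 ≠ n)
    (hpoly : ∀ (w' : Fin 3 → ℤ) (N' : ℤ), Facet F w' N' → Pos3 w' → Nonempty (Poly F w' N'))
    (hB : ¬ IsB1 F w N) : ¬ HasId F s0 := by
  intro hid
  have hN : 0 < N := N_pos hF hw
  have hNC : (N : ℂ) ≠ 0 := by exact_mod_cast hN.ne'
  obtain ⟨P⟩ := hpoly w N hF hw
  have hface : ∀ i ∈ F.face w N, ∑ j, w j * F.a i j = N := by
    intro i hi
    rw [Fin.sum_univ_three]
    exact rco_face i hi
  have hnde : ∀ e, NonDeg F (P.edge e) := fun e =>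
    nonDeg_inter hF (P.facet e) ⟨P.v e, Finset.mem_inter.mpr ⟨P.v_face e, P.left e⟩⟩ hnd
  have hU : UnitOn F (F.face w N) := nss (w := w) (N := N) _ hN.ne' hface (nonDeg_face hF hnd)
  have hUe : ∀ e, UnitOn F (P.edge e) := fun e =>
    nss (w := w) (N := N) _ hN.ne' (fun i hi => hface i (Finset.mem_inter.mp hi).1) (hnde e)
  have h2 : wt w ≠ 2 * N := by
    intro h
    rw [h] at hs
    push_cast at hs
    have h3 : (N : ℂ) * (s0 + 2) = 0 := by linear_combination hs
    rcases mul_eq_zero.mp h3 with h4 | h4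
    · exact hNC h4
    · exact hs0 (-2) (by push_cast; linear_combination h4)
  have h3 : wt w ≠ 3 * N := by
    intro h
    rw [h] at hs
    push_cast at hs
    have h3 : (N : ℂ) * (s0 + 3) = 0 := by linear_combination hs
    rcases mul_eq_zero.mp h3 with h4 | h4
    · exact hNC h4
    · exact hs0 (-3) (by push_cast; linear_combination h4)
  exact partI P hw hN hU hUe (partII P hw hN hB hnde h2 h3 (P.img 2) le_rfl
    (fun μ hμ hg => good_mem hF hw hN P hnd s0 hs hs0 hid hpoly μ hμ hg))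

end Pool.Agent.H37.SM
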