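import Pool.Agent.H37.SM.CLI
import Pool.Agent.H37.SM.BRG
import Pool.Agent.H37.SM.RCO
import Pool.Agent.H37.SM.NCB
import Pool.Agent.H37.SM.CRD
import Pool.Agent.H37.SM.GEO

/-! Module CLR: critical facets at a value which is not an integer and not a root. -/

set_option autoImplicit false

namespace Pool.Agent.H37.SM

open Finset Pool.Agent.H22

variable {r : ℕ}

lemma clr_third : ∀ i0 j : Fin 3, ∃ k : Fin 3, i0 ≠ k ∧ j ≠ k := by decide

/-- Every critical ray at a non-integral `s0` with `HasId` has an apex.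

Proof. `facet_of_rayN`, `crit_iff`, `wmin_pos_of_crit`. All coordinates positive: `root_compact` (with `exists_poly`) gives `IsB1`. Exactly one zero
coordinate `i0`: `root_noncompact` gives `ColB1`, `j ≠ i0`; by `root_noncompact_b1` there are no two distinct exponents with `a_j = 1`; there is
one, otherwise `a_j = 0` on the face and `RayN.ray` with `k = e_j` gives `w = e_j`. Two zero coordinates: `w = e_j` (`prim`), `N ≥ 2` as
`s0 = -1/N` is not an integer: `root_coord`. -/
theorem apex_of_hasId (a : Fin r → (Fin 3 →₀ ℕ)) (κ : Fin r → ℂ) (ha : Function.Injective a)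
    (hκ : ∀ i, κ i ≠ 0) (hr : 0 < r) (hnd : AllNonDeg (mkDat a κ ha hκ)) (s0 : ℂ)
    (hs0 : ∀ n : ℤ, s0 ≠ n) (hid : HasId (mkDat a κ ha hκ) s0) (w : Fin 3 → ℕ) (hw : RayN a w)
    (hc : Crit a s0 w) :
    ∃ i, 0 < w i ∧ (∃ u ∈ faceN a w, a u i = 1 ∧ ∀ u' ∈ faceN a w, u' ≠ u → a u' i = 0) := by
  have hF : Facet (mkDat a κ ha hκ) (fun j => (w j : ℤ)) (wmin a w) :=
    facet_of_rayN a κ ha hκ hr w hw
  have hs := (crit_iff a w s0).1 hc
  have hN : 0 < wmin a w := wmin_pos_of_crit a w hw s0 hc
  have hNZ : (0 : ℤ) < (wmin a w : ℤ) := by exact_mod_cast hN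
  have hface : (mkDat a κ ha hκ).face (fun j => (w j : ℤ)) (wmin a w) = faceN a w :=
    face_mkDat a κ ha hκ hr w
  have haZ : ∀ i j, (mkDat a κ ha hκ).a i j = (a i j : ℤ) := fun _ _ => rfl
  by_cases hall : ∀ j, 0 < w j
  · -- compact facet
    by_cases hB : IsB1 (mkDat a κ ha hκ) (fun j => (w j : ℤ)) (wmin a w)
    · obtain ⟨j, i, hi, h1, h2⟩ := hB
      rw [hface] at hi h2
      refine ⟨j, hall j, i, hi, ?_, ?_⟩
      · have := haZ i j
        rw [h1] at this
        exact_mod_cast this.symm
      · intro u' hu' hne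
        have h3 := h2 u' hu' hne
        rw [haZ] at h3
        exact_mod_cast h3
    · exfalso
      exact root_compact hF (fun j => Int.natCast_pos.2 (hall j)) hnd s0 hs hs0
        (fun w' N' h1 h2 => exists_poly h1 h2) hB hid
  · push Not at hall
    obtain ⟨i0, hi0⟩ := hall
    have hi0' : w i0 = 0 := by omega
    by_cases hpos : ∀ j, j ≠ i0 → 0 < w j
    · -- one zero coordinate
      by_cases hB : ColB1 (mkDat a κ ha hκ) (fun j => (w j : ℤ)) (wmin a w) i0
      · obtain ⟨j, hj, h1⟩ := hB
        have h1' : ∀ u ∈ faceN a w, a u j ≤ 1 := by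
          intro u hu
          have h2 := h1 u (by rw [hface]; exact hu)
          rw [haZ] at h2
          exact_mod_cast h2
        have hex : ∃ u ∈ faceN a w, a u j = 1 := by
          by_contra hno
          push Not at hno
          have hz : ∀ u ∈ faceN a w, a u j = 0 := fun u hu => by
            have := h1' u hu
            have := hno u hu
            omega
          obtain ⟨c, hcc⟩ := hw.ray (Pi.single j 1) (by
            intro i hi i' hi'
            have e : ∀ i'' : Fin r, ∑ l, (Pi.single j (1 : ℝ) : Fin 3 → ℝ) l * (a i'' l : ℝ) =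
                (a i'' j : ℝ) := by
              intro i''
              rw [Finset.sum_eq_single j]
              · simp
              · intro l _ hl
                simp [hl]
              · simp
            rw [e, e, hz i hi, hz i' hi']) (by
            intro l hl
            have : l ≠ j := by
              rintro rfl
              have := hpos l hj
              omega
            simp [this])
          obtain ⟨k, hk1, hk2⟩ : ∃ k : Fin 3, i0 ≠ k ∧ j ≠ k := clr_third _ _
          have e1 := hcc k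
          have e2 := hcc j
          rw [Pi.single_apply, if_neg hk2.symm] at e1
          rw [Pi.single_apply, if_pos rfl] at e2
          have hk3 : (0 : ℝ) < (w k : ℝ) := by exact_mod_cast hpos k hk1.symm
          have hc0 : c = 0 := by
            rcases mul_eq_zero.1 e1.symm with h | h
            · exact h
            · exact absurd h hk3.ne'
          rw [hc0, zero_mul] at e2
          exact one_ne_zero e2
        obtain ⟨u, hu, hu1⟩ := hex
        refine ⟨j, hpos j hj, u, hu, hu1, ?_⟩
        intro u' hu' hne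
        by_contra hcon
        have hu1' : a u' j = 1 := by
          have := h1' u' hu'
          omega
        exact root_noncompact_b1 hF hNZ i0 (by exact_mod_cast hi0')
          (fun l hl => by exact_mod_cast hpos l hl) hnd s0 hs hs0 j hj h1 u' u
          (by rw [hface]; exact hu') (by rw [hface]; exact hu) hne
          (by rw [haZ, hu1']; rfl) (by rw [haZ, hu1]; rfl) hid
      · exfalso
        exact root_noncompact hF hNZ i0 (by exact_mod_cast hi0')
          (fun l hl => by exact_mod_cast hpos l hl) hnd s0 hs hB hid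
    · -- two zero coordinates
      exfalso
      push Not at hpos
      obtain ⟨i1, hi1, hi1'⟩ := hpos
      have hi1'' : w i1 = 0 := by omega
      obtain ⟨k, hk1, hk2⟩ : ∃ k : Fin 3, i0 ≠ k ∧ i1 ≠ k := clr_third _ _
      have hcov : ∀ i0 i1 k l : Fin 3, i1 ≠ i0 → i0 ≠ k → i1 ≠ k → l = i0 ∨ l = i1 ∨ l = k := by
        decide
      have hk : w k = 1 := by
        refine hw.prim (w k) fun l => ?_
        rcases hcov i0 i1 k l hi1 hk1 hk2 with h | h | h
        · rw [h, hi0']; exact dvd_zero _
        · rw [h, hi1'']; exact dvd_zero _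
        · rw [h]
      have hwl : ∀ l, ((w l : ℕ) : ℤ) = if l = k then 1 else 0 := by
        intro l
        rcases hcov i0 i1 k l hi1 hk1 hk2 with h | h | h
        · rw [h, hi0', if_neg hk1]; rfl
        · rw [h, hi1'', if_neg hk2]; rfl
        · rw [h, hk, if_pos rfl]; rfl
      have hwt : wt (fun j => (w j : ℤ)) = 1 := by
        unfold wt
        simp only [hwl]
        clear * -
        fin_cases k <;> simp
      have hN2 : (2 : ℤ) ≤ (wmin a w : ℤ) := by
        by_contra hlt
        have h1 : (wmin a w : ℤ) = 1 := by omega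
        rw [hwt, h1] at hs
        apply hs0 (-1)
        push_cast at hs ⊢
        linear_combination hs
      exact root_coord hF k hwl hN2 s0 hs hid

/-- auxiliary for `thin_root` -/
theorem thin_root_aux (a : Fin r → (Fin 3 →₀ ℕ)) (κ : Fin r → ℂ) (ha : Function.Injective a)
    (hκ : ∀ i, κ i ≠ 0) (hr : 0 < r) (s0 : ℂ)
    (hs0 : ∀ n : ℤ, s0 ≠ n) (hid : HasId (mkDat a κ ha hκ) s0) (w w' : Fin 3 → ℕ) (hw : RayN a w)
    (hw' : RayN a w') (hc : Crit a s0 w) (hc' : Crit a s0 w') (hne : w ≠ w') (i j : Fin 3)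
    (hij : i ≠ j) (hi2 : ∀ x ∈ faceN a w, a x i ≤ 1)
    (hj2 : ∀ x ∈ faceN a w', a x j ≤ 1) (p q : Fin r) (hp : p ∈ faceN a w ∩ faceN a w')
    (hq : q ∈ faceN a w ∩ faceN a w') (hpq : p ≠ q) (hpi : a p i = 1) : False := by
  have hneq : ∀ x ∈ faceN a w ∩ faceN a w', ∀ y ∈ faceN a w ∩ faceN a w', x ≠ y →
      a x i ≠ a y i ∧ a x j ≠ a y j := by
    intro x hx y hy hxy
    obtain ⟨t, ht⟩ := crit_two ha hr s0 w w' hw hw' hne hc hc' x y hxy hx hy
    have key : ∀ l, a x l ≤ 1 → a x l ≠ a y l := by
      intro l hl heq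
      have h1 := ht l
      rw [heq, sub_self, mul_zero] at h1
      rcases Nat.le_one_iff_eq_zero_or_eq_one.1 (heq ▸ hl) with h | h
      · rw [h] at h1
        simp at h1
      · rw [h] at h1
        apply hs0 (-1)
        push_cast at h1 ⊢
        linear_combination h1
    exact ⟨key i (hi2 x (mem_inter.1 hx).1), key j (hj2 x (mem_inter.1 hx).2)⟩
  obtain ⟨h1, h2⟩ := hneq p hp q hq hpq
  have hqi : a q i = 0 := by
    have := hi2 q (mem_inter.1 hq).1
    omega
  by_cases hpj : a p j = 1
  · have hqj : a q j = 0 := by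
      have := hj2 q (mem_inter.1 hq).2
      omega
    have hset : faceN a w ∩ faceN a w' = {p, q} := by
      ext x
      rw [mem_insert, mem_singleton]
      constructor
      · intro hx
        by_contra hcon
        push Not at hcon
        have h3 := (hneq x hx p hp hcon.1).1
        have h4 := (hneq x hx q hq hcon.2).1
        have h5 := hi2 x (mem_inter.1 hx).1
        omega
      · rintro (rfl | rfl)
        · exact hp
        · exact hq
    have haZ : ∀ i j, (mkDat a κ ha hκ).a i j = (a i j : ℤ) := fun _ _ => rfl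
    refine root_special (facet_of_rayN a κ ha hκ hr w hw)
      (facet_of_rayN a κ ha hκ hr w' hw')
      (by exact_mod_cast wmin_pos_of_crit a w hw s0 hc)
      (by exact_mod_cast wmin_pos_of_crit a w' hw' s0 hc') ?_ s0
      ((crit_iff a w s0).1 hc) ((crit_iff a w' s0).1 hc') hs0 i j hij p q ?_
      (by rw [haZ, hpi]; rfl) (by rw [haZ, hpj]; rfl) (by rw [haZ, hqi]; rfl)
      (by rw [haZ, hqj]; rfl) hid
    · intro h
      apply hne
      funext l
      have := congrFun h l
      exact_mod_cast this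
    · rw [face_mkDat a κ ha hκ hr w, face_mkDat a κ ha hκ hr w']
      exact hset
  · have hpj0 : a p j = 0 := by
      have := hj2 p (mem_inter.1 hp).2
      omega
    have hqj : a q j = 1 := by
      have := hj2 q (mem_inter.1 hq).2
      omega
    obtain ⟨t, ht⟩ := crit_two ha hr s0 w w' hw hw' hne hc hc' p q hpq hp hq
    have e1 := ht i
    have e2 := ht j
    rw [hpi, hqi] at e1
    rw [hpj0, hqj] at e2
    apply hs0 (-2)
    push_cast at e1 e2 ⊢
    linear_combination e1 + e2

/-- Proof. `ι w` the index of `apex_of_hasId`. `adj`: suppose `i = ι w ≠ j = ι w'`, `p ≠ q` common exponents. `crit_two`: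
`1 + s0 p_l = t (p_l - q_l)`. As `p_i, q_i ∈ {0,1}` and `s0 ≠ -1`: `p_i ≠ q_i`, the same for `j`. Let `p_i = 1`, `q_i = 0` (exchange). If `p_j = 0`, `q_j = 1`:
`1 = -t`, `1 + s0 = t`: `s0 = -2`. So `p_j = 1`, `q_j = 0`. The intersection of the two faces is `{p, q}` (a third exponent `l` would have `l_i ∈ {0, 1}`, but the same argument for
`(p, l)` and `(q, l)` gives `l_i ≠ p_i`, `l_i ≠ q_i`). `root_special` contradicts `hid`. -/
theorem thin_root (a : Fin r → (Fin 3 →₀ ℕ)) (κ : Fin r → ℂ) (ha : Function.Injective a)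
    (hκ : ∀ i, κ i ≠ 0) (hr : 0 < r) (hnd : AllNonDeg (mkDat a κ ha hκ)) (s0 : ℂ)
    (hs0 : ∀ n : ℤ, s0 ≠ n) (hid : HasId (mkDat a κ ha hκ) s0) : ∃ ι, Thin a s0 ι := by
  have key : ∀ w : Fin 3 → ℕ, ∃ i : Fin 3, RayN a w → Crit a s0 w → 0 < w i ∧
      (∃ u ∈ faceN a w, a u i = 1 ∧ ∀ u' ∈ faceN a w, u' ≠ u → a u' i = 0) := by
    intro w
    by_cases h : RayN a w ∧ Crit a s0 w
    · obtain ⟨i, hi⟩ := apex_of_hasId a κ ha hκ hr hnd s0 hs0 hid w h.1 h.2
      exact ⟨i, fun _ _ => hi⟩
    · exact ⟨0, fun h1 h2 => absurd ⟨h1, h2⟩ h⟩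
  choose ι hι using key
  have hle : ∀ w, RayN a w → Crit a s0 w → ∀ u ∈ faceN a w, a u (ι w) ≤ 1 := by
    intro w hw hc u hu
    obtain ⟨-, v, hv, h1, h2⟩ := hι w hw hc
    by_cases h : u = v
    · rw [h, h1]
    · rw [h2 u hu h]; exact Nat.zero_le _
  have huq : ∀ w, RayN a w → Crit a s0 w → ∀ u ∈ faceN a w, ∀ u' ∈ faceN a w,
      a u (ι w) = 1 → a u' (ι w) = 1 → u = u' := by
    intro w hw hc u hu u' hu' h3 h4
    obtain ⟨-, v, hv, h1, h2⟩ := hι w hw hc
    have e1 : u = v := by
      by_contra h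
      rw [h2 u hu h] at h3
      exact zero_ne_one h3
    have e2 : u' = v := by
      by_contra h
      rw [h2 u' hu' h] at h4
      exact zero_ne_one h4
    rw [e1, e2]
  refine ⟨ι, ⟨fun w hw hc => (hι w hw hc).1, hle, ?_, fun w hw hc => Or.inl (huq w hw hc)⟩⟩
  intro w w' hw hw' hc hc' hne p hp q hq hpq
  by_contra hij
  have h1 : a p (ι w) = 1 ∨ a q (ι w) = 1 := by
    obtain ⟨t, ht⟩ := crit_two ha hr s0 w w' hw hw' hne hc hc' p q hpq hp hq
    by_contra hcon
    push Not at hcon
    have e1 := hle w hw hc p (mem_inter.1 hp).1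
    have e2 := hle w hw hc q (mem_inter.1 hq).1
    have e3 : a p (ι w) = 0 := by omega
    have e4 : a q (ι w) = 0 := by omega
    have e5 := ht (ι w)
    rw [e3, e4] at e5
    simp at e5
  rcases h1 with h1 | h1
  · exact thin_root_aux a κ ha hκ hr s0 hs0 hid w w' hw hw' hc hc' hne (ι w) (ι w') hij
      (hle w hw hc) (hle w' hw' hc') p q hp hq hpq h1
  · exact thin_root_aux a κ ha hκ hr s0 hs0 hid w w' hw hw' hc hc' hne (ι w) (ι w') hij
      (hle w hw hc) (hle w' hw' hc') q p hq hp hpq.symm h1

end Pool.Agent.H37.SM
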