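import Pool.Agent.H37.SM.KOX

/-! Module CMB: combination of primitives on the slice (Mayer-Vietoris). -/

set_option autoImplicit false

namespace Pool.Agent.H37.SM

open Finset

variable {r : ℕ} {F : Dat r} {w : Fin 3 → ℤ} {N : ℤ}

/-- Two critical edges do not interfere: either they have no common exponent on the facet, or
there is no integral point on the slice at which both are critical. -/
def NoDouble (P : Poly F w N) (k : Fin P.m → ℤ) (e e' : Fin P.m) : Prop :=
  (∀ i ∈ P.edge e, i ∉ P.edge e') ∨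
    ∀ p : Pt, ell w N p = wt w → P.el e p = k e → P.el e' p ≠ k e'

/-- difference of curls -/
theorem cmb_curl3_sub (B : Finset (Fin r)) (s : ℂ) (z z' : Fin 3 → LL) (j : Fin 3) :
    curl3 F B s (fun l => z l - z' l) j = curl3 F B s z j - curl3 F B s z' j := by
  fin_cases j <;>
  · simp only [curl3, map_sub, Matrix.cons_val_zero, Matrix.cons_val_one, Matrix.cons_val,
      Fin.zero_eta, Fin.mk_one, Fin.reduceFinMk]
    abel

/-- one layer -/
theorem cmb_layer (s : ℂ) (e : Fin 3 → ℂ) (X Y : Set Pt)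
    (hX : Closed F (F.face w N) X) (hY : Closed F (F.face w N) Y) (hYX : Y ⊆ X)
    (hne : ∀ p ∈ X, p ∉ Y → ∑ j, e j * (p j.castSucc : ℂ) ≠ 0)
    (hst : ∀ p ∈ X, p ∉ Y → ∀ l ∈ F.face w N,
      ∑ j, e j * (F.a l j : ℂ) = 0 ∨ p + F.hat l ∈ Y)
    (z : Fin 3 → LL) (hz : ∀ j, SuppIn X (z j)) (hc : ∀ j, SuppIn Y (curl3 F (F.face w N) s z j)) :
    ∃ z' : Fin 3 → LL, (∀ j, curl3 F (F.face w N) s z' j = curl3 F (F.face w N) s z j) ∧
      ∀ j, SuppIn Y (z' j) := by
  obtain ⟨x, -, hx⟩ := layer2 F (F.face w N) s e X Y hX hY hYX hne hst z hz hc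
  refine ⟨fun j => z j - D F (F.face w N) s (c3 j) x, fun j => ?_, hx⟩
  rw [cmb_curl3_sub, curl3_grad, sub_zero]

/-- the combination of `ew i` and `w` used for the edge `i` -/
noncomputable def cmbE (P : Poly F w N) (i : Fin P.m) (l : Fin 3) : ℂ :=
  (P.ew i l : ℂ) - (P.eN i : ℂ) / N * (w l : ℂ)

theorem cmbE_pt (P : Poly F w N) (hN : 0 < N) (s0 : ℂ) (hs : (wt w : ℂ) + N * s0 = 0)
    (i : Fin P.m) (ki : ℤ) (hki : (ki : ℂ) + P.eN i * s0 = 0) (p : Pt)
    (hp : ell w N p = wt w) :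
    ∑ l, cmbE P i l * (p l.castSucc : ℂ) = (P.el i p : ℂ) - ki := by
  have hN0 : (N : ℂ) ≠ 0 := by exact_mod_cast hN.ne'
  obtain ⟨q, hq⟩ : ∃ q : ℂ, q = (P.eN i : ℂ) / N := ⟨_, rfl⟩
  have hqN : q * N = P.eN i := by rw [hq]; field_simp
  have h1 : ((ell w N p : ℤ) : ℂ) = (wt w : ℂ) := by rw [hp]
  unfold ell at h1
  push_cast at h1
  have h2 : ((P.el i p : ℤ) : ℂ) = (P.ew i 0 : ℂ) * p 0 + P.ew i 1 * p 1 + P.ew i 2 * p 2 -
      P.eN i * p 3 := by
    unfold Poly.el ell
    push_cast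
    ring
  rw [h2, Fin.sum_univ_three]
  unfold cmbE
  rw [← hq]
  have c0 : (Fin.castSucc (0 : Fin 3)) = (0 : Fin 4) := rfl
  have c1 : (Fin.castSucc (1 : Fin 3)) = (1 : Fin 4) := rfl
  have c2 : (Fin.castSucc (2 : Fin 3)) = (2 : Fin 4) := rfl
  rw [c0, c1, c2]
  linear_combination (-q) * h1 - (p 3 : ℂ) * hqN - q * hs + hki + s0 * hqN

theorem cmbE_exp (P : Poly F w N) (hN : 0 < N) (i : Fin P.m) (l : Fin r) (hl : l ∈ F.face w N) :
    ∑ t, cmbE P i t * (F.a l t : ℂ) = (P.el i (F.hat l) : ℂ) := by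
  have hN0 : (N : ℂ) ≠ 0 := by exact_mod_cast hN.ne'
  obtain ⟨q, hq⟩ : ∃ q : ℂ, q = (P.eN i : ℂ) / N := ⟨_, rfl⟩
  have hqN : q * N = P.eN i := by rw [hq]; field_simp
  have h1 : ((ell w N (F.hat l) : ℤ) : ℂ) = 0 := by rw [mem_face.mp hl]; simp
  unfold ell at h1
  push_cast at h1
  simp only [Dat.hat_zero, Dat.hat_one, Dat.hat_two, Dat.hat_three] at h1
  have h2 : ((P.el i (F.hat l) : ℤ) : ℂ) = (P.ew i 0 : ℂ) * F.a l 0 + P.ew i 1 * F.a l 1 +
      P.ew i 2 * F.a l 2 - P.eN i := by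
    unfold Poly.el ell
    push_cast
    simp only [Dat.hat_zero, Dat.hat_one, Dat.hat_two, Dat.hat_three]
    push_cast
    ring
  rw [h2, Fin.sum_univ_three]
  unfold cmbE
  rw [← hq]
  linear_combination (-q) * h1 - hqN

theorem cmb_closed_ge (P : Poly F w N) (i : Fin P.m) (n : ℤ) :
    Closed F (F.face w N) {p | n ≤ P.el i p} :=
  closed_ge (w := P.ew i) (N := P.eN i) _ (fun l _ => P.el_hat_nonneg i l) n

theorem cmb_closed_gt (P : Poly F w N) (i : Fin P.m) (n : ℤ) :
    Closed F (F.face w N) {p | n < P.el i p} :=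
  closed_gt (w := P.ew i) (N := P.eN i) _ (fun l _ => P.el_hat_nonneg i l) n

theorem cmb_closed_all (P : Poly F w N) (I : Finset (Fin P.m)) (k : Fin P.m → ℤ) :
    Closed F (F.face w N) {p | ∀ i ∈ I, k i < P.el i p} := by
  intro p hp l hl i hi
  exact cmb_closed_gt P i (k i) p (hp i hi) l hl

/-- raising along one edge to the critical level -/
theorem cmb_raise (P : Poly F w N) (hN : 0 < N) (s0 : ℂ) (hs : (wt w : ℂ) + N * s0 = 0)
    (i : Fin P.m) (ki : ℤ) (hki : (ki : ℂ) + P.eN i * s0 = 0) (T W : Set Pt)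
    (hT : Closed F (F.face w N) T) (hW : Closed F (F.face w N) W)
    (hWS : W ⊆ slice w N (wt w)) (z : Fin 3 → LL) (hz : ∀ j, SuppIn (T ∪ W) (z j))
    (hc : ∀ j, SuppIn T (curl3 F (F.face w N) s0 z j)) :
    ∃ z' : Fin 3 → LL, (∀ j, curl3 F (F.face w N) s0 z' j = curl3 F (F.face w N) s0 z j) ∧
      ∀ j, SuppIn (T ∪ (W ∩ {p | ki ≤ P.el i p})) (z' j) := by
  -- induction
  have key : ∀ (t : ℕ) (z : Fin 3 → LL),
      (∀ j, SuppIn (T ∪ (W ∩ {p | ki - t ≤ P.el i p})) (z j)) →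
      (∀ j, SuppIn T (curl3 F (F.face w N) s0 z j)) →
      ∃ z' : Fin 3 → LL, (∀ j, curl3 F (F.face w N) s0 z' j = curl3 F (F.face w N) s0 z j) ∧
        ∀ j, SuppIn (T ∪ (W ∩ {p | ki ≤ P.el i p})) (z' j) := by
    intro t
    induction t with
    | zero =>
      intro z hz _
      refine ⟨z, fun _ => rfl, fun j => ?_⟩
      simpa using hz j
    | succ t ih =>
      intro z hz hc
      have hYX : T ∪ (W ∩ {p | ki - t ≤ P.el i p}) ⊆
          T ∪ (W ∩ {p | ki - (t + 1 : ℕ) ≤ P.el i p}) := by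
        rintro p (hp | ⟨hp, hp2⟩)
        · exact Or.inl hp
        · refine Or.inr ⟨hp, ?_⟩
          have h3 : ki - t ≤ P.el i p := hp2
          show ki - (t + 1 : ℕ) ≤ P.el i p
          push_cast
          omega
      have hlay : ∀ p ∈ T ∪ (W ∩ {p | ki - (t + 1 : ℕ) ≤ P.el i p}),
          p ∉ T ∪ (W ∩ {p | ki - t ≤ P.el i p}) → p ∈ W ∧ P.el i p = ki - (t + 1 : ℕ) := by
        rintro p (hp | ⟨hp, hp2⟩) hnot
        · exact absurd (Or.inl hp) hnot
        · refine ⟨hp, ?_⟩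
          have h3 : ki - (t + 1 : ℕ) ≤ P.el i p := hp2
          have h4 : ¬ ki - t ≤ P.el i p := fun h5 => hnot (Or.inr ⟨hp, h5⟩)
          push_cast at h3 ⊢
          omega
      obtain ⟨z1, hz1, hz1s⟩ := cmb_layer s0 (cmbE P i)
        (T ∪ (W ∩ {p | ki - (t + 1 : ℕ) ≤ P.el i p})) (T ∪ (W ∩ {p | ki - t ≤ P.el i p}))
        (hT.union (hW.inter (cmb_closed_ge P i _))) (hT.union (hW.inter (cmb_closed_ge P i _)))
        hYX
        (by
          intro p hp hnot
          obtain ⟨h1, h2⟩ := hlay p hp hnot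
          rw [cmbE_pt P hN s0 hs i ki hki p (hWS h1), h2]
          have h3 : (((ki - (t + 1 : ℕ) - ki : ℤ)) : ℂ) ≠ 0 := by
            exact_mod_cast (by push_cast; omega)
          push_cast at h3 ⊢
          exact h3)
        (by
          intro p hp hnot l hl
          obtain ⟨h1, h2⟩ := hlay p hp hnot
          rw [cmbE_exp P hN i l hl]
          rcases (P.el_hat_nonneg i l).eq_or_lt with h3 | h3
          · left
            rw [← h3]
            simp
          · right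
            refine Or.inr ⟨hW p h1 l hl, ?_⟩
            show ki - t ≤ P.el i (p + F.hat l)
            rw [P.el_add, h2]
            push_cast
            omega)
        z hz (fun j => (hc j).mono Set.subset_union_left)
      obtain ⟨z2, hz2, hz2s⟩ := ih z1 hz1s (fun j => by rw [hz1]; exact hc j)
      exact ⟨z2, fun j => by rw [hz2, hz1], hz2s⟩
  -- the start
  have hbd : ∃ n0 : ℤ, ∀ j p, cf (z j) p ≠ 0 → n0 ≤ P.el i p := by
    have hfin : (⋃ j, {p | cf (z j) p ≠ 0}).Finite := Set.finite_iUnion fun j => cf_finite (z j)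
    obtain ⟨n0, hn0⟩ := (hfin.image (P.el i)).bddBelow
    exact ⟨n0, fun j p hp => hn0 ⟨p, Set.mem_iUnion.mpr ⟨j, hp⟩, rfl⟩⟩
  obtain ⟨n0, hn0⟩ := hbd
  refine key (ki - n0).toNat z (fun j p hp => ?_) hc
  rcases hz j p hp with h1 | h1
  · exact Or.inl h1
  · refine Or.inr ⟨h1, ?_⟩
    have h2 := hn0 j p hp
    show ki - ((ki - n0).toNat : ℤ) ≤ P.el i p
    omega

/-- One Mayer-Vietoris step.

Proof. Slice `S = slice w N (wt w)`, `B = F.face w N`. `y - y'` is a cycle on `S`, so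
`y - y' = curl3 ζ` (`exact1`), `ζ` on `S`. All sets below are intersected with `S` and are closed
under `B`. Let `XI = {∀ i ∈ I, k i < el i}`, `Xj = {k j < el j}`. We change `ζ` by gradients (`layer2`;
`curl3` of a gradient is zero, `curl3_grad`) until `ζ` is supported in `XI ∪ Xj`. The boundary
condition of `layer2` always holds since `curl3 ζ = y - y'` is supported in `XI ∪ Xj`.
(a) levels `n < k j` of `el j` from below (start: finite support): `X = XI ∪ {n ≤ el j}`,
`Y = XI ∪ {n + 1 ≤ el j}`, `e = ` the vector `c` with `∑ c_l p_l = el j p - k j` on `S`, namely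
`c = ew j - (eN j / N) w`: on `S`, `∑ c_l p_l = ew_j·u - (eN_j/N)(N p_3 + |w|) = el j p - (eN_j/N)|w|`, and
`(eN_j/N)|w| = - eN_j s0 = k j`; nonzero for `el j p = n < k j`; for an exponent `l ∈ B`:
`∑ c_t a_{l,t} = el j â_l`, which is `0` or raises `el j`.
(b) now `ζ` is supported in `XI ∪ {k j ≤ el j}`. Enumerate `I = {i_1, …, i_t}`; after stage `a` the
support is in `XI ∪ Xj ∪ {k j ≤ el j, ∀ b ≤ a, k (i_b) < el (i_b)}`. Stage `a` with `i = i_a`: levels
`n < k i` of `el i` as in (a) with the layers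
`XI ∪ Xj ∪ ({k j ≤ el j, …earlier…} ∩ {n ≤ el i})`; then the level `n = k i`: the layer is contained in
`{el j = k j, el i = k i}`. If `NoDouble` gives emptiness nothing has to be done; otherwise use
`e = w`: `∑ w_l p_l = N p_3 + |w| = N (p_3 - s0) ≠ 0` (`s0` is not an integer), and each exponent `l ∈ B`
is not on both edges, so adding `â_l` leaves the layer upwards. At the end
`XI ∪ Xj ∪ {k j ≤ el j, all i ∈ I} = XI ∪ Xj`.
Finally write `ζ = ζ' + ζ''` with `ζ' = cut XI ζ` and `ζ''` supported in `Xj`; `y - curl3 ζ'` is supported in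
`XI` and equals `y' + curl3 ζ''`, supported in `Xj`. -/
theorem combine_step (P : Poly F w N) (hw : Pos3 w) (hN : 0 < N) (hU : UnitOn F (F.face w N))
    (hUe : ∀ e, UnitOn F (P.edge e)) (s0 : ℂ) (hs : (wt w : ℂ) + N * s0 = 0)
    (hs0 : ∀ n : ℤ, s0 ≠ n) (k : Fin P.m → ℤ) (I : Finset (Fin P.m)) (j : Fin P.m)
    (hkI : ∀ i ∈ I, (k i : ℂ) + P.eN i * s0 = 0) (hkj : (k j : ℂ) + P.eN j * s0 = 0)
    (hnd : ∀ i ∈ I, NoDouble P k i j) (y y' : Fin 3 → LL)
    (hy : ∀ l, SuppIn (slice w N (wt w) ∩ {p | ∀ i ∈ I, k i < P.el i p}) (y l))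
    (hy' : ∀ l, SuppIn (slice w N (wt w) ∩ {p | k j < P.el j p}) (y' l))
    (hb : bd F (F.face w N) s0 c3 y = mono one4) (hb' : bd F (F.face w N) s0 c3 y' = mono one4) :
    ∃ y'' : Fin 3 → LL,
      (∀ l, SuppIn (slice w N (wt w) ∩ {p | (∀ i ∈ I, k i < P.el i p) ∧ k j < P.el j p})
        (y'' l)) ∧ bd F (F.face w N) s0 c3 y'' = mono one4 := by
  classical
  obtain ⟨ζ, hζS, hζ⟩ := P.exact1 hw hN hU hUe s0 (wt w) (fun l => y l - y' l)
    (fun l => ((hy l).mono Set.inter_subset_left).sub ((hy' l).mono Set.inter_subset_left))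
    (by
      have h1 : bd F (F.face w N) s0 c3 (fun l => y l - y' l) =
          bd F (F.face w N) s0 c3 y - bd F (F.face w N) s0 c3 y' := by
        unfold bd
        rw [← Finset.sum_sub_distrib]
        exact Finset.sum_congr rfl fun l _ => map_sub _ _ _
      rw [h1, hb, hb', sub_self])
  have hScl : Closed F (F.face w N) (slice w N (wt w)) := face_closed subset_rfl _
  obtain ⟨XI, hXI⟩ : ∃ XI : Set Pt, XI = slice w N (wt w) ∩ {p | ∀ i ∈ I, k i < P.el i p} :=
    ⟨_, rfl⟩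
  obtain ⟨Xj, hXj⟩ : ∃ Xj : Set Pt, Xj = slice w N (wt w) ∩ {p | k j < P.el j p} := ⟨_, rfl⟩
  have hXIcl : Closed F (F.face w N) XI := by
    rw [hXI]; exact hScl.inter (cmb_closed_all P I k)
  have hXjcl : Closed F (F.face w N) Xj := by
    rw [hXj]; exact hScl.inter (cmb_closed_gt P j (k j))
  have hTcl : Closed F (F.face w N) (XI ∪ Xj) := hXIcl.union hXjcl
  rw [← hXI] at hy
  rw [← hXj] at hy'
  have hcζ : ∀ l, SuppIn (XI ∪ Xj) (curl3 F (F.face w N) s0 ζ l) := by
    intro l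
    rw [← hζ l]
    exact ((hy l).mono Set.subset_union_left).sub ((hy' l).mono Set.subset_union_right)
  -- raise along `j`
  obtain ⟨ζ1, hζ1, hζ1s⟩ := cmb_raise P hN s0 hs j (k j) hkj (XI ∪ Xj) (slice w N (wt w)) hTcl hScl
    subset_rfl ζ (fun l => (hζS l).mono Set.subset_union_right) hcζ
  -- raise along the elements of `I`
  have hstage : ∀ J : Finset (Fin P.m), J ⊆ I → ∃ ζ2 : Fin 3 → LL,
      (∀ l, curl3 F (F.face w N) s0 ζ2 l = curl3 F (F.face w N) s0 ζ l) ∧
      ∀ l, SuppIn ((XI ∪ Xj) ∪ (slice w N (wt w) ∩ {p | k j ≤ P.el j p} ∩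
        {p | ∀ i ∈ J, k i < P.el i p})) (ζ2 l) := by
    intro J
    induction J using Finset.induction_on with
    | empty =>
      intro _
      refine ⟨ζ1, hζ1, fun l => (hζ1s l).mono ?_⟩
      rintro p (hp | hp)
      · exact Or.inl hp
      · exact Or.inr ⟨hp, fun i hi => absurd hi (Finset.notMem_empty i)⟩
    | insert i J hiJ ih =>
      intro hJI
      have hiI : i ∈ I := hJI (Finset.mem_insert_self i J)
      obtain ⟨ζ2, hζ2, hζ2s⟩ := ih ((Finset.subset_insert i J).trans hJI)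
      obtain ⟨W, hW⟩ : ∃ W : Set Pt, W = slice w N (wt w) ∩ {p | k j ≤ P.el j p} ∩
        {p | ∀ i ∈ J, k i < P.el i p} := ⟨_, rfl⟩
      have hWcl : Closed F (F.face w N) W := by
        rw [hW]
        exact (hScl.inter (cmb_closed_ge P j (k j))).inter (cmb_closed_all P J k)
      have hWS : W ⊆ slice w N (wt w) := by
        rw [hW]; exact fun p hp => hp.1.1
      rw [← hW] at hζ2s
      obtain ⟨ζ3, hζ3, hζ3s⟩ := cmb_raise P hN s0 hs i (k i) (hkI i hiI) (XI ∪ Xj) W hTcl hWcl hWS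
        ζ2 hζ2s (fun l => by rw [hζ2]; exact hcζ l)
      have hYX : (XI ∪ Xj) ∪ (W ∩ {p | k i < P.el i p}) ⊆
          (XI ∪ Xj) ∪ (W ∩ {p | k i ≤ P.el i p}) := by
        rintro p (hp | ⟨hp, hp2⟩)
        · exact Or.inl hp
        · exact Or.inr ⟨hp, le_of_lt (show k i < P.el i p from hp2)⟩
      have hlay : ∀ p ∈ (XI ∪ Xj) ∪ (W ∩ {p | k i ≤ P.el i p}),
          p ∉ (XI ∪ Xj) ∪ (W ∩ {p | k i < P.el i p}) →
          p ∈ W ∧ P.el i p = k i ∧ P.el j p = k j := by
        rintro p (hp | ⟨hp, hp2⟩) hnot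
        · exact absurd (Or.inl hp) hnot
        · have h3 : k i ≤ P.el i p := hp2
          have h4 : ¬ k i < P.el i p := fun h5 => hnot (Or.inr ⟨hp, h5⟩)
          have h6 : k j ≤ P.el j p := by
            rw [hW] at hp; exact hp.1.2
          have h7 : ¬ k j < P.el j p := fun h8 => hnot (Or.inl (Or.inr (by
            rw [hXj]; exact ⟨hWS hp, h8⟩)))
          exact ⟨hp, by omega, by omega⟩
      have hfin : ∃ ζ4 : Fin 3 → LL,
          (∀ l, curl3 F (F.face w N) s0 ζ4 l = curl3 F (F.face w N) s0 ζ3 l) ∧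
          ∀ l, SuppIn ((XI ∪ Xj) ∪ (W ∩ {p | k i < P.el i p})) (ζ4 l) := by
        rcases hnd i hiI with hnd1 | hnd2
        · refine cmb_layer s0 (fun l => (w l : ℂ)) ((XI ∪ Xj) ∪ (W ∩ {p | k i ≤ P.el i p}))
            ((XI ∪ Xj) ∪ (W ∩ {p | k i < P.el i p}))
            (hTcl.union (hWcl.inter (cmb_closed_ge P i _)))
            (hTcl.union (hWcl.inter (cmb_closed_gt P i _))) hYX ?_ ?_ ζ3 hζ3s
            (fun l => by rw [hζ3, hζ2]; exact (hcζ l).mono Set.subset_union_left)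
          · intro p hp hnot
            obtain ⟨h1, h2, h3⟩ := hlay p hp hnot
            have h4 : ((ell w N p : ℤ) : ℂ) = (wt w : ℂ) := by rw [show ell w N p = wt w from hWS h1]
            unfold ell at h4
            push_cast at h4
            have h5 : ∑ l : Fin 3, (w l : ℂ) * (p l.castSucc : ℂ) = N * ((p 3 : ℂ) - s0) := by
              rw [Fin.sum_univ_three]
              have c0 : (Fin.castSucc (0 : Fin 3)) = (0 : Fin 4) := rfl
              have c1 : (Fin.castSucc (1 : Fin 3)) = (1 : Fin 4) := rfl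
              have c2 : (Fin.castSucc (2 : Fin 3)) = (2 : Fin 4) := rfl
              rw [c0, c1, c2]
              linear_combination h4 + hs
            rw [h5]
            refine mul_ne_zero (by exact_mod_cast hN.ne') (sub_ne_zero.mpr ?_)
            exact fun h6 => hs0 (p 3) h6.symm
          · intro p hp hnot l hl
            obtain ⟨h1, h2, h3⟩ := hlay p hp hnot
            right
            rcases (P.el_hat_nonneg j l).eq_or_lt with h4 | h4
            · rcases (P.el_hat_nonneg i l).eq_or_lt with h5 | h5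
              · exfalso
                refine hnd1 l ?_ ?_
                · exact Finset.mem_inter.mpr ⟨hl, mem_face.mpr h5.symm⟩
                · exact Finset.mem_inter.mpr ⟨hl, mem_face.mpr h4.symm⟩
              · refine Or.inr ⟨hWcl p h1 l hl, ?_⟩
                show k i < P.el i (p + F.hat l)
                rw [P.el_add, h2]
                omega
            · refine Or.inl (Or.inr ?_)
              rw [hXj]
              refine ⟨hWS (hWcl p h1 l hl), ?_⟩
              show k j < P.el j (p + F.hat l)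
              rw [P.el_add, h3]
              omega
        · refine ⟨ζ3, fun _ => rfl, fun l p hp => ?_⟩
          by_contra hnot
          obtain ⟨h1, h2, h3⟩ := hlay p (hζ3s l p hp) hnot
          exact hnd2 p (hWS h1) h2 h3
      obtain ⟨ζ4, hζ4, hζ4s⟩ := hfin
      refine ⟨ζ4, fun l => by rw [hζ4, hζ3, hζ2], fun l => (hζ4s l).mono ?_⟩
      rintro p (hp | ⟨hp, hp2⟩)
      · exact Or.inl hp
      · rw [hW] at hp
        refine Or.inr ⟨hp.1, fun i' hi' => ?_⟩
        rcases Finset.mem_insert.mp hi' with rfl | hi'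
        · exact hp2
        · exact hp.2 i' hi'
  obtain ⟨ζ2, hζ2, hζ2s⟩ := hstage I subset_rfl
  have hζ2T : ∀ l, SuppIn (XI ∪ Xj) (ζ2 l) := by
    intro l
    refine (hζ2s l).mono ?_
    rintro p (hp | hp)
    · exact hp
    · exact Or.inl (by rw [hXI]; exact ⟨hp.1.1, hp.2⟩)
  -- the new chain
  have hcut : ∀ l, SuppIn XI (cut XI (ζ2 l)) := fun l => suppIn_cut XI (ζ2 l)
  have hcut2 : ∀ l, SuppIn Xj (ζ2 l - cut XI (ζ2 l)) := by
    intro l p hp
    rw [cf_sub] at hp
    by_cases hpX : p ∈ XI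
    · rw [cf_cut_of_mem hpX, sub_self] at hp
      exact absurd rfl hp
    · rw [cf_cut_of_notMem hpX, sub_zero] at hp
      exact (hζ2T l p hp).resolve_left hpX
  refine ⟨fun l => y l - curl3 F (F.face w N) s0 (fun l => cut XI (ζ2 l)) l, fun l => ?_, ?_⟩
  · have h1 : SuppIn XI (y l - curl3 F (F.face w N) s0 (fun l => cut XI (ζ2 l)) l) :=
      (hy l).sub (SuppIn_curl3 hXIcl s0 _ hcut l)
    have h2 : SuppIn Xj (y l - curl3 F (F.face w N) s0 (fun l => cut XI (ζ2 l)) l) := by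
      have h3 : y l - curl3 F (F.face w N) s0 (fun l => cut XI (ζ2 l)) l =
          y' l + curl3 F (F.face w N) s0 (fun l => ζ2 l - cut XI (ζ2 l)) l := by
        rw [cmb_curl3_sub (F.face w N) s0 ζ2 (fun l => cut XI (ζ2 l)) l, hζ2 l, ← hζ l]
        abel
      rw [h3]
      exact (hy' l).add (SuppIn_curl3 hXjcl s0 _ hcut2 l)
    intro p hp
    have h3 := h1 p hp
    have h4 := h2 p hp
    rw [hXI] at h3
    rw [hXj] at h4
    exact ⟨h3.1, h3.2, h4.2⟩
  · have h1 : bd F (F.face w N) s0 c3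
        (fun l => y l - curl3 F (F.face w N) s0 (fun l => cut XI (ζ2 l)) l) =
        bd F (F.face w N) s0 c3 y -
          bd F (F.face w N) s0 c3 (curl3 F (F.face w N) s0 (fun l => cut XI (ζ2 l))) := by
      unfold bd
      rw [← Finset.sum_sub_distrib]
      exact Finset.sum_congr rfl fun l _ => map_sub _ _ _
    rw [h1, bd_curl3, sub_zero, hb]

/-- Combination over a finite set of critical edges (induction with `combine_step`). -/
theorem combine (P : Poly F w N) (hw : Pos3 w) (hN : 0 < N) (hU : UnitOn F (F.face w N))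
    (hUe : ∀ e, UnitOn F (P.edge e)) (s0 : ℂ) (hs : (wt w : ℂ) + N * s0 = 0)
    (hs0 : ∀ n : ℤ, s0 ≠ n) (k : Fin P.m → ℤ) (I : Finset (Fin P.m))
    (hkI : ∀ i ∈ I, (k i : ℂ) + P.eN i * s0 = 0)
    (hnd : ∀ i ∈ I, ∀ j ∈ I, i ≠ j → NoDouble P k i j)
    (h0 : ∃ y : Fin 3 → LL, (∀ l, SuppIn (slice w N (wt w)) (y l)) ∧
      bd F (F.face w N) s0 c3 y = mono one4)
    (hi : ∀ i ∈ I, ∃ y : Fin 3 → LL, (∀ l, SuppIn (slice w N (wt w) ∩ {p | k i < P.el i p})
      (y l)) ∧ bd F (F.face w N) s0 c3 y = mono one4) :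
    ∃ y : Fin 3 → LL, (∀ l, SuppIn (slice w N (wt w) ∩ {p | ∀ i ∈ I, k i < P.el i p}) (y l)) ∧
      bd F (F.face w N) s0 c3 y = mono one4 := by
  classical
  induction I using Finset.induction_on with
  | empty =>
    obtain ⟨y, hy, hyb⟩ := h0
    exact ⟨y, fun l => (hy l).mono (fun p hp => ⟨hp, fun i hi => absurd hi (Finset.notMem_empty i)⟩),
      hyb⟩
  | insert j I hj ih =>
    obtain ⟨y, hy, hyb⟩ := ih (fun i hi' => hkI i (Finset.mem_insert_of_mem hi'))
      (fun i hi' i' hi'' => hnd i (Finset.mem_insert_of_mem hi') i' (Finset.mem_insert_of_mem hi''))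
      (fun i hi' => hi i (Finset.mem_insert_of_mem hi'))
    obtain ⟨y', hy', hyb'⟩ := hi j (Finset.mem_insert_self j I)
    obtain ⟨y'', hy'', hyb''⟩ := combine_step P hw hN hU hUe s0 hs hs0 k I j
      (fun i hi' => hkI i (Finset.mem_insert_of_mem hi')) (hkI j (Finset.mem_insert_self j I))
      (fun i hi' => hnd i (Finset.mem_insert_of_mem hi') j (Finset.mem_insert_self j I)
        (fun h => hj (h ▸ hi'))) y y' hy hy' hyb hyb'
    refine ⟨y'', fun l => (hy'' l).mono ?_, hyb''⟩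
    rintro p ⟨hp, hp1, hp2⟩
    refine ⟨hp, fun i hi' => ?_⟩
    rcases Finset.mem_insert.mp hi' with rfl | hi'
    · exact hp2
    · exact hp1 i hi'

end Pool.Agent.H37.SM
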