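import Pool.Agent.H37.SM.KOX

/-! Module CRC: crossing the critical level of a compact facet. -/

set_option autoImplicit false

namespace Pool.Agent.H37.SM

open Finset

variable {r : ℕ} {F : Dat r} {w : Fin 3 → ℤ} {N : ℤ}

lemma CRC_sum_ec (w : Fin 3 → ℤ) (N : ℤ) : ∑ i, ec w N i • bs i = ec w N := by
  funext j
  rw [Finset.sum_apply]
  simp only [bs, Pi.smul_apply, smul_eq_mul, Pi.single_apply, mul_ite, mul_one, mul_zero]
  rw [Finset.sum_ite_eq]
  simp

lemma CRC_bd_sub {ι : Type*} [Fintype ι] (B : Finset (Fin r)) (s : ℂ)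
    (c : ι → Fin 4 → ℂ) (η ξ : ι → LL) :
    bd F B s c (fun j => η j - ξ j) = bd F B s c η - bd F B s c ξ := by
  simp [bd, map_sub, Finset.sum_sub_distrib]

lemma CRC_cut_D (hmin : ∀ l, 0 ≤ ell w N (F.hat l)) (s : ℂ) (c : Fin 4 → ℂ) (n : ℤ) (η : LL)
    (hη : SuppIn {p | n ≤ ell w N p} η) :
    cut (slice w N n) (D F univ s c η) = D F (F.face w N) s c (cut (slice w N n) η) := by
  have := cut_D (F := F) (w := w) (N := N) s c univ n (fun l _ => hmin l) η hη
  rwa [Finset.univ_inter] at this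

lemma CRC_cut_bd {ι : Type*} [Fintype ι] (hmin : ∀ l, 0 ≤ ell w N (F.hat l)) (s : ℂ)
    (c : ι → Fin 4 → ℂ) (n : ℤ) (η : ι → LL) (hη : ∀ i, SuppIn {p | n ≤ ell w N p} (η i)) :
    cut (slice w N n) (bd F univ s c η) =
      bd F (F.face w N) s c (fun i => cut (slice w N n) (η i)) := by
  unfold bd
  rw [map_sum]
  exact Finset.sum_congr rfl fun i _ => CRC_cut_D hmin s _ n _ (hη i)

lemma CRC_cut_bd2 {ι : Type*} [Fintype ι] (hmin : ∀ l, 0 ≤ ell w N (F.hat l)) (s : ℂ)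
    (c : ι → Fin 4 → ℂ) (n : ℤ) (ζ : ι → ι → LL)
    (hζ : ∀ i j, SuppIn {p | n ≤ ell w N p} (ζ i j)) (j : ι) :
    cut (slice w N n) (bd2 F univ s c ζ j) =
      bd2 F (F.face w N) s c (fun i j => cut (slice w N n) (ζ i j)) j := by
  unfold bd2
  rw [map_sum]
  refine Finset.sum_congr rfl fun i _ => ?_
  rw [CRC_cut_D hmin s _ n _ ((hζ i j).sub (hζ j i)), map_sub]

lemma CRC_cut_zero (n : ℤ) (η : LL) (hη : SuppIn {p | n < ell w N p} η) :
    cut (slice w N n) η = 0 := by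
  apply ext_cf; intro p
  rw [cf_zero]
  by_cases hp : p ∈ slice w N n
  · rw [cf_cut_of_mem hp]
    apply hη.cf_eq
    intro h
    have h1 : ell w N p = n := hp
    have h2 : n < ell w N p := h
    omega
  · exact cf_cut_of_notMem hp η

lemma CRC_lift (n : ℤ) (η : LL) (hη : SuppIn {p | n ≤ ell w N p} η)
    (h0 : cut (slice w N n) η = 0) : SuppIn {p | n < ell w N p} η := by
  intro p hp
  have h1 : n ≤ ell w N p := hη p hp
  rcases h1.lt_or_eq with h | h
  · exact h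
  · exfalso
    apply hp
    have h2 : p ∈ slice w N n := h.symm
    rw [← cf_cut_of_mem h2 η, h0, cf_zero]

lemma CRC_bd4 (B : Finset (Fin r)) (s : ℂ) (η : Fin 4 → LL) :
    bd F B s bs η = bd F B s c3 (fun j => η j.castSucc) + D F B s (bs 3) (η 3) := by
  unfold bd
  rw [Fin.sum_univ_castSucc]
  rfl

/-- Crossing a critical level `kF = -N s0 < |w|` of a compact facet.

Proof. (1) `raise1` for the four operators `bs`, `e = (w_0,w_1,w_2,-N)` (`∑ e_i • bs i = ec w N`),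
`X = univ`, `n1 = kF` (levels `n < kF` are not critical, as `N s0 = -kF`): `η' = η - bd2 ζ`
supported in `{kF ≤ ℓ_w}`, `bd η' = bd η` (`bd_bd2`). Also `η' 3 = η 3 - ∑_i D_i (ζ i 3 - ζ 3 i)`, so
`ξ' i := ξ i - (ζ i 3 - ζ 3 i)` has `bd ξ' = c • mono one4 + G1 + η' 3`. (2) `bd ξ'` is supported in
`{kF ≤ ℓ_w}`: raise `ξ'` to `{kF ≤ ℓ_w}` as well (boundary unchanged), call it `ξ''`. (3) Let
`λ j`, `x j` be the level `kF` parts (`cut (slice w N kF)`) of `η' j`, `ξ'' j`, `B = F.face w N`. By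
`cut_D` the level `kF` part of `bd η'` is `∑_j D F B s0 (bs j) (λ j) = 0` (as `kF < |w|`), and
`∑_j D F B s0 (bs j) (x j) = λ 3`. On the slice `D F B s0 (ec w N) = 0` (`D_ec`, `D_ec_eq`), i.e.
`N D_3 = ∑_{j<3} w_j D_j`. So `λ' j := λ j + (w_j / N) λ 3` (`j < 3`) has `bd F B s0 c3 λ' = 0`;
`exact1` gives `z` on the slice, `λ' = curl3 z`. (4) Put
`η''_j := η'_j - (1/N) ∑_i D_i (e_i x_j - e_j x_i) - (curl3 F univ s0 z)_j` for `j < 3`, and without
the last term for `j = 3` (full operators `D F univ`). Then `bd η'' = bd η'` (`D_comm`,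
`bd_curl3`), and the level `kF` part vanishes:
`λ_j - (1/N)((e·D^B) x_j - e_j ∑_i D^B_i x_i) - (λ')_j = λ_j + (e_j/N) λ_3 - λ'_j = 0` for `j < 3`, and
`λ_3 + (e_3/N) λ_3 = 0` for `j = 3` as `e_3 = -N`. All supports in `{kF ≤ ℓ_w}`. -/
theorem cross_compact (hF : Facet F w N) (hw : Pos3 w) (hN : 0 < N) (P : Poly F w N)
    (hU : UnitOn F (F.face w N)) (hUe : ∀ e, UnitOn F (P.edge e)) (s0 : ℂ) (kF : ℤ)
    (hk : (kF : ℂ) + N * s0 = 0) (hlt : kF < wt w) (c : ℂ) (η ξ : Fin 4 → LL) (G0 G1 : LL)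
    (hG0 : SuppIn {p | wt w ≤ ell w N p} G0) (hG1 : SuppIn {p | wt w ≤ ell w N p} G1)
    (hη : bd F univ s0 bs η = mono one4 + G0)
    (hξ : bd F univ s0 bs ξ = c • mono one4 + G1 + η 3) :
    ∃ η' : Fin 4 → LL, (∀ j, SuppIn {p | kF < ell w N p} (η' j)) ∧
      bd F univ s0 bs η' = mono one4 + G0 := by
  have hNC : (N : ℂ) ≠ 0 := by exact_mod_cast hN.ne'
  have hmin := hF.min_le
  have hge : Closed F univ {p | kF ≤ ell w N p} := closed_ge univ (fun l _ => hmin l) kF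
  have hmono : SuppIn {p | kF < ell w N p} (mono one4) := by
    refine suppIn_mono ?_
    show kF < ell w N one4
    rw [ell_one4]; exact hlt
  have hG0' : SuppIn {p | kF < ell w N p} G0 := hG0.mono fun p hp => by
    have h1 : wt w ≤ ell w N p := hp
    show kF < ell w N p
    omega
  have hG1' : SuppIn {p | kF < ell w N p} G1 := hG1.mono fun p hp => by
    have h1 : wt w ≤ ell w N p := hp
    show kF < ell w N p
    omega
  have hsub : {p : Pt | kF < ell w N p} ⊆ {p | kF ≤ ell w N p} := fun p hp => by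
    have h1 : kF < ell w N p := hp
    exact h1.le
  have hnc : ∀ η : Fin 4 → LL, ∀ n : ℤ, n < kF → (n : ℂ) + N * s0 = 0 →
      ∀ j, SuppIn {p | n < ell w N p} (η j) := by
    intro η n hn h0 j
    exfalso
    have h1 : (n : ℂ) = kF := by linear_combination h0 - hk
    have h2 : n = kF := by exact_mod_cast h1
    omega
  -- step 1
  obtain ⟨ζ, hζ, -⟩ := raise1 F univ s0 bs (ec w N) w N (CRC_sum_ec w N) (fun l _ => hmin l)
    Set.univ (fun _ _ _ _ => Set.mem_univ _) kF η (fun i p _ => Set.mem_univ _) (hnc η)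
    (by rw [hη]; exact (hmono.add hG0').mono hsub)
  set η1 : Fin 4 → LL := fun j => η j - bd2 F univ s0 bs ζ j with hη1
  have hη1s : ∀ j, SuppIn {p | kF ≤ ell w N p} (η1 j) := fun j =>
    (hζ j).mono Set.inter_subset_right
  have hη1b : bd F univ s0 bs η1 = mono one4 + G0 := by
    rw [hη1, CRC_bd_sub, bd_bd2, sub_zero, hη]
  set ξ1 : Fin 4 → LL := fun i => ξ i - (ζ i 3 - ζ 3 i) with hξ1
  have hξ1b : bd F univ s0 bs ξ1 = c • mono one4 + G1 + η1 3 := by
    rw [hξ1, CRC_bd_sub, hξ]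
    show c • mono one4 + G1 + η 3 - bd F univ s0 bs (fun i => ζ i 3 - ζ 3 i) =
      c • mono one4 + G1 + (η 3 - bd2 F univ s0 bs ζ 3)
    have : bd F univ s0 bs (fun i => ζ i 3 - ζ 3 i) = bd2 F univ s0 bs ζ 3 := rfl
    rw [this]; abel
  -- step 2
  obtain ⟨ζ2, hζ2, -⟩ := raise1 F univ s0 bs (ec w N) w N (CRC_sum_ec w N) (fun l _ => hmin l)
    Set.univ (fun _ _ _ _ => Set.mem_univ _) kF ξ1 (fun i p _ => Set.mem_univ _) (hnc ξ1)
    (by
      rw [hξ1b]
      exact (((hmono.smul c).add hG1').mono hsub).add (hη1s 3))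
  set ξ2 : Fin 4 → LL := fun j => ξ1 j - bd2 F univ s0 bs ζ2 j with hξ2
  have hξ2s : ∀ j, SuppIn {p | kF ≤ ell w N p} (ξ2 j) := fun j =>
    (hζ2 j).mono Set.inter_subset_right
  have hξ2b : bd F univ s0 bs ξ2 = c • mono one4 + G1 + η1 3 := by
    rw [hξ2, CRC_bd_sub, bd_bd2, sub_zero, hξ1b]
  -- step 3
  set S := slice w N kF with hS
  set B := F.face w N with hB
  set lam : Fin 4 → LL := fun j => cut S (η1 j) with hlam
  set x : Fin 4 → LL := fun j => cut S (ξ2 j) with hx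
  have hSge : S ⊆ {p | kF ≤ ell w N p} := fun p hp => by
    have h1 : ell w N p = kF := hp
    exact h1.ge
  have hlams : ∀ j, SuppIn S (lam j) := fun j => suppIn_cut S _
  have hxs : ∀ j, SuppIn S (x j) := fun j => suppIn_cut S _
  have h1 : bd F B s0 bs lam = 0 := by
    rw [hlam, hB, hS, ← CRC_cut_bd hmin s0 bs kF η1 hη1s, hη1b]
    exact CRC_cut_zero kF _ (hmono.add hG0')
  have h2 : bd F B s0 bs x = lam 3 := by
    rw [hx, hB, hS, ← CRC_cut_bd hmin s0 bs kF ξ2 hξ2s, hξ2b, map_add,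
      CRC_cut_zero kF _ ((hmono.smul c).add hG1'), zero_add]
  have hDec : ∀ y : LL, SuppIn S y → D F B s0 (ec w N) y = 0 := by
    intro y hy
    rw [D_ec s0 kF B (by rw [hB]) y hy, hk, zero_smul]
  set lam' : Fin 3 → LL := fun j => lam j.castSucc + ((w j : ℂ) / N) • lam 3 with hlam'
  have h3 : bd F B s0 c3 lam' = 0 := by
    have e1 : bd F B s0 c3 lam' =
        bd F B s0 c3 (fun j => lam j.castSucc) + (1 / (N : ℂ)) •
          ((w 0 : ℂ) • D F B s0 (bs 0) (lam 3) + (w 1 : ℂ) • D F B s0 (bs 1) (lam 3) +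
          (w 2 : ℂ) • D F B s0 (bs 2) (lam 3)) := by
      unfold bd
      rw [Fin.sum_univ_three, Fin.sum_univ_three]
      simp only [hlam', map_add, map_smul]
      have c0 : c3 0 = bs 0 := rfl
      have c1 : c3 1 = bs 1 := rfl
      have c2 : c3 2 = bs 2 := rfl
      rw [c0, c1, c2]
      simp only [smul_add, smul_smul, one_div]
      rw [show (w 0 : ℂ) / N = (N : ℂ)⁻¹ * w 0 by ring, show (w 1 : ℂ) / N = (N : ℂ)⁻¹ * w 1 by ring,
        show (w 2 : ℂ) / N = (N : ℂ)⁻¹ * w 2 by ring]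
      abel
    have e2 := hDec (lam 3) (hlams 3)
    rw [D_ec_eq] at e2
    have e3 : (w 0 : ℂ) • D F B s0 (bs 0) (lam 3) + (w 1 : ℂ) • D F B s0 (bs 1) (lam 3) +
          (w 2 : ℂ) • D F B s0 (bs 2) (lam 3) = (N : ℂ) • D F B s0 (bs 3) (lam 3) :=
      sub_eq_zero.1 e2
    rw [e1, e3, smul_smul, one_div, inv_mul_cancel₀ hNC, one_smul, ← CRC_bd4, h1]
  have hlam's : ∀ j, SuppIn S (lam' j) := fun j => (hlams _).add ((hlams 3).smul _)
  obtain ⟨z, hzs, hz⟩ := P.exact1 hw hN hU hUe s0 kF lam' hlam's h3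
  -- step 4
  set ζ3 : Fin 4 → Fin 4 → LL := fun i j => (ec w N i / N) • x j with hζ3
  have hζ3s : ∀ i j, SuppIn S (ζ3 i j) := fun i j => (hxs j).smul _
  set zc : Fin 4 → LL := ![curl3 F univ s0 z 0, curl3 F univ s0 z 1, curl3 F univ s0 z 2, 0]
    with hzc
  have hzcj : ∀ j : Fin 3, zc j.castSucc = curl3 F univ s0 z j := by
    intro j
    fin_cases j <;> rfl
  have hzc3 : zc 3 = 0 := rfl
  have hzs' : ∀ j, SuppIn {p | kF ≤ ell w N p} (z j) := fun j => (hzs j).mono hSge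
  have hcutz : ∀ j, cut S (z j) = z j := fun j => cut_eq_self (hzs j)
  have hcutx : ∀ j, cut S (x j) = x j := fun j => cut_eq_self (hxs j)
  have hcutzc : ∀ j : Fin 3, cut S (curl3 F univ s0 z j) = lam' j := by
    intro j
    rw [hz j]
    fin_cases j
    · show cut S (D F univ s0 (c3 1) (z 2) - D F univ s0 (c3 2) (z 1)) =
        D F B s0 (c3 1) (z 2) - D F B s0 (c3 2) (z 1)
      rw [map_sub, CRC_cut_D hmin s0 _ kF _ (hzs' 2), CRC_cut_D hmin s0 _ kF _ (hzs' 1),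
        hcutz, hcutz]
    · show cut S (D F univ s0 (c3 2) (z 0) - D F univ s0 (c3 0) (z 2)) =
        D F B s0 (c3 2) (z 0) - D F B s0 (c3 0) (z 2)
      rw [map_sub, CRC_cut_D hmin s0 _ kF _ (hzs' 0), CRC_cut_D hmin s0 _ kF _ (hzs' 2),
        hcutz, hcutz]
    · show cut S (D F univ s0 (c3 0) (z 1) - D F univ s0 (c3 1) (z 0)) =
        D F B s0 (c3 0) (z 1) - D F B s0 (c3 1) (z 0)
      rw [map_sub, CRC_cut_D hmin s0 _ kF _ (hzs' 1), CRC_cut_D hmin s0 _ kF _ (hzs' 0),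
        hcutz, hcutz]
  have hcutζ : ∀ j, cut S (bd2 F univ s0 bs ζ3 j) = -((ec w N j / N) • lam 3) := by
    intro j
    rw [CRC_cut_bd2 hmin s0 bs kF ζ3 (fun i j => (hζ3s i j).mono hSge) j]
    have e1 : (fun i j => cut (slice w N kF) (ζ3 i j)) = ζ3 := by
      funext i j
      exact cut_eq_self (hζ3s i j)
    rw [e1]
    have e2 : bd2 F (F.face w N) s0 bs ζ3 j =
        (1 / (N : ℂ)) • D F B s0 (ec w N) (x j) - (ec w N j / N) • bd F B s0 bs x := by
      have e3 := D_sum_left F B s0 univ (ec w N) bs (x j)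
      rw [CRC_sum_ec] at e3
      rw [e3]
      unfold bd2 bd
      rw [Finset.smul_sum, Finset.smul_sum, ← Finset.sum_sub_distrib]
      refine Finset.sum_congr rfl fun i _ => ?_
      simp only [hζ3, map_sub, map_smul, smul_smul]
      rw [show ec w N i / (N : ℂ) = 1 / (N : ℂ) * ec w N i by ring]
    rw [e2, hDec _ (hxs j), smul_zero, zero_sub, h2]
  refine ⟨fun j => η1 j - bd2 F univ s0 bs ζ3 j - zc j, ?_, ?_⟩
  · intro j
    refine CRC_lift kF _ ?_ ?_
    · refine ((hη1s j).sub ?_).sub ?_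
      · unfold bd2
        refine SuppIn.sum fun i _ => ?_
        exact (((hζ3s i j).mono hSge).sub ((hζ3s j i).mono hSge)).D hge s0 _
      · refine Fin.lastCases ?_ (fun i => ?_) j
        · show SuppIn _ (zc 3)
          rw [hzc3]; exact suppIn_zero _
        · rw [hzcj]; exact SuppIn_curl3 hge s0 z hzs' i
    · show cut S (η1 j - bd2 F univ s0 bs ζ3 j - zc j) = 0
      rw [map_sub, map_sub, hcutζ]
      show lam j - -((ec w N j / N) • lam 3) - cut S (zc j) = 0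
      refine Fin.lastCases ?_ (fun i => ?_) j
      · show lam 3 - -((ec w N 3 / N) • lam 3) - cut S (zc 3) = 0
        have e3 : ec w N 3 / (N : ℂ) = -1 := by
          show -(N : ℂ) / N = -1
          rw [neg_div, div_self hNC]
        rw [hzc3, map_zero, e3, neg_smul, one_smul]
        abel
      · rw [hzcj, hcutzc]
        have e3 : ec w N i.castSucc = (w i : ℂ) := by
          fin_cases i <;> rfl
        rw [e3]
        show lam i.castSucc - -(((w i : ℂ) / N) • lam 3) -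
          (lam i.castSucc + ((w i : ℂ) / N) • lam 3) = 0
        abel
  · rw [CRC_bd_sub, CRC_bd_sub, bd_bd2, hη1b, sub_zero, CRC_bd4]
    have e1 : (fun j : Fin 3 => zc j.castSucc) = curl3 F univ s0 z := funext hzcj
    rw [e1, bd_curl3, hzc3, map_zero, add_zero, sub_zero]

end Pool.Agent.H37.SM
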