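import Pool.Agent.H37.SM.EX2

/-! Module CRN: crossing the critical level of a non-compact facet. -/

set_option autoImplicit false

namespace Pool.Agent.H37.SM

open Finset

variable {r : ℕ} {F : Dat r} {w : Fin 3 → ℤ} {N : ℤ}

namespace CRN

lemma suppIn_bd {ι : Type*} [Fintype ι] {B : Finset (Fin r)} {X : Set Pt}
    (hX : Closed F B X) (s : ℂ) (c : ι → Fin 4 → ℂ) (η : ι → LL) (h : ∀ j, SuppIn X (η j)) :
    SuppIn X (bd F B s c η) := SuppIn.sum fun i _ => (h i).D hX s (c i)

lemma suppIn_bd2 {ι : Type*} [Fintype ι] {B : Finset (Fin r)} {X : Set Pt}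
    (hX : Closed F B X) (s : ℂ) (c : ι → Fin 4 → ℂ) (ζ : ι → ι → LL)
    (h : ∀ i j, SuppIn X (ζ i j)) (j : ι) :
    SuppIn X (bd2 F B s c ζ j) := SuppIn.sum fun i _ => ((h i j).sub (h j i)).D hX s (c i)

lemma bd_sub {ι : Type*} [Fintype ι] {B : Finset (Fin r)} (s : ℂ) (c : ι → Fin 4 → ℂ)
    (η ξ : ι → LL) :
    bd F B s c (fun j => η j - ξ j) = bd F B s c η - bd F B s c ξ := by
  unfold bd
  rw [← Finset.sum_sub_distrib]
  exact Finset.sum_congr rfl fun i _ => map_sub _ _ _

lemma bd_smul {ι : Type*} [Fintype ι] {B : Finset (Fin r)} (s : ℂ) (c : ι → Fin 4 → ℂ)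
    (z : ℂ) (η : ι → LL) :
    bd F B s c (fun j => z • η j) = z • bd F B s c η := by
  unfold bd
  rw [Finset.smul_sum]
  exact Finset.sum_congr rfl fun i _ => map_smul _ _ _

lemma gt_of_ge {kF : ℤ} {η : LL} (h : SuppIn {p | kF ≤ ell w N p} η)
    (h0 : cut (slice w N kF) η = 0) : SuppIn {p | kF < ell w N p} η := by
  intro p hp
  have h1 : kF ≤ ell w N p := h p hp
  rcases lt_or_eq_of_le h1 with h2 | h2
  · exact h2
  · exfalso
    apply hp
    have h3 : cf (cut (slice w N kF) η) p = cf η p := cf_cut_of_mem (show ell w N p = kF from h2.symm) η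
    rw [← h3, h0]; rfl

lemma cut_gt {kF : ℤ} {η : LL} (h : SuppIn {p | kF < ell w N p} η) :
    cut (slice w N kF) η = 0 := by
  apply ext_cf; intro p
  by_cases hp : p ∈ slice w N kF
  · rw [cf_cut_of_mem hp, cf_zero]
    apply h.cf_eq
    intro h1
    have h2 : ell w N p = kF := hp
    have h3 : kF < ell w N p := h1
    omega
  · rw [cf_cut_of_notMem hp, cf_zero]

lemma univ_inter_face (F : Dat r) (w : Fin 3 → ℤ) (N : ℤ) :
    (univ : Finset (Fin r)) ∩ F.face w N = F.face w N := Finset.univ_inter _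

lemma cut_bd {ι : Type*} [Fintype ι] (s : ℂ) (c : ι → Fin 4 → ℂ) (n : ℤ)
    (hmin : ∀ l, 0 ≤ ell w N (F.hat l)) (η : ι → LL)
    (hη : ∀ j, SuppIn {p | n ≤ ell w N p} (η j)) :
    cut (slice w N n) (bd F univ s c η) =
      bd F (F.face w N) s c (fun j => cut (slice w N n) (η j)) := by
  unfold bd
  rw [map_sum]
  refine Finset.sum_congr rfl fun i _ => ?_
  rw [cut_D s (c i) univ n (fun l _ => hmin l) (η i) (hη i), univ_inter_face]

/-- raising both chains and correcting the component `i3` -/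
theorem core {ι : Type*} [Fintype ι] (s0 : ℂ) (kF : ℤ) (hk : (kF : ℂ) + N * s0 = 0)
    (hN : 0 < N) (hmin : ∀ i, 0 ≤ ell w N (F.hat i)) (c : ι → Fin 4 → ℂ) (e : ι → ℂ)
    (hec : ∑ i, e i • c i = ec w N) (i3 : ι) (he3 : e i3 = -(N : ℂ)) (η ξ : ι → LL)
    (hη : SuppIn {p | kF < ell w N p} (bd F univ s0 c η))
    (hξ : SuppIn {p | kF < ell w N p} (bd F univ s0 c ξ - η i3)) :
    ∃ η' : ι → LL, (∀ j, SuppIn {p | kF ≤ ell w N p} (η' j)) ∧
      SuppIn {p | kF < ell w N p} (η' i3) ∧ bd F univ s0 c η' = bd F univ s0 c η := by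
  have hNC : (N : ℂ) ≠ 0 := by exact_mod_cast hN.ne'
  have hnc : ∀ (θ : ι → LL) (n : ℤ), n < kF → (n : ℂ) + N * s0 = 0 →
      ∀ j, SuppIn {p | n < ell w N p} (θ j) := by
    intro θ n hn h
    exfalso
    have h1 : (n : ℂ) = kF := by linear_combination h - hk
    have h2 : n = kF := by exact_mod_cast h1
    omega
  have hsub : {p | kF < ell w N p} ⊆ {p | kF ≤ ell w N p} := by
    intro p hp
    have h1 : kF < ell w N p := hp
    exact h1.le
  obtain ⟨ζ, hζ, -⟩ := raise1 F univ s0 c e w N hec (fun l _ => hmin l) Set.univ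
    (fun _ _ _ _ => trivial) kF η (fun _ _ _ => trivial) (hnc η) (hη.mono hsub)
  set η1 : ι → LL := fun j => η j - bd2 F univ s0 c ζ j with hη1def
  have hη1 : ∀ j, SuppIn {p | kF ≤ ell w N p} (η1 j) := fun j =>
    (hζ j).mono Set.inter_subset_right
  have hb1 : bd F univ s0 c η1 = bd F univ s0 c η := by
    rw [hη1def, bd_sub, bd_bd2, sub_zero]
  set ξ1 : ι → LL := fun i => ξ i - (ζ i i3 - ζ i3 i) with hξ1def
  have hx1 : bd F univ s0 c ξ1 - η1 i3 = bd F univ s0 c ξ - η i3 := by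
    have h1 : bd F univ s0 c ξ1 = bd F univ s0 c ξ - bd2 F univ s0 c ζ i3 := by
      rw [hξ1def, bd_sub]; rfl
    rw [h1]
    show _ - (η i3 - bd2 F univ s0 c ζ i3) = _
    abel
  have hbx1 : SuppIn {p | kF ≤ ell w N p} (bd F univ s0 c ξ1) := by
    have h1 : bd F univ s0 c ξ1 = (bd F univ s0 c ξ - η i3) + η1 i3 := by
      rw [← hx1]; abel
    rw [h1]
    exact (hξ.mono hsub).add (hη1 i3)
  obtain ⟨ζ', hζ', -⟩ := raise1 F univ s0 c e w N hec (fun l _ => hmin l) Set.univ
    (fun _ _ _ _ => trivial) kF ξ1 (fun _ _ _ => trivial) (hnc ξ1) hbx1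
  set ξ2 : ι → LL := fun j => ξ1 j - bd2 F univ s0 c ζ' j with hξ2def
  have hξ2 : ∀ j, SuppIn {p | kF ≤ ell w N p} (ξ2 j) := fun j =>
    (hζ' j).mono Set.inter_subset_right
  have hb2 : bd F univ s0 c ξ2 = bd F univ s0 c ξ1 := by
    rw [hξ2def, bd_sub, bd_bd2, sub_zero]
  have hcl : Closed F univ {p | kF ≤ ell w N p} := closed_ge univ (fun l _ => hmin l) kF
  -- the correction
  set cor : ι → LL := bd2 F univ s0 c (fun i j => e i • ξ2 j) with hcor
  have hcorS : ∀ j, SuppIn {p | kF ≤ ell w N p} (cor j) := fun j =>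
    suppIn_bd2 hcl s0 c _ (fun i j => (hξ2 j).smul _) j
  have hcorE : ∀ j, cor j = D F univ s0 (ec w N) (ξ2 j) - e j • bd F univ s0 c ξ2 := by
    intro j
    rw [hcor, ← hec, D_sum_left]
    unfold bd2 bd
    rw [Finset.smul_sum, ← Finset.sum_sub_distrib]
    refine Finset.sum_congr rfl fun i _ => ?_
    rw [map_sub, map_smul, map_smul]
  refine ⟨fun j => η1 j - (N : ℂ)⁻¹ • cor j, fun j => (hη1 j).sub ((hcorS j).smul _), ?_, ?_⟩
  · apply gt_of_ge ((hη1 i3).sub ((hcorS i3).smul _))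
    have h1 : bd F univ s0 c ξ1 = (bd F univ s0 c ξ - η i3) + η1 i3 := by
      rw [← hx1]; abel
    have h2 : cut (slice w N kF) (bd F univ s0 c ξ1) = cut (slice w N kF) (η1 i3) := by
      rw [h1, map_add, cut_gt hξ, zero_add]
    have h3 : cut (slice w N kF) (D F univ s0 (ec w N) (ξ2 i3)) = 0 := by
      rw [cut_D s0 (ec w N) univ kF (fun l _ => hmin l) (ξ2 i3) (hξ2 i3), univ_inter_face,
        D_ec s0 kF (F.face w N) subset_rfl _ (suppIn_cut _ _), hk, zero_smul]
    have h4 : cut (slice w N kF) (cor i3) = (N : ℂ) • cut (slice w N kF) (η1 i3) := by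
      rw [hcorE, he3, hb2, map_sub, h3, map_smul, h2, zero_sub, neg_smul, neg_neg]
    have h5 : cut (slice w N kF) (η1 i3 - (N : ℂ)⁻¹ • cor i3) =
        cut (slice w N kF) (η1 i3) - (N : ℂ)⁻¹ • cut (slice w N kF) (cor i3) := by
      rw [LinearMap.map_sub, LinearMap.map_smul]
    rw [h5, h4, smul_smul, inv_mul_cancel₀ hNC, one_smul, sub_self]
  · rw [bd_sub, bd_smul, hcor, bd_bd2, smul_zero, sub_zero, hb1]

end CRN

namespace CRN

/-- a chain with zero component `i0` -/
lemma bd_zero {B : Finset (Fin r)} (s : ℂ) (i0 : Fin 4) (θ : Fin 4 → LL) (h : θ i0 = 0) :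
    bd F B s bs θ = bd F B s (fun j : {j : Fin 4 // j ≠ i0} => bs j.1) (fun j => θ j.1) := by
  unfold bd
  rw [Fintype.sum_eq_add_sum_subtype_ne _ i0, h, map_zero, zero_add]

/-- `core` for chains with zero component `i0` -/
theorem core4 (s0 : ℂ) (kF : ℤ) (hk : (kF : ℂ) + N * s0 = 0)
    (hN : 0 < N) (hmin : ∀ i, 0 ≤ ell w N (F.hat i)) (i0 : Fin 3) (h0 : w i0 = 0)
    (η ξ : Fin 4 → LL) (hη0 : η i0.castSucc = 0) (hξ0 : ξ i0.castSucc = 0)
    (hη : SuppIn {p | kF < ell w N p} (bd F univ s0 bs η))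
    (hξ : SuppIn {p | kF < ell w N p} (bd F univ s0 bs ξ - η 3)) :
    ∃ η' : Fin 4 → LL, η' i0.castSucc = 0 ∧ (∀ j, SuppIn {p | kF ≤ ell w N p} (η' j)) ∧
      SuppIn {p | kF < ell w N p} (η' 3) ∧ bd F univ s0 bs η' = bd F univ s0 bs η := by
  have h3 : (3 : Fin 4) ≠ i0.castSucc := by
    intro h
    have := congrArg Fin.val h
    have h4 := i0.isLt
    rw [Fin.val_castSucc] at this
    have h5 : ((3 : Fin 4) : ℕ) = 3 := rfl
    omega
  have hec : ∑ i : {j : Fin 4 // j ≠ i0.castSucc}, (ec w N i.1) • bs i.1 = ec w N := by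
    have h1 : ∑ i : Fin 4, (ec w N i) • bs i = ec w N := by
      funext j
      rw [Finset.sum_apply]
      simp [bs, Pi.single_apply]
    have h2 : ec w N i0.castSucc = 0 := by
      have : ec w N i0.castSucc = (w i0 : ℂ) := by
        fin_cases i0 <;> rfl
      rw [this, h0]; simp
    rw [Fintype.sum_eq_add_sum_subtype_ne _ i0.castSucc, h2, zero_smul, zero_add] at h1
    exact h1
  obtain ⟨θ, h1, h2, h4⟩ := core s0 kF hk hN hmin
    (fun j : {j : Fin 4 // j ≠ i0.castSucc} => bs j.1) (fun j => ec w N j.1) hec ⟨3, h3⟩ rfl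
    (fun j => η j.1) (fun j => ξ j.1) (by rw [← bd_zero s0 i0.castSucc η hη0]; exact hη)
    (by rw [← bd_zero s0 i0.castSucc ξ hξ0]; exact hξ)
  refine ⟨fun j => if h : j ≠ i0.castSucc then θ ⟨j, h⟩ else 0, ?_, ?_, ?_, ?_⟩
  · exact dif_neg (by simp)
  · intro j
    by_cases h : j ≠ i0.castSucc
    · show SuppIn _ (dite _ _ _)
      rw [dif_pos h]; exact h1 _
    · show SuppIn _ (dite _ _ _)
      rw [dif_neg h]; exact suppIn_zero _
  · show SuppIn _ (dite _ _ _)
    rw [dif_pos h3]; exact h2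
  · rw [bd_zero s0 i0.castSucc _ (dif_neg (by simp)), bd_zero s0 i0.castSucc η hη0, ← h4]
    congr 1
    funext j
    exact dif_pos j.2

lemma bd_update {B : Finset (Fin r)} (s : ℂ) (a : Fin 4) (η : Fin 4 → LL) :
    bd F B s bs η = bd F B s bs (Function.update η a 0) + D F B s (bs a) (η a) := by
  rw [bd_zero s a (Function.update η a 0) (Function.update_self _ _ _)]
  unfold bd
  rw [Fintype.sum_eq_add_sum_subtype_ne _ a, add_comm]
  congr 1
  refine Finset.sum_congr rfl fun j _ => ?_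
  show _ = D F B s (bs j.1) (Function.update η a 0 j.1)
  rw [Function.update_of_ne j.2]

lemma exists_lb (φ : Pt → ℤ) (η : LL) : ∃ n0 : ℤ, SuppIn {p | n0 ≤ φ p} η := by
  obtain ⟨n0, hn0⟩ := ((cf_finite η).image φ).bddBelow
  exact ⟨n0, fun p hp => hn0 ⟨p, hp, rfl⟩⟩

lemma exists_lb3 (φ : Pt → ℤ) (y : Fin 3 → LL) : ∃ n0 : ℤ, ∀ j, SuppIn {p | n0 ≤ φ p} (y j) := by
  choose m hm using fun j => exists_lb φ (y j)
  refine ⟨min (m 0) (min (m 1) (m 2)), fun j p hp => ?_⟩
  have h1 : m j ≤ φ p := hm j p hp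
  show min (m 0) (min (m 1) (m 2)) ≤ φ p
  refine le_trans ?_ h1
  fin_cases j
  · exact min_le_left _ _
  · exact (min_le_right _ _).trans (min_le_left _ _)
  · exact (min_le_right _ _).trans (min_le_right _ _)

lemma suppIn_one {X : Set Pt} (h : (0 : Pt) ∈ X) : SuppIn X 1 := by
  have h1 : (1 : LL) = mono 0 := rfl
  rw [h1]; exact suppIn_mono h

lemma suppIn_pow (φ : Pt → ℤ) (hφ : ∀ p q, φ (p + q) = φ p + φ q) (h0 : φ 0 = 0) (μ : Pt)
    (hμ : 1 ≤ φ μ) (b : ℕ) : SuppIn {p | (b : ℤ) ≤ φ p} (mono μ ^ b) := by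
  induction b with
  | zero =>
    rw [pow_zero]
    apply suppIn_one
    show ((0 : ℕ) : ℤ) ≤ φ 0
    rw [h0]; rfl
  | succ b ih =>
    rw [pow_succ]
    refine SuppIn.mul ih (suppIn_mono (X := {p | 1 ≤ φ p}) hμ) ?_
    intro p hp q hq
    have h1 : (b : ℤ) ≤ φ p := hp
    have h2 : 1 ≤ φ q := hq
    show ((b + 1 : ℕ) : ℤ) ≤ φ (p + q)
    rw [hφ]; push_cast; omega

lemma suppIn_hx {X : Set Pt} (h0 : (0 : Pt) ∈ X) (hadd : ∀ p ∈ X, ∀ q ∈ X, p + q ∈ X)
    (i0 : Fin 3) (h1 : (Pi.single i0.castSucc 1 : Pt) ∈ X) (h : Polynomial ℂ) :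
    SuppIn X (hx i0 h) := by
  unfold hx
  rw [Polynomial.aeval_eq_sum_range]
  have hpow : ∀ i : ℕ, SuppIn X (mono (Pi.single i0.castSucc 1) ^ i) := by
    intro i
    induction i with
    | zero => rw [pow_zero]; exact suppIn_one h0
    | succ b ih => rw [pow_succ]; exact SuppIn.mul ih (suppIn_mono h1) hadd
  exact SuppIn.sum fun i _ => (hpow i).smul _

lemma ell_zero (w : Fin 3 → ℤ) (N : ℤ) : ell w N 0 = 0 := by simp [ell]

lemma ell_single (w : Fin 3 → ℤ) (N : ℤ) (i0 : Fin 3) :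
    ell w N (Pi.single i0.castSucc 1) = w i0 := by
  fin_cases i0 <;> simp [ell]

lemma curl3_hx (B : Finset (Fin r)) (s : ℂ) (i0 : Fin 3) (q : Polynomial ℂ) (ζ : LL) (j : Fin 3) :
    hx i0 q * curl3 F B s (Pi.single i0 ζ) j = curl3 F B s (Pi.single i0 (hx i0 q * ζ)) j := by
  have hD : ∀ l : Fin 3, l ≠ i0 → D F B s (c3 l) (hx i0 q * ζ) = hx i0 q * D F B s (c3 l) ζ := by
    intro l hl
    apply D_hx
    unfold c3 bs
    rw [Pi.single_apply, if_neg]
    intro h
    exact hl (Fin.castSucc_injective _ h).symm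
  fin_cases i0 <;> fin_cases j <;>
    simp [curl3] <;> exact (hD _ (by decide)).symm

lemma cut_curl3 (s : ℂ) (n : ℤ) (hmin : ∀ l, 0 ≤ ell w N (F.hat l)) (z : Fin 3 → LL)
    (hz : ∀ j, SuppIn (slice w N n) (z j)) (j : Fin 3) :
    cut (slice w N n) (curl3 F univ s z j) = curl3 F (F.face w N) s z j := by
  have h1 : ∀ l j, cut (slice w N n) (D F univ s (c3 l) (z j)) = D F (F.face w N) s (c3 l) (z j) := by
    intro l j
    rw [cut_D s (c3 l) univ n (fun l _ => hmin l) (z j), univ_inter_face, cut_eq_self (hz j)]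
    exact (hz j).mono fun p hp => le_of_eq (show n = ell w N p from (show ell w N p = n from hp).symm)
  fin_cases j <;> simp [curl3, h1]

end CRN

/-- Crossing a critical level of a non-compact facet, modulo terms which are high for `w'`.

Proof. Work with 1-chains whose component `i0` is zero. `z := bd η - D_{i0} η_{i0}` and
`z1 := bd ξ - D_{i0} ξ_{i0}`: by `hη3`, `hξ3` the subtracted terms are supported in `{|w| + N ≤ ℓ_w}`,
so `z`, and `z1 - η 3`, are supported in `{|w| ≤ ℓ_w}`. Raise (with `e = (w,-N)`, whose component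
`i0` is `0`, in the family `bs` restricted to `j ≠ i0`, or simply `raise1` for
`ι = {j : Fin 4 // j ≠ i0.castSucc}`) both chains to `{kF ≤ ℓ_w}` as in `cross_compact` (1),(2). Lowest
parts `λ`, `x`; `λ' j = λ j + (w_j/N) λ 3`, `j ≠ i0`, satisfies `∑_{j≠i0} D_j λ'_j = 0` (`N D_3 =
∑_{j ≠ i0} w_j D_j` on the slice). `nch`, `exact2`: `h^M λ'_j = curl3 (single ζ) j`. Let
`q ∈ ℂ[x]` with `q h^M = 1 + x^b r` (`h(0) = 1`), `b` so large that `x_{i0}^b λ'_j` and all its
`D`-images are supported in `{n < ℓ_{w'}}`. Then `λ'_j = curl3 (single (q ζ))_j - x^b r λ'_j`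
(`D_hx`). Define `η''` as in `cross_compact` (4) with `z = Pi.single i0 (hx q * ζ)` and subtract in
addition the error chain `- x^b r λ'` (components `j ≠ i0, j < 3`), whose boundary is in
`{n < ℓ_{w'}}` (`closed_gt`, `hmin'`). Add back the component `η_{i0}` (support
`{|w| + N ≤ ℓ_w}`, and `kF < |w|`). -/
theorem cross_noncompact (hF : Facet F w N) (i0 : Fin 3) (h0 : w i0 = 0)
    (hpos : ∀ j, j ≠ i0 → 0 < w j) (hN : 0 < N) (hnd : NonDeg F (F.face w N)) (s0 : ℂ) (kF : ℤ)
    (hk : (kF : ℂ) + N * s0 = 0) (hlt : kF < wt w) (c : ℂ) (η ξ : Fin 4 → LL) (G0 G1 : LL)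
    (hG0 : SuppIn {p | wt w ≤ ell w N p} G0) (hG1 : SuppIn {p | wt w ≤ ell w N p} G1)
    (hη3 : SuppIn {p | wt w + N ≤ ell w N p} (η i0.castSucc))
    (hξ3 : SuppIn {p | wt w + N ≤ ell w N p} (ξ i0.castSucc))
    (hη : bd F univ s0 bs η = mono one4 + G0)
    (hξ : bd F univ s0 bs ξ = c • mono one4 + G1 + η 3)
    (w' : Fin 3 → ℤ) (N' : ℤ) (hmin' : ∀ i, 0 ≤ ell w' N' (F.hat i)) (hw' : 0 < w' i0) (n : ℤ) :
    ∃ η' : Fin 4 → LL, (∀ j, SuppIn {p | kF < ell w N p} (η' j)) ∧
      SuppIn {p | n < ell w' N' p} (bd F univ s0 bs η' - (mono one4 + G0)) := by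
  have hmin := hF.min_le
  have h3 : (3 : Fin 4) ≠ i0.castSucc := by
    intro h
    have := congrArg Fin.val h
    have h4 := i0.isLt
    rw [Fin.val_castSucc] at this
    have h5 : ((3 : Fin 4) : ℕ) = 3 := rfl
    omega
  have hsubN : {p : Pt | wt w + N ≤ ell w N p} ⊆ {p | kF < ell w N p} := by
    intro p hp
    have h1 : wt w + N ≤ ell w N p := hp
    show kF < ell w N p
    omega
  have hsubW : {p : Pt | wt w ≤ ell w N p} ⊆ {p | kF < ell w N p} := by
    intro p hp
    have h1 : wt w ≤ ell w N p := hp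
    show kF < ell w N p
    omega
  have hclgt : Closed F univ {p | kF < ell w N p} := closed_gt univ (fun l _ => hmin l) kF
  have hclge : Closed F univ {p | kF ≤ ell w N p} := closed_ge univ (fun l _ => hmin l) kF
  have hone : SuppIn {p | kF < ell w N p} (mono one4) := by
    apply suppIn_mono
    show kF < ell w N one4
    rw [ell_one4]; exact hlt
  have hDη : SuppIn {p | kF < ell w N p} (D F univ s0 (bs i0.castSucc) (η i0.castSucc)) :=
    (hη3.mono hsubN).D hclgt s0 _
  have hDξ : SuppIn {p | kF < ell w N p} (D F univ s0 (bs i0.castSucc) (ξ i0.castSucc)) :=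
    (hξ3.mono hsubN).D hclgt s0 _
  have hbη := CRN.bd_update (F := F) (B := univ) s0 i0.castSucc η
  have hbξ := CRN.bd_update (F := F) (B := univ) s0 i0.castSucc ξ
  obtain ⟨θ, hθ0, hθ, hθ3, hθb⟩ := CRN.core4 (F := F) (w := w) (N := N) s0 kF hk hN hmin i0 h0
    (Function.update η i0.castSucc 0) (Function.update ξ i0.castSucc 0)
    (Function.update_self _ _ _) (Function.update_self _ _ _)
    (by
      have h1 : bd F univ s0 bs (Function.update η i0.castSucc 0) =
          mono one4 + G0 - D F univ s0 (bs i0.castSucc) (η i0.castSucc) := by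
        rw [← hη, hbη]; abel
      rw [h1]
      exact (hone.add (hG0.mono hsubW)).sub hDη)
    (by
      have h1 : bd F univ s0 bs (Function.update ξ i0.castSucc 0) -
          Function.update η i0.castSucc 0 3 =
          c • mono one4 + G1 - D F univ s0 (bs i0.castSucc) (ξ i0.castSucc) := by
        rw [Function.update_of_ne h3]
        have h2 : bd F univ s0 bs (Function.update ξ i0.castSucc 0) =
            c • mono one4 + G1 + η 3 - D F univ s0 (bs i0.castSucc) (ξ i0.castSucc) := by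
          rw [← hξ, hbξ]; abel
        rw [h2]; abel
      rw [h1]
      exact ((hone.smul c).add (hG1.mono hsubW)).sub hDξ)
  -- the lowest part
  set y : Fin 3 → LL := fun j => cut (slice w N kF) (θ j.castSucc) with hy
  have hy0 : y i0 = 0 := by
    show cut (slice w N kF) (θ i0.castSucc) = 0
    rw [hθ0, map_zero]
  have hyS : ∀ j, SuppIn (slice w N kF) (y j) := fun j => suppIn_cut _ _
  have hyb : bd F (F.face w N) s0 c3 y = 0 := by
    have h1 := CRN.cut_bd (F := F) (w := w) (N := N) s0 bs kF hmin θ hθ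
    have h2 : cut (slice w N kF) (bd F univ s0 bs θ) = 0 := by
      rw [hθb]
      apply CRN.cut_gt
      have h4 : bd F univ s0 bs (Function.update η i0.castSucc 0) =
          mono one4 + G0 - D F univ s0 (bs i0.castSucc) (η i0.castSucc) := by
        rw [← hη, hbη]; abel
      rw [h4]
      exact (hone.add (hG0.mono hsubW)).sub hDη
    rw [h2] at h1
    unfold bd at h1 ⊢
    rw [Fin.sum_univ_castSucc] at h1
    have h4 : cut (slice w N kF) (θ (Fin.last 3)) = 0 := CRN.cut_gt hθ3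
    have h5 : D F (F.face w N) s0 (bs (Fin.last 3))
        ((fun j => cut (slice w N kF) (θ j)) (Fin.last 3)) = 0 := by
      show D F (F.face w N) s0 (bs (Fin.last 3)) (cut (slice w N kF) (θ (Fin.last 3))) = 0
      rw [h4, map_zero]
    rw [h5, add_zero] at h1
    exact h1.symm
  obtain ⟨h, g, hh0, hg0, hg⟩ := nch hF i0 h0 hpos hN hnd
  obtain ⟨M, ζ, hζ, hζe⟩ := exact2 hF i0 h0 hpos hN h g hg0 hg s0 kF y hy0 hyS hyb
  -- Bezout
  obtain ⟨n0, hn0⟩ := CRN.exists_lb3 (fun p => ell w' N' p) y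
  obtain ⟨b, hb⟩ : ∃ b : ℕ, n < n0 + b := ⟨(n + 1 - n0).toNat, by omega⟩
  have hcop : IsCoprime (h ^ M) ((Polynomial.X : Polynomial ℂ) ^ b) := by
    apply IsCoprime.pow
    obtain ⟨k, hk'⟩ := Polynomial.X_dvd_sub_C (p := h)
    have h5 : h.coeff 0 = 1 := by
      rw [Polynomial.coeff_zero_eq_eval_zero]; exact hh0
    refine ⟨1, -k, ?_⟩
    rw [h5] at hk'
    have h6 : (Polynomial.C (1 : ℂ)) = 1 := Polynomial.C_1
    rw [h6] at hk'
    linear_combination hk'
  obtain ⟨q, v, hqv⟩ := hcop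
  set err : Fin 3 → LL := fun j => hx i0 (v * Polynomial.X ^ b) * y j with herr
  have hhxmul : ∀ p p' : Polynomial ℂ, hx i0 (p * p') = hx i0 p * hx i0 p' := fun p p' => by
    unfold hx; rw [map_mul]
  have hkey : ∀ j, y j = curl3 F (F.face w N) s0 (Pi.single i0 (hx i0 q * ζ)) j + err j := by
    intro j
    rw [← CRN.curl3_hx, ← hζe j]
    show y j = hx i0 q * (hx i0 (h ^ M) * y j) + hx i0 (v * Polynomial.X ^ b) * y j
    rw [← mul_assoc, ← hhxmul, ← add_mul]
    have h1 : hx i0 (q * h ^ M) + hx i0 (v * Polynomial.X ^ b) = 1 := by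
      have h2 : hx i0 (q * h ^ M + v * Polynomial.X ^ b) = 1 := by
        rw [hqv]; unfold hx; rw [map_one]
      rw [← h2]; unfold hx; rw [map_add]
    rw [h1, one_mul]
  have hxslice : ∀ p : Polynomial ℂ, SuppIn {u | ell w N u = 0} (hx i0 p) := by
    intro p
    apply CRN.suppIn_hx (CRN.ell_zero w N)
    · intro p hp q hq
      have h1 : ell w N p = 0 := hp
      have h2 : ell w N q = 0 := hq
      show ell w N (p + q) = 0
      rw [ell_add, h1, h2, add_zero]
    · show ell w N _ = 0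
      rw [CRN.ell_single, h0]
  have hmulslice : ∀ (p : Polynomial ℂ) (x : LL), SuppIn (slice w N kF) x →
      SuppIn (slice w N kF) (hx i0 p * x) := by
    intro p x hx'
    refine SuppIn.mul (hxslice p) hx' ?_
    intro p hp q hq
    have h1 : ell w N p = 0 := hp
    have h2 : ell w N q = kF := hq
    show ell w N (p + q) = kF
    rw [ell_add, h1, h2, zero_add]
  have herrS : ∀ j, SuppIn (slice w N kF) (err j) := fun j => hmulslice _ _ (hyS j)
  have herr' : ∀ j, SuppIn {p | n < ell w' N' p} (err j) := by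
    intro j
    have h1 : SuppIn {u | 0 ≤ ell w' N' u} (hx i0 v) := by
      apply CRN.suppIn_hx (X := {u | 0 ≤ ell w' N' u})
      · show 0 ≤ ell w' N' 0
        rw [CRN.ell_zero]
      · intro p hp q hq
        have h1 : 0 ≤ ell w' N' p := hp
        have h2 : 0 ≤ ell w' N' q := hq
        show 0 ≤ ell w' N' (p + q)
        rw [ell_add]; omega
      · show 0 ≤ ell w' N' _
        rw [CRN.ell_single]; exact hw'.le
    have h2 : SuppIn {u | (b : ℤ) ≤ ell w' N' u} (hx i0 (Polynomial.X ^ b)) := by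
      have h3 : hx i0 (Polynomial.X ^ b) = mono (Pi.single i0.castSucc 1) ^ b := by
        unfold hx; rw [map_pow, Polynomial.aeval_X]
      rw [h3]
      apply CRN.suppIn_pow (fun p => ell w' N' p) (ell_add w' N') (CRN.ell_zero w' N')
      show 1 ≤ ell w' N' _
      rw [CRN.ell_single]; omega
    have h3 : SuppIn {u | (b : ℤ) ≤ ell w' N' u} (hx i0 (v * Polynomial.X ^ b)) := by
      rw [hhxmul]
      refine h1.mul h2 ?_
      intro p hp q hq
      have h1 : 0 ≤ ell w' N' p := hp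
      have h2 : (b : ℤ) ≤ ell w' N' q := hq
      show (b : ℤ) ≤ ell w' N' (p + q)
      rw [ell_add]; omega
    refine h3.mul (hn0 j) ?_
    intro p hp q hq
    have h1 : (b : ℤ) ≤ ell w' N' p := hp
    have h2 : n0 ≤ ell w' N' q := hq
    show n < ell w' N' (p + q)
    rw [ell_add]; omega
  set z : Fin 3 → LL := Pi.single i0 (hx i0 q * ζ) with hz
  have hzS : ∀ j, SuppIn (slice w N kF) (z j) := by
    intro j
    rw [hz]
    by_cases hj : j = i0
    · rw [hj, Pi.single_eq_same]; exact hmulslice _ _ hζ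
    · rw [Pi.single_eq_of_ne hj]; exact suppIn_zero _
  have hslge : slice w N kF ⊆ {p | kF ≤ ell w N p} := by
    intro p hp
    have h1 : ell w N p = kF := hp
    show kF ≤ ell w N p
    omega
  set θ' : Fin 3 → LL := fun j => θ j.castSucc - curl3 F univ s0 z j - err j with hθ'
  have hθ'S : ∀ j, SuppIn {p | kF < ell w N p} (θ' j) := by
    intro j
    apply CRN.gt_of_ge
    · exact ((hθ _).sub (SuppIn_curl3 hclge s0 z (fun j => (hzS j).mono hslge) j)).sub
        ((herrS j).mono hslge)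
    · show cut (slice w N kF) (θ j.castSucc - curl3 F univ s0 z j - err j) = 0
      rw [LinearMap.map_sub, LinearMap.map_sub, CRN.cut_curl3 s0 kF hmin z hzS j,
        cut_eq_self (herrS j)]
      have h1 := hkey j
      have h2 : cut (slice w N kF) (θ j.castSucc) = y j := rfl
      rw [h2]
      nth_rewrite 1 [h1]
      abel
  refine ⟨Fin.snoc (α := fun _ => LL) (fun j => θ' j + if j = i0 then η i0.castSucc else 0) (θ 3),
    ?_, ?_⟩
  · intro j
    refine Fin.lastCases ?_ (fun j => ?_) j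
    · rw [Fin.snoc_last]; exact hθ3
    · rw [Fin.snoc_castSucc]
      refine (hθ'S j).add ?_
      by_cases hj : j = i0
      · rw [if_pos hj]; exact hη3.mono hsubN
      · rw [if_neg hj]; exact suppIn_zero _
  · have h1 : bd F univ s0 bs (Fin.snoc (α := fun _ => LL)
        (fun j => θ' j + if j = i0 then η i0.castSucc else 0) (θ 3)) =
        bd F univ s0 bs θ - bd F univ s0 c3 (curl3 F univ s0 z) - bd F univ s0 c3 err +
          D F univ s0 (bs i0.castSucc) (η i0.castSucc) := by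
      have h2 : D F univ s0 (bs i0.castSucc) (η i0.castSucc) =
          ∑ j : Fin 3, D F univ s0 (c3 j) (if j = i0 then η i0.castSucc else 0) := by
        rw [Finset.sum_eq_single i0]
        · rw [if_pos rfl]; rfl
        · intro j _ hj
          rw [if_neg hj, map_zero]
        · intro hh; exact absurd (Finset.mem_univ _) hh
      rw [h2]
      unfold bd
      rw [Fin.sum_univ_castSucc, Fin.sum_univ_castSucc (fun i => D F univ s0 (bs i) (θ i))]
      simp only [Fin.snoc_castSucc, Fin.snoc_last]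
      have h4 : ∀ j : Fin 3, D F univ s0 (bs j.castSucc)
          (θ' j + if j = i0 then η i0.castSucc else 0) =
          D F univ s0 (bs j.castSucc) (θ j.castSucc) - D F univ s0 (c3 j) (curl3 F univ s0 z j) -
          D F univ s0 (c3 j) (err j) +
          D F univ s0 (c3 j) (if j = i0 then η i0.castSucc else 0) := by
        intro j
        show D F univ s0 (c3 j) (θ j.castSucc - curl3 F univ s0 z j - err j +
          if j = i0 then η i0.castSucc else 0) = _
        rw [LinearMap.map_add, LinearMap.map_sub, LinearMap.map_sub]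
        rfl
      rw [Finset.sum_congr rfl fun j _ => h4 j, Finset.sum_add_distrib, Finset.sum_sub_distrib,
        Finset.sum_sub_distrib]
      have h5 : (Fin.last 3 : Fin 4) = 3 := rfl
      rw [h5]
      abel
    have h2 : bd F univ s0 bs (Fin.snoc (α := fun _ => LL)
        (fun j => θ' j + if j = i0 then η i0.castSucc else 0) (θ 3)) - (mono one4 + G0) =
        - bd F univ s0 c3 err := by
      rw [h1, bd_curl3, hθb, ← hη, hbη]
      abel
    rw [h2]
    exact (CRN.suppIn_bd (closed_gt univ (fun l _ => hmin' l) n) s0 c3 err herr').neg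

end Pool.Agent.H37.SM
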