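import Pool.Agent.H37.SM.PLB
import Pool.Agent.H37.SM.CMB

/-! Module DBL: two adjacent edges cannot both require crossing at a doubly critical vertex. -/

set_option autoImplicit false

namespace Pool.Agent.H37.SM

open Finset

variable {r : ℕ} {F : Dat r} {w : Fin 3 → ℤ} {N : ℤ}

/-- the case of two consecutive edges -/
theorem no_double_core (P : Poly F w N) (hw : Pos3 w) (hN : 0 < N) (s : ℝ)
    (hs : (wt w : ℝ) + N * s = 0) (k : Fin P.m → ℤ) (μ : Pt) (hμ : μ ∈ P.om 3)
    (hg : Good F w N μ) (e : Fin P.m)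
    (hk : (k e : ℝ) + P.eN e * s = 0) (hk' : (k (P.nx e) : ℝ) + P.eN (P.nx e) * s = 0)
    (hlt : k e < wt (P.ew e))
    (hm : P.el e μ ≤ wt (P.ew e) - k e)
    (hm' : P.el (P.nx e) μ ≤ wt (P.ew (P.nx e)) - k (P.nx e))
    (p : Pt) (hp : ell w N p = wt w) (h1 : P.el e p = k e)
    (h2 : P.el (P.nx e) p = k (P.nx e)) : False := by
  have hpv : P.pv (P.nx e) = e := by
    unfold Poly.pv; exact Equiv.symm_apply_apply _ _
  -- positivity at the outer vertices
  have hA : 0 < P.elR (P.nx e) (toR (F.hat (P.v e))) := by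
    rw [P.elR_toR]; exact_mod_cast P.el_nx_pos e
  have hC : 0 < P.elR e (toR (F.hat (P.v (P.nx (P.nx e))))) := by
    rw [P.elR_toR]
    have : 0 < P.el e (F.hat (P.v (P.nx (P.nx e)))) :=
      P.pos _ _ (P.nx_nx_ne e) (P.nx_ne _)
    exact_mod_cast this
  have hspan : ∀ x : Fin 4 → ℝ, ellR w N x = 0 → ∃ α β γ : ℝ,
      x = α • toR (F.hat (P.v e)) + β • toR (F.hat (P.v (P.nx e))) +
        γ • toR (F.hat (P.v (P.nx (P.nx e)))) ∧
      P.elR e x = γ * P.elR e (toR (F.hat (P.v (P.nx (P.nx e))))) ∧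
      P.elR (P.nx e) x = α * P.elR (P.nx e) (toR (F.hat (P.v e))) := by
    intro x hx
    obtain ⟨α, β, γ, h⟩ := P.span3 hw (P.nx e) x hx
    rw [hpv] at h
    refine ⟨α, β, γ, h, ?_, ?_⟩
    · rw [h, P.elR_comb3, P.elR_left, P.elR_right, mul_zero, mul_zero, add_zero, zero_add]
    · rw [h, P.elR_comb3, P.elR_left, P.elR_right, mul_zero, mul_zero, add_zero, add_zero]
  have hN' : (0 : ℝ) < N := by exact_mod_cast hN
  have hwt : (0 : ℝ) < wt w := by
    have h0 := hw 0
    have h1 := hw 1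
    have h2 := hw 2
    have : 0 < wt w := by unfold wt; omega
    exact_mod_cast this
  have hsneg : s < 0 := by
    by_contra hcon
    push Not at hcon
    have := mul_nonneg hN'.le hcon
    linarith
  -- the coordinates of `p`
  have hv0 : ell w N (F.hat (P.v (P.nx e))) = 0 := P.ell_v _
  have hv1 : P.el e (F.hat (P.v (P.nx e))) = 0 := P.el_right e
  have hv2 : P.el (P.nx e) (F.hat (P.v (P.nx e))) = 0 := P.el_left _
  have hq : toR p = ((p 3 : ℝ) - s) • toR (F.hat (P.v (P.nx e))) + Pi.single 3 s := by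
    have hsing : ∀ (w' : Fin 3 → ℤ) (N' : ℤ), ellR w' N' (Pi.single 3 s) = - (N' * s) := by
      intro w' N'
      simp [ellR]
    have e0 : ellR w N (toR p - (((p 3 : ℝ) - s) • toR (F.hat (P.v (P.nx e))) +
        Pi.single 3 s)) = 0 := by
      rw [ellR_sub, ellR_add, ellR_smul, hsing, ellR_toR, ellR_toR, hv0, hp]
      push_cast
      linarith
    have e1 : P.elR e (toR p - (((p 3 : ℝ) - s) • toR (F.hat (P.v (P.nx e))) +
        Pi.single 3 s)) = 0 := by
      unfold Poly.elR
      rw [ellR_sub, ellR_add, ellR_smul, hsing, ellR_toR, ellR_toR]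
      unfold Poly.el at hv1 h1
      rw [hv1, h1]
      push_cast
      linarith
    have e2 : P.elR (P.nx e) (toR p - (((p 3 : ℝ) - s) • toR (F.hat (P.v (P.nx e))) +
        Pi.single 3 s)) = 0 := by
      unfold Poly.elR
      rw [ellR_sub, ellR_add, ellR_smul, hsing, ellR_toR, ellR_toR]
      unfold Poly.el at hv2 h2
      rw [hv2, h2]
      push_cast
      linarith
    obtain ⟨α, β, γ, h, g1, g2⟩ := hspan _ e0
    rw [e1] at g1
    rw [e2] at g2
    have hγ : γ = 0 := (mul_eq_zero.mp g1.symm).resolve_right hC.ne'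
    have hα : α = 0 := (mul_eq_zero.mp g2.symm).resolve_right hA.ne'
    rw [hγ, hα, zero_smul, zero_smul, add_zero, zero_add] at h
    have h3 := congrFun h 3
    simp only [Pi.sub_apply, Pi.add_apply, Pi.smul_apply, smul_eq_mul, toR_three, mul_one,
      Pi.single_eq_same] at h3
    have hp3 : toR p 3 = (p 3 : ℝ) := rfl
    rw [hp3] at h3
    have hβ : β = 0 := by linarith
    rw [hβ, zero_smul] at h
    exact sub_eq_zero.mp h
  have hcoord : ∀ j : Fin 3, (p j.castSucc : ℝ) = ((p 3 : ℝ) - s) *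
      (F.a (P.v (P.nx e)) j : ℝ) := by
    intro j
    have h := congrFun hq j.castSucc
    have hj : (j.castSucc : Fin 4) ≠ 3 := by
      fin_cases j <;> decide
    rw [Pi.add_apply, Pi.smul_apply, Pi.single_eq_of_ne hj, smul_eq_mul, add_zero] at h
    have h' : toR (F.hat (P.v (P.nx e))) j.castSucc = (F.a (P.v (P.nx e)) j : ℝ) := by
      unfold toR
      rw [F.hat_castSucc]
    rw [h'] at h
    exact h
  -- the integral vector `ε`
  let ε : Fin 3 → ℤ := fun j => 1 + p 3 * F.a (P.v (P.nx e)) j - p j.castSucc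
  let εp : Pt := ![ε 0, ε 1, ε 2, 0]
  have hε : ∀ j, (ε j : ℝ) = 1 + s * (F.a (P.v (P.nx e)) j : ℝ) := by
    intro j
    simp only [ε]
    push_cast
    rw [hcoord j]
    ring
  have hell : ∀ (w' : Fin 3 → ℤ) (N' : ℤ), ell w' N' εp =
      wt w' + p 3 * ell w' N' (F.hat (P.v (P.nx e))) - ell w' N' p := by
    intro w' N'
    simp only [εp, ε, ell, wt, Dat.hat_zero, Dat.hat_one, Dat.hat_two, Dat.hat_three,
      Matrix.cons_val_zero, Matrix.cons_val_one, Matrix.cons_val]
    simp only [Fin.castSucc_zero, Fin.castSucc_one]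
    have : (Fin.castSucc 2 : Fin 4) = 2 := rfl
    rw [this]
    ring
  have hεw : ell w N εp = 0 := by rw [hell, hv0, hp]; ring
  have hεe : P.el e εp = wt (P.ew e) - k e := by
    unfold Poly.el at hv1 h1 ⊢
    rw [hell, hv1, h1]; ring
  have hεe' : P.el (P.nx e) εp = wt (P.ew (P.nx e)) - k (P.nx e) := by
    unfold Poly.el at hv2 h2 ⊢
    rw [hell, hv2, h2]; ring
  by_cases hall : ∀ j, 1 ≤ F.a (P.v (P.nx e)) j
  · have hle : ∀ j, ε j ≤ 0 := by
      intro j
      have h3 : (ε j : ℝ) < 1 := by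
        rw [hε j]
        have h4 : (0 : ℝ) < (F.a (P.v (P.nx e)) j : ℝ) := by
          have := hall j
          exact_mod_cast (by omega : 0 < F.a (P.v (P.nx e)) j)
        have := mul_neg_of_neg_of_pos hsneg h4
        linarith
      have : ε j < 1 := by exact_mod_cast h3
      omega
    have h5 : w 0 * ε 0 + w 1 * ε 1 + w 2 * ε 2 = 0 := by
      have := hεw
      simp only [εp, ell, Matrix.cons_val_zero, Matrix.cons_val_one, Matrix.cons_val] at this
      linarith
    have q0 := mul_nonpos_of_nonneg_of_nonpos (hw 0).le (hle 0)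
    have q1 := mul_nonpos_of_nonneg_of_nonpos (hw 1).le (hle 1)
    have q2 := mul_nonpos_of_nonneg_of_nonpos (hw 2).le (hle 2)
    have z0 : ε 0 = 0 := (mul_eq_zero.mp (by linarith : w 0 * ε 0 = 0)).resolve_left (hw 0).ne'
    have z1 : ε 1 = 0 := (mul_eq_zero.mp (by linarith : w 1 * ε 1 = 0)).resolve_left (hw 1).ne'
    have z2 : ε 2 = 0 := (mul_eq_zero.mp (by linarith : w 2 * ε 2 = 0)).resolve_left (hw 2).ne'
    have h6 : P.el e εp = 0 := by
      simp only [εp, Poly.el, ell, Matrix.cons_val_zero, Matrix.cons_val_one, Matrix.cons_val,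
        z0, z1, z2]
      ring
    omega
  · push Not at hall
    obtain ⟨j, hj⟩ := hall
    have hj0 : F.a (P.v (P.nx e)) j = 0 := by
      have := F.a_nonneg (P.v (P.nx e)) j
      omega
    have hμj : 2 ≤ μ j.castSucc := hg j ⟨_, P.v_face _, hj0⟩
    have hεj : ε j = 1 := by
      have := hε j
      rw [hj0] at this
      push_cast at this
      rw [mul_zero, add_zero] at this
      exact_mod_cast this
    have hx0 : ellR w N (toR εp - toR μ) = 0 := by
      rw [ellR_sub, ellR_toR, ellR_toR, hεw, hμ.1]; simp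
    obtain ⟨α, β, γ, h, g1, g2⟩ := hspan _ hx0
    have e1 : 0 ≤ P.elR e (toR εp - toR μ) := by
      have : P.elR e (toR εp - toR μ) = ((P.el e εp - P.el e μ : ℤ) : ℝ) := by
        unfold Poly.elR Poly.el
        rw [ellR_sub, ellR_toR, ellR_toR]; push_cast; ring
      rw [this]
      exact_mod_cast (by omega : 0 ≤ P.el e εp - P.el e μ)
    have e2 : 0 ≤ P.elR (P.nx e) (toR εp - toR μ) := by
      have : P.elR (P.nx e) (toR εp - toR μ) =
          ((P.el (P.nx e) εp - P.el (P.nx e) μ : ℤ) : ℝ) := by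
        unfold Poly.elR Poly.el
        rw [ellR_sub, ellR_toR, ellR_toR]; push_cast; ring
      rw [this]
      exact_mod_cast (by omega : 0 ≤ P.el (P.nx e) εp - P.el (P.nx e) μ)
    rw [g1] at e1
    rw [g2] at e2
    have hγ : 0 ≤ γ := nonneg_of_mul_nonneg_left e1 hC
    have hα : 0 ≤ α := nonneg_of_mul_nonneg_left e2 hA
    have h7 := congrFun h j.castSucc
    have hco : ∀ i, toR (F.hat i) j.castSucc = (F.a i j : ℝ) := by
      intro i
      unfold toR
      rw [F.hat_castSucc]
    simp only [Pi.sub_apply, Pi.add_apply, Pi.smul_apply, smul_eq_mul, hco] at h7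
    rw [hj0] at h7
    have hεj' : toR εp j.castSucc = 1 := by
      have : εp j.castSucc = ε j := by
        fin_cases j <;> rfl
      unfold toR
      rw [this, hεj]; simp
    have hμj' : (2 : ℝ) ≤ toR μ j.castSucc := by
      unfold toR; exact_mod_cast hμj
    have n1 : (0 : ℝ) ≤ (F.a (P.v e) j : ℝ) := by exact_mod_cast F.a_nonneg _ _
    have n2 : (0 : ℝ) ≤ (F.a (P.v (P.nx (P.nx e))) j : ℝ) := by exact_mod_cast F.a_nonneg _ _
    have n3 := mul_nonneg hα n1
    have n4 := mul_nonneg hγ n2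
    rw [hεj'] at h7
    push_cast at h7
    rw [mul_zero] at h7
    linarith

/-- Let `μ` be good, of degree 3, on `ℓ_w = 0`, and let `e ≠ e'` be two edges with critical levels
`k e < |ew e|`, `|ew e| - k e ≥ el e μ`, same for `e'`. Then they do not interfere (`NoDouble`).

Proof. If they have no common exponent we are done. Otherwise (`edge_common`, symmetric) let
`v = v (nx e)`, `e' = nx e` (or exchange the roles of `e`, `e'`). Suppose `p` is on the slice with
`el e p = k e`, `el e' p = k e'`. Put `ε := 1 + s0 v` (real vector; `s0 = -|w|/N` real). Then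
`w·ε = |w| + s0 N = 0`, `ew e·ε = |ew e| + s0 eN e = |ew e| - k e`. The real point
`((p_3 - s0) v, p_3)` has the same values of `ℓ_w, el e, el e'` as `p`; these three functionals and
`p_3` are independent (`span3`: at `e' = nx e` the three vertices `v e`, `v (nx e)`, `v (nx nx e)` span
`ℓ_w = 0`, and `(el e, el e', p_3)` is triangular on them), so `p = ((p_3 - s0) v, p_3)` and
`s0 v = p_3 v - u` is integral: `ε` is an integral vector. If all `v_j ≥ 1` then
`s0 v_j` is a negative integer (`s0 < 0`), `ε_j ≤ 0`, and `w·ε = 0`, `w > 0` give `ε = 0`, so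
`|ew e| - k e = 0`, contradiction. So some `v_j = 0`, `ε_j = 1`, and `μ_j ≥ 2` (`Good`).
`x := (ε, 0) - μ` has `ℓ_w = 0`, `elR e x = |ew e| - k e - el e μ ≥ 0`, same for `e'`: so
`x = c v + α v_e + β v_{nx nx e}` (`span3` at `nx e`) with `α, β ≥ 0` (`el` of the other edges), and
`x_j = α (..)_j + β (..)_j ≥ 0` (`v_j = 0`, exponents are nonnegative): `ε_j ≥ μ_j`, i.e. `1 ≥ 2`. -/
theorem no_double (P : Poly F w N) (hw : Pos3 w) (hN : 0 < N) (s0 : ℂ)
    (hs : (wt w : ℂ) + N * s0 = 0) (k : Fin P.m → ℤ) (μ : Pt) (hμ : μ ∈ P.om 3)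
    (hg : Good F w N μ) (e e' : Fin P.m) (hee : e ≠ e')
    (hk : (k e : ℂ) + P.eN e * s0 = 0) (hk' : (k e' : ℂ) + P.eN e' * s0 = 0)
    (hlt : k e < wt (P.ew e)) (hlt' : k e' < wt (P.ew e'))
    (hm : P.el e μ ≤ wt (P.ew e) - k e) (hm' : P.el e' μ ≤ wt (P.ew e') - k e') :
    NoDouble P k e e' := by
  have hNr : (N : ℝ) ≠ 0 := by exact_mod_cast hN.ne'
  have hNc : (N : ℂ) ≠ 0 := by exact_mod_cast hN.ne'
  let s : ℝ := - (wt w : ℝ) / N
  have hsr : (wt w : ℝ) + N * s = 0 := by
    simp only [s]; field_simp; ring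
  have hss : s0 = (s : ℂ) := by
    have h1 : (wt w : ℂ) + N * (s : ℂ) = 0 := by exact_mod_cast congrArg (fun t : ℝ => (t : ℂ)) hsr
    have h2 : (N : ℂ) * (s0 - s) = 0 := by linear_combination hs - h1
    exact sub_eq_zero.mp ((mul_eq_zero.mp h2).resolve_left hNc)
  have hkr : (k e : ℝ) + P.eN e * s = 0 := by
    rw [hss] at hk
    exact_mod_cast hk
  have hkr' : (k e' : ℝ) + P.eN e' * s = 0 := by
    rw [hss] at hk'
    exact_mod_cast hk'
  by_cases hc : ∀ i ∈ P.edge e, i ∉ P.edge e'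
  · exact Or.inl hc
  · right
    push Not at hc
    obtain ⟨i, hi, hi'⟩ := hc
    intro p hp h1 h2
    rcases P.edge_common hw e e' (Ne.symm hee) i hi hi' with h | h
    · obtain ⟨h, -⟩ := h
      subst h
      exact no_double_core P hw hN s hsr k μ hμ hg e hkr hkr' hlt hm hm' p hp h1 h2
    · obtain ⟨h, -⟩ := h
      have h' : e = P.nx e' := by rw [h, P.nx_pv]
      subst h'
      exact no_double_core P hw hN s hsr k μ hμ hg e' hkr' hkr hlt' hm' hm p hp h2 h1

end Pool.Agent.H37.SM
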