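import Pool.Agent.H37.SM.NCH

/-! Module EX2: exactness for two operators up to powers of `h(x_{i0})`. -/

set_option autoImplicit false

namespace Pool.Agent.H37.SM

open Finset

variable {r : ℕ} {F : Dat r} {w : Fin 3 → ℤ} {N : ℤ}

/-- multiplication by `h(x_{i0})` -/
noncomputable def hx (i0 : Fin 3) (h : Polynomial ℂ) : LL :=
  Polynomial.aeval (mono (Pi.single i0.castSucc 1)) h


/-! #### Helper lemmas (private to this module) -/

namespace EX2

lemma mono_mul_mono (p q : Pt) : mono p * mono q = mono (p + q) := by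
  unfold mono
  rw [AddMonoidAlgebra.single_mul_single, one_mul]

lemma mono_zero : mono 0 = 1 := rfl

lemma mono_pow (p : Pt) (n : ℕ) : mono p ^ n = mono (n • p) := by
  induction n with
  | zero => rw [pow_zero, zero_smul, mono_zero]
  | succ n ih => rw [pow_succ, ih, mono_mul_mono, succ_nsmul]

lemma hx_add (i0 : Fin 3) (a b : Polynomial ℂ) : hx i0 (a + b) = hx i0 a + hx i0 b := by
  unfold hx; rw [map_add]

lemma hx_monomial (i0 : Fin 3) (n : ℕ) (z : ℂ) :
    hx i0 (Polynomial.monomial n z) = z • mono (n • Pi.single i0.castSucc 1) := by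
  unfold hx
  rw [Polynomial.aeval_monomial, mono_pow]
  exact (Algebra.smul_def _ _).symm

lemma hx_mul (i0 : Fin 3) (a b : Polynomial ℂ) : hx i0 (a * b) = hx i0 a * hx i0 b := by
  unfold hx; rw [map_mul]

lemma hx_one (i0 : Fin 3) : hx i0 1 = 1 := by
  unfold hx; rw [map_one]

end EX2

/-- `h(x_{i0})` commutes with `D_c` if `c` does not involve the coordinate `i0`. -/
theorem D_hx (B : Finset (Fin r)) (s : ℂ) (i0 : Fin 3) (c : Fin 4 → ℂ) (hc : c i0.castSucc = 0)
    (h : Polynomial ℂ) (η : LL) : D F B s c (hx i0 h * η) = hx i0 h * D F B s c η := by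
  induction h using Polynomial.induction_on' with
  | add p q hp hq => rw [EX2.hx_add, add_mul, map_add, hp, hq, add_mul]
  | monomial n z =>
    rw [EX2.hx_monomial, smul_mul_assoc, map_smul, D_mono_mul, smul_mul_assoc]
    have h0 : lin c (n • Pi.single i0.castSucc 1) = 0 := by
      unfold lin
      refine Finset.sum_eq_zero fun j _ => ?_
      by_cases hj : j = i0.castSucc
      · rw [hj, hc, zero_mul]
      · rw [Pi.smul_apply, Pi.single_eq_of_ne hj]; simp
    rw [h0, zero_smul, add_zero]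


namespace EX2

/-- multiplication by `h(x_{i0})` preserves sets invariant under translation by `e_{i0}` -/
lemma SuppIn_hx {X : Set Pt} (i0 : Fin 3) (hX : ∀ p ∈ X, ∀ n : ℕ,
    p + n • (Pi.single i0.castSucc 1 : Pt) ∈ X) (h : Polynomial ℂ) (η : LL) (hη : SuppIn X η) :
    SuppIn X (hx i0 h * η) := by
  induction h using Polynomial.induction_on' with
  | add p q hp hq => rw [hx_add, add_mul]; exact hp.add hq
  | monomial n z =>
    rw [hx_monomial, smul_mul_assoc]
    exact (hη.mono_mul fun q hq => hX q hq n).smul z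

lemma cut_hx (X : Set Pt) (i0 : Fin 3) (hX : ∀ p, ∀ n : ℕ,
    p - n • (Pi.single i0.castSucc 1 : Pt) ∈ X ↔ p ∈ X) (h : Polynomial ℂ) (η : LL) :
    cut X (hx i0 h * η) = hx i0 h * cut X η := by
  induction h using Polynomial.induction_on' with
  | add p q hp hq => rw [hx_add, add_mul, map_add, hp, hq, add_mul]
  | monomial n z =>
    rw [hx_monomial, smul_mul_assoc, map_smul, smul_mul_assoc]
    congr 1
    apply ext_cf; intro p
    rw [cf_mono_mul]
    by_cases hp : p ∈ X
    · rw [cf_cut_of_mem hp, cf_mono_mul, cf_cut_of_mem ((hX p n).mpr hp)]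
    · rw [cf_cut_of_notMem hp, cf_cut_of_notMem (fun h => hp ((hX p n).mp h))]

/-- cutting and multiplication by `E` -/
lemma cut_E_mul (B : Finset (Fin r)) (X X' : Set Pt)
    (hXX : ∀ p, ∀ i ∈ B, p ∈ X' ↔ p - F.hat i ∈ X) (c : Fin 4 → ℂ) (η : LL) :
    cut X' (E F B c * η) = E F B c * cut X η := by
  apply ext_cf; intro p
  rw [cf_E_mul]
  by_cases hp : p ∈ X'
  · rw [cf_cut_of_mem hp, cf_E_mul]
    refine Finset.sum_congr rfl fun i hi => ?_
    rw [cf_cut_of_mem ((hXX p i hi).mp hp)]
  · rw [cf_cut_of_notMem hp]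
    symm
    refine Finset.sum_eq_zero fun i hi => ?_
    rw [cf_cut_of_notMem (fun h => hp ((hXX p i hi).mpr h)), mul_zero]

/-- lower bounds are inherited under division by `E_c` -/
lemma lowb (B : Finset (Fin r)) (x : LL) (φ ψ : Pt → ℤ) (hφs : ∀ p q, φ (p - q) = φ p - φ q)
    (hφa : ∀ p q, φ (p + q) = φ p + φ q)
    (hψs : ∀ p q, ψ (p - q) = ψ p - ψ q) (hψa : ∀ p q, ψ (p + q) = ψ p + ψ q)
    (v : Fin r) (hv : v ∈ B) (hφv : φ (F.hat v) = 0)
    (hmin : ∀ i ∈ B, 0 ≤ φ (F.hat i))
    (hmin2 : ∀ i ∈ B, φ (F.hat i) = 0 → ψ (F.hat v) ≤ ψ (F.hat i) ∧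
      (ψ (F.hat v) = ψ (F.hat i) → i = v))
    (c : Fin 4 → ℂ) (hc : lin c (F.hat v) ≠ 0) (n : ℤ) (hx : SuppIn {p | n ≤ φ p} (E F B c * x)) :
    SuppIn {p | n ≤ φ p} x := by
  classical
  intro u0 hu0
  by_contra hlt0
  have hlt0' : φ u0 < n := not_le.mp hlt0
  have hfin : {p | cf x p ≠ 0}.Finite := cf_finite x
  set S : Finset Pt := hfin.toFinset.filter fun p => φ p < n with hS
  have hS' : ∀ p, p ∈ S ↔ cf x p ≠ 0 ∧ φ p < n := by
    intro p; rw [hS, Finset.mem_filter, Set.Finite.mem_toFinset]; rfl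
  have hne : S.Nonempty := ⟨u0, (hS' u0).mpr ⟨hu0, hlt0'⟩⟩
  obtain ⟨u1, hu1, hu1min⟩ := Finset.exists_min_image S φ hne
  set S2 : Finset Pt := S.filter fun p => φ p = φ u1 with hS2
  have hne2 : S2.Nonempty := ⟨u1, by rw [hS2, Finset.mem_filter]; exact ⟨hu1, rfl⟩⟩
  obtain ⟨u, hu, humin⟩ := Finset.exists_min_image S2 ψ hne2
  rw [hS2, Finset.mem_filter] at hu
  have huS := (hS' u).mp hu.1
  have hkey : cf (E F B c * x) (u + F.hat v) = F.κ v * lin c (F.hat v) * cf x u := by
    rw [cf_E_mul, Finset.sum_eq_single v]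
    · rw [add_sub_cancel_right]
    · intro i hi hiv
      by_cases h0 : cf x (u + F.hat v - F.hat i) = 0
      · rw [h0, mul_zero]
      · exfalso
        apply hiv
        have e1 : φ (u + F.hat v - F.hat i) = φ u - φ (F.hat i) := by
          rw [hφs, hφa, hφv, add_zero]
        have hi0 := hmin i hi
        have hmem : u + F.hat v - F.hat i ∈ S := by
          rw [hS']; refine ⟨h0, ?_⟩; rw [e1]; have := huS.2; omega
        have h2 := hu1min _ hmem
        rw [e1] at h2
        have h3 : φ (F.hat i) = 0 := by have := hu.2; omega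
        have hmem2 : u + F.hat v - F.hat i ∈ S2 := by
          rw [hS2, Finset.mem_filter]; refine ⟨hmem, ?_⟩; rw [e1, h3, hu.2]; ring
        have h4 := humin _ hmem2
        rw [hψs, hψa] at h4
        have h5 := hmin2 i hi h3
        exact h5.2 (by have := h5.1; omega)
    · intro h; exact absurd hv h
  have hne3 : cf (E F B c * x) (u + F.hat v) ≠ 0 := by
    rw [hkey]; exact mul_ne_zero (mul_ne_zero (F.κ_ne v) hc) huS.1
  have := hx _ hne3
  have h6 : n ≤ φ (u + F.hat v) := this
  rw [hφa, hφv, add_zero] at h6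
  exact absurd huS.2 (not_lt.mpr h6)

lemma curl_i0 (B : Finset (Fin r)) (s : ℂ) (i0 : Fin 3) (ζ : LL) :
    curl3 F B s (Pi.single i0 ζ) i0 = 0 := by
  fin_cases i0 <;> simp [curl3]

lemma curl_i1 (B : Finset (Fin r)) (s : ℂ) (i0 : Fin 3) (ζ : LL) :
    curl3 F B s (Pi.single i0 ζ) (i0 + 1) = D F B s (c3 (i0 + 2)) ζ := by
  fin_cases i0 <;> simp [curl3]

lemma curl_i2 (B : Finset (Fin r)) (s : ℂ) (i0 : Fin 3) (ζ : LL) :
    curl3 F B s (Pi.single i0 ζ) (i0 + 2) = - D F B s (c3 (i0 + 1)) ζ := by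
  fin_cases i0 <;> simp [curl3]

lemma cases3 (i0 j : Fin 3) : j = i0 ∨ j = i0 + 1 ∨ j = i0 + 2 := by
  revert i0 j; decide

lemma ne1 (i0 : Fin 3) : i0 + 1 ≠ i0 := by revert i0; decide
lemma ne2 (i0 : Fin 3) : i0 + 2 ≠ i0 := by revert i0; decide
lemma ne12 (i0 : Fin 3) : i0 + 1 ≠ i0 + 2 := by revert i0; decide

lemma sum3 {M : Type*} [AddCommMonoid M] (i0 : Fin 3) (f : Fin 3 → M) :
    ∑ j, f j = f i0 + (f (i0 + 1) + f (i0 + 2)) := by
  fin_cases i0
  · simp [Fin.sum_univ_three, add_assoc]
  · rw [Fin.sum_univ_three]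
    show f 0 + f 1 + f 2 = f 1 + (f 2 + f 0)
    rw [add_comm (f 0), add_assoc, add_comm (f 0)]
  · rw [Fin.sum_univ_three]
    show f 0 + f 1 + f 2 = f 2 + (f 0 + f 1)
    rw [add_comm]

lemma ell_idx (w : Fin 3 → ℤ) (N : ℤ) (i0 : Fin 3) (p : Pt) :
    ell w N p = w i0 * p i0.castSucc + (w (i0 + 1) * p (i0 + 1).castSucc +
      w (i0 + 2) * p (i0 + 2).castSucc) - N * p 3 := by
  have h := sum3 i0 (fun j => w j * p j.castSucc)
  rw [← h, Fin.sum_univ_three]
  rfl

end EX2

/-- Exactness for the two operators `D_j`, `j ≠ i0`, up to powers of `h`.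

Proof. Let `i1 = i0+1`, `i2 = i0+2`, `B = F.face w N`. Let `V` be the exponent of the face with
smallest `i2`-coordinate and among those smallest `i0`-coordinate, `V'` the one with smallest
`i1`-coordinate and then smallest `i0`-coordinate; put `ℓ_V(p) = V_{i1} p_{i2} - V_{i2} p_{i1}`,
`ℓ_{V'}(p) = p_{i1} V'_{i2} - p_{i2} V'_{i1}`: both are `≥ 0` on the exponents of the face
(on the face `w_{i1} a_{i1} + w_{i2} a_{i2} = N`), `ℓ_V` vanishes exactly on the column of `V`.
(If all exponents of the face are in one column the two functionals vanish on the face; then use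
instead the closed supports given by `p ↦ (p_{i1}, p_{i2}) = ` class modulo the column: see below.)
If `E_{i1} y_{i1} + E_{i2} y_{i2} = 0` and `∑ E_j g_j = h`, then
`x := g_{i2} y_{i1} - g_{i1} y_{i2}` satisfies `h y_{i1} = E_{i2} x`, `h y_{i2} = - E_{i1} x`. Lower
bounds: if `ℓ_V ≥ n` on the supports of the `y` then also on that of `x`: take the point `u` of `x`
with smallest `(ℓ_V, u_{i0})` lexicographically; the coefficient of `E_{ij} x` at `u + V̂` is
`κ_V V_{ij} x(u)`, `V_{i1}` or `V_{i2}` is not zero. Same for `V'`. Under `ℓ_w = κ`, `ℓ_V ≥ n`,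
`ℓ_{V'} ≥ n'` the degree is bounded below:
`(N k + κ) (V_{i1} V'_{i2} - V_{i2} V'_{i1}) = N (ℓ_V + ℓ_{V'})`. Top degree reduction as in `exact1`
(each step multiplies by `h`). Single column: `E_{ij} = V_{ij} A` with `A ≠ 0`; the supports of
`(p_{i1}, p_{i2}) - k (V_{i1},V_{i2})` are unchanged by all operators, and cut out a finite number of
classes on which `D_{i1}, D_{i2}` are `(c_j + V_{ij}(k + A))`; on a class with `c` not a multiple of
`V` a combination is a nonzero scalar (exact); `w·c = κ` is fixed, so if `c = λ V` then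
`λ = κ/N`, both operators are multiples `V_{ij} (k + λ + A)` of one injective operator: exact too
(`k + λ + A` is injective: highest degree part `A y^{(d)} ≠ 0`). This case does not occur for a
facet (`ray` fails: `k = (V_{i2}, -V_{i1})` in the coordinates `i1, i2`), use this. -/
theorem exact2 (hF : Facet F w N) (i0 : Fin 3) (h0 : w i0 = 0) (hpos : ∀ j, j ≠ i0 → 0 < w j)
    (hN : 0 < N) (h : Polynomial ℂ) (g : Fin 3 → LL) (hg : g i0 = 0)
    (hh : ∑ j, E F (F.face w N) (c3 j) * g j = hx i0 h) (s : ℂ) (κ : ℤ) (y : Fin 3 → LL)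
    (hy0 : y i0 = 0) (hy : ∀ j, SuppIn (slice w N κ) (y j))
    (hb : bd F (F.face w N) s c3 y = 0) :
    ∃ (M : ℕ) (ζ : LL), SuppIn (slice w N κ) ζ ∧
      ∀ j, hx i0 (h ^ M) * y j = curl3 F (F.face w N) s (Pi.single i0 ζ) j := by
  classical
  set B := F.face w N with hBdef
  set i1 : Fin 3 := i0 + 1 with hi1
  set i2 : Fin 3 := i0 + 2 with hi2
  have w1 : 0 < w i1 := hpos i1 (EX2.ne1 i0)
  have w2 : 0 < w i2 := hpos i2 (EX2.ne2 i0)
  have hface : ∀ i ∈ B, w i1 * F.a i i1 + w i2 * F.a i i2 = N := by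
    intro i hi
    have h1 := mem_face.mp hi
    rw [EX2.ell_idx w N i0, h0] at h1
    rw [F.hat_castSucc, F.hat_castSucc, F.hat_castSucc, F.hat_three] at h1
    have h1' : w i1 * F.a i i1 + w i2 * F.a i i2 - N = 0 := by
      rw [zero_mul, zero_add, mul_one] at h1; exact h1
    linarith
  have hBne : B.Nonempty := by
    obtain ⟨i, hi⟩ := hF.attained
    exact ⟨i, mem_face.mpr hi⟩
  -- extreme exponents
  have hext : ∀ j : Fin 3, ∃ v ∈ B, (∀ i ∈ B, F.a v j ≤ F.a i j) ∧
      ∀ i ∈ B, F.a i j = F.a v j → F.a v i0 ≤ F.a i i0 := by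
    intro j
    obtain ⟨v1, hv1, hm1⟩ := Finset.exists_min_image B (fun i => F.a i j) hBne
    have hne : (B.filter fun i => F.a i j = F.a v1 j).Nonempty :=
      ⟨v1, Finset.mem_filter.mpr ⟨hv1, rfl⟩⟩
    obtain ⟨v, hv, hm⟩ := Finset.exists_min_image _ (fun i => F.a i i0) hne
    rw [Finset.mem_filter] at hv
    refine ⟨v, hv.1, fun i hi => ?_, fun i hi hij => ?_⟩
    · rw [hv.2]; exact hm1 i hi
    · exact hm i (Finset.mem_filter.mpr ⟨hi, hij.trans hv.2⟩)
  obtain ⟨v, hv, hvmin, hvmin2⟩ := hext i2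
  obtain ⟨v', hv', hvmin', hvmin2'⟩ := hext i1
  -- equality of exponents
  have heq : ∀ i ∈ B, ∀ i' ∈ B, F.a i i0 = F.a i' i0 → (F.a i i1 = F.a i' i1 ∨
      F.a i i2 = F.a i' i2) → i = i' := by
    intro i hi i' hi' ha hb
    have e1 := hface i hi
    have e2 := hface i' hi'
    have hb1 : F.a i i1 = F.a i' i1 ∧ F.a i i2 = F.a i' i2 := by
      rcases hb with hb | hb
      · refine ⟨hb, ?_⟩
        rw [hb] at e1
        have : w i2 * F.a i i2 = w i2 * F.a i' i2 := by linarith
        exact mul_left_cancel₀ w2.ne' this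
      · refine ⟨?_, hb⟩
        rw [hb] at e1
        have : w i1 * F.a i i1 = w i1 * F.a i' i1 := by linarith
        exact mul_left_cancel₀ w1.ne' this
    apply F.inj
    funext j
    rcases EX2.cases3 i0 j with rfl | rfl | rfl
    · exact ha
    · exact hb1.1
    · exact hb1.2
  -- two columns
  have hcol : F.a v' i1 < F.a v i1 := by
    rcases lt_or_ge (F.a v' i1) (F.a v i1) with h | h
    · exact h
    exfalso
    have hle := hvmin' v hv
    have heq1 : F.a v i1 = F.a v' i1 := le_antisymm h hle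
    have heq2 : F.a v i2 = F.a v' i2 := by
      have e1 := hface v hv
      have e2 := hface v' hv'
      rw [heq1] at e1
      have : w i2 * F.a v i2 = w i2 * F.a v' i2 := by linarith
      exact mul_left_cancel₀ w2.ne' this
    -- all exponents have the same column
    have hall : ∀ i ∈ B, F.a i i1 = F.a v i1 ∧ F.a i i2 = F.a v i2 := by
      intro i hi
      have e1 := hface i hi
      have e2 := hface v hv
      have l1 : F.a v i1 ≤ F.a i i1 := by rw [heq1]; exact hvmin' i hi
      have l2 : F.a v i2 ≤ F.a i i2 := hvmin i hi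
      have m1 : w i1 * F.a v i1 ≤ w i1 * F.a i i1 := mul_le_mul_of_nonneg_left l1 w1.le
      have m2 : w i2 * F.a v i2 ≤ w i2 * F.a i i2 := mul_le_mul_of_nonneg_left l2 w2.le
      constructor
      · exact mul_left_cancel₀ w1.ne' (by linarith)
      · exact mul_left_cancel₀ w2.ne' (by linarith)
    obtain ⟨c, hc⟩ := hF.ray (fun j => if j = i1 then (w i1 : ℝ) + 1 else
        if j = i2 then (w i2 : ℝ) else 0) (by
      intro i hi i' hi'
      rw [EX2.sum3 i0, EX2.sum3 i0]
      have n1 : (i0 : Fin 3) ≠ i1 := (EX2.ne1 i0).symm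
      have n2 : (i0 : Fin 3) ≠ i2 := (EX2.ne2 i0).symm
      rw [if_neg n1, if_neg n2]
      rw [(hall i hi).1, (hall i hi).2, (hall i' hi').1, (hall i' hi').2]
      simp only [zero_mul]) (by
      intro j hj
      rcases EX2.cases3 i0 j with rfl | rfl | rfl
      · have n1 : (j : Fin 3) ≠ i1 := (EX2.ne1 j).symm
        have n2 : (j : Fin 3) ≠ i2 := (EX2.ne2 j).symm
        rw [if_neg n1, if_neg n2]
      · exact absurd hj w1.ne'
      · exact absurd hj w2.ne')
    have c1 := hc i1
    have c2 := hc i2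
    have n12 : i2 ≠ i1 := (EX2.ne12 i0).symm
    rw [if_pos rfl] at c1
    rw [if_neg n12, if_pos rfl] at c2
    have w2R : (w i2 : ℝ) ≠ 0 := by exact_mod_cast w2.ne'
    have hc1 : c = 1 := by
      have : (1 : ℝ) * (w i2 : ℝ) = c * (w i2 : ℝ) := by rw [one_mul]; exact c2
      exact (mul_right_cancel₀ w2R this).symm
    rw [hc1, one_mul] at c1
    linarith
  -- the functionals
  set φ : Pt → ℤ := fun p => p i2.castSucc - F.a v i2 * p 3 with hφ
  set φ' : Pt → ℤ := fun p => p i1.castSucc - F.a v' i1 * p 3 with hφ'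
  set ψ : Pt → ℤ := fun p => p i0.castSucc with hψ
  have hφs : ∀ p q, φ (p - q) = φ p - φ q := by
    intro p q; simp only [hφ, Pi.sub_apply]; ring
  have hφa : ∀ p q, φ (p + q) = φ p + φ q := by
    intro p q; simp only [hφ, Pi.add_apply]; ring
  have hφs' : ∀ p q, φ' (p - q) = φ' p - φ' q := by
    intro p q; simp only [hφ', Pi.sub_apply]; ring
  have hφa' : ∀ p q, φ' (p + q) = φ' p + φ' q := by
    intro p q; simp only [hφ', Pi.add_apply]; ring
  have hψs : ∀ p q, ψ (p - q) = ψ p - ψ q := by intro p q; rfl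
  have hψa : ∀ p q, ψ (p + q) = ψ p + ψ q := by intro p q; rfl
  have hφh : ∀ i, φ (F.hat i) = F.a i i2 - F.a v i2 := by
    intro i; simp only [hφ]; rw [F.hat_castSucc, F.hat_three, mul_one]
  have hφh' : ∀ i, φ' (F.hat i) = F.a i i1 - F.a v' i1 := by
    intro i; simp only [hφ']; rw [F.hat_castSucc, F.hat_three, mul_one]
  have hψh : ∀ i, ψ (F.hat i) = F.a i i0 := by
    intro i; simp only [hψ]; rw [F.hat_castSucc]
  -- division keeps lower bounds
  have hdiv : ∀ (x : LL) (n : ℤ), SuppIn {p | n ≤ φ p} (E F B (c3 i1) * x) →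
      SuppIn {p | n ≤ φ p} (E F B (c3 i2) * x) → SuppIn {p | n ≤ φ p} x := by
    intro x n hx1 hx2
    have hm : ∀ i ∈ B, 0 ≤ φ (F.hat i) := fun i hi => by
      rw [hφh]; have := hvmin i hi; omega
    have hm2 : ∀ i ∈ B, φ (F.hat i) = 0 → ψ (F.hat v) ≤ ψ (F.hat i) ∧
        (ψ (F.hat v) = ψ (F.hat i) → i = v) := by
      intro i hi h
      rw [hφh] at h
      rw [hψh, hψh]
      have h' : F.a i i2 = F.a v i2 := by omega
      exact ⟨hvmin2 i hi h', fun h2 => heq i hi v hv h2.symm (Or.inr h')⟩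
    have hv0 : φ (F.hat v) = 0 := by rw [hφh, sub_self]
    by_cases hc1 : F.a v i1 = 0
    · have hc2 : F.a v i2 ≠ 0 := by
        intro h2
        have := hface v hv
        rw [hc1, h2] at this
        simp at this
        omega
      refine EX2.lowb B x φ ψ hφs hφa hψs hψa v hv hv0 hm hm2 (c3 i2) ?_ n hx2
      rw [lin_c3_hat]; exact_mod_cast hc2
    · refine EX2.lowb B x φ ψ hφs hφa hψs hψa v hv hv0 hm hm2 (c3 i1) ?_ n hx1
      rw [lin_c3_hat]; exact_mod_cast hc1
  have hdiv' : ∀ (x : LL) (n : ℤ), SuppIn {p | n ≤ φ' p} (E F B (c3 i1) * x) →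
      SuppIn {p | n ≤ φ' p} (E F B (c3 i2) * x) → SuppIn {p | n ≤ φ' p} x := by
    intro x n hx1 hx2
    have hm : ∀ i ∈ B, 0 ≤ φ' (F.hat i) := fun i hi => by
      rw [hφh']; have := hvmin' i hi; omega
    have hm2 : ∀ i ∈ B, φ' (F.hat i) = 0 → ψ (F.hat v') ≤ ψ (F.hat i) ∧
        (ψ (F.hat v') = ψ (F.hat i) → i = v') := by
      intro i hi h
      rw [hφh'] at h
      rw [hψh, hψh]
      have h' : F.a i i1 = F.a v' i1 := by omega
      exact ⟨hvmin2' i hi h', fun h2 => heq i hi v' hv' h2.symm (Or.inl h')⟩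
    have hv0 : φ' (F.hat v') = 0 := by rw [hφh', sub_self]
    by_cases hc1 : F.a v' i1 = 0
    · have hc2 : F.a v' i2 ≠ 0 := by
        intro h2
        have := hface v' hv'
        rw [hc1, h2] at this
        simp at this
        omega
      refine EX2.lowb B x φ' ψ hφs' hφa' hψs hψa v' hv' hv0 hm hm2 (c3 i2) ?_ n hx2
      rw [lin_c3_hat]; exact_mod_cast hc2
    · refine EX2.lowb B x φ' ψ hφs' hφa' hψs hψa v' hv' hv0 hm hm2 (c3 i1) ?_ n hx1
      rw [lin_c3_hat]; exact_mod_cast hc1
  -- lower bound for the degree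
  have hdeg : ∀ n n' : ℤ, ∃ k0 : ℤ, ∀ p : Pt, ell w N p = κ → n ≤ φ p → n' ≤ φ' p →
      k0 ≤ p 3 := by
    intro n n'
    -- `κ ≥ w1 n' + w2 n - c k`, `c > 0`
    have hcpos : 0 < N - (w i1 * F.a v' i1 + w i2 * F.a v i2) := by
      have e1 := hface v hv
      have : w i1 * F.a v' i1 < w i1 * F.a v i1 := mul_lt_mul_of_pos_left hcol w1
      linarith
    set c := N - (w i1 * F.a v' i1 + w i2 * F.a v i2) with hcdef
    refine ⟨-|w i1 * n' + w i2 * n - κ|, fun p hp h1 h2 => ?_⟩
    rw [EX2.ell_idx w N i0, h0] at hp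
    have h1' : n ≤ p i2.castSucc - F.a v i2 * p 3 := h1
    have h2' : n' ≤ p i1.castSucc - F.a v' i1 * p 3 := h2
    have m1 : w i1 * n' ≤ w i1 * (p i1.castSucc - F.a v' i1 * p 3) :=
      mul_le_mul_of_nonneg_left h2' w1.le
    have m2 : w i2 * n ≤ w i2 * (p i2.castSucc - F.a v i2 * p 3) :=
      mul_le_mul_of_nonneg_left h1' w2.le
    have hp' : w i1 * p i1.castSucc + w i2 * p i2.castSucc - N * p 3 = κ := by
      have : (0 : ℤ) * p i0.castSucc = 0 := zero_mul _
      linarith
    have key : w i1 * n' + w i2 * n - κ ≤ c * p 3 := by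
      rw [hcdef]; nlinarith
    by_contra hlt
    have hlt' : p 3 < -|w i1 * n' + w i2 * n - κ| := not_le.mp hlt
    have hneg : p 3 < 0 := lt_of_lt_of_le hlt' (by simp)
    have h3 : c * p 3 ≤ p 3 := by nlinarith
    have h4 : -|w i1 * n' + w i2 * n - κ| ≤ w i1 * n' + w i2 * n - κ := neg_abs_le _
    linarith
  -- bounds for the given chain
  have hlow : ∀ (φ : Pt → ℤ) (η : LL), ∃ n, SuppIn {p | n ≤ φ p} η := by
    intro φ η
    have hfin := cf_finite η
    rcases (hfin.toFinset).eq_empty_or_nonempty with he | hne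
    · refine ⟨0, fun p hp => ?_⟩
      have : p ∈ hfin.toFinset := (Set.Finite.mem_toFinset _).mpr hp
      rw [he] at this
      exact absurd this (Finset.notMem_empty _)
    · obtain ⟨u, hu, hmin⟩ := Finset.exists_min_image _ φ hne
      exact ⟨φ u, fun p hp => hmin p ((Set.Finite.mem_toFinset _).mpr hp)⟩
  obtain ⟨na, hna⟩ := hlow φ (y i1)
  obtain ⟨nb, hnb⟩ := hlow φ (y i2)
  obtain ⟨na', hna'⟩ := hlow φ' (y i1)
  obtain ⟨nb', hnb'⟩ := hlow φ' (y i2)
  obtain ⟨da, hda⟩ := hlow (fun p => - p 3) (y i1)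
  obtain ⟨db, hdb⟩ := hlow (fun p => - p 3) (y i2)
  set n := min na nb with hn
  set n' := min na' nb' with hn'
  obtain ⟨k0, hk0⟩ := hdeg n n'
  -- the set of the supports
  set X : Set Pt := {p | ell w N p = κ ∧ n ≤ φ p ∧ n' ≤ φ' p} with hX
  have hXtr : ∀ p, ∀ m : ℕ, p - m • (Pi.single i0.castSucc 1 : Pt) ∈ X ↔ p ∈ X := by
    intro p m
    have t1 : ∀ j : Fin 4, j ≠ i0.castSucc →
        (p - m • (Pi.single i0.castSucc 1 : Pt)) j = p j := by
      intro j hj
      rw [Pi.sub_apply, Pi.smul_apply, Pi.single_eq_of_ne hj]; simp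
    have c1 : i1.castSucc ≠ i0.castSucc := fun h => EX2.ne1 i0 (Fin.castSucc_injective _ h)
    have c2 : i2.castSucc ≠ i0.castSucc := fun h => EX2.ne2 i0 (Fin.castSucc_injective _ h)
    have c3' : (3 : Fin 4) ≠ i0.castSucc := by
      intro h; have := congrArg Fin.val h; simp at this; omega
    have g1 : φ (p - m • (Pi.single i0.castSucc 1 : Pt)) = φ p := by
      simp only [hφ]; rw [t1 _ c2, t1 _ c3']
    have g2 : φ' (p - m • (Pi.single i0.castSucc 1 : Pt)) = φ' p := by
      simp only [hφ']; rw [t1 _ c1, t1 _ c3']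
    have g3 : ell w N (p - m • (Pi.single i0.castSucc 1 : Pt)) = ell w N p := by
      rw [EX2.ell_idx w N i0, EX2.ell_idx w N i0 p, h0, t1 _ c1, t1 _ c2, t1 _ c3']; ring
    show (_ ∧ _ ∧ _) ↔ (_ ∧ _ ∧ _)
    rw [g1, g2, g3]
  have hXcl : Closed F B X := by
    intro p hp i hi
    refine ⟨face_closed subset_rfl κ p hp.1 i hi, ?_, ?_⟩
    · rw [hφa, hφh]; have := hvmin i hi; have := hp.2.1; omega
    · rw [hφa', hφh']; have := hvmin' i hi; have := hp.2.2; omega
  have hc3i0 : c3 i1 i0.castSucc = 0 := by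
    unfold c3 bs
    exact Pi.single_eq_of_ne (fun h => EX2.ne1 i0 (Fin.castSucc_injective _ h).symm) 1
  have hc3i0' : c3 i2 i0.castSucc = 0 := by
    unfold c3 bs
    exact Pi.single_eq_of_ne (fun h => EX2.ne2 i0 (Fin.castSucc_injective _ h).symm) 1
  have hgE : E F B (c3 i1) * g i1 + E F B (c3 i2) * g i2 = hx i0 h := by
    rw [← hh, EX2.sum3 i0, hg, mul_zero, zero_add]
  -- the induction
  have main : ∀ dd : ℕ, ∀ y : Fin 3 → LL, y i0 = 0 →
      (∀ j, SuppIn (X ∩ {p | p 3 < k0 + dd}) (y j)) → bd F B s c3 y = 0 →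
      ∃ (M : ℕ) (ζ : LL), SuppIn (slice w N κ) ζ ∧
        ∀ j, hx i0 (h ^ M) * y j = curl3 F B s (Pi.single i0 ζ) j := by
    intro dd
    induction dd with
    | zero =>
      intro y hy0 hy hb
      refine ⟨0, 0, suppIn_zero _, fun j => ?_⟩
      have hyj : y j = 0 := by
        apply ext_cf; intro p
        by_contra hne
        have h1 := hy j p hne
        have h2 := hk0 p h1.1.1 h1.1.2.1 h1.1.2.2
        have h3 : p 3 < k0 + ((0 : ℕ) : ℤ) := h1.2
        push_cast at h3
        omega
      rw [hyj, mul_zero]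
      rcases EX2.cases3 i0 j with rfl | rfl | rfl
      · rw [EX2.curl_i0]
      · rw [EX2.curl_i1, map_zero]
      · rw [EX2.curl_i2, map_zero, neg_zero]
    | succ dd ih =>
      intro y hy0 hy hb
      set d : ℤ := k0 + dd with hd
      have hyX : ∀ j, SuppIn X (y j) := fun j => (hy j).mono Set.inter_subset_left
      have hyd : ∀ j, ∀ p : Pt, d < p 3 → cf (y j) p = 0 := by
        intro j p hp
        by_contra hne
        have h3 : p 3 < k0 + ((dd + 1 : ℕ) : ℤ) := (hy j p hne).2
        push_cast at h3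
        omega
      -- top part
      set yt : Fin 3 → LL := fun j => cut {p | p 3 = d} (y j) with hyt
      have hb' : D F B s (c3 i1) (y i1) + D F B s (c3 i2) (y i2) = 0 := by
        have := hb
        unfold bd at this
        rw [EX2.sum3 i0, hy0, map_zero, zero_add] at this
        exact this
      have hcutE : ∀ (c : Fin 4 → ℂ) (η : LL) (e : ℤ),
          cut {p | p 3 = e + 1} (E F B c * η) = E F B c * cut {p | p 3 = e} η := by
        intro c η e
        apply EX2.cut_E_mul
        intro p i _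
        show p 3 = e + 1 ↔ (p - F.hat i) 3 = e
        rw [Pi.sub_apply, F.hat_three]; constructor <;> intro h <;> omega
      have htop : E F B (c3 i1) * yt i1 + E F B (c3 i2) * yt i2 = 0 := by
        have h1 : cut {p | p 3 = d + 1} (D F B s (c3 i1) (y i1) + D F B s (c3 i2) (y i2)) = 0 := by
          rw [hb', map_zero]
        have h2 : ∀ j : Fin 3, cut {p | p 3 = d + 1} (D F B s (c3 j) (y j)) =
            E F B (c3 j) * yt j := by
          intro j
          rw [D_apply, map_add, hcutE]
          have : cut {p : Pt | p 3 = d + 1} (dg (fun p => lin (c3 j) p - s * c3 j 3) (y j)) = 0 := by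
            apply ext_cf; intro p
            by_cases hp : p ∈ {p : Pt | p 3 = d + 1}
            · rw [cf_cut_of_mem hp, cf_dg, hyd j p (by have : p 3 = d + 1 := hp; omega), mul_zero,
                cf_zero]
            · rw [cf_cut_of_notMem hp, cf_zero]
          rw [this, zero_add]
        rw [map_add, h2, h2] at h1
        exact h1
      set x' : LL := g i2 * yt i1 - g i1 * yt i2 with hx'
      have hE2x' : E F B (c3 i2) * x' = hx i0 h * yt i1 := by
        rw [← hgE, hx']
        linear_combination (- g i1) * htop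
      have hE1x' : E F B (c3 i1) * x' = - (hx i0 h * yt i2) := by
        rw [← hgE, hx']
        linear_combination (g i2) * htop
      set x : LL := cut {p | ell w N p = κ ∧ p 3 = d - 1} x' with hxdef
      have hytX : ∀ j, SuppIn X (yt j) := fun j => (hyX j).cut _
      have hhytX : ∀ j, SuppIn X (hx i0 h * yt j) := by
        intro j
        apply EX2.SuppIn_hx i0 _ h _ (hytX j)
        intro p hp m
        rw [← hXtr _ m, add_sub_cancel_right]; exact hp
      have hhyt3 : ∀ j, SuppIn {p | p 3 = d} (hx i0 h * yt j) := by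
        intro j
        apply EX2.SuppIn_hx i0 _ h _ (suppIn_cut _ _)
        intro p hp m
        have c3' : (3 : Fin 4) ≠ i0.castSucc := by
          intro h; have := congrArg Fin.val h; simp at this; omega
        show (p + m • (Pi.single i0.castSucc 1 : Pt)) 3 = d
        rw [Pi.add_apply, Pi.smul_apply, Pi.single_eq_of_ne c3']
        have : p 3 = d := hp
        simp [this]
      have hcutx : ∀ c : Fin 4 → ℂ, cut {p | ell w N p = κ ∧ p 3 = d} (E F B c * x') =
          E F B c * x := by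
        intro c
        apply EX2.cut_E_mul
        intro p i hi
        show (ell w N p = κ ∧ p 3 = d) ↔ (ell w N (p - F.hat i) = κ ∧ (p - F.hat i) 3 = d - 1)
        rw [ell_sub, mem_face.mp hi, sub_zero, Pi.sub_apply, F.hat_three]
        constructor <;> rintro ⟨h1, h2⟩ <;> exact ⟨h1, by omega⟩
      have hE2x : E F B (c3 i2) * x = hx i0 h * yt i1 := by
        rw [← hcutx, hE2x']
        apply cut_eq_self
        intro p hp
        exact ⟨(hhytX i1 p hp).1, hhyt3 i1 p hp⟩
      have hE1x : E F B (c3 i1) * x = - (hx i0 h * yt i2) := by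
        rw [← hcutx, hE1x', map_neg]
        congr 1
        apply cut_eq_self
        intro p hp
        exact ⟨(hhytX i2 p hp).1, hhyt3 i2 p hp⟩
      have hxX : SuppIn X x := by
        have b1 : SuppIn {p | n ≤ φ p} x := by
          apply hdiv
          · rw [hE1x]; exact ((hhytX i2).mono fun p hp => hp.2.1).neg
          · rw [hE2x]; exact (hhytX i1).mono fun p hp => hp.2.1
        have b2 : SuppIn {p | n' ≤ φ' p} x := by
          apply hdiv'
          · rw [hE1x]; exact ((hhytX i2).mono fun p hp => hp.2.2).neg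
          · rw [hE2x]; exact (hhytX i1).mono fun p hp => hp.2.2
        intro p hp
        exact ⟨(suppIn_cut _ _ p hp).1, b1 p hp, b2 p hp⟩
      have hx3 : SuppIn {p | p 3 = d - 1} x := fun p hp => (suppIn_cut _ _ p hp).2
      -- the new chain
      set yn : Fin 3 → LL := fun j => hx i0 h * y j - curl3 F B s (Pi.single i0 x) j with hyn
      have hbh : bd F B s c3 (fun j => hx i0 h * y j) = 0 := by
        unfold bd
        rw [EX2.sum3 i0]
        simp only [hy0, mul_zero, map_zero, zero_add]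
        rw [D_hx B s i0 _ hc3i0, D_hx B s i0 _ hc3i0', ← mul_add, hb', mul_zero]
      have hbn : bd F B s c3 yn = 0 := by
        have e1 : bd F B s c3 yn = bd F B s c3 (fun j => hx i0 h * y j) -
            bd F B s c3 (curl3 F B s (Pi.single i0 x)) := by
          unfold bd; simp only [hyn, map_sub, Finset.sum_sub_distrib]
        rw [e1, hbh, bd_curl3, sub_zero]
      have hcutd : ∀ j, cut {p : Pt | p 3 = d} (hx i0 h * y j) = hx i0 h * yt j := by
        intro j
        apply EX2.cut_hx
        intro p m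
        have c3' : (3 : Fin 4) ≠ i0.castSucc := by
          intro h; have := congrArg Fin.val h; simp at this; omega
        show (p - m • (Pi.single i0.castSucc 1 : Pt)) 3 = d ↔ p 3 = d
        rw [Pi.sub_apply, Pi.smul_apply, Pi.single_eq_of_ne c3']
        simp
      have hle : ∀ j, SuppIn {p | p 3 ≤ d} (hx i0 h * y j) := by
        intro j
        apply EX2.SuppIn_hx i0
        · intro p hp m
          have c3' : (3 : Fin 4) ≠ i0.castSucc := by
            intro h; have := congrArg Fin.val h; simp at this; omega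
          show (p + m • (Pi.single i0.castSucc 1 : Pt)) 3 ≤ d
          rw [Pi.add_apply, Pi.smul_apply, Pi.single_eq_of_ne c3']
          have : p 3 ≤ d := hp
          simpa using this
        · intro p hp
          by_contra hlt
          exact hp (hyd j p (not_le.mp hlt))
      have hDtop : ∀ (c : Fin 4 → ℂ), ∀ p : Pt, d ≤ p 3 →
          cf (D F B s c x) p = cf (E F B c * x) p := by
        intro c p hp
        rw [D_apply, cf_add, cf_dg]
        have : cf x p = 0 := hx3.cf_eq (fun h => by have : p 3 = d - 1 := h; omega)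
        rw [this, mul_zero, zero_add]
      have hhyX : ∀ j, SuppIn X (hx i0 h * y j) := by
        intro j
        apply EX2.SuppIn_hx i0 _ h _ (hyX j)
        intro p hp m
        rw [← hXtr _ m, add_sub_cancel_right]; exact hp
      have hgo : ∀ (η ξ θ : LL), SuppIn X η → SuppIn {p | p 3 ≤ d} η → SuppIn X ξ →
          (∀ p : Pt, d ≤ p 3 → cf ξ p = cf θ p) → θ = cut {p : Pt | p 3 = d} η →
          SuppIn (X ∩ {p | p 3 < k0 + dd}) (η - ξ) := by
        intro η ξ θ h1 h2 h3 h4 h5 p hp
        refine ⟨h1.sub h3 p hp, ?_⟩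
        by_contra hlt
        have hge : d ≤ p 3 := not_lt.mp hlt
        apply hp
        rw [cf_sub, h4 p hge, h5]
        by_cases hpd : p 3 = d
        · rw [cf_cut_of_mem (show p ∈ {p : Pt | p 3 = d} from hpd), sub_self]
        · rw [cf_cut_of_notMem (show p ∉ {p : Pt | p 3 = d} from hpd), sub_zero]
          exact h2.cf_eq (fun h => by have : p 3 ≤ d := h; omega)
      have hyns : ∀ j, SuppIn (X ∩ {p | p 3 < k0 + dd}) (yn j) := by
        intro j
        rcases EX2.cases3 i0 j with rfl | rfl | rfl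
        · simp only [hyn]
          rw [hy0, mul_zero, EX2.curl_i0, sub_zero]
          exact suppIn_zero _
        · simp only [hyn]
          rw [EX2.curl_i1]
          exact hgo _ _ (E F B (c3 i2) * x) (hhyX _) (hle _) (hxX.D hXcl s _)
            (fun p hp => hDtop _ p hp) (by rw [hE2x, hcutd])
        · simp only [hyn]
          rw [EX2.curl_i2]
          refine hgo _ _ (- (E F B (c3 i1) * x)) (hhyX _) (hle _) (hxX.D hXcl s _).neg
            (fun p hp => by rw [cf_neg, cf_neg]; congr 1; exact hDtop _ p hp) ?_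
          rw [hE1x, neg_neg, hcutd]
      have hyn0 : yn i0 = 0 := by
        simp only [hyn]
        rw [hy0, mul_zero, EX2.curl_i0, sub_zero]
      obtain ⟨M, ζ, hζ, hM⟩ := ih yn hyn0 hyns hbn
      refine ⟨M + 1, ζ + hx i0 (h ^ M) * x, ?_, fun j => ?_⟩
      · refine hζ.add ?_
        have : SuppIn X (hx i0 (h ^ M) * x) := by
          apply EX2.SuppIn_hx i0 _ _ _ hxX
          intro p hp m
          rw [← hXtr _ m, add_sub_cancel_right]; exact hp
        exact this.mono fun p hp => hp.1
      · have hsplit : hx i0 (h ^ (M + 1)) * y j = hx i0 (h ^ M) * yn j +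
            hx i0 (h ^ M) * curl3 F B s (Pi.single i0 x) j := by
          rw [pow_succ, EX2.hx_mul, ← mul_add]
          simp only [hyn]
          rw [sub_add_cancel, mul_assoc]
        rw [hsplit, hM]
        rcases EX2.cases3 i0 j with rfl | rfl | rfl
        · rw [EX2.curl_i0, EX2.curl_i0, EX2.curl_i0, mul_zero, add_zero]
        · rw [EX2.curl_i1, EX2.curl_i1, EX2.curl_i1, map_add]
          congr 1
          exact (D_hx B s i0 _ hc3i0' _ _).symm
        · rw [EX2.curl_i2, EX2.curl_i2, EX2.curl_i2, map_add, neg_add, mul_neg]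
          congr 2
          exact (D_hx B s i0 _ hc3i0 _ _).symm
  -- apply
  set dmax : ℤ := max (-da) (-db) with hdmax
  have hfin : ∀ j, SuppIn (X ∩ {p | p 3 < k0 + ((dmax + 1 - k0).toNat : ℤ)}) (y j) := by
    have hk : dmax + 1 ≤ k0 + ((dmax + 1 - k0).toNat : ℤ) := by
      have := Int.self_le_toNat (dmax + 1 - k0); omega
    intro j
    rcases EX2.cases3 i0 j with rfl | rfl | rfl
    · rw [hy0]; exact suppIn_zero _
    · intro p hp
      refine ⟨⟨hy _ p hp, ?_, ?_⟩, ?_⟩
      · have : na ≤ φ p := hna p hp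
        exact le_trans (min_le_left _ _) this
      · have : na' ≤ φ' p := hna' p hp
        exact le_trans (min_le_left _ _) this
      · have h1 : da ≤ - p 3 := hda p hp
        have h2 : -da ≤ dmax := le_max_left _ _
        show p 3 < _
        omega
    · intro p hp
      refine ⟨⟨hy _ p hp, ?_, ?_⟩, ?_⟩
      · have : nb ≤ φ p := hnb p hp
        exact le_trans (min_le_right _ _) this
      · have : nb' ≤ φ' p := hnb' p hp
        exact le_trans (min_le_right _ _) this
      · have h1 : db ≤ - p 3 := hdb p hp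
        have h2 : -db ≤ dmax := le_max_right _ _
        show p 3 < _
        omega
  exact main _ y hy0 hfin hb

end Pool.Agent.H37.SM
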