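import Mathlib

/-! Module FEI, first part: the algebra in `R[x][τ]`, `R = ℂ[s]`. -/

set_option autoImplicit false

namespace Pool.Agent.H37.SM.FEI

open Finset

/-- `ℂ[s]` -/
abbrev R := Polynomial ℂ

/-- `R[x]` -/
abbrev B := MvPolynomial (Fin 3) R

/-- `ℂ[x]` -/
abbrev A := MvPolynomial (Fin 3) ℂ

/-- `R[x][τ]` -/
abbrev V := Polynomial B

/-- scalars -/
noncomputable def sc (ρ : R) : V := Polynomial.C (MvPolynomial.C ρ)

lemma sc_mul (ρ σ : R) : sc (ρ * σ) = sc ρ * sc σ := by
  simp [sc]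

lemma sc_add (ρ σ : R) : sc (ρ + σ) = sc ρ + sc σ := by
  simp [sc]

/-- coefficientwise derivative -/
noncomputable def dc (i : Fin 3) (v : V) : V :=
  ∑ n ∈ v.support, Polynomial.monomial n (MvPolynomial.pderiv i (v.coeff n))

lemma coeff_dc (i : Fin 3) (v : V) (n : ℕ) :
    (dc i v).coeff n = MvPolynomial.pderiv i (v.coeff n) := by
  unfold dc
  rw [Polynomial.finsetSum_coeff]
  simp only [Polynomial.coeff_monomial]
  rw [Finset.sum_ite_eq']
  split_ifs with h
  · rfl
  · rw [Polynomial.notMem_support_iff.mp h, map_zero]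

lemma dc_add (i : Fin 3) (v w : V) : dc i (v + w) = dc i v + dc i w := by
  ext1 n
  rw [Polynomial.coeff_add, coeff_dc, coeff_dc, coeff_dc, Polynomial.coeff_add, map_add]

lemma dc_C_mul (i : Fin 3) (h : B) (v : V) :
    dc i (Polynomial.C h * v) =
      Polynomial.C (MvPolynomial.pderiv i h) * v + Polynomial.C h * dc i v := by
  ext1 n
  rw [Polynomial.coeff_add, coeff_dc, Polynomial.coeff_C_mul, Polynomial.coeff_C_mul,
    Polynomial.coeff_C_mul, coeff_dc, MvPolynomial.pderiv_mul]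

lemma dc_monomial (i : Fin 3) (n : ℕ) (h : B) :
    dc i (Polynomial.monomial n h) = Polynomial.monomial n (MvPolynomial.pderiv i h) := by
  ext1 k
  rw [coeff_dc, Polynomial.coeff_monomial, Polynomial.coeff_monomial]
  split_ifs <;> simp

variable (f : B)

/-- `δ_i = ∂_i + τ ∂_i f` -/
noncomputable def δ (i : Fin 3) (v : V) : V :=
  dc i v + Polynomial.X * (Polynomial.C (MvPolynomial.pderiv i f) * v)

lemma δ_add (i : Fin 3) (v w : V) : δ f i (v + w) = δ f i v + δ f i w := by
  unfold δ; rw [dc_add]; ring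

lemma δ_C_mul (i : Fin 3) (h : B) (v : V) :
    δ f i (Polynomial.C h * v) =
      Polynomial.C (MvPolynomial.pderiv i h) * v + Polynomial.C h * δ f i v := by
  unfold δ; rw [dc_C_mul]; ring

lemma δ_sc_mul (i : Fin 3) (ρ : R) (v : V) : δ f i (sc ρ * v) = sc ρ * δ f i v := by
  unfold sc
  rw [δ_C_mul, MvPolynomial.pderiv_C, Polynomial.C_0, zero_mul, zero_add]

lemma δ_zero (i : Fin 3) : δ f i 0 = 0 := by
  have h := δ_sc_mul f i 0 0
  have h0 : sc 0 = 0 := by simp [sc]
  rwa [h0, zero_mul, zero_mul] at h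

lemma δ_monomial (i : Fin 3) (n : ℕ) (h : B) :
    δ f i (Polynomial.monomial n h) = Polynomial.monomial n (MvPolynomial.pderiv i h) +
      Polynomial.monomial (n + 1) (MvPolynomial.pderiv i f * h) := by
  unfold δ
  rw [dc_monomial, Polynomial.C_mul_monomial, Polynomial.X_mul_monomial]

/-- `D_0 = (n - 1 - s) + τ f` -/
noncomputable def D0 (v : V) : V :=
  Polynomial.X * Polynomial.derivative v - sc (Polynomial.X + 1) * v +
    Polynomial.X * (Polynomial.C f * v)

lemma D0_add (v w : V) : D0 f (v + w) = D0 f v + D0 f w := by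
  unfold D0; rw [Polynomial.derivative_add]; ring

lemma D0_sub (v w : V) : D0 f (v - w) = D0 f v - D0 f w := by
  unfold D0; rw [Polynomial.derivative_sub]; ring

lemma D0_sc_mul (ρ : R) (v : V) : D0 f (sc ρ * v) = sc ρ * D0 f v := by
  unfold D0
  have : Polynomial.derivative (sc ρ * v) = sc ρ * Polynomial.derivative v := by
    unfold sc; rw [Polynomial.derivative_C_mul]
  rw [this]; ring

lemma D0_zero : D0 f 0 = 0 := by
  unfold D0; rw [Polynomial.derivative_zero]; ring

lemma D0_neg (v : V) : D0 f (-v) = - D0 f v := by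
  unfold D0; rw [Polynomial.derivative_neg]; ring

lemma D0_monomial (n : ℕ) (h : B) :
    D0 f (Polynomial.monomial n h) =
      - (sc (Polynomial.X + 1 - (n : R)) * Polynomial.monomial n h) +
      Polynomial.monomial (n + 1) (h * f) := by
  unfold D0
  have h1 : (Polynomial.X : V) * Polynomial.derivative (Polynomial.monomial n h) =
      sc (n : R) * Polynomial.monomial n h := by
    have : sc (n : R) = (n : V) := by simp [sc]
    rw [this, Polynomial.derivative_monomial]
    rcases n with _ | n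
    · simp
    · rw [Polynomial.X_mul_monomial, ← Polynomial.C_eq_natCast, Polynomial.C_mul_monomial]
      congr 1
      push_cast
      ring
  rw [h1, Polynomial.C_mul_monomial, Polynomial.X_mul_monomial]
  have h2 : sc (Polynomial.X + 1 - (n : R)) = sc (Polynomial.X + 1) - sc (n : R) := by
    simp [sc]
  rw [h2, mul_comm h f]; ring

/-- `(s+1) s ⋯ (s+2-n)` -/
noncomputable def Q (n : ℕ) : R := ∏ i ∈ range n, (Polynomial.X + 1 - (i : R))

lemma Q_succ (n : ℕ) : Q (n + 1) = Q n * (Polynomial.X + 1 - (n : R)) := by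
  unfold Q; rw [Finset.prod_range_succ]

lemma eval_Q (n k : ℕ) : (Q n).eval (k : ℂ) = ((k + 1).descFactorial n : ℂ) := by
  induction n with
  | zero => simp [Q]
  | succ n ih =>
    rw [Q_succ, Polynomial.eval_mul, ih, Nat.descFactorial_succ]
    simp only [Polynomial.eval_sub, Polynomial.eval_add, Polynomial.eval_X, Polynomial.eval_one,
      Polynomial.eval_natCast]
    rcases le_or_gt n (k + 1) with h | h
    · rw [Nat.cast_mul, Nat.cast_sub h]; push_cast; ring
    · rw [Nat.descFactorial_eq_zero_iff_lt.mpr h]; simp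

/-- evaluate `s = k` -/
noncomputable def evk (k : ℕ) : B →+* A := MvPolynomial.map (Polynomial.evalRingHom (k : ℂ))

/-- `Θ_k` -/
noncomputable def Θ (k : ℕ) (v : V) : A :=
  v.sum fun n h => ((k + 1).descFactorial n : A) * (evk k h * evk k f ^ (k + 1 - n))

lemma Θ_add (k : ℕ) (v w : V) : Θ f k (v + w) = Θ f k v + Θ f k w := by
  unfold Θ
  apply Polynomial.sum_add_index
  · intro n; simp
  · intro n a b; rw [map_add]; ring

lemma Θ_monomial (k n : ℕ) (h : B) : Θ f k (Polynomial.monomial n h) =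
    ((k + 1).descFactorial n : A) * (evk k h * evk k f ^ (k + 1 - n)) := by
  unfold Θ
  rw [Polynomial.sum_monomial_index]
  simp

lemma Θ_C_mul (k : ℕ) (g : B) (v : V) : Θ f k (Polynomial.C g * v) = evk k g * Θ f k v := by
  induction v using Polynomial.induction_on' with
  | add p q hp hq => rw [mul_add, Θ_add, Θ_add, hp, hq, mul_add]
  | monomial n h =>
    rw [Polynomial.C_mul_monomial, Θ_monomial, Θ_monomial, map_mul]; ring

lemma Θ_zero (k : ℕ) : Θ f k 0 = 0 := by
  simp [Θ]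

lemma Θ_sum {ι : Type*} (S : Finset ι) (g : ι → V) (k : ℕ) :
    Θ f k (∑ i ∈ S, g i) = ∑ i ∈ S, Θ f k (g i) := by
  classical
  induction S using Finset.induction_on with
  | empty => simp [Θ_zero]
  | insert a S ha ih => rw [Finset.sum_insert ha, Finset.sum_insert ha, Θ_add, ih]

lemma Θ_δ (k : ℕ) (i : Fin 3) (v : V) :
    Θ f k (δ f i v) = MvPolynomial.pderiv i (Θ f k v) := by
  induction v using Polynomial.induction_on' with
  | add p q hp hq => rw [δ_add, Θ_add, Θ_add, hp, hq, map_add]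
  | monomial n h =>
    rw [δ_monomial, Θ_add, Θ_monomial, Θ_monomial, Θ_monomial, Nat.descFactorial_succ]
    have hc : ∀ (m : ℕ) (g : A), MvPolynomial.pderiv i ((m : A) * g) =
        (m : A) * MvPolynomial.pderiv i g := by
      intro m g
      rw [MvPolynomial.pderiv_mul]
      simp
    rw [hc, MvPolynomial.pderiv_mul, MvPolynomial.pderiv_pow, map_mul]
    unfold evk
    rw [MvPolynomial.pderiv_map, MvPolynomial.pderiv_map]
    rw [Nat.cast_mul, Nat.sub_sub (k + 1) n 1]
    ring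

lemma Θ_one (k : ℕ) : Θ f k 1 = evk k f ^ (k + 1) := by
  have := Θ_monomial f k 0 1
  rw [Polynomial.monomial_zero_one] at this
  rw [this]; simp

lemma Θ_iter (k : ℕ) (i : Fin 3) (n : ℕ) (v : V) :
    Θ f k ((δ f i)^[n] v) = (MvPolynomial.pderiv i)^[n] (Θ f k v) := by
  induction n with
  | zero => rfl
  | succ n ih => rw [Function.iterate_succ_apply', Function.iterate_succ_apply', Θ_δ, ih]

/-- pushing a monomial up -/
lemma push (n m : ℕ) (hnm : n ≤ m) (h : B) :
    ∃ y : V, sc (Q m) * Polynomial.monomial n h =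
      sc (Q n) * Polynomial.monomial m (h * f ^ (m - n)) + D0 f y := by
  induction m, hnm using Nat.le_induction with
  | base => exact ⟨0, by rw [D0_zero]; simp⟩
  | succ m hm ih =>
    obtain ⟨y, hy⟩ := ih
    refine ⟨sc (Polynomial.X + 1 - (m : R)) * y -
      sc (Q n) * Polynomial.monomial m (h * f ^ (m - n)), ?_⟩
    have h1 : D0 f (sc (Polynomial.X + 1 - (m : R)) * y -
        sc (Q n) * Polynomial.monomial m (h * f ^ (m - n))) =
        sc (Polynomial.X + 1 - (m : R)) * D0 f y -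
        sc (Q n) * D0 f (Polynomial.monomial m (h * f ^ (m - n))) := by
      rw [D0_sub, D0_sc_mul, D0_sc_mul]
    rw [h1, D0_monomial, Q_succ, sc_mul]
    have h2 : h * f ^ (m + 1 - n) = h * f ^ (m - n) * f := by
      rw [Nat.succ_sub hm, pow_succ]; ring
    rw [h2]
    calc sc (Q m) * sc (Polynomial.X + 1 - (m : R)) * Polynomial.monomial n h
        = sc (Polynomial.X + 1 - (m : R)) * (sc (Q m) * Polynomial.monomial n h) := by ring
      _ = _ := by rw [hy]; ring

lemma push_all (m : ℕ) (v : V) (hv : ∀ n ∈ v.support, n ≤ m) :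
    ∃ y : V, sc (Q m) * v =
      Polynomial.monomial m (∑ n ∈ v.support, MvPolynomial.C (Q n) * (v.coeff n * f ^ (m - n))) +
        D0 f y := by
  classical
  choose! y hy using fun n (hn : n ∈ v.support) => push f n m (hv n hn) (v.coeff n)
  refine ⟨∑ n ∈ v.support, y n, ?_⟩
  have h1 : D0 f (∑ n ∈ v.support, y n) = ∑ n ∈ v.support, D0 f (y n) := by
    generalize v.support = S
    induction S using Finset.induction_on with
    | empty => simp [D0_zero]
    | insert a S ha ih => rw [Finset.sum_insert ha, Finset.sum_insert ha, D0_add, ih]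
  rw [h1, map_sum, ← Finset.sum_add_distrib]
  conv_lhs => rw [v.as_sum_support, Finset.mul_sum]
  refine Finset.sum_congr rfl fun n hn => ?_
  rw [hy n hn]
  unfold sc
  rw [Polynomial.C_mul_monomial]

/-- an element killed by all `Θ_k` is torsion modulo the image of `D_0` -/
theorem torsion (hf : ∀ k, evk k f ≠ 0) (v : V) (hv : ∀ k, Θ f k v = 0) :
    ∃ (m : ℕ) (y : V), sc (Q m) * v = D0 f y := by
  classical
  set m := v.natDegree with hm
  have hle : ∀ n ∈ v.support, n ≤ m := fun n hn => Polynomial.le_natDegree_of_mem_supp n hn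
  obtain ⟨y, hy⟩ := push_all f m v hle
  refine ⟨m, y, ?_⟩
  set q : B := ∑ n ∈ v.support, MvPolynomial.C (Q n) * (v.coeff n * f ^ (m - n)) with hq
  have hq0 : q = 0 := by
    have hev : ∀ k : ℕ, m ≤ k + 1 → evk k q = 0 := by
      intro k hk
      have h1 : evk k q * evk k f ^ (k + 1 - m) = Θ f k v := by
        rw [hq, map_sum, Finset.sum_mul]
        unfold Θ
        rw [Polynomial.sum_def]
        refine Finset.sum_congr rfl fun n hn => ?_
        rw [map_mul, map_mul, map_pow]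
        have h2 : evk k (MvPolynomial.C (Q n)) = ((k + 1).descFactorial n : A) := by
          unfold evk
          rw [MvPolynomial.map_C]
          simp only [Polynomial.coe_evalRingHom]
          rw [eval_Q]
          simp
        rw [h2]
        have h3 : k + 1 - n = (m - n) + (k + 1 - m) := by
          have := hle n hn
          omega
        rw [h3, pow_add]
        ring
      rw [hv k] at h1
      exact (mul_eq_zero.mp h1).resolve_right (pow_ne_zero _ (hf k))
    ext1 u
    rw [MvPolynomial.coeff_zero]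
    apply Polynomial.eq_zero_of_infinite_isRoot
    apply Set.Infinite.mono (s := (fun k : ℕ => (k : ℂ)) '' Set.Ici m)
    · rintro _ ⟨k, hk, rfl⟩
      have hk' : m ≤ k := hk
      have h1 := hev k (by omega)
      have h2 : (evk k q).coeff u = (q.coeff u).eval (k : ℂ) := by
        unfold evk
        rw [MvPolynomial.coeff_map]
        rfl
      show (q.coeff u).eval (k : ℂ) = 0
      rw [← h2, h1]
      simp
    · exact (Set.Ici_infinite m).image (Nat.cast_injective.injOn)
  rw [hy, hq0]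
  simp

/-! ### Peeling -/

/-- weights: `N n ≤ w · u` on the support, for all `(w, N)` with `w` zero on `Z` -/
def Hi (Z : Finset (Fin 3)) (v : V) : Prop :=
  ∀ (w : Fin 3 → ℤ) (N : ℤ), (∀ j, 0 ≤ w j) → (∀ j ∈ Z, w j = 0) →
    (∀ u, f.coeff u ≠ 0 → N ≤ ∑ j, w j * (u j : ℤ)) →
    ∀ n u, (v.coeff n).coeff u ≠ 0 → N * n ≤ ∑ j, w j * (u j : ℤ)

variable {f}

lemma Hi.add {Z : Finset (Fin 3)} {v v' : V} (h : Hi f Z v) (h' : Hi f Z v') :
    Hi f Z (v + v') := by
  intro w N h1 h2 h3 n u hu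
  rw [Polynomial.coeff_add, MvPolynomial.coeff_add] at hu
  by_cases h0 : (v.coeff n).coeff u = 0
  · rw [h0, zero_add] at hu
    exact h' w N h1 h2 h3 n u hu
  · exact h w N h1 h2 h3 n u h0

lemma exists_of_coeff_mul {p q : B} {u : Fin 3 →₀ ℕ} (h : (p * q).coeff u ≠ 0) :
    ∃ a b, a + b = u ∧ p.coeff a ≠ 0 ∧ q.coeff b ≠ 0 := by
  classical
  rw [MvPolynomial.coeff_mul] at h
  obtain ⟨⟨a, b⟩, hab, hne⟩ := Finset.exists_ne_zero_of_sum_ne_zero h
  exact ⟨a, b, Finset.HasAntidiagonal.mem_antidiagonal.mp hab, left_ne_zero_of_mul hne,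
    right_ne_zero_of_mul hne⟩

lemma wsum_nonneg {w : Fin 3 → ℤ} (hw : ∀ j, 0 ≤ w j) (u : Fin 3 →₀ ℕ) :
    0 ≤ ∑ j, w j * (u j : ℤ) :=
  Finset.sum_nonneg fun j _ => mul_nonneg (hw j) (Int.natCast_nonneg _)

lemma wsum_add (w : Fin 3 → ℤ) (u u' : Fin 3 →₀ ℕ) :
    ∑ j, w j * (((u + u') j : ℕ) : ℤ) = ∑ j, w j * (u j : ℤ) + ∑ j, w j * (u' j : ℤ) := by
  rw [← Finset.sum_add_distrib]
  refine Finset.sum_congr rfl fun j _ => ?_
  rw [Finsupp.add_apply]; push_cast; ring

lemma Hi.C_mul {Z : Finset (Fin 3)} {v : V} (h : Hi f Z v) (g : B) :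
    Hi f Z (Polynomial.C g * v) := by
  intro w N h1 h2 h3 n u hu
  rw [Polynomial.coeff_C_mul] at hu
  obtain ⟨a, b, rfl, ha, hb⟩ := exists_of_coeff_mul hu
  have := h w N h1 h2 h3 n b hb
  rw [wsum_add]
  have := wsum_nonneg h1 a
  linarith

lemma Hi.one (Z : Finset (Fin 3)) : Hi f Z 1 := by
  classical
  intro w N h1 h2 h3 n u hu
  rw [Polynomial.coeff_one] at hu
  split_ifs at hu with hn
  · rw [hn]
    simpa using wsum_nonneg h1 u
  · exact absurd (MvPolynomial.coeff_zero _) hu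

lemma Hi.δ {Z : Finset (Fin 3)} {v : V} (h : Hi f Z v) {i : Fin 3} (hi : i ∈ Z) :
    Hi f Z (δ f i v) := by
  intro w N h1 h2 h3 n u hu
  have hwi : w i = 0 := h2 i hi
  have hs : ∀ u' : Fin 3 →₀ ℕ, ∑ j, w j * (((u' + Finsupp.single i 1 : Fin 3 →₀ ℕ) j : ℕ) : ℤ) =
      ∑ j, w j * (u' j : ℤ) := by
    intro u'
    rw [wsum_add]
    have : ∑ j, w j * (((Finsupp.single i 1 : Fin 3 →₀ ℕ) j : ℕ) : ℤ) = 0 := by
      refine Finset.sum_eq_zero fun j _ => ?_
      by_cases hj : i = j
      · rw [← hj, hwi, zero_mul]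
      · rw [Finsupp.single_eq_of_ne (Ne.symm hj)]; simp
    rw [this, add_zero]
  unfold FEI.δ at hu
  rw [Polynomial.coeff_add, MvPolynomial.coeff_add] at hu
  by_cases h0 : ((dc i v).coeff n).coeff u = 0
  · rw [h0, zero_add] at hu
    rcases n with _ | n
    · rw [Polynomial.coeff_X_mul_zero] at hu
      exact absurd (MvPolynomial.coeff_zero _) hu
    · rw [Polynomial.coeff_X_mul, Polynomial.coeff_C_mul] at hu
      obtain ⟨a, b, rfl, ha, hb⟩ := exists_of_coeff_mul hu
      rw [MvPolynomial.coeff_pderiv] at ha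
      have ha' := h3 _ (left_ne_zero_of_mul ha)
      rw [hs] at ha'
      have hb' := h w N h1 h2 h3 n b hb
      rw [wsum_add]
      push_cast
      linarith
  · rw [coeff_dc, MvPolynomial.coeff_pderiv] at h0
    have := h w N h1 h2 h3 n _ (left_ne_zero_of_mul h0)
    rwa [hs] at this

variable (f) in
/-- the elements with a decomposition -/
def PW (i0 i1 : Fin 3) (v : V) : Prop :=
  ∃ (g : B) (η : Fin 3 → V), v = Polynomial.C g + ∑ j, δ f j (η j) ∧
    Hi f {i0} (η i0) ∧ Hi f {i0, i1} (η i1)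

lemma Hi.zero (Z : Finset (Fin 3)) : Hi f Z 0 := by
  intro w N h1 h2 h3 n u hu
  simp at hu

lemma PW.add {i0 i1 : Fin 3} {v v' : V} (h : PW f i0 i1 v) (h' : PW f i0 i1 v') :
    PW f i0 i1 (v + v') := by
  obtain ⟨g, η, h1, h2, h3⟩ := h
  obtain ⟨g', η', h1', h2', h3'⟩ := h'
  refine ⟨g + g', fun j => η j + η' j, ?_, h2.add h2', h3.add h3'⟩
  rw [h1, h1', Polynomial.C_add]
  simp only [δ_add, Finset.sum_add_distrib]
  ring

lemma PW.zero (i0 i1 : Fin 3) : PW f i0 i1 0 :=
  ⟨0, fun _ => 0, by simp [δ_zero], Hi.zero _, Hi.zero _⟩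

lemma PW.C (i0 i1 : Fin 3) (g : B) : PW f i0 i1 (Polynomial.C g) :=
  ⟨g, fun _ => 0, by simp [δ_zero], Hi.zero _, Hi.zero _⟩

lemma PW.sum {i0 i1 : Fin 3} {ι : Type*} (S : Finset ι) (g : ι → V)
    (h : ∀ i ∈ S, PW f i0 i1 (g i)) : PW f i0 i1 (∑ i ∈ S, g i) := by
  classical
  induction S using Finset.induction_on with
  | empty => simpa using PW.zero i0 i1
  | insert a S ha ih =>
    rw [Finset.sum_insert ha]
    exact (h a (Finset.mem_insert_self _ _)).add
      (ih fun i hi => h i (Finset.mem_insert_of_mem hi))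

lemma PW.sc_mul {i0 i1 : Fin 3} {v : V} (h : PW f i0 i1 v) (ρ : R) :
    PW f i0 i1 (sc ρ * v) := by
  obtain ⟨g, η, h1, h2, h3⟩ := h
  refine ⟨MvPolynomial.C ρ * g, fun j => sc ρ * η j, ?_, h2.C_mul _, h3.C_mul _⟩
  rw [h1, mul_add, Finset.mul_sum]
  simp only [δ_sc_mul]
  congr 1
  unfold sc
  rw [← Polynomial.C_mul]

lemma PW.of_δ {i0 i1 : Fin 3} (i : Fin 3) (v : V) (h0 : i = i0 → Hi f {i0} v)
    (h1 : i = i1 → Hi f {i0, i1} v) : PW f i0 i1 (δ f i v) := by
  refine ⟨0, Pi.single i v, ?_, ?_, ?_⟩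
  · rw [Polynomial.C_0, zero_add, Finset.sum_eq_single i]
    · rw [Pi.single_eq_same]
    · intro j _ hj
      rw [Pi.single_eq_of_ne hj, δ_zero]
    · intro h; exact absurd (Finset.mem_univ _) h
  · by_cases h : i = i0
    · rw [h, Pi.single_eq_same]; exact h0 h
    · rw [Pi.single_eq_of_ne (Ne.symm h)]; exact Hi.zero _
  · by_cases h : i = i1
    · rw [h, Pi.single_eq_same]; exact h1 h
    · rw [Pi.single_eq_of_ne (Ne.symm h)]; exact Hi.zero _

/-- one peeling step, iterated -/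
lemma peel {i0 i1 : Fin 3} (i : Fin 3) (v : V)
    (hv : ∀ h : B, PW f i0 i1 (Polynomial.C h * v))
    (h0 : i = i0 → Hi f {i0} v) (h1 : i = i1 → Hi f {i0, i1} v) (n : ℕ) :
    (∀ h : B, PW f i0 i1 (Polynomial.C h * (δ f i)^[n] v)) ∧
      (i = i0 → Hi f {i0} ((δ f i)^[n] v)) ∧ (i = i1 → Hi f {i0, i1} ((δ f i)^[n] v)) := by
  induction n with
  | zero => exact ⟨hv, h0, h1⟩
  | succ n ih =>
    obtain ⟨ih1, ih2, ih3⟩ := ih
    rw [Function.iterate_succ_apply']
    refine ⟨?_, ?_, ?_⟩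
    · intro h
      have e : Polynomial.C h * δ f i ((δ f i)^[n] v) =
          δ f i (Polynomial.C h * (δ f i)^[n] v) +
            Polynomial.C (-MvPolynomial.pderiv i h) * (δ f i)^[n] v := by
        rw [δ_C_mul, Polynomial.C_neg]; ring
      rw [e]
      exact (PW.of_δ i _ (fun hi => (ih2 hi).C_mul _) (fun hi => (ih3 hi).C_mul _)).add
        (ih1 _)
    · intro hi
      exact (ih2 hi).δ (by rw [hi]; exact Finset.mem_singleton_self _)
    · intro hi
      exact (ih3 hi).δ (by rw [hi]; simp)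

lemma Hi.iter {Z : Finset (Fin 3)} {v : V} (h : Hi f Z v) {i : Fin 3} (hi : i ∈ Z) (n : ℕ) :
    Hi f Z ((FEI.δ f i)^[n] v) := by
  induction n with
  | zero => exact h
  | succ n ih => rw [Function.iterate_succ_apply']; exact ih.δ hi

/-- all of `p δ^β 1` decompose -/
lemma peel_all {i0 i1 i2 : Fin 3} (h01 : i0 ≠ i1) (h02 : i2 ≠ i0) (h12 : i2 ≠ i1)
    (n0 n1 n2 : ℕ) (h : B) :
    PW f i0 i1 (Polynomial.C h * (δ f i2)^[n2] ((δ f i1)^[n1] ((δ f i0)^[n0] 1))) := by
  have s0 := peel (f := f) (i0 := i0) (i1 := i1) i0 1 (fun h => by rw [mul_one]; exact PW.C _ _ _)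
    (fun _ => Hi.one _) (fun hi => absurd hi h01) n0
  have s1 := peel (f := f) (i0 := i0) (i1 := i1) i1 ((δ f i0)^[n0] 1) s0.1
    (fun hi => absurd hi.symm h01)
    (fun _ => (Hi.one _).iter (by simp) _) n1
  have s2 := peel (f := f) (i0 := i0) (i1 := i1) i2 ((δ f i1)^[n1] ((δ f i0)^[n0] 1)) s1.1
    (fun hi => absurd hi h02) (fun hi => absurd hi h12) n2
  exact s2.1 h

end Pool.Agent.H37.SM.FEI
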