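import Pool.Agent.H37.SM.Base

/-! The data of a polynomial given by exponents in `Fin 3 →₀ ℕ`. -/

set_option autoImplicit false

namespace Pool.Agent.H37.SM

open Finset

variable {r : ℕ}

/-- the data of a polynomial given by exponents in `Fin 3 →₀ ℕ` -/
def mkDat (a : Fin r → (Fin 3 →₀ ℕ)) (κ : Fin r → ℂ) (ha : Function.Injective a)
    (hκ : ∀ i, κ i ≠ 0) : Dat r where
  a := fun i j => (a i j : ℤ)
  κ := κ
  a_nonneg := fun _ _ => Int.natCast_nonneg _
  κ_ne := hκ
  inj := by
    intro i i' h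
    apply ha
    ext j
    have h1 : ((a i j : ℕ) : ℤ) = (a i' j : ℕ) := congrFun h j
    exact_mod_cast h1

end Pool.Agent.H37.SM
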