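import Pool.Agent.H37.SM.UTL
import Pool.Agent.H37.SM.MkDat
import Pool.Agent.H37.SM.FEIa
import Pool.Agent.H22.Defs

/-! Module FEI: the identity in the Laurent ring that follows from a functional equation. -/

set_option autoImplicit false

namespace Pool.Agent.H37.SM

open Finset

variable {r : ℕ}

namespace FEI

/-! ### Translation to the Laurent ring -/

/-- the point of `x^u τ^n` -/
def pt (u : Fin 3 →₀ ℕ) (n : ℕ) : Pt := ![(u 0 : ℤ), (u 1 : ℤ), (u 2 : ℤ), (n : ℤ) - 1]

lemma pt_castSucc (u : Fin 3 →₀ ℕ) (n : ℕ) (j : Fin 3) : pt u n j.castSucc = (u j : ℤ) := by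
  fin_cases j <;> rfl

lemma pt_three (u : Fin 3 →₀ ℕ) (n : ℕ) : pt u n 3 = (n : ℤ) - 1 := rfl

lemma pt_inj {u u' : Fin 3 →₀ ℕ} {n n' : ℕ} (h : pt u n = pt u' n') : u = u' ∧ n = n' := by
  constructor
  · ext j
    have := congrFun h j.castSucc
    rw [pt_castSucc, pt_castSucc] at this
    exact_mod_cast this
  · have := congrFun h 3
    rw [pt_three, pt_three] at this
    omega

/-- the map to the Laurent ring attached to a functional on `ℂ[s]` -/
noncomputable def Φ (l : R →ₗ[ℂ] ℂ) (v : V) : LL :=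
  ∑ n ∈ v.support, ∑ u ∈ (v.coeff n).support,
    AddMonoidAlgebra.single (pt u n) (l ((v.coeff n).coeff u))

lemma cf_Φ_pt (l : R →ₗ[ℂ] ℂ) (v : V) (u : Fin 3 →₀ ℕ) (n : ℕ) :
    cf (Φ l v) (pt u n) = l ((v.coeff n).coeff u) := by
  classical
  unfold Φ
  rw [cf_sum, Finset.sum_eq_single n]
  · rw [cf_sum, Finset.sum_eq_single u]
    · rw [cf_single, if_pos rfl]
    · intro u' _ hu'
      rw [cf_single, if_neg]
      intro h
      exact hu' (pt_inj h).1.symm
    · intro hu
      rw [MvPolynomial.notMem_support_iff.mp hu, map_zero, cf_single]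
      simp
  · intro n' _ hn'
    rw [cf_sum]
    refine Finset.sum_eq_zero fun u' _ => ?_
    rw [cf_single, if_neg]
    intro h
    exact hn' (pt_inj h).2.symm
  · intro hn
    rw [Polynomial.notMem_support_iff.mp hn]
    simp

lemma cf_Φ_of_not (l : R →ₗ[ℂ] ℂ) (v : V) (p : Pt) (hp : ∀ u n, p ≠ pt u n) :
    cf (Φ l v) p = 0 := by
  classical
  unfold Φ
  rw [cf_sum]
  refine Finset.sum_eq_zero fun n _ => ?_
  rw [cf_sum]
  refine Finset.sum_eq_zero fun u _ => ?_
  rw [cf_single, if_neg (hp u n)]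

lemma ext_Φ {η ξ : LL} (h : ∀ u n, cf η (pt u n) = cf ξ (pt u n))
    (hη : ∀ p, (∀ u n, p ≠ pt u n) → cf η p = 0) (hξ : ∀ p, (∀ u n, p ≠ pt u n) → cf ξ p = 0) :
    η = ξ := by
  apply ext_cf
  intro p
  by_cases hp : ∃ u n, p = pt u n
  · obtain ⟨u, n, rfl⟩ := hp
    exact h u n
  · push Not at hp
    rw [hη p hp, hξ p hp]

lemma Φ_add (l : R →ₗ[ℂ] ℂ) (v w : V) : Φ l (v + w) = Φ l v + Φ l w := by
  apply ext_Φ
  · intro u n
    rw [cf_add, cf_Φ_pt, cf_Φ_pt, cf_Φ_pt, Polynomial.coeff_add, MvPolynomial.coeff_add, map_add]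
  · intro p hp; exact cf_Φ_of_not _ _ _ hp
  · intro p hp; rw [cf_add, cf_Φ_of_not _ _ _ hp, cf_Φ_of_not _ _ _ hp, add_zero]

lemma Φ_monomial (l : R →ₗ[ℂ] ℂ) (n : ℕ) (u : Fin 3 →₀ ℕ) (ρ : R) :
    Φ l (Polynomial.monomial n (MvPolynomial.monomial u ρ)) =
      AddMonoidAlgebra.single (pt u n) (l ρ) := by
  classical
  apply ext_Φ
  · intro u' n'
    rw [cf_Φ_pt, cf_single, Polynomial.coeff_monomial]
    by_cases hn : n = n'
    · subst hn
      rw [if_pos rfl, MvPolynomial.coeff_monomial]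
      by_cases hu : u = u'
      · subst hu; rw [if_pos rfl, if_pos rfl]
      · rw [if_neg hu, if_neg, map_zero]
        intro h; exact hu (pt_inj h).1.symm
    · rw [if_neg hn, if_neg]
      · simp
      · intro h; exact hn (pt_inj h).2.symm
  · intro p hp; exact cf_Φ_of_not _ _ _ hp
  · intro p hp; rw [cf_single, if_neg (hp u n)]

lemma Φ_zero (l : R →ₗ[ℂ] ℂ) : Φ l 0 = 0 := by
  simp [Φ]

lemma Φ_sum {ι : Type*} (l : R →ₗ[ℂ] ℂ) (S : Finset ι) (g : ι → V) :
    Φ l (∑ i ∈ S, g i) = ∑ i ∈ S, Φ l (g i) := by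
  classical
  induction S using Finset.induction_on with
  | empty => simp [Φ_zero]
  | insert a S ha ih => rw [Finset.sum_insert ha, Finset.sum_insert ha, Φ_add, ih]

/-- induction over the monomials -/
lemma V_induction {p : V → Prop} (v : V) (hadd : ∀ v w, p v → p w → p (v + w))
    (hm : ∀ n u ρ, p (Polynomial.monomial n (MvPolynomial.monomial u ρ))) : p v := by
  induction v using Polynomial.induction_on' with
  | add v w hv hw => exact hadd v w hv hw
  | monomial n h =>
    induction h using MvPolynomial.induction_on' with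
    | monomial u ρ => exact hm n u ρ
    | add h h' ih ih' => rw [map_add]; exact hadd _ _ ih ih'

lemma D_single (F : Dat r) (C : Finset (Fin r)) (s : ℂ) (c : Fin 4 → ℂ) (p : Pt) (z : ℂ) :
    D F C s c (AddMonoidAlgebra.single p z) =
      AddMonoidAlgebra.single p ((lin c p - s * c 3) * z) +
        ∑ i ∈ C, AddMonoidAlgebra.single (F.hat i + p) (F.κ i * lin c (F.hat i) * z) := by
  rw [D_apply]
  congr 1
  · apply ext_cf; intro q
    rw [cf_dg, cf_single, cf_single]
    split_ifs with h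
    · rw [h]
    · rw [mul_zero]
  · unfold E
    rw [Finset.sum_mul]
    refine Finset.sum_congr rfl fun i _ => ?_
    rw [AddMonoidAlgebra.single_mul_single]

lemma mono_mul_single (p q : Pt) (z : ℂ) :
    mono p * AddMonoidAlgebra.single q z = AddMonoidAlgebra.single (p + q) z := by
  unfold mono
  rw [AddMonoidAlgebra.single_mul_single, one_mul]

/-- the polynomial over `ℂ[s]` -/
noncomputable def fB (a : Fin r → (Fin 3 →₀ ℕ)) (κ : Fin r → ℂ) : B :=
  ∑ i, MvPolynomial.monomial (a i) (Polynomial.C (κ i))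

variable {a : Fin r → (Fin 3 →₀ ℕ)} {κ : Fin r → ℂ} {ha : Function.Injective a}
    {hκ : ∀ i, κ i ≠ 0}

lemma mkDat_a (i : Fin r) (j : Fin 3) : (mkDat a κ ha hκ).a i j = (a i j : ℤ) := rfl

lemma mkDat_κ (i : Fin r) : (mkDat a κ ha hκ).κ i = κ i := rfl

lemma hat_castSucc' (i : Fin r) (j : Fin 3) :
    (mkDat a κ ha hκ).hat i j.castSucc = (a i j : ℤ) := by
  rw [Dat.hat_castSucc]; rfl

/-- unit vector -/
def ev (j : Fin 3) : Pt := Pi.single j.castSucc 1

lemma pt_ext {p q : Pt} (h : ∀ j : Fin 3, p j.castSucc = q j.castSucc) (h3 : p 3 = q 3) :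
    p = q := by
  funext x
  refine Fin.lastCases ?_ (fun j => h j) x
  exact h3

lemma ev_castSucc (j l : Fin 3) : ev j l.castSucc = if l = j then 1 else 0 := by
  unfold ev
  rw [Pi.single_apply]
  simp only [Fin.castSucc_inj]

lemma ev_three (j : Fin 3) : ev j 3 = 0 := by
  fin_cases j <;> rfl

lemma one4_castSucc (j : Fin 3) : one4 j.castSucc = 1 := by
  fin_cases j <;> rfl

lemma one4_three : one4 3 = 0 := rfl

/-- the relation for the first three operators -/
lemma rel_lt (l : R →ₗ[ℂ] ℂ) (s : ℂ) (j : Fin 3) (v : V) :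
    mono one4 * Φ l (δ (fB a κ) j v) =
      D (mkDat a κ ha hκ) univ s (bs j.castSucc) (mono (one4 - ev j) * Φ l v) := by
  induction v using V_induction with
  | hadd v w hv hw =>
    rw [δ_add, Φ_add, Φ_add, mul_add, mul_add, map_add, hv, hw]
  | hm n u ρ =>
    rw [δ_monomial, Φ_add, Φ_monomial, mono_mul_single, D_single, MvPolynomial.pderiv_monomial,
      Φ_monomial, mul_add, mono_mul_single]
    congr 1
    · have h1 : lin (bs j.castSucc) (one4 - ev j + pt u n) - s * bs j.castSucc 3 = (u j : ℂ) := by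
        rw [lin_bs, Pi.add_apply, Pi.sub_apply, one4_castSucc, ev_castSucc, if_pos rfl,
          pt_castSucc]
        have : bs j.castSucc 3 = 0 := by fin_cases j <;> simp [bs]
        rw [this]
        push_cast; ring
      rw [h1]
      have h2 : l (ρ * (u j : R)) = (u j : ℂ) * l ρ := by
        have : ρ * (u j : R) = (u j : ℂ) • ρ := by
          rw [Polynomial.smul_eq_C_mul, mul_comm]; simp
        rw [this, map_smul, smul_eq_mul]
      rw [h2]
      rcases Nat.eq_zero_or_pos (u j) with hu | hu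
      · rw [hu]; simp
      · congr 1
        apply pt_ext
        · intro l'
          simp only [Pi.add_apply, Pi.sub_apply, one4_castSucc, pt_castSucc, ev_castSucc]
          by_cases hl : l' = j
          · subst hl
            rw [if_pos rfl, Finsupp.tsub_apply, Finsupp.single_eq_same]
            omega
          · rw [if_neg hl, Finsupp.tsub_apply, Finsupp.single_eq_of_ne hl]
            simp
        · simp only [Pi.add_apply, Pi.sub_apply, one4_three, pt_three, ev_three]
          ring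
    · unfold fB
      rw [map_sum, Finset.sum_mul, map_sum, Φ_sum, Finset.mul_sum]
      refine Finset.sum_congr rfl fun i _ => ?_
      rw [MvPolynomial.pderiv_monomial, MvPolynomial.monomial_mul, Φ_monomial, mono_mul_single,
        lin_bs, hat_castSucc']
      have h2 : l (Polynomial.C (κ i) * (a i j : R) * ρ) = κ i * ((a i j : ℤ) : ℂ) * l ρ := by
        have : Polynomial.C (κ i) * (a i j : R) * ρ = (κ i * (a i j : ℂ)) • ρ := by
          rw [Polynomial.smul_eq_C_mul, Polynomial.C_mul]; simp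
        rw [this, map_smul, smul_eq_mul]
        push_cast; ring
      rw [h2]
      show _ = AddMonoidAlgebra.single _ (κ i * ((a i j : ℤ) : ℂ) * l ρ)
      rcases Nat.eq_zero_or_pos (a i j) with hu | hu
      · rw [hu]; simp
      · congr 1
        apply pt_ext
        · intro l'
          simp only [Pi.add_apply, Pi.sub_apply, one4_castSucc, pt_castSucc, ev_castSucc,
            hat_castSucc', Finsupp.add_apply, Finsupp.tsub_apply]
          by_cases hl : l' = j
          · subst hl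
            rw [if_pos rfl, Finsupp.single_eq_same]
            omega
          · rw [if_neg hl, Finsupp.single_eq_of_ne hl]
            push_cast
            simp
            ring
        · simp only [Pi.add_apply, Pi.sub_apply, one4_three, pt_three, ev_three,
            Dat.hat_three]
          push_cast
          ring

/-- the relation for the last operator -/
lemma rel_last (l m : R →ₗ[ℂ] ℂ) (s : ℂ) (hl : ∀ ρ, l (Polynomial.X * ρ) = s * l ρ + m ρ)
    (v : V) :
    mono one4 * Φ l (D0 (fB a κ) v) =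
      D (mkDat a κ ha hκ) univ s (bs 3) (mono one4 * Φ l v) - mono one4 * Φ m v := by
  induction v using V_induction with
  | hadd v w hv hw =>
    rw [D0_add, Φ_add, Φ_add, Φ_add, mul_add, mul_add, mul_add, map_add, hv, hw]
    ring
  | hm n u ρ =>
    rw [D0_monomial, Φ_add, Φ_monomial, Φ_monomial, mono_mul_single, mono_mul_single, D_single,
      mul_add]
    have h1 : lin (bs 3) (one4 + pt u n) - s * bs 3 3 = (n : ℂ) - 1 - s := by
      rw [lin_bs, Pi.add_apply, one4_three, pt_three]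
      simp [bs]
    rw [h1]
    have h2 : Φ l (-(sc (Polynomial.X + 1 - (n : R)) *
        Polynomial.monomial n (MvPolynomial.monomial u ρ))) =
        AddMonoidAlgebra.single (pt u n) (((n : ℂ) - 1 - s) * l ρ - m ρ) := by
      have h3 : -(sc (Polynomial.X + 1 - (n : R)) *
          Polynomial.monomial n (MvPolynomial.monomial u ρ)) =
          Polynomial.monomial n (MvPolynomial.monomial u
            (-(Polynomial.X * ρ) + ((n : ℂ) - 1) • ρ)) := by
        unfold sc
        rw [Polynomial.C_mul_monomial, MvPolynomial.C_mul_monomial, ← Polynomial.monomial_neg]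
        congr 1
        have h8 : ∀ x : R, -(MvPolynomial.monomial u x : B) = MvPolynomial.monomial u (-x) := by
          intro x; simp
        rw [h8]
        congr 1
        rw [Polynomial.smul_eq_C_mul]
        simp
        ring
      rw [h3, Φ_monomial]
      congr 1
      rw [map_add, map_neg, map_smul, hl, smul_eq_mul]
      ring
    rw [h2, mono_mul_single]
    have h4 : AddMonoidAlgebra.single (one4 + pt u n) (((n : ℂ) - 1 - s) * l ρ - m ρ) =
        (AddMonoidAlgebra.single (one4 + pt u n) (((n : ℂ) - 1 - s) * l ρ) : LL) -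
          AddMonoidAlgebra.single (one4 + pt u n) (m ρ) := by
      apply ext_cf; intro q
      rw [cf_sub, cf_single, cf_single, cf_single]
      split_ifs <;> ring
    have h5 : mono one4 * Φ l (Polynomial.monomial (n + 1) (MvPolynomial.monomial u ρ * fB a κ)) =
        ∑ i, AddMonoidAlgebra.single ((mkDat a κ ha hκ).hat i + (one4 + pt u n))
          ((mkDat a κ ha hκ).κ i * lin (bs 3) ((mkDat a κ ha hκ).hat i) * l ρ) := by
      unfold fB
      rw [Finset.mul_sum, map_sum, Φ_sum, Finset.mul_sum]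
      refine Finset.sum_congr rfl fun i _ => ?_
      rw [MvPolynomial.monomial_mul, Φ_monomial, mono_mul_single, lin_bs, Dat.hat_three]
      have h6 : l (ρ * Polynomial.C (κ i)) = (mkDat a κ ha hκ).κ i * ((1 : ℤ) : ℂ) * l ρ := by
        have : ρ * Polynomial.C (κ i) = κ i • ρ := by
          rw [Polynomial.smul_eq_C_mul]; ring
        rw [this, map_smul, smul_eq_mul, mkDat_κ]
        push_cast; ring
      rw [h6]
      congr 1
      apply pt_ext
      · intro l'
        simp only [Pi.add_apply, one4_castSucc, pt_castSucc, hat_castSucc', Finsupp.add_apply]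
        push_cast; ring
      · simp only [Pi.add_apply, one4_three, pt_three, Dat.hat_three]
        push_cast; ring
    rw [h4, h5]
    ring

/-! ### supports -/

lemma supp_Φ {l : R →ₗ[ℂ] ℂ} {v : V} {q : Pt} {p : Pt} (h : cf (mono q * Φ l v) p ≠ 0) :
    ∃ u n, p = pt u n + q ∧ (v.coeff n).coeff u ≠ 0 := by
  rw [cf_mono_mul] at h
  by_cases hp : ∃ u n, p - q = pt u n
  · obtain ⟨u, n, hun⟩ := hp
    refine ⟨u, n, ?_, ?_⟩
    · rw [← hun]; abel
    · rw [hun, cf_Φ_pt] at h
      intro h0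
      rw [h0, map_zero] at h
      exact h rfl
  · push Not at hp
    exact absurd (cf_Φ_of_not l v _ hp) h

lemma supp_G (l : R →ₗ[ℂ] ℂ) (g : B) : SuppIn Gset (mono one4 * Φ l (Polynomial.C g)) := by
  intro p hp
  obtain ⟨u, n, rfl, h⟩ := supp_Φ hp
  rw [Polynomial.coeff_C] at h
  split_ifs at h with hn
  · subst hn
    refine ⟨?_, fun j => ?_⟩
    · rw [Pi.add_apply, one4_three, pt_three]; simp
    · rw [Pi.add_apply, one4_castSucc, pt_castSucc]
      omega
  · exact absurd (MvPolynomial.coeff_zero _) h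

lemma supp_Zc_lt (l : R →ₗ[ℂ] ℂ) (j : Fin 3) (v : V) :
    SuppIn (Zc j.castSucc) (mono (one4 - ev j) * Φ l v) := by
  intro p hp
  obtain ⟨u, n, rfl, h⟩ := supp_Φ hp
  intro l'
  rw [Pi.add_apply, Pi.sub_apply, one4_castSucc, pt_castSucc, ev_castSucc]
  simp only [Fin.castSucc_inj]
  split_ifs <;> omega

lemma supp_Zc_last (l : R →ₗ[ℂ] ℂ) (v : V) :
    SuppIn (Zc 3) (mono one4 * Φ l v) := by
  intro p hp
  obtain ⟨u, n, rfl, h⟩ := supp_Φ hp
  intro l'
  rw [Pi.add_apply, one4_castSucc, pt_castSucc]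
  split_ifs <;> omega

lemma ell_eq (w : Fin 3 → ℤ) (N : ℤ) (p : Pt) :
    ell w N p = ∑ j : Fin 3, w j * p j.castSucc - N * p 3 := by
  simp [ell, Fin.sum_univ_three]

lemma supp_High (l : R →ₗ[ℂ] ℂ) (Z : Finset (Fin 3)) (j : Fin 3) (hj : j ∈ Z) (v : V)
    (hv : Hi (fB a κ) Z v) : High (mkDat a κ ha hκ) Z (mono (one4 - ev j) * Φ l v) := by
  classical
  intro w N h1 h2 h3 p hp
  obtain ⟨u, n, rfl, h⟩ := supp_Φ hp
  have hf : ∀ u, (fB a κ).coeff u ≠ 0 → N ≤ ∑ j, w j * (u j : ℤ) := by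
    intro u hu
    unfold fB at hu
    rw [MvPolynomial.coeff_sum] at hu
    obtain ⟨i, _, hi⟩ := Finset.exists_ne_zero_of_sum_ne_zero hu
    rw [MvPolynomial.coeff_monomial] at hi
    split_ifs at hi with hai
    · subst hai
      have := h3 i
      rw [ell_eq, Dat.hat_three] at this
      simp only [hat_castSucc'] at this
      linarith
    · exact absurd rfl hi
  have := hv w N h1 h2 hf n u h
  show wt w + N ≤ ell w N (pt u n + (one4 - ev j))
  rw [ell_add, ell_sub, ell_one4, ell_eq w N (ev j), ell_eq w N (pt u n)]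
  simp only [pt_castSucc, pt_three, ev_three, ev_castSucc]
  have hwj : ∑ x : Fin 3, w x * (if x = j then (1 : ℤ) else 0) = 0 := by
    rw [Finset.sum_eq_single j]
    · rw [h2 j hj, zero_mul]
    · intro x _ hx; rw [if_neg hx, mul_zero]
    · intro h; exact absurd (Finset.mem_univ _) h
  rw [hwj]
  linarith

/-! ### the operator of the functional equation -/

lemma pderiv_comm' (i j : Fin 3) (p : A) :
    MvPolynomial.pderiv i (MvPolynomial.pderiv j p) =
      MvPolynomial.pderiv j (MvPolynomial.pderiv i p) := by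
  classical
  ext m
  simp only [MvPolynomial.coeff_pderiv, Finsupp.add_apply]
  rw [add_right_comm m (Finsupp.single i 1) (Finsupp.single j 1)]
  by_cases h : i = j
  · subst h; rfl
  · rw [Finsupp.single_eq_of_ne (Ne.symm h), Finsupp.single_eq_of_ne h]
    push_cast; ring

lemma pderiv_iter_comm (i j : Fin 3) (n m : ℕ) (p : A) :
    (MvPolynomial.pderiv i)^[n] ((MvPolynomial.pderiv j)^[m] p) =
      (MvPolynomial.pderiv j)^[m] ((MvPolynomial.pderiv i)^[n] p) := by
  have h : Function.Commute (MvPolynomial.pderiv (R := ℂ) i : A → A)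
      (MvPolynomial.pderiv (R := ℂ) j : A → A) := fun p => pderiv_comm' i j p
  exact (h.iterate_iterate n m) p

lemma diffPow_eq (β : Fin 3 →₀ ℕ) (p : A) : Pool.Agent.H22.diffPow β p =
    (MvPolynomial.pderiv 0)^[β 0] ((MvPolynomial.pderiv 1)^[β 1]
      ((MvPolynomial.pderiv 2)^[β 2] p)) := by
  unfold Pool.Agent.H22.diffPow
  rw [show List.finRange 3 = [0, 1, 2] from rfl]
  simp only [List.map_cons, List.map_nil, List.prod_cons, List.prod_nil, mul_one,
    Module.End.mul_apply, Module.End.pow_apply]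
  rfl

lemma diffPow_eq' {i0 i1 i2 : Fin 3} (h01 : i0 ≠ i1) (h02 : i2 ≠ i0) (h12 : i2 ≠ i1)
    (β : Fin 3 →₀ ℕ) (p : A) : Pool.Agent.H22.diffPow β p =
    (MvPolynomial.pderiv i2)^[β i2] ((MvPolynomial.pderiv i1)^[β i1]
      ((MvPolynomial.pderiv i0)^[β i0] p)) := by
  rw [diffPow_eq]
  have c01 : ∀ p : A, (MvPolynomial.pderiv 0)^[β 0] ((MvPolynomial.pderiv 1)^[β 1] p) =
    (MvPolynomial.pderiv 1)^[β 1] ((MvPolynomial.pderiv 0)^[β 0] p) := pderiv_iter_comm _ _ _ _
  have c02 : ∀ p : A, (MvPolynomial.pderiv 0)^[β 0] ((MvPolynomial.pderiv 2)^[β 2] p) =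
    (MvPolynomial.pderiv 2)^[β 2] ((MvPolynomial.pderiv 0)^[β 0] p) := pderiv_iter_comm _ _ _ _
  have c12 : ∀ p : A, (MvPolynomial.pderiv 1)^[β 1] ((MvPolynomial.pderiv 2)^[β 2] p) =
    (MvPolynomial.pderiv 2)^[β 2] ((MvPolynomial.pderiv 1)^[β 1] p) := pderiv_iter_comm _ _ _ _
  obtain h | h | h | h | h | h : (i0 = 0 ∧ i1 = 1 ∧ i2 = 2) ∨ (i0 = 0 ∧ i1 = 2 ∧ i2 = 1) ∨
      (i0 = 1 ∧ i1 = 0 ∧ i2 = 2) ∨ (i0 = 1 ∧ i1 = 2 ∧ i2 = 0) ∨ (i0 = 2 ∧ i1 = 0 ∧ i2 = 1) ∨
      (i0 = 2 ∧ i1 = 1 ∧ i2 = 0) := by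
    revert h01 h02 h12
    revert i0 i1 i2
    decide
  all_goals obtain ⟨rfl, rfl, rfl⟩ := h
  · rw [c01, c02, c12]
  · rw [c01, c02]
  · rw [c12, c02]
  · rw [c12]
  · rw [c01]
  · rfl

/-- evaluation at `s0` as a functional -/
noncomputable def evl (s0 : ℂ) : R →ₗ[ℂ] ℂ := Polynomial.leval s0

/-- derivative at `s0` as a functional -/
noncomputable def del (s0 : ℂ) : R →ₗ[ℂ] ℂ := (Polynomial.leval s0).comp Polynomial.derivative

lemma evl_X (s0 : ℂ) (ρ : R) : evl s0 (Polynomial.X * ρ) = s0 * evl s0 ρ + (0 : R →ₗ[ℂ] ℂ) ρ := by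
  simp [evl, Polynomial.leval]

lemma del_X (s0 : ℂ) (ρ : R) : del s0 (Polynomial.X * ρ) = s0 * del s0 ρ + evl s0 ρ := by
  simp [del, evl, Polynomial.leval, Polynomial.derivative_mul]
  ring

lemma Φ_zero_left (v : V) : Φ 0 v = 0 := by
  simp [Φ]

lemma Φ_sc_X (l : R →ₗ[ℂ] ℂ) (ρ : R) : mono one4 * Φ l (sc ρ * Polynomial.X) =
    l ρ • mono one4 := by
  have h : sc ρ * (Polynomial.X : V) = Polynomial.monomial 1 (MvPolynomial.monomial 0 ρ) := by
    unfold sc
    rw [Polynomial.C_mul_X_eq_monomial]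
    rfl
  rw [h, Φ_monomial, mono_mul_single]
  have h2 : one4 + pt 0 1 = one4 := by
    apply pt_ext
    · intro j; rw [Pi.add_apply, pt_castSucc]; simp
    · rw [Pi.add_apply, pt_three]; simp
  rw [h2]
  apply ext_cf; intro q
  rw [cf_single, cf_smul, cf_mono]
  split_ifs <;> simp

lemma evk_fB (k : ℕ) : evk k (fB a κ) = ∑ i, MvPolynomial.monomial (a i) (κ i) := by
  unfold evk fB
  rw [map_sum]
  refine Finset.sum_congr rfl fun i _ => ?_
  rw [MvPolynomial.map_monomial]
  simp

lemma f_ne (ha : Function.Injective a) (hκ : ∀ i, κ i ≠ 0) (hr : 0 < r) :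
    (∑ i, MvPolynomial.monomial (a i) (κ i) : A) ≠ 0 := by
  classical
  intro h
  have h1 := congrArg (MvPolynomial.coeff (a ⟨0, hr⟩)) h
  rw [MvPolynomial.coeff_sum, MvPolynomial.coeff_zero, Finset.sum_eq_single ⟨0, hr⟩] at h1
  · rw [MvPolynomial.coeff_monomial, if_pos rfl] at h1
    exact hκ _ h1
  · intro j _ hj
    rw [MvPolynomial.coeff_monomial, if_neg]
    intro h2; exact hj (ha h2)
  · intro h2; exact absurd (Finset.mem_univ _) h2

/-- the identity over `ℂ[s]` -/
theorem core (ha : Function.Injective a) (hκ : ∀ i, κ i ≠ 0) (hr : 0 < r) (b : Polynomial ℂ)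
    (P : Pool.Agent.H22.WeylS 3)
    (hP : Pool.Agent.H22.FunctionalEquation (∑ i, MvPolynomial.monomial (a i) (κ i)) b P)
    (i0 i1 : Fin 3) (h01 : i0 ≠ i1) :
    ∃ (m : ℕ) (g : B) (η : Fin 3 → V) (y : V),
      sc (Q m * b) * Polynomial.X = Polynomial.C g + ∑ j, δ (fB a κ) j (η j) + D0 (fB a κ) y ∧
      Hi (fB a κ) {i0} (η i0) ∧ Hi (fB a κ) {i0, i1} (η i1) := by
  classical
  obtain ⟨i2, h02, h12⟩ : ∃ i2 : Fin 3, i2 ≠ i0 ∧ i2 ≠ i1 := by
    revert h01; revert i0 i1; decide
  set f := fB a κ with hf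
  set W : V := ∑ β ∈ P.support, Polynomial.C (P β) *
    (δ f i2)^[β i2] ((δ f i1)^[β i1] ((δ f i0)^[β i0] 1)) with hW
  have hPW : PW f i0 i1 W := PW.sum _ _ fun β _ => peel_all h01 h02 h12 _ _ _ _
  set z : V := sc (Polynomial.X + 1) * W - sc b * Polynomial.X with hz
  have hΘ : ∀ k, Θ f k z = 0 := by
    intro k
    have hWk : Θ f k W = MvPolynomial.C (b.eval (k : ℂ)) * evk k f ^ k := by
      rw [hf, evk_fB, ← hP k, ← evk_fB k, ← hf, hW, Θ_sum]
      unfold Pool.Agent.H22.WeylS.act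
      rw [Finsupp.sum]
      refine Finset.sum_congr rfl fun β _ => ?_
      rw [Θ_C_mul, Θ_iter, Θ_iter, Θ_iter, Θ_one, diffPow_eq' h01 h02 h12]
      rfl
    have hX : Θ f k (sc b * Polynomial.X) =
        MvPolynomial.C (b.eval (k : ℂ)) * ((k + 1 : ℕ) : A) * evk k f ^ k := by
      unfold sc
      rw [Θ_C_mul]
      have h1 := Θ_monomial f k 1 1
      rw [Polynomial.monomial_one_one_eq_X] at h1
      rw [h1]
      unfold evk
      rw [MvPolynomial.map_C]
      simp
      ring
    have hS : Θ f k (sc (Polynomial.X + 1) * W) = ((k + 1 : ℕ) : A) * Θ f k W := by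
      unfold sc
      rw [Θ_C_mul]
      congr 1
      unfold evk
      rw [MvPolynomial.map_C]
      simp
    have hneg : Θ f k (-(sc b * Polynomial.X)) = - Θ f k (sc b * Polynomial.X) := by
      have h1 : -(sc b * Polynomial.X : V) = Polynomial.C (-1) * (sc b * Polynomial.X) := by
        rw [Polynomial.C_neg, Polynomial.C_1]; ring
      rw [h1, Θ_C_mul]
      simp
    have h9 : z = sc (Polynomial.X + 1) * W + -(sc b * Polynomial.X) := by rw [hz]; ring
    rw [h9, Θ_add, hneg, hS, hX, hWk]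
    ring
  have hne : ∀ k, evk k f ≠ 0 := by
    intro k
    rw [hf, evk_fB]
    exact f_ne ha hκ hr
  obtain ⟨m, y, hy⟩ := torsion f hne z hΘ
  obtain ⟨g, η, h1, h2, h3⟩ := (hPW.sc_mul (Q m * (Polynomial.X + 1)))
  refine ⟨m, g, η, -y, ?_, h2, h3⟩
  rw [← h1, D0_neg, ← hy, hz, sc_mul, sc_mul]
  ring

lemma alg0 {t : ℂ} (ht : t ≠ 0) {o G S T : LL} (h : t • o = G + S + T) :
    t⁻¹ • S + t⁻¹ • T = o + (-t⁻¹) • G := by
  have h4 : o = t⁻¹ • (G + S + T) := by
    rw [← h, smul_smul, inv_mul_cancel₀ ht, one_smul]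
  rw [h4]
  simp only [smul_add, neg_smul]
  abel

lemma alg1 {t d : ℂ} {o G S T Y : LL} (h : d • o = G + S + (T - Y)) :
    t⁻¹ • S + t⁻¹ • T = (t⁻¹ * d) • o + (-t⁻¹) • G + t⁻¹ • Y := by
  rw [mul_smul, h]
  simp only [smul_add, neg_smul, smul_sub]
  abel

end FEI

open FEI in
/-- From the functional equation to the two identities `(I0)`, `(I1)` of section 1 of
/team-store/H37_SMC.md.

Proof. Let `R = ℂ[s]`. In `R[x][τ]` (`τ^n` stands for `T^{n-1}`) take `δ_i = ∂_i + τ ∂_i f` and
`D_0 = (n - 1 - s) + τ f` on `τ^n R[x]`, and `Θ_k (h τ^n) = (k+1) k ⋯ (k+2-n) h(·,k) f^{k+1-n}`; then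
`∂_i Θ_k = Θ_k δ_i`, and `z = (s+1) ∑ p_β δ^β 1 - b τ` is killed by all `Θ_k`, so
`∏_{i<m} (s+1-i) z` is in the image of `D_0` (`FEI.torsion`). Peel off the `δ_i` (`FEI.peel_all`) and
evaluate at `s0`, also the derivative with respect to `s`. -/
theorem fe_identity (a : Fin r → (Fin 3 →₀ ℕ)) (κ : Fin r → ℂ) (ha : Function.Injective a)
    (hκ : ∀ i, κ i ≠ 0) (hr : 0 < r) (b : Polynomial ℂ) (P : Pool.Agent.H22.WeylS 3)
    (hP : Pool.Agent.H22.FunctionalEquation (∑ i, MvPolynomial.monomial (a i) (κ i)) b P)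
    (s0 : ℂ) (hs1 : s0 ≠ -1) (hs : ∀ k : ℕ, s0 ≠ k) (hb : b.eval s0 ≠ 0) :
    HasId (mkDat a κ ha hκ) s0 := by
  intro i0 i1 h01
  obtain ⟨m, g, η, y, h1, h2, h3⟩ := core ha hκ hr b P hP i0 i1 h01
  have hQ : (Q m).eval s0 ≠ 0 := by
    unfold Q
    rw [Polynomial.eval_prod, Finset.prod_ne_zero_iff]
    intro i _
    simp only [Polynomial.eval_sub, Polynomial.eval_add, Polynomial.eval_X, Polynomial.eval_one,
      Polynomial.eval_natCast]
    rcases i with _ | i
    · intro h
      apply hs1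
      push_cast at h
      linear_combination h
    · intro h
      apply hs i
      push_cast at h
      linear_combination h
  set t : ℂ := (Q m * b).eval s0 with ht
  have ht0 : t ≠ 0 := by
    rw [ht, Polynomial.eval_mul]; exact mul_ne_zero hQ hb
  -- the general translation
  have key : ∀ (l μ : R →ₗ[ℂ] ℂ), (∀ ρ, l (Polynomial.X * ρ) = s0 * l ρ + μ ρ) →
      l (Q m * b) • mono one4 = mono one4 * Φ l (Polynomial.C g) +
        ∑ j : Fin 3, D (mkDat a κ ha hκ) univ s0 (bs j.castSucc)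
          (mono (one4 - ev j) * Φ l (η j)) +
        (D (mkDat a κ ha hκ) univ s0 (bs 3) (mono one4 * Φ l y) - mono one4 * Φ μ y) := by
    intro l μ hl
    rw [← Φ_sc_X, h1, Φ_add, Φ_add, mul_add, mul_add, Φ_sum, Finset.mul_sum,
      rel_last l μ s0 hl y (ha := ha) (hκ := hκ)]
    congr 2
    refine Finset.sum_congr rfl fun j _ => ?_
    rw [rel_lt l s0 j (η j) (ha := ha) (hκ := hκ)]
  have k0 := key (evl s0) 0 (evl_X s0)
  have k1 := key (del s0) (evl s0) (del_X s0)
  rw [Φ_zero_left, mul_zero, sub_zero] at k0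
  have he : evl s0 (Q m * b) = t := rfl
  rw [he] at k0
  refine ⟨t⁻¹ * del s0 (Q m * b),
    fun j => t⁻¹ • Fin.lastCases (motive := fun _ => LL) (mono one4 * Φ (evl s0) y)
      (fun j => mono (one4 - ev j) * Φ (evl s0) (η j)) j,
    fun j => t⁻¹ • Fin.lastCases (motive := fun _ => LL) (mono one4 * Φ (del s0) y)
      (fun j => mono (one4 - ev j) * Φ (del s0) (η j)) j,
    (-t⁻¹) • (mono one4 * Φ (evl s0) (Polynomial.C g)),
    (-t⁻¹) • (mono one4 * Φ (del s0) (Polynomial.C g)),
    (supp_G _ _).smul _, (supp_G _ _).smul _, ?_, ?_, ?_, ?_, ?_, ?_, ?_, ?_⟩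
  · unfold bd
    rw [Fin.sum_univ_castSucc]
    simp only [Fin.lastCases_castSucc, Fin.lastCases_last, map_smul]
    rw [← Finset.smul_sum]
    have h5 : (3 : Fin 4) = Fin.last 3 := rfl
    rw [h5] at k0
    exact alg0 ht0 k0
  · unfold bd
    rw [Fin.sum_univ_castSucc]
    have h5 : (3 : Fin 4) = Fin.last 3 := rfl
    rw [h5]
    simp only [Fin.lastCases_castSucc, Fin.lastCases_last, map_smul]
    rw [← Finset.smul_sum]
    rw [h5] at k1
    exact alg1 k1
  · intro j
    refine Fin.lastCases ?_ (fun j => ?_) j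
    · simp only [Fin.lastCases_last]
      exact (supp_Zc_last _ _).smul _
    · simp only [Fin.lastCases_castSucc]
      exact (supp_Zc_lt _ _ _).smul _
  · intro j
    refine Fin.lastCases ?_ (fun j => ?_) j
    · simp only [Fin.lastCases_last]
      exact (supp_Zc_last _ _).smul _
    · simp only [Fin.lastCases_castSucc]
      exact (supp_Zc_lt _ _ _).smul _
  · simp only [Fin.lastCases_castSucc]
    intro w N w1 w2 w3
    exact (supp_High (ha := ha) (hκ := hκ) (evl s0) {i0} i0 (by simp) (η i0) h2 w N w1 w2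
      w3).smul _
  · simp only [Fin.lastCases_castSucc]
    intro w N w1 w2 w3
    exact (supp_High (ha := ha) (hκ := hκ) (del s0) {i0} i0 (by simp) (η i0) h2 w N w1 w2
      w3).smul _
  · simp only [Fin.lastCases_castSucc]
    intro w N w1 w2 w3
    exact (supp_High (ha := ha) (hκ := hκ) (evl s0) {i0, i1} i1 (by simp) (η i1) h3 w N w1 w2
      w3).smul _
  · simp only [Fin.lastCases_castSucc]
    intro w N w1 w2 w3
    exact (supp_High (ha := ha) (hκ := hκ) (del s0) {i0, i1} i1 (by simp) (η i1) h3 w N w1 w2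
      w3).smul _

end Pool.Agent.H37.SM
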