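import Pool.Agent.H22.G6

/-! Module FEJ: `-1` is a root of every `b`. -/

set_option autoImplicit false

namespace Pool.Agent.H37.SM

open Finset

variable {r : ℕ}

/-- `b(-1) = 0` for every functional equation of a nonconstant polynomial.
Proof: `Pool.Agent.H22.eval_neg_one_general`. -/
theorem b_neg_one (a : Fin r → (Fin 3 →₀ ℕ)) (κ : Fin r → ℂ) (ha : Function.Injective a)
    (hκ : ∀ i, κ i ≠ 0) (hne : ∃ i, a i ≠ 0) (b : Polynomial ℂ) (P : Pool.Agent.H22.WeylS 3)
    (hP : Pool.Agent.H22.FunctionalEquation (∑ i, MvPolynomial.monomial (a i) (κ i)) b P) :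
    b.eval (-1) = 0 := by
  classical
  obtain ⟨i0, hi0⟩ := hne
  refine Pool.Agent.H22.eval_neg_one_general _ (fun c h => ?_) b P hP
  have h1 := congrArg (MvPolynomial.coeff (a i0)) h
  rw [MvPolynomial.coeff_sum, Finset.sum_eq_single i0, MvPolynomial.coeff_monomial, if_pos rfl,
    MvPolynomial.coeff_C, if_neg (fun h => hi0 h.symm)] at h1
  · exact hκ i0 h1
  · intro i' _ hne
    rw [MvPolynomial.coeff_monomial, if_neg (fun h => hne (ha h))]
  · intro h; exact absurd (Finset.mem_univ _) h

end Pool.Agent.H37.SM
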