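import Pool.Agent.H37.SM.ZDefs

/-! The sets of faces over which the sums run (definitions only). -/

set_option autoImplicit false

namespace Pool.Agent.H37.SM

open Finset Pool.Agent.H22

variable {r : ℕ}

open Classical in
/-- transversal edges -/
noncomputable def fT (a : Fin r → (Fin 3 →₀ ℕ)) (s0 : ℂ) (ι : (Fin 3 → ℕ) → Fin 3) :
    Finset (Finset (Fin r)) :=
  univ.filter fun τ => IsFace a τ ∧ faceRank a τ = 2 ∧ TT a s0 ι τ

open Classical in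
/-- the other edges -/
noncomputable def fH (a : Fin r → (Fin 3 →₀ ℕ)) (s0 : ℂ) (ι : (Fin 3 → ℕ) → Fin 3) :
    Finset (Finset (Fin r)) :=
  univ.filter fun τ => IsFace a τ ∧ faceRank a τ = 2 ∧ ¬ TT a s0 ι τ

open Classical in
/-- faces of rank three -/
noncomputable def f3 (a : Fin r → (Fin 3 →₀ ℕ)) : Finset (Finset (Fin r)) :=
  univ.filter fun τ => IsFace a τ ∧ faceRank a τ = 3

open Classical in
/-- faces of rank four -/
noncomputable def f4 (a : Fin r → (Fin 3 →₀ ℕ)) : Finset (Finset (Fin r)) :=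
  univ.filter fun τ => IsFace a τ ∧ faceRank a τ = 4

lemma mem_fT {a : Fin r → (Fin 3 →₀ ℕ)} {s0 : ℂ} {ι : (Fin 3 → ℕ) → Fin 3}
    {τ : Finset (Fin r)} : τ ∈ fT a s0 ι ↔ IsFace a τ ∧ faceRank a τ = 2 ∧ TT a s0 ι τ := by
  simp [fT]

lemma mem_fH {a : Fin r → (Fin 3 →₀ ℕ)} {s0 : ℂ} {ι : (Fin 3 → ℕ) → Fin 3}
    {τ : Finset (Fin r)} : τ ∈ fH a s0 ι ↔ IsFace a τ ∧ faceRank a τ = 2 ∧ ¬ TT a s0 ι τ := by
  simp [fH]

lemma mem_f3 {a : Fin r → (Fin 3 →₀ ℕ)} {τ : Finset (Fin r)} :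
    τ ∈ f3 a ↔ IsFace a τ ∧ faceRank a τ = 3 := by
  simp [f3]

lemma mem_f4 {a : Fin r → (Fin 3 →₀ ℕ)} {τ : Finset (Fin r)} :
    τ ∈ f4 a ↔ IsFace a τ ∧ faceRank a τ = 4 := by
  simp [f4]

end Pool.Agent.H37.SM
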