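import Pool.Agent.H37.SM.ZFC
import Pool.Agent.H37.SM.ZSets

/-! Module ZMT: the correction terms of the vertices are the terms of the transversal edges. -/

set_option autoImplicit false

namespace Pool.Agent.H37.SM

open Finset Pool.Agent.H22

variable {r : ℕ} {a : Fin r → (Fin 3 →₀ ℕ)} {s0 : ℂ} {ι : (Fin 3 → ℕ) → Fin 3}

/-! ### cross products -/

theorem zmt_d0 (x y : Fin 3 → ℕ) :
    det3Z x y (eN 0) = (x 1 : ℤ) * y 2 - (x 2 : ℤ) * y 1 := by
  simp only [det3Z, eN, Pi.single_eq_same]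
  rw [Pi.single_eq_of_ne (by decide), Pi.single_eq_of_ne (by decide)]
  push_cast
  ring

theorem zmt_d1 (x y : Fin 3 → ℕ) :
    det3Z x y (eN 1) = (x 2 : ℤ) * y 0 - (x 0 : ℤ) * y 2 := by
  simp only [det3Z, eN, Pi.single_eq_same]
  rw [Pi.single_eq_of_ne (by decide), Pi.single_eq_of_ne (by decide)]
  push_cast
  ring

theorem zmt_d2 (x y : Fin 3 → ℕ) :
    det3Z x y (eN 2) = (x 0 : ℤ) * y 1 - (x 1 : ℤ) * y 0 := by
  simp only [det3Z, eN, Pi.single_eq_same]
  rw [Pi.single_eq_of_ne (by decide), Pi.single_eq_of_ne (by decide)]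
  push_cast
  ring

/-- a vector orthogonal to `x` and `y` is proportional to the cross product -/
theorem zmt_cross (u : Fin 3 → ℤ) (x y : Fin 3 → ℕ) (hx : ∑ j, u j * (x j : ℤ) = 0)
    (hy : ∑ j, u j * (y j : ℤ) = 0) (j k : Fin 3) :
    u j * det3Z x y (eN k) = u k * det3Z x y (eN j) := by
  rw [Fin.sum_univ_three] at hx hy
  fin_cases j <;> fin_cases k <;>
    simp only [Fin.zero_eta, Fin.mk_one, Fin.reduceFinMk, zmt_d0, zmt_d1, zmt_d2]
  · linear_combination (x 2 : ℤ) * hy - (y 2 : ℤ) * hx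
  · linear_combination (y 1 : ℤ) * hx - (x 1 : ℤ) * hy
  · linear_combination (y 2 : ℤ) * hx - (x 2 : ℤ) * hy
  · linear_combination (x 0 : ℤ) * hy - (y 0 : ℤ) * hx
  · linear_combination (x 1 : ℤ) * hy - (y 1 : ℤ) * hx
  · linear_combination (y 0 : ℤ) * hx - (x 0 : ℤ) * hy

theorem zmt_ne (x y : Fin 3 → ℕ) (h : LinearIndependent ℝ ![toReal x, toReal y]) :
    ∃ k, det3Z x y (eN k) ≠ 0 := by
  by_contra hno
  push Not at hno
  have h0 := hno 0
  have h1 := hno 1
  have h2 := hno 2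
  rw [zmt_d0] at h0
  rw [zmt_d1] at h1
  rw [zmt_d2] at h2
  have e0 : (x 1 : ℝ) * y 2 - (x 2 : ℝ) * y 1 = 0 := by exact_mod_cast h0
  have e1 : (x 2 : ℝ) * y 0 - (x 0 : ℝ) * y 2 = 0 := by exact_mod_cast h1
  have e2 : (x 0 : ℝ) * y 1 - (x 1 : ℝ) * y 0 = 0 := by exact_mod_cast h2
  rw [LinearIndependent.pair_iff] at h
  have hx : ∀ j, (x j : ℝ) = 0 := by
    intro j
    have := (h (y j : ℝ) (-(x j : ℝ)) (by
      funext k
      simp only [toReal, Pi.add_apply, Pi.smul_apply, smul_eq_mul, Pi.zero_apply]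
      fin_cases j <;> fin_cases k <;> simp only [Fin.zero_eta, Fin.mk_one, Fin.reduceFinMk] <;>
        linarith)).2
    linarith
  have := (h 1 0 (by
    funext k
    simp only [toReal, Pi.add_apply, Pi.smul_apply, smul_eq_mul, Pi.zero_apply, hx k]
    ring)).1
  exact one_ne_zero this

theorem zmt_orth (w : Fin 3 → ℕ) (p q : Fin r) (hp : p ∈ faceN a w) (hq : q ∈ faceN a w) :
    ∑ j, ((a p j : ℤ) - (a q j : ℤ)) * (w j : ℤ) = 0 := by
  have h1 : ∑ j, (a p j : ℤ) * (w j : ℤ) = ∑ j, (a q j : ℤ) * (w j : ℤ) := by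
    have := (mem_faceN.mp hp).trans (mem_faceN.mp hq).symm
    exact_mod_cast this
  simp only [sub_mul, Finset.sum_sub_distrib]
  rw [h1, sub_self]

/-- the determinant does not vanish in the direction `i` -/
theorem zmt_det_ne {w w' : Fin 3 → ℕ} (hw : RayN a w) (hw' : RayN a w') (hne : w ≠ w')
    {p q : Fin r} (hp : p ∈ faceN a w ∩ faceN a w') (hq : q ∈ faceN a w ∩ faceN a w')
    {i : Fin 3} (hi : a p i ≠ a q i) : det3Z w w' (eN i) ≠ 0 := by
  intro h0
  obtain ⟨k, hk⟩ := zmt_ne w w' (rayN_indep hw hw' hne)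
  rw [mem_inter] at hp hq
  have h1 := zmt_cross (fun j => (a p j : ℤ) - (a q j : ℤ)) w w' (zmt_orth w p q hp.1 hq.1)
    (zmt_orth w' p q hp.2 hq.2) i k
  rw [h0, mul_zero] at h1
  rcases mul_eq_zero.mp h1 with h | h
  · apply hi
    have : (a p i : ℤ) = (a q i : ℤ) := by linarith
    exact_mod_cast this
  · exact hk h

/-- A transversal edge: exactly two exponents, one with `i`-th coordinate one, the other with zero; rank two; the two rays are
determined.

Proof. `τ = faceN a w ∩ faceN a w'`, `w` critical, `i = ι w`, `p, q ∈ τ` with different `i`-th coordinates, both `≤ 1`. Another `l ∈ τ` is on the line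
through `a_p`, `a_q` (orthogonal to `w, w'`), coordinate `0` or `1`: `l = p` or `l = q`. As in `Cyc.face_cases` `w_k + w'_k > 0` for all `k`. -/
theorem TT.spec (ha : Function.Injective a) (hT : Thin a s0 ι) {τ : Finset (Fin r)}
    (hτ : TT a s0 ι τ) : ∃ w w' p q, RayN a w ∧ RayN a w' ∧ w ≠ w' ∧ τ = faceN a w ∩ faceN a w' ∧
      Crit a s0 w ∧ a p (ι w) = 1 ∧ a q (ι w) = 0 ∧ τ = {p, q} ∧ p ≠ q ∧
      ∀ k, 0 < w k + w' k := by
  obtain ⟨w, w', hw, hw', hne, hτe, hc, p0, hp0, q0, hq0, hpq0⟩ := hτ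
  have key : ∃ p ∈ τ, ∃ q ∈ τ, a p (ι w) = 1 ∧ a q (ι w) = 0 := by
    have h1 := hT.le_one w hw hc p0 (mem_inter.mp (hτe ▸ hp0)).1
    have h2 := hT.le_one w hw hc q0 (mem_inter.mp (hτe ▸ hq0)).1
    rcases Nat.lt_or_ge (a p0 (ι w)) 1 with h3 | h3
    · exact ⟨q0, hq0, p0, hp0, by omega, by omega⟩
    · exact ⟨p0, hp0, q0, hq0, by omega, by omega⟩
  obtain ⟨p, hp, q, hq, hp1, hq0'⟩ := key
  have hp' : p ∈ faceN a w ∩ faceN a w' := hτe ▸ hp
  have hq' : q ∈ faceN a w ∩ faceN a w' := hτe ▸ hq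
  have hpq : p ≠ q := by
    rintro rfl
    omega
  have hni : det3Z w w' (eN (ι w)) ≠ 0 :=
    zmt_det_ne hw hw' hne hp' hq' (by rw [hp1, hq0']; exact one_ne_zero)
  refine ⟨w, w', p, q, hw, hw', hne, hτe, hc, hp1, hq0', ?_, hpq, ?_⟩
  · ext l
    rw [mem_insert, mem_singleton]
    constructor
    · intro hl
      have hl' : l ∈ faceN a w ∩ faceN a w' := hτe ▸ hl
      have hl1 := hT.le_one w hw hc l (mem_inter.mp hl').1
      rw [mem_inter] at hl' hp' hq'
      -- `a_l - a_q = (a_l)_i (a_p - a_q)`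
      have hprop : ∀ k, (a l k : ℤ) - (a q k : ℤ) =
          (a l (ι w) : ℤ) * ((a p k : ℤ) - (a q k : ℤ)) := by
        intro k
        have h1 := zmt_cross (fun j => (a p j : ℤ) - (a q j : ℤ)) w w'
          (zmt_orth w p q hp'.1 hq'.1) (zmt_orth w' p q hp'.2 hq'.2) (ι w) k
        have h2 := zmt_cross (fun j => (a l j : ℤ) - (a q j : ℤ)) w w'
          (zmt_orth w l q hl'.1 hq'.1) (zmt_orth w' l q hl'.2 hq'.2) (ι w) k
        rw [hp1, hq0'] at h1
        rw [hq0'] at h2
        push_cast at h1 h2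
        apply mul_right_cancel₀ hni
        linear_combination -h2 + (a l (ι w) : ℤ) * h1
      rcases Nat.lt_or_ge (a l (ι w)) 1 with h3 | h3
      · right
        have h4 : a l (ι w) = 0 := by omega
        apply ha
        ext k
        have := hprop k
        rw [h4] at this
        have h5 : (a l k : ℤ) = a q k := by push_cast at this; linarith
        exact_mod_cast h5
      · left
        have h4 : a l (ι w) = 1 := by omega
        apply ha
        ext k
        have := hprop k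
        rw [h4] at this
        have h5 : (a l k : ℤ) = a p k := by push_cast at this; linarith
        exact_mod_cast h5
    · rintro (rfl | rfl)
      · exact hp
      · exact hq
  · intro k
    by_contra hk
    have hwk : w k = 0 := by omega
    have hwk' : w' k = 0 := by omega
    have hk0 : k ≠ ι w := by
      rintro rfl
      have := hT.pos w hw hc
      omega
    have h1 := zmt_cross (Pi.single k 1) w w' (by
        rw [Finset.sum_eq_single k]
        · rw [hwk]; simp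
        · intro b _ hb; rw [Pi.single_eq_of_ne hb]; simp
        · intro h; exact absurd (mem_univ k) h)
      (by
        rw [Finset.sum_eq_single k]
        · rw [hwk']; simp
        · intro b _ hb; rw [Pi.single_eq_of_ne hb]; simp
        · intro h; exact absurd (mem_univ k) h) k (ι w)
    rw [Pi.single_eq_same, Pi.single_eq_of_ne hk0.symm, one_mul, zero_mul] at h1
    exact hni h1

/-- the two rays at an end of the edge -/
theorem zmt_rays (ha : Function.Injective a) {w w' : Fin 3 → ℕ} (hw : RayN a w)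
    (hw' : RayN a w') (hne : w ≠ w') {p q : Fin r} (hpq : p ≠ q)
    (hτ : faceN a w ∩ faceN a w' = {p, q}) (hpos : ∀ k, 0 < w k + w' k) {v : Fin r}
    (hv : v ∈ ({p, q} : Finset (Fin r))) : Nonempty (Cyc a v) ∧ ∀ C : Cyc a v,
      ∃ x, (C.ray x = w ∧ C.ray (C.nx x) = w') ∨ (C.ray x = w' ∧ C.ray (C.nx x) = w) := by
  have hp : p ∈ faceN a w ∩ faceN a w' := by rw [hτ]; simp
  have hq : q ∈ faceN a w ∩ faceN a w' := by rw [hτ]; simp
  have hfull := full_of_edge ha w w' hw hw' hne p q hpq hτ hpos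
  rw [mem_insert, mem_singleton] at hv
  rcases hv with rfl | rfl
  · exact ⟨exists_cyc _ hfull.1, fun C =>
      Cyc.consecutive ha w w' hw hw' hne _ q hpq hp hq C⟩
  · exact ⟨exists_cyc _ hfull.2, fun C =>
      Cyc.consecutive ha w w' hw hw' hne _ p hpq.symm hq hp C⟩

/-- Proof. `TT.spec`, `full_of_edge`, `exists_cyc`, and `Cyc.consecutive` at both ends. -/
theorem TT.cyc (ha : Function.Injective a) (hT : Thin a s0 ι) {τ : Finset (Fin r)}
    (hτ : TT a s0 ι τ) {v : Fin r} (hv : v ∈ τ) : Nonempty (Cyc a v) ∧ ∀ C : Cyc a v,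
      ∃ x, C.touch s0 x ∧ faceN a (C.ray x) ∩ faceN a (C.ray (C.nx x)) = τ := by
  obtain ⟨w, w', p, q, hw, hw', hne, hτe, hc, -, -, hτpq, hpq, hpos⟩ := hτ.spec ha hT
  have h1 := zmt_rays ha hw hw' hne hpq (by rw [← hτe, hτpq]) hpos (v := v) (hτpq ▸ hv)
  refine ⟨h1.1, fun C => ?_⟩
  obtain ⟨x, hx | hx⟩ := h1.2 C
  · exact ⟨x, Or.inl (by rw [hx.1]; exact hc), by rw [hx.1, hx.2, hτe]⟩
  · exact ⟨x, Or.inr (by rw [hx.2]; exact hc), by rw [hx.1, hx.2, hτe, inter_comm]⟩

theorem zmt_ray_ne {w : Fin 3 → ℕ} (hw : RayN a w) : w ≠ 0 := by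
  rintro rfl
  have := hw.prim 0 fun j => by simp
  omega

/-- the index at a face with the rays `w`, `w'` -/
theorem zmt_idx (hT : Thin a s0 ι) {w w' : Fin 3 → ℕ} (hw : RayN a w) (hw' : RayN a w')
    (hne : w ≠ w') (hc : Crit a s0 w) {p q : Fin r} (hpq : p ≠ q)
    (hp : p ∈ faceN a w ∩ faceN a w') (hq : q ∈ faceN a w ∩ faceN a w') {v : Fin r}
    (C : Cyc a v) (x : Fin C.m)
    (hx : (C.ray x = w ∧ C.ray (C.nx x) = w') ∨ (C.ray x = w' ∧ C.ray (C.nx x) = w)) :
    C.idx s0 ι x = ι w := by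
  classical
  unfold Cyc.idx
  rcases hx with ⟨h1, h2⟩ | ⟨h1, h2⟩
  · rw [h1, if_pos hc]
  · rw [h1, h2]
    split_ifs with h3
    · exact (hT.adj w w' hw hw' hc h3 hne p hp q hq hpq).symm
    · rfl

/-- the two terms of a transversal edge -/
theorem zmt_pair (ha : Function.Injective a) (hr : 0 < r) (hT : Thin a s0 ι)
    (𝒟 : ∀ τ, FaceCones a τ) {w w' : Fin 3 → ℕ} (hw : RayN a w) (hw' : RayN a w') (hne : w ≠ w')
    (hc : Crit a s0 w) {p q : Fin r} (hp1 : a p (ι w) = 1) (hq0 : a q (ι w) = 0) (hpq : p ≠ q)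
    (hτ : faceN a w ∩ faceN a w' = {p, q}) (hpos : ∀ k, 0 < w k + w' k) (C : Cyc a p)
    (C' : Cyc a q) : ∃ x x', C.touch s0 x ∧ C'.touch s0 x' ∧
      faceN a (C.ray x) ∩ faceN a (C.ray (C.nx x)) = {p, q} ∧
      faceN a (C'.ray x') ∩ faceN a (C'.ray (C'.nx x')) = {p, q} ∧
      C.tt s0 ι x + C'.tt s0 ι x' = RatFunc.X / (RatFunc.X + 1) *
        JfunG a (faceN a w ∩ faceN a w') (𝒟 (faceN a w ∩ faceN a w')) := by
  classical
  have hp : p ∈ faceN a w ∩ faceN a w' := by rw [hτ]; simp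
  have hq : q ∈ faceN a w ∩ faceN a w' := by rw [hτ]; simp
  obtain ⟨x, hx⟩ := (zmt_rays ha hw hw' hne hpq hτ hpos (v := p) (by simp)).2 C
  have hidx := zmt_idx hT hw hw' hne hc hpq hp hq C x hx
  have htouch : C.touch s0 x := by
    rcases hx with hx | hx
    · exact Or.inl (by rw [hx.1]; exact hc)
    · exact Or.inr (by rw [hx.2]; exact hc)
  have hface : faceN a (C.ray x) ∩ faceN a (C.ray (C.nx x)) = {p, q} := by
    rcases hx with hx | hx
    · rw [hx.1, hx.2, hτ]
    · rw [hx.1, hx.2, inter_comm, hτ]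
  -- the second case of `face_cases`
  have hcase : ∃ t : ℝ, 0 < t ∧ ∀ z : Fin 3 → ℝ, ∑ j, ((a q j : ℝ) - (a p j : ℝ)) * z j =
      t * det3 (toReal (C.ray x)) (toReal (C.ray (C.nx x))) z := by
    rcases Cyc.face_cases ha hT C x htouch with h0 | ⟨u, hu, hfu, -, -, t, ht0, ht⟩
    · exfalso
      rw [hidx] at h0
      have hrx : RayN a (C.ray x) := C.rayN x
      have hry : RayN a (C.ray (C.nx x)) := C.rayN _
      refine zmt_det_ne hrx hry ?_ (p := p) (q := q) (by rw [hface]; simp) (by rw [hface]; simp)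
        (i := ι w) (by rw [hp1, hq0]; exact one_ne_zero) h0
      intro h
      exact C.nx_ne x (C.inj h).symm
    · have hqu : q = u := by
        have h1 : q ∈ ({p, u} : Finset (Fin r)) := by rw [← hfu, hface]; simp
        rw [mem_insert, mem_singleton] at h1
        rcases h1 with h1 | h1
        · exact absurd h1.symm hpq
        · exact h1
      subst hqu
      exact ⟨t, ht0, ht⟩
  obtain ⟨t, ht0, ht⟩ := hcase
  have hqx : q ∈ faceN a (C.ray x) ∩ faceN a (C.ray (C.nx x)) := by rw [hface]; simp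
  have hpx : p ∈ faceN a (C.ray x) ∩ faceN a (C.ray (C.nx x)) := by rw [hface]; simp
  obtain ⟨x', hx'1, hx'2⟩ := Cyc.partner ha C x hpq.symm hqx t ht0 ht C'
  have hx' : (C'.ray x' = w ∧ C'.ray (C'.nx x') = w') ∨
      (C'.ray x' = w' ∧ C'.ray (C'.nx x') = w) := by
    rcases hx with hx | hx
    · exact Or.inr ⟨by rw [hx'1, hx.2], by rw [hx'2, hx.1]⟩
    · exact Or.inl ⟨by rw [hx'1, hx.2], by rw [hx'2, hx.1]⟩
  have hidx' := zmt_idx hT hw hw' hne hc hpq hp hq C' x' hx'
  have htouch' : C'.touch s0 x' := by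
    rcases hx' with hx' | hx'
    · exact Or.inl (by rw [hx'.1]; exact hc)
    · exact Or.inr (by rw [hx'.2]; exact hc)
  have hface' : faceN a (C'.ray x') ∩ faceN a (C'.ray (C'.nx x')) = {p, q} := by
    rw [hx'1, hx'2, inter_comm, hface]
  refine ⟨x, x', htouch, htouch', hface, hface', ?_⟩
  have h1 : C.tt s0 ι x = cR a p (eN (ι w)) (C.ray x) (C.ray (C.nx x)) := by
    unfold Cyc.tt
    rw [if_pos htouch, hidx]
  have h2 : C'.tt s0 ι x' = cR a q (eN (ι w)) (C.ray (C.nx x)) (C.ray x) := by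
    unfold Cyc.tt
    rw [if_pos htouch', hidx', hx'1, hx'2]
  rw [h1, h2, tt_add p q (C.ray x) (C.ray (C.nx x)) (ι w) hpx hqx (zmt_ray_ne (C.rayN x))
    (zmt_ray_ne (C.rayN _)) (Or.inl ⟨hp1, hq0⟩) t ht0 ht]
  have hJ := (face_two ha hr w w' hw hw' hne p q hpq hp hq).2.2.2
    (𝒟 (faceN a w ∩ faceN a w'))
  rw [hJ]
  congr 1
  rcases hx with hx | hx
  · rw [hx.1, hx.2]
  · rw [hx.1, hx.2, coneMult_swap w' w, mul_comm (WF a w')]

open Classical in
/-- the part of the vertex term which belongs to `τ` -/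
noncomputable def zmt_G (a : Fin r → (Fin 3 →₀ ℕ)) (s0 : ℂ) (ι : (Fin 3 → ℕ) → Fin 3)
    (v : Fin r) (τ : Finset (Fin r)) : RatFunc ℂ :=
  if h : Nonempty (Cyc a v) then
    ∑ x, (if h.some.touch s0 x ∧ faceN a (h.some.ray x) ∩ faceN a (h.some.ray (h.some.nx x)) = τ
      then h.some.tt s0 ι x else 0)
  else 0

theorem zmt_cR_zero (v : Fin r) (i : Fin 3) (x y : Fin 3 → ℕ) (h : det3Z x y (eN i) = 0) :
    cR a v (eN i) x y = 0 := by
  have h1 : det3Z (eN i) x y = det3Z x y (eN i) := by unfold det3Z; ring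
  unfold cR
  rw [h1, h, Int.cast_zero, zero_div]

open Classical in
theorem zmt_split_aux (ha : Function.Injective a) (hr : 0 < r) (hT : Thin a s0 ι) {v : Fin r}
    (C : Cyc a v) : ∑ x, C.tt s0 ι x = ∑ τ ∈ fT a s0 ι,
      ∑ x, (if C.touch s0 x ∧ faceN a (C.ray x) ∩ faceN a (C.ray (C.nx x)) = τ
        then C.tt s0 ι x else 0) := by
  rw [Finset.sum_comm]
  refine Finset.sum_congr rfl fun x _ => ?_
  by_cases ht : C.touch s0 x
  · by_cases hf : faceN a (C.ray x) ∩ faceN a (C.ray (C.nx x)) ∈ fT a s0 ι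
    · rw [Finset.sum_eq_single_of_mem _ hf]
      · rw [if_pos ⟨ht, rfl⟩]
      · intro b _ hb
        rw [if_neg]
        rintro ⟨-, h2⟩
        exact hb h2.symm
    · rw [Finset.sum_eq_zero]
      · rcases Cyc.face_cases ha hT C x ht with h0 | ⟨u, hu, hfu, hi, -, -⟩
        · unfold Cyc.tt
          rw [if_pos ht]
          exact zmt_cR_zero _ _ _ _ h0
        · exfalso
          apply hf
          have hne : C.ray x ≠ C.ray (C.nx x) := fun h => C.nx_ne x (C.inj h).symm
          have hvm : v ∈ faceN a (C.ray x) ∩ faceN a (C.ray (C.nx x)) := by rw [hfu]; simp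
          have hum : u ∈ faceN a (C.ray x) ∩ faceN a (C.ray (C.nx x)) := by rw [hfu]; simp
          have h2 := face_two ha hr (C.ray x) (C.ray (C.nx x)) (C.rayN x) (C.rayN _) hne v u
            hu.symm hvm hum
          rw [mem_fT]
          refine ⟨h2.1, h2.2.1, ?_⟩
          obtain ⟨w, hw, hwc, hwi, -, -⟩ := Cyc.idx_spec hT C x ht
          have hdiff : a v (ι w) ≠ a u (ι w) := by
            rw [hwi]
            rcases hi with ⟨h3, h4⟩ | ⟨h3, h4⟩
            · rw [h3, h4]; exact one_ne_zero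
            · rw [h3, h4]; exact zero_ne_one
          rcases hw with hw | hw
          · exact ⟨C.ray x, C.ray (C.nx x), C.rayN _, C.rayN _, hne, rfl, hw ▸ hwc, v, hvm, u,
              hum, hw ▸ hdiff⟩
          · exact ⟨C.ray (C.nx x), C.ray x, C.rayN _, C.rayN _, hne.symm, inter_comm _ _,
              hw ▸ hwc, v, hvm, u, hum, hw ▸ hdiff⟩
      · intro τ hτ
        rw [if_neg]
        rintro ⟨-, h2⟩
        exact hf (h2 ▸ hτ)
  · rw [Finset.sum_eq_zero]
    · unfold Cyc.tt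
      rw [if_neg ht]
    · intro τ _
      rw [if_neg]
      rintro ⟨h2, -⟩
      exact ht h2

theorem zmt_split (ha : Function.Injective a) (hr : 0 < r) (hT : Thin a s0 ι) (v : Fin r) :
    vertT a s0 ι v = ∑ τ ∈ fT a s0 ι, zmt_G a s0 ι v τ := by
  classical
  unfold vertT zmt_G
  by_cases h : Nonempty (Cyc a v)
  · simp only [dif_pos h]
    exact zmt_split_aux ha hr hT h.some
  · simp only [dif_neg h]
    rw [Finset.sum_const_zero]

/-- the unique face of the vertex `v` for the edge `τ` -/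
theorem zmt_G_eq (ha : Function.Injective a) {v u : Fin r} {τ : Finset (Fin r)} (huv : u ≠ v)
    (hu : u ∈ τ) (h : Nonempty (Cyc a v)) (x : Fin h.some.m) (ht : h.some.touch s0 x)
    (hx : faceN a (h.some.ray x) ∩ faceN a (h.some.ray (h.some.nx x)) = τ) :
    zmt_G a s0 ι v τ = h.some.tt s0 ι x := by
  classical
  unfold zmt_G
  rw [dif_pos h, Finset.sum_eq_single x]
  · rw [if_pos ⟨ht, hx⟩]
  · intro b _ hb
    rw [if_neg]
    rintro ⟨-, h2⟩
    apply hb
    exact Cyc.face_unique ha h.some b x huv (by rw [h2]; exact hu) (by rw [hx]; exact hu)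
  · intro h2
    exact absurd (mem_univ x) h2

theorem zmt_edge (ha : Function.Injective a) (hr : 0 < r) (hT : Thin a s0 ι)
    (𝒟 : ∀ τ, FaceCones a τ) {τ : Finset (Fin r)} (hτ : TT a s0 ι τ) :
    ∑ v, zmt_G a s0 ι v τ = RatFunc.X / (RatFunc.X + 1) * JfunG a τ (𝒟 τ) := by
  classical
  obtain ⟨w, w', p, q, hw, hw', hne, hτe, hc, hp1, hq0, hτpq, hpq, hpos⟩ := hτ.spec ha hT
  have hτ' : faceN a w ∩ faceN a w' = {p, q} := by rw [← hτe, hτpq]
  have hCp := (zmt_rays ha hw hw' hne hpq hτ' hpos (v := p) (by simp)).1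
  have hCq := (zmt_rays ha hw hw' hne hpq hτ' hpos (v := q) (by simp)).1
  obtain ⟨x, x', ht, ht', hf, hf', hsum⟩ := zmt_pair ha hr hT 𝒟 hw hw' hne hc hp1 hq0 hpq hτ' hpos
    hCp.some hCq.some
  have h1 : ∑ v, zmt_G a s0 ι v τ = ∑ v ∈ {p, q}, zmt_G a s0 ι v τ := by
    symm
    refine Finset.sum_subset (subset_univ _) fun v _ hv => ?_
    unfold zmt_G
    split_ifs with h
    · refine Finset.sum_eq_zero fun y _ => ?_
      rw [if_neg]
      rintro ⟨-, h2⟩
      apply hv
      rw [← hτpq, ← h2, mem_inter]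
      exact ⟨h.some.mem y, h.some.mem _⟩
    · rfl
  rw [h1, Finset.sum_pair hpq,
    zmt_G_eq ha (v := p) (u := q) hpq.symm (by rw [hτpq]; simp) hCp x ht (by rw [hτpq]; exact hf),
    zmt_G_eq ha (v := q) (u := p) hpq (by rw [hτpq]; simp) hCq x' ht' (by rw [hτpq]; exact hf'),
    hsum]
  subst hτe
  rfl

/-- Proof. For a vertex `v` with a cyclic structure `C = h.some` only the faces `x` with
`det3Z (ray x) (ray nx x) e_i ≠ 0` contribute (`cR a v (eN i) (ray x) (ray nx x)` has this determinant as numerator). By `face_cases` they have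
`faceN ∩ faceN = {v, u} =: τ(v, x)`, which is `TT` (with `w` from `idx_spec`), a face of rank two (`face_two`). Conversely for a
`TT` face `τ = {p, q}` and `v ∈ τ` there is exactly one such `x` (`TT.cyc`, `Cyc.face_unique`). So the left side is the sum over the `TT` faces
`τ = {p, q}` of `tt (x_p) + tt (x_q)`. By `Cyc.partner` `x_q` has the two rays of `x_p` in the opposite order; the indices agree (`Cyc.index_eq`: if
both rays are critical the indices are equal, otherwise both are `ι` of the only critical ray). `tt_add` and `face_two` (formula for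
`J_τ`; `coneMult_swap`). -/
theorem match_sum (ha : Function.Injective a) (hr : 0 < r) (hs : s0 ≠ -1) (hT : Thin a s0 ι)
    (𝒟 : ∀ τ, FaceCones a τ) :
    ∑ v, vertT a s0 ι v = RatFunc.X / (RatFunc.X + 1) *
      ∑ τ ∈ fT a s0 ι, JfunG a τ (𝒟 τ) := by
  have _ := hs
  simp only [zmt_split ha hr hT]
  rw [Finset.sum_comm, Finset.mul_sum]
  refine Finset.sum_congr rfl fun τ hτ => ?_
  exact zmt_edge ha hr hT 𝒟 (mem_fT.mp hτ).2.2

end Pool.Agent.H37.SM
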