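import Pool.Agent.H37.SM.ZCY
import Pool.Agent.H37.SM.CO3

/-! Module ZCZ: existence of the cyclic structure of a vertex cone. -/

set_option autoImplicit false

namespace Pool.Agent.H37.SM

open Finset Pool.Agent.H22

variable {r : ℕ} {a : Fin r → (Fin 3 →₀ ℕ)}

/-! ### determinants -/

theorem zcz_det (x y z : Fin 3 → ℝ) : det3 x y z = Matrix.det (Matrix.of ![x, y, z]) := by
  rw [Matrix.det_fin_three]
  simp only [Matrix.of_apply, Matrix.cons_val_zero, Matrix.cons_val_one, Matrix.cons_val, det3]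
  ring

theorem zcz_indep {x y z : Fin 3 → ℝ} (h : det3 x y z ≠ 0) : LinearIndependent ℝ ![x, y, z] := by
  rw [zcz_det] at h
  have h1 := Matrix.linearIndependent_rows_of_det_ne_zero h
  exact h1

theorem zcz_ne {x y z : Fin 3 → ℝ} (h : LinearIndependent ℝ ![x, y, z]) : det3 x y z ≠ 0 := by
  rw [zcz_det]
  have h1 : IsUnit (Matrix.of ![x, y, z]) := Matrix.linearIndependent_rows_iff_isUnit.1 h
  exact ((Matrix.isUnit_iff_isUnit_det _).1 h1).ne_zero

theorem zcz_self1 (x y : Fin 3 → ℝ) : det3 x y x = 0 := by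
  unfold det3
  ring

theorem zcz_self2 (x y : Fin 3 → ℝ) : det3 x y y = 0 := by
  unfold det3
  ring

theorem zcz_sum {ι : Type*} [Fintype ι] (x y : Fin 3 → ℝ) (c : ι → ℝ) (g : ι → Fin 3 → ℝ) :
    det3 x y (∑ i, c i • g i) = ∑ i, c i * det3 x y (g i) := by
  unfold det3
  simp only [Finset.sum_apply, Pi.smul_apply, smul_eq_mul, Finset.mul_sum,
    ← Finset.sum_sub_distrib, ← Finset.sum_add_distrib]
  exact Finset.sum_congr rfl fun i _ => by ring

theorem zcz_sum1 {ι : Type*} [Fintype ι] (y z : Fin 3 → ℝ) (c : ι → ℝ) (g : ι → Fin 3 → ℝ) :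
    det3 (∑ i, c i • g i) y z = ∑ i, c i * det3 (g i) y z := by
  have h : ∀ x y z : Fin 3 → ℝ, det3 x y z = det3 y z x := by
    intro x y z
    unfold det3
    ring
  rw [h, zcz_sum]
  exact Finset.sum_congr rfl fun i _ => by rw [h (g i)]

theorem zcz_sum2 {ι : Type*} [Fintype ι] (x z : Fin 3 → ℝ) (c : ι → ℝ) (g : ι → Fin 3 → ℝ) :
    det3 x (∑ i, c i • g i) z = ∑ i, c i * det3 x (g i) z := by
  have h : ∀ x y z : Fin 3 → ℝ, det3 x y z = det3 z x y := by
    intro x y z
    unfold det3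
    ring
  rw [h, zcz_sum]
  exact Finset.sum_congr rfl fun i _ => by rw [h x (g i)]

theorem zcz_cramer (x y z w : Fin 3 → ℝ) :
    det3 x y z • w = det3 w y z • x + det3 x w z • y + det3 x y w • z := by
  funext j
  simp only [Pi.add_apply, Pi.smul_apply, smul_eq_mul, det3]
  fin_cases j
  · simp only [Fin.zero_eta, Fin.isValue]
    ring
  · simp only [Fin.mk_one, Fin.isValue]
    ring
  · simp only [Fin.reduceFinMk, Fin.isValue]
    ring

/-! ### the cone of a vertex -/

/-- the constraints of the cone -/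
def zcz_L (a : Fin r → (Fin 3 →₀ ℕ)) (v : Fin r) : Fin 3 ⊕ Fin r → (Fin 3 → ℝ) →ₗ[ℝ] ℝ
  | Sum.inl k => LinearMap.proj k
  | Sum.inr u => ∑ j, ((a u j : ℝ) - (a v j : ℝ)) • LinearMap.proj j

theorem zcz_L_inl (v : Fin r) (k : Fin 3) (z : Fin 3 → ℝ) : zcz_L a v (Sum.inl k) z = z k := rfl

theorem zcz_L_inr (v u : Fin r) (z : Fin 3 → ℝ) :
    zcz_L a v (Sum.inr u) z = ∑ j, ((a u j : ℝ) - (a v j : ℝ)) * z j := by
  simp [zcz_L, LinearMap.sum_apply]

theorem zcz_mem (v : Fin r) (z : Fin 3 → ℝ) :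
    z ∈ minCone a {v} ↔ ∀ i, 0 ≤ zcz_L a v i z := by
  have h1 : ∀ u, zcz_L a v (Sum.inr u) z =
      ∑ j, (a u j : ℝ) * z j - ∑ j, (a v j : ℝ) * z j := by
    intro u
    rw [zcz_L_inr, ← Finset.sum_sub_distrib]
    exact Finset.sum_congr rfl fun j _ => by ring
  constructor
  · rintro ⟨h2, h3⟩ (k | u)
    · exact h2 k
    · rw [h1]
      exact sub_nonneg.2 (h3 v (mem_singleton_self v) u)
  · intro h
    refine ⟨fun j => h (Sum.inl j), fun i hi l => ?_⟩
    rw [mem_singleton.1 hi]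
    have h2 := h (Sum.inr l)
    rw [h1] at h2
    exact sub_nonneg.1 h2

theorem zcz_comb (v : Fin r) {ι : Type*} [Fintype ι] (c : ι → ℝ) (g : ι → Fin 3 → ℝ)
    (hc : ∀ i, 0 ≤ c i) (hg : ∀ i, g i ∈ minCone a {v}) : ∑ i, c i • g i ∈ minCone a {v} := by
  rw [zcz_mem]
  intro k
  rw [map_sum]
  refine Finset.sum_nonneg fun i _ => ?_
  rw [map_smul, smul_eq_mul]
  exact mul_nonneg (hc i) ((zcz_mem v _).1 (hg i) k)

/-- a supporting constraint -/
theorem zcz_support (v : Fin r) (x y z : Fin 3 → ℝ) (hx : x ∈ minCone a {v})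
    (hy : y ∈ minCone a {v}) (hz : z ∈ minCone a {v}) (hd : 0 < det3 x y z)
    (hpos : ∀ w ∈ minCone a {v}, 0 ≤ det3 x y w) :
    ∃ i, zcz_L a v i x = 0 ∧ zcz_L a v i y = 0 ∧ 0 < zcz_L a v i z := by
  by_contra hcon
  push Not at hcon
  rw [zcz_mem] at hx hy hz
  -- a small step
  have h1 : ∀ i, ∃ e : ℝ, 0 < e ∧ ∀ e', 0 < e' → e' ≤ e → 0 ≤ zcz_L a v i (x + y - e' • z) := by
    intro i
    rcases (add_nonneg (hx i) (hy i)).eq_or_lt with h2 | h2
    · have hx0 : zcz_L a v i x = 0 := by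
        have := hx i
        have := hy i
        linarith
      have hy0 : zcz_L a v i y = 0 := by
        have := hx i
        have := hy i
        linarith
      have hz0 := le_antisymm (hcon i hx0 hy0) (hz i)
      refine ⟨1, one_pos, fun e' _ _ => ?_⟩
      rw [map_sub, map_add, map_smul, hx0, hy0, hz0, smul_zero, add_zero, sub_zero]
    · have h3 : 0 < zcz_L a v i z + 1 := by
        have := hz i
        linarith
      refine ⟨(zcz_L a v i x + zcz_L a v i y) / (zcz_L a v i z + 1), div_pos h2 h3,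
        fun e' he' hle => ?_⟩
      rw [map_sub, map_add, map_smul, smul_eq_mul]
      rw [le_div_iff₀ h3] at hle
      nlinarith
  choose e he0 he using h1
  obtain ⟨e0, he00, hle⟩ : ∃ e0 : ℝ, 0 < e0 ∧ ∀ i, e0 ≤ e i := by
    have hne : (univ : Finset (Fin 3 ⊕ Fin r)).Nonempty := ⟨Sum.inl 0, mem_univ _⟩
    obtain ⟨i0, _, hi0⟩ := exists_min_image univ e hne
    exact ⟨e i0, he0 i0, fun i => hi0 i (mem_univ i)⟩
  have h4 : x + y - e0 • z ∈ minCone a {v} := by
    rw [zcz_mem]
    exact fun i => he i e0 he00 (hle i)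
  have h5 := hpos _ h4
  have h6 : det3 x y (x + y - e0 • z) = - (e0 * det3 x y z) := by
    simp only [det3, Pi.sub_apply, Pi.add_apply, Pi.smul_apply, smul_eq_mul]
    ring
  rw [h6] at h5
  have := mul_pos he00 hd
  linarith

/-- Proof. `exists_rays` for `τ = {v}`. `hspan` of `cone3`: the three independent vectors are combinations of the generators. `cone3`
gives `nx`, `pos`, and `hrep` (a nonnegative combination of elements of the cone is in the cone). `complete`: `rays_complete`.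
`normal`: let `z0 = g_x + g_{nx x}` and consider the constraints `k_j ≥ 0` and `(a_u - a_v)·k ≥ 0` with `a_u ≠ a_v`. If all of them are strict at
`z0` then `z0 - ε g_y ∈ D_v` for small `ε` where `y` is a third ray, but `det3 g_x g_{nx x} (z0 - ε g_y) < 0`, while `det3 g_x g_{nx x} ≥ 0` on `D_v`
(by `gen` and `pos`). So one constraint functional vanishes at `z0`, hence at `g_x` and `g_{nx x}`, hence is `t * det3 g_x g_{nx x} ·`
(`g_x, g_{nx x}` independent, functionals vanishing on both form a line); it is not zero and nonnegative at `y`: `t > 0`. -/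
theorem exists_cyc (v : Fin r) (hv : Full3 a v) : Nonempty (Cyc a v) := by
  classical
  obtain ⟨m, g, hinj, hray, hface, hmem, hgen, hex⟩ :=
    exists_rays (a := a) {v} (singleton_nonempty v)
  obtain ⟨u, hu, huc⟩ := hv
  have hspan : ∃ x y z, det3 (toReal (g x)) (toReal (g y)) (toReal (g z)) ≠ 0 := by
    by_contra hcon
    push Not at hcon
    obtain ⟨c0, _, h0⟩ := hgen _ (huc 0)
    obtain ⟨c1, _, h1⟩ := hgen _ (huc 1)
    obtain ⟨c2, _, h2⟩ := hgen _ (huc 2)
    have h3 : u = ![u 0, u 1, u 2] := by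
      funext i
      fin_cases i <;> rfl
    rw [h3] at hu
    refine zcz_ne hu ?_
    rw [h0, h1, h2, zcz_sum1]
    refine Finset.sum_eq_zero fun x _ => ?_
    rw [zcz_sum2, Finset.sum_eq_zero, mul_zero]
    intro y _
    rw [zcz_sum, Finset.sum_eq_zero, mul_zero]
    intro z _
    rw [hcon, mul_zero]
  obtain ⟨nx, hn1, hn2, hpos, hrep⟩ := cone3 (fun x => toReal (g x)) hex hspan
  have hpos' : ∀ x, ∀ w ∈ minCone a {v}, 0 ≤ det3 (toReal (g x)) (toReal (g (nx x))) w := by
    intro x w hw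
    obtain ⟨c, hc, rfl⟩ := hgen w hw
    rw [zcz_sum]
    refine Finset.sum_nonneg fun y _ => mul_nonneg (hc y) ?_
    by_cases h1 : y = x
    · rw [h1, zcz_self1]
    · by_cases h2 : y = nx x
      · rw [h2, zcz_self2]
      · exact (hpos x y h1 h2).le
  refine ⟨⟨m, g, nx, hray, fun x => hface x (mem_singleton_self v), hinj, ?_, hpos, hn1, hn2,
    hgen, fun z hz => ?_, fun w hw hvw => ?_, fun x => ?_⟩⟩
  · obtain ⟨x, _⟩ := hspan
    exact x.pos
  · obtain ⟨c, hc, rfl⟩ := hrep z hz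
    exact zcz_comb v c _ hc hmem
  · exact rays_complete {v} (singleton_nonempty v) g hray hmem hgen w hw
      (singleton_subset_iff.2 hvw)
  · set X := toReal (g x) with hX
    set Y := toReal (g (nx x)) with hY
    set Z := toReal (g (nx (nx x))) with hZ
    have hd : 0 < det3 X Y Z := hpos x (nx (nx x)) (hn2 x) (hn1 (nx x))
    obtain ⟨i, hi1, hi2, hi3⟩ := zcz_support v X Y Z (hmem x) (hmem _) (hmem _) hd (hpos' x)
    have key : ∀ z, zcz_L a v i z = zcz_L a v i Z / det3 X Y Z * det3 X Y z := by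
      intro z
      have h1 := congrArg (zcz_L a v i) (zcz_cramer X Y Z z)
      rw [map_add, map_add, map_smul, map_smul, map_smul, map_smul, hi1, hi2, smul_zero,
        smul_zero, zero_add, zero_add, smul_eq_mul, smul_eq_mul] at h1
      field_simp
      linarith
    refine ⟨zcz_L a v i Z / det3 X Y Z, div_pos hi3 hd, ?_⟩
    rcases i with k | u'
    · right
      exact ⟨k, fun z => key z⟩
    · left
      refine ⟨u', ?_, fun z => ?_⟩
      · rintro rfl
        rw [zcz_L_inr] at hi3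
        simp at hi3
      · rw [← zcz_L_inr]
        exact key z

/-- Proof: `ray x`, `ray (nx x)`, `ray (nx (nx x))` are independent by `pos`. -/
theorem Cyc.full {v : Fin r} (C : Cyc a v) : Full3 a v := by
  have hmem : ∀ y, toReal (C.ray y) ∈ minCone a {v} := by
    intro y
    refine C.hrep _ fun x => ?_
    by_cases h1 : y = x
    · rw [h1, zcz_self1]
    · by_cases h2 : y = C.nx x
      · rw [h2, zcz_self2]
      · exact (C.pos x y h1 h2).le
  let x : Fin C.m := ⟨0, C.m_pos⟩
  have hd : det3 (toReal (C.ray x)) (toReal (C.ray (C.nx x))) (toReal (C.ray (C.nx (C.nx x)))) ≠ 0 :=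
    (C.pos x (C.nx (C.nx x)) (C.nx_nx_ne x) (C.nx_ne (C.nx x))).ne'
  refine ⟨_, zcz_indep hd, fun c => ?_⟩
  fin_cases c
  · exact hmem _
  · exact hmem _
  · exact hmem _

end Pool.Agent.H37.SM
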