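import Pool.Agent.H37.SM.ZUN
import Pool.Agent.H37.SM.ZMU
import Pool.Agent.H37.SM.ZCZ

/-! Module ZJV: `J_v` of a vertex as a cyclic sum. -/

set_option autoImplicit false

namespace Pool.Agent.H37.SM

open Finset Pool.Agent.H22

variable {r : ℕ} {a : Fin r → (Fin 3 →₀ ℕ)} {v : Fin r}

/-- Proof: `finrank_span_indep` for the singleton, one nonzero row. -/
theorem faceRank_singleton (a : Fin r → (Fin 3 →₀ ℕ)) (v : Fin r) : faceRank a {v} = 1 := by
  have h : LinearIndependent ℝ (fun i : ({v} : Finset (Fin r)) => rowR a i) := by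
    have : Unique ({v} : Finset (Fin r)) := ⟨⟨⟨v, mem_singleton_self v⟩⟩, fun i => by
      apply Subtype.ext
      exact mem_singleton.1 i.2⟩
    rw [linearIndependent_unique_iff]
    intro h0
    have h2 := congrFun h0 (Sum.inl ())
    simp [rowR] at h2
  rw [finrank_span_indep h, card_singleton]

/-- Proof: the sum `k` of the three independent vectors of the cone: if `l` is also minimal for `k` then it is minimal for the
three vectors, so `a_l - a_v` is orthogonal to all of them. -/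
theorem isFace_of_full (ha : Function.Injective a) (hv : Full3 a v) : IsFace a {v} := by
  obtain ⟨u, hu, huc⟩ := hv
  have hsum : ∀ l : Fin r, ∑ j, (a l j : ℝ) * (∑ c, u c) j = ∑ c, ∑ j, (a l j : ℝ) * u c j := by
    intro l
    rw [Finset.sum_comm]
    refine Finset.sum_congr rfl fun j _ => ?_
    rw [Finset.sum_apply, Finset.mul_sum]
  refine ⟨∑ c, u c, fun j => ?_, fun l => ⟨fun hl l' => ?_, fun hl => ?_⟩⟩
  · rw [Finset.sum_apply]
    exact Finset.sum_nonneg fun c _ => (huc c).1 j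
  · rw [hsum, hsum, mem_singleton.1 hl]
    exact Finset.sum_le_sum fun c _ => (huc c).2 v (mem_singleton_self v) l'
  · have h1 := hl v
    rw [hsum, hsum] at h1
    have h2 : ∀ c ∈ (univ : Finset (Fin 3)), ∑ j, (a v j : ℝ) * u c j ≤ ∑ j, (a l j : ℝ) * u c j :=
      fun c _ => (huc c).2 v (mem_singleton_self v) l
    have h3 : ∀ c ∈ (univ : Finset (Fin 3)), ∑ j, (a v j : ℝ) * u c j = ∑ j, (a l j : ℝ) * u c j :=
      (Finset.sum_eq_sum_iff_of_le h2).1 (le_antisymm (Finset.sum_le_sum h2) h1)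
    have h4 : ∀ c, zcz_L a v (Sum.inr l) (u c) = 0 := by
      intro c
      rw [zcz_L_inr]
      have : ∑ j, ((a l j : ℝ) - (a v j : ℝ)) * u c j =
          ∑ j, (a l j : ℝ) * u c j - ∑ j, (a v j : ℝ) * u c j := by
        rw [← Finset.sum_sub_distrib]
        exact Finset.sum_congr rfl fun j _ => by ring
      rw [this, h3 c (mem_univ c), sub_self]
    have hspan : Submodule.span ℝ (Set.range u) = ⊤ := by
      apply hu.span_eq_top_of_card_eq_finrank'
      simp
    have h5 : zcz_L a v (Sum.inr l) = 0 := by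
      apply LinearMap.ext_on hspan
      rintro _ ⟨c, rfl⟩
      rw [h4 c]
      rfl
    rw [mem_singleton]
    apply ha
    ext j
    have h6 := LinearMap.congr_fun h5 (Pi.single j 1)
    rw [zcz_L_inr] at h6
    simp only [Pi.single_apply, mul_ite, mul_one, mul_zero, Finset.sum_ite_eq', mem_univ, if_true,
      LinearMap.zero_apply] at h6
    have h7 : (a l j : ℝ) = a v j := by linarith
    exact_mod_cast h7

/-- on the rays of the vertex cone `V = W` -/
theorem Cyc.Vr_eq (C : Cyc a v) (x : Fin C.m) : Vr a v (C.ray x) = WF a (C.ray x) := by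
  unfold Vr WF
  rw [mem_faceN.1 (C.mem x)]

theorem ZJV_ray_mem (C : Cyc a v) (y : Fin C.m) : toReal (C.ray y) ∈ minCone a {v} := by
  refine C.hrep _ fun x => ?_
  by_cases h1 : y = x
  · rw [h1, zcz_self1]
  · by_cases h2 : y = C.nx x
    · rw [h2, zcz_self2]
    · exact (C.pos x y h1 h2).le

theorem ZJV_nonneg (C : Cyc a v) (x y : Fin C.m) :
    0 ≤ det3 (toReal (C.ray x)) (toReal (C.ray (C.nx x))) (toReal (C.ray y)) := by
  by_cases h1 : y = x
  · rw [h1, zcz_self1]
  · by_cases h2 : y = C.nx x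
    · rw [h2, zcz_self2]
    · exact (C.pos x y h1 h2).le

theorem ZJV_cyc (x y z : Fin 3 → ℝ) : det3 x y z = det3 z x y := by
  unfold det3; ring

theorem ZJV_cycZ (x y z : Fin 3 → ℕ) : det3Z x y z = det3Z z x y := by
  unfold det3Z; ring

theorem ZJV_disj (C : Cyc a v) (o : Fin 3 → ℝ)
    (ho : ∀ x, 0 < det3 (toReal (C.ray x)) (toReal (C.ray (C.nx x))) o) (x x' : Fin C.m)
    (t α β t' α' β' : ℝ) (hα' : 0 < α') (hβ' : 0 < β')
    (h : t • o + α • toReal (C.ray x) + β • toReal (C.ray (C.nx x)) =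
      t' • o + α' • toReal (C.ray x') + β' • toReal (C.ray (C.nx x'))) :
    t' ≤ t ∧ (t = t' → (x' = x ∨ x' = C.nx x) ∧ (C.nx x' = x ∨ C.nx x' = C.nx x)) := by
  set X := toReal (C.ray x) with hX
  set Y := toReal (C.ray (C.nx x)) with hY
  have h1 := congrArg (det3 X Y) h
  have hL : det3 X Y (t • o + α • X + β • Y) = t * det3 X Y o := by
    simp only [det3, Pi.add_apply, Pi.smul_apply, smul_eq_mul]
    ring
  have hR : ∀ P Q, det3 X Y (t' • o + α' • P + β' • Q) =
      t' * det3 X Y o + α' * det3 X Y P + β' * det3 X Y Q := by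
    intro P Q
    simp only [det3, Pi.add_apply, Pi.smul_apply, smul_eq_mul]
    ring
  rw [hL, hR] at h1
  have h2 := ZJV_nonneg C x x'
  have h3 := ZJV_nonneg C x (C.nx x')
  have h4 := mul_nonneg hα'.le h2
  have h5 := mul_nonneg hβ'.le h3
  refine ⟨?_, ?_⟩
  · by_contra hcon
    push Not at hcon
    have := mul_lt_mul_of_pos_right hcon (ho x)
    linarith
  · intro ht
    rw [ht] at h1
    constructor
    · by_contra hcon
      push Not at hcon
      have := mul_pos hα' (C.pos x x' hcon.1 hcon.2)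
      linarith
    · by_contra hcon
      push Not at hcon
      have := mul_pos hβ' (C.pos x (C.nx x') hcon.1 hcon.2)
      linarith

theorem ZJV_cover (C : Cyc a v) (o : Fin 3 → ℝ)
    (ho : ∀ x, 0 < det3 (toReal (C.ray x)) (toReal (C.ray (C.nx x))) o) (z : Fin 3 → ℝ)
    (hz : z ∈ minCone a {v}) : ∃ (x : Fin C.m) (t α β : ℝ), 0 ≤ t ∧ 0 ≤ α ∧ 0 ≤ β ∧
      z = t • o + α • toReal (C.ray x) + β • toReal (C.ray (C.nx x)) := by
  have hne : (univ : Finset (Fin C.m)).Nonempty := ⟨⟨0, C.m_pos⟩, mem_univ _⟩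
  set q : Fin C.m → ℝ := fun x => det3 (toReal (C.ray x)) (toReal (C.ray (C.nx x))) z /
    det3 (toReal (C.ray x)) (toReal (C.ray (C.nx x))) o with hq
  obtain ⟨x, _, hx⟩ := exists_min_image univ q hne
  have hnn : ∀ y, 0 ≤ det3 (toReal (C.ray y)) (toReal (C.ray (C.nx y))) z := by
    intro y
    obtain ⟨c, hc, rfl⟩ := C.gen z hz
    rw [zcz_sum]
    exact Finset.sum_nonneg fun i _ => mul_nonneg (hc i) (ZJV_nonneg C y i)
  have hdet : ∀ y, det3 (toReal (C.ray y)) (toReal (C.ray (C.nx y))) (z - q x • o) =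
      det3 (toReal (C.ray y)) (toReal (C.ray (C.nx y))) z -
        q x * det3 (toReal (C.ray y)) (toReal (C.ray (C.nx y))) o := by
    intro y
    simp only [det3, Pi.sub_apply, Pi.smul_apply, smul_eq_mul]
    ring
  have hmem : z - q x • o ∈ minCone a {v} := by
    refine C.hrep _ fun y => ?_
    rw [hdet, sub_nonneg, ← le_div_iff₀ (ho y)]
    exact hx y (mem_univ y)
  obtain ⟨c, hc, hzc⟩ := C.gen _ hmem
  have h0 : det3 (toReal (C.ray x)) (toReal (C.ray (C.nx x))) (z - q x • o) = 0 := by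
    rw [hdet, hq]
    simp only
    rw [div_mul_cancel₀ _ (ho x).ne', sub_self]
  rw [hzc, zcz_sum, Finset.sum_eq_zero_iff_of_nonneg
    (fun i _ => mul_nonneg (hc i) (ZJV_nonneg C x i))] at h0
  have hc0 : ∀ y, y ≠ x → y ≠ C.nx x → c y = 0 := by
    intro y h1 h2
    have h3 := h0 y (mem_univ y)
    rcases mul_eq_zero.1 h3 with h4 | h4
    · exact h4
    · exact absurd h4 (C.pos x y h1 h2).ne'
  refine ⟨x, q x, c x, c (C.nx x), div_nonneg (hnn x) (ho x).le, hc x, hc _, ?_⟩
  have h5 : ∑ y, c y • toReal (C.ray y) =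
      c x • toReal (C.ray x) + c (C.nx x) • toReal (C.ray (C.nx x)) := by
    rw [← Finset.sum_pair (f := fun y => c y • toReal (C.ray y)) (C.nx_ne x).symm]
    symm
    apply Finset.sum_subset (subset_univ _)
    intro y _ hy
    rw [mem_insert, mem_singleton, not_or] at hy
    rw [hc0 y hy.1 hy.2, zero_smul]
  rw [h5] at hzc
  rw [add_assoc, ← hzc]
  abel

/-- Proof. `jfun_eq` with `τ = {v}`, `d = 3`, the cones `![o, ray x, ray (nx x)]`.
`mem`: `o` by `hrep`. `indep`: the determinant is positive. `cover`: let `z ∈ D_v` and let `t` be the minimum over `x` of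
`det3 g_x g_{nx x} z / det3 g_x g_{nx x} o ≥ 0`, attained at `x`. `z' = z - t o` is in `D_v` by `hrep`; `gen` and `pos` and
`det3 g_x g_{nx x} z' = 0` show that only `x` and `nx x` occur in `z'`. `disj`: if `z = t o + α g_x + β g_{nx x}` with `t, α, β > 0` then for every
`x'` the quotient above is `≥ t`, with equality iff `det3 g_x' g_{nx x'} (α g_x + β g_{nx x}) = 0` iff `{x, nx x} ⊆ {x', nx x'}` iff `x = x'`
(by `nx_nx_ne`). So `x` is determined by `z`. The terms: `coneMult_three`, `wmin = ∑ a_v` on `D_v` (`wmin_eq`),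
`det3Z o x y = det3Z x y o > 0`. -/
theorem jfun_vertex (ha : Function.Injective a) (C : Cyc a v) (o : Fin 3 → ℕ)
    (ho : ∀ x, 0 < det3Z (C.ray x) (C.ray (C.nx x)) o) (𝒟 : FaceCones a {v}) :
    JfunG a {v} 𝒟 = ∑ x, cR a v o (C.ray x) (C.ray (C.nx x)) := by
  have hoR : ∀ x, 0 < det3 (toReal (C.ray x)) (toReal (C.ray (C.nx x))) (toReal o) := by
    intro x
    rw [det3_toReal]
    exact_mod_cast ho x
  have homem : toReal o ∈ minCone a {v} := C.hrep _ fun x => (hoR x).le
  set w : Fin C.m → Fin 3 → Fin 3 → ℕ := fun x => ![o, C.ray x, C.ray (C.nx x)] with hw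
  have hmem : ∀ x c, toReal (w x c) ∈ minCone a {v} := by
    intro x c
    fin_cases c
    · exact homem
    · exact ZJV_ray_mem C x
    · exact ZJV_ray_mem C _
  have hexp : ∀ (x : Fin C.m) (y : Fin 3 → ℝ), ∑ c, y c • toReal (w x c) =
      y 0 • toReal o + y 1 • toReal (C.ray x) + y 2 • toReal (C.ray (C.nx x)) := by
    intro x y
    rw [Fin.sum_univ_three]
    rfl
  rw [jfun_eq a {v} (singleton_nonempty v) (isFace_of_full ha C.full) 𝒟 (d := 3)
    (by rw [faceRank_singleton]) w hmem ?_ ?_ ?_]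
  · refine Finset.sum_congr rfl fun x _ => ?_
    have hpos : 0 < det3Z o (C.ray x) (C.ray (C.nx x)) := by
      rw [← ZJV_cycZ]
      exact ho x
    have h1 : (coneMult (w x) : RatFunc ℂ) = (det3Z o (C.ray x) (C.ray (C.nx x)) : RatFunc ℂ) := by
      have h2 := coneMult_three o (C.ray x) (C.ray (C.nx x)) hpos.ne'
      rw [abs_of_pos hpos] at h2
      have h3 := congrArg (Int.cast : ℤ → RatFunc ℂ) h2
      rw [← h3]
      exact (Int.cast_natCast _).symm
    have h4 : ∀ c, ((wsum (w x c) : RatFunc ℂ) + (wmin a (w x c) : RatFunc ℂ) * RatFunc.X)⁻¹ =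
        (Vr a v (w x c))⁻¹ := by
      intro c
      rw [wmin_eq (hmem x c) (mem_singleton_self v)]
      rfl
    rw [h1, Fin.prod_univ_three, h4, h4, h4]
    unfold cR
    rw [div_eq_mul_inv, mul_inv, mul_inv]
    rfl
  · intro x
    have h1 : (fun c => toReal (w x c)) =
        ![toReal o, toReal (C.ray x), toReal (C.ray (C.nx x))] := by
      funext c
      fin_cases c <;> rfl
    rw [h1]
    apply zcz_indep
    rw [← ZJV_cyc]
    exact (hoR x).ne'
  · intro x x' hne
    rw [Set.disjoint_left]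
    rintro z ⟨y, hy, hz⟩ ⟨y', hy', hz'⟩
    rw [hexp] at hz hz'
    rw [hz] at hz'
    have e1 := ZJV_disj C (toReal o) hoR x x' _ _ _ _ _ _ (hy' 1) (hy' 2) hz'
    have e2 := ZJV_disj C (toReal o) hoR x' x _ _ _ _ _ _ (hy 1) (hy 2) hz'.symm
    have e3 := le_antisymm e2.1 e1.1
    obtain ⟨h1, h2⟩ := e1.2 e3
    have h3 : x' = C.nx x := h1.resolve_left fun h => hne h.symm
    have h4 : C.nx x' = x := by
      rcases h2 with h2 | h2
      · exact h2
      · exact absurd (C.nx.injective h2).symm hne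
    rw [h3] at h4
    exact C.nx_nx_ne x h4
  · intro _ z hz
    obtain ⟨x, t, α, β, ht, hα, hβ, h⟩ := ZJV_cover C (toReal o) hoR z hz
    refine ⟨x, ![t, α, β], fun c => ?_, ?_⟩
    · fin_cases c
      · exact ht
      · exact hα
      · exact hβ
    · rw [hexp, h]
      rfl

end Pool.Agent.H37.SM
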