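import Pool.Agent.H37.SM.ZSets
import Pool.Agent.H37.SM.ZJV

/-! Module ZSP: splitting the zeta function. -/

set_option autoImplicit false

namespace Pool.Agent.H37.SM

open Finset Pool.Agent.H22

variable {r : ℕ} {a : Fin r → (Fin 3 →₀ ℕ)}

/-- the rank is at most four -/
theorem faceRank_le_four (τ : Finset (Fin r)) : faceRank a τ ≤ 4 := by
  unfold faceRank
  refine (Submodule.finrank_le _).trans ?_
  rw [Module.finrank_fintype_fun_eq_card]
  simp

private theorem zsp_eq_of_rank_one (ha : Function.Injective a) {τ : Finset (Fin r)}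
    (h : faceRank a τ = 1) {v v' : Fin r} (hv : v ∈ τ) (hv' : v' ∈ τ) : v = v' := by
  unfold faceRank at h
  obtain ⟨w, _, hw⟩ := finrank_eq_one_iff'.1 h
  have key : ∀ u ∈ τ, ∃ c : ℝ, c • (w : Unit ⊕ Fin 3 → ℝ) = rowR a u := by
    intro u hu
    obtain ⟨c, hc⟩ := hw ⟨rowR a u, Submodule.subset_span ⟨u, Finset.mem_coe.2 hu, rfl⟩⟩
    exact ⟨c, congrArg Subtype.val hc⟩
  obtain ⟨c, hc⟩ := key v hv
  obtain ⟨c', hc'⟩ := key v' hv'
  have h1 : c * (w : Unit ⊕ Fin 3 → ℝ) (Sum.inl ()) = 1 := congrFun hc (Sum.inl ())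
  have h2 : c' * (w : Unit ⊕ Fin 3 → ℝ) (Sum.inl ()) = 1 := congrFun hc' (Sum.inl ())
  have h3 : (w : Unit ⊕ Fin 3 → ℝ) (Sum.inl ()) ≠ 0 := by
    intro h0
    rw [h0, mul_zero] at h1
    exact zero_ne_one h1
  have h4 : c = c' := mul_right_cancel₀ h3 (h1.trans h2.symm)
  have h5 : rowR a v = rowR a v' := by rw [← hc, ← hc', h4]
  apply ha
  ext j
  have h6 := congrFun h5 (Sum.inr j)
  simp only [rowR, Sum.elim_inr] at h6
  exact_mod_cast h6

/-- Proof. Faces of rank one are singletons (`a` injective: two distinct rows `(1, a_i)` are independent; faces are nonempty,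
`isFace_nonempty`). For `v` with `¬ IsFace a {v}` the vertex cone is not full (`isFace_of_full`), so `JfunG a {v} = 0` (`jfun_zero`,
`faceRank_singleton`). The faces of rank `≥ 2` have rank 2, 3 or 4; signs `(-1) ^ (rank - 1)`. -/
theorem zeta_split (ha : Function.Injective a) (hr : 0 < r) (𝒟 : ∀ τ, FaceCones a τ)
    (𝒯 : ∀ τ, FaceTriang a τ) (s0 : ℂ) (ι : (Fin 3 → ℕ) → Fin 3) :
    topZetaG a 𝒟 𝒯 = ∑ v, JfunG a {v} (𝒟 {v}) + RatFunc.X / (RatFunc.X + 1) *
      (-∑ τ ∈ fT a s0 ι, (nvol (𝒯 τ) : RatFunc ℂ) * JfunG a τ (𝒟 τ) -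
        ∑ τ ∈ fH a s0 ι, (nvol (𝒯 τ) : RatFunc ℂ) * JfunG a τ (𝒟 τ) +
        ∑ τ ∈ f3 a, (nvol (𝒯 τ) : RatFunc ℂ) * JfunG a τ (𝒟 τ) -
        ∑ τ ∈ f4 a, (nvol (𝒯 τ) : RatFunc ℂ) * JfunG a τ (𝒟 τ)) := by
  classical
  unfold topZetaG
  congr 1
  · -- the vertices
    have h1 : ∑ v, JfunG a {v} (𝒟 {v}) =
        ∑ v ∈ univ.filter (fun v : Fin r => IsFace a {v}), JfunG a {v} (𝒟 {v}) := by
      symm
      refine Finset.sum_filter_of_ne fun v _ hv => ?_
      by_contra hno
      apply hv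
      apply jfun_zero
      rintro ⟨u, hu1, hu2⟩
      apply hno
      have h4 : 3 + 1 - faceRank a {v} = 3 := by rw [faceRank_singleton]
      apply isFace_of_full ha
      refine ⟨fun c => u (Fin.cast h4.symm c), ?_, fun c => hu2 _⟩
      exact hu1.comp _ (Fin.cast_injective h4.symm)
    rw [h1]
    symm
    refine Finset.sum_bij (fun v _ => ({v} : Finset (Fin r))) ?_ ?_ ?_ ?_
    · intro v hv
      rw [Finset.mem_filter] at hv ⊢
      exact ⟨Finset.mem_univ _, hv.2, faceRank_singleton a v⟩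
    · intro v _ v' _ h
      exact Finset.singleton_injective h
    · intro τ hτ
      obtain ⟨_, hf, hr1⟩ := Finset.mem_filter.1 hτ
      obtain ⟨v, hv⟩ := isFace_nonempty hr hf
      have h2 : {v} = τ := by
        refine (Finset.eq_singleton_iff_unique_mem.2 ⟨hv, fun u hu => ?_⟩).symm
        exact zsp_eq_of_rank_one ha hr1 hu hv
      refine ⟨v, Finset.mem_filter.2 ⟨Finset.mem_univ _, ?_⟩, h2⟩
      rw [h2]
      exact hf
    · intro v _
      rfl
  · congr 1
    unfold fT fH f3 f4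
    rw [Finset.sum_filter, Finset.sum_filter, Finset.sum_filter, Finset.sum_filter,
      Finset.sum_filter, ← Finset.sum_neg_distrib, ← Finset.sum_sub_distrib,
      ← Finset.sum_add_distrib, ← Finset.sum_sub_distrib]
    refine Finset.sum_congr rfl fun τ _ => ?_
    have h4 := faceRank_le_four (a := a) τ
    by_cases hf : IsFace a τ
    · by_cases ht : TT a s0 ι τ
      · obtain h | h | h | h | h : faceRank a τ = 0 ∨ faceRank a τ = 1 ∨ faceRank a τ = 2 ∨
            faceRank a τ = 3 ∨ faceRank a τ = 4 := by omega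
        all_goals simp [hf, ht, h]
        all_goals ring
      · obtain h | h | h | h | h : faceRank a τ = 0 ∨ faceRank a τ = 1 ∨ faceRank a τ = 2 ∨
            faceRank a τ = 3 ∨ faceRank a τ = 4 := by omega
        all_goals simp [hf, ht, h]
        all_goals ring
    · simp [hf]

end Pool.Agent.H37.SM
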