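import Pool.Agent.H37.SM.ZFC
import Pool.Agent.H37.SM.ZJV
import Pool.Agent.H37.SM.ZRG

/-! Module ZVR: the corrected vertex terms are regular. -/

set_option autoImplicit false

namespace Pool.Agent.H37.SM

open Finset Pool.Agent.H22

variable {r : ℕ} {a : Fin r → (Fin 3 →₀ ℕ)} {s0 : ℂ} {ι : (Fin 3 → ℕ) → Fin 3}

private theorem zvr_wsum_pos {z : Fin 3 → ℕ} (hz : z ≠ 0) : 0 < wsum z := by
  rw [Nat.pos_iff_ne_zero]
  intro h0
  apply hz
  unfold wsum at h0
  rw [Finset.sum_eq_zero_iff] at h0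
  funext j
  exact h0 j (Finset.mem_univ j)

private theorem zvr_V_ne (v : Fin r) {z : Fin 3 → ℕ} (hz : z ≠ 0) : Vr a v z ≠ 0 :=
  linear_ne_zero _ _ (zvr_wsum_pos hz)

private theorem zvr_V (v : Fin r) (z : Fin 3 → ℕ) :
    Vr a v z = (z 0 : RatFunc ℂ) + (z 1 : RatFunc ℂ) + (z 2 : RatFunc ℂ) +
      ((a v 0 : RatFunc ℂ) * (z 0 : RatFunc ℂ) + (a v 1 : RatFunc ℂ) * (z 1 : RatFunc ℂ) +
        (a v 2 : RatFunc ℂ) * (z 2 : RatFunc ℂ)) * RatFunc.X := by
  unfold Vr wsum
  rw [Fin.sum_univ_three, Fin.sum_univ_three]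
  push_cast
  ring

/-- The cocycle identity `c(e,x,y) - c(o,x,y) + c(o,e,y) - c(o,e,x) = 0`. Proof: `field_simp` with `linear_ne_zero`; the
numerator identity `V(o) det(e,x,y) - V(e) det(o,x,y) + V(x) det(o,e,y) - V(y) det(o,e,x) = 0` holds since `V` is linear. -/
theorem cR_cocycle (v : Fin r) (o e x y : Fin 3 → ℕ) (ho : o ≠ 0) (he : e ≠ 0) (hx : x ≠ 0)
    (hy : y ≠ 0) : cR a v e x y - cR a v o x y + cR a v o e y - cR a v o e x = 0 := by
  have h1 := zvr_V_ne (a := a) v ho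
  have h2 := zvr_V_ne (a := a) v he
  have h3 := zvr_V_ne (a := a) v hx
  have h4 := zvr_V_ne (a := a) v hy
  have key : Vr a v o * (det3Z e x y : RatFunc ℂ) - Vr a v e * (det3Z o x y : RatFunc ℂ) +
      Vr a v x * (det3Z o e y : RatFunc ℂ) - Vr a v y * (det3Z o e x : RatFunc ℂ) = 0 := by
    rw [zvr_V, zvr_V, zvr_V, zvr_V]
    unfold det3Z
    push_cast
    ring
  have h5 : cR a v e x y - cR a v o x y + cR a v o e y - cR a v o e x =
      (Vr a v o * (det3Z e x y : RatFunc ℂ) - Vr a v e * (det3Z o x y : RatFunc ℂ) +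
      Vr a v x * (det3Z o e y : RatFunc ℂ) - Vr a v y * (det3Z o e x : RatFunc ℂ)) /
        (Vr a v o * Vr a v e * Vr a v x * Vr a v y) := by
    unfold cR
    field_simp
  rw [h5, key, zero_div]

/-- the value of the linear form at `s0` -/
private noncomputable def zvr_L (a : Fin r → (Fin 3 →₀ ℕ)) (v : Fin r) (s0 : ℂ)
    (z : Fin 3 → ℕ) : ℂ :=
  (wsum z : ℂ) + ((∑ j, a v j * z j : ℕ) : ℂ) * s0

private theorem zvr_L_eq (v : Fin r) (z : Fin 3 → ℕ) : zvr_L a v s0 z =
    (1 + (a v 0 : ℂ) * s0) * (z 0 : ℂ) + (1 + (a v 1 : ℂ) * s0) * (z 1 : ℂ) +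
      (1 + (a v 2 : ℂ) * s0) * (z 2 : ℂ) := by
  unfold zvr_L wsum
  rw [Fin.sum_univ_three, Fin.sum_univ_three]
  push_cast
  ring

private theorem zvr_crit {v : Fin r} (C : Cyc a v) (x : Fin C.m) :
    Crit a s0 (C.ray x) ↔ zvr_L a v s0 (C.ray x) = 0 := by
  unfold Crit zvr_L
  rw [mem_faceN.1 (C.mem x)]

private theorem zvr_ray_ne {v : Fin r} (C : Cyc a v) (x : Fin C.m) : C.ray x ≠ 0 := by
  intro h
  have h1 := (C.rayN x).prim 2 (fun j => by rw [h]; exact dvd_zero _)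
  omega

private theorem zvr_det_sum {v : Fin r} (C : Cyc a v) (x y : Fin 3 → ℕ) (n : ℕ)
    (x0 : Fin C.m) :
    det3Z x y (fun j => ∑ z, C.ray z j + n * C.ray x0 j) =
      ∑ z, det3Z x y (C.ray z) + n * det3Z x y (C.ray x0) := by
  unfold det3Z
  push_cast
  simp only [Finset.sum_add_distrib, Finset.sum_sub_distrib, ← Finset.mul_sum]
  ring

private theorem zvr_det_nonneg {v : Fin r} (C : Cyc a v) (x y : Fin C.m) :
    0 ≤ det3Z (C.ray x) (C.ray (C.nx x)) (C.ray y) := by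
  by_cases h1 : y = x
  · rw [h1]
    unfold det3Z
    ring_nf
    exact le_refl 0
  · by_cases h2 : y = C.nx x
    · rw [h2]
      unfold det3Z
      ring_nf
      exact le_refl 0
    · have h3 := C.pos x y h1 h2
      rw [det3_toReal] at h3
      exact_mod_cast h3.le

/-- An interior integral vector `o` with `V(o)(s0) ≠ 0`, if some `1 + s0 v_i` is not zero.
Proof: `o = ∑_x ray x + n ray x0` with `n ∈ {0, 1}`, where `V(ray x0)(s0) ≠ 0` (`x0` exists since the rays span). -/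
theorem Cyc.exists_interior {v : Fin r} (C : Cyc a v) (i : Fin 3)
    (hi : (1 : ℂ) + (a v i : ℂ) * s0 ≠ 0) :
    ∃ o : Fin 3 → ℕ, (∀ x, 0 < det3Z (C.ray x) (C.ray (C.nx x)) o) ∧
      (wsum o : ℂ) + ((∑ j, a v j * o j : ℕ) : ℂ) * s0 ≠ 0 := by
  classical
  -- a ray which is not critical
  obtain ⟨x0, hx0⟩ : ∃ x0, zvr_L a v s0 (C.ray x0) ≠ 0 := by
    by_contra hcon
    push Not at hcon
    let x : Fin C.m := ⟨0, C.m_pos⟩
    have hd := C.pos x (C.nx (C.nx x)) (C.nx_nx_ne x) (C.nx_ne (C.nx x))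
    rw [det3_toReal] at hd
    have hd' : 0 < det3Z (C.ray x) (C.ray (C.nx x)) (C.ray (C.nx (C.nx x))) := by
      exact_mod_cast hd
    have hd2 : (det3Z (C.ray x) (C.ray (C.nx x)) (C.ray (C.nx (C.nx x))) : ℂ) ≠ 0 := by
      exact_mod_cast hd'.ne'
    have e1 := hcon x
    have e2 := hcon (C.nx x)
    have e3 := hcon (C.nx (C.nx x))
    rw [zvr_L_eq] at e1 e2 e3
    apply hi
    set X := C.ray x
    set Y := C.ray (C.nx x)
    set Z := C.ray (C.nx (C.nx x))
    have key : (det3Z X Y Z : ℂ) * (1 + (a v i : ℂ) * s0) = 0 := by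
      unfold det3Z
      push_cast
      fin_cases i
      · simp only [Fin.zero_eta, Fin.isValue]
        linear_combination ((Y 1 : ℂ) * Z 2 - (Y 2 : ℂ) * Z 1) * e1 -
          ((X 1 : ℂ) * Z 2 - (X 2 : ℂ) * Z 1) * e2 + ((X 1 : ℂ) * Y 2 - (X 2 : ℂ) * Y 1) * e3
      · simp only [Fin.mk_one, Fin.isValue]
        linear_combination (-(((Y 0 : ℂ) * Z 2 - (Y 2 : ℂ) * Z 0)) * e1 +
          ((X 0 : ℂ) * Z 2 - (X 2 : ℂ) * Z 0) * e2 - ((X 0 : ℂ) * Y 2 - (X 2 : ℂ) * Y 0) * e3)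
      · simp only [Fin.reduceFinMk, Fin.isValue]
        linear_combination ((Y 0 : ℂ) * Z 1 - (Y 1 : ℂ) * Z 0) * e1 -
          ((X 0 : ℂ) * Z 1 - (X 1 : ℂ) * Z 0) * e2 + ((X 0 : ℂ) * Y 1 - (X 1 : ℂ) * Y 0) * e3
    exact (mul_eq_zero.1 key).resolve_left hd2
  have hpos : ∀ n : ℕ, ∀ x, 0 < det3Z (C.ray x) (C.ray (C.nx x))
      (fun j => ∑ z, C.ray z j + n * C.ray x0 j) := by
    intro n x
    rw [zvr_det_sum]
    have h1 : 0 < ∑ z, det3Z (C.ray x) (C.ray (C.nx x)) (C.ray z) := by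
      refine Finset.sum_pos' (fun z _ => zvr_det_nonneg C x z)
        ⟨C.nx (C.nx x), mem_univ _, ?_⟩
      have hd := C.pos x (C.nx (C.nx x)) (C.nx_nx_ne x) (C.nx_ne (C.nx x))
      rw [det3_toReal] at hd
      exact_mod_cast hd
    have h2 := mul_nonneg (Int.natCast_nonneg n) (zvr_det_nonneg C x x0)
    linarith
  have hL : ∀ n : ℕ, zvr_L a v s0 (fun j => ∑ z, C.ray z j + n * C.ray x0 j) =
      ∑ z, zvr_L a v s0 (C.ray z) + n * zvr_L a v s0 (C.ray x0) := by
    intro n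
    simp only [zvr_L_eq, Finset.sum_add_distrib, ← Finset.mul_sum]
    push_cast
    ring
  by_cases h0 : ∑ z, zvr_L a v s0 (C.ray z) = 0
  · refine ⟨_, hpos 1, ?_⟩
    change zvr_L a v s0 _ ≠ 0
    rw [hL, h0]
    simpa using hx0
  · refine ⟨_, hpos 0, ?_⟩
    change zvr_L a v s0 _ ≠ 0
    rw [hL]
    simpa using h0

/-- `c_v(x,y,z)` is regular if none of the three linear forms vanishes at `s0` -/
theorem cR_reg (v : Fin r) (x y z : Fin 3 → ℕ)
    (hx : (wsum x : ℂ) + ((∑ j, a v j * x j : ℕ) : ℂ) * s0 ≠ 0)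
    (hy : (wsum y : ℂ) + ((∑ j, a v j * y j : ℕ) : ℂ) * s0 ≠ 0)
    (hz : (wsum z : ℂ) + ((∑ j, a v j * z j : ℕ) : ℂ) * s0 ≠ 0) : Reg s0 (cR a v x y z) := by
  have h : cR a v x y z = (det3Z x y z : RatFunc ℂ) *
      ((Vr a v x)⁻¹ * (Vr a v y)⁻¹ * (Vr a v z)⁻¹) := by
    unfold cR
    rw [div_eq_mul_inv, mul_inv, mul_inv]
  rw [h]
  exact (reg_intCast _).mul (((reg_inv_linear _ _ hx).mul (reg_inv_linear _ _ hy)).mul
    (reg_inv_linear _ _ hz))

private theorem zvr_eN_ne (i : Fin 3) : eN i ≠ 0 := by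
  intro h
  have := congrFun h i
  simp [eN] at this

private theorem zvr_eN_L (v : Fin r) (i : Fin 3) :
    (wsum (eN i) : ℂ) + ((∑ j, a v j * eN i j : ℕ) : ℂ) * s0 = 1 + (a v i : ℂ) * s0 := by
  have h1 : wsum (eN i) = 1 := by
    unfold wsum eN
    rw [Finset.sum_pi_single']
    simp
  have h2 : ∑ j, a v j * eN i j = a v i := by
    unfold eN
    rw [Finset.sum_eq_single i]
    · simp
    · intro j _ hj
      simp [hj]
    · intro h
      exact absurd (mem_univ i) h
  rw [h1, h2]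
  push_cast
  ring

private theorem zvr_one_add (hs : s0 ≠ -1) {n : ℕ} (hn : n ≤ 1) : (1 : ℂ) + (n : ℂ) * s0 ≠ 0 := by
  intro h
  interval_cases n
  · simp at h
  · apply hs
    push_cast at h
    linear_combination h

/-- Proof. No critical ray: all `tt` vanish; some `1 + s0 v_i ≠ 0` (otherwise all rays would be critical), `exists_interior`,
`jfun_vertex`, `cR_reg`. Otherwise let `w` be critical, `i = ι w`: `v_i ≤ 1`, so `1 + s0 v_i ≠ 0` (`s0 ≠ -1`): choose `o` by `exists_interior`. By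
`jfun_vertex` the difference is the sum of `c(o, x, nx x)` over the not touching faces (regular, `cR_reg`) and of
`c(o,x,nx x) - c(e_i,x,nx x) = h_i(x) - h_i(nx x)`, `h_i(z) = c(o, z, e_i)`, `i = idx x`, over the touching faces (`cR_cocycle`, antisymmetry).
Regroup by rays `z` (`Equiv.sum_comp C.nx`): the coefficient is `[touch z] h_{idx z}(z) - [touch (pv z)] h_{idx (pv z)}(z)`, `pv = nx.symm`. If `z` is critical both
faces are touching and both indices are `ι (ray z)` (`Cyc.index_eq`), so the coefficient is zero. Otherwise each of the two terms is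
regular: `V(o)`, `V(z) = W_z` do not vanish at `s0`, `V(e_i) = 1 + v_i s0` with `v_i ≤ 1` (`idx_spec`, `C.mem`). -/
theorem Cyc.reg (ha : Function.Injective a) (hs : s0 ≠ -1) (hT : Thin a s0 ι) {v : Fin r}
    (C : Cyc a v) (𝒟 : FaceCones a {v}) : Reg s0 (JfunG a {v} 𝒟 - ∑ x, C.tt s0 ι x) := by
  classical
  -- some coordinate is good
  obtain ⟨i, hi⟩ : ∃ i, (1 : ℂ) + (a v i : ℂ) * s0 ≠ 0 := by
    by_cases hc : ∃ x, Crit a s0 (C.ray x)
    · obtain ⟨x, hx⟩ := hc
      exact ⟨ι (C.ray x), zvr_one_add hs (hT.le_one _ (C.rayN x) hx v (C.mem x))⟩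
    · push Not at hc
      by_contra hcon
      push Not at hcon
      apply hc ⟨0, C.m_pos⟩
      rw [zvr_crit, zvr_L_eq, hcon, hcon, hcon]
      ring
  obtain ⟨o, ho, hoV⟩ := C.exists_interior i hi
  have ho0 : o ≠ 0 := by
    rintro rfl
    have h := ho ⟨0, C.m_pos⟩
    unfold det3Z at h
    simp at h
  rw [jfun_vertex ha C o ho 𝒟]
  have hidx : ∀ x, C.touch s0 x → a v (C.idx s0 ι x) ≤ 1 := by
    intro x hx
    obtain ⟨w, hw, _, _, _, h5⟩ := C.idx_spec hT x hx
    rcases hw with rfl | rfl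
    · exact h5 v (C.mem _)
    · exact h5 v (C.mem _)
  let T : Fin C.m → RatFunc ℂ := fun x =>
    if C.touch s0 x then cR a v o (eN (C.idx s0 ι x)) (C.ray (C.nx x)) else 0
  let U : Fin C.m → RatFunc ℂ := fun x =>
    if C.touch s0 x then cR a v o (eN (C.idx s0 ι x)) (C.ray x) else 0
  let R : Fin C.m → RatFunc ℂ := fun x =>
    if C.touch s0 x then 0 else cR a v o (C.ray x) (C.ray (C.nx x))
  have hdec : ∀ x, cR a v o (C.ray x) (C.ray (C.nx x)) - C.tt s0 ι x = R x + (T x - U x) := by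
    intro x
    by_cases h : C.touch s0 x
    · simp only [R, T, U, Cyc.tt, if_pos h]
      have h1 := cR_cocycle (a := a) v o (eN (C.idx s0 ι x)) (C.ray x) (C.ray (C.nx x)) ho0
        (zvr_eN_ne _) (zvr_ray_ne C _) (zvr_ray_ne C _)
      linear_combination (-1 : RatFunc ℂ) * h1
    · simp only [R, T, U, Cyc.tt, if_neg h]
      ring
  have hsum : ∑ x, cR a v o (C.ray x) (C.ray (C.nx x)) - ∑ x, C.tt s0 ι x =
      ∑ x, R x + ∑ z, (T (C.nx.symm z) - U z) := by
    rw [← Finset.sum_sub_distrib, Finset.sum_congr rfl fun x _ => hdec x,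
      Finset.sum_add_distrib, Finset.sum_sub_distrib, Finset.sum_sub_distrib,
      Equiv.sum_comp C.nx.symm T]
  rw [hsum]
  refine (Reg.sum _ _ fun x _ => ?_).add (Reg.sum _ _ fun z _ => ?_)
  · by_cases h : C.touch s0 x
    · simp only [R, if_pos h]
      exact reg_zero
    · simp only [R, if_neg h]
      unfold Cyc.touch at h
      push Not at h
      refine cR_reg v _ _ _ hoV ?_ ?_
      · exact fun h0 => h.1 ((zvr_crit C x).2 h0)
      · exact fun h0 => h.2 ((zvr_crit C _).2 h0)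
  · have hnx : C.nx (C.nx.symm z) = z := Equiv.apply_symm_apply _ _
    by_cases hz : Crit a s0 (C.ray z)
    · have t1 : C.touch s0 z := Or.inl hz
      have t2 : C.touch s0 (C.nx.symm z) := Or.inr (by rw [hnx]; exact hz)
      have i1 : C.idx s0 ι z = ι (C.ray z) := by
        unfold Cyc.idx
        rw [if_pos hz]
      have i2 : C.idx s0 ι (C.nx.symm z) = ι (C.ray z) := by
        unfold Cyc.idx
        by_cases h1 : Crit a s0 (C.ray (C.nx.symm z))
        · rw [if_pos h1]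
          have h2 := C.index_eq ha hs hT (C.nx.symm z) h1 (by rw [hnx]; exact hz)
          rw [hnx] at h2
          exact h2
        · rw [if_neg h1, hnx]
      simp only [T, U, if_pos t1, if_pos t2]
      rw [hnx, i1, i2, sub_self]
      exact reg_zero
    · have hzV : (wsum (C.ray z) : ℂ) + ((∑ j, a v j * C.ray z j : ℕ) : ℂ) * s0 ≠ 0 :=
        fun h0 => hz ((zvr_crit C z).2 h0)
      refine Reg.sub ?_ ?_
      · by_cases h : C.touch s0 (C.nx.symm z)
        · simp only [T, if_pos h]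
          rw [hnx]
          refine cR_reg v _ _ _ hoV ?_ hzV
          rw [zvr_eN_L]
          exact zvr_one_add hs (hidx _ h)
        · simp only [T, if_neg h]
          exact reg_zero
      · by_cases h : C.touch s0 z
        · simp only [U, if_pos h]
          refine cR_reg v _ _ _ hoV ?_ hzV
          rw [zvr_eN_L]
          exact zvr_one_add hs (hidx _ h)
        · simp only [U, if_neg h]
          exact reg_zero

/-- Proof. `vertT`: if there is a cyclic structure use `Cyc.reg`. Otherwise `Full3` fails (`exists_cyc`), `vertT = 0` and `jfun_zero`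
(`faceRank_singleton`). -/
theorem vertex_reg (ha : Function.Injective a) (hs : s0 ≠ -1) (hT : Thin a s0 ι) (v : Fin r)
    (𝒟 : FaceCones a {v}) : Reg s0 (JfunG a {v} 𝒟 - vertT a s0 ι v) := by
  classical
  by_cases h : Nonempty (Cyc a v)
  · have h1 : vertT a s0 ι v = ∑ x, h.some.tt s0 ι x := by
      unfold vertT
      rw [dif_pos h]
    rw [h1]
    exact Cyc.reg ha hs hT h.some 𝒟
  · have h1 : vertT a s0 ι v = 0 := by
      unfold vertT
      rw [dif_neg h]
    rw [h1, sub_zero, jfun_zero a {v} 𝒟]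
    · exact reg_zero
    · have hr := faceRank_singleton a v
      rw [hr]
      intro h2
      exact h (exists_cyc v h2)

end Pool.Agent.H37.SM
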