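import Pool.Agent.H37.SM.ZHO
import Pool.Agent.H37.SM.ZSP
import Pool.Agent.H37.SM.ZMT
import Pool.Agent.H37.SM.ZVR

/-! Module ZAS: no pole at `s0`. -/

set_option autoImplicit false

namespace Pool.Agent.H37.SM

open Finset Pool.Agent.H22

variable {r : ℕ} {a : Fin r → (Fin 3 →₀ ℕ)} {s0 : ℂ} {ι : (Fin 3 → ℕ) → Fin 3}

/-- Proof. `zeta_split`. For `τ ∈ fT` `nvol = 1` (`TT.spec`, `nvol_pair`). So by `match_sum`
`topZetaG = ∑_v (J_v - vertT v) + X/(X+1) (hor difference) - X/(X+1) ∑_{f4} ...`: `vertex_reg`, `hor_reg`, `reg_X_div`, `jfun_const`. -/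
theorem zeta_regular (ha : Function.Injective a) (hr : 0 < r) (hs : s0 ≠ -1) (hT : Thin a s0 ι)
    (𝒟 : ∀ τ, FaceCones a τ) (𝒯 : ∀ τ, FaceTriang a τ) : Reg s0 (topZetaG a 𝒟 𝒯) := by
  rw [zeta_split ha hr 𝒟 𝒯 s0 ι]
  have hm := match_sum ha hr hs hT 𝒟
  have hT1 : ∑ τ ∈ fT a s0 ι, (nvol (𝒯 τ) : RatFunc ℂ) * JfunG a τ (𝒟 τ) =
      ∑ τ ∈ fT a s0 ι, JfunG a τ (𝒟 τ) := by
    refine Finset.sum_congr rfl fun τ hτ => ?_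
    obtain ⟨w, w', p, q, _, _, _, _, _, hp, hq, hpq, _⟩ := TT.spec ha hT (mem_fT.1 hτ).2.2
    have h1 : nvol (𝒯 τ) = 1 := by
      subst hpq
      exact nvol_pair p q (ι w) (by rw [hp, hq]; norm_num) _
    rw [h1, Nat.cast_one, one_mul]
  rw [hT1]
  set ST := ∑ τ ∈ fT a s0 ι, JfunG a τ (𝒟 τ) with hST
  set SH := ∑ τ ∈ fH a s0 ι, (nvol (𝒯 τ) : RatFunc ℂ) * JfunG a τ (𝒟 τ) with hSH
  set S3 := ∑ τ ∈ f3 a, (nvol (𝒯 τ) : RatFunc ℂ) * JfunG a τ (𝒟 τ) with hS3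
  set S4 := ∑ τ ∈ f4 a, (nvol (𝒯 τ) : RatFunc ℂ) * JfunG a τ (𝒟 τ) with hS4
  have e : ∑ v, JfunG a {v} (𝒟 {v}) + RatFunc.X / (RatFunc.X + 1) * (-ST - SH + S3 - S4) =
      ∑ v, (JfunG a {v} (𝒟 {v}) - vertT a s0 ι v) +
        (RatFunc.X / (RatFunc.X + 1) * (S3 - SH) - RatFunc.X / (RatFunc.X + 1) * S4) := by
    rw [Finset.sum_sub_distrib, hm]
    ring
  rw [e]
  have hX := reg_X_div hs
  have h4 : Reg s0 S4 := by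
    refine Reg.sum _ _ fun τ hτ => ?_
    obtain ⟨N, hN⟩ := jfun_const a τ (𝒟 τ) (by rw [(mem_f4.1 hτ).2])
    rw [hN]
    exact (reg_natCast _).mul (reg_natCast _)
  exact (Reg.sum _ _ fun v _ => vertex_reg ha hs hT v (𝒟 {v})).add
    ((hX.mul (hor_reg ha hr hs hT 𝒟 𝒯)).sub (hX.mul h4))

end Pool.Agent.H37.SM
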