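import Pool.Agent.H37.SM.CLR
import Pool.Agent.H37.SM.ZAS
import Pool.Agent.H37.SM.FEI
import Pool.Agent.H37.SM.FEJ

/-! Module FIN: the theorem. -/

set_option autoImplicit false

namespace Pool.Agent.H37.SM

open Finset Pool.Agent.H22

variable {r : ℕ}

/-- Proof. `s0 = -1`: `b_neg_one`. Otherwise suppose `b(s0) ≠ 0`. If `s0` is an integer: `thin_int`. If not: `fe_identity` and `thin_root`. Then
`zeta_regular`. -/
theorem main3 (a : Fin r → (Fin 3 →₀ ℕ)) (κ : Fin r → ℂ) (ha : Function.Injective a)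
    (hκ : ∀ i, κ i ≠ 0) (hne : ∃ i, a i ≠ 0) (hnd : AllNonDeg (mkDat a κ ha hκ))
    (𝒟 : ∀ τ, FaceCones a τ) (𝒯 : ∀ τ, FaceTriang a τ) (b : Polynomial ℂ) (P : WeylS 3)
    (hP : FunctionalEquation (∑ i, MvPolynomial.monomial (a i) (κ i)) b P) (s0 : ℂ)
    (hpole : (topZetaG a 𝒟 𝒯).denom.eval s0 = 0) : b.eval s0 = 0 := by
  have hr : 0 < r := by
    obtain ⟨i, _⟩ := hne
    exact lt_of_le_of_lt (Nat.zero_le _) i.2
  by_contra hb
  have hs1 : s0 ≠ -1 := by
    intro h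
    exact hb (by rw [h]; exact b_neg_one a κ ha hκ hne b P hP)
  have hthin : ∃ ι, Thin a s0 ι := by
    by_cases hint : ∃ n : ℤ, s0 = n
    · obtain ⟨n, hn⟩ := hint
      have hn1 : n ≠ -1 := by
        intro h
        exact hs1 (by rw [hn, h]; simp)
      rw [hn]
      exact thin_int ha hr n hn1
    · push Not at hint
      refine thin_root a κ ha hκ hr hnd s0 hint ?_
      exact fe_identity a κ ha hκ hr b P hP s0 hs1 (fun k => by exact_mod_cast hint (k : ℤ)) hb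
  obtain ⟨ι, hι⟩ := hthin
  exact zeta_regular ha hr hs1 hι 𝒟 𝒯 hpole

end Pool.Agent.H37.SM
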