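import Pool.Agent.H37.SM.PLB

/-! Module FRA: final raising along all edges of the polygon. -/

set_option autoImplicit false

namespace Pool.Agent.H37.SM

open Finset

variable {r : ℕ} {F : Dat r} {w : Fin 3 → ℤ} {N : ℤ}

lemma fra_bd2_supp {ι : Type*} [Fintype ι] {B : Finset (Fin r)} {s : ℂ} {c : ι → Fin 4 → ℂ}
    {X : Set Pt} (hX : Closed F B X) (e : ι → ℂ) (W : Pt → ℂ) {y : ι → LL}
    (hy : ∀ j, SuppIn X (y j)) (j : ι) :
    SuppIn X (y j - bd2 F B s c (fun i j => e i • dg W (y j)) j) := by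
  refine (hy j).sub ?_
  unfold bd2
  refine SuppIn.sum fun i _ => ?_
  refine SuppIn.D ?_ hX s (c i)
  exact (((hy j).dg W).smul _).sub (((hy i).dg W).smul _)

lemma fra_bd_sub {ι : Type*} [Fintype ι] (B : Finset (Fin r)) (s : ℂ) (c : ι → Fin 4 → ℂ)
    (y : ι → LL) (ζ : ι → ι → LL) :
    bd F B s c (fun j => y j - bd2 F B s c ζ j) = bd F B s c y := by
  have h : bd F B s c (fun j => y j - bd2 F B s c ζ j) =
      bd F B s c y - bd F B s c (bd2 F B s c ζ) := by
    unfold bd
    rw [← Finset.sum_sub_distrib]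
    exact Finset.sum_congr rfl fun i _ => map_sub _ _ _
  rw [h, bd_bd2, sub_zero]

lemma fra_closed_el (P : Poly F w N) (e : Fin P.m) (n : ℤ) :
    Closed F (F.face w N) {p | n ≤ P.el e p} := by
  intro p hp i _
  have h1 : n ≤ P.el e p := hp
  have h2 := P.el_hat_nonneg e i
  show n ≤ P.el e (p + F.hat i)
  rw [P.el_add]
  omega

lemma fra_closed_gt (P : Poly F w N) (e : Fin P.m) (n : ℤ) :
    Closed F (F.face w N) {p | n < P.el e p} := by
  intro p hp i _
  have h1 : n < P.el e p := hp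
  have h2 := P.el_hat_nonneg e i
  show n < P.el e (p + F.hat i)
  rw [P.el_add]
  omega

lemma fra_el_one4 (P : Poly F w N) (e : Fin P.m) : P.el e one4 = wt (P.ew e) := ell_one4 _ _

/-- the coefficients of the edge form -/
noncomputable def fraE (P : Poly F w N) (e : Fin P.m) (l : Fin 3) : ℂ :=
  (P.ew e l : ℂ) - (P.eN e : ℂ) / N * (w l : ℂ)

lemma fra_lin (P : Poly F w N) (hN : 0 < N) (e : Fin P.m) (p : Pt) :
    lin (∑ l, fraE P e l • c3 l) p =
      (P.el e p : ℂ) - (P.eN e : ℂ) / N * (ell w N p : ℂ) := by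
  have hN' : (N : ℂ) ≠ 0 := by exact_mod_cast hN.ne'
  have h1 : lin (∑ l, fraE P e l • c3 l) p = ∑ l, fraE P e l * lin (c3 l) p := by
    rw [Fin.sum_univ_three, Fin.sum_univ_three, lin_add_left, lin_add_left, lin_smul_left,
      lin_smul_left, lin_smul_left]
  rw [h1, Fin.sum_univ_three, lin_c3, lin_c3, lin_c3]
  unfold fraE Poly.el ell
  push_cast
  field_simp
  ring

lemma fra_three (P : Poly F w N) (e : Fin P.m) : (∑ l, fraE P e l • c3 l) 3 = 0 := by
  rw [Finset.sum_apply]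
  refine Finset.sum_eq_zero fun l _ => ?_
  rw [Pi.smul_apply, c3_three, smul_zero]

lemma fra_step (P : Poly F w N) (hN : 0 < N) (s0 : ℂ) (hs : (wt w : ℂ) + N * s0 = 0)
    (e : Fin P.m) (X : Set Pt) (hX : Closed F (F.face w N) X) (t : ℤ) (ht : t ≤ wt (P.ew e))
    (h1 : one4 ∈ X) (k : ℕ) : ∀ (n : ℤ) (y : Fin 3 → LL), t ≤ n + k →
    (∀ l, SuppIn (slice w N (wt w) ∩ X ∩ {p | n ≤ P.el e p}) (y l)) →
    (∀ n : ℤ, n < t → (n : ℂ) + P.eN e * s0 = 0 → ∀ l, SuppIn {p | n < P.el e p} (y l)) →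
    bd F (F.face w N) s0 c3 y = mono one4 →
    ∃ y' : Fin 3 → LL, (∀ l, SuppIn (slice w N (wt w) ∩ X ∩ {p | t ≤ P.el e p}) (y' l)) ∧
      bd F (F.face w N) s0 c3 y' = mono one4 := by
  induction k with
  | zero =>
    intro n y hn hy _ hb
    refine ⟨y, fun l => (hy l).mono fun p hp => ⟨hp.1, ?_⟩, hb⟩
    have h2 : n ≤ P.el e p := hp.2
    have h3 : t ≤ n := by simpa using hn
    exact h3.trans h2
  | succ k ih =>
    intro n y hn hy hnc hb
    by_cases hnt : t ≤ n
    · refine ⟨y, fun l => (hy l).mono fun p hp => ⟨hp.1, ?_⟩, hb⟩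
      have h2 : n ≤ P.el e p := hp.2
      exact hnt.trans h2
    push Not at hnt
    have hn' : t ≤ (n + 1) + k := by
      push_cast at hn
      linarith
    by_cases hcr : (n : ℂ) + P.eN e * s0 = 0
    · refine ih (n + 1) y hn' (fun l p hp => ⟨(hy l p hp).1, ?_⟩) hnc hb
      have h2 : n < P.el e p := hnc n hnt hcr l p hp
      show n + 1 ≤ P.el e p
      omega
    -- the elimination step
    have hcX : Closed F (F.face w N) (slice w N (wt w) ∩ X ∩ {p | n ≤ P.el e p}) :=
      ((face_closed subset_rfl _).inter hX).inter (fra_closed_el P e n)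
    have hcY : Closed F (F.face w N) (slice w N (wt w) ∩ X ∩ {p | n + 1 ≤ P.el e p}) :=
      ((face_closed subset_rfl _).inter hX).inter (fra_closed_el P e (n + 1))
    have hlev : ∀ p ∈ slice w N (wt w) ∩ X ∩ {p | n ≤ P.el e p},
        p ∉ slice w N (wt w) ∩ X ∩ {p | n + 1 ≤ P.el e p} → P.el e p = n := by
      intro p hp hp'
      have h2 : n ≤ P.el e p := hp.2
      by_contra h3
      refine hp' ⟨hp.1, ?_⟩
      show n + 1 ≤ P.el e p
      omega
    obtain ⟨W, hW⟩ := layer1 F (F.face w N) s0 c3 (fraE P e)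
      (slice w N (wt w) ∩ X ∩ {p | n ≤ P.el e p})
      (slice w N (wt w) ∩ X ∩ {p | n + 1 ≤ P.el e p}) hcX hcY
      (fun p hp => ⟨hp.1, by
        have h2 : n + 1 ≤ P.el e p := hp.2
        show n ≤ P.el e p
        omega⟩)
      (by
        intro p hp hp'
        rw [fra_lin P hN, fra_three, mul_zero, sub_zero, hlev p hp hp']
        have h2 : ell w N p = wt w := hp.1.1
        rw [h2]
        have hN' : (N : ℂ) ≠ 0 := by exact_mod_cast hN.ne'
        have h3 : (wt w : ℂ) = -(N * s0) := by linear_combination hs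
        rw [h3]
        intro h4
        apply hcr
        rw [← h4]
        field_simp
        ring)
      (by
        intro p hp hp' l hl
        have h2 : ell w N (F.hat l) = 0 := mem_face.mp hl
        rw [fra_lin P hN, h2]
        rcases eq_or_lt_of_le (P.el_hat_nonneg e l) with h3 | h3
        · left
          rw [← h3]
          simp
        · right
          have h4 := hcX p hp l hl
          refine ⟨h4.1, ?_⟩
          show n + 1 ≤ P.el e (p + F.hat l)
          rw [P.el_add, hlev p hp hp']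
          omega)
      y hy
      (by
        rw [hb]
        refine suppIn_mono ⟨⟨ell_one4 w N, h1⟩, ?_⟩
        show n + 1 ≤ P.el e one4
        rw [fra_el_one4]
        omega)
    refine ih (n + 1) (fun j => y j - bd2 F (F.face w N) s0 c3
      (fun i j => fraE P e i • dg W (y j)) j) hn' hW ?_ ?_
    · intro m hm hmc l
      exact fra_bd2_supp (fra_closed_gt P e m) (fraE P e) W (hnc m hm hmc) l
    · rw [fra_bd_sub, hb]

/-- Raising on the slice along one edge `e` to the level `t ≤ |ew e|`, inside a closed set `X`. -/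
theorem raiseEdge (P : Poly F w N) (hN : 0 < N) (s0 : ℂ) (hs : (wt w : ℂ) + N * s0 = 0)
    (e : Fin P.m) (X : Set Pt) (hX : Closed F (F.face w N) X) (t : ℤ) (ht : t ≤ wt (P.ew e))
    (y : Fin 3 → LL) (hy : ∀ l, SuppIn (slice w N (wt w) ∩ X) (y l))
    (hnc : ∀ n : ℤ, n < t → (n : ℂ) + P.eN e * s0 = 0 → ∀ l, SuppIn {p | n < P.el e p} (y l))
    (hb : bd F (F.face w N) s0 c3 y = mono one4) (h1 : one4 ∈ X) :
    ∃ y' : Fin 3 → LL, (∀ l, SuppIn (slice w N (wt w) ∩ X ∩ {p | t ≤ P.el e p}) (y' l)) ∧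
      bd F (F.face w N) s0 c3 y' = mono one4 := by
  classical
  have hfin : (⋃ j, {p | cf (y j) p ≠ 0}).Finite := Set.finite_iUnion fun j => cf_finite (y j)
  obtain ⟨b, hb'⟩ := (hfin.image fun p : Pt => P.el e p).bddBelow
  refine fra_step P hN s0 hs e X hX t ht h1 (t - b).toNat b y ?_ ?_ hnc hb
  · have := Int.self_le_toNat (t - b)
    linarith
  · intro l p hp
    refine ⟨hy l p hp, ?_⟩
    exact hb' ⟨p, Set.mem_iUnion.2 ⟨l, hp⟩, rfl⟩

/-- Raising along all edges. -/
theorem raiseAll (P : Poly F w N) (hN : 0 < N) (s0 : ℂ) (hs : (wt w : ℂ) + N * s0 = 0)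
    (t : Fin P.m → ℤ) (ht : ∀ e, t e ≤ wt (P.ew e)) (y : Fin 3 → LL)
    (hy : ∀ l, SuppIn (slice w N (wt w)) (y l))
    (hnc : ∀ e, ∀ n : ℤ, n < t e → (n : ℂ) + P.eN e * s0 = 0 →
      ∀ l, SuppIn {p | n < P.el e p} (y l))
    (hb : bd F (F.face w N) s0 c3 y = mono one4) :
    ∃ y' : Fin 3 → LL, (∀ l, SuppIn (slice w N (wt w) ∩ {p | ∀ e, t e ≤ P.el e p}) (y' l)) ∧
      bd F (F.face w N) s0 c3 y' = mono one4 := by
  classical
  set C : Set Pt := {p | ∀ e, ∀ n : ℤ, n < t e → (n : ℂ) + P.eN e * s0 = 0 → n < P.el e p}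
    with hC
  have hCc : Closed F (F.face w N) C := by
    intro p hp i hi e n hn hcr
    exact fra_closed_gt P e n p (hp e n hn hcr) i hi
  have key : ∀ S : Finset (Fin P.m), ∃ y' : Fin 3 → LL,
      (∀ l, SuppIn (slice w N (wt w) ∩ (C ∩ {p | ∀ e ∈ S, t e ≤ P.el e p})) (y' l)) ∧
        bd F (F.face w N) s0 c3 y' = mono one4 := by
    intro S
    induction S using Finset.induction_on with
    | empty =>
      refine ⟨y, fun l p hp => ⟨hy l p hp, fun e n hn hcr => hnc e n hn hcr l p hp, ?_⟩, hb⟩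
      intro e he
      exact absurd he (Finset.notMem_empty e)
    | insert a S ha ih =>
      obtain ⟨y₁, hy₁, hb₁⟩ := ih
      have hcl : Closed F (F.face w N) (C ∩ {p | ∀ e ∈ S, t e ≤ P.el e p}) := by
        refine hCc.inter ?_
        intro p hp i hi e he
        exact fra_closed_el P e (t e) p (hp e he) i hi
      have hone : one4 ∈ C ∩ {p | ∀ e ∈ S, t e ≤ P.el e p} := by
        refine ⟨fun e n hn _ => ?_, fun e _ => ?_⟩
        · rw [fra_el_one4]
          exact lt_of_lt_of_le hn (ht e)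
        · rw [fra_el_one4]
          exact ht e
      obtain ⟨y₂, hy₂, hb₂⟩ := raiseEdge P hN s0 hs a _ hcl (t a) (ht a) y₁ hy₁
        (fun n hn hcr l p hp => (hy₁ l p hp).2.1 a n hn hcr) hb₁ hone
      refine ⟨y₂, fun l p hp => ?_, hb₂⟩
      have h2 := hy₂ l p hp
      refine ⟨h2.1.1, h2.1.2.1, ?_⟩
      intro e he
      rcases Finset.mem_insert.1 he with rfl | he
      · exact h2.2
      · exact h2.1.2.2 e he
  obtain ⟨y', hy', hb'⟩ := key Finset.univ
  exact ⟨y', fun l p hp => ⟨(hy' l p hp).1, fun e => (hy' l p hp).2.2 e (Finset.mem_univ e)⟩, hb'⟩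

end Pool.Agent.H37.SM
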