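import Pool.Agent.H37.SM.KOX

/-! Module GST: from a primitive with high support to the ideal. -/

set_option autoImplicit false

namespace Pool.Agent.H37.SM

open Finset

variable {r : ℕ} {F : Dat r} {w : Fin 3 → ℤ} {N : ℤ}

/-- the interior points of the cone over the polygon -/
def Poly.gstOm (P : Poly F w N) : Set Pt := {p | ell w N p = 0 ∧ ∀ e, 1 ≤ P.el e p}

lemma gst_cut_E (B : Finset (Fin r)) (c : Fin 4 → ℂ) (d : ℤ) (η : LL) :
    cut {p : Pt | p 3 = d} (E F B c * η) = E F B c * cut {p : Pt | p 3 = d - 1} η := by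
  apply ext_cf
  intro p
  rw [cf_E_mul]
  by_cases hp : p 3 = d
  · rw [cf_cut_of_mem (show p ∈ {p : Pt | p 3 = d} from hp), cf_E_mul]
    refine Finset.sum_congr rfl fun i _ => ?_
    rw [cf_cut_of_mem]
    show (p - F.hat i) 3 = d - 1
    rw [Pi.sub_apply, F.hat_three, hp]
  · rw [cf_cut_of_notMem (show p ∉ {p : Pt | p 3 = d} from hp)]
    symm
    refine Finset.sum_eq_zero fun i _ => ?_
    rw [cf_cut_of_notMem, mul_zero]
    intro h
    have h' : (p - F.hat i) 3 = d - 1 := h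
    rw [Pi.sub_apply, F.hat_three] at h'
    exact hp (by linarith)

/-- Exactness of `E` on the interior module `ω` in a fixed degree. -/
theorem Poly.koszul_om (P : Poly F w N) (hw : Pos3 w) (hN : 0 < N) (hU : UnitOn F (F.face w N))
    (hUe : ∀ e, UnitOn F (P.edge e)) (d : ℤ) (y : Fin 3 → LL)
    (hy : ∀ j, SuppIn (P.om d) (y j)) (h0 : dotE F (F.face w N) y = 0) :
    ∃ z : Fin 3 → LL, (∀ j, SuppIn (P.om (d - 1)) (z j)) ∧
      ∀ j, y j = crossE F (F.face w N) z j := by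
  classical
  obtain ⟨q, hq0, hq1, -⟩ := P.exists_generic 0
  -- scaling
  have hne : (Finset.univ : Finset (Fin P.m)).Nonempty := ⟨⟨0, P.m_pos⟩, Finset.mem_univ _⟩
  set S : ℝ := ∑ e, P.elR e q with hS
  have hSpos : 0 < S := Finset.sum_pos (fun e _ => hq1 e) hne
  have hle : ∀ e, P.elR e q ≤ S := fun e =>
    Finset.single_le_sum (f := fun e => P.elR e q) (fun e _ => (hq1 e).le) (Finset.mem_univ e)
  set q' : Fin 4 → ℝ := S⁻¹ • q with hq'
  have hq'0 : ellR w N q' = ((0 : ℤ) : ℝ) := by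
    rw [hq', ellR_smul, hq0]
    simp
  have hq'1 : ∀ e, 0 < P.elR e q' ∧ P.elR e q' ≤ 1 := by
    intro e
    have h1 : P.elR e q' = S⁻¹ * P.elR e q := ellR_smul _ _ _ _
    rw [h1]
    refine ⟨mul_pos (inv_pos.2 hSpos) (hq1 e), ?_⟩
    rw [inv_mul_le_iff₀ hSpos, mul_one]
    exact hle e
  have hM : P.M 0 q' = P.gstOm := by
    ext p
    constructor
    · rintro ⟨h1, h2⟩
      refine ⟨h1, fun e => ?_⟩
      have h3 := lt_of_lt_of_le (hq'1 e).1 (h2 e)
      have h4 : 0 < P.el e p := by exact_mod_cast h3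
      omega
    · rintro ⟨h1, h2⟩
      refine ⟨h1, fun e => ?_⟩
      refine (hq'1 e).2.trans ?_
      have := h2 e
      exact_mod_cast this
  have hyM : ∀ j, SuppIn (P.M 0 q') (y j) := by
    intro j
    rw [hM]
    exact (hy j).mono fun p hp => ⟨hp.1, hp.2.2⟩
  obtain ⟨z, hz1, hz2⟩ := P.koszul hw hN hU hUe 0 q' hq'0 y hyM h0
  rw [hM] at hz1
  refine ⟨fun j => cut {p : Pt | p 3 = d - 1} (z j), fun j p hp => ?_, fun j => ?_⟩
  · have h1 : p ∈ {p : Pt | p 3 = d - 1} := suppIn_cut _ _ p hp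
    have h2 : p ∈ P.gstOm := (hz1 j).cut _ p hp
    exact ⟨h2.1, h1, h2.2⟩
  · have h1 : cut {p : Pt | p 3 = d} (y j) = y j :=
      cut_eq_self ((hy j).mono fun p hp => hp.2.1)
    rw [← h1, hz2 j]
    fin_cases j
    · show cut {p : Pt | p 3 = d} (E F (F.face w N) (c3 1) * z 2 - E F (F.face w N) (c3 2) * z 1) = _
      rw [map_sub, gst_cut_E, gst_cut_E]
      rfl
    · show cut {p : Pt | p 3 = d} (E F (F.face w N) (c3 2) * z 0 - E F (F.face w N) (c3 0) * z 2) = _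
      rw [map_sub, gst_cut_E, gst_cut_E]
      rfl
    · show cut {p : Pt | p 3 = d} (E F (F.face w N) (c3 0) * z 1 - E F (F.face w N) (c3 1) * z 0) = _
      rw [map_sub, gst_cut_E, gst_cut_E]
      rfl

/-- the twisted operator `D_j - ν_j` -/
noncomputable def gstD (F : Dat r) (B : Finset (Fin r)) (s : ℂ) (ν : Pt) (j : Fin 3) :
    LL →ₗ[ℂ] LL := D F B s (c3 j) - (lin (c3 j) ν) • LinearMap.id

lemma gstD_apply (B : Finset (Fin r)) (s : ℂ) (ν : Pt) (j : Fin 3) (η : LL) :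
    gstD F B s ν j η = D F B s (c3 j) η - lin (c3 j) ν • η := rfl

lemma gstD_comm (B : Finset (Fin r)) (s : ℂ) (ν : Pt) (i j : Fin 3) (η : LL) :
    gstD F B s ν i (gstD F B s ν j η) = gstD F B s ν j (gstD F B s ν i η) := by
  simp only [gstD_apply, map_sub, map_smul, smul_sub]
  rw [D_comm F B s (c3 i) (c3 j) η, smul_comm (lin (c3 i) ν) (lin (c3 j) ν) η]
  abel

lemma cf_gstD (B : Finset (Fin r)) (s : ℂ) (ν : Pt) (j : Fin 3) (η : LL) (p : Pt) :
    cf (gstD F B s ν j η) p = (lin (c3 j) p - s * c3 j 3 - lin (c3 j) ν) * cf η p +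
      cf (E F B (c3 j) * η) p := by
  rw [gstD_apply, cf_sub, cf_smul, cf_D, cf_E_mul]
  ring

/-- the cross product with the twisted operators -/
noncomputable def gstX (F : Dat r) (B : Finset (Fin r)) (s : ℂ) (ν : Pt) (z : Fin 3 → LL) :
    Fin 3 → LL :=
  ![gstD F B s ν 1 (z 2) - gstD F B s ν 2 (z 1),
    gstD F B s ν 2 (z 0) - gstD F B s ν 0 (z 2),
    gstD F B s ν 0 (z 1) - gstD F B s ν 1 (z 0)]

lemma gst_bd (B : Finset (Fin r)) (s : ℂ) (ν : Pt) (z : Fin 3 → LL) :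
    ∑ j, gstD F B s ν j (gstX F B s ν z j) = 0 := by
  rw [Fin.sum_univ_three]
  show gstD F B s ν 0 (gstD F B s ν 1 (z 2) - gstD F B s ν 2 (z 1)) +
    gstD F B s ν 1 (gstD F B s ν 2 (z 0) - gstD F B s ν 0 (z 2)) +
    gstD F B s ν 2 (gstD F B s ν 0 (z 1) - gstD F B s ν 1 (z 0)) = 0
  simp only [map_sub]
  rw [gstD_comm B s ν 0 1, gstD_comm B s ν 0 2, gstD_comm B s ν 1 2]
  abel

lemma gstX_cf {B : Finset (Fin r)} {s : ℂ} {ν : Pt} {z : Fin 3 → LL} {p : Pt}
    (h : ∀ j, cf (z j) p = 0) (j : Fin 3) :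
    cf (gstX F B s ν z j) p = cf (crossE F B z j) p := by
  fin_cases j
  · show cf (gstD F B s ν 1 (z 2) - gstD F B s ν 2 (z 1)) p =
      cf (E F B (c3 1) * z 2 - E F B (c3 2) * z 1) p
    rw [cf_sub, cf_sub, cf_gstD, cf_gstD, h, h]
    ring
  · show cf (gstD F B s ν 2 (z 0) - gstD F B s ν 0 (z 2)) p =
      cf (E F B (c3 2) * z 0 - E F B (c3 0) * z 2) p
    rw [cf_sub, cf_sub, cf_gstD, cf_gstD, h, h]
    ring
  · show cf (gstD F B s ν 0 (z 1) - gstD F B s ν 1 (z 0)) p =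
      cf (E F B (c3 0) * z 1 - E F B (c3 1) * z 0) p
    rw [cf_sub, cf_sub, cf_gstD, cf_gstD, h, h]
    ring

lemma gstD_supp {B : Finset (Fin r)} {X : Set Pt} (hX : Closed F B X) {s : ℂ} {ν : Pt}
    {η : LL} (h : SuppIn X η) (j : Fin 3) : SuppIn X (gstD F B s ν j η) :=
  (h.D hX s (c3 j)).sub (h.smul _)

lemma gstX_supp {B : Finset (Fin r)} {X : Set Pt} (hX : Closed F B X) {s : ℂ} {ν : Pt}
    {z : Fin 3 → LL} (h : ∀ j, SuppIn X (z j)) (j : Fin 3) : SuppIn X (gstX F B s ν z j) := by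
  fin_cases j
  · exact (gstD_supp hX (h 2) 1).sub (gstD_supp hX (h 1) 2)
  · exact (gstD_supp hX (h 0) 2).sub (gstD_supp hX (h 2) 0)
  · exact (gstD_supp hX (h 1) 0).sub (gstD_supp hX (h 0) 1)

lemma gst_E_zero {B : Finset (Fin r)} {c : Fin 4 → ℂ} {η : LL} {m : ℤ}
    (h : ∀ p, cf η p ≠ 0 → p 3 ≤ m) {p : Pt} (hp : m + 1 < p 3) : cf (E F B c * η) p = 0 := by
  rw [cf_E_mul]
  refine Finset.sum_eq_zero fun i _ => ?_
  have : cf η (p - F.hat i) = 0 := by
    by_contra h0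
    have h1 := h _ h0
    rw [Pi.sub_apply, F.hat_three] at h1
    linarith
  rw [this, mul_zero]

lemma gst_crossE_zero {B : Finset (Fin r)} {z : Fin 3 → LL} {m : ℤ}
    (h : ∀ j p, cf (z j) p ≠ 0 → p 3 ≤ m) {p : Pt} (hp : m + 1 < p 3) (j : Fin 3) :
    cf (crossE F B z j) p = 0 := by
  fin_cases j
  · show cf (E F B (c3 1) * z 2 - E F B (c3 2) * z 1) p = 0
    rw [cf_sub, gst_E_zero (h 2) hp, gst_E_zero (h 1) hp, sub_zero]
  · show cf (E F B (c3 2) * z 0 - E F B (c3 0) * z 2) p = 0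
    rw [cf_sub, gst_E_zero (h 0) hp, gst_E_zero (h 2) hp, sub_zero]
  · show cf (E F B (c3 0) * z 1 - E F B (c3 1) * z 0) p = 0
    rw [cf_sub, gst_E_zero (h 1) hp, gst_E_zero (h 0) hp, sub_zero]

lemma Poly.gstOm_closed (P : Poly F w N) : Closed F (F.face w N) P.gstOm := by
  intro p hp i hi
  refine ⟨face_closed subset_rfl 0 p hp.1 i hi, fun e => ?_⟩
  have h1 := hp.2 e
  have h2 := P.el_hat_nonneg e i
  rw [P.el_add]
  linarith

/-- the top degree part of the twisted boundary -/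
lemma gst_top (B : Finset (Fin r)) (s : ℂ) (ν : Pt) (z : Fin 3 → LL) (m : ℤ)
    (h : ∀ j p, cf (z j) p ≠ 0 → p 3 ≤ m) :
    cut {p : Pt | p 3 = m + 1} (∑ j, gstD F B s ν j (z j)) =
      dotE F B (fun j => cut {p : Pt | p 3 = m} (z j)) := by
  unfold dotE
  rw [map_sum]
  refine Finset.sum_congr rfl fun j _ => ?_
  have h1 : cut {p : Pt | p 3 = m + 1} (E F B (c3 j) * z j) =
      E F B (c3 j) * cut {p : Pt | p 3 = m} (z j) := by
    rw [gst_cut_E, add_sub_cancel_right]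
  rw [← h1]
  apply ext_cf
  intro p
  by_cases hp : p 3 = m + 1
  · rw [cf_cut_of_mem (show p ∈ {p : Pt | p 3 = m + 1} from hp),
      cf_cut_of_mem (show p ∈ {p : Pt | p 3 = m + 1} from hp), cf_gstD]
    have h2 : cf (z j) p = 0 := by
      by_contra h0
      have := h j p h0
      linarith
    rw [h2, mul_zero, zero_add]
  · rw [cf_cut_of_notMem (show p ∉ {p : Pt | p 3 = m + 1} from hp),
      cf_cut_of_notMem (show p ∉ {p : Pt | p 3 = m + 1} from hp)]

lemma gst_induct (P : Poly F w N) (hw : Pos3 w) (hN : 0 < N) (hU : UnitOn F (F.face w N))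
    (hUe : ∀ e, UnitOn F (P.edge e)) (s0 : ℂ) (ν μ : Pt) (hμ : μ ∈ P.om 3) (k : ℕ) :
    ∀ z : Fin 3 → LL, (∀ j, SuppIn P.gstOm (z j)) → (∀ j p, cf (z j) p ≠ 0 → p 3 ≤ 2 + k) →
      ∑ j, gstD F (F.face w N) s0 ν j (z j) = mono μ → mono μ ∈ P.img 2 := by
  induction k with
  | zero =>
    intro z hz hdeg hsum
    have hdeg' : ∀ j p, cf (z j) p ≠ 0 → p 3 ≤ 2 := by
      intro j p hp
      have := hdeg j p hp
      simpa using this
    have h1 := gst_top (F := F) (F.face w N) s0 ν z 2 hdeg'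
    rw [hsum] at h1
    have h2 : cut {p : Pt | p 3 = 2 + 1} (mono μ) = mono μ := by
      refine cut_eq_self (suppIn_mono ?_)
      show μ 3 = 2 + 1
      rw [hμ.2.1]
      norm_num
    rw [h2] at h1
    refine ⟨fun j => cut {p : Pt | p 3 = 2} (z j), fun j p hp => ?_, h1⟩
    have h3 : p ∈ {p : Pt | p 3 = 2} := suppIn_cut _ _ p hp
    have h4 : p ∈ P.gstOm := (hz j).cut _ p hp
    exact ⟨h4.1, h3, h4.2⟩
  | succ k ih =>
    intro z hz hdeg hsum
    set m : ℤ := 2 + ((k + 1 : ℕ) : ℤ) with hm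
    have hm3 : 3 ≤ m := by
      rw [hm]
      push_cast
      linarith [Int.natCast_nonneg k]
    have h1 := gst_top (F := F) (F.face w N) s0 ν z m hdeg
    rw [hsum] at h1
    have h2 : cut {p : Pt | p 3 = m + 1} (mono μ) = 0 := by
      apply ext_cf
      intro p
      rw [cf_zero]
      by_cases hp : p 3 = m + 1
      · rw [cf_cut_of_mem (show p ∈ {p : Pt | p 3 = m + 1} from hp), cf_mono, if_neg]
        intro h
        rw [h, hμ.2.1] at hp
        linarith
      · exact cf_cut_of_notMem hp _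
    rw [h2] at h1
    obtain ⟨ζ, hζ1, hζ2⟩ := P.koszul_om hw hN hU hUe m
      (fun j => cut {p : Pt | p 3 = m} (z j)) (fun j p hp => by
        have h3 : p ∈ {p : Pt | p 3 = m} := suppIn_cut _ _ p hp
        have h4 : p ∈ P.gstOm := (hz j).cut _ p hp
        exact ⟨h4.1, h3, h4.2⟩) h1.symm
    have hζOm : ∀ j, SuppIn P.gstOm (ζ j) := fun j =>
      (hζ1 j).mono fun p hp => ⟨hp.1, hp.2.2⟩
    have hζdeg : ∀ j p, cf (ζ j) p ≠ 0 → p 3 = m - 1 := fun j p hp => (hζ1 j p hp).2.1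
    refine ih (fun j => z j - gstX F (F.face w N) s0 ν ζ j) (fun j => ?_) (fun j p hp => ?_) ?_
    · exact (hz j).sub (gstX_supp P.gstOm_closed hζOm j)
    · by_contra hlt
      apply hp
      have hpm : m ≤ p 3 := by
        rw [hm]
        push_cast
        push Not at hlt
        linarith
      have hz0 : ∀ j, cf (ζ j) p = 0 := by
        intro j
        by_contra h0
        have := hζdeg j p h0
        linarith
      rw [cf_sub, gstX_cf hz0 j]
      rcases eq_or_lt_of_le hpm with h3 | h3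
      · rw [← hζ2 j, cf_cut_of_mem (show p ∈ {p : Pt | p 3 = m} from h3.symm), sub_self]
      · have h4 : cf (z j) p = 0 := by
          by_contra h0
          have := hdeg j p h0
          linarith
        rw [h4, gst_crossE_zero (m := m - 1) (fun j p hp => (hζdeg j p hp).le) (by linarith) j,
          sub_zero]
    · simp only [map_sub, Finset.sum_sub_distrib]
      rw [gst_bd, hsum, sub_zero]

theorem gstep (P : Poly F w N) (hw : Pos3 w) (hN : 0 < N) (hU : UnitOn F (F.face w N))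
    (hUe : ∀ e, UnitOn F (P.edge e)) (s0 : ℂ) (μ : Pt) (hμ : μ ∈ P.om 3) (y : Fin 3 → LL)
    (hy : ∀ l, SuppIn {p | ell w N p = wt w ∧ ∀ e, wt (P.ew e) < P.el e p + P.el e μ} (y l))
    (hb : bd F (F.face w N) s0 c3 y = mono one4) : mono μ ∈ P.img 2 := by
  classical
  set ν : Pt := μ - one4 with hν
  set z : Fin 3 → LL := fun j => mono ν * y j with hzdef
  have hz : ∀ j, SuppIn P.gstOm (z j) := by
    intro j
    refine (hy j).mono_mul fun q hq => ?_
    refine ⟨?_, fun e => ?_⟩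
    · rw [ell_add, hν, ell_sub, hq.1, hμ.1, ell_one4]
      ring
    · have h1 := hq.2 e
      have h2 : P.el e one4 = wt (P.ew e) := ell_one4 _ _
      rw [P.el_add, hν, P.el_sub, h2]
      omega
  have hsum : ∑ j, gstD F (F.face w N) s0 ν j (z j) = mono μ := by
    have h1 : ∀ j, gstD F (F.face w N) s0 ν j (z j) =
        mono ν * D F (F.face w N) s0 (c3 j) (y j) := by
      intro j
      rw [gstD_apply, hzdef]
      simp only
      rw [D_mono_mul, mul_add, mul_smul_comm]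
      abel
    rw [Finset.sum_congr rfl fun j _ => h1 j, ← Finset.mul_sum]
    have h2 : ∑ j, D F (F.face w N) s0 (c3 j) (y j) = mono one4 := hb
    rw [h2]
    unfold mono
    rw [AddMonoidAlgebra.single_mul_single, one_mul, hν, sub_add_cancel]
  -- a bound for the degrees
  have hfin : (⋃ j, {p | cf (z j) p ≠ 0}).Finite := Set.finite_iUnion fun j => cf_finite (z j)
  obtain ⟨b, hb'⟩ := (hfin.image fun p : Pt => p 3).bddAbove
  have hdeg : ∀ j p, cf (z j) p ≠ 0 → p 3 ≤ 2 + (b.toNat : ℤ) := by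
    intro j p hp
    have h1 : p 3 ≤ b := hb' ⟨p, Set.mem_iUnion.2 ⟨j, hp⟩, rfl⟩
    have h2 : b ≤ (b.toNat : ℤ) := Int.self_le_toNat b
    linarith
  exact gst_induct P hw hN hU hUe s0 ν μ hμ b.toNat z hz hdeg hsum

end Pool.Agent.H37.SM
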