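import Pool.Agent.H37.SM.UTL

/-! Module NSS: nondegeneracy gives the unit ideal (Nullstellensatz). -/

set_option autoImplicit false

namespace Pool.Agent.H37.SM

open Finset

variable {r : ℕ} {F : Dat r} {w : Fin 3 → ℤ} {N : ℤ}

/-- the exponent as a finitely supported function -/
noncomputable def nss_m (F : Dat r) (i : Fin r) : Fin 3 →₀ ℕ :=
  Finsupp.equivFunOnFinite.symm fun l => (F.a i l).toNat

lemma nss_m_apply (F : Dat r) (i : Fin r) (l : Fin 3) : nss_m F i l = (F.a i l).toNat := rfl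

/-- the polynomials `x_j ∂_j f_B` -/
noncomputable def nss_P (F : Dat r) (B : Finset (Fin r)) (j : Fin 3) : MvPolynomial (Fin 3) ℂ :=
  ∑ i ∈ B, MvPolynomial.monomial (nss_m F i) (F.κ i * (F.a i j : ℂ))

/-- the embedding of the polynomial ring -/
noncomputable def nss_phi : MvPolynomial (Fin 3) ℂ →ₐ[ℂ] LL :=
  MvPolynomial.aeval fun j : Fin 3 => mono (Pi.single j.castSucc 1 : Pt)

lemma nss_mono_pow (p : Pt) (n : ℕ) : mono p ^ n = mono (n • p) := by
  unfold mono
  rw [AddMonoidAlgebra.single_pow, one_pow]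

lemma nss_mono_mul (p q : Pt) : mono p * mono q = mono (p + q) := by
  unfold mono
  rw [AddMonoidAlgebra.single_mul_single, one_mul]

lemma nss_mono_zero : mono (0 : Pt) = 1 := rfl

lemma nss_mono_single (p q : Pt) (z : ℂ) :
    mono p * AddMonoidAlgebra.single q z = AddMonoidAlgebra.single (p + q) z := by
  unfold mono
  rw [AddMonoidAlgebra.single_mul_single, one_mul]

lemma nss_phi_monomial (m : Fin 3 →₀ ℕ) (z : ℂ) :
    nss_phi (MvPolynomial.monomial m z) =
      AddMonoidAlgebra.single (![(m 0 : ℤ), (m 1 : ℤ), (m 2 : ℤ), 0] : Pt) z := by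
  unfold nss_phi
  rw [MvPolynomial.aeval_monomial, Finsupp.prod_fintype _ _ (fun i => pow_zero _),
    Fin.prod_univ_three, nss_mono_pow, nss_mono_pow, nss_mono_pow, nss_mono_mul, nss_mono_mul]
  have h : (m 0 • (Pi.single (Fin.castSucc (0 : Fin 3)) 1 : Pt) +
      m 1 • (Pi.single (Fin.castSucc (1 : Fin 3)) 1 : Pt) +
      m 2 • (Pi.single (Fin.castSucc (2 : Fin 3)) 1 : Pt)) =
      (![(m 0 : ℤ), (m 1 : ℤ), (m 2 : ℤ), 0] : Pt) := by
    funext l
    fin_cases l <;> simp
  rw [h, AddMonoidAlgebra.coe_algebraMap]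
  unfold mono
  simp only [Function.comp_apply, Algebra.algebraMap_self, RingHom.id_apply]
  rw [AddMonoidAlgebra.single_mul_single, zero_add, mul_one]

/-- Proof. Let `f_B = ∑_{i∈B} κ_i x^{a_i}` in `MvPolynomial (Fin 3) ℂ` (exponents `Int.toNat`) and
`P_j = ∑ κ_i a_{ij} x^{a_i}` (`= x_j ∂_j f_B`). A common zero of all `P_j` in the torus is a zero
of `N f_B = ∑ w_j P_j`, so contradicts `hnd`. Hence `x_0 x_1 x_2` vanishes on the zero locus of the
ideal `I = (P_0, P_1, P_2)`, so a power of it lies in `I`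
(`MvPolynomial.vanishingIdeal_zeroLocus_eq_radical`). Map to `LL` by `x_j ↦ mono (Pi.single j 1)`
and multiply by inverse monomials; `E_j = mono (e_3) * image of P_j`. -/
theorem nss (B : Finset (Fin r)) (hN : N ≠ 0) (hB : ∀ i ∈ B, ∑ j, w j * F.a i j = N)
    (hnd : NonDeg F B) : UnitOn F B := by
  set I : Ideal (MvPolynomial (Fin 3) ℂ) := Ideal.span (Set.range (nss_P F B)) with hI
  set q : MvPolynomial (Fin 3) ℂ := MvPolynomial.X 0 * MvPolynomial.X 1 * MvPolynomial.X 2 with hq
  have hev : ∀ (x : Fin 3 → ℂ) (j : Fin 3), MvPolynomial.aeval x (nss_P F B j) =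
      ∑ i ∈ B, F.κ i * (F.a i j : ℂ) * ∏ l, x l ^ (F.a i l) := by
    intro x j
    unfold nss_P
    rw [map_sum]
    refine Finset.sum_congr rfl fun i _ => ?_
    rw [MvPolynomial.aeval_monomial, Finsupp.prod_fintype _ _ (fun i => pow_zero _)]
    congr 1
    refine Finset.prod_congr rfl fun l _ => ?_
    rw [nss_m_apply, ← zpow_natCast, Int.toNat_of_nonneg (F.a_nonneg i l)]
  have hmem : q ∈ I.radical := by
    rw [← MvPolynomial.vanishingIdeal_zeroLocus_eq_radical (K := ℂ)]
    rw [MvPolynomial.mem_vanishingIdeal_iff]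
    intro x hx
    rw [hq, map_mul, map_mul, MvPolynomial.aeval_X, MvPolynomial.aeval_X, MvPolynomial.aeval_X]
    by_contra hne
    have h12 := left_ne_zero_of_mul hne
    have h0 := left_ne_zero_of_mul h12
    have h1 := right_ne_zero_of_mul h12
    have h2 := right_ne_zero_of_mul hne
    have hx0 : ∀ j, x j ≠ 0 := by
      intro j
      fin_cases j
      · exact h0
      · exact h1
      · exact h2
    have hP : ∀ j, ∑ i ∈ B, F.κ i * (F.a i j : ℂ) * ∏ l, x l ^ (F.a i l) = 0 := by
      intro j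
      rw [← hev x j]
      exact hx _ (Ideal.subset_span ⟨j, rfl⟩)
    refine hnd x hx0 ⟨?_, hP⟩
    have hsum : (N : ℂ) * ∑ i ∈ B, F.κ i * ∏ j, x j ^ (F.a i j) = 0 := by
      have h3 : (N : ℂ) * ∑ i ∈ B, F.κ i * ∏ j, x j ^ (F.a i j) =
          ∑ l, (w l : ℂ) * ∑ i ∈ B, F.κ i * (F.a i l : ℂ) * ∏ j, x j ^ (F.a i j) := by
        simp only [Finset.mul_sum]
        rw [Finset.sum_comm]
        refine Finset.sum_congr rfl fun i hi => ?_
        have h4 : (N : ℂ) = ∑ l, (w l : ℂ) * (F.a i l : ℂ) := by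
          rw [← hB i hi]
          push_cast
          rfl
        rw [h4, Finset.sum_mul]
        refine Finset.sum_congr rfl fun l _ => ?_
        ring
      rw [h3]
      refine Finset.sum_eq_zero fun l _ => ?_
      rw [hP l, mul_zero]
    exact (mul_eq_zero.1 hsum).resolve_left (Int.cast_ne_zero.2 hN)
  obtain ⟨n, hn⟩ := hmem
  rw [hI, Ideal.mem_span_range_iff_exists_fun] at hn
  obtain ⟨c, hc⟩ := hn
  have hE : ∀ j, E F B (c3 j) = mono (![0, 0, 0, 1] : Pt) * nss_phi (nss_P F B j) := by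
    intro j
    unfold nss_P E
    rw [map_sum, Finset.mul_sum]
    refine Finset.sum_congr rfl fun i _ => ?_
    rw [nss_phi_monomial, nss_mono_single, lin_c3_hat]
    congr 1
    funext l
    fin_cases l
    · simp [nss_m_apply, Int.toNat_of_nonneg (F.a_nonneg i 0)]
    · simp [nss_m_apply, Int.toNat_of_nonneg (F.a_nonneg i 1)]
    · simp [nss_m_apply, Int.toNat_of_nonneg (F.a_nonneg i 2)]
    · simp
  have hphiq : nss_phi q = mono one4 := by
    rw [hq, map_mul, map_mul]
    unfold nss_phi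
    rw [MvPolynomial.aeval_X, MvPolynomial.aeval_X, MvPolynomial.aeval_X, nss_mono_mul,
      nss_mono_mul]
    congr 1
    funext l
    fin_cases l <;> simp [one4]
  refine ⟨fun j => nss_phi (c j) * (mono (-(![0, 0, 0, 1] : Pt)) * mono (-(n • one4))), ?_⟩
  have hfin : ∑ j, E F B (c3 j) *
      (nss_phi (c j) * (mono (-(![0, 0, 0, 1] : Pt)) * mono (-(n • one4)))) =
      (mono (![0, 0, 0, 1] : Pt) * mono (-(![0, 0, 0, 1] : Pt))) *
        (nss_phi (∑ j, c j * nss_P F B j) * mono (-(n • one4))) := by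
    rw [map_sum, Finset.sum_mul, Finset.mul_sum]
    refine Finset.sum_congr rfl fun j _ => ?_
    rw [hE j, map_mul]
    ring
  rw [hfin, hc, map_pow, hphiq, nss_mono_pow, nss_mono_mul, nss_mono_mul, add_neg_cancel,
    add_neg_cancel, nss_mono_zero, mul_one]

lemma nss_ell (i : Fin r) : ell w N (F.hat i) = (∑ j, w j * F.a i j) - N := by
  rw [Fin.sum_univ_three]
  unfold ell
  rw [F.hat_zero, F.hat_one, F.hat_two, F.hat_three, mul_one]

lemma nss_minFace {w : Fin 3 → ℤ} {N : ℤ} (hmin : ∀ i, 0 ≤ ell w N (F.hat i))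
    (hatt : ∃ i, ell w N (F.hat i) = 0) : F.minFace (fun j => (w j : ℝ)) = F.face w N := by
  classical
  ext i
  unfold Dat.minFace
  rw [Finset.mem_filter, mem_face]
  have hc : ∀ i, ∑ j, (w j : ℝ) * (F.a i j : ℝ) = ((ell w N (F.hat i) + N : ℤ) : ℝ) := by
    intro i
    rw [nss_ell]
    push_cast
    ring
  constructor
  · rintro ⟨_, h⟩
    obtain ⟨i0, hi0⟩ := hatt
    have h1 := h i0
    rw [hc, hc, hi0] at h1
    have h2 : ell w N (F.hat i) + N ≤ 0 + N := by exact_mod_cast h1
    have h3 := hmin i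
    omega
  · intro h
    refine ⟨Finset.mem_univ i, fun i' => ?_⟩
    rw [hc, hc, h]
    have h3 := hmin i'
    have h4 : 0 + N ≤ ell w N (F.hat i') + N := by omega
    exact_mod_cast h4

/-- Proof: `F.face w N = F.minFace (fun j => w j)`: `w·a_i` is minimal iff `w·a_i = N`
(`min_le`, `attained`). -/
theorem nonDeg_face (hF : Facet F w N) (hnd : AllNonDeg F) : NonDeg F (F.face w N) := by
  rw [← nss_minFace hF.min_le hF.attained]
  exact hnd _

/-- Proof: if the intersection of the two faces is nonempty it is the set where `(w + w')·a` is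
minimal (`= N + N'`). -/
theorem nonDeg_inter {w' : Fin 3 → ℤ} {N' : ℤ} (hF : Facet F w N) (hF' : Facet F w' N')
    (hne : (F.face w N ∩ F.face w' N').Nonempty) (hnd : AllNonDeg F) :
    NonDeg F (F.face w N ∩ F.face w' N') := by
  have hadd : ∀ i, ell (w + w') (N + N') (F.hat i) = ell w N (F.hat i) + ell w' N' (F.hat i) := by
    intro i
    unfold ell
    simp only [Pi.add_apply]
    ring
  have h1 : F.face (w + w') (N + N') = F.face w N ∩ F.face w' N' := by
    ext i
    rw [Finset.mem_inter, mem_face, mem_face, mem_face, hadd]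
    have h2 := hF.min_le i
    have h3 := hF'.min_le i
    constructor
    · intro h
      constructor <;> omega
    · rintro ⟨h4, h5⟩
      omega
  rw [← h1, ← nss_minFace]
  · exact hnd _
  · intro i
    rw [hadd]
    exact add_nonneg (hF.min_le i) (hF'.min_le i)
  · obtain ⟨i, hi⟩ := hne
    rw [← h1, mem_face] at hi
    exact ⟨i, hi⟩

end Pool.Agent.H37.SM
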