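import Pool.Agent.H37.SM.UTL

/-! Module SLI: from the four operators to the slice of a facet. -/

set_option autoImplicit false

namespace Pool.Agent.H37.SM

open Finset

variable {r : ℕ} {F : Dat r} {w : Fin 3 → ℤ} {N : ℤ}

theorem sli_ec (w : Fin 3 → ℤ) (N : ℤ) : ∑ i, ec w N i • bs i = ec w N := by
  funext j
  rw [Finset.sum_apply]
  simp only [Pi.smul_apply, bs, smul_eq_mul]
  rw [Finset.sum_eq_single j]
  · simp
  · intro b _ hb
    rw [Pi.single_apply, if_neg (Ne.symm hb), mul_zero]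
  · intro h
    exact absurd (mem_univ j) h

theorem sli_ec_cast (w : Fin 3 → ℤ) (N : ℤ) (j : Fin 3) : ec w N j.castSucc = (w j : ℂ) := by
  fin_cases j <;> rfl

theorem sli_cast_ne (l : Fin 3) : l.castSucc ≠ (3 : Fin 4) := by
  fin_cases l <;> decide

/-- cutting the boundary at the lowest level -/
theorem sli_cut (hF : Facet F w N) (s0 : ℂ) (η : Fin 4 → LL)
    (hη : ∀ j, SuppIn {p | wt w ≤ ell w N p} (η j))
    (hb : SuppIn {p | wt w < ell w N p} (bd F univ s0 bs η - mono one4)) :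
    bd F (F.face w N) s0 bs (fun j => cut (slice w N (wt w)) (η j)) = mono one4 := by
  have h1 : cut (slice w N (wt w)) (bd F univ s0 bs η - mono one4) = 0 := by
    apply ext_cf
    intro p
    rw [cf_cut, cf_zero]
    split_ifs with hp
    · apply hb.cf_eq
      have hp' : ell w N p = wt w := hp
      show ¬ wt w < ell w N p
      omega
    · rfl
  have h2 : cut (slice w N (wt w)) (mono one4) = mono one4 :=
    cut_eq_self (suppIn_mono (ell_one4 w N))
  rw [map_sub, h2, sub_eq_zero] at h1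
  rw [← h1]
  unfold bd
  rw [map_sum]
  refine Finset.sum_congr rfl fun j _ => ?_
  rw [cut_D s0 (bs j) univ (wt w) (fun l _ => hF.min_le l) (η j) (hη j), univ_inter]

/-- elimination of the fourth operator -/
theorem sli_finish (hN : N ≠ 0) (s0 : ℂ) (hs : (wt w : ℂ) + N * s0 = 0) (lam : Fin 4 → LL)
    (hl : SuppIn (slice w N (wt w)) (lam 3))
    (hb : bd F (F.face w N) s0 bs lam = mono one4) :
    bd F (F.face w N) s0 c3 (fun j => lam j.castSucc + ((w j : ℂ) / N) • lam 3) = mono one4 := by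
  have hN' : (N : ℂ) ≠ 0 := by exact_mod_cast hN
  have h1 := D_ec s0 (wt w) (F.face w N) subset_rfl (lam 3) hl
  rw [hs, zero_smul, D_ec_eq] at h1
  have h2 : D F (F.face w N) s0 (bs 3) (lam 3) =
      ((w 0 : ℂ) / N) • D F (F.face w N) s0 (bs 0) (lam 3) +
      ((w 1 : ℂ) / N) • D F (F.face w N) s0 (bs 1) (lam 3) +
      ((w 2 : ℂ) / N) • D F (F.face w N) s0 (bs 2) (lam 3) := by
    have h3 : D F (F.face w N) s0 (bs 3) (lam 3) =
        (1 / (N : ℂ)) • ((N : ℂ) • D F (F.face w N) s0 (bs 3) (lam 3)) := by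
      rw [smul_smul, one_div_mul_cancel hN', one_smul]
    rw [h3, ← sub_eq_zero.1 h1, smul_add, smul_add, smul_smul, smul_smul, smul_smul]
    congr 1
    · congr 1
      · congr 1
        ring
      · congr 1
        ring
    · congr 1
      ring
  rw [← hb]
  unfold bd
  rw [Fin.sum_univ_four, Fin.sum_univ_three, h2]
  simp only [map_add, map_smul, c3]
  have e0 : (Fin.castSucc (0 : Fin 3)) = (0 : Fin 4) := rfl
  have e1 : (Fin.castSucc (1 : Fin 3)) = (1 : Fin 4) := rfl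
  have e2 : (Fin.castSucc (2 : Fin 3)) = (2 : Fin 4) := rfl
  rw [e0, e1, e2]
  abel

theorem sli_bd_sub {ι : Type*} [Fintype ι] (F : Dat r) (B : Finset (Fin r)) (s : ℂ)
    (c : ι → Fin 4 → ℂ) (η : ι → LL) (ζ : ι → ι → LL) :
    bd F B s c (fun j => η j - bd2 F B s c ζ j) = bd F B s c η := by
  have h : bd F B s c (fun j => η j - bd2 F B s c ζ j) =
      bd F B s c η - bd F B s c (bd2 F B s c ζ) := by
    unfold bd
    rw [← Finset.sum_sub_distrib]
    refine Finset.sum_congr rfl fun j _ => ?_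
    rw [map_sub]
  rw [h, bd_bd2, sub_zero]

theorem sli_supp (X Y : Set Pt) (η : LL) (h : SuppIn (X ∩ Y) η) (n : ℤ) :
    SuppIn (X ∩ slice w N n) (cut (slice w N n) η) := fun p hp =>
  ⟨((h.mono Set.inter_subset_left).cut _) p hp, suppIn_cut _ _ p hp⟩

theorem sli_extend (a : Fin 4) (η' : {j : Fin 4 // j ≠ a} → LL) :
    ∃ η'' : Fin 4 → LL, η'' a = 0 ∧ ∀ i : {j : Fin 4 // j ≠ a}, η'' i.1 = η' i := by
  refine ⟨fun j => if h : j = a then 0 else η' ⟨j, h⟩, dif_pos rfl, fun i => dif_neg i.2⟩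

theorem sli_Zc1 (j : Fin 3) :
    Zc j.castSucc ⊆ {p | ∀ l : Fin 3, l ≠ j → 1 ≤ p l.castSucc} := by
  intro p hp l hl
  have := hp l
  rwa [if_neg (fun h => hl (Fin.castSucc_injective _ h))] at this

theorem sli_Zc2 (j : Fin 3) : Zc 3 ⊆ {p | ∀ l : Fin 3, l ≠ j → 1 ≤ p l.castSucc} := by
  intro p hp l hl
  have := hp l
  rwa [if_neg (sli_cast_ne l)] at this

theorem sli_Zc0 (a : Fin 4) : Zc a ⊆ {p | ∀ l : Fin 3, 0 ≤ p l.castSucc} := by
  intro p hp l
  have := hp l
  show 0 ≤ p l.castSucc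
  split_ifs at this <;> omega

theorem sli_nc (s0 : ℂ) (hs : (wt w : ℂ) + N * s0 = 0) (n : ℤ) (hn : n < wt w) :
    ¬ ((n : ℂ) + N * s0 = 0) := by
  intro h
  have h1 : (n : ℂ) = (wt w : ℂ) := by
    have := h.trans hs.symm
    exact add_right_cancel this
  have h2 : n = wt w := by exact_mod_cast h1
  omega

theorem sli_hb (_s0 : ℂ) (ξ : LL)
    (hb : SuppIn {p | wt w < ell w N p} (ξ - mono one4)) :
    SuppIn {p | wt w ≤ ell w N p} ξ := by
  have h1 : SuppIn {p | wt w ≤ ell w N p} (ξ - mono one4) := hb.mono fun p hp => le_of_lt (show wt w < ell w N p from hp)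
  have h2 : SuppIn {p | wt w ≤ ell w N p} (mono one4) :=
    suppIn_mono (show wt w ≤ ell w N one4 by rw [ell_one4])
  have := h1.add h2
  rwa [sub_add_cancel] at this

/-- Proof. `raise1` for `bs`, `e = (w, -N)`, `n1 = |w|` (levels below `|w| = -N s0` are not critical,
`bd η = mono one4 + high` is in `{|w| ≤ ℓ_w}` by `ell_one4`); supports in `X` are kept (constant
family `Z = X`, stable since `X` is closed). Cut at the level `|w|`: `λ_j`;
`∑_j D F face (bs j) λ_j = mono one4` (`cut_D`), and `N D_3 = ∑_{j<3} w_j D_j` on this level (`D_ec`,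
`D_ec_eq`, scalar `|w| + N s0 = 0`): `y_j = λ_j + (w_j/N) λ_3`. -/
theorem slice3 (hF : Facet F w N) (hN : N ≠ 0) (s0 : ℂ) (hs : (wt w : ℂ) + N * s0 = 0)
    (X : Set Pt) (hX : Closed F univ X) (η : Fin 4 → LL) (hη : ∀ j, SuppIn X (η j))
    (hb : SuppIn {p | wt w < ell w N p} (bd F univ s0 bs η - mono one4)) :
    ∃ y : Fin 3 → LL, (∀ j, SuppIn (X ∩ slice w N (wt w)) (y j)) ∧
      bd F (F.face w N) s0 c3 y = mono one4 := by
  obtain ⟨ζ, hζ, -⟩ := raise1 F univ s0 bs (ec w N) w N (sli_ec w N) (fun l _ => hF.min_le l) X hX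
    (wt w) η hη (fun n hn hn0 => absurd hn0 (sli_nc s0 hs n hn)) (sli_hb s0 _ hb)
  have hb' : SuppIn {p | wt w < ell w N p}
      (bd F univ s0 bs (fun j => η j - bd2 F univ s0 bs ζ j) - mono one4) := by
    rw [sli_bd_sub]
    exact hb
  have h1 := sli_cut hF s0 (fun j => η j - bd2 F univ s0 bs ζ j)
    (fun j => (hζ j).mono Set.inter_subset_right) hb'
  have h2 : ∀ j, SuppIn (X ∩ slice w N (wt w))
      (cut (slice w N (wt w)) (η j - bd2 F univ s0 bs ζ j)) :=
    fun j => sli_supp X _ _ (hζ j) (wt w)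
  refine ⟨_, fun j => ?_, sli_finish hN s0 hs _ ((h2 3).mono Set.inter_subset_right) h1⟩
  exact (h2 _).add ((h2 3).smul _)

/-- The version for a non-compact facet: the component `i0` is high from the beginning and only
the two operators `D_j`, `j ≠ i0` remain. Proof: subtract `D_{i0} η_{i0}` (level `≥ |w| + N`),
`raise1` for the family `{j : Fin 4 // j ≠ i0.castSucc}`. -/
theorem slice2 (hF : Facet F w N) (hN : 0 < N) (i0 : Fin 3) (h0 : w i0 = 0) (s0 : ℂ)
    (hs : (wt w : ℂ) + N * s0 = 0) (η : Fin 4 → LL)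
    (hη3 : SuppIn {p | wt w + N ≤ ell w N p} (η i0.castSucc))
    (hb : SuppIn {p | wt w < ell w N p} (bd F univ s0 bs η - mono one4)) :
    ∃ y : Fin 3 → LL, y i0 = 0 ∧ (∀ j, SuppIn (slice w N (wt w)) (y j)) ∧
      bd F (F.face w N) s0 c3 y = mono one4 ∧
      ((∀ j, SuppIn (Zc j) (η j)) → ∀ j, SuppIn {p | ∀ l : Fin 3, l ≠ j → 1 ≤ p l.castSucc}
        (y j)) ∧
      ((∀ j, SuppIn (Zc j) (η j)) → ∀ j, SuppIn {p | ∀ l : Fin 3, 0 ≤ p l.castSucc} (y j)) := by
  classical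
  have hsum : ∑ i : {j : Fin 4 // j ≠ i0.castSucc}, ec w N i.1 • bs i.1 = ec w N := by
    have h := Fintype.sum_eq_add_sum_subtype_ne (fun i => ec w N i • bs i) i0.castSucc
    have h1 : ec w N i0.castSucc = 0 := by rw [sli_ec_cast, h0, Int.cast_zero]
    rw [sli_ec, h1, zero_smul, zero_add] at h
    exact h.symm
  have hbd : bd F univ s0 bs η = D F univ s0 (bs i0.castSucc) (η i0.castSucc) +
      bd F univ s0 (fun i : {j : Fin 4 // j ≠ i0.castSucc} => bs i.1) (fun i => η i.1) :=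
    Fintype.sum_eq_add_sum_subtype_ne (fun i => D F univ s0 (bs i) (η i)) i0.castSucc
  have hlow : SuppIn {p | wt w < ell w N p} (D F univ s0 (bs i0.castSucc) (η i0.castSucc)) := by
    have h1 := hη3.D (closed_ge (N := N) (w := w) univ (fun l _ => hF.min_le l) (wt w + N)) s0
      (bs i0.castSucc)
    refine h1.mono fun p hp => ?_
    have hp' : wt w + N ≤ ell w N p := hp
    show wt w < ell w N p
    omega
  have hb2 : SuppIn {p | wt w < ell w N p}
      (bd F univ s0 (fun i : {j : Fin 4 // j ≠ i0.castSucc} => bs i.1) (fun i => η i.1) -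
        mono one4) := by
    have h1 := hb.sub hlow
    rw [hbd] at h1
    have h2 : D F univ s0 (bs i0.castSucc) (η i0.castSucc) +
      bd F univ s0 (fun i : {j : Fin 4 // j ≠ i0.castSucc} => bs i.1) (fun i => η i.1) -
        mono one4 - D F univ s0 (bs i0.castSucc) (η i0.castSucc) =
      bd F univ s0 (fun i : {j : Fin 4 // j ≠ i0.castSucc} => bs i.1) (fun i => η i.1) -
        mono one4 := by abel
    rwa [h2] at h1
  obtain ⟨ζ, hζ, hZ⟩ := raise1 F univ s0 (fun i : {j : Fin 4 // j ≠ i0.castSucc} => bs i.1)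
    (fun i => ec w N i.1) w N hsum (fun l _ => hF.min_le l) Set.univ
    (fun _ _ _ _ => Set.mem_univ _) (wt w) (fun i => η i.1) (fun _ _ _ => Set.mem_univ _)
    (fun n hn hn0 => absurd hn0 (sli_nc s0 hs n hn)) (sli_hb s0 _ hb2)
  have hb3 := sli_bd_sub F univ s0 (fun i : {j : Fin 4 // j ≠ i0.castSucc} => bs i.1)
    (fun i => η i.1) ζ
  obtain ⟨η', hη'⟩ : ∃ η' : {j : Fin 4 // j ≠ i0.castSucc} → LL, ∀ i, η' i = η i.1 -
    bd2 F univ s0 (fun i : {j : Fin 4 // j ≠ i0.castSucc} => bs i.1) ζ i := ⟨_, fun _ => rfl⟩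
  simp only [← hη'] at hζ hZ hb3
  obtain ⟨η'', hη''0, hη''1⟩ := sli_extend i0.castSucc η'
  have hbd'' : bd F univ s0 bs η'' =
      bd F univ s0 (fun i : {j : Fin 4 // j ≠ i0.castSucc} => bs i.1) (fun i => η i.1) := by
    have h1 : bd F univ s0 bs η'' = D F univ s0 (bs i0.castSucc) (η'' i0.castSucc) +
        ∑ i : {j : Fin 4 // j ≠ i0.castSucc}, D F univ s0 (bs i.1) (η'' i.1) :=
      Fintype.sum_eq_add_sum_subtype_ne (fun i => D F univ s0 (bs i) (η'' i)) i0.castSucc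
    rw [h1, hη''0, map_zero, zero_add, ← hb3]
    unfold bd
    exact Finset.sum_congr rfl fun i _ => by rw [hη''1 i]
  have hsupp : ∀ (Z : Fin 4 → Set Pt), (∀ i : {j : Fin 4 // j ≠ i0.castSucc},
      SuppIn (Z i.1) (η' i)) → ∀ j, SuppIn (Z j) (η'' j) := by
    intro Z h j
    by_cases hj : j = i0.castSucc
    · rw [hj, hη''0]
      exact suppIn_zero _
    · have := h ⟨j, hj⟩
      rwa [← hη''1 ⟨j, hj⟩] at this
  have h1 := sli_cut hF s0 η'' (hsupp (fun _ => {p | wt w ≤ ell w N p})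
    (fun i => (hζ i).mono Set.inter_subset_right)) (by rw [hbd'']; exact hb2)
  have h2 : ∀ j, SuppIn (slice w N (wt w)) (cut (slice w N (wt w)) (η'' j)) :=
    fun j => suppIn_cut _ _
  have h3 : (∀ j, SuppIn (Zc j) (η j)) → ∀ j, SuppIn (Zc j) (cut (slice w N (wt w)) (η'' j)) := by
    intro h j
    refine (hsupp Zc (fun i => ?_) j).cut _
    exact hZ (fun i => Zc i.1) (fun a b ξ => stable_Zc F univ s0 a.1 b.1 ξ) (fun i => h i.1) i
  obtain ⟨lam, hlam⟩ : ∃ lam : Fin 4 → LL, ∀ j, lam j = cut (slice w N (wt w)) (η'' j) :=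
    ⟨_, fun _ => rfl⟩
  simp only [← hlam] at h1 h2 h3
  have h4 : lam i0.castSucc = 0 := by rw [hlam, hη''0, map_zero]
  refine ⟨fun j => lam j.castSucc + ((w j : ℂ) / N) • lam 3, ?_,
    fun j => (h2 j.castSucc).add ((h2 3).smul _), sli_finish hN.ne' s0 hs lam (h2 3) h1,
    fun h j => ?_, fun h j => ?_⟩
  · show lam i0.castSucc + ((w i0 : ℂ) / N) • lam 3 = 0
    rw [h4, h0, Int.cast_zero, zero_div, zero_smul, add_zero]
  · exact ((h3 h j.castSucc).mono (sli_Zc1 j)).add (((h3 h 3).mono (sli_Zc2 j)).smul _)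
  · exact ((h3 h j.castSucc).mono (sli_Zc0 _)).add (((h3 h 3).mono (sli_Zc0 _)).smul _)

end Pool.Agent.H37.SM
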