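import Pool.Agent.H37.SM.DBL
import Pool.Agent.H37.SM.FRA
import Pool.Agent.H37.SM.GST
import Pool.Agent.H37.SM.SLI
import Pool.Agent.H37.SM.CRC
import Pool.Agent.H37.SM.CRN
import Pool.Agent.H37.SM.NSS

/-! Module GOD: good monomials of degree three lie in the ideal. -/

set_option autoImplicit false

namespace Pool.Agent.H37.SM

open Finset

variable {r : ℕ} {F : Dat r} {w : Fin 3 → ℤ} {N : ℤ}

/-- a facet with at most one positive coordinate is a coordinate facet -/
theorem coord_of_single {w' : Fin 3 → ℤ} {N' : ℤ} (hF' : Facet F w' N') (j : Fin 3)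
    (hj : ∀ l, l ≠ j → w' l = 0) : w' j = 1 ∧ wt w' = 1 := by
  have h1 : IsUnit (w' j) := by
    apply hF'.prim
    intro l
    by_cases hl : l = j
    · rw [hl]
    · rw [hj l hl]; exact dvd_zero _
  have h2 : w' j = 1 := by
    rcases Int.isUnit_iff.mp h1 with h | h
    · exact h
    · have := hF'.nonneg j; omega
  refine ⟨h2, ?_⟩
  unfold wt
  fin_cases j
  · have e1 := hj 1 (by decide)
    have e2 := hj 2 (by decide)
    simp only [Fin.zero_eta] at h2
    rw [h2, e1, e2]; norm_num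
  · have e1 := hj 0 (by decide)
    have e2 := hj 2 (by decide)
    simp only [Fin.mk_one] at h2
    rw [h2, e1, e2]; norm_num
  · have e1 := hj 0 (by decide)
    have e2 := hj 1 (by decide)
    have h2' : w' 2 = 1 := h2
    rw [h2', e1, e2]; norm_num

/-- the value of a facet is nonnegative -/
theorem facet_N_nonneg {w' : Fin 3 → ℤ} {N' : ℤ} (hF' : Facet F w' N') : 0 ≤ N' := by
  obtain ⟨i, hi⟩ := hF'.attained
  simp only [ell, Dat.hat_zero, Dat.hat_one, Dat.hat_two, Dat.hat_three] at hi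
  have h0 := mul_nonneg (hF'.nonneg 0) (F.a_nonneg i 0)
  have h1 := mul_nonneg (hF'.nonneg 1) (F.a_nonneg i 1)
  have h2 := mul_nonneg (hF'.nonneg 2) (F.a_nonneg i 2)
  linarith

/-- a facet with value `0` is a coordinate facet -/
theorem facet_zero {w' : Fin 3 → ℤ} {N' : ℤ} (hF' : Facet F w' N') (h0 : N' = 0) :
    ∃ j, (∀ l, l ≠ j → w' l = 0) ∧ ∀ i ∈ F.face w' N', F.a i j = 0 := by
  have key : ∀ i ∈ F.face w' N', ∀ j, w' j * F.a i j = 0 := by
    intro i hi
    have h := mem_face.mp hi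
    have h0' := mul_nonneg (hF'.nonneg 0) (F.a_nonneg i 0)
    have h1 := mul_nonneg (hF'.nonneg 1) (F.a_nonneg i 1)
    have h2 := mul_nonneg (hF'.nonneg 2) (F.a_nonneg i 2)
    simp only [ell, Dat.hat_zero, Dat.hat_one, Dat.hat_two, Dat.hat_three, h0] at h
    intro j
    fin_cases j
    · show w' 0 * F.a i 0 = 0
      linarith
    · show w' 1 * F.a i 1 = 0
      linarith
    · show w' 2 * F.a i 2 = 0
      linarith
  have hex : ∃ j, 0 < w' j := by
    by_contra hno
    push Not at hno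
    have hz : ∀ j, w' j = 0 := fun j => le_antisymm (hno j) (hF'.nonneg j)
    have := hF'.prim 2 (fun j => by rw [hz j]; exact dvd_zero _)
    exact absurd this (by decide)
  obtain ⟨j, hj⟩ := hex
  have hface : ∀ i ∈ F.face w' N', F.a i j = 0 := fun i hi =>
    (mul_eq_zero.mp (key i hi j)).resolve_left hj.ne'
  refine ⟨j, ?_, hface⟩
  intro l hl
  by_contra hwl
  obtain ⟨c, hc⟩ := hF'.ray (Pi.single j 1) (by
    intro i hi i' hi'
    have e1 : ∀ i ∈ F.face w' N', ∑ m, (Pi.single j (1 : ℝ) : Fin 3 → ℝ) m * (F.a i m : ℝ) = 0 := by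
      intro i hi
      refine Finset.sum_eq_zero fun m _ => ?_
      by_cases hm : m = j
      · rw [hm, hface i hi]; simp
      · rw [Pi.single_eq_of_ne hm, zero_mul]
    rw [e1 i hi, e1 i' hi']) (fun m hm => by
      have : m ≠ j := by
        intro h; rw [h] at hm; exact hj.ne' hm
      rw [Pi.single_eq_of_ne this])
  have h1 := hc l
  have h2 := hc j
  rw [Pi.single_eq_of_ne hl] at h1
  rw [Pi.single_eq_same] at h2
  have hwl' : (w' l : ℝ) ≠ 0 := by exact_mod_cast hwl
  have hc0 : c = 0 := by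
    rcases mul_eq_zero.mp h1.symm with h | h
    · exact h
    · exact absurd h hwl'
  rw [hc0, zero_mul] at h2
  exact one_ne_zero h2

/-- the unit condition on a facet -/
theorem unitOn_face {w' : Fin 3 → ℤ} {N' : ℤ} (hF' : Facet F w' N') (hN' : N' ≠ 0)
    (hnd : AllNonDeg F) : UnitOn F (F.face w' N') := by
  refine nss (w := w') (N := N') _ hN' ?_ (nonDeg_face hF' hnd)
  intro i hi
  have h := mem_face.mp hi
  simp only [ell, Dat.hat_zero, Dat.hat_one, Dat.hat_two, Dat.hat_three] at h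
  rw [Fin.sum_univ_three]
  linarith

/-- the unit condition on an edge -/
theorem unitOn_edge {w' : Fin 3 → ℤ} {N' : ℤ} (hF' : Facet F w' N') (hN' : N' ≠ 0)
    (hnd : AllNonDeg F) (P : Poly F w' N') (e : Fin P.m) : UnitOn F (P.edge e) := by
  refine nss (w := w') (N := N') _ hN' ?_ (nonDeg_inter hF' (P.facet e)
    ⟨P.v e, Finset.mem_inter.mpr ⟨P.v_face e, P.left e⟩⟩ hnd)
  intro i hi
  have h := mem_face.mp (Finset.mem_inter.mp hi).1
  simp only [ell, Dat.hat_zero, Dat.hat_one, Dat.hat_two, Dat.hat_three] at h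
  rw [Fin.sum_univ_three]
  linarith

/-- the error terms are high -/
theorem Gset_high {w' : Fin 3 → ℤ} {N' : ℤ} (hw' : ∀ j, 0 ≤ w' j) {G : LL}
    (hG : SuppIn Gset G) : SuppIn {p | wt w' + N' ≤ ell w' N' p} G := by
  intro p hp
  obtain ⟨h3, hj⟩ := hG p hp
  show wt w' + N' ≤ ell w' N' p
  have e0 : 1 ≤ p 0 := hj 0
  have e1 : 1 ≤ p 1 := hj 1
  have e2 : 1 ≤ p 2 := hj 2
  have m0 := mul_le_mul_of_nonneg_left e0 (hw' 0)
  have m1 := mul_le_mul_of_nonneg_left e1 (hw' 1)
  have m2 := mul_le_mul_of_nonneg_left e2 (hw' 2)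
  unfold ell wt
  rw [h3]
  linarith

/-- the critical level is positive -/
theorem crit_pos (hw : Pos3 w) (hN : 0 < N) (s0 : ℂ) (hs : (wt w : ℂ) + N * s0 = 0)
    {N' kF : ℤ} (hN' : 0 < N') (hk : (kF : ℂ) + N' * s0 = 0) : 0 < kF := by
  have hwt : 0 < wt w := by
    have h0 := hw 0
    have h1 := hw 1
    have h2 := hw 2
    unfold wt; omega
  have h : (kF : ℂ) * N = N' * wt w := by linear_combination (N : ℂ) * hk - (N' : ℂ) * hs
  have h' : kF * N = N' * wt w := by exact_mod_cast h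
  have h2 : 0 < kF * N := by rw [h']; exact mul_pos hN' hwt
  exact (mul_pos_iff_of_pos_right hN).mp h2

/-- A crossed primitive on the slice of `w` for a critical facet `(w', N')`.

Proof. `w' ≥ 0`. At least two coordinates of `w'` are positive: otherwise `w' = e_j` (`prim`),
`|w'| = 1`, `kF = N' |s0| > 0` an integer, contradiction to `kF < 1`. All three positive:
polygon `P'` by hypothesis, `cross_compact` (`nss` with `nonDeg_face`, `nonDeg_inter`).
Exactly one zero coordinate `i0`: `cross_noncompact` with the identity for this `i0`, `(w, N)` in the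
role of `(w', N')`, `n = wt w`. In both cases `bd η' - mono one4` is supported in `{|w| < ℓ_w}` (`G0` is
in `{|w| + N ≤ ℓ_w}`). `slice3` with `X = {kF < ℓ_{w'}}`. -/
theorem crossed (hF : Facet F w N) (hw : Pos3 w) (hN : 0 < N) (hnd : AllNonDeg F) (s0 : ℂ)
    (hs : (wt w : ℂ) + N * s0 = 0) (hid : HasId F s0)
    (hpoly : ∀ (w' : Fin 3 → ℤ) (N' : ℤ), Facet F w' N' → Pos3 w' → Nonempty (Poly F w' N'))
    (w' : Fin 3 → ℤ) (N' : ℤ) (hF' : Facet F w' N') (hN' : 0 < N') (kF : ℤ)
    (hk : (kF : ℂ) + N' * s0 = 0) (hlt : kF < wt w') :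
    ∃ y : Fin 3 → LL, (∀ l, SuppIn (slice w N (wt w) ∩ {p | kF < ell w' N' p}) (y l)) ∧
      bd F (F.face w N) s0 c3 y = mono one4 := by
  have hcl : Closed F univ {p | kF < ell w' N' p} :=
    closed_gt univ (fun l _ => hF'.min_le l) kF
  have hfin : ∀ (η' : Fin 4 → LL), (∀ j, SuppIn {p | kF < ell w' N' p} (η' j)) →
      SuppIn {p | wt w < ell w N p} (bd F univ s0 bs η' - mono one4) →
      ∃ y : Fin 3 → LL, (∀ l, SuppIn (slice w N (wt w) ∩ {p | kF < ell w' N' p}) (y l)) ∧
      bd F (F.face w N) s0 c3 y = mono one4 := by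
    intro η' h1 h2
    obtain ⟨y, hy1, hy2⟩ := slice3 hF hN.ne' s0 hs _ hcl η' h1 h2
    exact ⟨y, fun l => (hy1 l).mono (fun p hp => ⟨hp.2, hp.1⟩), hy2⟩
  have hGw : ∀ G : LL, SuppIn Gset G → SuppIn {p | wt w < ell w N p} G := by
    intro G hG
    refine (Gset_high (w' := w) (N' := N) (fun j => (hw j).le) hG).mono ?_
    intro p hp
    have hp' : wt w + N ≤ ell w N p := hp
    show wt w < ell w N p
    omega
  have hGw' : ∀ G : LL, SuppIn Gset G → SuppIn {p | wt w' ≤ ell w' N' p} G := by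
    intro G hG
    refine (Gset_high (w' := w') (N' := N') hF'.nonneg hG).mono ?_
    intro p hp
    have hp' : wt w' + N' ≤ ell w' N' p := hp
    show wt w' ≤ ell w' N' p
    omega
  by_cases hpos : Pos3 w'
  · obtain ⟨P'⟩ := hpoly w' N' hF' hpos
    obtain ⟨c, η, ξ, G0, G1, hG0, hG1, hη, hξ, -⟩ := hid 0 1 (by decide)
    obtain ⟨η', h1, h2⟩ := cross_compact hF' hpos hN' P' (unitOn_face hF' hN'.ne' hnd)
      (unitOn_edge hF' hN'.ne' hnd P') s0 kF hk hlt c η ξ G0 G1 (hGw' G0 hG0) (hGw' G1 hG1) hη hξ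
    refine hfin η' h1 ?_
    rw [h2, add_sub_cancel_left]
    exact hGw G0 hG0
  · have hex : ∃ i0, w' i0 = 0 := by
      unfold Pos3 at hpos
      push Not at hpos
      obtain ⟨i0, hi0⟩ := hpos
      exact ⟨i0, le_antisymm hi0 (hF'.nonneg i0)⟩
    obtain ⟨i0, hi0⟩ := hex
    have hpos' : ∀ j, j ≠ i0 → 0 < w' j := by
      intro j hj
      by_contra hno
      have hj0 : w' j = 0 := le_antisymm (not_lt.mp hno) (hF'.nonneg j)
      have hcomb : ∀ a b : Fin 3, b ≠ a → ∃ l : Fin 3, ∀ m, m ≠ l → m = a ∨ m = b := by decide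
      obtain ⟨l, hl⟩ := hcomb i0 j hj
      have h1 := (coord_of_single hF' l (fun m hm => by
        rcases hl m hm with h | h
        · rw [h]; exact hi0
        · rw [h]; exact hj0)).2
      have h2 := crit_pos hw hN s0 hs hN' hk
      omega
    have hcomb1 : ∀ a : Fin 3, ∃ b : Fin 3, a ≠ b := by decide
    obtain ⟨i1, hi1⟩ := hcomb1 i0
    obtain ⟨c, η, ξ, G0, G1, hG0, hG1, hη, hξ, -, -, hη3, hξ3, -, -⟩ := hid i0 i1 hi1
    have hη3' := hη3 w' N' hF'.nonneg (fun j hj => by
      rw [Finset.mem_singleton.mp hj]; exact hi0) hF'.min_le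
    have hξ3' := hξ3 w' N' hF'.nonneg (fun j hj => by
      rw [Finset.mem_singleton.mp hj]; exact hi0) hF'.min_le
    obtain ⟨η', h1, h2⟩ := cross_noncompact hF' i0 hi0 hpos' hN' (nonDeg_face hF' hnd) s0 kF hk hlt
      c η ξ G0 G1 (hGw' G0 hG0) (hGw' G1 hG1) hη3' hξ3' hη hξ w N hF.min_le (hw i0) (wt w)
    refine hfin η' h1 ?_
    have : bd F univ s0 bs η' - mono one4 = (bd F univ s0 bs η' - (mono one4 + G0)) + G0 := by abel
    rw [this]
    exact h2.add (hGw G0 hG0)

/-- Good monomials of degree three are in the ideal.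

Proof. For an edge `e` call it crossed (`e ∈ I`) if there is an integer `k e` with
`k e + eN e s0 = 0`, `k e < |ew e|`, `el e μ ≤ |ew e| - k e`. Then `eN e > 0`: if `eN e = 0` then `k e = 0`, and
`ew e` is a coordinate vector `e_j` (a facet with `N = 0`: all exponents on it vanish on the support
of `ew e`, so `ray` forces one positive coordinate, equal to 1 by `prim`), `|ew e| = 1`,
`el e μ = μ_j ≤ 1`; but the exponent `v e` has `a_j = 0`, so `μ_j ≥ 2` by `Good`. `crossed` gives the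
primitives `y_e`, `e ∈ I`; `slice3` (X = univ) gives one for `I = ∅`; `combine` with `no_double`. Then
`raiseAll` with `t e = |ew e|` if `e ∈ I`, or if there is no critical integer level `< |ew e|`, and
`t e = k e` (the critical level) otherwise; in the last case `el e μ > |ew e| - k e`. So
`|ew e| < t e + el e μ` in all cases (`el e μ ≥ 1`), and `gstep` applies. -/
theorem good_mem (hF : Facet F w N) (hw : Pos3 w) (hN : 0 < N) (P : Poly F w N)
    (hnd : AllNonDeg F) (s0 : ℂ) (hs : (wt w : ℂ) + N * s0 = 0) (hs0 : ∀ n : ℤ, s0 ≠ n)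
    (hid : HasId F s0)
    (hpoly : ∀ (w' : Fin 3 → ℤ) (N' : ℤ), Facet F w' N' → Pos3 w' → Nonempty (Poly F w' N'))
    (μ : Pt) (hμ : μ ∈ P.om 3) (hg : Good F w N μ) : mono μ ∈ P.img 2 := by
  classical
  have hU := unitOn_face hF hN.ne' hnd
  have hUe := unitOn_edge hF hN.ne' hnd P
  let crit : Fin P.m → Prop := fun e => ∃ k : ℤ, (k : ℂ) + P.eN e * s0 = 0
  let k : Fin P.m → ℤ := fun e => if h : crit e then h.choose else 0
  have hk : ∀ e, crit e → (k e : ℂ) + P.eN e * s0 = 0 := by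
    intro e he
    have h1 : k e = he.choose := dif_pos he
    rw [h1]; exact he.choose_spec
  have hkn : ∀ e, ∀ n : ℤ, (n : ℂ) + P.eN e * s0 = 0 → n = k e := by
    intro e n hn
    have h1 := hk e ⟨n, hn⟩
    have h2 : (n : ℂ) = k e := by linear_combination hn - h1
    exact_mod_cast h2
  let I : Finset (Fin P.m) := univ.filter fun e =>
    crit e ∧ k e < wt (P.ew e) ∧ P.el e μ ≤ wt (P.ew e) - k e
  have hI : ∀ e, e ∈ I ↔ crit e ∧ k e < wt (P.ew e) ∧ P.el e μ ≤ wt (P.ew e) - k e := by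
    intro e; simp [I]
  have hGw : ∀ G : LL, SuppIn Gset G → SuppIn {p | wt w < ell w N p} G := by
    intro G hG
    refine (Gset_high (w' := w) (N' := N) (fun j => (hw j).le) hG).mono ?_
    intro p hp
    have hp' : wt w + N ≤ ell w N p := hp
    show wt w < ell w N p
    omega
  have hNe : ∀ e ∈ I, 0 < P.eN e := by
    intro e he
    obtain ⟨h1, h2, h3⟩ := (hI e).mp he
    rcases (facet_N_nonneg (P.facet e)).lt_or_eq with h | h
    · exact h
    · exfalso
      obtain ⟨j, hj1, hj2⟩ := facet_zero (P.facet e) h.symm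
      obtain ⟨hj3, hj4⟩ := coord_of_single (P.facet e) j hj1
      have hk0 : k e = 0 := by
        symm
        apply hkn
        rw [← h]; simp
      have hgood := hg j ⟨P.v e, P.v_face e, hj2 _ (P.left e)⟩
      have hel : P.el e μ = μ j.castSucc := by
        unfold Poly.el ell
        rw [← h]
        fin_cases j
        · have e1 := hj1 1 (by decide)
          have e2 := hj1 2 (by decide)
          have e0 : P.ew e 0 = 1 := hj3
          rw [e0, e1, e2]
          show 1 * μ 0 + 0 * μ 1 + 0 * μ 2 - 0 * μ 3 = μ 0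
          ring
        · have e1 := hj1 0 (by decide)
          have e2 := hj1 2 (by decide)
          have e0 : P.ew e 1 = 1 := hj3
          rw [e0, e1, e2]
          show 0 * μ 0 + 1 * μ 1 + 0 * μ 2 - 0 * μ 3 = μ 1
          ring
        · have e1 := hj1 0 (by decide)
          have e2 := hj1 1 (by decide)
          have e0 : P.ew e 2 = 1 := hj3
          rw [e0, e1, e2]
          show 0 * μ 0 + 0 * μ 1 + 1 * μ 2 - 0 * μ 3 = μ 2
          ring
      rw [hel, hk0, hj4] at h3
      omega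
  -- a primitive on the slice
  have h0 : ∃ y : Fin 3 → LL, (∀ l, SuppIn (slice w N (wt w)) (y l)) ∧
      bd F (F.face w N) s0 c3 y = mono one4 := by
    obtain ⟨c, η, ξ, G0, G1, hG0, hG1, hη, hξ, -⟩ := hid 0 1 (by decide)
    obtain ⟨y, hy1, hy2⟩ := slice3 hF hN.ne' s0 hs Set.univ (fun _ _ _ _ => Set.mem_univ _) η
      (fun _ _ _ => Set.mem_univ _) (by rw [hη, add_sub_cancel_left]; exact hGw G0 hG0)
    exact ⟨y, fun l => (hy1 l).mono (fun p hp => hp.2), hy2⟩
  obtain ⟨y, hy1, hy2⟩ := combine P hw hN hU hUe s0 hs hs0 k I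
    (fun e he => hk e ((hI e).mp he).1)
    (fun e he e' he' hee => by
      obtain ⟨h1, h2, h3⟩ := (hI e).mp he
      obtain ⟨h1', h2', h3'⟩ := (hI e').mp he'
      exact no_double P hw hN s0 hs k μ hμ hg e e' hee (hk e h1) (hk e' h1') h2 h2' h3 h3')
    h0 (fun e he => by
      obtain ⟨h1, h2, h3⟩ := (hI e).mp he
      exact crossed hF hw hN hnd s0 hs hid hpoly (P.ew e) (P.eN e) (P.facet e) (hNe e he) (k e)
        (hk e h1) h2)
  let t : Fin P.m → ℤ := fun e => if e ∉ I ∧ crit e ∧ k e < wt (P.ew e) then k e else wt (P.ew e)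
  have ht : ∀ e, t e ≤ wt (P.ew e) := by
    intro e
    by_cases h : e ∉ I ∧ crit e ∧ k e < wt (P.ew e)
    · have : t e = k e := if_pos h
      rw [this]; exact h.2.2.le
    · have : t e = wt (P.ew e) := if_neg h
      rw [this]
  obtain ⟨y', hy1', hy2'⟩ := raiseAll P hN s0 hs t ht y (fun l => (hy1 l).mono (fun p hp => hp.1))
    (fun e n hn hcr l => by
      have hne := hkn e n hcr
      by_cases h : e ∉ I ∧ crit e ∧ k e < wt (P.ew e)
      · have : t e = k e := if_pos h
        rw [this, hne] at hn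
        exact absurd hn (lt_irrefl _)
      · have h1 : t e = wt (P.ew e) := if_neg h
        rw [h1, hne] at hn
        have h2 : e ∈ I := by
          by_contra h3
          exact h ⟨h3, ⟨n, hcr⟩, hn⟩
        refine (hy1 l).mono ?_
        intro p hp
        show n < P.el e p
        rw [hne]
        exact hp.2 e h2) hy2
  refine gstep P hw hN hU hUe s0 μ hμ y' ?_ hy2'
  intro l
  refine (hy1' l).mono ?_
  rintro p ⟨hp1, hp2⟩
  refine ⟨hp1, fun e => ?_⟩
  have h1 := hp2 e
  have h2 : 1 ≤ P.el e μ := hμ.2.2 e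
  by_cases h : e ∉ I ∧ crit e ∧ k e < wt (P.ew e)
  · have h3 : t e = k e := if_pos h
    rw [h3] at h1
    have h4 : ¬ P.el e μ ≤ wt (P.ew e) - k e := fun h5 => h.1 ((hI e).mpr ⟨h.2.1, h.2.2, h5⟩)
    omega
  · have h3 : t e = wt (P.ew e) := if_neg h
    rw [h3] at h1
    omega

end Pool.Agent.H37.SM
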