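import Pool.Agent.H37.SM.PLB

/-! Module KE: division by the edge vector. -/

set_option autoImplicit false

namespace Pool.Agent.H37.SM

open Finset

variable {r : ℕ} {F : Dat r} {w : Fin 3 → ℤ} {N : ℤ}

/-- a lower bound for a linear form with a unique zero `v` on `B` passes to a quotient by `E_j` -/
theorem ke_low (B : Finset (Fin r)) (φ : Pt → ℤ) (hadd : ∀ p q, φ (p + q) = φ p + φ q)
    (v : Fin r) (hv : v ∈ B) (hφv : φ (F.hat v) = 0)
    (hpos : ∀ i ∈ B, i ≠ v → 0 < φ (F.hat i)) (j : Fin 3) (ha : F.a v j ≠ 0) (h z : LL)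
    (hz : z = E F B (c3 j) * h) (n : ℤ) (hn : SuppIn {p | n ≤ φ p} z) :
    SuppIn {p | n ≤ φ p} h := by
  classical
  by_contra hcon
  unfold SuppIn at hcon
  push Not at hcon
  obtain ⟨p0, hp0, hp0'⟩ := hcon
  have hp1 : φ p0 < n := not_le.1 hp0'
  have hfin : {p | cf h p ≠ 0 ∧ φ p < n}.Finite := (cf_finite h).subset fun p hp => hp.1
  obtain ⟨u, hu, humin⟩ := Set.exists_min_image _ φ hfin ⟨p0, hp0, hp1⟩
  have hsub : ∀ p q, φ (p - q) = φ p - φ q := by
    intro p q
    have h1 := hadd (p - q) q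
    rw [sub_add_cancel] at h1
    omega
  have hne : cf z (u + F.hat v) ≠ 0 := by
    rw [hz, cf_E_mul, Finset.sum_eq_single v]
    · rw [add_sub_cancel_right, lin_c3_hat]
      refine mul_ne_zero (mul_ne_zero (F.κ_ne v) ?_) hu.1
      exact_mod_cast ha
    · intro i hi hiv
      have h1 : cf h (u + F.hat v - F.hat i) = 0 := by
        by_contra h2
        have h3 : φ (u + F.hat v - F.hat i) = φ u - φ (F.hat i) := by
          rw [hsub, hadd, hφv, add_zero]
        have h4 := hpos i hi hiv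
        have h5 := hu.2
        have h6 := humin (u + F.hat v - F.hat i) ⟨h2, by rw [h3]; omega⟩
        rw [h3] at h6
        omega
      rw [h1, mul_zero]
    · intro hv'
      exact absurd hv hv'
  have h7 := hn _ hne
  have h8 : n ≤ φ (u + F.hat v) := h7
  rw [hadd, hφv, add_zero] at h8
  have h9 := hu.2
  omega

/-- a vertex of a compact facet has a nonzero coordinate -/
theorem ke_coord (hN : 0 < N) (v : Fin r) (hv : ell w N (F.hat v) = 0) :
    ∃ j, F.a v j ≠ 0 := by
  by_contra hcon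
  push Not at hcon
  simp only [ell, Dat.hat_zero, Dat.hat_one, Dat.hat_two, Dat.hat_three, hcon] at hv
  omega

/-- Proof. Let `E · g = 1` for the edge. In a commutative ring `E × z = 0` gives
`z_j (E·g) = E_j (z·g)` (each `E_j z_l = E_l z_j`), so `z_j = E_j h'` with `h' = ∑ z_l g_l`; let `h`
be the part of `h'` with `ℓ_w = κ`, `el e = n` (`cut_mul` twice: the `E_j` of the edge have
`ℓ_w = el e = 0` on their support). Lower bounds: let `n' ≤ el (nx e)` on the supports of the
`z_j`. If `h` has a point `u` with `m := el (nx e) u < n'`, take such `u` with `m` minimal. Let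
`v = v (nx e)`, the only exponent of the edge with `el (nx e) = 0` (`edge_nx`), and `j` with
`a_{v,j} ≠ 0` (exists: `w·a_v = N > 0`). The coefficient of `z_j = E_j h` at `u + v̂` is
`κ_v a_{v,j} h(u) ≠ 0` (another contribution `u'`, `i` has `u' + â_i = u + v̂`, so
`el (nx e) u' + el (nx e) â_i = m`, so `el (nx e) u' ≤ m`, hence equality by minimality, so
`el (nx e) â_i = 0`, `i = v`, `u' = u`). But `el (nx e) (u + v̂) = m < n'`. Same for `pv e` with the
vertex `v e` (`edge_pv`). -/
theorem Poly.edge_div (P : Poly F w N) (hw : Pos3 w) (hN : 0 < N) (e : Fin P.m)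
    (hU : UnitOn F (P.edge e)) (κ n : ℤ) (z : Fin 3 → LL)
    (hz : ∀ j, SuppIn {p | ell w N p = κ ∧ P.el e p = n} (z j))
    (h0 : ∀ j, crossE F (P.edge e) z j = 0) :
    ∃ h : LL, SuppIn {p | ell w N p = κ ∧ P.el e p = n} h ∧
      (∀ j, z j = E F (P.edge e) (c3 j) * h) ∧
      (∀ n' : ℤ, (∀ j, SuppIn {p | n' ≤ P.el (P.nx e) p} (z j)) →
        SuppIn {p | n' ≤ P.el (P.nx e) p} h) ∧
      (∀ n' : ℤ, (∀ j, SuppIn {p | n' ≤ P.el (P.pv e) p} (z j)) →
        SuppIn {p | n' ≤ P.el (P.pv e) p} h) := by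
  classical
  obtain ⟨g, hg⟩ := hU
  -- commutation
  have hcomm : ∀ j l, E F (P.edge e) (c3 j) * z l = E F (P.edge e) (c3 l) * z j := by
    have h12 : E F (P.edge e) (c3 1) * z 2 = E F (P.edge e) (c3 2) * z 1 := sub_eq_zero.1 (h0 0)
    have h20 : E F (P.edge e) (c3 2) * z 0 = E F (P.edge e) (c3 0) * z 2 := sub_eq_zero.1 (h0 1)
    have h01 : E F (P.edge e) (c3 0) * z 1 = E F (P.edge e) (c3 1) * z 0 := sub_eq_zero.1 (h0 2)
    intro j l
    fin_cases j <;> fin_cases l
    · rfl
    · exact h01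
    · exact h20.symm
    · exact h01.symm
    · rfl
    · exact h12
    · exact h20
    · exact h12.symm
    · rfl
  have hdiv : ∀ j, z j = E F (P.edge e) (c3 j) * ∑ l, z l * g l := by
    intro j
    calc z j = z j * ∑ l, E F (P.edge e) (c3 l) * g l := by rw [hg, mul_one]
      _ = ∑ l, (E F (P.edge e) (c3 l) * z j) * g l := by
        rw [Finset.mul_sum]
        exact Finset.sum_congr rfl fun l _ => by ring
      _ = ∑ l, (E F (P.edge e) (c3 j) * z l) * g l :=
        Finset.sum_congr rfl fun l _ => by rw [hcomm]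
      _ = _ := by
        rw [Finset.mul_sum]
        exact Finset.sum_congr rfl fun l _ => by ring
  -- supports of the `E_j`
  have hE : ∀ j p, cf (E F (P.edge e) (c3 j)) p ≠ 0 → ∃ i ∈ P.edge e, p = F.hat i := by
    intro j p hp
    by_contra hcon
    push Not at hcon
    apply hp
    unfold E
    rw [cf_sum]
    refine Finset.sum_eq_zero fun i hi => ?_
    rw [cf_single, if_neg (hcon i hi)]
  have hE1 : ∀ j, SuppIn {p | ell w N p = 0} (E F (P.edge e) (c3 j)) := by
    intro j p hp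
    obtain ⟨i, hi, rfl⟩ := hE j p hp
    exact (P.mem_edge.1 hi).1
  have hE2 : ∀ j, SuppIn {p | P.el e p = 0} (E F (P.edge e) (c3 j)) := by
    intro j p hp
    obtain ⟨i, hi, rfl⟩ := hE j p hp
    exact (P.mem_edge.1 hi).2
  set h' : LL := ∑ l, z l * g l with hh'
  let h : LL := cut {p | ell w N p = κ} (cut {p | P.el e p = n} h')
  have hzh : ∀ j, z j = E F (P.edge e) (c3 j) * h := by
    intro j
    have h1 : cut {p | P.el e p = n} (z j) = z j :=
      cut_eq_self ((hz j).mono fun p hp => hp.2)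
    have h2 : cut {p | ell w N p = κ} (z j) = z j :=
      cut_eq_self ((hz j).mono fun p hp => hp.1)
    calc z j = cut {p | ell w N p = κ} (cut {p | P.el e p = n} (z j)) := by rw [h1, h2]
      _ = cut {p | ell w N p = κ} (cut {p | P.el e p = n} (E F (P.edge e) (c3 j) * h')) := by
        rw [← hdiv j]
      _ = _ := by
        rw [cut_mul (P.el e) (P.el_add e) n _ _ (hE2 j),
          cut_mul (ell w N) (ell_add w N) κ _ _ (hE1 j)]
  refine ⟨h, ?_, hzh, ?_, ?_⟩
  · intro p hp
    have h1 := suppIn_cut {p | ell w N p = κ} (cut {p | P.el e p = n} h') p hp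
    have h2 := (suppIn_cut {p | P.el e p = n} h').cut {p | ell w N p = κ} p hp
    exact ⟨h1, h2⟩
  · intro n' hn'
    have hv : P.v (P.nx e) ∈ P.edge e := P.mem_edge.2 ⟨P.ell_v _, P.el_right e⟩
    obtain ⟨j, hj⟩ := ke_coord hN (P.v (P.nx e)) (P.ell_v _)
    refine ke_low (P.edge e) (P.el (P.nx e)) (P.el_add _) (P.v (P.nx e)) hv (P.el_left _) ?_ j hj
      h (z j) (hzh j) n' (hn' j)
    intro i hi hiv
    refine lt_of_le_of_ne (P.el_hat_nonneg _ i) fun h3 => hiv ?_
    exact P.edge_nx hw e i hi h3.symm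
  · intro n' hn'
    have hv : P.v e ∈ P.edge e := P.mem_edge.2 ⟨P.ell_v _, P.el_left e⟩
    obtain ⟨j, hj⟩ := ke_coord hN (P.v e) (P.ell_v _)
    have h4 : P.el (P.pv e) (F.hat (P.v e)) = 0 := by
      have h5 := P.el_right (P.pv e)
      rwa [P.nx_pv] at h5
    refine ke_low (P.edge e) (P.el (P.pv e)) (P.el_add _) (P.v e) hv h4 ?_ j hj
      h (z j) (hzh j) n' (hn' j)
    intro i hi hiv
    refine lt_of_le_of_ne (P.el_hat_nonneg _ i) fun h3 => hiv ?_
    exact P.edge_pv hw e i hi h3.symm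

end Pool.Agent.H37.SM
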