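import Pool.Agent.H37.SM.PLB

/-! Module PGE: a generic interior vector. -/

set_option autoImplicit false

namespace Pool.Agent.H37.SM

open Finset

variable {r : ℕ} {F : Dat r} {w : Fin 3 → ℤ} {N : ℤ}

/-- Proof. The open cone `{elR e > 0}` of the real vector space `{ellR w N = 0}` is not covered by
the countably many proper subspaces `{(elR e p0 - n) elR e' = (elR e' p0 - n') elR e}`, `e ≠ e'`,
`n < elR e p0`, `n' < elR e' p0` (proper: evaluate at an end of `e` which is not on `e'`, it exists
by `P.pos` and injectivity). For instance take `q = ∑_e ρ_e v_e` with `ρ` algebraically independent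
reals or a measure argument; or use `Pool.Agent.H60.RegTri.exists_avoid`. A simple way: by
induction choose the coefficients `ρ_e > 0` one after the other outside countable sets; or take
`q = ∑_j t^j v_j` with `t > 0` outside a countable set: each condition is a nonzero polynomial in
`t` with finitely many roots (nonzero because its coefficient at an end of `e` not on `e'` or at an
end of `e'` not on `e` is nonzero). -/
theorem Poly.exists_generic (P : Poly F w N) (p0 : Fin 4 → ℝ) :
    ∃ q : Fin 4 → ℝ, ellR w N q = 0 ∧ (∀ e, 0 < P.elR e q) ∧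
      ∀ e e', e ≠ e' → ∀ n n' : ℤ, (n : ℝ) < P.elR e p0 → (n' : ℝ) < P.elR e' p0 →
        (P.elR e p0 - n) * P.elR e' q ≠ (P.elR e' p0 - n') * P.elR e q := by
  classical
  let qq : ℝ → Fin 4 → ℝ := fun t => ∑ j : Fin P.m, (t ^ (j : ℕ)) • toR (F.hat (P.v j))
  let pl : Fin P.m → Polynomial ℝ := fun e =>
    ∑ j : Fin P.m, Polynomial.monomial (j : ℕ) (P.elR e (toR (F.hat (P.v j))))
  have hpl : ∀ e t, (pl e).eval t = P.elR e (qq t) := by
    intro e t
    simp only [pl, qq]
    rw [Polynomial.eval_finsetSum]
    unfold Poly.elR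
    rw [ellR_sum]
    refine Finset.sum_congr rfl fun j _ => ?_
    rw [Polynomial.eval_monomial, mul_comm]
  have hcoeff : ∀ e (j : Fin P.m), (pl e).coeff (j : ℕ) = P.elR e (toR (F.hat (P.v j))) := by
    intro e j
    simp only [pl]
    rw [Polynomial.finsetSum_coeff]
    rw [Finset.sum_eq_single j]
    · rw [Polynomial.coeff_monomial_same]
    · intro b _ hb
      rw [Polynomial.coeff_monomial, if_neg]
      intro h
      exact hb (Fin.ext h)
    · intro h; exact absurd (Finset.mem_univ j) h
  let bad : Fin P.m → Fin P.m → ℤ → ℤ → Set ℝ := fun e e' n n' =>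
    if e ≠ e' ∧ (n : ℝ) < P.elR e p0 ∧ (n' : ℝ) < P.elR e' p0 then
      {t | (P.elR e p0 - n) * P.elR e' (qq t) = (P.elR e' p0 - n') * P.elR e (qq t)} else ∅
  have hbad : ∀ e e' n n', (bad e e' n n').Countable := by
    intro e e' n n'
    simp only [bad]
    split_ifs with hc
    · obtain ⟨hne, h1, h2⟩ := hc
      let R : Polynomial ℝ := Polynomial.C (P.elR e p0 - n) * pl e' -
        Polynomial.C (P.elR e' p0 - n') * pl e
      have hR : R ≠ 0 := by
        -- a vertex on `e` not on `e'`
        have hj : ∃ j : Fin P.m, P.elR e (toR (F.hat (P.v j))) = 0 ∧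
            0 < P.elR e' (toR (F.hat (P.v j))) := by
          by_cases hc : e = P.nx e'
          · refine ⟨P.nx e, P.elR_right e, ?_⟩
            rw [P.elR_toR]
            have : 0 < P.el e' (F.hat (P.v (P.nx e))) := by
              apply P.pos
              · intro h'
                apply P.nx_nx_ne e
                rw [h', ← hc]
              · intro h'
                exact hne (P.nx.injective h')
            exact_mod_cast this
          · refine ⟨e, P.elR_left e, ?_⟩
            rw [P.elR_toR]
            exact_mod_cast P.pos _ _ hne hc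
        obtain ⟨j, hj0, hj1⟩ := hj
        intro h0
        have h3 := congrArg (fun p : Polynomial ℝ => p.coeff (j : ℕ)) h0
        simp only [R] at h3
        rw [Polynomial.coeff_sub, Polynomial.coeff_C_mul, Polynomial.coeff_C_mul, hcoeff, hcoeff,
          hj0, mul_zero, sub_zero, Polynomial.coeff_zero] at h3
        have h4 : 0 < P.elR e p0 - n := by linarith
        have h5 := mul_pos h4 hj1
        linarith
      have hsub : {t | (P.elR e p0 - n) * P.elR e' (qq t) =
          (P.elR e' p0 - n') * P.elR e (qq t)} ⊆ (R.roots.toFinset : Set ℝ) := by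
        intro t ht
        have ht' : (P.elR e p0 - n) * P.elR e' (qq t) = (P.elR e' p0 - n') * P.elR e (qq t) := ht
        rw [Finset.mem_coe, Multiset.mem_toFinset, Polynomial.mem_roots hR]
        unfold Polynomial.IsRoot
        simp only [R]
        rw [Polynomial.eval_sub, Polynomial.eval_mul, Polynomial.eval_mul, Polynomial.eval_C,
          Polynomial.eval_C, hpl, hpl, ht', sub_self]
      exact (Finset.finite_toSet _).countable.mono hsub
    · exact Set.countable_empty
  let Bad : Set ℝ := ⋃ e, ⋃ e', ⋃ n, ⋃ n', bad e e' n n'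
  have hBad : Bad.Countable :=
    Set.countable_iUnion fun e => Set.countable_iUnion fun e' => Set.countable_iUnion fun n =>
      Set.countable_iUnion fun n' => hbad e e' n n'
  obtain ⟨t, ht0, htB⟩ := (hBad.dense_compl ℝ).exists_mem_open isOpen_Ioi
    (⟨1, Set.mem_Ioi.mpr zero_lt_one⟩ : (Set.Ioi (0 : ℝ)).Nonempty)
  refine ⟨qq t, ?_, fun e => ?_, ?_⟩
  · simp only [qq]
    rw [ellR_sum]
    refine Finset.sum_eq_zero fun e _ => ?_
    rw [ellR_toR, P.ell_v]; simp
  · have ht : 0 < t := htB
    simp only [qq]
    unfold Poly.elR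
    rw [ellR_sum]
    refine Finset.sum_pos' (fun e' _ => ?_) ⟨P.pv e, Finset.mem_univ _, ?_⟩
    · exact mul_nonneg (pow_nonneg ht.le _) (P.elR_hat_nonneg e (P.v e'))
    · refine mul_pos (pow_pos ht _) ?_
      rw [ellR_toR]
      exact_mod_cast P.el_pos_pv e
  · intro e e' hne n n' h1 h2 h3
    apply ht0
    simp only [Bad, Set.mem_iUnion]
    refine ⟨e, e', n, n', ?_⟩
    simp only [bad]
    rw [if_pos ⟨hne, h1, h2⟩]
    exact h3

end Pool.Agent.H37.SM
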