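import Pool.Agent.H37.SM.KST
import Pool.Agent.H37.SM.PGE

/-! Module KOS: Koszul exactness on `M_{p0}` (Lemma K1). -/

set_option autoImplicit false

namespace Pool.Agent.H37.SM

open Finset

variable {r : ℕ} {F : Dat r} {w : Fin 3 → ℤ} {N : ℤ}

lemma kos_elR (P : Poly F w N) (e : Fin P.m) (p0 q : Fin 4 → ℝ) (t : ℝ) :
    P.elR e (p0 - t • q) = P.elR e p0 - t * P.elR e q := by
  unfold Poly.elR
  rw [ellR_sub, ellR_smul]

/-- the integral levels passed -/
def kosS (P : Poly F w N) (p0 q : Fin 4 → ℝ) (t : ℝ) : Set (Fin P.m × ℤ) :=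
  {x | P.elR x.1 p0 - t * P.elR x.1 q ≤ x.2 ∧ (x.2 : ℝ) < P.elR x.1 p0}

lemma kosS_finite (P : Poly F w N) (p0 q : Fin 4 → ℝ) (t : ℝ) : (kosS P p0 q t).Finite := by
  have h : kosS P p0 q t ⊆ ⋃ e : Fin P.m, (fun n : ℤ => (e, n)) ''
      (Set.Icc ⌈P.elR e p0 - t * P.elR e q⌉ ⌈P.elR e p0⌉) := by
    rintro ⟨e, n⟩ ⟨h1, h2⟩
    refine Set.mem_iUnion.2 ⟨e, ⟨n, ⟨Int.ceil_le.2 h1, ?_⟩, rfl⟩⟩
    have h3 : (n : ℝ) ≤ ⌈P.elR e p0⌉ := h2.le.trans (Int.le_ceil _)
    exact_mod_cast h3
  exact (Set.finite_iUnion fun e => (Set.finite_Icc _ _).image _).subset h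

lemma kos_cross_cross (B : Finset (Fin r)) (h : LL) (j : Fin 3) :
    crossE F B (fun j => E F B (c3 j) * h) j = 0 := by
  fin_cases j
  · show E F B (c3 1) * (E F B (c3 2) * h) - E F B (c3 2) * (E F B (c3 1) * h) = 0
    ring
  · show E F B (c3 2) * (E F B (c3 0) * h) - E F B (c3 0) * (E F B (c3 2) * h) = 0
    ring
  · show E F B (c3 0) * (E F B (c3 1) * h) - E F B (c3 1) * (E F B (c3 0) * h) = 0
    ring

lemma kos_cross_sub (B : Finset (Fin r)) (z z' : Fin 3 → LL) (j : Fin 3) :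
    crossE F B (fun j => z j - z' j) j = crossE F B z j - crossE F B z' j := by
  fin_cases j
  · show E F B (c3 1) * (z 2 - z' 2) - E F B (c3 2) * (z 1 - z' 1) =
      (E F B (c3 1) * z 2 - E F B (c3 2) * z 1) - (E F B (c3 1) * z' 2 - E F B (c3 2) * z' 1)
    ring
  · show E F B (c3 2) * (z 0 - z' 0) - E F B (c3 0) * (z 2 - z' 2) =
      (E F B (c3 2) * z 0 - E F B (c3 0) * z 2) - (E F B (c3 2) * z' 0 - E F B (c3 0) * z' 2)
    ring
  · show E F B (c3 0) * (z 1 - z' 1) - E F B (c3 1) * (z 0 - z' 0) =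
      (E F B (c3 0) * z 1 - E F B (c3 1) * z 0) - (E F B (c3 0) * z' 1 - E F B (c3 1) * z' 0)
    ring

lemma kos_supp_finite (z : Fin 3 → LL) : {u : Pt | ∃ j, cf (z j) u ≠ 0}.Finite := by
  have h : {u : Pt | ∃ j, cf (z j) u ≠ 0} = ⋃ j, {u : Pt | cf (z j) u ≠ 0} := by
    ext u
    simp only [Set.mem_ofPred_eq, Set.mem_iUnion]
  rw [h]
  exact Set.finite_iUnion fun j => cf_finite (z j)

/-- the induction -/
theorem kos_ind (P : Poly F w N) (hw : Pos3 w) (hN : 0 < N)
    (hUe : ∀ e, UnitOn F (P.edge e)) (κ : ℤ) (p0 : Fin 4 → ℝ) (hp0 : ellR w N p0 = κ)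
    (y : Fin 3 → LL) (hy : ∀ j, SuppIn (P.M κ p0) (y j)) (q : Fin 4 → ℝ)
    (hq0 : ellR w N q = 0) (hq : ∀ e, 0 < P.elR e q)
    (hgen : ∀ e e', e ≠ e' → ∀ n n' : ℤ, (n : ℝ) < P.elR e p0 → (n' : ℝ) < P.elR e' p0 →
        (P.elR e p0 - n) * P.elR e' q ≠ (P.elR e' p0 - n') * P.elR e q) :
    ∀ k : ℕ, ∀ t : ℝ, 0 ≤ t → (kosS P p0 q t).ncard ≤ k → ∀ z : Fin 3 → LL,
      (∀ j, SuppIn (P.M κ (p0 - t • q)) (z j)) → (∀ j, y j = crossE F (F.face w N) z j) →
      ∃ z' : Fin 3 → LL, (∀ j, SuppIn (P.M κ p0) (z' j)) ∧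
        ∀ j, y j = crossE F (F.face w N) z' j := by
  intro k
  induction k with
  | zero =>
    intro t ht hk z hz hyz
    refine ⟨z, fun j u hu => ?_, hyz⟩
    have hE : kosS P p0 q t = ∅ := by
      rw [← Set.ncard_eq_zero (kosS_finite P p0 q t)]
      omega
    have h1 := hz j u hu
    refine ⟨h1.1, fun e => ?_⟩
    by_contra hlt
    push Not at hlt
    have h2 := h1.2 e
    rw [kos_elR] at h2
    have h3 : (e, P.el e u) ∈ kosS P p0 q t := ⟨h2, hlt⟩
    rw [hE] at h3
    exact h3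
  | succ k ih =>
    intro t ht hk z hz hyz
    rcases Set.eq_empty_or_nonempty (kosS P p0 q t) with hE | hne
    · refine ih t ht ?_ z hz hyz
      rw [hE, Set.ncard_empty]
      exact Nat.zero_le k
    obtain ⟨⟨e, n⟩, hen, hmax⟩ := Set.exists_max_image (kosS P p0 q t)
      (fun x => (P.elR x.1 p0 - x.2) / P.elR x.1 q) (kosS_finite P p0 q t) hne
    set t1 : ℝ := (P.elR e p0 - n) / P.elR e q with ht1
    have ht1pos : 0 < t1 := div_pos (sub_pos.2 hen.2) (hq e)
    have ht1t : t1 ≤ t := by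
      rw [ht1, div_le_iff₀ (hq e)]
      have := hen.1
      simp only at this
      linarith
    have hn1 : P.elR e (p0 - t1 • q) = n := by
      rw [kos_elR, ht1, div_mul_cancel₀ _ (hq e).ne']
      ring
    -- supports at `t1`
    have hz1 : ∀ j, SuppIn (P.M κ (p0 - t1 • q)) (z j) := by
      intro j u hu
      have h1 := hz j u hu
      refine ⟨h1.1, fun e' => ?_⟩
      by_contra hlt
      push Not at hlt
      have h2 := h1.2 e'
      rw [kos_elR] at h2 hlt
      have h3 : (e', P.el e' u) ∈ kosS P p0 q t := by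
        refine ⟨h2, ?_⟩
        have h4 : 0 < t1 * P.elR e' q := mul_pos ht1pos (hq e')
        simp only
        linarith
      have h5 := hmax _ h3
      simp only at h5
      rw [div_le_iff₀ (hq e')] at h5
      linarith
    have hgen1 : ∀ e' ≠ e, ∀ n' : ℤ, P.elR e' (p0 - t1 • q) ≠ n' := by
      intro e' he' n' hn'
      rw [kos_elR] at hn' hn1
      have h1 : P.elR e p0 - n = t1 * P.elR e q := by linarith
      have h2 : P.elR e' p0 - n' = t1 * P.elR e' q := by linarith
      have h3 : (n' : ℝ) < P.elR e' p0 := by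
        have := mul_pos ht1pos (hq e')
        linarith
      apply hgen e e' (Ne.symm he') n n' hen.2 h3
      rw [h1, h2]
      ring
    have hp1 : ellR w N (p0 - t1 • q) = κ := by
      rw [ellR_sub, ellR_smul, hp0, hq0, mul_zero, sub_zero]
    have hc : ∀ j, SuppIn {p | n < P.el e p} (crossE F (F.face w N) z j) := by
      intro j u hu
      rw [← hyz j] at hu
      have h1 := (hy j u hu).2 e
      have h2 : (n : ℝ) < (P.el e u : ℝ) := lt_of_lt_of_le hen.2 h1
      show n < P.el e u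
      exact_mod_cast h2
    obtain ⟨h, hh, hz'⟩ := P.step hw hN e (hUe e) κ (p0 - t1 • q) hp1 n hn1 hgen1 z hz1 hc
    set z' : Fin 3 → LL := fun j => z j - E F (F.face w N) (c3 j) * h with hz'def
    have hyz' : ∀ j, y j = crossE F (F.face w N) z' j := by
      intro j
      rw [hz'def, kos_cross_sub, kos_cross_cross, sub_zero, ← hyz j]
    -- the next time
    set A : Set ℝ := insert 0 (⋃ e' : Fin P.m, (fun u : Pt =>
      (P.elR e' p0 - P.el e' u) / P.elR e' q) '' {u : Pt | ∃ j, cf (z' j) u ≠ 0}) with hA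
    have hAfin : A.Finite :=
      (Set.finite_iUnion fun e' => (kos_supp_finite z').image _).insert 0
    have hAne : A.Nonempty := ⟨0, Set.mem_insert _ _⟩
    obtain ⟨t2, ht2A, ht2⟩ := Set.exists_max_image A id hAfin hAne
    have hlt : ∀ a ∈ A, a < t1 := by
      intro a ha
      rcases ha with rfl | ha
      · exact ht1pos
      · obtain ⟨e', he'⟩ := Set.mem_iUnion.1 ha
        obtain ⟨u, ⟨j, hu⟩, rfl⟩ := he'
        have h1 := hz' j u hu
        rw [div_lt_iff₀ (hq e')]
        by_cases hee : e' = e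
        · subst hee
          have h2 : n < P.el e' u := h1.2
          have h3 : (n : ℝ) < (P.el e' u : ℝ) := by exact_mod_cast h2
          rw [kos_elR] at hn1
          linarith
        · have h2 := h1.1.2 e'
          have h3 : P.elR e' (p0 - t1 • q) < (P.el e' u : ℝ) :=
            lt_of_le_of_ne h2 (hgen1 e' hee _)
          rw [kos_elR] at h3
          linarith
    have ht2t1 : t2 < t1 := hlt t2 ht2A
    have ht20 : 0 ≤ t2 := ht2 0 (Set.mem_insert _ _)
    refine ih t2 ht20 ?_ z' ?_ hyz'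
    · have hsub : kosS P p0 q t2 ⊂ kosS P p0 q t := by
        refine Set.ssubset_iff_subset_ne.2 ⟨?_, ?_⟩
        · rintro ⟨e', n'⟩ ⟨h1, h2⟩
          refine ⟨?_, h2⟩
          have h3 : t2 * P.elR e' q ≤ t * P.elR e' q :=
            mul_le_mul_of_nonneg_right (ht2t1.le.trans ht1t) (hq e').le
          simp only at h1 ⊢
          linarith
        · intro heq
          have h1 : (e, n) ∈ kosS P p0 q t2 := by
            rw [heq]
            exact hen
          have h2 := h1.1
          simp only at h2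
          rw [kos_elR] at hn1
          have h3 : t2 * P.elR e q < t1 * P.elR e q := mul_lt_mul_of_pos_right ht2t1 (hq e)
          linarith
      have := Set.ncard_lt_ncard hsub (kosS_finite P p0 q t)
      omega
    · intro j u hu
      refine ⟨(hz' j u hu).1.1, fun e' => ?_⟩
      rw [kos_elR]
      have h1 : (P.elR e' p0 - P.el e' u) / P.elR e' q ∈ A := by
        rw [hA]
        exact Set.mem_insert_of_mem _ (Set.mem_iUnion.2 ⟨e', ⟨u, ⟨j, hu⟩, rfl⟩⟩)
      have h2 : (P.elR e' p0 - P.el e' u) / P.elR e' q ≤ t2 := ht2 _ h1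
      rw [div_le_iff₀ (hq e')] at h2
      linarith

/-- Koszul exactness for 1-cycles with supports in `M_{p0}`.

Proof. `E·g = 1` (`hU`). Let `z0 = y × g` (`z0_0 = y_1 g_2 - y_2 g_1`, ...); then
`E × z0 = y (E·g) - g (E·y) = y`. Replace `z0` by its part on the slice `ℓ_w = κ` (`cut_mul`, `y` is
on the slice). Take `q` from `exists_generic`. For `t > 0` put `p_t = p0 - t q`. Choose `t0` with
`supp z0 ⊆ M_{p_{t0}}`. The set `V` of all `t ∈ (0, t0]` such that `elR e p_t = elR e p0 - t elR e q`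
is an integer for some `e` is finite. Strong induction on the number of elements of `V ∩ (0,t]`
where `supp z ⊆ M_{p_t}`: if there is none, then `supp z ⊆ M_{p0}` (for a point `u` of the support
with `el e u < elR e p0` the number `t' = (elR e p0 - el e u)/elR e q` is in `V`, `t' ≤ t`).
Otherwise let `t1` be the largest element of `V ∩ (0,t]`: `supp z ⊆ M_{p_{t1}}` (same computation),
at `t1` exactly one edge `e` is integral (`exists_generic`), `n = elR e p_{t1} < elR e p0`, and
`E × z = y` is supported in `el e ≥ elR e p0 > n`. `Poly.step` gives a new `z`, `E × (E h) = 0`, with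
support in `M_{p_{t1}}` and `el e > n`; then it is in `M_{p_{t2}}` for the next element `t2 < t1` of
`V` (or for `t2 = 0`). -/
theorem Poly.koszul (P : Poly F w N) (hw : Pos3 w) (hN : 0 < N) (hU : UnitOn F (F.face w N))
    (hUe : ∀ e, UnitOn F (P.edge e)) (κ : ℤ) (p0 : Fin 4 → ℝ) (hp0 : ellR w N p0 = κ)
    (y : Fin 3 → LL) (hy : ∀ j, SuppIn (P.M κ p0) (y j)) (h0 : dotE F (F.face w N) y = 0) :
    ∃ z : Fin 3 → LL, (∀ j, SuppIn (P.M κ p0) (z j)) ∧ ∀ j, y j = crossE F (F.face w N) z j := by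
  obtain ⟨g, hg⟩ := hU
  obtain ⟨q, hq0, hq, hgen⟩ := P.exists_generic p0
  unfold dotE at h0
  rw [Fin.sum_univ_three] at hg h0
  set z0 : Fin 3 → LL := ![y 1 * g 2 - y 2 * g 1, y 2 * g 0 - y 0 * g 2, y 0 * g 1 - y 1 * g 0]
    with hz0
  have hcross : ∀ j, y j = crossE F (F.face w N) z0 j := by
    intro j
    fin_cases j
    · show y 0 = E F (F.face w N) (c3 1) * (y 0 * g 1 - y 1 * g 0) -
        E F (F.face w N) (c3 2) * (y 2 * g 0 - y 0 * g 2)
      linear_combination (-y 0) * hg + g 0 * h0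
    · show y 1 = E F (F.face w N) (c3 2) * (y 1 * g 2 - y 2 * g 1) -
        E F (F.face w N) (c3 0) * (y 0 * g 1 - y 1 * g 0)
      linear_combination (-y 1) * hg + g 1 * h0
    · show y 2 = E F (F.face w N) (c3 0) * (y 2 * g 0 - y 0 * g 2) -
        E F (F.face w N) (c3 1) * (y 1 * g 2 - y 2 * g 1)
      linear_combination (-y 2) * hg + g 2 * h0
  have hEsupp : ∀ j, SuppIn {p | ell w N p = 0} (E F (F.face w N) (c3 j)) := by
    intro j
    unfold E
    refine SuppIn.sum fun i hi => ?_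
    intro p hp
    rw [cf_single] at hp
    by_cases h : p = F.hat i
    · rw [h]
      exact mem_face.1 hi
    · rw [if_neg h] at hp
      exact absurd rfl hp
  have hcut : ∀ j (η : LL), cut {p | ell w N p = κ} (E F (F.face w N) (c3 j) * η) =
      E F (F.face w N) (c3 j) * cut {p | ell w N p = κ} η := fun j η =>
    cut_mul (ell w N) (ell_add w N) κ _ η (hEsupp j)
  set z1 : Fin 3 → LL := fun j => cut {p | ell w N p = κ} (z0 j) with hz1
  have hcross1 : ∀ j, y j = crossE F (F.face w N) z1 j := by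
    intro j
    have h1 : y j = cut {p | ell w N p = κ} (y j) :=
      (cut_eq_self fun u hu => (hy j u hu).1).symm
    rw [h1, hcross j]
    fin_cases j
    · show cut {p | ell w N p = κ} (E F (F.face w N) (c3 1) * z0 2 -
          E F (F.face w N) (c3 2) * z0 1) =
        E F (F.face w N) (c3 1) * cut {p | ell w N p = κ} (z0 2) -
          E F (F.face w N) (c3 2) * cut {p | ell w N p = κ} (z0 1)
      rw [map_sub, hcut, hcut]
    · show cut {p | ell w N p = κ} (E F (F.face w N) (c3 2) * z0 0 -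
          E F (F.face w N) (c3 0) * z0 2) =
        E F (F.face w N) (c3 2) * cut {p | ell w N p = κ} (z0 0) -
          E F (F.face w N) (c3 0) * cut {p | ell w N p = κ} (z0 2)
      rw [map_sub, hcut, hcut]
    · show cut {p | ell w N p = κ} (E F (F.face w N) (c3 0) * z0 1 -
          E F (F.face w N) (c3 1) * z0 0) =
        E F (F.face w N) (c3 0) * cut {p | ell w N p = κ} (z0 1) -
          E F (F.face w N) (c3 1) * cut {p | ell w N p = κ} (z0 0)
      rw [map_sub, hcut, hcut]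
  set A : Set ℝ := insert 0 (⋃ e' : Fin P.m, (fun u : Pt =>
    (P.elR e' p0 - P.el e' u) / P.elR e' q) '' {u : Pt | ∃ j, cf (z1 j) u ≠ 0}) with hA
  have hAfin : A.Finite :=
    (Set.finite_iUnion fun e' => (kos_supp_finite z1).image _).insert 0
  obtain ⟨t0, _, ht0⟩ := Set.exists_max_image A id hAfin ⟨0, Set.mem_insert _ _⟩
  have ht00 : 0 ≤ t0 := ht0 0 (Set.mem_insert _ _)
  refine kos_ind P hw hN hUe κ p0 hp0 y hy q hq0 hq hgen _ t0 ht00 le_rfl z1 ?_ hcross1
  intro j u hu
  refine ⟨suppIn_cut _ _ u hu, fun e' => ?_⟩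
  rw [kos_elR]
  have h1 : (P.elR e' p0 - P.el e' u) / P.elR e' q ∈ A := by
    rw [hA]
    exact Set.mem_insert_of_mem _ (Set.mem_iUnion.2 ⟨e', ⟨u, ⟨j, hu⟩, rfl⟩⟩)
  have h2 : (P.elR e' p0 - P.el e' u) / P.elR e' q ≤ t0 := ht0 _ h1
  rw [div_le_iff₀ (hq e')] at h2
  linarith

end Pool.Agent.H37.SM
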