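import Pool.Agent.H37.SM.KOS

/-! Module KOX: exactness of the operators on a slice. -/

set_option autoImplicit false

namespace Pool.Agent.H37.SM

open Finset

variable {r : ℕ} {F : Dat r} {w : Fin 3 → ℤ} {N : ℤ}

lemma kox_cut (B : Finset (Fin r)) (c : Fin 4 → ℂ) (m : ℤ) (η : LL) (p : Pt) :
    cf (E F B c * cut {q : Pt | q 3 = m} η) p =
      if p 3 = m + 1 then cf (E F B c * η) p else 0 := by
  rw [cf_E_mul, cf_E_mul]
  split_ifs with h
  · refine sum_congr rfl fun i _ => ?_
    rw [cf_cut_of_mem]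
    show (p - F.hat i) 3 = m
    rw [Pi.sub_apply, F.hat_three, h]
    ring
  · refine sum_eq_zero fun i _ => ?_
    rw [cf_cut_of_notMem, mul_zero]
    intro h'
    have h2 : (p - F.hat i) 3 = m := h'
    rw [Pi.sub_apply, F.hat_three] at h2
    exact h (by linarith)

lemma kox_cross (B : Finset (Fin r)) (m : ℤ) (z : Fin 3 → LL) (j : Fin 3) (p : Pt) :
    cf (crossE F B (fun l => cut {q : Pt | q 3 = m} (z l)) j) p =
      if p 3 = m + 1 then cf (crossE F B z j) p else 0 := by
  fin_cases j <;> simp only [crossE, Fin.zero_eta, Fin.mk_one, Fin.reduceFinMk, Matrix.cons_val_zero,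
    Matrix.cons_val_one, Matrix.cons_val, cf_sub, kox_cut] <;> split_ifs <;> simp

lemma kox_curl (B : Finset (Fin r)) (s : ℂ) (z : Fin 3 → LL) (j : Fin 3) (p : Pt)
    (h : ∀ l, cf (z l) p = 0) : cf (curl3 F B s z j) p = cf (crossE F B z j) p := by
  have hD : ∀ c l, cf (D F B s c (z l)) p = cf (E F B c * z l) p := by
    intro c l
    rw [D_apply, cf_add, cf_dg, h l, mul_zero, zero_add]
  fin_cases j <;> simp only [curl3, crossE, Fin.zero_eta, Fin.mk_one, Fin.reduceFinMk,
    Matrix.cons_val_zero, Matrix.cons_val_one, Matrix.cons_val, cf_sub, hD]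

lemma kox_curl_add (B : Finset (Fin r)) (s : ℂ) (z z' : Fin 3 → LL) (j : Fin 3) :
    curl3 F B s (fun l => z l + z' l) j = curl3 F B s z j + curl3 F B s z' j := by
  fin_cases j <;> simp only [curl3, Fin.zero_eta, Fin.mk_one, Fin.reduceFinMk,
    Matrix.cons_val_zero, Matrix.cons_val_one, Matrix.cons_val, map_add] <;> abel

lemma kox_bd_sub (B : Finset (Fin r)) (s : ℂ) (y y' : Fin 3 → LL) :
    bd F B s c3 (fun l => y l - y' l) = bd F B s c3 y - bd F B s c3 y' := by
  unfold bd
  simp only [map_sub, sum_sub_distrib]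

lemma kox_curl_zero (B : Finset (Fin r)) (s : ℂ) (j : Fin 3) :
    curl3 F B s (fun _ => 0) j = 0 := by
  fin_cases j <;> simp only [curl3, Fin.zero_eta, Fin.mk_one, Fin.reduceFinMk,
    Matrix.cons_val_zero, Matrix.cons_val_one, Matrix.cons_val, map_zero, sub_zero]

/-- the induction -/
lemma kox_main (P : Poly F w N) (hw : Pos3 w) (hN : 0 < N) (hU : UnitOn F (F.face w N))
    (hUe : ∀ e, UnitOn F (P.edge e)) (s : ℂ) (κ : ℤ) (p0 : Fin 4 → ℝ) (hp0 : ellR w N p0 = κ)
    (n : ℕ) : ∀ y : Fin 3 → LL, (∀ j, SuppIn (P.M κ p0) (y j)) →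
      (∀ j p, cf (y j) p ≠ 0 → p 3 < ⌈p0 3⌉ + n) → bd F (F.face w N) s c3 y = 0 →
      ∃ z : Fin 3 → LL, (∀ j, SuppIn (P.M κ p0) (z j)) ∧
        ∀ j, y j = curl3 F (F.face w N) s z j := by
  induction n with
  | zero =>
    intro y hy hd _
    have h0 : ∀ j, y j = 0 := by
      intro j
      apply ext_cf
      intro p
      rw [cf_zero]
      by_contra hne
      have h1 := hd j p hne
      have h2 := P.deg_le hp0 (hy j p hne)
      have h3 : ⌈p0 3⌉ ≤ p 3 := Int.ceil_le.2 h2
      simp at h1
      omega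
    exact ⟨fun _ => 0, fun _ => suppIn_zero _, fun j => by rw [h0 j, kox_curl_zero]⟩
  | succ n ih =>
    intro y hy hd hb
    set d : ℤ := ⌈p0 3⌉ + n with hdd
    have hd' : ∀ j p, d < p 3 → cf (y j) p = 0 := by
      intro j p hp
      by_contra hne
      have := hd j p hne
      push_cast at this
      omega
    -- the top part
    have htop : dotE F (F.face w N) (fun j => cut {q : Pt | q 3 = d} (y j)) = 0 := by
      apply ext_cf
      intro p
      unfold dotE
      rw [cf_sum, cf_zero]
      simp only [kox_cut]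
      by_cases hp : p 3 = d + 1
      · simp only [if_pos hp]
        have h1 : cf (bd F (F.face w N) s c3 y) p = 0 := by rw [hb, cf_zero]
        unfold bd at h1
        rw [cf_sum] at h1
        rw [← h1]
        refine sum_congr rfl fun j _ => ?_
        rw [D_apply, cf_add, cf_dg, hd' j p (by omega), mul_zero, zero_add]
      · simp only [if_neg hp, sum_const_zero]
    obtain ⟨z0, hz0, hz0'⟩ := P.koszul hw hN hU hUe κ p0 hp0
      (fun j => cut {q : Pt | q 3 = d} (y j)) (fun j => (hy j).cut _) htop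
    set z : Fin 3 → LL := fun l => cut {q : Pt | q 3 = d - 1} (z0 l) with hz
    have hzM : ∀ j, SuppIn (P.M κ p0) (z j) := fun j => (hz0 j).cut _
    have hcross : ∀ j p, cf (crossE F (F.face w N) z j) p = if p 3 = d then cf (y j) p else 0 := by
      intro j p
      rw [hz, kox_cross, ← hz0' j, sub_add_cancel]
      split_ifs with h
      · rw [cf_cut_of_mem h]
      · rfl
    have hcurl : ∀ j p, d ≤ p 3 → cf (curl3 F (F.face w N) s z j) p = cf (y j) p := by
      intro j p hp
      rw [kox_curl, hcross]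
      · split_ifs with h
        · rfl
        · exact (hd' j p (by omega)).symm
      · intro l
        rw [hz]
        apply cf_cut_of_notMem
        intro h
        have h' : p 3 = d - 1 := h
        omega
    obtain ⟨z', hz'M, hz'⟩ := ih (fun j => y j - curl3 F (F.face w N) s z j)
      (fun j => (hy j).sub (SuppIn_curl3 (P.M_closed κ p0) s z hzM j))
      (by
        intro j p hne
        by_contra hlt
        push Not at hlt
        apply hne
        rw [cf_sub, hcurl j p hlt, sub_self])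
      (by rw [kox_bd_sub, hb, zero_sub, neg_eq_zero]; exact bd_curl3 _ _ _)
    refine ⟨fun j => z' j + z j, fun j => (hz'M j).add (hzM j), fun j => ?_⟩
    rw [kox_curl_add, ← hz' j, sub_add_cancel]

/-- Exactness for the operators: every finitely supported 1-cycle on a slice is a curl.

Proof. `exists_M`: `y` is supported in some `M_{p0}`. The degrees (`p 3`) on `M_{p0}` are bounded
below (`deg_le`). Induction on the highest degree `d` of `y` (minus the bound): the degree `d + 1`
part of `∑ D_j y_j` is `E · y^{(d)}`, so `E · y^{(d)} = 0`; `koszul` gives `z`, take its part of degree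
`d - 1` (the `E_j` have degree one on their support): `y^{(d)} = E × z`. `y - D × z` is a cycle
(`bd_curl3`) supported in `M_{p0}`, with degrees `≤ d - 1`. -/
theorem Poly.exact1 (P : Poly F w N) (hw : Pos3 w) (hN : 0 < N) (hU : UnitOn F (F.face w N))
    (hUe : ∀ e, UnitOn F (P.edge e)) (s : ℂ) (κ : ℤ) (y : Fin 3 → LL)
    (hy : ∀ j, SuppIn (slice w N κ) (y j)) (h0 : bd F (F.face w N) s c3 y = 0) :
    ∃ z : Fin 3 → LL, (∀ j, SuppIn (slice w N κ) (z j)) ∧
      ∀ j, y j = curl3 F (F.face w N) s z j := by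
  obtain ⟨p0, hp0, hM⟩ := P.exists_M hw κ y hy
  have hfin : ((fun p : Pt => p 3) '' (⋃ j, {p | cf (y j) p ≠ 0})).Finite :=
    (Set.finite_iUnion fun j => cf_finite (y j)).image _
  obtain ⟨U, hU'⟩ := hfin.bddAbove
  have hdeg : ∀ j p, cf (y j) p ≠ 0 → p 3 < ⌈p0 3⌉ + ((U + 1 - ⌈p0 3⌉).toNat : ℤ) := by
    intro j p hne
    have h1 : p 3 ≤ U := hU' ⟨p, Set.mem_iUnion.2 ⟨j, hne⟩, rfl⟩
    have h2 := Int.self_le_toNat (U + 1 - ⌈p0 3⌉)
    omega
  obtain ⟨z, hz, hz'⟩ := kox_main P hw hN hU hUe s κ p0 hp0 _ y hM hdeg h0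
  exact ⟨z, fun j => (hz j).mono fun p hp => hp.1, hz'⟩

end Pool.Agent.H37.SM
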