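import Pool.Agent.H37.SM.KE

/-! Module KST: one step of the reduction of 2-chains. -/

set_option autoImplicit false

namespace Pool.Agent.H37.SM

open Finset

variable {r : ℕ} {F : Dat r} {w : Fin 3 → ℤ} {N : ℤ}

/-- cutting at the lowest `el e` level: `E^face` becomes `E^edge` -/
lemma KST_cut (P : Poly F w N) (e : Fin P.m) (n : ℤ) (c : Fin 4 → ℂ) (η : LL)
    (hη : SuppIn {p | n ≤ P.el e p} η) :
    cut {p | P.el e p = n} (E F (F.face w N) c * η) =
      E F (P.edge e) c * cut {p | P.el e p = n} η := by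
  apply ext_cf; intro p
  by_cases hp : P.el e p = n
  · rw [cf_cut_of_mem (show p ∈ {p | P.el e p = n} from hp), cf_E_mul, cf_E_mul]
    rw [← Finset.sum_subset (Finset.inter_subset_left : P.edge e ⊆ F.face w N)]
    · refine Finset.sum_congr rfl fun i hi => ?_
      have h2 : P.el e (F.hat i) = 0 := (P.mem_edge.mp hi).2
      rw [cf_cut_of_mem]
      show P.el e (p - F.hat i) = n
      rw [P.el_sub, hp, h2, sub_zero]
    · intro i hi hni
      have h1 := P.el_hat_nonneg e i
      have h2 : P.el e (F.hat i) ≠ 0 := fun h =>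
        hni (P.mem_edge.mpr ⟨mem_face.mp hi, h⟩)
      rw [hη.cf_eq, mul_zero]
      intro h3
      have h4 : n ≤ P.el e (p - F.hat i) := h3
      rw [P.el_sub, hp] at h4
      omega
  · rw [cf_cut_of_notMem (show p ∉ {p | P.el e p = n} from hp), cf_E_mul]
    symm
    refine Finset.sum_eq_zero fun i hi => ?_
    have h2 : P.el e (F.hat i) = 0 := (P.mem_edge.mp hi).2
    rw [cf_cut_of_notMem, mul_zero]
    intro h3
    have h4 : P.el e (p - F.hat i) = n := h3
    rw [P.el_sub, h2, sub_zero] at h4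
    exact hp h4

lemma KST_cross (P : Poly F w N) (e : Fin P.m) (n : ℤ) (z : Fin 3 → LL)
    (hz : ∀ j, SuppIn {p | n ≤ P.el e p} (z j)) (j : Fin 3) :
    cut {p | P.el e p = n} (crossE F (F.face w N) z j) =
      crossE F (P.edge e) (fun j => cut {p | P.el e p = n} (z j)) j := by
  fin_cases j
  · show cut {p | P.el e p = n} (E F (F.face w N) (c3 1) * z 2 - E F (F.face w N) (c3 2) * z 1) =
      E F (P.edge e) (c3 1) * cut {p | P.el e p = n} (z 2) -
        E F (P.edge e) (c3 2) * cut {p | P.el e p = n} (z 1)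
    rw [map_sub, KST_cut P e n _ _ (hz 2), KST_cut P e n _ _ (hz 1)]
  · show cut {p | P.el e p = n} (E F (F.face w N) (c3 2) * z 0 - E F (F.face w N) (c3 0) * z 2) =
      E F (P.edge e) (c3 2) * cut {p | P.el e p = n} (z 0) -
        E F (P.edge e) (c3 0) * cut {p | P.el e p = n} (z 2)
    rw [map_sub, KST_cut P e n _ _ (hz 0), KST_cut P e n _ _ (hz 2)]
  · show cut {p | P.el e p = n} (E F (F.face w N) (c3 0) * z 1 - E F (F.face w N) (c3 1) * z 0) =
      E F (P.edge e) (c3 0) * cut {p | P.el e p = n} (z 1) -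
        E F (P.edge e) (c3 1) * cut {p | P.el e p = n} (z 0)
    rw [map_sub, KST_cut P e n _ _ (hz 1), KST_cut P e n _ _ (hz 0)]

/-- Let `z` be supported in `M_{p1}`, where only the edge `e` has an integral value
`elR e p1 = n`, and let the `el e = n` level of `E × z` vanish. Then `z` can be changed by a
gradient `E h` such that it is supported in `M_{p1}` and `n < el e`.

Proof. Let `z̄_j` be the part of `z_j` on `el e = n`. All points of `z` have `el e ≥ n`, so the
level `n` part of `E × z` is `E^e × z̄` (`E^e` for `P.edge e`; the other exponents raise `el e`),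
which vanishes. `edge_div` gives `h` with `z̄ = E^e h`, `h` on the level `n`. Bounds: for
`e' ∈ {nx e, pv e}` the points of `z̄` satisfy `el e' ≥ elR e' p1`, not an integer, so
`el e' ≥ ⌈elR e' p1⌉ =: n'` and the same for `h`; so `elR e' (u - p1) > 0` for `u ∈ supp h`, and
`elR e (u - p1) = 0`, `ℓ_w (u - p1) = 0`: by `pp` all other edges are positive at `u - p1`, so
`h` is supported in `M_{p1}` . `z - E h` has support in `M_{p1}` (`M_closed`) and its level `n` part
is `z̄ - E^e h = 0`. -/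
theorem Poly.step (P : Poly F w N) (hw : Pos3 w) (hN : 0 < N) (e : Fin P.m)
    (hU : UnitOn F (P.edge e)) (κ : ℤ) (p1 : Fin 4 → ℝ) (hp1 : ellR w N p1 = κ) (n : ℤ)
    (hn : P.elR e p1 = n) (hgen : ∀ e' ≠ e, ∀ n' : ℤ, P.elR e' p1 ≠ n') (z : Fin 3 → LL)
    (hz : ∀ j, SuppIn (P.M κ p1) (z j))
    (hc : ∀ j, SuppIn {p | n < P.el e p} (crossE F (F.face w N) z j)) :
    ∃ h : LL, SuppIn (P.M κ p1) h ∧
      ∀ j, SuppIn (P.M κ p1 ∩ {p | n < P.el e p}) (z j - E F (F.face w N) (c3 j) * h) := by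
  have hMge : ∀ p ∈ P.M κ p1, n ≤ P.el e p := by
    intro p hp
    have h1 := hp.2 e
    rw [hn] at h1
    exact_mod_cast h1
  have hzge : ∀ j, SuppIn {p | n ≤ P.el e p} (z j) := fun j => (hz j).mono hMge
  have hzb : ∀ j, SuppIn {p | ell w N p = κ ∧ P.el e p = n}
      (cut {p | P.el e p = n} (z j)) := by
    intro j p hp
    exact ⟨((hz j).cut _ p hp).1, suppIn_cut _ _ p hp⟩
  have h0 : ∀ j, crossE F (P.edge e) (fun j => cut {p | P.el e p = n} (z j)) j = 0 := by
    intro j
    rw [← KST_cross P e n z hzge j]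
    apply ext_cf; intro p
    rw [cf_zero]
    by_cases hp : P.el e p = n
    · rw [cf_cut_of_mem (show p ∈ {p | P.el e p = n} from hp), (hc j).cf_eq]
      intro h
      have h' : n < P.el e p := h
      omega
    · rw [cf_cut_of_notMem (show p ∉ {p | P.el e p = n} from hp)]
  obtain ⟨h, hs, heq, hnx, hpv⟩ := P.edge_div hw hN e hU κ n _ hzb h0
  -- bounds
  have hbd : ∀ e', ∀ j, SuppIn {p | ⌈P.elR e' p1⌉ ≤ P.el e' p}
      (cut {p | P.el e p = n} (z j)) := by
    intro e' j p hp
    have h1 := ((hz j).cut _ p hp).2 e'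
    exact Int.ceil_le.mpr h1
  have hnx' := hnx _ (hbd (P.nx e))
  have hpv' := hpv _ (hbd (P.pv e))
  have hpos : ∀ e', e' ≠ e → SuppIn {p | ⌈P.elR e' p1⌉ ≤ P.el e' p} h →
      ∀ u, cf h u ≠ 0 → 0 < P.elR e' (toR u - p1) := by
    intro e' he' hs' u hu
    have h1 : ⌈P.elR e' p1⌉ ≤ P.el e' u := hs' u hu
    have h2 : P.elR e' p1 ≤ (P.el e' u : ℝ) := Int.ceil_le.mp h1
    have h3 : P.elR e' p1 ≠ (P.el e' u : ℝ) := hgen e' he' _
    have h4 : P.elR e' (toR u - p1) = P.el e' u - P.elR e' p1 := by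
      unfold Poly.elR Poly.el
      rw [ellR_sub, ellR_toR]
    rw [h4]
    have := lt_of_le_of_ne h2 h3
    linarith
  have hhM : SuppIn (P.M κ p1) h := by
    intro u hu
    obtain ⟨hu1, hu2⟩ := hs u hu
    refine ⟨hu1, fun e' => ?_⟩
    by_cases he' : e' = e
    · rw [he', hn, hu2]
    · have h1 := P.pp hw e (toR u - p1) (by rw [ellR_sub, ellR_toR, hp1, hu1]; simp)
        (by
          have : P.elR e (toR u - p1) = P.el e u - P.elR e p1 := by
            unfold Poly.elR Poly.el
            rw [ellR_sub, ellR_toR]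
          rw [this, hn, hu2]; simp)
        (hpos _ (P.nx_ne e) hnx' u hu) (hpos _ (P.pv_ne e) hpv' u hu) e' he'
      have h4 : P.elR e' (toR u - p1) = P.el e' u - P.elR e' p1 := by
        unfold Poly.elR Poly.el
        rw [ellR_sub, ellR_toR]
      rw [h4] at h1
      linarith
  refine ⟨h, hhM, fun j => ?_⟩
  intro p hp
  have hpM : p ∈ P.M κ p1 := ((hz j).sub (hhM.E_mul (P.M_closed κ p1) (c3 j))) p hp
  refine ⟨hpM, ?_⟩
  show n < P.el e p
  refine lt_of_le_of_ne (hMge p hpM) fun hpn => ?_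
  apply hp
  have hmem : p ∈ {p | P.el e p = n} := hpn.symm
  have hhge : SuppIn {p | n ≤ P.el e p} h := hhM.mono hMge
  have hcuth : cut {p | P.el e p = n} h = h := cut_eq_self (hs.mono fun p hp => hp.2)
  have h1 := congrArg (fun η => cf η p) (KST_cut P e n (c3 j) h hhge)
  simp only [cf_cut_of_mem hmem, hcuth] at h1
  have h2 := congrArg (fun η => cf η p) (heq j)
  simp only [cf_cut_of_mem hmem] at h2
  rw [cf_sub, h1, h2, sub_self]

end Pool.Agent.H37.SM
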