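import Pool.Agent.H37.SM.Poly

/-! Module LAY: elimination of one layer, for 1-chains (any family of operators) and for 2-chains
(the three coordinate operators). -/

set_option autoImplicit false

namespace Pool.Agent.H37.SM

open Finset

variable {r : ℕ}

open Classical in
/-- the weight `1 / ε` on the layer `X \ Y` -/
noncomputable def layW (s : ℂ) (C : Fin 4 → ℂ) (X Y : Set Pt) (p : Pt) : ℂ :=
  if p ∈ X ∧ p ∉ Y then (lin C p - s * C 3)⁻¹ else 0

section aux

variable (F : Dat r) (B : Finset (Fin r)) (s : ℂ) (C : Fin 4 → ℂ) (X Y : Set Pt)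

/-- shifts inside the layer preserve the scalar -/
lemma lay_eps (hX : Closed F B X) (hY : Closed F B Y)
    (hst : ∀ p ∈ X, p ∉ Y → ∀ l ∈ B, lin C (F.hat l) = 0 ∨ p + F.hat l ∈ Y)
    {p : Pt} (hpY : p ∉ Y) {l : Fin r} (hl : l ∈ B) (hpX : p - F.hat l ∈ X) :
    p ∈ X ∧ p - F.hat l ∉ Y ∧ lin C (F.hat l) = 0 := by
  have h1 : p ∈ X := by
    have := hX _ hpX l hl
    rwa [sub_add_cancel] at this
  have h2 : p - F.hat l ∉ Y := by
    intro h
    apply hpY
    have := hY _ h l hl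
    rwa [sub_add_cancel] at this
  refine ⟨h1, h2, ?_⟩
  rcases hst _ hpX h2 l hl with h | h
  · exact h
  · rw [sub_add_cancel] at h
    exact absurd h hpY

/-- off `Y` the weight commutes with all the operators -/
lemma cf_D_layW (hX : Closed F B X) (hY : Closed F B Y)
    (hst : ∀ p ∈ X, p ∉ Y → ∀ l ∈ B, lin C (F.hat l) = 0 ∨ p + F.hat l ∈ Y)
    (c : Fin 4 → ℂ) (η : LL) (hη : SuppIn X η) {p : Pt} (hpY : p ∉ Y) :
    cf (D F B s c (dg (layW s C X Y) η)) p = layW s C X Y p * cf (D F B s c η) p := by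
  rw [cf_D, cf_D, cf_dg, mul_add, Finset.mul_sum]
  congr 1
  · ring
  · refine Finset.sum_congr rfl fun l hl => ?_
    rw [cf_dg]
    by_cases hpX : p - F.hat l ∈ X
    · obtain ⟨h1, h2, h3⟩ := lay_eps F B C X Y hX hY hst hpY hl hpX
      have h4 : layW s C X Y (p - F.hat l) = layW s C X Y p := by
        unfold layW
        rw [if_pos ⟨hpX, h2⟩, if_pos ⟨h1, hpY⟩, lin_sub, h3, sub_zero]
      rw [h4]; ring
    · rw [hη.cf_eq hpX]; ring

/-- off `Y` the operator `D_C` applied to `dg W η` gives `η` -/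
lemma cf_D_layW_self (hX : Closed F B X) (hY : Closed F B Y)
    (hne : ∀ p ∈ X, p ∉ Y → lin C p - s * C 3 ≠ 0)
    (hst : ∀ p ∈ X, p ∉ Y → ∀ l ∈ B, lin C (F.hat l) = 0 ∨ p + F.hat l ∈ Y)
    (η : LL) (hη : SuppIn X η) {p : Pt} (hpY : p ∉ Y) :
    cf (D F B s C (dg (layW s C X Y) η)) p = cf η p := by
  rw [cf_D_layW F B s C X Y hX hY hst C η hη hpY, cf_D]
  have h0 : ∑ i ∈ B, F.κ i * lin C (F.hat i) * cf η (p - F.hat i) = 0 := by
    refine Finset.sum_eq_zero fun l hl => ?_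
    by_cases hpX : p - F.hat l ∈ X
    · obtain ⟨_, _, h3⟩ := lay_eps F B C X Y hX hY hst hpY hl hpX
      rw [h3]; ring
    · rw [hη.cf_eq hpX]; ring
  rw [h0, add_zero]
  by_cases hpX : p ∈ X
  · unfold layW
    rw [if_pos ⟨hpX, hpY⟩, inv_mul_cancel_left₀ (hne p hpX hpY)]
  · rw [hη.cf_eq hpX]; ring

end aux

/-- Elimination of the layer `X \ Y` from a 1-chain.

Proof. Let `ε p := lin (∑ e_i c_i) p - s (∑ e_i c_i)_3` and `W p := 1/ε p` for `p ∈ X \ Y`, `0`
elsewhere. The new chain is `η_j - (∑_i e_i D_i)(dg W η_j) + e_j ∑_i D_i (dg W η_i)` (use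
`D_sum_left` backwards to write `∑_i e_i D_i = D_{∑ e_i c_i}`). Evaluate the coefficient at
`p ∉ Y` with `cf_D`. If `p ∉ X` everything vanishes (`X` is closed: a point `p - â_l ∈ X` would
give `p ∈ X`). Let `p ∈ X \ Y`. In `D_{∑ e c}(dg W η_j)` the diagonal part gives `η_j(p)`; a shift
term contains `W (p - â_l) ≠ 0` only if `p - â_l ∈ X \ Y`, and then `hst` (as `p ∉ Y`) gives
`lin (∑ e c) â_l = 0`. In `∑_i D_i (dg W η_i)` the coefficient at `p` is
`(1/ε p) * (coefficient of bd η at p) = 0`: for a shift `p - â_l ∈ X \ Y` one has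
`ε (p - â_l) = ε p` by `hst` and `lin_sub`; if `p - â_l ∉ X` then `η_i (p - â_l) = 0`;
`p - â_l ∈ Y` is impossible since `Y` is closed and `p ∉ Y`. -/
theorem layer1 {ι : Type*} [Fintype ι] (F : Dat r) (B : Finset (Fin r)) (s : ℂ)
    (c : ι → Fin 4 → ℂ) (e : ι → ℂ) (X Y : Set Pt) (hX : Closed F B X) (hY : Closed F B Y)
    (hYX : Y ⊆ X)
    (hne : ∀ p ∈ X, p ∉ Y → lin (∑ i, e i • c i) p - s * (∑ i, e i • c i) 3 ≠ 0)
    (hst : ∀ p ∈ X, p ∉ Y → ∀ l ∈ B, lin (∑ i, e i • c i) (F.hat l) = 0 ∨ p + F.hat l ∈ Y)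
    (η : ι → LL) (hη : ∀ i, SuppIn X (η i)) (hb : SuppIn Y (bd F B s c η)) :
    ∃ W : Pt → ℂ, ∀ j,
      SuppIn Y (η j - bd2 F B s c (fun i j => e i • dg W (η j)) j) := by
  refine ⟨layW s (∑ i, e i • c i) X Y, fun j => ?_⟩
  intro p hp
  by_contra hpY
  apply hp
  have h1 : bd2 F B s c (fun i j => e i • dg (layW s (∑ i, e i • c i) X Y) (η j)) j =
      D F B s (∑ i, e i • c i) (dg (layW s (∑ i, e i • c i) X Y) (η j)) -
        e j • ∑ i, D F B s (c i) (dg (layW s (∑ i, e i • c i) X Y) (η i)) := by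
    unfold bd2
    rw [D_sum_left, Finset.smul_sum, ← Finset.sum_sub_distrib]
    refine Finset.sum_congr rfl fun i _ => ?_
    rw [map_sub, map_smul, map_smul]
  have h2 : ∑ i, cf (D F B s (c i) (dg (layW s (∑ i, e i • c i) X Y) (η i))) p = 0 := by
    have h3 : ∀ i ∈ (univ : Finset ι),
        cf (D F B s (c i) (dg (layW s (∑ i, e i • c i) X Y) (η i))) p =
          layW s (∑ i, e i • c i) X Y p * cf (D F B s (c i) (η i)) p := fun i _ =>
      cf_D_layW F B s _ X Y hX hY hst (c i) (η i) (hη i) hpY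
    rw [Finset.sum_congr rfl h3, ← Finset.mul_sum]
    have h4 := hb.cf_eq hpY
    unfold bd at h4
    rw [cf_sum] at h4
    rw [h4, mul_zero]
  rw [h1, cf_sub, cf_sub, cf_smul, cf_sum, h2, mul_zero, sub_zero,
    cf_D_layW_self F B s _ X Y hX hY hne hst (η j) (hη j) hpY, sub_self]

/-- Elimination of the layer `X \ Y` from a 2-chain `z` of the three coordinate operators (up to
a gradient). Proof: same computation with `x = ∑_j e_j dg W z_j`, `W p = 1/ε p` on `X \ Y`,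
`ε p = ∑ e_j p_j`, and the identity `(e·D) z_j = D_j (e·z) - (e × (D × z))_j` for commuting
operators (`D_comm`). -/
theorem layer2 (F : Dat r) (B : Finset (Fin r)) (s : ℂ) (e : Fin 3 → ℂ) (X Y : Set Pt)
    (hX : Closed F B X) (hY : Closed F B Y) (hYX : Y ⊆ X)
    (hne : ∀ p ∈ X, p ∉ Y → ∑ j, e j * (p j.castSucc : ℂ) ≠ 0)
    (hst : ∀ p ∈ X, p ∉ Y → ∀ l ∈ B, ∑ j, e j * (F.a l j : ℂ) = 0 ∨ p + F.hat l ∈ Y)
    (z : Fin 3 → LL) (hz : ∀ j, SuppIn X (z j)) (hc : ∀ j, SuppIn Y (curl3 F B s z j)) :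
    ∃ x : LL, SuppIn X x ∧ ∀ j, SuppIn Y (z j - D F B s (c3 j) x) := by
  have hlin : ∀ p : Pt, lin (∑ i, e i • c3 i) p = ∑ j, e j * (p j.castSucc : ℂ) := by
    intro p
    rw [Fin.sum_univ_three, Fin.sum_univ_three, lin_add_left, lin_add_left, lin_smul_left,
      lin_smul_left, lin_smul_left, lin_c3, lin_c3, lin_c3]
  have h3 : (∑ i, e i • c3 i) 3 = 0 := by
    rw [Finset.sum_apply]
    refine Finset.sum_eq_zero fun i _ => ?_
    rw [Pi.smul_apply, c3_three, smul_zero]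
  set C : Fin 4 → ℂ := ∑ i, e i • c3 i with hC
  have hne' : ∀ p ∈ X, p ∉ Y → lin C p - s * C 3 ≠ 0 := by
    intro p hp hpY
    rw [h3, mul_zero, sub_zero, hlin]
    exact hne p hp hpY
  have hst' : ∀ p ∈ X, p ∉ Y → ∀ l ∈ B, lin C (F.hat l) = 0 ∨ p + F.hat l ∈ Y := by
    intro p hp hpY l hl
    rcases hst p hp hpY l hl with h | h
    · left
      rw [hlin]
      simpa only [F.hat_castSucc] using h
    · exact Or.inr h
  set y : Fin 3 → LL := fun j => dg (layW s C X Y) (z j) with hy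
  have hyX : ∀ j, SuppIn X (y j) := fun j => (hz j).dg _
  refine ⟨∑ j, e j • y j, SuppIn.sum fun j _ => (hyX j).smul _, fun j => ?_⟩
  intro p hp
  by_contra hpY
  apply hp
  have hcurl : ∀ j, cf (curl3 F B s y j) p = 0 := by
    intro j
    have h5 : cf (curl3 F B s y j) p = layW s C X Y p * cf (curl3 F B s z j) p := by
      fin_cases j
      · show cf (D F B s (c3 1) (y 2) - D F B s (c3 2) (y 1)) p =
          layW s C X Y p * cf (D F B s (c3 1) (z 2) - D F B s (c3 2) (z 1)) p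
        rw [cf_sub, cf_sub, cf_D_layW F B s C X Y hX hY hst' _ _ (hz 2) hpY,
          cf_D_layW F B s C X Y hX hY hst' _ _ (hz 1) hpY]; ring
      · show cf (D F B s (c3 2) (y 0) - D F B s (c3 0) (y 2)) p =
          layW s C X Y p * cf (D F B s (c3 2) (z 0) - D F B s (c3 0) (z 2)) p
        rw [cf_sub, cf_sub, cf_D_layW F B s C X Y hX hY hst' _ _ (hz 0) hpY,
          cf_D_layW F B s C X Y hX hY hst' _ _ (hz 2) hpY]; ring
      · show cf (D F B s (c3 0) (y 1) - D F B s (c3 1) (y 0)) p =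
          layW s C X Y p * cf (D F B s (c3 0) (z 1) - D F B s (c3 1) (z 0)) p
        rw [cf_sub, cf_sub, cf_D_layW F B s C X Y hX hY hst' _ _ (hz 1) hpY,
          cf_D_layW F B s C X Y hX hY hst' _ _ (hz 0) hpY]; ring
    rw [h5, (hc j).cf_eq hpY, mul_zero]
  have hself := cf_D_layW_self F B s C X Y hX hY hne' hst' (z j) (hz j) hpY
  have hDC : D F B s C (y j) = ∑ i, e i • D F B s (c3 i) (y j) := by
    rw [hC, D_sum_left]
  have hself' : ∑ i, e i * cf (D F B s (c3 i) (y j)) p = cf (z j) p := by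
    rw [← hself]
    show _ = cf (D F B s C (y j)) p
    rw [hDC, cf_sum]
    exact Finset.sum_congr rfl fun i _ => (cf_smul _ _ _).symm
  have k0 : cf (D F B s (c3 1) (y 2)) p - cf (D F B s (c3 2) (y 1)) p = 0 := hcurl 0
  have k1 : cf (D F B s (c3 2) (y 0)) p - cf (D F B s (c3 0) (y 2)) p = 0 := hcurl 1
  have k2 : cf (D F B s (c3 0) (y 1)) p - cf (D F B s (c3 1) (y 0)) p = 0 := hcurl 2
  rw [cf_sub, map_sum, cf_sum]
  simp only [map_smul, cf_smul]
  rw [← hself']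
  rw [Fin.sum_univ_three, Fin.sum_univ_three]
  fin_cases j
  · simp only [Fin.zero_eta]
    linear_combination e 2 * k1 - e 1 * k2
  · simp only [Fin.mk_one]
    linear_combination e 0 * k2 - e 2 * k0
  · simp only [Fin.reduceFinMk]
    linear_combination e 1 * k0 - e 0 * k1

end Pool.Agent.H37.SM
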