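import Mathlib

/-! Module NCA: generic smoothness in one free variable, algebraic part. -/

set_option autoImplicit false

namespace Pool.Agent.H37.SM

open Finset

open Polynomial nonZeroDivisors in
/-- a nonconstant polynomial over the fraction field has a primitive nonconstant divisor -/
theorem nca_prim {K : Type} [Field K] [Algebra ℂ[X] K] [IsFractionRing ℂ[X] K]
    (p : K[X]) (hp : p ≠ 0) (hu : ¬ IsUnit p) :
    ∃ q : ℂ[X][X], q.IsPrimitive ∧ 0 < q.natDegree ∧
      q.map (algebraMap ℂ[X] K) ∣ p := by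
  classical
  let inst : NormalizedGCDMonoid ℂ[X] := Classical.arbitrary _
  obtain ⟨b, hb, hN⟩ := IsLocalization.integerNormalization_spec (ℂ[X])⁰ p
  generalize IsLocalization.integerNormalization (ℂ[X])⁰ p = N at hN
  have hb0 : b ≠ 0 := nonZeroDivisors.ne_zero hb
  have hinj : Function.Injective (algebraMap ℂ[X] K) := IsFractionRing.injective _ _
  have hb1 : algebraMap ℂ[X] K b ≠ 0 := by
    rw [Ne, ← map_zero (algebraMap ℂ[X] K)]
    exact fun h => hb0 (hinj h)
  have hN' : N.map (algebraMap ℂ[X] K) = C (algebraMap ℂ[X] K b) * p := by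
    rw [hN, Algebra.smul_def, Polynomial.algebraMap_apply]
  have hunit : IsUnit (C (algebraMap ℂ[X] K b)) :=
    isUnit_C.2 (isUnit_iff_ne_zero.2 hb1)
  refine ⟨N.primPart, N.isPrimitive_primPart, ?_, ?_⟩
  · rw [N.natDegree_primPart, ← natDegree_map_eq_of_injective hinj, hN',
      natDegree_C_mul hb1]
    exact natDegree_pos_iff_degree_pos.2 (degree_pos_of_ne_zero_of_nonunit hp hu)
  · have h1 : N.primPart.map (algebraMap ℂ[X] K) ∣ C (algebraMap ℂ[X] K b) * p := by
      rw [← hN']
      refine ⟨(C N.content).map (algebraMap ℂ[X] K), ?_⟩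
      rw [← Polynomial.map_mul, mul_comm, ← N.eq_C_content_mul_primPart]
    exact (hunit.dvd_mul_left).1 h1

open Polynomial in
/-- the partial derivative in `x` -/
theorem nca_dx (g : ℂ[X][X]) (x t : ℂ) :
    ((g.sum fun n q => monomial n (derivative q)).map (evalRingHom x)).eval t =
      (derivative (g.eval (C t))).eval x := by
  have h1 : g.eval (C t) = g.sum fun n q => q * C t ^ n := eval_eq_sum
  rw [h1, Polynomial.sum, Polynomial.sum, Polynomial.map_sum, eval_finsetSum,
    derivative_sum, eval_finsetSum]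
  refine Finset.sum_congr rfl fun n _ => ?_
  rw [map_monomial, eval_monomial, derivative_mul, ← C_pow, derivative_C, mul_zero, add_zero,
    eval_mul, eval_C, coe_evalRingHom]

open Polynomial in
theorem nca_ev (g : ℂ[X][X]) (x t : ℂ) :
    (g.map (evalRingHom x)).eval t = (g.eval (C t)).eval x := by
  have h1 : g.eval (C t) = g.sum fun n q => q * C t ^ n := eval_eq_sum
  rw [h1, eval_map, eval₂_eq_sum, Polynomial.sum, Polynomial.sum, eval_finsetSum]
  refine Finset.sum_congr rfl fun n _ => ?_
  rw [eval_mul, ← C_pow, eval_C, coe_evalRingHom]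

/-- the two-variable (in `x_{i0}` and `t`) polynomial of a non-compact facet: purely algebraic
statement. If `g ∈ ℂ[x][t]` has `g(x, 0) ≠ 0` and no point `(x, t)` with `x ≠ 0`, `t ≠ 0` is a common
zero of `g`, `∂_t g`, `∂_x g`, then some nonzero `h ∈ ℂ[x]` lies in the ideal `(g, ∂_t g)`.

Proof. Let `K = FractionRing ℂ[x]` (characteristic zero). If the image of `g` in `K[t]` is
squarefree it is separable (perfect field), so `u g + v ∂_t g = 1` in `K[t]`; clear denominators.
Otherwise a nonunit `π` with `π² ∣ g` in `K[t]`; by Gauss (`Polynomial.IsPrimitive`) there is such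
`π ∈ ℂ[x][t]` primitive with positive `t`-degree and `π² ∣ g` in `ℂ[x][t]`. Choose `x0 ≠ 0` with
leading coefficient and `π(x0, 0)` nonzero (`π(·,0) ≠ 0` since `g(·,0) ≠ 0`); `π(x0, ·)` has
a root `t0`, `t0 ≠ 0`. Then `g`, `∂_t g`, `∂_x g` vanish at `(x0, t0)`. If `g` is constant in `t`
take `h = g`. -/
theorem nch_alg (g : Polynomial (Polynomial ℂ)) (hg : g.coeff 0 ≠ 0)
    (hnd : ∀ x t : ℂ, x ≠ 0 → t ≠ 0 → ¬ ((g.map (Polynomial.evalRingHom x)).eval t = 0 ∧
      ((Polynomial.derivative g).map (Polynomial.evalRingHom x)).eval t = 0 ∧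
      ((g.sum fun n q => Polynomial.monomial n (Polynomial.derivative q)).map
        (Polynomial.evalRingHom x)).eval t = 0)) :
    ∃ h : Polynomial ℂ, h ≠ 0 ∧ ∃ u v : Polynomial (Polynomial ℂ),
      u * g + v * Polynomial.derivative g = Polynomial.C h := by
  open Polynomial nonZeroDivisors in
  have hinj : Function.Injective (algebraMap ℂ[X] (FractionRing ℂ[X])) :=
    IsFractionRing.injective _ _
  have hg0 : g ≠ 0 := by
    rintro rfl
    exact hg rfl
  by_cases hsq : Squarefree (g.map (algebraMap ℂ[X] (FractionRing ℂ[X])))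
  · have hsep := PerfectField.separable_iff_squarefree.2 hsq
    obtain ⟨a, b, hab⟩ := hsep
    obtain ⟨c, hc, hA⟩ := IsLocalization.integerNormalization_spec (ℂ[X])⁰ a
    obtain ⟨d, hd, hB⟩ := IsLocalization.integerNormalization_spec (ℂ[X])⁰ b
    set A := IsLocalization.integerNormalization (ℂ[X])⁰ a
    set B' := IsLocalization.integerNormalization (ℂ[X])⁰ b
    have hc0 : c ≠ 0 := nonZeroDivisors.ne_zero hc
    have hd0 : d ≠ 0 := nonZeroDivisors.ne_zero hd
    rw [Algebra.smul_def, Polynomial.algebraMap_apply] at hA hB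
    refine ⟨c * d, mul_ne_zero hc0 hd0, C d * A, C c * B', ?_⟩
    apply map_injective (algebraMap ℂ[X] (FractionRing ℂ[X])) hinj
    rw [Polynomial.map_add, Polynomial.map_mul, Polynomial.map_mul, Polynomial.map_mul,
      Polynomial.map_mul, hA, hB, map_C, map_C, map_C, map_mul, C_mul, ← derivative_map]
    linear_combination (C ((algebraMap ℂ[X] (FractionRing ℂ[X])) c) *
      C ((algebraMap ℂ[X] (FractionRing ℂ[X])) d)) * hab
  · exfalso
    have hgK : g.map (algebraMap ℂ[X] (FractionRing ℂ[X])) ≠ 0 := by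
      intro h
      exact hg0 (map_injective _ hinj (by rw [h, Polynomial.map_zero]))
    rw [Squarefree] at hsq
    push Not at hsq
    obtain ⟨p, hpp, hpu⟩ := hsq
    have hp0 : p ≠ 0 := by
      rintro rfl
      rw [zero_mul, zero_dvd_iff] at hpp
      exact hgK hpp
    obtain ⟨q, hqprim, hqdeg, hqdvd⟩ := nca_prim p hp0 hpu
    have hqq : (q * q).IsPrimitive := by
      let inst : NormalizedGCDMonoid ℂ[X] := Classical.arbitrary _
      exact hqprim.mul hqprim
    have hqqg : q * q ∣ g := by
      apply hqq.dvd_of_fraction_map_dvd_fraction_map (K := FractionRing ℂ[X])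
      rw [Polynomial.map_mul]
      exact (mul_dvd_mul hqdvd hqdvd).trans hpp
    obtain ⟨s, hs⟩ := hqqg
    have hq0 : q.coeff 0 ≠ 0 := by
      intro h
      apply hg
      rw [hs, mul_assoc, mul_coeff_zero, h, zero_mul]
    have hlc : q.leadingCoeff ≠ 0 := by
      rw [Ne, leadingCoeff_eq_zero]
      rintro rfl
      simp at hqdeg
    -- choice of `x0`
    obtain ⟨x0, hx0⟩ : ∃ x0 : ℂ, (X * q.leadingCoeff * q.coeff 0 : ℂ[X]).eval x0 ≠ 0 := by
      by_contra hcon
      push Not at hcon
      have : (X * q.leadingCoeff * q.coeff 0 : ℂ[X]) = 0 := by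
        apply Polynomial.funext
        intro r
        rw [hcon r, eval_zero]
      exact mul_ne_zero (mul_ne_zero X_ne_zero hlc) hq0 this
    rw [eval_mul, eval_mul, eval_X] at hx0
    have hx00 : x0 ≠ 0 := left_ne_zero_of_mul (left_ne_zero_of_mul hx0)
    have hx01 : q.leadingCoeff.eval x0 ≠ 0 := right_ne_zero_of_mul (left_ne_zero_of_mul hx0)
    have hx02 : (q.coeff 0).eval x0 ≠ 0 := right_ne_zero_of_mul hx0
    have hdeg : (q.map (evalRingHom x0)).natDegree = q.natDegree :=
      natDegree_map_of_leadingCoeff_ne_zero _ hx01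
    obtain ⟨t0, ht0⟩ := IsAlgClosed.exists_root (q.map (evalRingHom x0)) (by
      intro h
      have h2 := natDegree_eq_zero_iff_degree_le_zero.2 h.le
      rw [h2] at hdeg
      exact absurd hdeg.symm hqdeg.ne')
    have ht0' : (q.map (evalRingHom x0)).eval t0 = 0 := ht0
    have ht00 : t0 ≠ 0 := by
      rintro rfl
      rw [← coeff_zero_eq_eval_zero, coeff_map] at ht0'
      exact hx02 ht0'
    apply hnd x0 t0 hx00 ht00
    refine ⟨?_, ?_, ?_⟩
    · rw [hs, Polynomial.map_mul, Polynomial.map_mul, eval_mul, eval_mul, ht0']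
      simp
    · rw [hs, derivative_mul, derivative_mul]
      simp only [Polynomial.map_mul, Polynomial.map_add, eval_mul, eval_add, ht0']
      ring
    · rw [nca_dx, hs, eval_mul, eval_mul, derivative_mul, derivative_mul]
      have h1 : (q.eval (C t0)).eval x0 = 0 := by
        rw [← nca_ev, ht0']
      simp only [eval_mul, eval_add, h1]
      ring

end Pool.Agent.H37.SM
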