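import Pool.Agent.H37.SM.TWD
import Pool.Agent.H37.SM.CRN
import Pool.Agent.H37.SM.SLI
import Pool.Agent.H37.SM.GOD

/-! Module NCG: non-compact facets, generic value of the free variable. -/

set_option autoImplicit false

namespace Pool.Agent.H37.SM

open Finset

variable {r : ℕ} {F : Dat r} {w : Fin 3 → ℤ} {N : ℤ}

/-- Column-`B₁`: for one of the two coordinates `j ≠ i0` all exponents of the facet have `a_j ≤ 1`
and the exponents with `a_j = 1` have the same coordinates different from `i0`, same for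
`a_j = 0`. (The last two conditions are automatic as `w·a = N`.) -/
def ColB1 (F : Dat r) (w : Fin 3 → ℤ) (N : ℤ) (i0 : Fin 3) : Prop :=
  ∃ j, j ≠ i0 ∧ ∀ i ∈ F.face w N, F.a i j ≤ 1

lemma ncg_sum3 {A : Type*} [AddCommMonoid A] (i0 : Fin 3) (f : Fin 3 → A) :
    ∑ j, f j = f i0 + f (i0 + 1) + f (i0 + 2) := by
  fin_cases i0
  · simp [Fin.sum_univ_three]
  · simp only [Fin.sum_univ_three]
    change f 0 + f 1 + f 2 = f 1 + f 2 + f 0
    abel
  · simp only [Fin.sum_univ_three]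
    change f 0 + f 1 + f 2 = f 2 + f 0 + f 1
    abel

lemma ncg_cases (i0 j : Fin 3) : j = i0 ∨ j = i0 + 1 ∨ j = i0 + 2 := by
  fin_cases i0 <;> fin_cases j <;> decide

/-- the points of the slice -/
def ncgPt (i0 : Fin 3) (V1 V2 a b n k t : ℤ) : Pt := fun l =>
  if l = 3 then k else if l = i0.castSucc then n else
    if l = (i0 + 1).castSucc then 1 + k * V1 - t * b else 1 + k * V2 + t * a

section pt

variable (i0 : Fin 3) (V1 V2 a b n k t : ℤ)

lemma ncgPt_0 : ncgPt i0 V1 V2 a b n k t i0.castSucc = n := by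
  fin_cases i0 <;> rfl

lemma ncgPt_1 : ncgPt i0 V1 V2 a b n k t (i0 + 1).castSucc = 1 + k * V1 - t * b := by
  fin_cases i0 <;> rfl

lemma ncgPt_2 : ncgPt i0 V1 V2 a b n k t (i0 + 2).castSucc = 1 + k * V2 + t * a := by
  fin_cases i0 <;> rfl

lemma ncgPt_3 : ncgPt i0 V1 V2 a b n k t 3 = k := by
  simp [ncgPt]

lemma ncg_ext {p q : Pt} (h0 : p i0.castSucc = q i0.castSucc)
    (h1 : p (i0 + 1).castSucc = q (i0 + 1).castSucc)
    (h2 : p (i0 + 2).castSucc = q (i0 + 2).castSucc) (h3 : p 3 = q 3) : p = q := by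
  funext l
  fin_cases i0 <;> fin_cases l <;> first | exact h0 | exact h1 | exact h2 | exact h3

end pt

/-- specialisation of the free variable -/
noncomputable def ncgPsi (i0 : Fin 3) (V1 V2 a b : ℤ) (ρ : ℂ) (η : LL) (q : ℤ × ℤ) : ℂ :=
  ∑ᶠ n : ℤ, ρ ^ n * cf η (ncgPt i0 V1 V2 a b n q.1 q.2)

lemma ncg_fin (i0 : Fin 3) (V1 V2 a b : ℤ) (ρ : ℂ) (η : LL) (k t : ℤ) :
    (Function.support fun n : ℤ => ρ ^ n * cf η (ncgPt i0 V1 V2 a b n k t)).Finite := by
  have hinj : Function.Injective (fun n : ℤ => ncgPt i0 V1 V2 a b n k t) := by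
    intro n n' h
    have := congrFun h i0.castSucc
    simpa only [ncgPt_0] using this
  refine ((cf_finite η).preimage (hinj.injOn)).subset ?_
  intro n hn
  exact right_ne_zero_of_mul hn

lemma ncg_psi_support (i0 : Fin 3) (V1 V2 a b : ℤ) (hb : b ≠ 0) (ρ : ℂ) (η : LL) :
    (Function.support (ncgPsi i0 V1 V2 a b ρ η)).Finite := by
  have hinj : Function.Injective (fun x : ℤ × ℤ × ℤ => ncgPt i0 V1 V2 a b x.1 x.2.1 x.2.2) := by
    rintro ⟨n, k, t⟩ ⟨n', k', t'⟩ h
    have h0 := congrFun h i0.castSucc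
    have h1 := congrFun h (i0 + 1).castSucc
    have h3 := congrFun h 3
    simp only [ncgPt_0, ncgPt_1, ncgPt_3] at h0 h1 h3
    subst h0 h3
    have : t * b = t' * b := by linarith
    have := mul_right_cancel₀ hb this
    rw [this]
  refine (((cf_finite η).preimage (hinj.injOn)).image fun x => (x.2.1, x.2.2)).subset ?_
  intro q hq
  have : ∃ n : ℤ, cf η (ncgPt i0 V1 V2 a b n q.1 q.2) ≠ 0 := by
    by_contra hno
    push Not at hno
    apply hq
    unfold ncgPsi
    rw [finsum_eq_zero_of_forall_eq_zero]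
    intro n
    rw [hno n, mul_zero]
  obtain ⟨n, hn⟩ := this
  exact ⟨(n, q.1, q.2), hn, rfl⟩

/-- the specialised operators -/
lemma ncg_psi_D (i0 : Fin 3) (V1 V2 a b : ℤ) (ρ : ℂ) (hρ : ρ ≠ 0) (B : Finset (Fin r)) (s : ℂ)
    (m : Fin r → ℤ) (h1 : ∀ i ∈ B, F.a i (i0 + 1) = V1 - m i * b)
    (h2 : ∀ i ∈ B, F.a i (i0 + 2) = V2 + m i * a) (j : Fin 3) (η : LL) (k t : ℤ) :
    ncgPsi i0 V1 V2 a b ρ (D F B s (c3 j) η) (k, t) =
      (if j = i0 then ncgPsi i0 V1 V2 a b ρ (dg (fun p => (p j.castSucc : ℂ)) η) (k, t) else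
        ((ncgPt i0 V1 V2 a b 0 k t j.castSucc : ℤ) : ℂ) * ncgPsi i0 V1 V2 a b ρ η (k, t)) +
      ∑ i ∈ B, F.κ i * (F.a i j : ℂ) * (ρ ^ (F.a i i0) *
        ncgPsi i0 V1 V2 a b ρ η (k - 1, t - m i)) := by
  have hsh : ∀ i ∈ B, ∀ n, ncgPt i0 V1 V2 a b n k t - F.hat i =
      ncgPt i0 V1 V2 a b (n - F.a i i0) (k - 1) (t - m i) := by
    intro i hi n
    apply ncg_ext i0
    · rw [Pi.sub_apply, ncgPt_0, ncgPt_0, F.hat_castSucc]
    · rw [Pi.sub_apply, ncgPt_1, ncgPt_1, F.hat_castSucc, h1 i hi]; ring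
    · rw [Pi.sub_apply, ncgPt_2, ncgPt_2, F.hat_castSucc, h2 i hi]; ring
    · rw [Pi.sub_apply, ncgPt_3, ncgPt_3, F.hat_three]
  have hshift : ∀ i ∈ B, ∑ᶠ n : ℤ, ρ ^ n * cf η (ncgPt i0 V1 V2 a b (n - F.a i i0) (k - 1)
      (t - m i)) = ρ ^ (F.a i i0) * ncgPsi i0 V1 V2 a b ρ η (k - 1, t - m i) := by
    intro i hi
    unfold ncgPsi
    rw [mul_finsum]
    rw [← finsum_comp_equiv (Equiv.addRight (F.a i i0))]
    refine finsum_congr fun n => ?_
    simp only [Equiv.coe_addRight, add_sub_cancel_right]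
    rw [zpow_add₀ hρ]
    ring
  have hfinsh : ∀ i ∈ B, (Function.support fun n : ℤ => ρ ^ n *
      (F.κ i * (F.a i j : ℂ) * cf η (ncgPt i0 V1 V2 a b (n - F.a i i0) (k - 1) (t - m i)))).Finite := by
    intro i hi
    have hinj : Function.Injective (fun n : ℤ => ncgPt i0 V1 V2 a b (n - F.a i i0) (k - 1)
        (t - m i)) := by
      intro n n' h
      have := congrFun h i0.castSucc
      simp only [ncgPt_0] at this
      linarith
    refine ((cf_finite η).preimage (hinj.injOn)).subset ?_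
    intro n hn
    exact right_ne_zero_of_mul (right_ne_zero_of_mul hn)
  have hcf : ∀ n, ρ ^ n * cf (D F B s (c3 j) η) (ncgPt i0 V1 V2 a b n k t) =
      ρ ^ n * (((ncgPt i0 V1 V2 a b n k t) j.castSucc : ℤ) * cf η (ncgPt i0 V1 V2 a b n k t)) +
      ∑ i ∈ B, ρ ^ n * (F.κ i * (F.a i j : ℂ) *
        cf η (ncgPt i0 V1 V2 a b (n - F.a i i0) (k - 1) (t - m i))) := by
    intro n
    rw [cf_D, c3_three, mul_zero, sub_zero, lin_c3, mul_add, Finset.mul_sum]
    congr 1
    refine Finset.sum_congr rfl fun i hi => ?_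
    rw [lin_c3_hat, hsh i hi n]
  have hf1 : (Function.support fun n : ℤ => ρ ^ n * ((((ncgPt i0 V1 V2 a b n k t) j.castSucc :
      ℤ) : ℂ) * cf η (ncgPt i0 V1 V2 a b n k t))).Finite := by
    refine (ncg_fin i0 V1 V2 a b ρ (dg (fun p => (p j.castSucc : ℂ)) η) k t).subset ?_
    intro n hn
    rw [Function.mem_support] at hn ⊢
    rwa [cf_dg]
  have hf2 : (Function.support fun n : ℤ => ∑ i ∈ B, ρ ^ n * (F.κ i * (F.a i j : ℂ) *
        cf η (ncgPt i0 V1 V2 a b (n - F.a i i0) (k - 1) (t - m i)))).Finite := by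
    refine (Set.Finite.biUnion B.finite_toSet fun i hi => hfinsh i hi).subset ?_
    intro n hn
    rw [Function.mem_support] at hn
    obtain ⟨i, hi, hne⟩ := Finset.exists_ne_zero_of_sum_ne_zero hn
    exact Set.mem_biUnion hi hne
  have e1 : ncgPsi i0 V1 V2 a b ρ (D F B s (c3 j) η) (k, t) =
      (∑ᶠ n : ℤ, ρ ^ n * ((((ncgPt i0 V1 V2 a b n k t) j.castSucc : ℤ) : ℂ) *
        cf η (ncgPt i0 V1 V2 a b n k t))) +
      ∑ᶠ n : ℤ, ∑ i ∈ B, ρ ^ n * (F.κ i * (F.a i j : ℂ) *
        cf η (ncgPt i0 V1 V2 a b (n - F.a i i0) (k - 1) (t - m i))) := by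
    rw [← finsum_add_distrib hf1 hf2]
    exact finsum_congr hcf
  rw [e1, finsum_sum_comm _ _ (fun i hi => hfinsh i hi)]
  congr 1
  · by_cases hj : j = i0
    · rw [if_pos hj]
      unfold ncgPsi
      refine finsum_congr fun n => ?_
      rw [cf_dg]
    · rw [if_neg hj]
      unfold ncgPsi
      rw [mul_finsum]
      refine finsum_congr fun n => ?_
      have : ncgPt i0 V1 V2 a b n k t j.castSucc = ncgPt i0 V1 V2 a b 0 k t j.castSucc := by
        unfold ncgPt
        have hne : j.castSucc ≠ i0.castSucc := fun h => hj (Fin.castSucc_injective _ h)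
        rw [if_neg hne, if_neg hne]
      rw [this]
      ring
  · refine Finset.sum_congr rfl fun i hi => ?_
    rw [← hshift i hi]
    rw [mul_finsum]
    refine finsum_congr fun n => ?_
    ring

/-! ### the specialised polynomial -/

/-- the polynomial with the terms `c i z^{m i}` -/
noncomputable def ncgK {ι : Type} (S : Finset ι) (m : ι → ℕ) (c : ι → ℂ) : Polynomial ℂ :=
  ∑ i ∈ S, Polynomial.monomial (m i) (c i)

lemma ncgK_coeff {ι : Type} (S : Finset ι) (m : ι → ℕ) (c : ι → ℂ) (j : ℕ) :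
    (ncgK S m c).coeff j = ∑ i ∈ S with m i = j, c i := by
  unfold ncgK
  rw [Polynomial.finsetSum_coeff, Finset.sum_filter]
  exact Finset.sum_congr rfl fun i _ => Polynomial.coeff_monomial

lemma ncgK_sum {ι : Type} (S : Finset ι) (m : ι → ℕ) (c : ι → ℂ) (φ : ℕ → ℂ) :
    ∑ j ∈ (ncgK S m c).support, (ncgK S m c).coeff j * φ j = ∑ i ∈ S, c i * φ (m i) := by
  classical
  have h1 : ∑ j ∈ (ncgK S m c).support, (ncgK S m c).coeff j * φ j =
      ∑ j ∈ (ncgK S m c).support ∪ S.image m, (ncgK S m c).coeff j * φ j := by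
    refine Finset.sum_subset Finset.subset_union_left fun j _ hj => ?_
    rw [Polynomial.notMem_support_iff.1 hj, zero_mul]
  rw [h1]
  simp only [ncgK_coeff, Finset.sum_filter, Finset.sum_mul]
  rw [Finset.sum_comm]
  refine Finset.sum_congr rfl fun i hi => ?_
  rw [Finset.sum_eq_single (m i)]
  · rw [if_pos rfl]
  · intro j _ hj
    rw [if_neg (Ne.symm hj), zero_mul]
  · intro hj
    exact absurd (Finset.mem_union_right _ (Finset.mem_image_of_mem m hi)) hj

lemma ncgK_eval {ι : Type} (S : Finset ι) (m : ι → ℕ) (c : ι → ℂ) (z : ℂ) :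
    (ncgK S m c).eval z = ∑ i ∈ S, c i * z ^ (m i) := by
  unfold ncgK
  rw [Polynomial.eval_finsetSum]
  exact Finset.sum_congr rfl fun i _ => Polynomial.eval_monomial

lemma ncgK_eval' {ι : Type} (S : Finset ι) (m : ι → ℕ) (c : ι → ℂ) (z : ℂ) :
    z * (Polynomial.derivative (ncgK S m c)).eval z = ∑ i ∈ S, c i * (m i : ℂ) * z ^ (m i) := by
  unfold ncgK
  rw [Polynomial.derivative_sum, Polynomial.eval_finsetSum, Finset.mul_sum]
  refine Finset.sum_congr rfl fun i _ => ?_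
  rw [Polynomial.derivative_monomial, Polynomial.eval_monomial]
  rcases Nat.eq_zero_or_pos (m i) with h | h
  · rw [h]; simp
  · obtain ⟨l, hl⟩ : ∃ l, m i = l + 1 := ⟨m i - 1, by omega⟩
    rw [hl, Nat.add_sub_cancel, pow_succ]
    ring

/-- evaluation of Laurent polynomials at a point of the torus -/
noncomputable def ncgEv (x : Fin 4 → ℂ) (hx : ∀ j, x j ≠ 0) : LL →ₐ[ℂ] ℂ :=
  AddMonoidAlgebra.lift ℂ ℂ Pt
    { toFun := fun p => ∏ j, x j ^ (Multiplicative.toAdd p j)
      map_one' := by simp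
      map_mul' := fun p q => by
        rw [← Finset.prod_mul_distrib]
        refine Finset.prod_congr rfl fun j _ => ?_
        rw [toAdd_mul, Pi.add_apply, zpow_add₀ (hx j)] }

lemma ncgEv_single (x : Fin 4 → ℂ) (hx : ∀ j, x j ≠ 0) (p : Pt) (z : ℂ) :
    ncgEv x hx (AddMonoidAlgebra.single p z) = z * ∏ j, x j ^ (p j) := by
  unfold ncgEv
  rw [AddMonoidAlgebra.lift_single]
  rfl

lemma ncgPsi_add (i0 : Fin 3) (V1 V2 a b : ℤ) (ρ : ℂ) (η ξ : LL) (q : ℤ × ℤ) :
    ncgPsi i0 V1 V2 a b ρ (η + ξ) q =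
      ncgPsi i0 V1 V2 a b ρ η q + ncgPsi i0 V1 V2 a b ρ ξ q := by
  unfold ncgPsi
  rw [← finsum_add_distrib (ncg_fin i0 V1 V2 a b ρ η q.1 q.2) (ncg_fin i0 V1 V2 a b ρ ξ q.1 q.2)]
  refine finsum_congr fun n => ?_
  rw [cf_add, mul_add]

lemma ncg_one4 (i0 : Fin 3) : one4 i0.castSucc = 1 ∧ one4 (i0 + 1).castSucc = 1 ∧
    one4 (i0 + 2).castSucc = 1 ∧ one4 3 = 0 := by
  fin_cases i0 <;> exact ⟨rfl, rfl, rfl, rfl⟩

lemma ncgPsi_one (i0 : Fin 3) (V1 V2 a b : ℤ) (hb : b ≠ 0) (ρ : ℂ) (q : ℤ × ℤ) :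
    ncgPsi i0 V1 V2 a b ρ (mono one4) q = if q = (0, 0) then ρ else 0 := by
  obtain ⟨k, t⟩ := q
  obtain ⟨o0, o1, o2, o3⟩ := ncg_one4 i0
  have key : ∀ n, ncgPt i0 V1 V2 a b n k t = one4 → n = 1 ∧ k = 0 ∧ t = 0 := by
    intro n h
    have h0 := congrFun h i0.castSucc
    have h1 := congrFun h (i0 + 1).castSucc
    have h3 := congrFun h 3
    rw [ncgPt_0, o0] at h0
    rw [ncgPt_1, o1] at h1
    rw [ncgPt_3, o3] at h3
    subst h3
    have h5 : t * b = 0 := by linarith
    exact ⟨h0, rfl, (mul_eq_zero.1 h5).resolve_right hb⟩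
  unfold ncgPsi
  by_cases hq : (k, t) = (0, 0)
  · rw [if_pos hq]
    obtain ⟨rfl, rfl⟩ := Prod.mk.inj hq
    rw [finsum_eq_single _ (1 : ℤ)]
    · have : ncgPt i0 V1 V2 a b 1 0 0 = one4 := by
        apply ncg_ext i0
        · rw [ncgPt_0, o0]
        · rw [ncgPt_1, o1]; ring
        · rw [ncgPt_2, o2]; ring
        · rw [ncgPt_3, o3]
      rw [cf_mono, if_pos this, zpow_one, mul_one]
    · intro n hn
      rw [cf_mono, if_neg fun h => hn (key n h).1, mul_zero]
  · rw [if_neg hq]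
    apply finsum_eq_zero_of_forall_eq_zero
    intro n
    rw [cf_mono, if_neg, mul_zero]
    intro h
    obtain ⟨_, rfl, rfl⟩ := key n h
    exact hq rfl

lemma ncg_ell (i0 : Fin 3) (h0 : w i0 = 0) (i : Fin r) : ell w N (F.hat i) =
    w (i0 + 1) * F.a i (i0 + 1) + w (i0 + 2) * F.a i (i0 + 2) - N := by
  have h : ell w N (F.hat i) = ∑ j, w j * F.a i j - N := by
    simp [ell, Fin.sum_univ_three]
  rw [h, ncg_sum3 i0, h0, zero_mul, zero_add]

lemma ncg_wt (i0 : Fin 3) (h0 : w i0 = 0) : wt w = w (i0 + 1) + w (i0 + 2) := by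
  have h : wt w = ∑ j, w j := by simp [wt, Fin.sum_univ_three]
  rw [h, ncg_sum3 i0, h0, zero_add]

/-- Non-compact facets which are not column-`B₁`.

Proof. `i1 = i0 + 1`, `i2 = i0 + 2`, `a = w i1`, `b = w i2`, coprime (`prim`). `slice2` (identity for this
`i0`) gives `y` on the slice, `y i0 = 0`, `∑_{j ≠ i0} D_j y_j = mono one4`. `nch` gives `h ≠ 0`; columns of the
face: `(a_{i1}, a_{i2}) = V + m δ`, `δ = (-b, a)`, `V` the one with smallest `i2`-coordinate,
`A_m(x) = ∑ κ_i x^{a_{i,i0}}` over the exponents of the column `m`, `0 ≤ m ≤ L`, `A_0, A_L ≠ 0`, `L ≥ 1` by `ray`. Choose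
`ρ ∈ ℂ`, `ρ ≠ 0`, `h(ρ) ≠ 0`, `A_0(ρ), A_L(ρ) ≠ 0`, `κ(z) = ∑ A_m(ρ) z^m`. Specialisation `x_{i0} ↦ ρ`:
`ψ(η)[k, t] = ∑_n ρ^n η(u, k)` with `u_{i0} = n`, `(u_{i1}, u_{i2}) = (1,1) + k V + t δ` (every integral point of
the slice has this form for unique `k, t`). Since `h(ρ) ≠ 0` and `h ∈ (E_{i1}, E_{i2})`:
`κ, z κ'` generate the unit ideal of `ℂ[z,1/z]`, so `κ` and `κ'` are coprime. The operators: put
`D_t = (V_{i1} D_{i2} - V_{i2} D_{i1}) / N` and `D_0 = (a D_{i1} + b D_{i2}) / N`; under `ψ` they become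
`tDt κ α`, `tD0 κ s0` with `α = (V_{i1} - V_{i2})/N` (on the slice `(a u_{i1} + b u_{i2})/N = k - s0`; `t` is the
functional `det(V, ·)/N`, and `det(V, δ) = N`). `D_{i1} = V_{i1} D_0 - b D_t`, `D_{i2} = V_{i2} D_0 + a D_t`. So
`[0,0]·ρ = tD0 (…) + tDt (…)`. By `s0 = -(a+b)/N`: `α = (1 + s0 V_{i2})/a`, and
`α' = -L s0 - α = (1 + s0 V'_{i1})/b` with `V' = V + L δ`. `s0 < 0`, so `α ≤ 1/a ≤ 1` and `α = 1` iff `a = 1`, `V_{i2} = 0`;
same for `α'`: `b = 1`, `V'_{i1} = 0`. If `L = 1` and `α = 1`: the coordinate `i2` is `0` on the column `V` and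
`a = 1` on the other: column-`B₁`; same for `α'`. So `two_dim` applies and gives a contradiction. -/
theorem root_noncompact (hF : Facet F w N) (hN : 0 < N) (i0 : Fin 3) (h0 : w i0 = 0)
    (hpos : ∀ j, j ≠ i0 → 0 < w j) (hnd : AllNonDeg F) (s0 : ℂ)
    (hs : (wt w : ℂ) + N * s0 = 0) (hB : ¬ ColB1 F w N i0) : ¬ HasId F s0 := by
  classical
  intro hid
  have h01 : i0 + 1 ≠ i0 := by fin_cases i0 <;> decide
  have h02 : i0 + 2 ≠ i0 := by fin_cases i0 <;> decide
  have ha : 0 < w (i0 + 1) := hpos _ h01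
  have hb : 0 < w (i0 + 2) := hpos _ h02
  set a : ℤ := w (i0 + 1) with ha_def
  set b : ℤ := w (i0 + 2) with hb_def
  have hface : ∀ i ∈ F.face w N, a * F.a i (i0 + 1) + b * F.a i (i0 + 2) = N := by
    intro i hi
    have h := mem_face.1 hi
    rw [ncg_ell i0 h0] at h
    linarith
  have hcop : IsCoprime a b := by
    rw [Int.isCoprime_iff_gcd_eq_one]
    have hu := hF.prim (Int.gcd a b : ℤ) (fun j => by
      have hj := ncg_cases i0 j
      rcases hj with rfl | rfl | rfl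
      · rw [h0]; exact dvd_zero _
      · exact Int.gcd_dvd_left _ _
      · exact Int.gcd_dvd_right _ _)
    have := Int.isUnit_iff_natAbs_eq.1 hu
    simpa using this
  obtain ⟨iA, hiA⟩ := hF.attained
  obtain ⟨iV, hiV, hmin⟩ := Finset.exists_min_image (F.face w N) (fun i => F.a i (i0 + 2))
    ⟨iA, mem_face.2 hiA⟩
  set V1 : ℤ := F.a iV (i0 + 1) with hV1
  set V2 : ℤ := F.a iV (i0 + 2) with hV2
  have hVN : a * V1 + b * V2 = N := hface iV hiV
  have hm : ∀ i, ∃ m : ℕ, i ∈ F.face w N →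
      F.a i (i0 + 1) = V1 - m * b ∧ F.a i (i0 + 2) = V2 + m * a := by
    intro i
    by_cases hi : i ∈ F.face w N
    · have h1 := hface i hi
      have h2 : a * (V1 - F.a i (i0 + 1)) = b * (F.a i (i0 + 2) - V2) := by linarith
      have h3 : a ∣ F.a i (i0 + 2) - V2 := by
        have : a ∣ b * (F.a i (i0 + 2) - V2) := ⟨_, h2.symm⟩
        exact hcop.dvd_of_dvd_mul_left this
      obtain ⟨l, hl⟩ := h3
      have h4 : 0 ≤ a * l := by rw [← hl]; have := hmin i hi; linarith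
      have h5 : 0 ≤ l := nonneg_of_mul_nonneg_right h4 ha
      obtain ⟨m, rfl⟩ := Int.eq_ofNat_of_zero_le h5
      refine ⟨m, fun _ => ⟨?_, ?_⟩⟩
      · rw [hl] at h2
        have h6 : a * (V1 - F.a i (i0 + 1)) = a * (m * b) := by rw [h2]; ring
        have h7 := mul_left_cancel₀ ha.ne' h6
        linarith
      · linarith
    · exact ⟨0, fun h => absurd h hi⟩
  choose m hm using hm
  have hmV : m iV = 0 := by
    have h := (hm iV hiV).2
    have h2 : (m iV : ℤ) * a = 0 := by linarith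
    have h3 := (mul_eq_zero.1 h2).resolve_right ha.ne'
    exact_mod_cast h3
  obtain ⟨iL, hiL, hmax⟩ := Finset.exists_max_image (F.face w N) m ⟨iV, hiV⟩
  set L : ℕ := m iL with hL
  have hL1 : 1 ≤ L := by
    by_contra hL0
    have hL0 : L = 0 := by omega
    have hm0 : ∀ i ∈ F.face w N, m i = 0 := by
      intro i hi
      have := hmax i hi
      omega
    obtain ⟨c, hc⟩ := hF.ray (fun j => if j = i0 + 1 then 1 else 0) (by
      intro i hi i' hi'
      have e : ∀ x ∈ F.face w N, F.a x (i0 + 1) = V1 := by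
        intro x hx
        rw [(hm x hx).1, hm0 x hx]; simp
      simp only [ite_mul, one_mul, zero_mul, Finset.sum_ite_eq', Finset.mem_univ, if_true]
      rw [e i hi, e i' hi'])
      (fun j hj => by
        rw [if_neg]
        intro h
        rw [h] at hj
        exact ha.ne' hj)
    have h1 := hc (i0 + 1)
    have h2 := hc (i0 + 2)
    rw [if_pos rfl] at h1
    rw [if_neg (by fin_cases i0 <;> decide)] at h2
    have h3 : c = 0 := by
      rcases mul_eq_zero.1 h2.symm with h | h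
      · exact h
      · exact absurd (by exact_mod_cast h) hb.ne'
    rw [h3, zero_mul] at h1
    exact one_ne_zero h1
  -- the columns
  let Ap : ℕ → Polynomial ℂ := fun l =>
    ncgK ((F.face w N).filter fun i => m i = l) (fun i => (F.a i i0).toNat) F.κ
  have hAp : ∀ i ∈ F.face w N, Ap (m i) ≠ 0 := by
    intro i hi h
    have h1 : (Ap (m i)).coeff (F.a i i0).toNat = 0 := by rw [h, Polynomial.coeff_zero]
    have h2 : (Ap (m i)).coeff (F.a i i0).toNat = F.κ i := by
      show (ncgK _ _ _).coeff _ = _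
      rw [ncgK_coeff, Finset.sum_eq_single i]
      · intro x hx hne
        exfalso
        apply hne
        rw [Finset.mem_filter, Finset.mem_filter] at hx
        obtain ⟨⟨hx1, hx2⟩, hx3⟩ := hx
        apply F.inj
        funext j
        have hj := ncg_cases i0 j
        rcases hj with rfl | rfl | rfl
        · have e1 := F.a_nonneg x j
          have e2 := F.a_nonneg i j
          omega
        · rw [(hm x hx1).1, (hm i hi).1, hx2]
        · rw [(hm x hx1).2, (hm i hi).2, hx2]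
      · intro hx
        exfalso
        apply hx
        rw [Finset.mem_filter, Finset.mem_filter]
        exact ⟨⟨hi, rfl⟩, rfl⟩
    exact F.κ_ne i (h2.symm.trans h1)
  -- the specialisation
  obtain ⟨h, g, hh0, hg0, hEg⟩ := nch hF i0 h0 hpos hN (nonDeg_face hF hnd)
  have hh : h ≠ 0 := by
    rintro rfl
    rw [Polynomial.eval_zero] at hh0
    exact zero_ne_one hh0
  obtain ⟨ρ, hρall⟩ : ∃ ρ : ℂ, (Polynomial.X * h * Ap (m iV) * Ap L).eval ρ ≠ 0 := by
    by_contra hno
    push Not at hno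
    have : Polynomial.X * h * Ap (m iV) * Ap L = 0 := Polynomial.funext fun x => by
      rw [hno x, Polynomial.eval_zero]
    have h2 := mul_ne_zero (mul_ne_zero (mul_ne_zero Polynomial.X_ne_zero hh) (hAp iV hiV))
      (hAp iL hiL)
    exact h2 this
  rw [Polynomial.eval_mul, Polynomial.eval_mul, Polynomial.eval_mul, Polynomial.eval_X] at hρall
  have hρL := right_ne_zero_of_mul hρall
  have hρV := right_ne_zero_of_mul (left_ne_zero_of_mul hρall)
  have hρh := right_ne_zero_of_mul (left_ne_zero_of_mul (left_ne_zero_of_mul hρall))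
  have hρ := left_ne_zero_of_mul (left_ne_zero_of_mul (left_ne_zero_of_mul hρall))
  set κ : Polynomial ℂ := ncgK (F.face w N) m (fun i => F.κ i * ρ ^ (F.a i i0)) with hκ
  have hcoef : ∀ l, κ.coeff l = (Ap l).eval ρ := by
    intro l
    rw [hκ, ncgK_coeff]
    show _ = (ncgK _ _ _).eval ρ
    rw [ncgK_eval]
    refine Finset.sum_congr rfl fun i _ => ?_
    congr 1
    have e1 := F.a_nonneg i i0
    conv_lhs => rw [← Int.toNat_of_nonneg e1]
    rw [zpow_natCast]
  have hdeg : κ.natDegree = L := by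
    apply le_antisymm
    · rw [Polynomial.natDegree_le_iff_coeff_eq_zero]
      intro l hl
      rw [hκ, ncgK_coeff]
      apply Finset.sum_eq_zero
      intro i hi
      rw [Finset.mem_filter] at hi
      have := hmax i hi.1
      omega
    · apply Polynomial.le_natDegree_of_ne_zero
      rw [hcoef]
      exact hρL
  have hc0 : κ.coeff 0 ≠ 0 := by
    rw [hcoef, ← hmV]
    exact hρV
  have hcopκ : IsCoprime κ (Polynomial.derivative κ) := by
    refine (Polynomial.isCoprime_iff_aeval_ne_zero_of_isAlgClosed ℂ ℂ κ _).2 fun z => ?_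
    by_contra hz
    push Not at hz
    rw [Polynomial.coe_aeval_eq_eval] at hz
    obtain ⟨hz1, hz2⟩ := hz
    have hz0 : z ≠ 0 := by
      rintro rfl
      rw [← Polynomial.coeff_zero_eq_eval_zero] at hz1
      exact hc0 hz1
    obtain ⟨c, hc⟩ := IsAlgClosed.exists_pow_nat_eq z (n := a.toNat) (by omega)
    have hc0' : c ≠ 0 := by
      rintro rfl
      rw [zero_pow (by omega)] at hc
      exact hz0 hc.symm
    set x : Fin 4 → ℂ := fun l => if l = i0.castSucc then ρ else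
      if l = (i0 + 2).castSucc then c else 1 with hx
    have hx0 : ∀ j, x j ≠ 0 := by
      intro j
      rw [hx]
      dsimp only
      split_ifs
      · exact hρ
      · exact hc0'
      · exact one_ne_zero
    have hprod : ∀ p : Pt, ∏ j, x j ^ (p j) = ρ ^ (p i0.castSucc) * c ^ (p (i0 + 2).castSucc) := by
      intro p
      rw [Fin.prod_univ_four, hx]
      fin_cases i0
      · change ρ ^ p 0 * 1 ^ p 1 * c ^ p 2 * 1 ^ p 3 = ρ ^ p 0 * c ^ p 2
        simp
      · change c ^ p 0 * ρ ^ p 1 * 1 ^ p 2 * 1 ^ p 3 = ρ ^ p 1 * c ^ p 0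
        simp [mul_comm]
      · change 1 ^ p 0 * c ^ p 1 * ρ ^ p 2 * 1 ^ p 3 = ρ ^ p 2 * c ^ p 1
        simp [mul_comm]
    have hca : ∀ i ∈ F.face w N, c ^ (F.a i (i0 + 2)) = c ^ V2 * z ^ (m i) := by
      intro i hi
      rw [(hm i hi).2, zpow_add₀ hc0', ← hc, ← pow_mul]
      congr 1
      rw [← zpow_natCast]
      congr 1
      push_cast
      rw [Int.toNat_of_nonneg ha.le, mul_comm]
    have hEv : ∀ j, j ≠ i0 → ncgEv x hx0 (E F (F.face w N) (c3 j)) = 0 := by
      intro j hj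
      have e1 : ncgEv x hx0 (E F (F.face w N) (c3 j)) =
          ∑ i ∈ F.face w N, F.κ i * (F.a i j : ℂ) * (ρ ^ (F.a i i0) * (c ^ V2 * z ^ (m i))) := by
        unfold E
        rw [map_sum]
        refine Finset.sum_congr rfl fun i hi => ?_
        rw [ncgEv_single, lin_c3_hat, hprod, F.hat_castSucc, F.hat_castSucc, hca i hi]
      rw [e1]
      have k1 := ncgK_eval (F.face w N) m (fun i => F.κ i * ρ ^ (F.a i i0)) z
      have k2 := ncgK_eval' (F.face w N) m (fun i => F.κ i * ρ ^ (F.a i i0)) z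
      rw [← hκ, hz1] at k1
      rw [← hκ, hz2, mul_zero] at k2
      have hj' : j = i0 + 1 ∨ j = i0 + 2 := (ncg_cases i0 j).resolve_left hj
      rcases hj' with rfl | rfl
      · have : ∀ i ∈ F.face w N, F.κ i * (F.a i (i0 + 1) : ℂ) *
            (ρ ^ (F.a i i0) * (c ^ V2 * z ^ (m i))) =
            c ^ V2 * V1 * (F.κ i * ρ ^ (F.a i i0) * z ^ (m i)) -
            c ^ V2 * b * (F.κ i * ρ ^ (F.a i i0) * (m i : ℂ) * z ^ (m i)) := by
          intro i hi
          rw [(hm i hi).1]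
          push_cast
          ring
        rw [Finset.sum_congr rfl this, Finset.sum_sub_distrib, ← Finset.mul_sum, ← Finset.mul_sum,
          ← k1, ← k2]
        ring
      · have : ∀ i ∈ F.face w N, F.κ i * (F.a i (i0 + 2) : ℂ) *
            (ρ ^ (F.a i i0) * (c ^ V2 * z ^ (m i))) =
            c ^ V2 * V2 * (F.κ i * ρ ^ (F.a i i0) * z ^ (m i)) +
            c ^ V2 * a * (F.κ i * ρ ^ (F.a i i0) * (m i : ℂ) * z ^ (m i)) := by
          intro i hi
          rw [(hm i hi).2]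
          push_cast
          ring
        rw [Finset.sum_congr rfl this, Finset.sum_add_distrib, ← Finset.mul_sum, ← Finset.mul_sum,
          ← k1, ← k2]
        ring
    have h1 := congrArg (ncgEv x hx0) hEg
    rw [map_sum, ncg_sum3 i0, map_mul, map_mul, map_mul, hg0, map_zero, mul_zero,
      hEv _ h01, hEv _ h02, zero_mul, zero_mul, ← Polynomial.aeval_algHom_apply] at h1
    have h2 : ncgEv x hx0 (mono (Pi.single i0.castSucc 1)) = ρ := by
      unfold mono
      rw [ncgEv_single, hprod, Pi.single_eq_same, Pi.single_eq_of_ne, zpow_one, zpow_zero]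
      · ring
      · intro h
        exact h02 (Fin.castSucc_injective _ h)
    rw [h2, Polynomial.coe_aeval_eq_eval] at h1
    apply hρh
    rw [← h1]
    ring
  -- the chain
  obtain ⟨c, η, ξ, G0, G1, hG0, hG1, hη, hξ, hZ, hZ', hHi, hHi2, hHi3, hHi4⟩ :=
    hid i0 (i0 + 1) h01.symm
  have hGs : SuppIn {p | wt w < ell w N p} G0 := by
    intro p hp
    obtain ⟨q3, q⟩ := hG0 p hp
    show wt w < ell w N p
    have e0 := mul_le_mul_of_nonneg_left (q 0) (hF.nonneg 0)
    have e1 := mul_le_mul_of_nonneg_left (q 1) (hF.nonneg 1)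
    have e2 := mul_le_mul_of_nonneg_left (q 2) (hF.nonneg 2)
    have f0 : (Fin.castSucc (0 : Fin 3)) = (0 : Fin 4) := rfl
    have f1 : (Fin.castSucc (1 : Fin 3)) = (1 : Fin 4) := rfl
    have f2 : (Fin.castSucc (2 : Fin 3)) = (2 : Fin 4) := rfl
    rw [f0] at e0
    rw [f1] at e1
    rw [f2] at e2
    unfold wt ell
    rw [q3]
    linarith
  obtain ⟨y, hy0, hysl, hby, -, -⟩ := slice2 hF hN i0 h0 s0 hs η
    (hHi w N hF.nonneg (fun j hj => by rw [Finset.mem_singleton.1 hj]; exact h0) hF.min_le)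
    (by rw [hη, add_sub_cancel_left]; exact hGs)
  have hmain : ∀ q : ℤ × ℤ, ncgPsi i0 V1 V2 a b ρ (D F (F.face w N) s0 (c3 (i0 + 1)) (y (i0 + 1))) q
      + ncgPsi i0 V1 V2 a b ρ (D F (F.face w N) s0 (c3 (i0 + 2)) (y (i0 + 2))) q =
      if q = (0, 0) then ρ else 0 := by
    intro q
    rw [← ncgPsi_one i0 V1 V2 a b hb.ne' ρ q, ← hby]
    unfold bd
    rw [ncg_sum3 i0, hy0, map_zero, zero_add, ncgPsi_add]
  set Y1 := ncgPsi i0 V1 V2 a b ρ (y (i0 + 1)) with hY1
  set Y2 := ncgPsi i0 V1 V2 a b ρ (y (i0 + 2)) with hY2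
  have hm1 : ∀ i ∈ F.face w N, F.a i (i0 + 1) = V1 - (m i : ℤ) * b := fun i hi => (hm i hi).1
  have hm2 : ∀ i ∈ F.face w N, F.a i (i0 + 2) = V2 + (m i : ℤ) * a := fun i hi => (hm i hi).2
  have haC : (a : ℂ) ≠ 0 := by exact_mod_cast ha.ne'
  have hbC : (b : ℂ) ≠ 0 := by exact_mod_cast hb.ne'
  have hwt : (wt w : ℤ) = a + b := ncg_wt i0 h0
  have hsC : (a : ℂ) + b + N * s0 = 0 := by
    rw [hwt] at hs
    push_cast at hs
    exact hs
  have hNC : (a : ℂ) * V1 + b * V2 = N := by exact_mod_cast hVN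
  set α : ℂ := (1 + V2 * s0) / a with hα
  have hα1 : (a : ℂ) * α = 1 + V2 * s0 := by rw [hα]; field_simp
  have hα2 : (b : ℂ) * α = -(1 + V1 * s0) := by
    have : (a : ℂ) * (b * α) = a * (-(1 + V1 * s0)) := by
      linear_combination (b : ℂ) * hα1 + hsC + s0 * hNC
    exact mul_left_cancel₀ haC this
  have e1 : ∀ k t : ℤ, ncgPsi i0 V1 V2 a b ρ (D F (F.face w N) s0 (c3 (i0 + 1)) (y (i0 + 1))) (k, t)
      = ((1 : ℂ) + k * V1 - t * b) * Y1 (k, t) +
        ∑ j ∈ κ.support, κ.coeff j * ((V1 - j * b) * Y1 (k - 1, t - j)) := by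
    intro k t
    rw [ncg_psi_D i0 V1 V2 a b ρ hρ (F.face w N) s0 (fun i => (m i : ℤ)) hm1 hm2, if_neg h01,
      ncgPt_1, hκ, ncgK_sum]
    push_cast
    congr 1
    refine Finset.sum_congr rfl fun i hi => ?_
    rw [hm1 i hi, ← hY1]
    push_cast
    ring
  have e2 : ∀ k t : ℤ, ncgPsi i0 V1 V2 a b ρ (D F (F.face w N) s0 (c3 (i0 + 2)) (y (i0 + 2))) (k, t)
      = ((1 : ℂ) + k * V2 + t * a) * Y2 (k, t) +
        ∑ j ∈ κ.support, κ.coeff j * ((V2 + j * a) * Y2 (k - 1, t - j)) := by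
    intro k t
    rw [ncg_psi_D i0 V1 V2 a b ρ hρ (F.face w N) s0 (fun i => (m i : ℤ)) hm1 hm2, if_neg h02,
      ncgPt_2, hκ, ncgK_sum]
    push_cast
    congr 1
    refine Finset.sum_congr rfl fun i hi => ?_
    rw [hm2 i hi, ← hY2]
    push_cast
    ring
  have hfin1 : (Function.support Y1).Finite := ncg_psi_support i0 V1 V2 a b hb.ne' ρ _
  have hfin2 : (Function.support Y2).Finite := ncg_psi_support i0 V1 V2 a b hb.ne' ρ _
  have hfinc : ∀ u v : ℂ, (Function.support fun q => (u * Y1 q + v * Y2 q) / ρ).Finite := by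
    intro u v
    refine (hfin1.union hfin2).subset ?_
    intro q hq
    by_contra hno
    rw [Set.mem_union, not_or, Function.notMem_support, Function.notMem_support] at hno
    apply hq
    show (u * Y1 q + v * Y2 q) / ρ = 0
    rw [hno.1, hno.2]
    ring
  -- conditions on the parameters
  have hV2 : 0 ≤ V2 := F.a_nonneg _ _
  have hVL : 0 ≤ V1 - L * b := by
    rw [← hm1 iL hiL]
    exact F.a_nonneg _ _
  have hαn : ∀ n : ℕ, α = n → N * (a * n) = N - V2 * (a + b) := by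
    intro n hn
    have h1 : (N : ℂ) * (a * n) = N - V2 * (a + b) := by
      rw [hn] at hα1
      linear_combination (N : ℂ) * hα1 + V2 * hsC
    exact_mod_cast h1
  have hαn' : ∀ n : ℕ, -(L : ℂ) * s0 - α = n → N * (b * n) = N - (V1 - L * b) * (a + b) := by
    intro n hn
    have h1 : (N : ℂ) * (b * n) = N - (V1 - L * b) * (a + b) := by
      rw [← hn]
      linear_combination (-(N : ℂ)) * hα2 + (V1 - L * b) * hsC
    exact_mod_cast h1
  have hbig : ∀ (u v : ℤ) (n : ℕ), 0 < u → 0 ≤ v → 2 ≤ n → N * (u * n) = N - v * (a + b) →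
      False := by
    intro u v n hu hv hn he
    have h1 : 0 ≤ v * (a + b) := mul_nonneg hv (by linarith)
    have h2 : (2 : ℤ) ≤ u * n := by
      have : (2 : ℤ) ≤ n := by exact_mod_cast hn
      nlinarith
    nlinarith
  have hone : ∀ (u v : ℤ), 0 < u → 0 ≤ v → N * (u * (1 : ℕ)) = N - v * (a + b) →
      u = 1 ∧ v = 0 := by
    intro u v hu hv he
    push_cast at he
    have h1 : 0 ≤ v * (a + b) := mul_nonneg hv (by linarith)
    have h2 : u = 1 := by nlinarith
    refine ⟨h2, ?_⟩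
    rw [h2] at he
    have h3 : v * (a + b) = 0 := by linarith
    exact (mul_eq_zero.1 h3).resolve_right (by linarith)
  refine two_dim κ (by rw [hdeg]; exact hL1) hc0 hcopκ s0 α ?_ ?_ ?_
    (fun q => ((V1 : ℂ) * Y1 q + V2 * Y2 q) / ρ) (fun q => (-(b : ℂ) * Y1 q + a * Y2 q) / ρ)
    (hfinc _ _) (hfinc _ _) ?_
  · intro n hn hαe
    exact hbig a V2 n ha hV2 hn (hαn n hαe)
  · intro n hn hαe
    rw [hdeg] at hαe
    exact hbig b (V1 - L * b) n hb hVL hn (hαn' n hαe)
  · rw [hdeg]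
    by_cases hL2 : 2 ≤ L
    · exact Or.inl hL2
    · right
      have hLe : L = 1 := by omega
      constructor
      · intro he
        have := hαn 1 (by rw [he]; simp)
        obtain ⟨q1, q2⟩ := hone a V2 ha hV2 this
        apply hB
        refine ⟨i0 + 2, h02, fun i hi => ?_⟩
        rw [hm2 i hi, q1, q2]
        have := hmax i hi
        have : m i ≤ 1 := by omega
        have : (m i : ℤ) ≤ 1 := by exact_mod_cast this
        linarith
      · intro he
        have := hαn' 1 (by rw [he]; simp)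
        obtain ⟨q1, q2⟩ := hone b (V1 - L * b) hb hVL this
        apply hB
        refine ⟨i0 + 1, h01, fun i hi => ?_⟩
        rw [hm1 i hi]
        have h3 : (0 : ℤ) ≤ m i := Int.natCast_nonneg _
        rw [q1, hLe] at q2
        rw [q1]
        push_cast at q2
        linarith
  · rintro ⟨k, t⟩
    have h1 := hmain (k, t)
    rw [e1, e2] at h1
    have h2 : tD0 κ s0 (fun q => ((V1 : ℂ) * Y1 q + V2 * Y2 q) / ρ) (k, t) +
        tDt κ α (fun q => (-(b : ℂ) * Y1 q + a * Y2 q) / ρ) (k, t) =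
        (if ((k, t) : ℤ × ℤ) = (0, 0) then ρ else 0) / ρ := by
      rw [← h1]
      unfold tD0 tDt
      dsimp only
      rw [eq_div_iff hρ]
      have s1 : (∑ j ∈ κ.support, κ.coeff j * (((V1 : ℂ) * Y1 (k - 1, t - j) +
          V2 * Y2 (k - 1, t - j)) / ρ)) * ρ + (∑ j ∈ κ.support, (j : ℂ) * κ.coeff j *
          ((-(b : ℂ) * Y1 (k - 1, t - j) + a * Y2 (k - 1, t - j)) / ρ)) * ρ =
          ∑ j ∈ κ.support, κ.coeff j * ((V1 - j * b) * Y1 (k - 1, t - j)) +
          ∑ j ∈ κ.support, κ.coeff j * ((V2 + j * a) * Y2 (k - 1, t - j)) := by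
        rw [Finset.sum_mul, Finset.sum_mul, ← Finset.sum_add_distrib, ← Finset.sum_add_distrib]
        refine Finset.sum_congr rfl fun j _ => ?_
        field_simp
        ring
      have s2 : ((k : ℂ) - s0) * (((V1 : ℂ) * Y1 (k, t) + V2 * Y2 (k, t)) / ρ) * ρ +
          ((t : ℂ) + α) * ((-(b : ℂ) * Y1 (k, t) + a * Y2 (k, t)) / ρ) * ρ =
          ((1 : ℂ) + k * V1 - t * b) * Y1 (k, t) + ((1 : ℂ) + k * V2 + t * a) * Y2 (k, t) := by
        field_simp
        linear_combination (-Y1 (k, t)) * hα2 + Y2 (k, t) * hα1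
      linear_combination s1 + s2
    rw [h2]
    split_ifs
    · exact div_self hρ
    · exact zero_div _

end Pool.Agent.H37.SM
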