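import Pool.Agent.H37.SM.UTL
import Pool.Agent.H37.SM.NCA

/-! Module NCH: generic smoothness in the free variable for a non-compact facet. -/

set_option autoImplicit false

namespace Pool.Agent.H37.SM

open Finset

variable {r : ℕ} {F : Dat r} {w : Fin 3 → ℤ} {N : ℤ}

lemma nch_others (i0 : Fin 3) : ∃ i1 i2 : Fin 3, i0 ≠ i1 ∧ i0 ≠ i2 ∧ i1 ≠ i2 := by
  revert i0; decide

lemma nch_all {i0 i1 i2 : Fin 3} (h01 : i0 ≠ i1) (h02 : i0 ≠ i2) (h12 : i1 ≠ i2) (j : Fin 3) :
    j = i0 ∨ j = i1 ∨ j = i2 := by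
  revert i0 i1 i2 j; decide

lemma nch_univ {i0 i1 i2 : Fin 3} (h01 : i0 ≠ i1) (h02 : i0 ≠ i2) (h12 : i1 ≠ i2) :
    (univ : Finset (Fin 3)) = {i0, i1, i2} := by
  ext j
  simp only [mem_univ, mem_insert, mem_singleton, true_iff]
  exact nch_all h01 h02 h12 j

lemma nch_sum3 {M : Type*} [AddCommMonoid M] (f : Fin 3 → M) {i0 i1 i2 : Fin 3} (h01 : i0 ≠ i1)
    (h02 : i0 ≠ i2) (h12 : i1 ≠ i2) : ∑ j, f j = f i0 + f i1 + f i2 := by
  rw [nch_univ h01 h02 h12, sum_insert (by simp [h01, h02]), sum_insert (by simp [h12]),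
    sum_singleton, add_assoc]

lemma nch_prod3 {M : Type*} [CommMonoid M] (f : Fin 3 → M) {i0 i1 i2 : Fin 3} (h01 : i0 ≠ i1)
    (h02 : i0 ≠ i2) (h12 : i1 ≠ i2) : ∏ j, f j = f i0 * f i1 * f i2 := by
  rw [nch_univ h01 h02 h12, prod_insert (by simp [h01, h02]), prod_insert (by simp [h12]),
    prod_singleton, mul_assoc]

lemma nch_mono_add (p q : Pt) : mono (p + q) = mono p * mono q := by
  unfold mono
  rw [AddMonoidAlgebra.single_mul_single, one_mul]

lemma nch_mono_nsmul (n : ℕ) (p : Pt) : mono (n • p) = mono p ^ n := by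
  unfold mono
  rw [AddMonoidAlgebra.single_pow, one_pow]

lemma nch_mono_neg (p : Pt) : mono p * mono (-p) = 1 := by
  rw [← nch_mono_add, add_neg_cancel]
  rfl

lemma nch_single (p : Pt) (z : ℂ) :
    (AddMonoidAlgebra.single p z : LL) = algebraMap ℂ LL z * mono p := by
  rw [← Algebra.smul_def]
  unfold mono
  rw [AddMonoidAlgebra.smul_single, smul_eq_mul, mul_one]

lemma nch_ell {B : Finset (Fin r)} (hB : B = F.face w N) {i : Fin r} (hi : i ∈ B) :
    ∑ j, w j * F.a i j = N := by
  rw [hB, mem_face] at hi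
  simp only [ell, Dat.hat_zero, Dat.hat_one, Dat.hat_two, Dat.hat_three] at hi
  rw [Fin.sum_univ_three]
  linarith

/-- the polynomial of the facet -/
noncomputable def nch_g (F : Dat r) (B : Finset (Fin r)) (m l : Fin r → ℕ) :
    Polynomial (Polynomial ℂ) :=
  ∑ i ∈ B, Polynomial.monomial (m i) (Polynomial.monomial (l i) (F.κ i))

lemma nch_g_eval (F : Dat r) (B : Finset (Fin r)) (m l : Fin r → ℕ) (x t : ℂ) :
    ((nch_g F B m l).map (Polynomial.evalRingHom x)).eval t =
      ∑ i ∈ B, F.κ i * (x ^ l i * t ^ m i) := by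
  unfold nch_g
  rw [Polynomial.map_sum, Polynomial.eval_finsetSum]
  refine sum_congr rfl fun i _ => ?_
  rw [Polynomial.map_monomial, Polynomial.eval_monomial, Polynomial.coe_evalRingHom,
    Polynomial.eval_monomial]
  ring

lemma nch_pow_pred (x : ℂ) (n : ℕ) : x * ((n : ℂ) * x ^ (n - 1)) = (n : ℂ) * x ^ n := by
  cases n with
  | zero => simp
  | succ n => rw [Nat.add_sub_cancel]; ring

lemma nch_g_eval_t (F : Dat r) (B : Finset (Fin r)) (m l : Fin r → ℕ) (x t : ℂ) :
    t * ((Polynomial.derivative (nch_g F B m l)).map (Polynomial.evalRingHom x)).eval t =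
      ∑ i ∈ B, F.κ i * m i * (x ^ l i * t ^ m i) := by
  unfold nch_g
  rw [Polynomial.derivative_sum, Polynomial.map_sum, Polynomial.eval_finsetSum, mul_sum]
  refine sum_congr rfl fun i _ => ?_
  rw [Polynomial.derivative_monomial, Polynomial.map_monomial, Polynomial.eval_monomial,
    Polynomial.coe_evalRingHom, Polynomial.eval_mul, Polynomial.eval_monomial,
    Polynomial.eval_natCast]
  have := nch_pow_pred t (m i)
  linear_combination (F.κ i * x ^ l i) * this

lemma nch_dx_add (p q : Polynomial (Polynomial ℂ)) :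
    ((p + q).sum fun n q => Polynomial.monomial n (Polynomial.derivative q)) =
      (p.sum fun n q => Polynomial.monomial n (Polynomial.derivative q)) +
      (q.sum fun n q => Polynomial.monomial n (Polynomial.derivative q)) := by
  apply Polynomial.sum_add_index
  · intro i; simp
  · intro a b c; simp

lemma nch_g_eval_x (F : Dat r) (B : Finset (Fin r)) (m l : Fin r → ℕ) (x t : ℂ) :
    x * (((nch_g F B m l).sum fun n q => Polynomial.monomial n (Polynomial.derivative q)).map
        (Polynomial.evalRingHom x)).eval t =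
      ∑ i ∈ B, F.κ i * l i * (x ^ l i * t ^ m i) := by
  unfold nch_g
  classical
  induction B using Finset.induction_on with
  | empty => simp
  | insert a s ha ih =>
    rw [sum_insert ha, sum_insert ha, nch_dx_add, Polynomial.map_add, Polynomial.eval_add, mul_add,
      ih, Polynomial.sum_monomial_index _ _ (by simp), Polynomial.map_monomial,
      Polynomial.eval_monomial, Polynomial.coe_evalRingHom, Polynomial.derivative_monomial,
      Polynomial.eval_monomial]
    have := nch_pow_pred x (l a)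
    linear_combination (F.κ a * t ^ m a) * this

lemma nch_phi (X0 Y : LL) (F : Dat r) (B : Finset (Fin r)) (m l : Fin r → ℕ) :
    Polynomial.eval₂ ((Polynomial.aeval X0 : Polynomial ℂ →ₐ[ℂ] LL) : Polynomial ℂ →+* LL) Y
      (nch_g F B m l) = ∑ i ∈ B, algebraMap ℂ LL (F.κ i) * (X0 ^ l i * Y ^ m i) := by
  unfold nch_g
  rw [Polynomial.eval₂_finsetSum]
  refine sum_congr rfl fun i _ => ?_
  rw [Polynomial.eval₂_monomial]
  have : ((Polynomial.aeval X0 : Polynomial ℂ →ₐ[ℂ] LL) : Polynomial ℂ →+* LL)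
      (Polynomial.monomial (l i) (F.κ i)) = algebraMap ℂ LL (F.κ i) * X0 ^ l i :=
    Polynomial.aeval_monomial X0
  rw [this, mul_assoc]

lemma nch_phi_t (X0 Y : LL) (F : Dat r) (B : Finset (Fin r)) (m l : Fin r → ℕ) :
    Y * Polynomial.eval₂ ((Polynomial.aeval X0 : Polynomial ℂ →ₐ[ℂ] LL) : Polynomial ℂ →+* LL) Y
      (Polynomial.derivative (nch_g F B m l)) =
        ∑ i ∈ B, algebraMap ℂ LL (F.κ i * m i) * (X0 ^ l i * Y ^ m i) := by
  unfold nch_g
  rw [Polynomial.derivative_sum, Polynomial.eval₂_finsetSum, mul_sum]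
  refine sum_congr rfl fun i _ => ?_
  rw [Polynomial.derivative_monomial, Polynomial.eval₂_monomial, map_mul, map_natCast, map_mul,
    map_natCast]
  have : ((Polynomial.aeval X0 : Polynomial ℂ →ₐ[ℂ] LL) : Polynomial ℂ →+* LL)
      (Polynomial.monomial (l i) (F.κ i)) = algebraMap ℂ LL (F.κ i) * X0 ^ l i :=
    Polynomial.aeval_monomial X0
  rw [this]
  cases hm : m i with
  | zero => simp
  | succ n => rw [Nat.add_sub_cancel]; ring

/-- For a non-compact facet (`w i0 = 0`, the other two coordinates positive): there are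
`h ∈ ℂ[x_{i0}]`, `h(0) = 1`, and `g` with `∑_j E_j g_j = h(x_{i0})`, `g_{i0} = 0`.

Proof. Let `i1 = i0 + 1`, `i2 = i0 + 2`, `δ = (-w_{i2}, w_{i1})` in the coordinates `(i1, i2)`; by
`prim` the two positive coordinates are coprime, so all exponents of the face are
`V + m δ + l e_{i0}` with a fixed exponent `V` of smallest `i2`-coordinate, `m, l` integers, `m ≥ 0`
(`l` possibly negative; multiply `f` by a power of `x_{i0}`, i.e. measure `l` from the smallest
`i0`-coordinate: `V` fixed only in the coordinates `i1, i2`). So `f_w = x^V g(x_{i0}, t)`,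
`t = x^δ`, `g ∈ ℂ[x][t]`, `g(x,0) ≠ 0`. In `LL`: `E_{i1} = T x^V (V_{i1} g - w_{i2} t ∂_t g)`,
`E_{i2} = T x^V (V_{i2} g + w_{i1} t ∂_t g)`, determinant
`w_{i1} V_{i1} + w_{i2} V_{i2} = N ≠ 0`. So `g` and `t ∂_t g`, hence (times `t⁻¹`, a unit) `g` and
`∂_t g`, are combinations of `E_{i1}, E_{i2}` in `LL`. `nch_alg` (a common zero of
`g, ∂_t g, ∂_x g` with `x t ≠ 0` gives a singular zero of `f_w` in the torus: choose `x_{i1},x_{i2}`
with `x^δ = t`) gives `h ≠ 0`; divide by the power of `x_{i0}` and the constant `h(0)`. -/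
theorem nch (hF : Facet F w N) (i0 : Fin 3) (h0 : w i0 = 0) (hpos : ∀ j, j ≠ i0 → 0 < w j)
    (hN : 0 < N) (hnd : NonDeg F (F.face w N)) :
    ∃ (h : Polynomial ℂ) (g : Fin 3 → LL), h.eval 0 = 1 ∧ g i0 = 0 ∧
      ∑ j, E F (F.face w N) (c3 j) * g j =
        Polynomial.aeval (mono (Pi.single i0.castSucc 1)) h := by
  classical
  obtain ⟨i1, i2, h01, h02, h12⟩ := nch_others i0
  have hw1 : 0 < w i1 := hpos i1 h01.symm
  have hw2 : 0 < w i2 := hpos i2 h02.symm
  have hcop : IsCoprime (w i1) (w i2) := by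
    rw [Int.isCoprime_iff_gcd_eq_one]
    have h := hF.prim ((Int.gcd (w i1) (w i2) : ℕ) : ℤ) (by
      intro j
      rcases nch_all h01 h02 h12 j with h | h | h
      · rw [h, h0]; exact dvd_zero _
      · rw [h]; exact Int.gcd_dvd_left ..
      · rw [h]; exact Int.gcd_dvd_right ..)
    rw [Int.isUnit_iff] at h
    rcases h with h | h
    · exact_mod_cast h
    · have : (0 : ℤ) ≤ ((Int.gcd (w i1) (w i2) : ℕ) : ℤ) := Int.natCast_nonneg _
      omega
  set B := F.face w N with hB
  have hrel : ∀ i ∈ B, w i1 * F.a i i1 + w i2 * F.a i i2 = N := by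
    intro i hi
    have h := nch_ell hB hi
    rw [nch_sum3 _ h01 h02 h12, h0] at h
    linarith
  obtain ⟨i', hi'⟩ := hF.attained
  have hBne : B.Nonempty := ⟨i', mem_face.2 hi'⟩
  obtain ⟨is, his, hmin⟩ := Finset.exists_min_image B (fun i => F.a i i2) hBne
  have hm : ∀ i, ∃ m : ℕ, i ∈ B →
      (F.a i i2 = F.a is i2 + w i1 * m ∧ F.a i i1 = F.a is i1 - w i2 * m) := by
    intro i
    by_cases hi : i ∈ B
    · have h1 := hrel i hi
      have h2 := hrel is his
      have h3 : w i2 * (F.a i i2 - F.a is i2) = w i1 * (F.a is i1 - F.a i i1) := by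
        linear_combination h1 - h2
      have h4 : w i1 ∣ w i2 * (F.a i i2 - F.a is i2) := ⟨_, h3⟩
      obtain ⟨c, hc⟩ := hcop.dvd_of_dvd_mul_left h4
      have hc0 : 0 ≤ c := by
        have h5 := hmin i hi
        by_contra hneg
        push Not at hneg
        have h6 : w i1 * c < 0 := mul_neg_of_pos_of_neg hw1 hneg
        linarith
      refine ⟨c.toNat, fun _ => ?_⟩
      rw [Int.toNat_of_nonneg hc0]
      refine ⟨by linarith, ?_⟩
      have h7 : w i1 * (F.a i i1 - (F.a is i1 - w i2 * c)) = 0 := by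
        rw [hc] at h3
        linear_combination h3
      rcases mul_eq_zero.1 h7 with h8 | h8
      · exact absurd h8 hw1.ne'
      · linarith
    · exact ⟨0, fun h => absurd h hi⟩
  choose m hm using hm
  set l : Fin r → ℕ := fun i => (F.a i i0).toNat with hl
  have hl' : ∀ i, ((l i : ℕ) : ℤ) = F.a i i0 := fun i => Int.toNat_of_nonneg (F.a_nonneg i i0)
  set V1 := F.a is i1 with hV1
  set V2 := F.a is i2 with hV2
  have hNV : w i1 * V1 + w i2 * V2 = N := hrel is his
  have hmis : m is = 0 := by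
    have h := (hm is his).1
    have h1 : w i1 * (m is : ℤ) = 0 := by linarith
    rcases mul_eq_zero.1 h1 with h2 | h2
    · exact absurd h2 hw1.ne'
    · exact_mod_cast h2
  -- the constant coefficient
  have hg0 : (nch_g F B m l).coeff 0 ≠ 0 := by
    intro hz
    have h1 : ((nch_g F B m l).coeff 0).coeff (l is) = F.κ is := by
      unfold nch_g
      rw [Polynomial.finsetSum_coeff, Polynomial.finsetSum_coeff, Finset.sum_eq_single is]
      · rw [hmis, Polynomial.coeff_monomial, if_pos rfl, Polynomial.coeff_monomial, if_pos rfl]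
      · intro i hi hne
        rw [Polynomial.coeff_monomial]
        split_ifs with h2
        · rw [Polynomial.coeff_monomial, if_neg]
          intro h3
          apply hne
          apply F.inj
          funext j
          rcases nch_all h01 h02 h12 j with h | h | h
          · rw [h, ← hl' i, ← hl' is, h3]
          · rw [h, (hm i hi).2, h2]; simp [hV1]
          · rw [h, (hm i hi).1, h2]; simp [hV2]
        · simp
      · intro h; exact absurd his h
    rw [hz, Polynomial.coeff_zero] at h1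
    exact F.κ_ne is h1.symm
  -- no singular zeros
  have hno : ∀ x t : ℂ, x ≠ 0 → t ≠ 0 →
      ¬ (((nch_g F B m l).map (Polynomial.evalRingHom x)).eval t = 0 ∧
      ((Polynomial.derivative (nch_g F B m l)).map (Polynomial.evalRingHom x)).eval t = 0 ∧
      (((nch_g F B m l).sum fun n q => Polynomial.monomial n (Polynomial.derivative q)).map
        (Polynomial.evalRingHom x)).eval t = 0) := by
    rintro x t hx ht ⟨hz1, hz2, hz3⟩
    obtain ⟨k, hk⟩ := Int.eq_ofNat_of_zero_le hw1.le
    have hk0 : 0 < k := by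
      rw [hk] at hw1
      exact_mod_cast hw1
    obtain ⟨τ, hτ⟩ := IsAlgClosed.exists_pow_nat_eq t hk0
    have hτ0 : τ ≠ 0 := by
      rintro rfl
      rw [zero_pow hk0.ne'] at hτ
      exact ht hτ.symm
    have e1 := nch_g_eval F B m l x t
    have e2 := nch_g_eval_t F B m l x t
    have e3 := nch_g_eval_x F B m l x t
    rw [hz1] at e1
    rw [hz2, mul_zero] at e2
    rw [hz3, mul_zero] at e3
    let y : Fin 3 → ℂ := fun j => if j = i0 then x else if j = i1 then 1 else τ
    have hy0 : y i0 = x := by simp [y]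
    have hy1 : y i1 = 1 := by simp [y, h01.symm]
    have hy2 : y i2 = τ := by simp [y, h02.symm, h12.symm]
    have hy : ∀ j, y j ≠ 0 := by
      intro j
      rcases nch_all h01 h02 h12 j with h | h | h
      · rw [h, hy0]; exact hx
      · rw [h, hy1]; exact one_ne_zero
      · rw [h, hy2]; exact hτ0
    have hprod : ∀ i ∈ B, ∏ j, y j ^ (F.a i j) = τ ^ V2 * (x ^ l i * t ^ m i) := by
      intro i hi
      rw [nch_prod3 _ h01 h02 h12, hy0, hy1, hy2, one_zpow, mul_one, ← hl' i, zpow_natCast,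
        (hm i hi).1, zpow_add₀ hτ0, zpow_mul, hk, zpow_natCast, zpow_natCast, hτ]
      ring
    apply hnd y hy
    constructor
    · rw [Finset.sum_congr rfl fun i hi => by rw [hprod i hi]]
      rw [show (∑ i ∈ B, F.κ i * (τ ^ V2 * (x ^ l i * t ^ m i))) =
        τ ^ V2 * ∑ i ∈ B, F.κ i * (x ^ l i * t ^ m i) by
          rw [mul_sum]; exact sum_congr rfl fun i _ => by ring]
      rw [← e1, mul_zero]
    · intro j
      rw [Finset.sum_congr rfl fun i hi => by rw [hprod i hi]]
      rcases nch_all h01 h02 h12 j with h | h | h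
      · rw [show (∑ i ∈ B, F.κ i * (F.a i j : ℂ) * (τ ^ V2 * (x ^ l i * t ^ m i))) =
          τ ^ V2 * ∑ i ∈ B, F.κ i * l i * (x ^ l i * t ^ m i) by
            rw [mul_sum]
            refine sum_congr rfl fun i _ => ?_
            rw [h, ← hl' i]
            push_cast
            ring]
        rw [← e3, mul_zero]
      · rw [show (∑ i ∈ B, F.κ i * (F.a i j : ℂ) * (τ ^ V2 * (x ^ l i * t ^ m i))) =
          τ ^ V2 * ((V1 : ℂ) * (∑ i ∈ B, F.κ i * (x ^ l i * t ^ m i)) -
            (w i2 : ℂ) * ∑ i ∈ B, F.κ i * m i * (x ^ l i * t ^ m i)) by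
            rw [mul_sum, mul_sum, ← sum_sub_distrib, mul_sum]
            refine sum_congr rfl fun i hi => ?_
            rw [h, (hm i hi).2]
            push_cast
            ring]
        rw [← e1, ← e2, mul_zero, mul_zero, sub_zero, mul_zero]
      · rw [show (∑ i ∈ B, F.κ i * (F.a i j : ℂ) * (τ ^ V2 * (x ^ l i * t ^ m i))) =
          τ ^ V2 * ((V2 : ℂ) * (∑ i ∈ B, F.κ i * (x ^ l i * t ^ m i)) +
            (w i1 : ℂ) * ∑ i ∈ B, F.κ i * m i * (x ^ l i * t ^ m i)) by
            rw [mul_sum, mul_sum, ← sum_add_distrib, mul_sum]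
            refine sum_congr rfl fun i hi => ?_
            rw [h, (hm i hi).1]
            push_cast
            ring]
        rw [← e1, ← e2, mul_zero, mul_zero, add_zero, mul_zero]
  obtain ⟨h, hh, u, v, huv⟩ := nch_alg (nch_g F B m l) hg0 hno
  -- the Laurent ring
  set X0 : LL := mono (Pi.single i0.castSucc 1) with hX0
  set δ : Pt := w i1 • Pi.single i2.castSucc 1 - w i2 • Pi.single i1.castSucc 1 with hδ
  set Vh : Pt := V1 • Pi.single i1.castSucc 1 + V2 • Pi.single i2.castSucc 1 +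
    Pi.single (Fin.last 3) 1 with hVh
  have hhat : ∀ i ∈ B, F.hat i = Vh + ((l i) • Pi.single i0.castSucc 1 + (m i) • δ) := by
    intro i hi
    funext p
    have hcs : ∀ a b : Fin 3, (Pi.single a.castSucc (1 : ℤ) : Pt) b.castSucc =
        if b = a then 1 else 0 := by
      intro a b
      rw [Pi.single_apply]
      simp only [Fin.castSucc_inj]
    have hcl : ∀ a : Fin 3, (Pi.single a.castSucc (1 : ℤ) : Pt) (Fin.last 3) = 0 := by
      intro a
      rw [Pi.single_apply, if_neg (Fin.castSucc_lt_last a).ne']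
    have hlc : ∀ b : Fin 3, (Pi.single (Fin.last 3) (1 : ℤ) : Pt) b.castSucc = 0 := by
      intro b
      rw [Pi.single_apply, if_neg (Fin.castSucc_lt_last b).ne]
    have hll : (Pi.single (Fin.last 3) (1 : ℤ) : Pt) (Fin.last 3) = 1 := by
      rw [Pi.single_apply, if_pos rfl]
    have h1 := hm i hi
    refine Fin.lastCases ?_ (fun j => ?_) p
    · simp only [hVh, hδ, Pi.add_apply, Pi.smul_apply, Pi.sub_apply, hcl, hll]
      have : F.hat i (Fin.last 3) = 1 := rfl
      rw [this]
      simp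
    · rw [F.hat_castSucc]
      simp only [hVh, hδ, Pi.add_apply, Pi.smul_apply, Pi.sub_apply, hcs, hlc]
      rcases nch_all h01 h02 h12 j with h | h | h
      · rw [h, ← hl' i]
        simp [h01, h02]
      · rw [h, h1.2]
        simp [h01.symm, h12]
        ring
      · rw [h, h1.1]
        simp [h02.symm, h12.symm]
        ring
  set cc : ℂ →+* LL := algebraMap ℂ LL with hcc
  have hE : ∀ j, E F B (c3 j) = mono Vh *
      ∑ i ∈ B, cc (F.κ i * (F.a i j : ℂ)) * (X0 ^ l i * mono δ ^ m i) := by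
    intro j
    unfold E
    rw [mul_sum]
    refine sum_congr rfl fun i hi => ?_
    rw [nch_single, lin_c3_hat, hhat i hi, nch_mono_add Vh, nch_mono_add (l i • _) (m i • δ),
      nch_mono_nsmul, nch_mono_nsmul]
    ring
  set S0 : LL := ∑ i ∈ B, cc (F.κ i) * (X0 ^ l i * mono δ ^ m i) with hS0
  set S1 : LL := ∑ i ∈ B, cc (F.κ i * m i) * (X0 ^ l i * mono δ ^ m i) with hS1
  have hE1 : E F B (c3 i1) = mono Vh * (cc V1 * S0 - cc (w i2) * S1) := by
    rw [hE i1]
    congr 1
    rw [hS0, hS1, mul_sum, mul_sum, ← sum_sub_distrib]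
    refine sum_congr rfl fun i hi => ?_
    rw [(hm i hi).2]
    push_cast
    simp only [map_mul, map_sub]
    ring
  have hE2 : E F B (c3 i2) = mono Vh * (cc V2 * S0 + cc (w i1) * S1) := by
    rw [hE i2]
    congr 1
    rw [hS0, hS1, mul_sum, mul_sum, ← sum_add_distrib]
    refine sum_congr rfl fun i hi => ?_
    rw [(hm i hi).1]
    push_cast
    simp only [map_mul, map_add]
    ring
  set Φ := Polynomial.eval₂RingHom
    ((Polynomial.aeval X0 : Polynomial ℂ →ₐ[ℂ] LL) : Polynomial ℂ →+* LL) (mono δ) with hΦ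
  have hΦg : Φ (nch_g F B m l) = S0 := nch_phi X0 (mono δ) F B m l
  have hΦt : mono δ * Φ (Polynomial.derivative (nch_g F B m l)) = S1 :=
    nch_phi_t X0 (mono δ) F B m l
  have hΦh : Φ u * Φ (nch_g F B m l) + Φ v * Φ (Polynomial.derivative (nch_g F B m l)) =
      Polynomial.aeval X0 h := by
    rw [← map_mul, ← map_mul, ← map_add, huv]
    exact Polynomial.eval₂_C _ _
  have hV := nch_mono_neg Vh
  have hδ1 := nch_mono_neg δ
  have hNC : cc ((N : ℂ)⁻¹) * (cc (w i1) * cc V1 + cc (w i2) * cc V2) = 1 := by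
    rw [← map_mul, ← map_mul, ← map_add, ← map_mul]
    have h1 : ((w i1 : ℂ) * V1 + (w i2 : ℂ) * V2) = N := by exact_mod_cast congrArg (Int.cast : ℤ → ℂ) hNV
    rw [h1, inv_mul_cancel₀ (by exact_mod_cast hN.ne'), map_one]
  have key : E F B (c3 i1) * (cc ((N : ℂ)⁻¹) * mono (-Vh) *
        (cc (w i1) * Φ u - cc V2 * mono (-δ) * Φ v)) +
      E F B (c3 i2) * (cc ((N : ℂ)⁻¹) * mono (-Vh) *
        (cc (w i2) * Φ u + cc V1 * mono (-δ) * Φ v)) = Polynomial.aeval X0 h := by
    rw [hE1, hE2, ← hΦh, hΦg]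
    linear_combination (cc ((N : ℂ)⁻¹) * (cc (w i1) * cc V1 + cc (w i2) * cc V2) *
      (S0 * Φ u + mono (-δ) * S1 * Φ v)) * hV + (S0 * Φ u + mono (-δ) * S1 * Φ v) * hNC -
      (Φ v * mono (-δ)) * hΦt +
      (Φ v * Φ (Polynomial.derivative (nch_g F B m l))) * hδ1
  obtain ⟨q, hq, hqd⟩ := Polynomial.exists_eq_pow_rootMultiplicity_mul_and_not_dvd h hh 0
  set k := Polynomial.rootMultiplicity 0 h with hk
  have hq0 : q.eval 0 ≠ 0 := by
    intro hz
    exact hqd (Polynomial.dvd_iff_isRoot.2 hz)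
  have hXk : X0 ^ k * mono (-(k • Pi.single i0.castSucc 1)) = 1 := by
    rw [hX0, ← nch_mono_nsmul]
    exact nch_mono_neg _
  have haev : Polynomial.aeval X0 h = X0 ^ k * Polynomial.aeval X0 q := by
    rw [hq, map_mul, map_pow, map_sub, Polynomial.aeval_X, Polynomial.aeval_C, map_zero, sub_zero]
  have hz1 : ∀ (G : Fin 3 → LL), G i0 = 0 → ∑ j, E F B (c3 j) * G j =
      E F B (c3 i1) * G i1 + E F B (c3 i2) * G i2 := by
    intro G hG
    rw [nch_sum3 _ h01 h02 h12, hG, mul_zero, zero_add]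
  refine ⟨Polynomial.C (q.eval 0)⁻¹ * q, fun j => if j = i1 then
      cc (q.eval 0)⁻¹ * mono (-(k • Pi.single i0.castSucc 1)) * (cc ((N : ℂ)⁻¹) * mono (-Vh) *
        (cc (w i1) * Φ u - cc V2 * mono (-δ) * Φ v))
      else if j = i2 then
      cc (q.eval 0)⁻¹ * mono (-(k • Pi.single i0.castSucc 1)) * (cc ((N : ℂ)⁻¹) * mono (-Vh) *
        (cc (w i2) * Φ u + cc V1 * mono (-δ) * Φ v))
      else 0, ?_, ?_, ?_⟩
  · rw [Polynomial.eval_mul, Polynomial.eval_C, inv_mul_cancel₀ hq0]
  · simp only [if_neg h01, if_neg h02]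
  · rw [hz1 _ (by simp only [if_neg h01, if_neg h02])]
    simp only [if_true, if_neg h12.symm]
    rw [map_mul, Polynomial.aeval_C]
    rw [haev] at key
    linear_combination (cc (q.eval 0)⁻¹ * mono (-(k • Pi.single i0.castSucc 1))) * key +
      (cc (q.eval 0)⁻¹ * Polynomial.aeval X0 q) * hXk

end Pool.Agent.H37.SM
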