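import Pool.Agent.H37.SM.UTL

/-! Module PLB: linear algebra of the polygon. -/

set_option autoImplicit false

namespace Pool.Agent.H37.SM

open Finset

variable {r : ℕ} {F : Dat r} {w : Fin 3 → ℤ} {N : ℤ}

/-- `N > 0` for a compact facet. Proof: `N = w·a` for some exponent, so `N ≥ 0`; if `N = 0` then
all exponents on the face are `0`, so there is only one (injectivity) and `ray` fails (every `k`
satisfies the conditions as no `w j` is zero). -/
theorem N_pos (hF : Facet F w N) (hw : Pos3 w) : 0 < N := by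
  by_contra hN
  have key : ∀ i ∈ F.face w N, ∀ j, F.a i j = 0 := by
    intro i hi
    have h := mem_face.mp hi
    have h0 := mul_nonneg (hw 0).le (F.a_nonneg i 0)
    have h1 := mul_nonneg (hw 1).le (F.a_nonneg i 1)
    have h2 := mul_nonneg (hw 2).le (F.a_nonneg i 2)
    simp only [ell, Dat.hat_zero, Dat.hat_one, Dat.hat_two, Dat.hat_three] at h
    have e0 : w 0 * F.a i 0 = 0 := by linarith
    have e1 : w 1 * F.a i 1 = 0 := by linarith
    have e2 : w 2 * F.a i 2 = 0 := by linarith
    intro j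
    fin_cases j
    · exact (mul_eq_zero.mp e0).resolve_left (hw 0).ne'
    · exact (mul_eq_zero.mp e1).resolve_left (hw 1).ne'
    · exact (mul_eq_zero.mp e2).resolve_left (hw 2).ne'
  obtain ⟨c, hc⟩ := hF.ray (Pi.single 0 1) (by
    intro i hi i' hi'
    refine Finset.sum_congr rfl fun j _ => ?_
    rw [key i hi j, key i' hi' j]) (fun j hj => absurd hj (hw j).ne')
  have h1 := hc 1
  have h0 := hc 0
  simp only [Pi.single_eq_same] at h0
  rw [Pi.single_eq_of_ne (by decide)] at h1
  have hw1 : (w 1 : ℝ) ≠ 0 := by exact_mod_cast (hw 1).ne'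
  have hc0 : c = 0 := by
    rcases mul_eq_zero.mp h1.symm with h | h
    · exact h
    · exact absurd h hw1
  rw [hc0, zero_mul] at h0
  exact one_ne_zero h0

/-- `ellR` as a linear map -/
noncomputable def ellL (w : Fin 3 → ℤ) (N : ℤ) : (Fin 4 → ℝ) →ₗ[ℝ] ℝ where
  toFun := ellR w N
  map_add' := ellR_add w N
  map_smul' t x := by rw [ellR_smul]; rfl

lemma ellL_apply (w : Fin 3 → ℤ) (N : ℤ) (x : Fin 4 → ℝ) : ellL w N x = ellR w N x := rfl

lemma ellR_sum {ι : Type*} (w : Fin 3 → ℤ) (N : ℤ) (S : Finset ι) (c : ι → ℝ)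
    (x : ι → Fin 4 → ℝ) :
    ellR w N (∑ i ∈ S, c i • x i) = ∑ i ∈ S, c i * ellR w N (x i) := by
  rw [← ellL_apply, map_sum]
  refine Finset.sum_congr rfl fun i _ => ?_
  rw [map_smul, ellL_apply, smul_eq_mul]

lemma toR_three (F : Dat r) (i : Fin r) : toR (F.hat i) 3 = 1 := by
  simp [toR]

lemma toR_injective : Function.Injective toR := by
  intro p q h
  funext j
  have := congrFun h j
  simp only [toR] at this
  exact_mod_cast this

lemma finrank_ker_ellL (hw : Pos3 w) : Module.finrank ℝ (LinearMap.ker (ellL w N)) = 3 := by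
  have hw0 : (w 0 : ℝ) ≠ 0 := by exact_mod_cast (hw 0).ne'
  have hs : Function.Surjective (ellL w N) := by
    intro t
    refine ⟨Pi.single 0 (t / w 0), ?_⟩
    rw [ellL_apply]
    unfold ellR
    rw [Pi.single_eq_same, Pi.single_eq_of_ne (by decide), Pi.single_eq_of_ne (by decide),
      Pi.single_eq_of_ne (by decide)]
    field_simp
    ring
  have h := LinearMap.finrank_range_add_finrank_ker (ellL w N)
  rw [LinearMap.range_eq_top.mpr hs, finrank_top] at h
  simp only [Module.finrank_self, Module.finrank_fintype_fun_eq_card, Fintype.card_fin] at h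
  omega

namespace Poly

variable (P : Poly F w N)

/-- prescribed predecessor -/
def pv (e : Fin P.m) : Fin P.m := P.nx.symm e

theorem nx_pv (e : Fin P.m) : P.nx (P.pv e) = e := P.nx.apply_symm_apply e

theorem pv_ne (e : Fin P.m) : P.pv e ≠ e := fun h => P.nx_ne e (by
  have := P.nx_pv e; rw [h] at this; exact this)

/-- values of the edge functional at its two ends -/
theorem el_left (e : Fin P.m) : P.el e (F.hat (P.v e)) = 0 := mem_face.mp (P.left e)

theorem el_right (e : Fin P.m) : P.el e (F.hat (P.v (P.nx e))) = 0 := mem_face.mp (P.right e)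

theorem ell_v (e : Fin P.m) : ell w N (F.hat (P.v e)) = 0 := mem_face.mp (P.v_face e)

/-- the next edge is positive at the left end -/
theorem el_nx_pos (e : Fin P.m) : 0 < P.el (P.nx e) (F.hat (P.v e)) :=
  P.pos _ _ (P.nx_ne e).symm (P.nx_nx_ne e).symm

/-- the previous edge is positive at the right end -/
theorem el_pv_pos (e : Fin P.m) : 0 < P.el (P.pv e) (F.hat (P.v (P.nx e))) := by
  apply P.pos
  · intro h
    apply P.nx_nx_ne e
    rw [h, P.nx_pv]
  · rw [P.nx_pv]; exact P.nx_ne e

/-- the edge `e` is positive at the previous vertex -/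
theorem el_pos_pv (e : Fin P.m) : 0 < P.el e (F.hat (P.v (P.pv e))) := by
  have := P.el_nx_pos (P.pv e)
  rwa [P.nx_pv] at this

theorem elR_comb2 (e : Fin P.m) (α β : ℝ) (x y : Fin 4 → ℝ) :
    P.elR e (α • x + β • y) = α * P.elR e x + β * P.elR e y := by
  unfold Poly.elR
  rw [ellR_add, ellR_smul, ellR_smul]

theorem elR_comb3 (e : Fin P.m) (α β γ : ℝ) (x y z : Fin 4 → ℝ) :
    P.elR e (α • x + β • y + γ • z) = α * P.elR e x + β * P.elR e y + γ * P.elR e z := by
  unfold Poly.elR
  rw [ellR_add, ellR_add, ellR_smul, ellR_smul, ellR_smul]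

theorem elR_left (e : Fin P.m) : P.elR e (toR (F.hat (P.v e))) = 0 := by
  rw [P.elR_toR, P.el_left]; simp

theorem elR_right (e : Fin P.m) : P.elR e (toR (F.hat (P.v (P.nx e)))) = 0 := by
  rw [P.elR_toR, P.el_right]; simp

theorem elR_pv_self (e : Fin P.m) : P.elR (P.pv e) (toR (F.hat (P.v e))) = 0 := by
  have := P.elR_right (P.pv e)
  rwa [P.nx_pv] at this

theorem elR_hat_nonneg (e : Fin P.m) (i : Fin r) : 0 ≤ P.elR e (toR (F.hat i)) := by
  rw [P.elR_toR]; exact_mod_cast P.el_hat_nonneg e i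

theorem elR_zero (e : Fin P.m) : P.elR e 0 = 0 := by
  simp [Poly.elR, ellR]

/-- The space `ℓ_w = 0` is spanned by three consecutive vertices. -/
theorem span3 (hw : Pos3 w) (e : Fin P.m) (x : Fin 4 → ℝ) (h1 : ellR w N x = 0) :
    ∃ α β γ : ℝ, x = α • toR (F.hat (P.v (P.pv e))) + β • toR (F.hat (P.v e)) +
      γ • toR (F.hat (P.v (P.nx e))) := by
  have hker : ∀ e', toR (F.hat (P.v e')) ∈ LinearMap.ker (ellL w N) := by
    intro e'
    rw [LinearMap.mem_ker, ellL_apply, ellR_toR, P.ell_v]; simp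
  let b : Fin 3 → LinearMap.ker (ellL w N) :=
    ![⟨_, hker (P.pv e)⟩, ⟨_, hker e⟩, ⟨_, hker (P.nx e)⟩]
  have hb : LinearIndependent ℝ b := by
    rw [Fintype.linearIndependent_iff]
    intro g hg
    have hg' : g 0 • toR (F.hat (P.v (P.pv e))) + g 1 • toR (F.hat (P.v e)) +
        g 2 • toR (F.hat (P.v (P.nx e))) = 0 := by
      have := congrArg Subtype.val hg
      simpa [Fin.sum_univ_three, b] using this
    have e0 : g 0 = 0 := by
      have := congrArg (P.elR e) hg'
      rw [P.elR_comb3, P.elR_left, P.elR_right, P.elR_zero, mul_zero, mul_zero, add_zero,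
        add_zero] at this
      rcases mul_eq_zero.mp this with h | h
      · exact h
      · rw [P.elR_toR] at h
        have h' := P.el_pos_pv e
        have : P.el e (F.hat (P.v (P.pv e))) = 0 := by exact_mod_cast h
        omega
    have e2 : g 2 = 0 := by
      have := congrArg (P.elR (P.pv e)) hg'
      rw [P.elR_comb3, P.elR_left, P.elR_pv_self, P.elR_zero, mul_zero, mul_zero, zero_add,
        zero_add] at this
      rcases mul_eq_zero.mp this with h | h
      · exact h
      · rw [P.elR_toR] at h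
        have h' := P.el_pv_pos e
        have : P.el (P.pv e) (F.hat (P.v (P.nx e))) = 0 := by exact_mod_cast h
        omega
    have e1 : g 1 = 0 := by
      have := congrFun hg' 3
      simp only [Pi.add_apply, Pi.smul_apply, smul_eq_mul, toR_three, Pi.zero_apply] at this
      rw [e0, e2] at this
      linarith
    intro i
    fin_cases i
    · exact e0
    · exact e1
    · exact e2
  have hspan := hb.span_eq_top_of_card_eq_finrank (by
    rw [finrank_ker_ellL hw, Fintype.card_fin])
  have hx : (⟨x, by rw [LinearMap.mem_ker, ellL_apply]; exact h1⟩ : LinearMap.ker (ellL w N)) ∈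
      Submodule.span ℝ (Set.range b) := by rw [hspan]; exact Submodule.mem_top
  obtain ⟨g, hg⟩ := (Submodule.mem_span_range_iff_exists_fun ℝ).mp hx
  refine ⟨g 0, g 1, g 2, ?_⟩
  have := congrArg Subtype.val hg
  simp only [Fin.sum_univ_three] at this
  exact this.symm

/-- The plane `ℓ_w = ℓ_e = 0` is spanned by the two ends of the edge.
Proof: `ℓ_w` (nonzero as `w > 0`) and `ℓ_e` are linearly independent forms on `ℝ⁴` (`ℓ_e` is
positive at `v (pv e)`, where `ℓ_w = 0`), so the plane has dimension two; the two ends are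
independent (fourth coordinate one, distinct). -/
theorem span2 (hw : Pos3 w) (e : Fin P.m) (x : Fin 4 → ℝ) (h1 : ellR w N x = 0)
    (h2 : P.elR e x = 0) :
    ∃ α β : ℝ, x = α • toR (F.hat (P.v e)) + β • toR (F.hat (P.v (P.nx e))) := by
  obtain ⟨α, β, γ, h⟩ := P.span3 hw e x h1
  have h3 := h2
  rw [h, P.elR_comb3, P.elR_left, P.elR_right, mul_zero, mul_zero, add_zero, add_zero] at h3
  have hα : α = 0 := by
    rcases mul_eq_zero.mp h3 with h | h
    · exact h
    · rw [P.elR_toR] at h
      have h' := P.el_pos_pv e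
      have : P.el e (F.hat (P.v (P.pv e))) = 0 := by exact_mod_cast h
      omega
  refine ⟨β, γ, ?_⟩
  rw [h, hα, zero_smul, zero_add]

/-- Proof: `d = α v_e + β v_{nx e}` (`span2`), `elR (nx e) d = α * pos`, so `α > 0`, similarly
`β > 0`; another edge functional is `≥ 0` at both ends and not zero at both (`P.pos`: one of the
two ends is neither `v e'` nor `v (nx e')`, by injectivity). -/
theorem pp (hw : Pos3 w) (e : Fin P.m) (d : Fin 4 → ℝ) (h1 : ellR w N d = 0)
    (h2 : P.elR e d = 0) (h3 : 0 < P.elR (P.nx e) d) (h4 : 0 < P.elR (P.pv e) d) :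
    ∀ e' ≠ e, 0 < P.elR e' d := by
  obtain ⟨α, β, h⟩ := P.span2 hw e d h1 h2
  rw [h, P.elR_comb2, P.elR_left, mul_zero, add_zero] at h3
  rw [h, P.elR_comb2, P.elR_pv_self, mul_zero, zero_add] at h4
  have hα : 0 < α := by
    refine pos_of_mul_pos_left h3 (P.elR_hat_nonneg _ _)
  have hβ : 0 < β := by
    refine pos_of_mul_pos_left h4 (P.elR_hat_nonneg _ _)
  intro e' he'
  rw [h, P.elR_comb2]
  have ha := mul_nonneg hα.le (P.elR_hat_nonneg e' (P.v e))
  have hb := mul_nonneg hβ.le (P.elR_hat_nonneg e' (P.v (P.nx e)))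
  by_cases hc : e = P.nx e'
  · have hp : 0 < P.el e' (F.hat (P.v (P.nx e))) := by
      apply P.pos
      · intro h'
        apply P.nx_nx_ne e
        rw [h', ← hc]
      · intro h'
        exact he' (P.nx.injective h').symm
    have hp' : 0 < P.elR e' (toR (F.hat (P.v (P.nx e)))) := by
      rw [P.elR_toR]; exact_mod_cast hp
    have := mul_pos hβ hp'
    linarith
  · have hp : 0 < P.el e' (F.hat (P.v e)) := P.pos _ _ he'.symm hc
    have hp' : 0 < P.elR e' (toR (F.hat (P.v e))) := by
      rw [P.elR_toR]; exact_mod_cast hp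
    have := mul_pos hα hp'
    linarith

theorem mem_edge {e : Fin P.m} {i : Fin r} :
    i ∈ P.edge e ↔ ell w N (F.hat i) = 0 ∧ P.el e (F.hat i) = 0 := by
  unfold Poly.edge
  rw [Finset.mem_inter, mem_face, mem_face]
  rfl

/-- an exponent on the edge is a convex combination of the ends -/
theorem edge_conv (hw : Pos3 w) (e : Fin P.m) (i : Fin r) (hi : i ∈ P.edge e) :
    ∃ α β : ℝ, 0 ≤ α ∧ 0 ≤ β ∧ α + β = 1 ∧
      toR (F.hat i) = α • toR (F.hat (P.v e)) + β • toR (F.hat (P.v (P.nx e))) := by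
  obtain ⟨h1, h2⟩ := P.mem_edge.mp hi
  obtain ⟨α, β, h⟩ := P.span2 hw e (toR (F.hat i)) (by rw [ellR_toR, h1]; simp)
    (by rw [P.elR_toR, h2]; simp)
  refine ⟨α, β, ?_, ?_, ?_, h⟩
  · have h3 := P.elR_hat_nonneg (P.nx e) i
    rw [h, P.elR_comb2, P.elR_left, mul_zero, add_zero, P.elR_toR] at h3
    have h4 : (0 : ℝ) < (P.el (P.nx e) (F.hat (P.v e)) : ℝ) := by exact_mod_cast P.el_nx_pos e
    exact nonneg_of_mul_nonneg_left h3 h4
  · have h3 := P.elR_hat_nonneg (P.pv e) i
    rw [h, P.elR_comb2, P.elR_pv_self, mul_zero, zero_add, P.elR_toR] at h3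
    have h4 : (0 : ℝ) < (P.el (P.pv e) (F.hat (P.v (P.nx e))) : ℝ) := by
      exact_mod_cast P.el_pv_pos e
    exact nonneg_of_mul_nonneg_left h3 h4
  · have h3 := congrFun h 3
    simp only [Pi.add_apply, Pi.smul_apply, smul_eq_mul, toR_three] at h3
    linarith

/-- the only exponent on the edges `e` and `nx e` is the common vertex -/
theorem edge_nx (hw : Pos3 w) (e : Fin P.m) (i : Fin r) (hi : i ∈ P.edge e)
    (h : P.el (P.nx e) (F.hat i) = 0) : i = P.v (P.nx e) := by
  obtain ⟨α, β, hα, hβ, hs, he⟩ := P.edge_conv hw e i hi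
  have h3 : P.elR (P.nx e) (toR (F.hat i)) = 0 := by rw [P.elR_toR, h]; simp
  rw [he, P.elR_comb2, P.elR_left, mul_zero, add_zero, P.elR_toR] at h3
  have h4 : (0 : ℝ) < (P.el (P.nx e) (F.hat (P.v e)) : ℝ) := by exact_mod_cast P.el_nx_pos e
  have hα0 : α = 0 := (mul_eq_zero.mp h3).resolve_right h4.ne'
  have hβ1 : β = 1 := by linarith
  rw [hα0, hβ1, zero_smul, zero_add, one_smul] at he
  exact F.hat_injective (toR_injective he)

theorem edge_pv (hw : Pos3 w) (e : Fin P.m) (i : Fin r) (hi : i ∈ P.edge e)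
    (h : P.el (P.pv e) (F.hat i) = 0) : i = P.v e := by
  obtain ⟨α, β, hα, hβ, hs, he⟩ := P.edge_conv hw e i hi
  have h3 : P.elR (P.pv e) (toR (F.hat i)) = 0 := by rw [P.elR_toR, h]; simp
  rw [he, P.elR_comb2, P.elR_pv_self, mul_zero, zero_add, P.elR_toR] at h3
  have h4 : (0 : ℝ) < (P.el (P.pv e) (F.hat (P.v (P.nx e))) : ℝ) := by
    exact_mod_cast P.el_pv_pos e
  have hβ0 : β = 0 := (mul_eq_zero.mp h3).resolve_right h4.ne'
  have hα1 : α = 1 := by linarith
  rw [hβ0, hα1, zero_smul, add_zero, one_smul] at he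
  exact F.hat_injective (toR_injective he)

/-- two edges with a common exponent are neighbours -/
theorem edge_common (hw : Pos3 w) (e e' : Fin P.m) (hee : e' ≠ e) (i : Fin r)
    (hi : i ∈ P.edge e) (hi' : i ∈ P.edge e') :
    (e' = P.nx e ∧ i = P.v (P.nx e)) ∨ (e' = P.pv e ∧ i = P.v e) := by
  obtain ⟨α, β, hα, hβ, hs, he⟩ := P.edge_conv hw e i hi
  obtain ⟨-, h2⟩ := P.mem_edge.mp hi'
  have h3 : P.elR e' (toR (F.hat i)) = 0 := by rw [P.elR_toR, h2]; simp
  rw [he, P.elR_comb2] at h3
  have ha := mul_nonneg hα (P.elR_hat_nonneg e' (P.v e))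
  have hb := mul_nonneg hβ (P.elR_hat_nonneg e' (P.v (P.nx e)))
  have ha0 : α * P.elR e' (toR (F.hat (P.v e))) = 0 := by linarith
  have hb0 : β * P.elR e' (toR (F.hat (P.v (P.nx e)))) = 0 := by linarith
  -- vanishing at the left end
  have hl : α ≠ 0 → e' = P.pv e := by
    intro h0
    have h4 := (mul_eq_zero.mp ha0).resolve_left h0
    rw [P.elR_toR] at h4
    have h5 : P.el e' (F.hat (P.v e)) = 0 := by exact_mod_cast h4
    by_contra hne
    have : 0 < P.el e' (F.hat (P.v e)) := by
      apply P.pos _ _ hee.symm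
      intro h6
      apply hne
      unfold pv
      rw [h6, Equiv.symm_apply_apply]
    omega
  have hr : β ≠ 0 → e' = P.nx e := by
    intro h0
    have h4 := (mul_eq_zero.mp hb0).resolve_left h0
    rw [P.elR_toR] at h4
    have h5 : P.el e' (F.hat (P.v (P.nx e))) = 0 := by exact_mod_cast h4
    by_contra hne
    have : 0 < P.el e' (F.hat (P.v (P.nx e))) := by
      apply P.pos _ _ (Ne.symm hne)
      intro h6
      exact hee (P.nx.injective h6).symm
    omega
  by_cases hα0 : α = 0
  · left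
    have hβ1 : β = 1 := by linarith
    refine ⟨hr (by rw [hβ1]; exact one_ne_zero), ?_⟩
    rw [hα0, hβ1, zero_smul, zero_add, one_smul] at he
    exact F.hat_injective (toR_injective he)
  · right
    have hpv := hl hα0
    refine ⟨hpv, ?_⟩
    have hβ0 : β = 0 := by
      by_contra hβ0
      have hnx := hr hβ0
      apply P.nx_nx_ne e
      rw [← hnx, hpv, P.nx_pv]
    have hα1 : α = 1 := by linarith
    rw [hβ0, hα1, zero_smul, add_zero, one_smul] at he
    exact F.hat_injective (toR_injective he)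

/-- an interior vector: the sum of the vertices -/
theorem exists_interior : ∃ q : Fin 4 → ℝ, ellR w N q = 0 ∧ ∀ e, 0 < P.elR e q := by
  refine ⟨∑ e, (1 : ℝ) • toR (F.hat (P.v e)), ?_, fun e => ?_⟩
  · rw [ellR_sum]
    refine Finset.sum_eq_zero fun e _ => ?_
    rw [ellR_toR, P.ell_v]; simp
  · unfold Poly.elR
    rw [ellR_sum]
    refine Finset.sum_pos' (fun e' _ => ?_) ⟨P.pv e, Finset.mem_univ _, ?_⟩
    · rw [one_mul]; exact P.elR_hat_nonneg e (P.v e')
    · rw [one_mul, ellR_toR]
      exact_mod_cast P.el_pos_pv e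

/-- Degree is nonnegative on the cone: lower bound of the degree on `M`.
Proof: `toR p - p0` lies in the cone (`P.cone`), and all generators have fourth coordinate one. -/
theorem deg_le {κ : ℤ} {p0 : Fin 4 → ℝ} (hp0 : ellR w N p0 = κ) {p : Pt} (hp : p ∈ P.M κ p0) :
    p0 3 ≤ (p 3 : ℝ) := by
  obtain ⟨c, hc, hx⟩ := P.cone (toR p - p0) (by
    rw [ellR_sub, ellR_toR, hp0, hp.1]; simp) (fun e => by
    have h1 := hp.2 e
    rw [ellR_sub, ellR_toR]
    have h2 : P.elR e p0 ≤ (P.el e p : ℝ) := h1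
    unfold Poly.elR Poly.el at h2
    linarith)
  have h3 := congrFun hx 3
  rw [Finset.sum_apply] at h3
  simp only [Pi.sub_apply, Pi.smul_apply, smul_eq_mul, toR_three, mul_one] at h3
  have h4 : (0 : ℝ) ≤ ∑ e, c e := Finset.sum_nonneg fun e _ => hc e
  have h5 : toR p 3 = (p 3 : ℝ) := rfl
  rw [h5] at h3
  linarith

/-- Every finitely supported chain on a slice lies in some `M`.
Proof: start from a real point of the slice (`κ / w_0` in the first coordinate) and subtract a
large multiple of the interior vector. -/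
theorem exists_M (hw : Pos3 w) {ι : Type*} [Fintype ι] (κ : ℤ) (y : ι → LL)
    (hy : ∀ j, SuppIn (slice w N κ) (y j)) :
    ∃ p0 : Fin 4 → ℝ, ellR w N p0 = κ ∧ ∀ j, SuppIn (P.M κ p0) (y j) := by
  classical
  obtain ⟨q, hq, hqe⟩ := P.exists_interior
  have hw0 : (w 0 : ℝ) ≠ 0 := by exact_mod_cast (hw 0).ne'
  let x0 : Fin 4 → ℝ := Pi.single 0 ((κ : ℝ) / w 0)
  have hx0 : ellR w N x0 = κ := by
    unfold ellR
    simp only [x0]
    rw [Pi.single_eq_same, Pi.single_eq_of_ne (by decide), Pi.single_eq_of_ne (by decide),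
      Pi.single_eq_of_ne (by decide)]
    field_simp
    ring
  let S : Finset (ι × Pt × Fin P.m) :=
    (Finset.univ : Finset ι).biUnion fun j =>
      ((cf_finite (y j)).toFinset ×ˢ (Finset.univ : Finset (Fin P.m))).image fun z => (j, z)
  obtain ⟨t, ht⟩ := (S.finite_toSet.image
    (fun z => (P.elR z.2.2 x0 - P.el z.2.2 z.2.1) / P.elR z.2.2 q)).bddAbove
  refine ⟨x0 - t • q, ?_, fun j p hp => ?_⟩
  · rw [ellR_sub, ellR_smul, hx0, hq]; ring
  · refine ⟨hy j p hp, fun e => ?_⟩
    have hmem : (j, p, e) ∈ S := by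
      simp only [S, Finset.mem_biUnion, Finset.mem_image, Finset.mem_product]
      refine ⟨j, Finset.mem_univ _, (p, e), ⟨?_, Finset.mem_univ _⟩, rfl⟩
      exact (Set.Finite.mem_toFinset _).mpr hp
    have h1 := ht ⟨(j, p, e), hmem, rfl⟩
    simp only at h1
    rw [div_le_iff₀ (hqe e)] at h1
    have h2 : P.elR e (x0 - t • q) = P.elR e x0 - t * P.elR e q := by
      unfold Poly.elR
      rw [ellR_sub, ellR_smul]
    rw [h2]
    linarith

end Poly

end Pool.Agent.H37.SM
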