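import Mathlib

/-! Module PTP: one-variable division. -/

set_option autoImplicit false

namespace Pool.Agent.H37.SM

open Finset

/-- the case `deg β = L` -/
theorem poly_div_aux (α β : Polynomial ℂ) (L n : ℕ) (hco : IsCoprime α β) (hα : α.natDegree ≤ L)
    (hL : β.natDegree = L) (hβ0 : β ≠ 0)
    (hn : L ≤ n) (h : Polynomial ℂ) (hh : h.degree < (n + L : ℕ)) :
    ∃ y z : Polynomial ℂ, y.degree < n ∧ z.degree < n ∧ h = α * y + β * z := by
  obtain ⟨u, v, huv⟩ := hco
  set A := h * u with hA
  have hdβ : β.degree = (L : ℕ) := by rw [Polynomial.degree_eq_natDegree hβ0, hL]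
  have hmod : (A % β).degree < (L : ℕ) := by
    rw [← hdβ]; exact Polynomial.degree_mod_lt A hβ0
  have hy : (A % β).degree < (n : ℕ) := lt_of_lt_of_le hmod (by exact_mod_cast hn)
  refine ⟨A % β, h * v + α * (A / β), hy, ?_, ?_⟩
  · have hid : h = α * (A % β) + β * (h * v + α * (A / β)) := by
      have h1 := EuclideanDomain.mod_add_div A β
      have : α * (A % β) + β * (h * v + α * (A / β)) = α * (A % β + β * (A / β)) + β * h * v := by
        ring
      rw [this, h1, hA]
      linear_combination (-h) * huv
    set z := h * v + α * (A / β) with hz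
    have hβz : (β * z).degree < (n + L : ℕ) := by
      have e1 : β * z = h - α * (A % β) := by rw [eq_sub_iff_add_eq, add_comm]; exact hid.symm
      rw [e1]
      refine lt_of_le_of_lt (Polynomial.degree_sub_le _ _) (max_lt hh ?_)
      by_cases hy0 : A % β = 0
      · rw [hy0, mul_zero, Polynomial.degree_zero]
        exact WithBot.bot_lt_coe _
      · refine lt_of_le_of_lt (Polynomial.degree_mul_le _ _) ?_
        have h2 : α.degree ≤ (L : ℕ) := Polynomial.degree_le_of_natDegree_le hα
        have h3 : (A % β).degree = ((A % β).natDegree : ℕ) := Polynomial.degree_eq_natDegree hy0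
        have h4 : (A % β).natDegree < n := by
          rw [h3] at hy; exact_mod_cast hy
        calc α.degree + (A % β).degree ≤ (L : ℕ) + ((A % β).natDegree : ℕ) := by
              rw [h3]; exact add_le_add h2 le_rfl
          _ < ((n + L : ℕ) : WithBot ℕ) := by
              norm_cast; omega
    by_cases hz0 : z = 0
    · rw [hz0, Polynomial.degree_zero]; exact WithBot.bot_lt_coe _
    · rw [Polynomial.degree_mul, hdβ, Polynomial.degree_eq_natDegree hz0] at hβz
      rw [Polynomial.degree_eq_natDegree hz0]
      have : L + z.natDegree < n + L := by exact_mod_cast hβz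
      have : z.natDegree < n := by omega
      exact_mod_cast this
  · have h1 := EuclideanDomain.mod_add_div A β
    have : α * (A % β) + β * (h * v + α * (A / β)) = α * (A % β + β * (A / β)) + β * h * v := by
      ring
    rw [this, h1, hA]
    linear_combination (-h) * huv

/-- one-variable division: coprime `α`, `β` of degree `≤ L`, one of them of degree `L`, `n ≥ L`.
Proof: write `h = α A + β B`; say `β` has degree `L` (else exchange); `A = β q + y`, `deg y < L ≤ n`;
`h - α y = β (B + α q)` has degree `< n + L`, so `B + α q` has degree `< n`. -/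
theorem poly_div (α β : Polynomial ℂ) (L n : ℕ) (hco : IsCoprime α β) (hα : α.natDegree ≤ L)
    (hβ : β.natDegree ≤ L) (hL : α.natDegree = L ∨ β.natDegree = L) (hα0 : α ≠ 0) (hβ0 : β ≠ 0)
    (hn : L ≤ n) (h : Polynomial ℂ) (hh : h.degree < (n + L : ℕ)) :
    ∃ y z : Polynomial ℂ, y.degree < n ∧ z.degree < n ∧ h = α * y + β * z := by
  rcases hL with hL | hL
  · obtain ⟨y, z, hy, hz, h1⟩ := poly_div_aux β α L n hco.symm hβ hL hα0 hn h hh
    exact ⟨z, y, hz, hy, by rw [h1]; ring⟩
  · exact poly_div_aux α β L n hco hα hL hβ0 hn h hh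

end Pool.Agent.H37.SM
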