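import Pool.Agent.H37.SM.PTV
import Pool.Agent.H37.SM.PTP

/-! Module PTL: division on the line next to an edge. -/

set_option autoImplicit false

namespace Pool.Agent.H37.SM

open Finset

variable {r : ℕ} {F : Dat r} {w : Fin 3 → ℤ} {N : ℤ}

lemma PTL_cases : ∀ j k l i : Fin 3, j ≠ k → j ≠ l → k ≠ l → i = j ∨ i = k ∨ i = l := by
  decide

lemma PTL_sum3 (f : Fin 3 → ℤ) : ∀ j k l : Fin 3, j ≠ k → j ≠ l → k ≠ l →
    f 0 + f 1 + f 2 = f j + f k + f l := by
  intro j k l h1 h2 h3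
  fin_cases j <;> fin_cases k <;> fin_cases l <;>
    first
      | exact absurd rfl h1
      | exact absurd rfl h2
      | exact absurd rfl h3
      | (simp only [Fin.zero_eta, Fin.mk_one, Fin.reduceFinMk] <;> ring)

lemma PTL_ell (w : Fin 3 → ℤ) (N : ℤ) {j k l : Fin 3} (hjk : j ≠ k) (hjl : j ≠ l) (hkl : k ≠ l)
    (p : Pt) : ell w N p = w j * p j.castSucc + w k * p k.castSucc + w l * p l.castSucc
      - N * p 3 := by
  have h := PTL_sum3 (fun i => w i * p i.castSucc) j k l hjk hjl hkl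
  rw [← h]
  rfl

lemma PTL_ext {j k l : Fin 3} (hjk : j ≠ k) (hjl : j ≠ l) (hkl : k ≠ l) {p q : Pt}
    (hj : p j.castSucc = q j.castSucc) (hk : p k.castSucc = q k.castSucc)
    (hl : p l.castSucc = q l.castSucc) (h3 : p 3 = q 3) : p = q := by
  funext i
  refine Fin.lastCases ?_ (fun i' => ?_) i
  · exact h3
  · rcases PTL_cases j k l i' hjk hjl hkl with rfl | rfl | rfl
    · exact hj
    · exact hk
    · exact hl

lemma PTL_ell_smul (w : Fin 3 → ℤ) (N : ℤ) (t : ℤ) (p : Pt) :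
    ell w N (t • p) = t * ell w N p := by
  simp only [ell, Pi.smul_apply, smul_eq_mul]; ring

/-- the primitive direction of the line -/
lemma PTL_dir (w : Fin 3 → ℤ) (N : ℤ) (hw : Pos3 w) {j k l : Fin 3} (hjk : j ≠ k) (hjl : j ≠ l)
    (hkl : k ≠ l) (d : Pt) (hd : d ≠ 0) (hd3 : d 3 = 0) (hdj : d j.castSucc = 0)
    (hdw : ell w N d = 0) :
    ∃ (ρ : Pt) (L mk ml : ℤ), 0 < L ∧ d = L • ρ ∧ ρ 3 = 0 ∧ ρ j.castSucc = 0 ∧
      mk * ρ k.castSucc + ml * ρ l.castSucc = 1 ∧
      ∀ Δ : Pt, Δ 3 = 0 → Δ j.castSucc = 0 → ell w N Δ = 0 → ∃ t : ℤ, Δ = t • ρ := by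
  set g : ℤ := (Int.gcd (d k.castSucc) (d l.castSucc) : ℤ) with hg
  have hgpos : 0 < g := by
    rw [hg]
    have : Int.gcd (d k.castSucc) (d l.castSucc) ≠ 0 := by
      intro h0
      rw [Int.gcd_eq_zero_iff] at h0
      apply hd
      exact PTL_ext hjk hjl hkl hdj h0.1 h0.2 hd3
    exact_mod_cast Nat.pos_of_ne_zero this
  obtain ⟨rk, hrk⟩ : g ∣ d k.castSucc := Int.gcd_dvd_left _ _
  obtain ⟨rl, hrl⟩ : g ∣ d l.castSucc := Int.gcd_dvd_right _ _
  have hbez : Int.gcdA (d k.castSucc) (d l.castSucc) * rk +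
      Int.gcdB (d k.castSucc) (d l.castSucc) * rl = 1 := by
    have h := Int.gcd_eq_gcd_ab (d k.castSucc) (d l.castSucc)
    rw [← hg] at h
    apply mul_left_cancel₀ hgpos.ne'
    calc g * (Int.gcdA (d k.castSucc) (d l.castSucc) * rk +
        Int.gcdB (d k.castSucc) (d l.castSucc) * rl)
        = (g * rk) * Int.gcdA (d k.castSucc) (d l.castSucc) +
          (g * rl) * Int.gcdB (d k.castSucc) (d l.castSucc) := by ring
      _ = g * 1 := by rw [← hrk, ← hrl, ← h, mul_one]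
  let ρ : Pt := fun i => if i = k.castSucc then rk else if i = l.castSucc then rl else 0
  have hcs : ∀ a b : Fin 3, a ≠ b → a.castSucc ≠ b.castSucc := fun a b h h' =>
    h (Fin.castSucc_injective _ h')
  have h3cs : ∀ a : Fin 3, (3 : Fin 4) ≠ a.castSucc := by decide
  have hk3 : (3 : Fin 4) ≠ k.castSucc := h3cs k
  have hl3 : (3 : Fin 4) ≠ l.castSucc := h3cs l
  have hρk : ρ k.castSucc = rk := by simp [ρ]
  have hρl : ρ l.castSucc = rl := by simp [ρ, hcs l k hkl.symm]
  have hρj : ρ j.castSucc = 0 := by simp [ρ, hcs j k hjk, hcs j l hjl]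
  have hρ3 : ρ 3 = 0 := by simp [ρ, hk3, hl3]
  have hdρ : d = g • ρ := by
    apply PTL_ext hjk hjl hkl
    · rw [Pi.smul_apply, hρj, smul_zero, hdj]
    · rw [Pi.smul_apply, hρk, smul_eq_mul, hrk]
    · rw [Pi.smul_apply, hρl, smul_eq_mul, hrl]
    · rw [Pi.smul_apply, hρ3, smul_zero, hd3]
  have hρw : ell w N ρ = 0 := by
    rw [hdρ, PTL_ell_smul] at hdw
    rcases mul_eq_zero.mp hdw with h | h
    · exact absurd h hgpos.ne'
    · exact h
  refine ⟨ρ, g, Int.gcdA (d k.castSucc) (d l.castSucc), Int.gcdB (d k.castSucc) (d l.castSucc),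
    hgpos, hdρ, hρ3, hρj, by rw [hρk, hρl]; exact hbez, ?_⟩
  intro Δ h3 hj hΔ
  rw [PTL_ell w N hjk hjl hkl, hj, h3] at hΔ
  rw [PTL_ell w N hjk hjl hkl, hρj, hρ3, hρk, hρl] at hρw
  have hwk : w k ≠ 0 := (hw k).ne'
  have hx : Δ k.castSucc * rl = Δ l.castSucc * rk := by
    apply mul_left_cancel₀ hwk
    linear_combination rl * hΔ - Δ l.castSucc * hρw
  refine ⟨Int.gcdA (d k.castSucc) (d l.castSucc) * Δ k.castSucc +
    Int.gcdB (d k.castSucc) (d l.castSucc) * Δ l.castSucc, ?_⟩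
  apply PTL_ext hjk hjl hkl
  · rw [Pi.smul_apply, hρj, smul_zero, hj]
  · rw [Pi.smul_apply, hρk, smul_eq_mul]
    linear_combination (-(Δ k.castSucc)) * hbez +
      Int.gcdB (d k.castSucc) (d l.castSucc) * hx
  · rw [Pi.smul_apply, hρl, smul_eq_mul]
    linear_combination (-(Δ l.castSucc)) * hbez -
      Int.gcdA (d k.castSucc) (d l.castSucc) * hx
  · rw [Pi.smul_apply, hρ3, smul_zero, h3]

/-- convexity of `om` along a line -/
lemma PTL_conv (P : Poly F w N) (d : ℤ) (p ρ : Pt) (hρ3 : ρ 3 = 0) (hρw : ell w N ρ = 0)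
    {s t u : ℤ} (hs : p + s • ρ ∈ P.om d) (hu : p + u • ρ ∈ P.om d) (hst : s ≤ t) (htu : t ≤ u) :
    p + t • ρ ∈ P.om d := by
  obtain ⟨h1, h2, h3⟩ := hs
  obtain ⟨-, -, h3'⟩ := hu
  refine ⟨?_, ?_, ?_⟩
  · rw [ell_add, PTL_ell_smul, hρw, mul_zero] at h1 ⊢
    exact h1
  · rw [Pi.add_apply, Pi.smul_apply, hρ3, smul_zero] at h2 ⊢
    exact h2
  · intro e
    have a1 := h3 e
    have a2 := h3' e
    unfold Poly.el at a1 a2 ⊢
    rw [ell_add, PTL_ell_smul] at a1 a2 ⊢
    rcases le_total 0 (ell (P.ew e) (P.eN e) ρ) with h | h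
    · nlinarith
    · nlinarith

lemma PTL_phi (ρ : Pt) (z : ℂ) (n : ℕ) :
    Polynomial.aeval (mono ρ) (Polynomial.C z * Polynomial.X ^ n) =
      AddMonoidAlgebra.single ((n : ℤ) • ρ) z := by
  rw [map_mul, Polynomial.aeval_C, map_pow, Polynomial.aeval_X, ← Algebra.smul_def]
  unfold mono
  rw [AddMonoidAlgebra.single_pow, one_pow]
  apply ext_cf
  intro p
  rw [cf_smul, cf_single, cf_single, natCast_zsmul]
  split_ifs <;> simp

lemma PTL_supp (X : Set Pt) (base ρ : Pt) (n : ℕ) (y : Polynomial ℂ) (hy : y.degree < n)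
    (h : ∀ t : ℕ, t < n → base + (t : ℤ) • ρ ∈ X) :
    SuppIn X (mono base * Polynomial.aeval (mono ρ) y) := by
  rw [Polynomial.as_sum_support_C_mul_X_pow y, map_sum, Finset.mul_sum]
  apply SuppIn.sum
  intro t ht
  have htn : t < n := by
    have h1 : (t : WithBot ℕ) ≤ y.degree := Polynomial.le_degree_of_mem_supp t ht
    exact_mod_cast lt_of_le_of_lt h1 hy
  rw [PTL_phi]
  intro p hp
  rw [cf_mono_mul, cf_single] at hp
  by_cases hpt : p - base = (t : ℤ) • ρ
  · have : p = base + (t : ℤ) • ρ := by rw [← hpt]; abel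
    rw [this]; exact h t htn
  · rw [if_neg hpt] at hp; exact absurd rfl hp

/-- the edge polynomial in the variable `z` -/
noncomputable def PTL_A (F : Dat r) (B : Finset (Fin r)) (τ : Fin r → ℕ) (c : Fin 3) :
    Polynomial ℂ :=
  ∑ i ∈ B, Polynomial.C (F.κ i * (F.a i c : ℂ)) * Polynomial.X ^ (τ i)

lemma PTL_E (F : Dat r) (B : Finset (Fin r)) (τ : Fin r → ℕ) (a1 ρ : Pt)
    (hτ : ∀ i ∈ B, F.hat i = a1 + (τ i : ℤ) • ρ) (c : Fin 3) :
    E F B (c3 c) = mono a1 * Polynomial.aeval (mono ρ) (PTL_A F B τ c) := by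
  unfold PTL_A
  rw [map_sum, Finset.mul_sum]
  unfold E
  refine Finset.sum_congr rfl fun i hi => ?_
  rw [PTL_phi, lin_c3_hat]
  apply ext_cf
  intro p
  rw [cf_mono_mul, cf_single, cf_single]
  have : p = F.hat i ↔ p - a1 = (τ i : ℤ) • ρ := by
    rw [hτ i hi]
    constructor
    · rintro rfl; abel
    · intro h; rw [← h]; abel
  by_cases hp : p = F.hat i
  · rw [if_pos hp, if_pos (this.mp hp)]
  · rw [if_neg hp, if_neg (fun h => hp (this.mpr h))]

lemma PTL_A_coeff (F : Dat r) (B : Finset (Fin r)) (τ : Fin r → ℕ) (c : Fin 3)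
    (hinj : ∀ i ∈ B, ∀ i' ∈ B, τ i = τ i' → i = i') (i : Fin r) (hi : i ∈ B) :
    (PTL_A F B τ c).coeff (τ i) = F.κ i * (F.a i c : ℂ) := by
  unfold PTL_A
  rw [Polynomial.finsetSum_coeff, Finset.sum_eq_single i]
  · rw [Polynomial.coeff_C_mul_X_pow, if_pos rfl]
  · intro i' hi' hne
    rw [Polynomial.coeff_C_mul_X_pow, if_neg]
    intro h
    exact hne (hinj i hi i' hi' h).symm
  · intro h; exact absurd hi h

lemma PTL_A_deg (F : Dat r) (B : Finset (Fin r)) (τ : Fin r → ℕ) (c : Fin 3) (L : ℕ)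
    (h : ∀ i ∈ B, τ i ≤ L) : (PTL_A F B τ c).natDegree ≤ L := by
  unfold PTL_A
  apply Polynomial.natDegree_sum_le_of_forall_le
  intro i hi
  exact (Polynomial.natDegree_C_mul_X_pow_le _ _).trans (h i hi)

lemma PTL_A_eval (F : Dat r) (B : Finset (Fin r)) (τ : Fin r → ℕ) (c : Fin 3) (z : ℂ) :
    Polynomial.aeval z (PTL_A F B τ c) = ∑ i ∈ B, F.κ i * (F.a i c : ℂ) * z ^ (τ i) := by
  unfold PTL_A
  simp only [map_sum, map_mul, Polynomial.aeval_C, Algebra.algebraMap_self, RingHom.id_apply,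
    map_pow, Polynomial.aeval_X]

/-- the coprimality of the two edge polynomials -/
lemma PTL_coprime (F : Dat r) (B : Finset (Fin r)) (w : Fin 3 → ℤ) (N : ℤ) (hN : 0 < N)
    (τ : Fin r → ℕ) {j k l : Fin 3} (hjk : j ≠ k) (hjl : j ≠ l) (hkl : k ≠ l)
    (hinj : ∀ i ∈ B, ∀ i' ∈ B, τ i = τ i' → i = i') (v : Fin r) (hv : v ∈ B) (hv0 : τ v = 0)
    (hell : ∀ i ∈ B, ell w N (F.hat i) = 0) (hj0 : ∀ i ∈ B, F.a i j = 0) (ρ : Pt) (mk ml : ℤ)
    (hbez : mk * ρ k.castSucc + ml * ρ l.castSucc = 1)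
    (hτ : ∀ i ∈ B, F.hat i = F.hat v + (τ i : ℤ) • ρ) (hnd : NonDeg F B) :
    IsCoprime (PTL_A F B τ k) (PTL_A F B τ l) := by
  have hval : ∀ i ∈ B, (w k : ℂ) * (F.a i k : ℂ) + (w l : ℂ) * (F.a i l : ℂ) = (N : ℂ) := by
    intro i hi
    have h := hell i hi
    rw [PTL_ell w N hjk hjl hkl, F.hat_castSucc, F.hat_castSucc, F.hat_castSucc, hj0 i hi,
      F.hat_three] at h
    have h' : w k * F.a i k + w l * F.a i l = N := by linarith
    exact_mod_cast h'
  have hNC : (N : ℂ) ≠ 0 := by exact_mod_cast hN.ne'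
  rw [Polynomial.isCoprime_iff_aeval_ne_zero_of_isAlgClosed (K := ℂ) (k := ℂ)]
  intro z
  by_contra hcon
  push Not at hcon
  obtain ⟨hk, hl⟩ := hcon
  rw [PTL_A_eval] at hk hl
  have hsumval : ∑ i ∈ B, F.κ i * z ^ (τ i) = 0 := by
    have h1 : (N : ℂ) * ∑ i ∈ B, F.κ i * z ^ (τ i) = 0 := by
      calc (N : ℂ) * ∑ i ∈ B, F.κ i * z ^ (τ i)
          = (w k : ℂ) * (∑ i ∈ B, F.κ i * (F.a i k : ℂ) * z ^ (τ i)) +
            (w l : ℂ) * (∑ i ∈ B, F.κ i * (F.a i l : ℂ) * z ^ (τ i)) := by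
            rw [Finset.mul_sum, Finset.mul_sum, Finset.mul_sum, ← Finset.sum_add_distrib]
            refine Finset.sum_congr rfl fun i hi => ?_
            rw [← hval i hi]; ring
        _ = 0 := by rw [hk, hl]; ring
    rcases mul_eq_zero.mp h1 with h | h
    · exact absurd h hNC
    · exact h
  by_cases hz : z = 0
  · -- only the exponent `v` contributes
    have hone : ∀ f : Fin r → ℂ, ∑ i ∈ B, f i * z ^ (τ i) = f v := by
      intro f
      rw [Finset.sum_eq_single v]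
      · rw [hv0, pow_zero, mul_one]
      · intro i hi hne
        have : τ i ≠ 0 := by
          intro h0
          exact hne (hinj i hi v hv (h0.trans hv0.symm))
        rw [hz, zero_pow this, mul_zero]
      · intro h; exact absurd hv h
    rw [hone] at hsumval
    exact F.κ_ne v hsumval
  · -- a singular zero of the edge part
    let x : Fin 3 → ℂ := fun i => if i = k then z ^ mk else if i = l then z ^ ml else 1
    have hxj : x j = 1 := by simp [x, hjk, hjl]
    have hxk : x k = z ^ mk := by simp [x]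
    have hxl : x l = z ^ ml := by simp [x, hkl.symm]
    have hx0 : ∀ i, x i ≠ 0 := by
      intro i
      simp only [x]
      split_ifs
      · exact zpow_ne_zero _ hz
      · exact zpow_ne_zero _ hz
      · exact one_ne_zero
    have hprod : ∀ i, ∏ c, x c ^ (F.a i c) = z ^ (mk * F.a i k + ml * F.a i l) := by
      intro i
      have h1 : ∏ c, x c ^ (F.a i c) = x j ^ (F.a i j) * (x k ^ (F.a i k) * x l ^ (F.a i l)) := by
        have hu : (univ : Finset (Fin 3)) = {j, k, l} := by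
          ext c
          simp only [mem_univ, mem_insert, mem_singleton, true_iff]
          exact PTL_cases j k l c hjk hjl hkl
        rw [hu, Finset.prod_insert (by simp [hjk, hjl]), Finset.prod_insert (by simp [hkl]),
          Finset.prod_singleton]
      rw [h1, hxj, one_zpow, one_mul, hxk, hxl, ← zpow_mul, ← zpow_mul, zpow_add₀ hz]
    have hexp : ∀ i ∈ B, ∏ c, x c ^ (F.a i c) =
        z ^ (mk * F.a v k + ml * F.a v l) * z ^ (τ i) := by
      intro i hi
      rw [hprod, ← zpow_natCast, ← zpow_add₀ hz]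
      congr 1
      have h1 := congrFun (hτ i hi) k.castSucc
      have h2 := congrFun (hτ i hi) l.castSucc
      rw [Pi.add_apply, Pi.smul_apply, F.hat_castSucc, F.hat_castSucc, smul_eq_mul] at h1 h2
      rw [h1, h2]
      linear_combination (τ i : ℤ) * hbez
    apply hnd x hx0
    have hgen : ∀ f : Fin r → ℂ, (∑ i ∈ B, f i * z ^ (τ i)) = 0 →
        ∑ i ∈ B, f i * ∏ c, x c ^ (F.a i c) = 0 := by
      intro f hf
      have : ∑ i ∈ B, f i * ∏ c, x c ^ (F.a i c) =
          z ^ (mk * F.a v k + ml * F.a v l) * ∑ i ∈ B, f i * z ^ (τ i) := by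
        rw [Finset.mul_sum]
        refine Finset.sum_congr rfl fun i hi => ?_
        rw [hexp i hi]; ring
      rw [this, hf, mul_zero]
    refine ⟨hgen _ hsumval, ?_⟩
    intro c
    rcases PTL_cases j k l c hjk hjl hkl with rfl | rfl | rfl
    · refine Finset.sum_eq_zero fun i hi => ?_
      rw [hj0 i hi]; simp
    · exact hgen _ hk
    · exact hgen _ hl

/-- Division on the line `{p_j = 1}` next to the edge `e = {a_j = 0}`. The integral points of
`ℓ_w = 0`, degree `d`, `p_j = 1` differ by multiples of a primitive vector `ρ`; the points in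
`om 2` form an interval of `n ≥ L` points, `L` the lattice length of the edge; the two edge
polynomials are coprime of degree `≤ L`; conclude by `poly_div`. -/
theorem line_div (P : Poly F w N) (hw : Pos3 w) (hN : 0 < N) (hB : ¬ IsB1 F w N) (j k l : Fin 3)
    (hjk : j ≠ k) (hjl : j ≠ l) (hkl : k ≠ l) (e : Fin P.m)
    (hz : ∀ i ∈ F.face w N, F.a i j = 0 ↔ i ∈ P.edge e) (hnd : NonDeg F (P.edge e)) (μ : Pt)
    (hμ : μ ∈ P.om 3) (h1 : μ j.castSucc = 1) :
    ∃ y z : LL, SuppIn (P.om 2 ∩ {p | p j.castSucc = 1}) y ∧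
      SuppIn (P.om 2 ∩ {p | p j.castSucc = 1}) z ∧
      mono μ = E F (P.edge e) (c3 k) * y + E F (P.edge e) (c3 l) * z := by
  classical
  have hv1 : P.v e ∈ P.edge e := Finset.mem_inter.mpr ⟨P.v_face e, P.left e⟩
  have hv2 : P.v (P.nx e) ∈ P.edge e := Finset.mem_inter.mpr ⟨P.v_face _, P.right e⟩
  have hface : ∀ i ∈ P.edge e, i ∈ F.face w N := fun i hi => (Finset.mem_inter.mp hi).1
  have hj0 : ∀ i ∈ P.edge e, F.a i j = 0 := fun i hi => (hz i (hface i hi)).mpr hi
  have hellw : ∀ i ∈ P.edge e, ell w N (F.hat i) = 0 := fun i hi => mem_face.mp (hface i hi)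
  have hd0 : F.hat (P.v (P.nx e)) - F.hat (P.v e) ≠ 0 := by
    intro h
    exact P.nx_ne e (P.v_inj (F.hat_injective (sub_eq_zero.mp h)))
  obtain ⟨ρ, L, mk, ml, hL, hdL, hρ3, hρj, hbez, hspan⟩ := PTL_dir w N hw hjk hjl hkl
    (F.hat (P.v (P.nx e)) - F.hat (P.v e)) hd0
    (by rw [Pi.sub_apply, F.hat_three, F.hat_three, sub_self])
    (by rw [Pi.sub_apply, F.hat_castSucc, F.hat_castSucc, hj0 _ hv1, hj0 _ hv2, sub_self])
    (by rw [ell_sub, hellw _ hv1, hellw _ hv2, sub_self])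
  have hρw : ell w N ρ = 0 := by
    have h : ell w N (L • ρ) = 0 := by rw [← hdL, ell_sub, hellw _ hv1, hellw _ hv2, sub_self]
    rw [PTL_ell_smul] at h
    rcases mul_eq_zero.mp h with h | h
    · exact absurd h hL.ne'
    · exact h
  have hels : ∀ (e' : Fin P.m) (t : ℤ) (p : Pt), P.el e' (t • p) = t * P.el e' p :=
    fun e' t p => PTL_ell_smul _ _ _ _
  have hLn : P.el (P.nx e) ρ < 0 := by
    have h : L * P.el (P.nx e) ρ = P.el (P.nx e) (F.hat (P.v (P.nx e))) -
        P.el (P.nx e) (F.hat (P.v e)) := by rw [← hels, ← hdL, P.el_sub]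
    rw [P.el_left] at h
    have h' := P.el_nx_pos e
    nlinarith
  have hLp : 0 < P.el (P.pv e) ρ := by
    have h : L * P.el (P.pv e) ρ = P.el (P.pv e) (F.hat (P.v (P.nx e))) -
        P.el (P.pv e) (F.hat (P.v e)) := by rw [← hels, ← hdL, P.el_sub]
    have h2 : P.el (P.pv e) (F.hat (P.v e)) = 0 := by
      have := P.el_right (P.pv e)
      rwa [P.nx_pv] at this
    rw [h2] at h
    have h' := P.el_pv_pos e
    nlinarith
  have ha2 : F.hat (P.v (P.nx e)) = F.hat (P.v e) + L • ρ := by rw [← hdL]; abel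
  -- the positions of the exponents on the edge
  have hτ' : ∀ i, ∃ n : ℕ, i ∈ P.edge e → (n : ℤ) ≤ L ∧
      F.hat i = F.hat (P.v e) + (n : ℤ) • ρ := by
    intro i
    by_cases hi : i ∈ P.edge e
    · obtain ⟨t, ht⟩ := hspan (F.hat i - F.hat (P.v e))
        (by rw [Pi.sub_apply, F.hat_three, F.hat_three, sub_self])
        (by rw [Pi.sub_apply, F.hat_castSucc, F.hat_castSucc, hj0 _ hv1, hj0 _ hi, sub_self])
        (by rw [ell_sub, hellw _ hv1, hellw _ hi, sub_self])
      have hit : F.hat i = F.hat (P.v e) + t • ρ := by rw [← ht]; abel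
      have ht0 : 0 ≤ t := by
        have h := P.el_hat_nonneg (P.pv e) i
        have h2 : P.el (P.pv e) (F.hat (P.v e)) = 0 := by
          have := P.el_right (P.pv e)
          rwa [P.nx_pv] at this
        rw [hit, P.el_add, hels, h2, zero_add] at h
        by_contra hneg
        push Not at hneg
        nlinarith
      have htL : t ≤ L := by
        have h := P.el_hat_nonneg (P.nx e) i
        have h2 := P.el_left (P.nx e)
        rw [ha2, P.el_add, hels] at h2
        rw [hit, P.el_add, hels] at h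
        by_contra hneg
        push Not at hneg
        nlinarith
      refine ⟨t.toNat, fun _ => ?_⟩
      rw [Int.toNat_of_nonneg ht0]
      exact ⟨htL, hit⟩
    · exact ⟨0, fun h => absurd h hi⟩
  choose τ hτ using hτ'
  have hρ0 : ρ ≠ 0 := by
    intro h
    rw [h, smul_zero] at hdL
    exact hd0 hdL
  have hinj : ∀ i ∈ P.edge e, ∀ i' ∈ P.edge e, τ i = τ i' → i = i' := by
    intro i hi i' hi' h
    apply F.hat_injective
    rw [(hτ i hi).2, (hτ i' hi').2, h]
  have hsm : ∀ t : ℤ, t • ρ = 0 → t = 0 := by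
    intro t ht
    have h := hels (P.pv e) t ρ
    rw [ht] at h
    have h0 : P.el (P.pv e) 0 = 0 := by simp [Poly.el, ell]
    rw [h0] at h
    rcases mul_eq_zero.mp h.symm with h | h
    · exact h
    · exact absurd h hLp.ne'
  have hτv : τ (P.v e) = 0 := by
    have h := (hτ _ hv1).2
    have h' : (τ (P.v e) : ℤ) • ρ = 0 := by
      have h2 : F.hat (P.v e) + 0 = F.hat (P.v e) + (τ (P.v e) : ℤ) • ρ := by
        rw [add_zero]; exact h
      exact (add_left_cancel h2).symm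
    exact_mod_cast hsm _ h'
  have hτv2 : (τ (P.v (P.nx e)) : ℤ) = L := by
    have h := (hτ _ hv2).2
    rw [ha2] at h
    have h2 := add_left_cancel h
    have h3 : (L - (τ (P.v (P.nx e)) : ℤ)) • ρ = 0 := by rw [sub_smul, h2, sub_self]
    have := hsm _ h3
    linarith
  -- not all `a_{ik}` vanish
  have hne : ∀ c c' : Fin 3, j ≠ c → j ≠ c' → c ≠ c' →
      F.a (P.v e) c = 0 → F.a (P.v (P.nx e)) c = 0 → False := by
    intro c c' hjc hjc' hcc' h0 h0'
    have e1 := hellw _ hv1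
    have e2 := hellw _ hv2
    rw [PTL_ell w N hjc hjc' hcc', F.hat_castSucc, F.hat_castSucc, F.hat_castSucc, hj0 _ hv1,
      F.hat_three, h0] at e1
    rw [PTL_ell w N hjc hjc' hcc', F.hat_castSucc, F.hat_castSucc, F.hat_castSucc, hj0 _ hv2,
      F.hat_three, h0'] at e2
    have e3 : F.a (P.v e) c' = F.a (P.v (P.nx e)) c' := by
      apply mul_left_cancel₀ (hw c').ne'
      linarith
    apply hd0
    apply PTL_ext hjc hjc' hcc'
    · rw [Pi.sub_apply, F.hat_castSucc, F.hat_castSucc, hj0 _ hv1, hj0 _ hv2, sub_self]; rfl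
    · rw [Pi.sub_apply, F.hat_castSucc, F.hat_castSucc, h0, h0', sub_self]; rfl
    · rw [Pi.sub_apply, F.hat_castSucc, F.hat_castSucc, e3, sub_self]; rfl
    · rw [Pi.sub_apply, F.hat_three, F.hat_three, sub_self]; rfl
  have hAne : ∀ c c' : Fin 3, j ≠ c → j ≠ c' → c ≠ c' → PTL_A F (P.edge e) τ c ≠ 0 := by
    intro c c' hjc hjc' hcc' h0
    have hco : ∀ i ∈ P.edge e, F.a i c = 0 := by
      intro i hi
      have h := PTL_A_coeff F (P.edge e) τ c hinj i hi
      rw [h0, Polynomial.coeff_zero] at h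
      rcases mul_eq_zero.mp h.symm with h | h
      · exact absurd h (F.κ_ne i)
      · exact_mod_cast h
    exact hne c c' hjc hjc' hcc' (hco _ hv1) (hco _ hv2)
  have hcop := PTL_coprime F (P.edge e) w N hN τ hjk hjl hkl hinj (P.v e) hv1 hτv hellw hj0 ρ
    mk ml hbez (fun i hi => (hτ i hi).2) hnd
  have hLnat : ((L.toNat : ℕ) : ℤ) = L := Int.toNat_of_nonneg hL.le
  have hτL : ∀ i ∈ P.edge e, τ i ≤ L.toNat := by
    intro i hi
    have := (hτ i hi).1
    rw [← hLnat] at this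
    exact_mod_cast this
  have hdk := PTL_A_deg F (P.edge e) τ k L.toNat hτL
  have hdl := PTL_A_deg F (P.edge e) τ l L.toNat hτL
  have hτv2' : τ (P.v (P.nx e)) = L.toNat := by
    rw [← hLnat] at hτv2
    exact_mod_cast hτv2
  have htop : (PTL_A F (P.edge e) τ k).natDegree = L.toNat ∨
      (PTL_A F (P.edge e) τ l).natDegree = L.toNat := by
    have key : ∀ c : Fin 3, F.a (P.v (P.nx e)) c ≠ 0 →
        L.toNat ≤ (PTL_A F (P.edge e) τ c).natDegree := by
      intro c hc
      apply Polynomial.le_natDegree_of_ne_zero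
      rw [← hτv2', PTL_A_coeff F (P.edge e) τ c hinj _ hv2]
      exact mul_ne_zero (F.κ_ne _) (by exact_mod_cast hc)
    by_cases hk0 : F.a (P.v (P.nx e)) k = 0
    · right
      apply le_antisymm hdl
      apply key
      intro hl0
      have e2 := hellw _ hv2
      rw [PTL_ell w N hjk hjl hkl, F.hat_castSucc, F.hat_castSucc, F.hat_castSucc, hj0 _ hv2,
        F.hat_three, hk0, hl0] at e2
      linarith
    · left
      exact le_antisymm hdk (key k hk0)
  -- the points of the line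
  set Q2 : ℤ → Prop := fun t => (μ - F.hat (P.v e)) + t • ρ ∈ P.om 2 with hQ2
  set Q3 : ℤ → Prop := fun t => μ + t • ρ ∈ P.om 3 with hQ3
  have hline : ∀ t : ℤ, (μ + t • ρ) j.castSucc = 1 := by
    intro t
    rw [Pi.add_apply, Pi.smul_apply, hρj, smul_zero, add_zero, h1]
  have h32 : ∀ t, Q3 t → Q2 t ∨ Q2 (t - L) := by
    intro t ht
    rcases edge_sub P hw hN hB j e hz (μ + t • ρ) ht (hline t) with h | h
    · left
      show μ - F.hat (P.v e) + t • ρ ∈ P.om 2
      have : μ - F.hat (P.v e) + t • ρ = μ + t • ρ - F.hat (P.v e) := by abel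
      rw [this]; exact h
    · right
      show μ - F.hat (P.v e) + (t - L) • ρ ∈ P.om 2
      have : μ - F.hat (P.v e) + (t - L) • ρ = μ + t • ρ - F.hat (P.v (P.nx e)) := by
        rw [ha2, sub_smul]; abel
      rw [this]; exact h
  have hadd : ∀ i ∈ P.edge e, ∀ p ∈ P.om 2, p + F.hat i ∈ P.om 3 := by
    rintro i hi p ⟨hp1, hp2, hp3⟩
    refine ⟨?_, ?_, ?_⟩
    · rw [ell_add, hp1, hellw i hi, add_zero]
    · rw [Pi.add_apply, hp2, F.hat_three]; norm_num
    · intro e'
      rw [P.el_add]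
      have := hp3 e'
      have := P.el_hat_nonneg e' i
      linarith
  have h23 : ∀ t, Q2 t → Q3 t := by
    intro t ht
    have h := hadd _ hv1 _ ht
    show μ + t • ρ ∈ P.om 3
    have : μ - F.hat (P.v e) + t • ρ + F.hat (P.v e) = μ + t • ρ := by abel
    rwa [this] at h
  have h23' : ∀ t, Q2 t → Q3 (t + L) := by
    intro t ht
    have h := hadd _ hv2 _ ht
    show μ + (t + L) • ρ ∈ P.om 3
    have : μ - F.hat (P.v e) + t • ρ + F.hat (P.v (P.nx e)) = μ + (t + L) • ρ := by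
      rw [ha2, add_smul]; abel
    rwa [this] at h
  have hQ30 : Q3 0 := by
    show μ + (0 : ℤ) • ρ ∈ P.om 3
    rw [zero_smul, add_zero]; exact hμ
  have hne2 : ∃ t, Q2 t := by
    rcases h32 0 hQ30 with h | h
    · exact ⟨_, h⟩
    · exact ⟨_, h⟩
  have hub : ∃ b : ℤ, ∀ t, Q2 t → t ≤ b := by
    refine ⟨|P.el (P.nx e) (μ - F.hat (P.v e))|, ?_⟩
    rintro t ⟨-, -, ht⟩
    have h := ht (P.nx e)
    rw [P.el_add, hels] at h
    by_contra hc
    push Not at hc
    have habs := le_abs_self (P.el (P.nx e) (μ - F.hat (P.v e)))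
    have habs0 := abs_nonneg (P.el (P.nx e) (μ - F.hat (P.v e)))
    nlinarith
  have hlb : ∃ b : ℤ, ∀ t, Q2 t → b ≤ t := by
    refine ⟨-|P.el (P.pv e) (μ - F.hat (P.v e))|, ?_⟩
    rintro t ⟨-, -, ht⟩
    have h := ht (P.pv e)
    rw [P.el_add, hels] at h
    by_contra hc
    push Not at hc
    have habs := le_abs_self (P.el (P.pv e) (μ - F.hat (P.v e)))
    have habs0 := abs_nonneg (P.el (P.pv e) (μ - F.hat (P.v e)))
    nlinarith
  obtain ⟨t1, ht1, ht1m⟩ := Int.exists_greatest_of_bdd hub hne2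
  obtain ⟨t0, ht0, ht0m⟩ := Int.exists_least_of_bdd hlb hne2
  have ht01 : t0 ≤ t1 := ht0m _ ht1
  have hgap : t0 + L ≤ t1 + 1 := by
    by_contra hc
    push Not at hc
    have hmid : Q3 (t1 + 1) :=
      PTL_conv P 3 μ ρ hρ3 hρw (h23 t0 ht0) (h23' t1 ht1) (by linarith) (by linarith)
    rcases h32 _ hmid with h | h
    · have := ht1m _ h
      linarith
    · have := ht0m _ h
      linarith
  have h0range : t0 ≤ 0 ∧ 0 ≤ t1 + L := by
    rcases h32 0 hQ30 with h | h
    · exact ⟨ht0m _ h, by have := ht1m _ h; linarith⟩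
    · exact ⟨by have := ht0m _ h; linarith, by have := ht1m _ h; linarith⟩
  obtain ⟨n, hn⟩ := Int.eq_ofNat_of_zero_le (show 0 ≤ t1 - t0 + 1 by linarith)
  obtain ⟨m0, hm0⟩ := Int.eq_ofNat_of_zero_le (show 0 ≤ -t0 by linarith [h0range.1])
  have hnL : L.toNat ≤ n := by
    have : (L.toNat : ℤ) ≤ (n : ℤ) := by rw [hLnat, ← hn]; linarith
    exact_mod_cast this
  have hm0n : m0 < n + L.toNat := by
    have : (m0 : ℤ) < (n : ℤ) + (L.toNat : ℤ) := by
      rw [hLnat, ← hn, ← hm0]; linarith [h0range.2]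
    exact_mod_cast this
  obtain ⟨Y, Z, hY, hZ, hYZ⟩ := poly_div (PTL_A F (P.edge e) τ k) (PTL_A F (P.edge e) τ l)
    L.toNat n hcop hdk hdl htop (hAne k l hjk hjl hkl) (hAne l k hjl hjk hkl.symm) hnL
    (Polynomial.X ^ m0) (by
      rw [Polynomial.degree_X_pow]
      exact_mod_cast hm0n)
  set base : Pt := μ - F.hat (P.v e) + t0 • ρ with hbase
  have hsup : ∀ t : ℕ, t < n → base + (t : ℤ) • ρ ∈ P.om 2 ∩ {p | p j.castSucc = 1} := by
    intro t ht
    have htn : t0 + (t : ℤ) ≤ t1 := by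
      have : (t : ℤ) < (n : ℤ) := by exact_mod_cast ht
      rw [← hn] at this
      linarith
    have hb : base + (t : ℤ) • ρ = μ - F.hat (P.v e) + (t0 + (t : ℤ)) • ρ := by
      rw [hbase, add_smul]; abel
    refine ⟨?_, ?_⟩
    · rw [hb]
      exact PTL_conv P 2 _ ρ hρ3 hρw ht0 ht1 (by linarith [Int.natCast_nonneg t]) htn
    · show (base + (t : ℤ) • ρ) j.castSucc = 1
      rw [hb, Pi.add_apply, Pi.smul_apply, hρj, smul_zero, add_zero, Pi.sub_apply,
        F.hat_castSucc, hj0 _ hv1, sub_zero, h1]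
  refine ⟨mono base * Polynomial.aeval (mono ρ) Y, mono base * Polynomial.aeval (mono ρ) Z,
    PTL_supp _ base ρ n Y hY hsup, PTL_supp _ base ρ n Z hZ hsup, ?_⟩
  have hmm : ∀ p q : Pt, mono (p + q) = mono p * mono q := by
    intro p q
    unfold mono
    rw [AddMonoidAlgebra.single_mul_single, one_mul]
  have hμm : mono μ = mono (F.hat (P.v e)) * mono base *
      Polynomial.aeval (mono ρ) (Polynomial.X ^ m0 : Polynomial ℂ) := by
    have h := PTL_phi ρ 1 m0
    rw [map_one, one_mul] at h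
    rw [h]
    change mono μ = mono (F.hat (P.v e)) * mono base * mono ((m0 : ℤ) • ρ)
    rw [← hmm, ← hmm]
    congr 1
    rw [hbase]
    have : (m0 : ℤ) • ρ = -(t0 • ρ) := by
      rw [← neg_smul]
      congr 1
      exact hm0.symm
    rw [this]; abel
  rw [hμm, hYZ, map_add, map_mul, map_mul,
    PTL_E F (P.edge e) τ (F.hat (P.v e)) ρ (fun i hi => (hτ i hi).2) k,
    PTL_E F (P.edge e) τ (F.hat (P.v e)) ρ (fun i hi => (hτ i hi).2) l]
  ring

end Pool.Agent.H37.SM
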