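import Pool.Agent.H37.SM.PTL

/-! Module PTO: one bad index. -/

set_option autoImplicit false

namespace Pool.Agent.H37.SM

open Finset

variable {r : ℕ} {F : Dat r} {w : Fin 3 → ℤ} {N : ℤ}

lemma pto_om_add (P : Poly F w N) {ν : Pt} (hν : ν ∈ P.om 2) {i : Fin r}
    (hi : i ∈ F.face w N) : ν + F.hat i ∈ P.om 3 := by
  obtain ⟨h1, h2, h3⟩ := hν
  refine ⟨?_, ?_, fun e => ?_⟩
  · rw [ell_add, h1, mem_face.mp hi, add_zero]
  · show ν 3 + F.hat i 3 = 3
    rw [h2, Dat.hat_three]
    norm_num
  · rw [P.el_add]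
    have h4 := h3 e
    have h5 := P.el_hat_nonneg e i
    omega

lemma pto_mem (W : Submodule ℂ LL) (η : LL) (h : ∀ p, cf η p ≠ 0 → mono p ∈ W) : η ∈ W := by
  classical
  have hη : η = ∑ q ∈ η.coeff.support, (η.coeff q) • mono q := by
    apply ext_cf; intro q
    rw [cf_sum]
    simp only [cf_smul, cf_mono, mul_ite, mul_one, mul_zero]
    rw [Finset.sum_ite_eq]
    by_cases hq : q ∈ η.coeff.support
    · rw [if_pos hq]; rfl
    · rw [if_neg hq]; exact Finsupp.notMem_support_iff.mp hq
  rw [hη]
  refine Submodule.sum_mem _ fun q hq => Submodule.smul_mem _ _ (h q ?_)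
  exact Finsupp.mem_support_iff.mp hq

lemma pto_img (P : Poly F w N) (k : Fin 3) (y : LL) (hy : SuppIn (P.om 2) y) :
    E F (F.face w N) (c3 k) * y ∈ P.img 2 := by
  classical
  refine ⟨Pi.single k y, fun j => ?_, ?_⟩
  · by_cases hj : j = k
    · subst hj
      rw [Pi.single_eq_same]
      exact hy
    · rw [Pi.single_eq_of_ne hj]
      exact suppIn_zero _
  · unfold dotE
    rw [Finset.sum_eq_single k]
    · rw [Pi.single_eq_same]
    · intro j _ hj
      rw [Pi.single_eq_of_ne hj, mul_zero]
    · intro hk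
      exact absurd (Finset.mem_univ k) hk

lemma pto_sum {i : Fin r} (hi : i ∈ F.face w N) {j k l : Fin 3} (hjk : j ≠ k) (hjl : j ≠ l)
    (hkl : k ≠ l) : w j * F.a i j + w k * F.a i k + w l * F.a i l = N := by
  have h := mem_face.mp hi
  simp only [ell, Dat.hat_zero, Dat.hat_one, Dat.hat_two, Dat.hat_three] at h
  have hu : (univ : Finset (Fin 3)) = {j, k, l} := by
    revert hjk hjl hkl
    revert j k l
    decide
  have hs : w j * F.a i j + w k * F.a i k + w l * F.a i l = ∑ t : Fin 3, w t * F.a i t := by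
    rw [hu, Finset.sum_insert (by simp [hjk, hjl]), Finset.sum_insert (by simp [hkl]),
      Finset.sum_singleton]
    ring
  rw [hs, Fin.sum_univ_three]
  linarith

lemma pto_others (j : Fin 3) : ∃ k l : Fin 3, j ≠ k ∧ j ≠ l ∧ k ≠ l := by
  revert j
  decide

/-- the coefficient comparison on an edge -/
lemma pto_edge_aux (P : Poly F w N) (hw : Pos3 w) (hN : 0 < N) {j k l : Fin 3} (hjk : j ≠ k)
    (hjl : j ≠ l) (hkl : k ≠ l) (e : Fin P.m)
    (hz : ∀ i ∈ F.face w N, F.a i j = 0 ↔ i ∈ P.edge e) (μ : Pt) (y z : LL)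
    (hy : SuppIn (P.om 2 ∩ {p | p j.castSucc = 1}) y)
    (hzz : SuppIn (P.om 2 ∩ {p | p j.castSucc = 1}) z)
    (hdiv : mono μ = E F (P.edge e) (c3 k) * y + E F (P.edge e) (c3 l) * z)
    (hk : 2 ≤ μ k.castSucc) {ν : Pt} (hν : ν ∈ P.om 2) (hνj : ν j.castSucc = 1)
    (hνk : ν k.castSucc = 1) : cf z ν = 0 := by
  classical
  obtain ⟨v, hv, hvj, hvk⟩ := exists_common P hw hN 2 le_rfl ν hν j k hjk hνj hνk
  have hve : v ∈ P.edge e := (hz v hv).1 hvj
  have hedge : ∀ i ∈ P.edge e, i ∈ F.face w N := fun i hi => (Finset.mem_inter.mp hi).1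
  have hvl : F.a v l ≠ 0 := by
    intro h0
    have h2 := pto_sum hv hjk hjl hkl
    rw [hvj, hvk, h0] at h2
    simp only [mul_zero, add_zero] at h2
    omega
  have hcoef : cf (mono μ) (ν + F.hat v) = ∑ i ∈ P.edge e,
      (F.κ i * (F.a i k : ℂ) * cf y (ν + F.hat v - F.hat i) +
        F.κ i * (F.a i l : ℂ) * cf z (ν + F.hat v - F.hat i)) := by
    rw [hdiv, cf_add, cf_E_mul, cf_E_mul, ← Finset.sum_add_distrib]
    refine Finset.sum_congr rfl fun i _ => ?_
    rw [lin_c3_hat, lin_c3_hat]
  have hne : ν + F.hat v ≠ μ := by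
    intro h
    have h2 := congrFun h k.castSucc
    rw [Pi.add_apply, F.hat_castSucc, hνk, hvk] at h2
    omega
  rw [cf_mono, if_neg hne, Finset.sum_eq_single_of_mem v hve] at hcoef
  · rw [add_sub_cancel_right, hvk] at hcoef
    have h3 : F.κ v * (F.a v l : ℂ) * cf z ν = 0 := by
      rw [Int.cast_zero, mul_zero, zero_mul, zero_add] at hcoef
      exact hcoef.symm
    rcases mul_eq_zero.mp h3 with h4 | h4
    · rcases mul_eq_zero.mp h4 with h5 | h5
      · exact absurd h5 (F.κ_ne v)
      · exact absurd (by exact_mod_cast h5) hvl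
    · exact h4
  · intro i hi hiv
    have hif := hedge i hi
    have hij : F.a i j = 0 := (hz i hif).2 hi
    have hik : F.a i k ≠ 0 := by
      intro h0
      apply hiv
      apply F.inj
      have h5 := pto_sum hif hjk hjl hkl
      have h6 := pto_sum hv hjk hjl hkl
      rw [hij, h0] at h5
      rw [hvj, hvk] at h6
      have h7 : F.a i l = F.a v l := by
        have h8 : w l * F.a i l = w l * F.a v l := by linarith
        exact mul_left_cancel₀ (hw l).ne' h8
      funext t
      have hu : t = j ∨ t = k ∨ t = l := by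
        have : t ∈ (univ : Finset (Fin 3)) := Finset.mem_univ t
        have hu : (univ : Finset (Fin 3)) = {j, k, l} := by
          clear * - hjk hjl hkl
          revert hjk hjl hkl
          revert j k l
          decide
        rw [hu] at this
        simpa using this
      rcases hu with rfl | rfl | rfl
      · rw [hij, hvj]
      · rw [h0, hvk]
      · exact h7
    have hpos : 1 ≤ F.a i k := by
      have := F.a_nonneg i k
      omega
    have hnot : ν + F.hat v - F.hat i ∉ P.om 2 := by
      intro hm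
      have h8 := P.om_pos hw hN 2 _ hm k
      rw [Pi.sub_apply, Pi.add_apply, F.hat_castSucc, F.hat_castSucc, hνk, hvk] at h8
      omega
    rw [hy.cf_eq (fun h => hnot h.1), hzz.cf_eq (fun h => hnot h.1), mul_zero, mul_zero, add_zero]

/-- One bad index. See section 5 (ii) of the paper proof.

Proof. Bad indices of `μ`: `j` with `μ_j = 1` and some exponent with `a_j = 0`; assume `j` is the only one.
`zero_types`. Vertex type: `ν = μ - v̂ ∈ om 2` (`vertex_sub`), `ν_j = 1`; choose `l` with `v_l ≠ 0`;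
`E_l mono ν = κ_v v_l mono μ + ∑_{a ≠ v} κ_a a_l mono (ν + â)`, and all `ν + â`, `a ≠ v`, are good: the
`j`-th coordinate is `≥ 2`; for `i ≠ j`: if `ν_i ≥ 2` clear; if `ν_i = 1` and some exponent has `a_i = 0`
then `exists_common` (d = 2) gives an exponent with `a_i = a_j = 0`, which is `v`, so `ν_i = μ_i ≥ 2`,
contradiction (`i` is not bad for `μ`, or no exponent has `a_i = 0`, in which case `i` is irrelevant).
Edge type: `line_div` with the other coordinates `k, l`: `mono μ = E^e_k y + E^e_l z`. Then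
`E_k y + E_l z = mono μ + ∑_{a off e} κ_a x^{â}(a_k y + a_l z)`; the monomials `ν + â`, `a_j ≥ 1`, have
`j`-th coordinate `≥ 2`. If the `k`-th coordinate of `ν + â` is one (and some exponent has `a_k = 0`):
`ν_k = 1`, `a_k = 0`; `exists_common` for `ν` and `j, k` gives an exponent `v` with
`v_j = v_k = 0`, so `v_l ≠ 0`; comparing the coefficients of `mono μ = E^e_k y + E^e_l z` at `ν + v̂`
(whose `k`-th coordinate is one, so it is not `μ`): the only contribution is from `ν` and `v` (the
coordinates `j, k`, the degree and `ℓ_w` determine a point; `ν'_k ≥ 1` by `om_pos`), so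
`κ_v (v_k y(ν) + v_l z(ν)) = 0`, `z(ν) = 0`, and `a_k y(ν) + a_l z(ν) = 0`: the bad terms vanish. Same
for `l`. So `mono μ` is in `W`. -/
theorem one_bad (P : Poly F w N) (hw : Pos3 w) (hN : 0 < N) (hB : ¬ IsB1 F w N)
    (hnde : ∀ e, NonDeg F (P.edge e)) (W : Submodule ℂ LL) (hW : P.img 2 ≤ W)
    (hgood : ∀ μ ∈ P.om 3, Good F w N μ → mono μ ∈ W) (μ : Pt) (hμ : μ ∈ P.om 3) (j : Fin 3)
    (hj : ∃ i ∈ F.face w N, F.a i j = 0) (h1 : μ j.castSucc = 1)
    (honly : ∀ i, i ≠ j → (∃ l ∈ F.face w N, F.a l i = 0) → 2 ≤ μ i.castSucc) :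
    mono μ ∈ W := by
  classical
  rcases zero_types P hw hN j hj with ⟨e, hz⟩ | ⟨e, hz⟩
  · -- vertex type
    have hvf : P.v e ∈ F.face w N := P.v_face e
    have hvj : F.a (P.v e) j = 0 := (hz _ hvf).2 rfl
    have hν := vertex_sub P hw hN j e hz μ hμ h1
    set ν : Pt := μ - F.hat (P.v e) with hνdef
    have hνμ : ν + F.hat (P.v e) = μ := by rw [hνdef, sub_add_cancel]
    have hνj : ν j.castSucc = 1 := by
      rw [hνdef, Pi.sub_apply, F.hat_castSucc, hvj, h1, sub_zero]
    obtain ⟨k, l, hjk, hjl, hkl⟩ := pto_others j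
    obtain ⟨t, ht⟩ : ∃ t, F.a (P.v e) t ≠ 0 := by
      by_contra hno
      push Not at hno
      have h2 := pto_sum hvf hjk hjl hkl
      rw [hno, hno, hno] at h2
      simp only [mul_zero, add_zero] at h2
      omega
    have hgoodt : ∀ i ∈ F.face w N, i ≠ P.v e → mono (ν + F.hat i) ∈ W := by
      intro i hi hiv
      refine hgood _ (pto_om_add P hν hi) fun j' hj' => ?_
      rw [Pi.add_apply, F.hat_castSucc]
      have ha := F.a_nonneg i j'
      by_cases hjj : j' = j
      · subst hjj
        rw [hνj]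
        have h2 : F.a i j' ≠ 0 := fun h0 => hiv ((hz i hi).1 h0)
        omega
      · have h2 := P.om_pos hw hN 2 ν hν j'
        by_contra hlt
        have h3 : ν j'.castSucc = 1 := by omega
        obtain ⟨l', hl', h4, h5⟩ := exists_common P hw hN 2 le_rfl ν hν j' j hjj h3 hνj
        have h6 : l' = P.v e := (hz l' hl').1 h5
        rw [h6] at h4
        have h7 := honly j' hjj hj'
        rw [← hνμ, Pi.add_apply, F.hat_castSucc, h4, h3] at h7
        omega
    have himg : E F (F.face w N) (c3 t) * mono ν ∈ W :=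
      hW (pto_img P t _ (suppIn_mono hν))
    set z0 : ℂ := F.κ (P.v e) * (F.a (P.v e) t : ℂ) with hz0
    have hz0ne : z0 ≠ 0 := mul_ne_zero (F.κ_ne _) (by exact_mod_cast ht)
    have hR : E F (F.face w N) (c3 t) * mono ν - z0 • mono μ ∈ W := by
      apply pto_mem
      intro p hp
      have h2 : cf (E F (F.face w N) (c3 t) * mono ν - z0 • mono μ) p =
          ∑ i ∈ (F.face w N).erase (P.v e),
            F.κ i * (F.a i t : ℂ) * (if p - F.hat i = ν then 1 else 0) := by
        rw [cf_sub, cf_E_mul, cf_smul, cf_mono, ← Finset.add_sum_erase _ _ hvf, lin_c3_hat,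
          cf_mono]
        have h3 : (p - F.hat (P.v e) = ν) ↔ p = μ := by
          rw [sub_eq_iff_eq_add, hνμ]
        rw [if_congr h3 rfl rfl, ← hz0, add_sub_cancel_left]
        refine Finset.sum_congr rfl fun i _ => ?_
        rw [lin_c3_hat, cf_mono]
      rw [h2] at hp
      obtain ⟨i, hi, hi2⟩ := Finset.exists_ne_zero_of_sum_ne_zero hp
      have h4 : p - F.hat i = ν := by
        by_contra h5
        rw [if_neg h5, mul_zero] at hi2
        exact hi2 rfl
      have h6 : p = ν + F.hat i := by rw [← h4, sub_add_cancel]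
      rw [h6]
      exact hgoodt i (Finset.mem_of_mem_erase hi) (Finset.ne_of_mem_erase hi)
    have h8 : z0 • mono μ ∈ W := by
      have h9 := W.sub_mem himg hR
      rwa [sub_sub_cancel] at h9
    exact (W.smul_mem_iff hz0ne).1 h8
  · -- edge type
    obtain ⟨k, l, hjk, hjl, hkl⟩ := pto_others j
    obtain ⟨y, z, hy, hzz, hdiv⟩ :=
      line_div P hw hN hB j k l hjk hjl hkl e hz (hnde e) μ hμ h1
    have himg : E F (F.face w N) (c3 k) * y + E F (F.face w N) (c3 l) * z ∈ W :=
      hW ((P.img 2).add_mem (pto_img P k y (hy.mono Set.inter_subset_left))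
        (pto_img P l z (hzz.mono Set.inter_subset_left)))
    have hR : E F (F.face w N) (c3 k) * y + E F (F.face w N) (c3 l) * z - mono μ ∈ W := by
      apply pto_mem
      intro p hp
      have hsub : P.edge e ⊆ F.face w N := Finset.inter_subset_left
      have h2 : cf (E F (F.face w N) (c3 k) * y + E F (F.face w N) (c3 l) * z - mono μ) p =
          ∑ i ∈ F.face w N \ P.edge e, (F.κ i * (F.a i k : ℂ) * cf y (p - F.hat i) +
            F.κ i * (F.a i l : ℂ) * cf z (p - F.hat i)) := by
        have h3 : ∀ B : Finset (Fin r), cf (E F B (c3 k) * y + E F B (c3 l) * z) p =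
            ∑ i ∈ B, (F.κ i * (F.a i k : ℂ) * cf y (p - F.hat i) +
              F.κ i * (F.a i l : ℂ) * cf z (p - F.hat i)) := by
          intro B
          rw [cf_add, cf_E_mul, cf_E_mul, ← Finset.sum_add_distrib]
          refine Finset.sum_congr rfl fun i _ => ?_
          rw [lin_c3_hat, lin_c3_hat]
        rw [cf_sub, h3, hdiv, h3, ← Finset.sum_sdiff hsub, add_sub_cancel_right]
      rw [h2] at hp
      obtain ⟨i, hi, hi2⟩ := Finset.exists_ne_zero_of_sum_ne_zero hp
      obtain ⟨hif, hie⟩ := Finset.mem_sdiff.1 hi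
      have hp' : (p - F.hat i) + F.hat i = p := sub_add_cancel _ _
      set ν : Pt := p - F.hat i with hνdef
      have hyz : cf y ν ≠ 0 ∨ cf z ν ≠ 0 := by
        by_contra hno
        push Not at hno
        rw [hno.1, hno.2, mul_zero, mul_zero, add_zero] at hi2
        exact hi2 rfl
      have hνm : ν ∈ P.om 2 ∩ {p | p j.castSucc = 1} := by
        rcases hyz with h3 | h3
        · exact hy ν h3
        · exact hzz ν h3
      obtain ⟨hν, hνj⟩ := hνm
      have hνj' : ν j.castSucc = 1 := hνj
      rw [← hp']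
      refine hgood _ (pto_om_add P hν hif) fun j' hj' => ?_
      rw [Pi.add_apply, F.hat_castSucc]
      have ha := F.a_nonneg i j'
      have hpos := P.om_pos hw hN 2 ν hν j'
      by_contra hlt
      have h3 : ν j'.castSucc = 1 := by omega
      have h4 : F.a i j' = 0 := by omega
      have hu : j' = j ∨ j' = k ∨ j' = l := by
        have : j' ∈ (univ : Finset (Fin 3)) := Finset.mem_univ j'
        have hu : (univ : Finset (Fin 3)) = {j, k, l} := by
          clear * - hjk hjl hkl
          revert hjk hjl hkl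
          revert j k l
          decide
        rw [hu] at this
        simpa using this
      rcases hu with rfl | rfl | rfl
      · exact hie ((hz i hif).1 h4)
      · have h5 := pto_edge_aux P hw hN hjk hjl hkl e hz μ y z hy hzz hdiv
          (honly j' (Ne.symm hjk) hj') hν hνj' h3
        rw [h4, h5, mul_zero, Int.cast_zero, mul_zero, zero_mul, add_zero] at hi2
        exact hi2 rfl
      · have h5 := pto_edge_aux P hw hN hjl hjk (Ne.symm hkl) e hz μ z y hzz hy
          (by rw [hdiv, add_comm]) (honly j' (Ne.symm hjl) hj') hν hνj' h3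
        rw [h4, h5, mul_zero, Int.cast_zero, mul_zero, zero_mul, add_zero] at hi2
        exact hi2 rfl
    have h9 := W.sub_mem himg hR
    rwa [sub_sub_cancel] at h9

end Pool.Agent.H37.SM
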