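import Pool.Agent.H37.SM.PTZ

/-! Module PTV: subtracting a vertex. -/

set_option autoImplicit false

namespace Pool.Agent.H37.SM

open Finset

variable {r : ℕ} {F : Dat r} {w : Fin 3 → ℤ} {N : ℤ}

/-- the decomposition of an interior point and its values -/
theorem ptv_decomp (P : Poly F w N) (d : ℤ) (μ : Pt) (hμ : μ ∈ P.om d) :
    ∃ c : Fin P.m → ℝ, (∀ e, 0 ≤ c e) ∧ (∑ e, c e = d) ∧
      (∀ e, (P.el e μ : ℝ) = ∑ e', c e' * P.elR e (toR (F.hat (P.v e')))) ∧
      ∀ j : Fin 3, (μ j.castSucc : ℝ) = ∑ e, c e * (F.a (P.v e) j : ℝ) := by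
  obtain ⟨h0, h3, hpos⟩ := hμ
  obtain ⟨c, hc, hx⟩ := P.cone (toR μ) (by rw [ellR_toR, h0]; simp) (fun e => by
    rw [ellR_toR]
    have h := hpos e
    unfold Poly.el at h
    have : (1 : ℝ) ≤ (ell (P.ew e) (P.eN e) μ : ℝ) := by exact_mod_cast h
    linarith)
  refine ⟨c, hc, ?_, fun e => ?_, fun j => ?_⟩
  · have h := congrFun hx 3
    rw [Finset.sum_apply] at h
    simp only [Pi.smul_apply, smul_eq_mul, toR_three, mul_one] at h
    rw [← h, ← h3]; rfl
  · rw [← P.elR_toR, hx]
    unfold Poly.elR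
    rw [ellR_sum]
  · have h := congrFun hx j.castSucc
    rw [Finset.sum_apply] at h
    simp only [Pi.smul_apply, smul_eq_mul] at h
    have h' : toR μ j.castSucc = (μ j.castSucc : ℝ) := rfl
    rw [← h', h]
    refine Finset.sum_congr rfl fun e _ => ?_
    have : toR (F.hat (P.v e)) j.castSucc = (F.a (P.v e) j : ℝ) := by
      unfold toR
      rw [F.hat_castSucc]
    rw [this]

/-- subtracting a vertex of coefficient greater than one -/
theorem ptv_sub (P : Poly F w N) (μ : Pt) (hμ : μ ∈ P.om 3) (e : Fin P.m)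
    (h : ∀ e', P.elR e' (toR (F.hat (P.v e))) ≠ 0 →
      P.elR e' (toR (F.hat (P.v e))) < (P.el e' μ : ℝ)) :
    μ - F.hat (P.v e) ∈ P.om 2 := by
  obtain ⟨h0, h3, hpos⟩ := hμ
  refine ⟨?_, ?_, fun e' => ?_⟩
  · rw [ell_sub, h0, P.ell_v, sub_zero]
  · rw [Pi.sub_apply, h3, F.hat_three]; rfl
  · rw [P.el_sub]
    by_cases h1 : P.elR e' (toR (F.hat (P.v e))) = 0
    · have h2 : P.el e' (F.hat (P.v e)) = 0 := by
        rw [P.elR_toR] at h1; exact_mod_cast h1
      rw [h2, sub_zero]; exact hpos e'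
    · have h2 := h e' h1
      rw [P.elR_toR] at h2
      have h4 : P.el e' (F.hat (P.v e)) < P.el e' μ := by exact_mod_cast h2
      omega

/-- a vertex on the edge `e` is one of its ends -/
theorem ptv_ends (P : Poly F w N) (e e' : Fin P.m) (h : P.elR e (toR (F.hat (P.v e'))) = 0) :
    e' = e ∨ e' = P.nx e := by
  by_contra hne
  push Not at hne
  have h1 := P.pos e e' hne.1 hne.2
  rw [P.elR_toR] at h
  have h2 : P.el e (F.hat (P.v e')) = 0 := by exact_mod_cast h
  unfold Poly.el at h2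
  omega

/-- Vertex type. `μ_j = 1`, `{a_j = 0} = {v}`: `μ - v̂` is in `om (d-1)`, for `d ≥ 2`.
Proof: `μ = ∑ c_e v_e` (`P.cone`), `∑ c_e = d`, `∑ c_e (v_e)_j = 1`, so the vertices other than `v` have total
weight `≤ 1` and `c_v ≥ d - 1 ≥ 1`. `μ - v̂` has coefficients `c_v - 1 ≥ 0`, `c_e ≥ 0`; if an edge functional
vanishes on it then (all terms `≥ 0`) ... for `d = 3`: `c_v - 1 ≥ 1 > 0`, so it vanishes at `v` and so on
`μ`, contradiction to `el e μ ≥ 1`. -/
theorem vertex_sub (P : Poly F w N) (hw : Pos3 w) (hN : 0 < N) (j : Fin 3) (e : Fin P.m)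
    (hz : ∀ i ∈ F.face w N, F.a i j = 0 ↔ i = P.v e) (μ : Pt) (hμ : μ ∈ P.om 3)
    (h1 : μ j.castSucc = 1) : μ - F.hat (P.v e) ∈ P.om 2 := by
  obtain ⟨c, hc, hsum, hel, hco⟩ := ptv_decomp P 3 μ hμ
  have hj := hco j
  rw [h1] at hj
  push_cast at hj hsum
  -- the other vertices have weight at most one
  have hv : ∀ e', e' ≠ e → (1 : ℝ) ≤ (F.a (P.v e') j : ℝ) := by
    intro e' he'
    have h2 : F.a (P.v e') j ≠ 0 := fun h3 => he' (P.v_inj ((hz _ (P.v_face e')).mp h3))
    have h3 := F.a_nonneg (P.v e') j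
    have : 1 ≤ F.a (P.v e') j := by omega
    exact_mod_cast this
  have hve : (F.a (P.v e) j : ℝ) = 0 := by
    have := (hz _ (P.v_face e)).mpr rfl
    rw [this]; simp
  have hce : 2 ≤ c e := by
    have e1 : ∑ e' ∈ univ.erase e, c e' ≤ ∑ e' ∈ univ.erase e, c e' * (F.a (P.v e') j : ℝ) := by
      refine Finset.sum_le_sum fun e' he' => ?_
      have := mul_le_mul_of_nonneg_left (hv e' (Finset.ne_of_mem_erase he')) (hc e')
      rwa [mul_one] at this
    have e2 := Finset.add_sum_erase univ (fun e' => c e' * (F.a (P.v e') j : ℝ))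
      (Finset.mem_univ e)
    have e3 := Finset.add_sum_erase univ c (Finset.mem_univ e)
    simp only [hve, mul_zero, zero_add] at e2
    linarith
  apply ptv_sub P μ hμ e
  intro e' he'
  rw [hel e']
  have h2 : c e * P.elR e' (toR (F.hat (P.v e))) ≤
      ∑ e'', c e'' * P.elR e' (toR (F.hat (P.v e''))) :=
    Finset.single_le_sum (f := fun e'' => c e'' * P.elR e' (toR (F.hat (P.v e''))))
      (fun e'' _ => mul_nonneg (hc e'') (P.elR_hat_nonneg _ _)) (Finset.mem_univ e)
  have h3 : 0 < P.elR e' (toR (F.hat (P.v e))) :=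
    lt_of_le_of_ne (P.elR_hat_nonneg _ _) (Ne.symm he')
  nlinarith

/-- Edge type. `μ_j = 1`, `{a_j = 0}` = the edge `e`, not `B₁`: `μ - v̂` or `μ - v̂'` is in `om 2`, `v`, `v'` the
ends of the edge.
Proof: `μ = ∑ c_e v_e`, `∑ c = 3`, `∑ c_e (v_e)_j = 1`: the vertices off the edge have total weight
`≤ 1`, so `c_v + c_{v'} ≥ 2`. If `c_v > 1`: `μ - v̂` has nonnegative coefficients, and an edge functional
vanishing on it vanishes where the coefficient is positive, so at `v`, hence on `μ`: contradiction.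
Same for `c_{v'} > 1`. Otherwise `c_v = c_{v'} = 1` and the rest `y` has weight exactly one and all its
vertices have `j`-th coordinate one. If `μ - v̂ = v̂' + y` is not in `om 2`, some edge functional vanishes at
`v'` and at `y`, not at `v` (else it vanishes on `μ`); it is the edge `nx e`. Same for `v' `: the edge `pv e`
vanishes at `y`. So all vertices in `y` lie on the edges `nx e` and `pv e`: it is a single vertex `v2`
with `nx (nx e) = pv e` (`m = 3`), `(v2)_j = 1`. Then on `ℓ_w = 0`: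
`p_3 = p_j + elR (nx e)/el (nx e) v̂ + elR (pv e)/el (pv e) v̂'` (check at the three vertices, `span3`), so an
exponent of the face with `a_j ≥ 1` has `a_j = 1` and lies on both edges, so it is `v2`: `IsB1`. -/
theorem edge_sub (P : Poly F w N) (hw : Pos3 w) (hN : 0 < N) (hB : ¬ IsB1 F w N) (j : Fin 3)
    (e : Fin P.m) (hz : ∀ i ∈ F.face w N, F.a i j = 0 ↔ i ∈ P.edge e) (μ : Pt)
    (hμ : μ ∈ P.om 3) (h1 : μ j.castSucc = 1) :
    μ - F.hat (P.v e) ∈ P.om 2 ∨ μ - F.hat (P.v (P.nx e)) ∈ P.om 2 := by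
  obtain ⟨c, hc, hsum, hel, hco⟩ := ptv_decomp P 3 μ hμ
  have hj := hco j
  rw [h1] at hj
  push_cast at hj hsum
  by_contra hcon
  push Not at hcon
  obtain ⟨hn1, hn2⟩ := hcon
  have hnx : P.nx e ≠ e := P.nx_ne e
  -- coefficients one
  have hgen : ∀ e0, 1 < c e0 → μ - F.hat (P.v e0) ∈ P.om 2 := by
    intro e0 h0
    apply ptv_sub P μ hμ e0
    intro e' he'
    rw [hel e']
    have h2 : c e0 * P.elR e' (toR (F.hat (P.v e0))) ≤
        ∑ e'', c e'' * P.elR e' (toR (F.hat (P.v e''))) :=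
      Finset.single_le_sum (f := fun e'' => c e'' * P.elR e' (toR (F.hat (P.v e''))))
        (fun e'' _ => mul_nonneg (hc e'') (P.elR_hat_nonneg _ _)) (Finset.mem_univ e0)
    have h3 : 0 < P.elR e' (toR (F.hat (P.v e0))) :=
      lt_of_le_of_ne (P.elR_hat_nonneg _ _) (Ne.symm he')
    nlinarith
  have hc1 : c e ≤ 1 := by
    by_contra h; push Not at h; exact hn1 (hgen e h)
  have hc2 : c (P.nx e) ≤ 1 := by
    by_contra h; push Not at h; exact hn2 (hgen (P.nx e) h)
  -- the other vertices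
  have hv : ∀ e', e' ≠ e → e' ≠ P.nx e → (1 : ℝ) ≤ (F.a (P.v e') j : ℝ) := by
    intro e' he' he''
    have h2 : F.a (P.v e') j ≠ 0 := by
      intro h3
      have h4 := ((P.mem_edge).mp ((hz _ (P.v_face e')).mp h3)).2
      have h5 : P.elR e (toR (F.hat (P.v e'))) = 0 := by rw [P.elR_toR, h4]; simp
      rcases ptv_ends P e e' h5 with h6 | h6
      · exact he' h6
      · exact he'' h6
    have h3 := F.a_nonneg (P.v e') j
    have : 1 ≤ F.a (P.v e') j := by omega
    exact_mod_cast this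
  have hve : F.a (P.v e) j = 0 :=
    (hz _ (P.v_face e)).mpr (P.mem_edge.mpr ⟨P.ell_v e, P.el_left e⟩)
  have hvn : F.a (P.v (P.nx e)) j = 0 :=
    (hz _ (P.v_face (P.nx e))).mpr (P.mem_edge.mpr ⟨P.ell_v (P.nx e), P.el_right e⟩)
  -- split the sums
  have hnmem : P.nx e ∈ univ.erase e := Finset.mem_erase.mpr ⟨hnx, Finset.mem_univ _⟩
  have split : ∀ f : Fin P.m → ℝ,
      ∑ e', f e' = f e + f (P.nx e) + ∑ e' ∈ (univ.erase e).erase (P.nx e), f e' := by
    intro f
    have e1 := Finset.add_sum_erase univ f (Finset.mem_univ e)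
    have e2 := Finset.add_sum_erase (univ.erase e) f hnmem
    linarith
  have hmem : ∀ e' ∈ (univ.erase e).erase (P.nx e), e' ≠ e ∧ e' ≠ P.nx e := by
    intro e' he'
    have h2 := Finset.mem_erase.mp he'
    exact ⟨(Finset.mem_erase.mp h2.2).1, h2.1⟩
  rw [split] at hsum hj
  simp only [hve, hvn, Int.cast_zero, mul_zero, zero_add] at hj
  have hle : ∀ e' ∈ (univ.erase e).erase (P.nx e), c e' ≤ c e' * (F.a (P.v e') j : ℝ) := by
    intro e' he'
    obtain ⟨h2, h3⟩ := hmem e' he'
    have := mul_le_mul_of_nonneg_left (hv e' h2 h3) (hc e')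
    rwa [mul_one] at this
  have hle' := Finset.sum_le_sum hle
  have hce : c e = 1 := by linarith
  have hcn : c (P.nx e) = 1 := by linarith
  have hrest : ∑ e' ∈ (univ.erase e).erase (P.nx e), c e' = 1 := by linarith
  have heq : ∀ e' ∈ (univ.erase e).erase (P.nx e), c e' = c e' * (F.a (P.v e') j : ℝ) :=
    (Finset.sum_eq_sum_iff_of_le hle).mp (by rw [hrest]; exact hj)
  -- a vertex with positive coefficient
  obtain ⟨v2, hv2m, hv2⟩ : ∃ e' ∈ (univ.erase e).erase (P.nx e), 0 < c e' := by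
    by_contra hno
    push Not at hno
    have : ∑ e' ∈ (univ.erase e).erase (P.nx e), c e' ≤ 0 := Finset.sum_nonpos hno
    linarith
  obtain ⟨hv2e, hv2n⟩ := hmem v2 hv2m
  -- the edge after `e`
  have hA : P.elR (P.nx e) (toR (F.hat (P.v v2))) = 0 := by
    by_contra hne
    apply hn1
    apply ptv_sub P μ hμ e
    intro e' he'
    have h3 : 0 < P.elR e' (toR (F.hat (P.v e))) :=
      lt_of_le_of_ne (P.elR_hat_nonneg _ _) (Ne.symm he')
    rw [hel e', split, hce, hcn, one_mul, one_mul]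
    have h4 : c v2 * P.elR e' (toR (F.hat (P.v v2))) ≤
        ∑ e'' ∈ (univ.erase e).erase (P.nx e), c e'' * P.elR e' (toR (F.hat (P.v e''))) :=
      Finset.single_le_sum (f := fun e'' => c e'' * P.elR e' (toR (F.hat (P.v e''))))
        (fun e'' _ => mul_nonneg (hc e'') (P.elR_hat_nonneg _ _)) hv2m
    have h5 := P.elR_hat_nonneg e' (P.v (P.nx e))
    have h6 := P.elR_hat_nonneg e' (P.v v2)
    by_cases h7 : P.elR e' (toR (F.hat (P.v (P.nx e)))) = 0
    · rcases ptv_ends P e' (P.nx e) h7 with h8 | h8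
      · rw [← h8] at h4 ⊢
        have h9 : 0 < P.elR (P.nx e) (toR (F.hat (P.v v2))) :=
          lt_of_le_of_ne (P.elR_hat_nonneg _ _) (Ne.symm hne)
        have := mul_pos hv2 h9
        have h10 := P.elR_hat_nonneg (P.nx e) (P.v (P.nx e))
        linarith
      · exfalso
        have h9 : e = e' := P.nx.injective h8
        rw [← h9] at he'
        exact he' (P.elR_left e)
    · have h8 : 0 < P.elR e' (toR (F.hat (P.v (P.nx e)))) := lt_of_le_of_ne h5 (Ne.symm h7)
      have := mul_nonneg hv2.le h6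
      linarith
  -- the edge before `e`
  have hB' : P.elR (P.pv e) (toR (F.hat (P.v v2))) = 0 := by
    by_contra hne
    apply hn2
    apply ptv_sub P μ hμ (P.nx e)
    intro e' he'
    have h3 : 0 < P.elR e' (toR (F.hat (P.v (P.nx e)))) :=
      lt_of_le_of_ne (P.elR_hat_nonneg _ _) (Ne.symm he')
    rw [hel e', split, hce, hcn, one_mul, one_mul]
    have h4 : c v2 * P.elR e' (toR (F.hat (P.v v2))) ≤
        ∑ e'' ∈ (univ.erase e).erase (P.nx e), c e'' * P.elR e' (toR (F.hat (P.v e''))) :=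
      Finset.single_le_sum (f := fun e'' => c e'' * P.elR e' (toR (F.hat (P.v e''))))
        (fun e'' _ => mul_nonneg (hc e'') (P.elR_hat_nonneg _ _)) hv2m
    have h5 := P.elR_hat_nonneg e' (P.v e)
    have h6 := P.elR_hat_nonneg e' (P.v v2)
    by_cases h7 : P.elR e' (toR (F.hat (P.v e))) = 0
    · rcases ptv_ends P e' e h7 with h8 | h8
      · exfalso
        rw [← h8] at he'
        exact he' (P.elR_right e)
      · have h9 : e' = P.pv e := by
          apply P.nx.injective
          rw [P.nx_pv]; exact h8.symm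
        rw [h9] at h4 ⊢
        have h10 : 0 < P.elR (P.pv e) (toR (F.hat (P.v v2))) :=
          lt_of_le_of_ne (P.elR_hat_nonneg _ _) (Ne.symm hne)
        have := mul_pos hv2 h10
        have h11 := P.elR_hat_nonneg (P.pv e) (P.v e)
        linarith
    · have h8 : 0 < P.elR e' (toR (F.hat (P.v e))) := lt_of_le_of_ne h5 (Ne.symm h7)
      have := mul_nonneg hv2.le h6
      linarith
  -- the polygon is a triangle
  have hp : v2 = P.pv e := by
    rcases ptv_ends P (P.pv e) v2 hB' with h | h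
    · exact h
    · rw [P.nx_pv] at h; exact absurd h hv2e
  have haj : F.a (P.v v2) j = 1 := by
    have h2 := heq v2 hv2m
    have h3 : (F.a (P.v v2) j : ℝ) = 1 := by
      have h4 : c v2 * ((F.a (P.v v2) j : ℝ) - 1) = 0 := by linarith
      rcases mul_eq_zero.mp h4 with h5 | h5
      · exact absurd h5 hv2.ne'
      · linarith
    exact_mod_cast h3
  apply hB
  refine ⟨j, P.v v2, P.v_face v2, haj, fun i hi hne => ?_⟩
  by_contra hi0
  apply hne
  have hi1 : 1 ≤ F.a i j := by have := F.a_nonneg i j; omega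
  obtain ⟨α, β, γ, hx⟩ := P.span3 hw e (toR (F.hat i)) (by rw [ellR_toR, mem_face.mp hi]; simp)
  rw [← hp] at hx
  have hβ : 0 ≤ β := by
    have h3 := P.elR_hat_nonneg (P.nx e) i
    rw [hx, P.elR_comb3, hA, P.elR_left, mul_zero, mul_zero, zero_add, add_zero, P.elR_toR] at h3
    have h4 : (0 : ℝ) < (P.el (P.nx e) (F.hat (P.v e)) : ℝ) := by exact_mod_cast P.el_nx_pos e
    exact nonneg_of_mul_nonneg_left h3 h4
  have hγ : 0 ≤ γ := by
    have h3 := P.elR_hat_nonneg (P.pv e) i
    rw [hx, P.elR_comb3, hB', P.elR_pv_self, mul_zero, mul_zero, zero_add, zero_add,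
      P.elR_toR] at h3
    have h4 : (0 : ℝ) < (P.el (P.pv e) (F.hat (P.v (P.nx e))) : ℝ) := by
      exact_mod_cast P.el_pv_pos e
    exact nonneg_of_mul_nonneg_left h3 h4
  have hs : α + β + γ = 1 := by
    have h3 := congrFun hx 3
    simp only [Pi.add_apply, Pi.smul_apply, smul_eq_mul, toR_three] at h3
    linarith
  have hα : α = (F.a i j : ℝ) := by
    have h3 := congrFun hx j.castSucc
    simp only [Pi.add_apply, Pi.smul_apply, smul_eq_mul, toR, F.hat_castSucc, hve, hvn, haj,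
      Int.cast_one, Int.cast_zero, mul_one, mul_zero, add_zero] at h3
    exact h3.symm
  have hα1 : (1 : ℝ) ≤ α := by rw [hα]; exact_mod_cast hi1
  have hα' : α = 1 := by linarith
  have hβ' : β = 0 := by linarith
  have hγ' : γ = 0 := by linarith
  rw [hα', hβ', hγ', one_smul, zero_smul, zero_smul, add_zero, add_zero] at hx
  exact F.hat_injective (toR_injective hx)

end Pool.Agent.H37.SM
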