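import Pool.Agent.H37.SM.PLB

/-! Module PTZ: the exponents with vanishing coordinate on a polygon. -/

set_option autoImplicit false

namespace Pool.Agent.H37.SM

open Finset

variable {r : ℕ} {F : Dat r} {w : Fin 3 → ℤ} {N : ℤ}

namespace PTZaux

/-- the point on `ℓ_w = 0` with `j`-th coordinate one and the two others zero -/
noncomputable def pt (w : Fin 3 → ℤ) (N : ℤ) (j : Fin 3) : Fin 4 → ℝ := fun k =>
  if k = j.castSucc then 1 else if k = 3 then (w j : ℝ) / N else 0

lemma ellR_pt (hN : 0 < N) (j : Fin 3) : ellR w N (pt w N j) = 0 := by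
  have hN' : (N : ℝ) ≠ 0 := by exact_mod_cast hN.ne'
  fin_cases j <;> simp [ellR, pt] <;> field_simp <;> ring

lemma pt_self (j : Fin 3) : pt w N j j.castSucc = 1 := by simp [pt]

lemma pt_three (j : Fin 3) : pt w N j 3 = (w j : ℝ) / N := by
  fin_cases j <;> simp [pt]

lemma pt_other (j k : Fin 3) (h : k ≠ j) : pt w N j k.castSucc = 0 := by
  fin_cases j <;> fin_cases k <;> simp [pt] at h ⊢

lemma v3 (P : Poly F w N) (e : Fin P.m) : toR (F.hat (P.v e)) 3 = 1 := by
  simp [toR]

lemma toR_cs (F : Dat r) (i : Fin r) (j : Fin 3) : toR (F.hat i) j.castSucc = (F.a i j : ℝ) := by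
  simp [toR, F.hat_castSucc]

lemma toR_inj {p q : Pt} (h : toR p = toR q) : p = q := by
  funext j
  have := congrFun h j
  simpa [toR] using this

lemma elR_add (P : Poly F w N) (e : Fin P.m) (x y : Fin 4 → ℝ) :
    P.elR e (x + y) = P.elR e x + P.elR e y := ellR_add _ _ _ _

lemma elR_smul (P : Poly F w N) (e : Fin P.m) (t : ℝ) (x : Fin 4 → ℝ) :
    P.elR e (t • x) = t * P.elR e x := ellR_smul _ _ _ _

lemma elR_sub (P : Poly F w N) (e : Fin P.m) (x y : Fin 4 → ℝ) :
    P.elR e (x - y) = P.elR e x - P.elR e y := ellR_sub _ _ _ _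

lemma elR_v_nonneg (P : Poly F w N) (e : Fin P.m) (i : Fin r) :
    0 ≤ P.elR e (toR (F.hat i)) := by
  rw [P.elR_toR]; exact_mod_cast P.el_hat_nonneg e i

lemma ellR_v (P : Poly F w N) (e : Fin P.m) : ellR w N (toR (F.hat (P.v e))) = 0 := by
  rw [ellR_toR, P.ell_v e]; simp

/-- a functional nonnegative on the vertices and nonpositive at an interior point vanishes -/
lemma vanish (P : Poly F w N) (hw : Pos3 w) (φ : (Fin 4 → ℝ) →ₗ[ℝ] ℝ)
    (hφ : ∀ e, 0 ≤ φ (toR (F.hat (P.v e)))) (μ : Fin 4 → ℝ) (h0 : ellR w N μ = 0)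
    (hpos : ∀ e, 0 < P.elR e μ) (hμ : φ μ ≤ 0) (x : Fin 4 → ℝ) (hx : ellR w N x = 0) :
    φ x = 0 := by
  have hv : ∀ e, φ (toR (F.hat (P.v e))) = 0 := by
    intro e1
    by_contra hne
    have hgt : 0 < φ (toR (F.hat (P.v e1))) := lt_of_le_of_ne (hφ e1) (Ne.symm hne)
    -- choose δ
    obtain ⟨δ, hδ, hδe⟩ : ∃ δ : ℝ, 0 < δ ∧ ∀ e, δ * P.elR e (toR (F.hat (P.v e1))) ≤ P.elR e μ := by
      have hfin : ∀ S : Finset (Fin P.m), ∃ δ : ℝ, 0 < δ ∧
          ∀ e ∈ S, δ * P.elR e (toR (F.hat (P.v e1))) ≤ P.elR e μ := by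
        intro S
        induction S using Finset.induction_on with
        | empty => exact ⟨1, one_pos, by simp⟩
        | insert a S ha ih =>
          obtain ⟨δ, hδ, h⟩ := ih
          have hnn := elR_v_nonneg P a (P.v e1)
          have hp := hpos a
          refine ⟨min δ (P.elR a μ / (P.elR a (toR (F.hat (P.v e1))) + 1)), ?_, ?_⟩
          · apply lt_min hδ
            apply div_pos hp; linarith
          · intro e he
            rcases Finset.mem_insert.mp he with rfl | he
            · calc _ ≤ (P.elR e μ / (P.elR e (toR (F.hat (P.v e1))) + 1)) *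
                    P.elR e (toR (F.hat (P.v e1))) :=
                    mul_le_mul_of_nonneg_right (min_le_right _ _) hnn
                _ ≤ P.elR e μ := by
                    rw [div_mul_eq_mul_div, div_le_iff₀ (by linarith)]
                    nlinarith
            · calc _ ≤ δ * P.elR e (toR (F.hat (P.v e1))) :=
                    mul_le_mul_of_nonneg_right (min_le_left _ _) (elR_v_nonneg P e _)
                _ ≤ _ := h e he
      obtain ⟨δ, h1, h2⟩ := hfin univ
      exact ⟨δ, h1, fun e => h2 e (mem_univ _)⟩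
    obtain ⟨c, hc, hcx⟩ := P.cone (μ - δ • toR (F.hat (P.v e1)))
      (by rw [ellR_sub, ellR_smul, ellR_v, h0]; simp)
      (fun e => by
        show 0 ≤ P.elR e _
        rw [elR_sub, elR_smul]; linarith [hδe e])
    have h1 : 0 ≤ φ (μ - δ • toR (F.hat (P.v e1))) := by
      rw [hcx, map_sum]
      refine Finset.sum_nonneg fun e _ => ?_
      rw [map_smul, smul_eq_mul]
      exact mul_nonneg (hc e) (hφ e)
    rw [map_sub, map_smul, smul_eq_mul] at h1
    have := mul_pos hδ hgt
    linarith
  obtain ⟨α, β, γ, h⟩ := P.span3 hw ⟨0, P.m_pos⟩ x hx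
  rw [h]
  simp only [map_add, map_smul, hv, smul_zero, add_zero]

end PTZaux

open PTZaux

/-- all exponents of the facet with `j`-th coordinate zero: either one vertex or an edge with
adjacent facet the coordinate facet. -/
def ZeroVertex (P : Poly F w N) (j : Fin 3) : Prop :=
  ∃ e : Fin P.m, ∀ i ∈ F.face w N, F.a i j = 0 ↔ i = P.v e

def ZeroEdge (P : Poly F w N) (j : Fin 3) : Prop :=
  ∃ e : Fin P.m, ∀ i ∈ F.face w N, F.a i j = 0 ↔ i ∈ P.edge e

namespace PTZaux

lemma conv (P : Poly F w N) {i : Fin r} (hi : i ∈ F.face w N) :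
    ∃ c : Fin P.m → ℝ, (∀ e, 0 ≤ c e) ∧ (∑ e, c e = 1) ∧
      toR (F.hat i) = ∑ e, c e • toR (F.hat (P.v e)) := by
  obtain ⟨c, hc, h⟩ := P.cone (toR (F.hat i)) (by
    rw [ellR_toR, mem_face.mp hi]; simp) (fun e => elR_v_nonneg P e i)
  refine ⟨c, hc, ?_, h⟩
  have h3 := congrFun h 3
  rw [Finset.sum_apply] at h3
  simp only [Pi.smul_apply, v3, smul_eq_mul, mul_one] at h3
  rw [← h3]; simp [toR]

end PTZaux

/-- Proof: the functional `p_j` is nonnegative on the vertices. If it vanishes at two vertices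
`v e1`, `v e2`: it suffices to find an edge `e` with `p_j = 0` at both ends. Let `e` be such that
`p_j (v e) = 0` and suppose `p_j > 0` at `v (nx e)` and at `v (pv e)`; by `span3` at `e`
`p_j = α el_e' ...`: on `ℓ_w = 0` the functional `p_j` is `c1 · elR e + c2 · elR (pv e)` with
`c1, c2 > 0` (evaluate at `v (nx e)`, `v (pv e)`), so it is positive at every other vertex. So if it
vanishes at another vertex, then `p_j` vanishes at `v (nx e)` or at `v (pv e)`, i.e. on an edge, on
`ℓ_w = 0` it is a positive multiple of the edge functional; conclude for all exponents of the face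
with `P.cone`/`edge_conv`. If it vanishes only at the vertex `v e`, an exponent `i` with `a_ij = 0` is
(by `P.cone`) a nonnegative combination of vertices, only `v e` occurs. -/
theorem zero_types (P : Poly F w N) (hw : Pos3 w) (hN : 0 < N) (j : Fin 3)
    (hj : ∃ i ∈ F.face w N, F.a i j = 0) : ZeroVertex P j ∨ ZeroEdge P j := by
  have hann : ∀ i, (0 : ℝ) ≤ (F.a i j : ℝ) := fun i => by exact_mod_cast F.a_nonneg i j
  have hcoord : ∀ i ∈ F.face w N, F.a i j = 0 → ∀ c : Fin P.m → ℝ, (∀ e, 0 ≤ c e) →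
      toR (F.hat i) = ∑ e, c e • toR (F.hat (P.v e)) → ∀ e, F.a (P.v e) j ≠ 0 → c e = 0 := by
    intro i hi hi0 c hc h e he
    have hjc := congrFun h j.castSucc
    rw [Finset.sum_apply] at hjc
    simp only [Pi.smul_apply, smul_eq_mul, toR_cs] at hjc
    rw [hi0] at hjc
    have hz := (Finset.sum_eq_zero_iff_of_nonneg (fun e _ => mul_nonneg (hc e) (hann _))).mp
      (by rw [← hjc]; simp) e (mem_univ e)
    rcases mul_eq_zero.mp hz with h0 | h0
    · exact h0
    · exact absurd (by exact_mod_cast h0) he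
  obtain ⟨e0, he0⟩ : ∃ e, F.a (P.v e) j = 0 := by
    obtain ⟨i, hi, hi0⟩ := hj
    obtain ⟨c, hc, hs, h⟩ := conv P hi
    by_contra hno
    push Not at hno
    have : ∑ e, c e = 0 := Finset.sum_eq_zero fun e _ => hcoord i hi hi0 c hc h e (hno e)
    rw [hs] at this
    exact one_ne_zero this
  by_cases huniq : ∀ e, F.a (P.v e) j = 0 → e = e0
  · left
    refine ⟨e0, fun i hi => ⟨fun h0 => ?_, fun h => by rw [h]; exact he0⟩⟩
    obtain ⟨c, hc, hs, h⟩ := conv P hi
    have hz : ∀ e, e ≠ e0 → c e = 0 := fun e he => hcoord i hi h0 c hc h e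
      (fun h' => he (huniq e h'))
    have h1 : c e0 = 1 := by
      rw [← hs]
      exact (Finset.sum_eq_single e0 (fun e _ he => hz e he) (fun h => absurd (mem_univ _) h)).symm
    have h2 : toR (F.hat i) = toR (F.hat (P.v e0)) := by
      rw [h, Finset.sum_eq_single e0 (fun e _ he => by rw [hz e he, zero_smul])
        (fun h => absurd (mem_univ _) h), h1, one_smul]
    exact F.hat_injective (toR_inj h2)
  · right
    push Not at huniq
    obtain ⟨e1, he1, hne1⟩ := huniq
    -- an edge with both ends in p_j = 0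
    obtain ⟨e, hl, hr⟩ : ∃ e, F.a (P.v e) j = 0 ∧ F.a (P.v (P.nx e)) j = 0 := by
      by_cases hA : F.a (P.v (P.nx e0)) j = 0
      · exact ⟨e0, he0, hA⟩
      by_cases hB : F.a (P.v (P.pv e0)) j = 0
      · exact ⟨P.pv e0, hB, by rw [P.nx_pv]; exact he0⟩
      exfalso
      obtain ⟨α, β, γ, h⟩ := P.span3 hw e0 (toR (F.hat (P.v e1))) (ellR_v P e1)
      have hα : 0 ≤ α := by
        have h1 := elR_v_nonneg P e0 (P.v e1)
        rw [h, elR_add, elR_add, elR_smul, elR_smul, elR_smul] at h1
        have h2 : P.elR e0 (toR (F.hat (P.v e0))) = 0 := by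
          rw [P.elR_toR, P.el_left]; simp
        have h3 : P.elR e0 (toR (F.hat (P.v (P.nx e0)))) = 0 := by
          rw [P.elR_toR, P.el_right]; simp
        have h4 : 0 < P.elR e0 (toR (F.hat (P.v (P.pv e0)))) := by
          rw [P.elR_toR]
          have := P.el_nx_pos (P.pv e0)
          rw [P.nx_pv] at this
          exact_mod_cast this
        rw [h2, h3, mul_zero, mul_zero, add_zero, add_zero] at h1
        exact nonneg_of_mul_nonneg_left h1 h4
      have hγ : 0 ≤ γ := by
        have h1 := elR_v_nonneg P (P.pv e0) (P.v e1)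
        rw [h, elR_add, elR_add, elR_smul, elR_smul, elR_smul] at h1
        have h2 : P.elR (P.pv e0) (toR (F.hat (P.v (P.pv e0)))) = 0 := by
          rw [P.elR_toR, P.el_left]; simp
        have h3 : P.elR (P.pv e0) (toR (F.hat (P.v e0))) = 0 := by
          have := P.el_right (P.pv e0)
          rw [P.nx_pv] at this
          rw [P.elR_toR, this]; simp
        have h4 : 0 < P.elR (P.pv e0) (toR (F.hat (P.v (P.nx e0)))) := by
          rw [P.elR_toR]
          exact_mod_cast P.el_pv_pos e0
        rw [h2, h3, mul_zero, mul_zero, zero_add, zero_add] at h1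
        exact nonneg_of_mul_nonneg_left h1 h4
      have hc := congrFun h j.castSucc
      simp only [Pi.add_apply, Pi.smul_apply, smul_eq_mul, toR_cs, he0, he1] at hc
      have hA' : (0 : ℝ) < F.a (P.v (P.nx e0)) j :=
        lt_of_le_of_ne (hann _) (fun h => hA (by exact_mod_cast h.symm))
      have hB' : (0 : ℝ) < F.a (P.v (P.pv e0)) j :=
        lt_of_le_of_ne (hann _) (fun h => hB (by exact_mod_cast h.symm))
      have hα0 : α = 0 := by
        have h1 := mul_nonneg hα hB'.le
        have h2 := mul_nonneg hγ hA'.le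
        push_cast at hc
        have h3 : α * (F.a (P.v (P.pv e0)) j : ℝ) = 0 := by linarith
        rcases mul_eq_zero.mp h3 with h | h
        · exact h
        · exact absurd h hB'.ne'
      have hγ0 : γ = 0 := by
        have h1 := mul_nonneg hα hB'.le
        have h2 := mul_nonneg hγ hA'.le
        push_cast at hc
        have h3 : γ * (F.a (P.v (P.nx e0)) j : ℝ) = 0 := by linarith
        rcases mul_eq_zero.mp h3 with h | h
        · exact h
        · exact absurd h hA'.ne'
      rw [hα0, hγ0, zero_smul, zero_smul, zero_add, add_zero] at h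
      have h3 := congrFun h 3
      simp only [Pi.smul_apply, smul_eq_mul, v3, mul_one] at h3
      rw [← h3, one_smul] at h
      exact hne1 (P.v_inj (F.hat_injective (toR_inj h)))
    refine ⟨e, fun i hi => ?_⟩
    have hpos : 0 < P.elR e (toR (F.hat (P.v (P.pv e)))) := by
      rw [P.elR_toR]
      have := P.el_nx_pos (P.pv e)
      rw [P.nx_pv] at this
      exact_mod_cast this
    have key : ∀ x : Fin 4 → ℝ, ellR w N x = 0 → ∃ α : ℝ,
        P.elR e x = α * P.elR e (toR (F.hat (P.v (P.pv e)))) ∧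
        x j.castSucc = α * (F.a (P.v (P.pv e)) j : ℝ) := by
      intro x hx
      obtain ⟨α, β, γ, h⟩ := P.span3 hw e x hx
      refine ⟨α, ?_, ?_⟩
      · rw [h, elR_add, elR_add, elR_smul, elR_smul, elR_smul]
        have h2 : P.elR e (toR (F.hat (P.v e))) = 0 := by
          rw [P.elR_toR, P.el_left]; simp
        have h3 : P.elR e (toR (F.hat (P.v (P.nx e)))) = 0 := by
          rw [P.elR_toR, P.el_right]; simp
        rw [h2, h3]; ring
      · have hc := congrFun h j.castSucc
        simp only [Pi.add_apply, Pi.smul_apply, smul_eq_mul, toR_cs, hl, hr] at hc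
        rw [hc]; push_cast; ring
    have hapos : (F.a (P.v (P.pv e)) j : ℝ) ≠ 0 := by
      intro h0
      obtain ⟨α, -, h⟩ := key (pt w N j) (ellR_pt hN j)
      rw [h0, mul_zero, pt_self] at h
      exact one_ne_zero h
    obtain ⟨α, h1, h2⟩ := key (toR (F.hat i)) (by rw [ellR_toR, mem_face.mp hi]; simp)
    rw [toR_cs] at h2
    rw [P.elR_toR] at h1
    constructor
    · intro h0
      rw [h0] at h2
      have hα : α = 0 := by
        rcases mul_eq_zero.mp (by rw [← h2]; simp : α * (F.a (P.v (P.pv e)) j : ℝ) = 0) with h | h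
        · exact h
        · exact absurd h hapos
      rw [hα, zero_mul] at h1
      refine Finset.mem_inter.mpr ⟨hi, mem_face.mpr ?_⟩
      exact_mod_cast h1
    · intro hi'
      have h3 : P.el e (F.hat i) = 0 := mem_face.mp (Finset.mem_inter.mp hi').2
      rw [h3] at h1
      have hα : α = 0 := by
        rcases mul_eq_zero.mp (by rw [← h1]; simp :
            α * P.elR e (toR (F.hat (P.v (P.pv e)))) = 0) with h | h
        · exact h
        · exact absurd h hpos.ne'
      rw [hα, zero_mul] at h2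
      exact_mod_cast h2

/-- the point `μ` is a nonnegative combination of the exponents: every point of `ω` -/
theorem Poly.om_pos (P : Poly F w N) (hw : Pos3 w) (hN : 0 < N) (d : ℤ) (μ : Pt)
    (hμ : μ ∈ P.om d) (j : Fin 3) : 1 ≤ μ j.castSucc := by
  by_contra hlt
  have hle : μ j.castSucc ≤ 0 := by omega
  have h := vanish P hw (LinearMap.proj (R := ℝ) (φ := fun _ : Fin 4 => ℝ) j.castSucc)
    (fun e => by
      rw [LinearMap.proj_apply, toR_cs]
      exact_mod_cast F.a_nonneg _ j) (toR μ)
    (by rw [ellR_toR, hμ.1]; simp)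
    (fun e => by
      rw [P.elR_toR]
      have := hμ.2.2 e
      exact_mod_cast (by omega : 0 < P.el e μ))
    (by
      rw [LinearMap.proj_apply]
      show ((μ j.castSucc : ℤ) : ℝ) ≤ 0
      exact_mod_cast hle)
    (pt w N j) (ellR_pt hN j)
  rw [LinearMap.proj_apply, pt_self] at h
  exact one_ne_zero h

/-- If `ν ∈ om d`, `d ≥ 2`, has two coordinates equal to one, there is an exponent of the face with
both these coordinates zero.
Proof: otherwise `a_i + a_j ≥ 1` on the face, i.e. `φ = p_i + p_j - p_3 ≥ 0` on the cone, `φ(ν) = 2 - d ≤ 0`;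
so `φ(ν) = 0`; `ν` is interior (`ν - δ x` is in the cone for every vertex `x` and small `δ > 0`, by the
strict inequalities), so `φ` vanishes at all vertices, hence on `ℓ_w = 0` (`span3`); then
`p_i + p_j - p_3` is a multiple of `ℓ_w`; but `w_k ≠ 0` for the third coordinate. -/
theorem exists_common (P : Poly F w N) (hw : Pos3 w) (hN : 0 < N) (d : ℤ) (hd : 2 ≤ d) (ν : Pt)
    (hν : ν ∈ P.om d) (i j : Fin 3) (hij : i ≠ j) (h1 : ν i.castSucc = 1)
    (h2 : ν j.castSucc = 1) : ∃ l ∈ F.face w N, F.a l i = 0 ∧ F.a l j = 0 := by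
  by_contra hno
  push Not at hno
  have hsum : ∀ l ∈ F.face w N, 1 ≤ F.a l i + F.a l j := by
    intro l hl
    have ha := F.a_nonneg l i
    have hb := F.a_nonneg l j
    by_contra hlt
    have h0 : F.a l i = 0 := by omega
    exact hno l hl h0 (by omega)
  obtain ⟨φ, hφ⟩ : ∃ φ : (Fin 4 → ℝ) →ₗ[ℝ] ℝ,
      ∀ x, φ x = x i.castSucc + x j.castSucc - x 3 :=
    ⟨(LinearMap.proj (R := ℝ) (φ := fun _ : Fin 4 => ℝ) i.castSucc) +
      (LinearMap.proj (R := ℝ) (φ := fun _ : Fin 4 => ℝ) j.castSucc) -
      (LinearMap.proj (R := ℝ) (φ := fun _ : Fin 4 => ℝ) 3), fun x => rfl⟩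
  have hthird : ∀ i j : Fin 3, ∃ k : Fin 3, k ≠ i ∧ k ≠ j := by decide
  obtain ⟨k, hki, hkj⟩ := hthird i j
  have h := vanish P hw φ
    (fun e => by
      rw [hφ, toR_cs, toR_cs, v3]
      have := hsum _ (P.v_face e)
      have h' : (1 : ℝ) ≤ F.a (P.v e) i + F.a (P.v e) j := by exact_mod_cast this
      linarith) (toR ν)
    (by rw [ellR_toR, hν.1]; simp)
    (fun e => by
      rw [P.elR_toR]
      have := hν.2.2 e
      exact_mod_cast (by omega : 0 < P.el e ν))
    (by
      rw [hφ]
      show ((ν i.castSucc : ℤ) : ℝ) + ((ν j.castSucc : ℤ) : ℝ) - ((ν 3 : ℤ) : ℝ) ≤ 0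
      rw [h1, h2, hν.2.1]
      have : (2 : ℝ) ≤ d := by exact_mod_cast hd
      push_cast
      linarith)
    (pt w N k) (ellR_pt hN k)
  rw [hφ, pt_other k i hki.symm, pt_other k j hkj.symm, pt_three] at h
  have hw' : (0 : ℝ) < w k := by exact_mod_cast hw k
  have hN' : (0 : ℝ) < N := by exact_mod_cast hN
  have := div_pos hw' hN'
  linarith

end Pool.Agent.H37.SM
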