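import Pool.Agent.H37.SM.LAY

/-! Module RAI: raising a 1-chain along a facet functional. -/

set_option autoImplicit false

namespace Pool.Agent.H37.SM

open Finset

variable {r : ℕ}

/-- a family of supports (one for each component of a 1-chain) which survives all changes by
boundaries: `D_a` maps `Z_j` to itself and `Z_a` to every `Z_j` -/
def Stable {ι : Type*} (F : Dat r) (B : Finset (Fin r)) (s : ℂ) (c : ι → Fin 4 → ℂ)
    (Z : ι → Set Pt) : Prop :=
  ∀ a j, ∀ ξ : LL, (SuppIn (Z j) ξ → SuppIn (Z j) (D F B s (c a) ξ)) ∧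
    (SuppIn (Z a) ξ → SuppIn (Z j) (D F B s (c a) ξ))

lemma bd2_zero {ι : Type*} [Fintype ι] (F : Dat r) (B : Finset (Fin r)) (s : ℂ)
    (c : ι → Fin 4 → ℂ) (j : ι) : bd2 F B s c (fun _ _ => 0) j = 0 := by
  unfold bd2
  refine Finset.sum_eq_zero fun i _ => ?_
  rw [sub_self, map_zero]

lemma bd2_add {ι : Type*} [Fintype ι] (F : Dat r) (B : Finset (Fin r)) (s : ℂ)
    (c : ι → Fin 4 → ℂ) (ζ ζ' : ι → ι → LL) (j : ι) :
    bd2 F B s c (fun i j => ζ i j + ζ' i j) j = bd2 F B s c ζ j + bd2 F B s c ζ' j := by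
  unfold bd2
  rw [← Finset.sum_add_distrib]
  refine Finset.sum_congr rfl fun i _ => ?_
  rw [← map_add]
  congr 1
  exact add_sub_add_comm _ _ _ _

lemma bd_sub_bd2 {ι : Type*} [Fintype ι] (F : Dat r) (B : Finset (Fin r)) (s : ℂ)
    (c : ι → Fin 4 → ℂ) (η : ι → LL) (ζ : ι → ι → LL) :
    bd F B s c (fun j => η j - bd2 F B s c ζ j) = bd F B s c η := by
  have h := bd_bd2 F B s c ζ
  unfold bd at h ⊢
  have h1 : ∀ i ∈ (univ : Finset ι), D F B s (c i) (η i - bd2 F B s c ζ i) =
      D F B s (c i) (η i) - D F B s (c i) (bd2 F B s c ζ i) := fun i _ => map_sub _ _ _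
  rw [Finset.sum_congr rfl h1, Finset.sum_sub_distrib, h, sub_zero]

/-- the boundary correction keeps stable families of supports -/
lemma suppIn_corr {ι : Type*} [Fintype ι] (F : Dat r) (B : Finset (Fin r)) (s : ℂ)
    (c : ι → Fin 4 → ℂ) (e : ι → ℂ) (W : Pt → ℂ) (Z : ι → Set Pt) (hZ : Stable F B s c Z)
    (η : ι → LL) (hη : ∀ j, SuppIn (Z j) (η j)) (j : ι) :
    SuppIn (Z j) (η j - bd2 F B s c (fun i j => e i • dg W (η j)) j) := by
  refine (hη j).sub ?_
  unfold bd2
  refine SuppIn.sum fun i _ => ?_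
  rw [map_sub]
  refine SuppIn.sub ?_ ?_
  · exact (hZ i j _).1 (((hη j).dg W).smul _)
  · exact (hZ i j _).2 (((hη i).dg W).smul _)

/-- a closed set is a stable support -/
lemma stable_closed {ι : Type*} (F : Dat r) (B : Finset (Fin r)) (s : ℂ)
    (c : ι → Fin 4 → ℂ) (X : Set Pt) (hX : Closed F B X) : Stable F B s c (fun _ => X) :=
  fun _ _ _ => ⟨fun h => h.D hX s _, fun h => h.D hX s _⟩

/-- Raising along `ℓ_w` to the level `n1`: possible if there is no critical level below `n1` at
which the chain is still supported.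

Proof. All `η_j` are supported in `{n0 ≤ ℓ_w}` for some `n0` (finite supports). Induction on
`n1 - n0` (natural number): if `n0 < n1`, then either `n0` is critical, and `hnc` says that the
`η_j` are supported in `{n0 + 1 ≤ ℓ_w}`, or apply `layer1` with `X ∩ {n0 ≤ ℓ_w}`,
`X ∩ {n0 + 1 ≤ ℓ_w}` (closed by `hmin`, `ell_add`); the scalar is `ℓ_w(p) + N s` by `lin_ec`,
`(ec w N) 3 = -N`. The new chain is `η - bd2 ζ` with `ζ i j = e i • dg W (η j)`; its boundary is
that of `η` (`bd_bd2`). Supports in `Z`: `dg W (η j)` is supported in `Z j`, use `Stable`.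
Compose the `ζ` (the `bd2` is additive in `ζ`). `hnc` for the new chain: levels `n < n1` critical:
if `n < n0 + 1` clear, else it is preserved since `{n < ℓ_w}` is a stable support (closed). -/
theorem raise1 {ι : Type*} [Fintype ι] (F : Dat r) (B : Finset (Fin r)) (s : ℂ)
    (c : ι → Fin 4 → ℂ) (e : ι → ℂ) (w : Fin 3 → ℤ) (N : ℤ) (hec : ∑ i, e i • c i = ec w N)
    (hmin : ∀ l ∈ B, 0 ≤ ell w N (F.hat l)) (X : Set Pt) (hX : Closed F B X) (n1 : ℤ)
    (η : ι → LL) (hη : ∀ i, SuppIn X (η i))
    (hnc : ∀ n : ℤ, n < n1 → (n : ℂ) + N * s = 0 → ∀ j, SuppIn {p | n < ell w N p} (η j))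
    (hb : SuppIn {p | n1 ≤ ell w N p} (bd F B s c η)) :
    ∃ ζ : ι → ι → LL, (∀ j, SuppIn (X ∩ {p | n1 ≤ ell w N p}) (η j - bd2 F B s c ζ j)) ∧
      ∀ Z : ι → Set Pt, Stable F B s c Z → (∀ j, SuppIn (Z j) (η j)) →
        ∀ j, SuppIn (Z j) (η j - bd2 F B s c ζ j) := by
  have hcl : ∀ n : ℤ, Closed F B {p | n ≤ ell w N p} := by
    intro n p hp i hi
    have h1 : n ≤ ell w N p := hp
    show n ≤ ell w N (p + F.hat i)
    rw [ell_add]; have := hmin i hi; omega
  have hcl' : ∀ n : ℤ, Closed F B {p | n < ell w N p} := by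
    intro n p hp i hi
    have h1 : n < ell w N p := hp
    show n < ell w N (p + F.hat i)
    rw [ell_add]; have := hmin i hi; omega
  have key : ∀ k : ℕ, ∀ η : ι → LL, (∀ i, SuppIn (X ∩ {p | n1 - (k : ℤ) ≤ ell w N p}) (η i)) →
      (∀ n : ℤ, n < n1 → (n : ℂ) + N * s = 0 → ∀ j, SuppIn {p | n < ell w N p} (η j)) →
      SuppIn {p | n1 ≤ ell w N p} (bd F B s c η) →
      ∃ ζ : ι → ι → LL, (∀ j, SuppIn (X ∩ {p | n1 ≤ ell w N p}) (η j - bd2 F B s c ζ j)) ∧
      ∀ Z : ι → Set Pt, Stable F B s c Z → (∀ j, SuppIn (Z j) (η j)) →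
        ∀ j, SuppIn (Z j) (η j - bd2 F B s c ζ j) := by
    intro k
    induction k with
    | zero =>
      intro η hη _ _
      refine ⟨fun _ _ => 0, fun j => ?_, fun Z _ hZ j => ?_⟩
      · rw [bd2_zero, sub_zero]
        refine (hη j).mono ?_
        rintro p ⟨h1, h2⟩
        refine ⟨h1, ?_⟩
        have h3 : n1 - ((0 : ℕ) : ℤ) ≤ ell w N p := h2
        show n1 ≤ ell w N p
        simpa using h3
      · rw [bd2_zero, sub_zero]
        exact hZ j
    | succ k ih =>
      intro η hη hnc hb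
      by_cases hcrit : ((n1 - ((k + 1 : ℕ) : ℤ) : ℤ) : ℂ) + N * s = 0
      · refine ih η (fun i => ?_) hnc hb
        intro p hp
        refine ⟨(hη i p hp).1, ?_⟩
        have h1 : n1 - ((k + 1 : ℕ) : ℤ) < ell w N p :=
          hnc _ (by push_cast; omega) hcrit i p hp
        show n1 - (k : ℤ) ≤ ell w N p
        push_cast at h1
        omega
      · obtain ⟨W, hW⟩ := layer1 F B s c e (X ∩ {p | n1 - ((k + 1 : ℕ) : ℤ) ≤ ell w N p})
          (X ∩ {p | n1 - (k : ℤ) ≤ ell w N p}) (hX.inter (hcl _)) (hX.inter (hcl _))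
          (by
            rintro p ⟨h1, h2⟩
            refine ⟨h1, ?_⟩
            have h3 : n1 - (k : ℤ) ≤ ell w N p := h2
            show n1 - ((k + 1 : ℕ) : ℤ) ≤ ell w N p
            push_cast
            omega)
          (by
            rintro p ⟨h1, h2⟩ h3
            have h4 : n1 - ((k + 1 : ℕ) : ℤ) ≤ ell w N p := h2
            have h5 : ¬ (n1 - (k : ℤ) ≤ ell w N p) := fun h => h3 ⟨h1, h⟩
            have h6 : ell w N p = n1 - ((k + 1 : ℕ) : ℤ) := by
              push_cast at h4 ⊢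
              omega
            have h7 : ec w N 3 = -(N : ℂ) := rfl
            rw [hec, lin_ec, h7, h6]
            intro h
            apply hcrit
            rw [← h]; ring)
          (by
            rintro p ⟨h1, h2⟩ h3 l hl
            have h4 : n1 - ((k + 1 : ℕ) : ℤ) ≤ ell w N p := h2
            rw [hec, lin_ec]
            rcases (hmin l hl).eq_or_lt with h | h
            · left
              rw [← h]; simp
            · right
              refine ⟨hX p h1 l hl, ?_⟩
              show n1 - (k : ℤ) ≤ ell w N (p + F.hat l)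
              rw [ell_add]
              push_cast at h4
              omega)
          η hη
          (by
            intro p hp
            refine ⟨?_, ?_⟩
            · have : SuppIn X (bd F B s c η) :=
                SuppIn.sum fun i _ => ((hη i).mono (fun _ h => h.1)).D hX s _
              exact this p hp
            · have h1 : n1 ≤ ell w N p := hb p hp
              show n1 - (k : ℤ) ≤ ell w N p
              omega)
        obtain ⟨ζ, hζ1, hζ2⟩ := ih (fun j => η j - bd2 F B s c (fun i j => e i • dg W (η j)) j)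
          hW
          (fun n hn hcr => suppIn_corr F B s c e W (fun _ => {p | n < ell w N p})
            (stable_closed F B s c _ (hcl' n)) η (hnc n hn hcr))
          (by rw [bd_sub_bd2]; exact hb)
        have heq : ∀ j, η j - bd2 F B s c (fun i j => e i • dg W (η j) + ζ i j) j =
            η j - bd2 F B s c (fun i j => e i • dg W (η j)) j - bd2 F B s c ζ j := by
          intro j
          rw [bd2_add, sub_add_eq_sub_sub]
        refine ⟨fun i j => e i • dg W (η j) + ζ i j, fun j => ?_, fun Z hZ hηZ j => ?_⟩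
        · rw [heq]
          exact hζ1 j
        · rw [heq]
          exact hζ2 Z hZ (suppIn_corr F B s c e W Z hZ η hηZ) j
  -- a lower bound for the supports
  have hfin : (⋃ j, {p | cf (η j) p ≠ 0}).Finite := Set.finite_iUnion fun j => cf_finite _
  obtain ⟨m, hm⟩ := (hfin.image (ell w N)).bddBelow
  refine key (n1 - m).toNat η (fun i p hp => ⟨hη i p hp, ?_⟩) hnc hb
  have h1 : m ≤ ell w N p := hm ⟨p, Set.mem_iUnion.mpr ⟨i, hp⟩, rfl⟩
  show n1 - ((n1 - m).toNat : ℤ) ≤ ell w N p
  omega

end Pool.Agent.H37.SM
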