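import Mathlib

/-! Module TWD: the two-dimensional problem. Functions on `ℤ × ℤ` (degree `k`, position `t`) with
finite support. -/

set_option autoImplicit false

namespace Pool.Agent.H37.SM

open Finset

/-- `y[k,t] ↦ (k - s) y[k,t] + ∑_j κ_j [k+1, t+j]` on finitely supported functions -/
noncomputable def tD0 (κ : Polynomial ℂ) (s : ℂ) (y : ℤ × ℤ → ℂ) : ℤ × ℤ → ℂ := fun p =>
  ((p.1 : ℂ) - s) * y p + ∑ j ∈ κ.support, κ.coeff j * y (p.1 - 1, p.2 - j)

/-- `y[k,t] ↦ (t + α) y[k,t] + ∑_j j κ_j [k+1, t+j]` -/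
noncomputable def tDt (κ : Polynomial ℂ) (α : ℂ) (y : ℤ × ℤ → ℂ) : ℤ × ℤ → ℂ := fun p =>
  ((p.2 : ℂ) + α) * y p + ∑ j ∈ κ.support, (j : ℂ) * κ.coeff j * y (p.1 - 1, p.2 - j)

namespace TWD

/-- the general operator with diagonal part `a k + b t + β` -/
noncomputable def op (κ : Polynomial ℂ) (a b : ℤ) (β : ℂ) (y : ℤ × ℤ → ℂ) : ℤ × ℤ → ℂ := fun p =>
  ((a : ℂ) * p.1 + b * p.2 + β) * y p +
    ∑ j ∈ κ.support, κ.coeff j * ((a : ℂ) + b * j) * y (p.1 - 1, p.2 - j)

lemma tD0_eq (κ : Polynomial ℂ) (s : ℂ) (y : ℤ × ℤ → ℂ) : tD0 κ s y = op κ 1 0 (-s) y := by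
  funext p
  simp only [tD0, op]
  push_cast
  congr 1
  · ring
  · refine Finset.sum_congr rfl fun j _ => ?_
    ring

lemma tDt_eq (κ : Polynomial ℂ) (α : ℂ) (y : ℤ × ℤ → ℂ) : tDt κ α y = op κ 0 1 α y := by
  funext p
  simp only [tDt, op]
  push_cast
  congr 1
  · ring
  · refine Finset.sum_congr rfl fun j _ => ?_
    ring

lemma op_add (κ : Polynomial ℂ) (a b : ℤ) (β : ℂ) (y z : ℤ × ℤ → ℂ) :
    op κ a b β (y + z) = op κ a b β y + op κ a b β z := by
  funext p
  simp only [op, Pi.add_apply, mul_add, Finset.sum_add_distrib]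
  ring

lemma op_smul (κ : Polynomial ℂ) (a b : ℤ) (β c : ℂ) (y : ℤ × ℤ → ℂ) :
    op κ a b β (c • y) = c • op κ a b β y := by
  funext p
  simp only [op, Pi.smul_apply, smul_eq_mul, mul_add, Finset.mul_sum]
  congr 1
  · ring
  · refine Finset.sum_congr rfl fun j _ => ?_
    ring

/-- the combination `c₁ op₁ + c₂ op₂` -/
lemma op_comb (κ : Polynomial ℂ) (a b a' b' c c' : ℤ) (β β' : ℂ) (y : ℤ × ℤ → ℂ) :
    op κ (c * a + c' * a') (c * b + c' * b') (c * β + c' * β') y =
      (c : ℂ) • op κ a b β y + (c' : ℂ) • op κ a' b' β' y := by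
  funext p
  simp only [op, Pi.add_apply, Pi.smul_apply, smul_eq_mul]
  push_cast
  have h : ∑ j ∈ κ.support, κ.coeff j * ((c : ℂ) * a + c' * a' + (c * b + c' * b') * j) *
        y (p.1 - 1, p.2 - j) =
      c * ∑ j ∈ κ.support, κ.coeff j * ((a : ℂ) + b * j) * y (p.1 - 1, p.2 - j) +
      c' * ∑ j ∈ κ.support, κ.coeff j * ((a' : ℂ) + b' * j) * y (p.1 - 1, p.2 - j) := by
    rw [Finset.mul_sum, Finset.mul_sum, ← Finset.sum_add_distrib]
    refine Finset.sum_congr rfl fun j _ => ?_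
    ring
  rw [h]; ring

lemma op_comm (κ : Polynomial ℂ) (a b a' b' : ℤ) (β β' : ℂ) (y : ℤ × ℤ → ℂ) :
    op κ a b β (op κ a' b' β' y) = op κ a' b' β' (op κ a b β y) := by
  funext p
  simp only [op]
  simp only [mul_add, Finset.mul_sum, Finset.sum_add_distrib]
  push_cast
  have h : ∑ i ∈ κ.support, ∑ j ∈ κ.support, κ.coeff i * ((a : ℂ) + b * i) *
        (κ.coeff j * ((a' : ℂ) + b' * j) * y (p.1 - 1 - 1, p.2 - i - j)) =
      ∑ i ∈ κ.support, ∑ j ∈ κ.support, κ.coeff i * ((a' : ℂ) + b' * i) *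
        (κ.coeff j * ((a : ℂ) + b * j) * y (p.1 - 1 - 1, p.2 - i - j)) := by
    rw [Finset.sum_comm]
    refine Finset.sum_congr rfl fun i _ => Finset.sum_congr rfl fun j _ => ?_
    have : p.2 - (i : ℤ) - j = p.2 - j - i := by ring
    rw [this]; ring
  have h2 : ∑ i ∈ κ.support, ((a : ℂ) * p.1 + b * p.2 + β) *
        (κ.coeff i * ((a' : ℂ) + b' * i) * y (p.1 - 1, p.2 - i)) +
      ∑ i ∈ κ.support, κ.coeff i * ((a : ℂ) + b * i) *
        (((a' : ℂ) * (p.1 - 1) + b' * (p.2 - i) + β') * y (p.1 - 1, p.2 - i)) =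
      ∑ i ∈ κ.support, ((a' : ℂ) * p.1 + b' * p.2 + β') *
        (κ.coeff i * ((a : ℂ) + b * i) * y (p.1 - 1, p.2 - i)) +
      ∑ i ∈ κ.support, κ.coeff i * ((a' : ℂ) + b' * i) *
        (((a : ℂ) * (p.1 - 1) + b * (p.2 - i) + β) * y (p.1 - 1, p.2 - i)) := by
    rw [← Finset.sum_add_distrib, ← Finset.sum_add_distrib]
    refine Finset.sum_congr rfl fun i _ => ?_
    ring
  simp only [mul_add] at h h2 ⊢
  linear_combination h + h2

/-- finite support inside `S` -/
def Sup (S : Set (ℤ × ℤ)) (y : ℤ × ℤ → ℂ) : Prop :=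
  (Function.support y).Finite ∧ ∀ p, y p ≠ 0 → p ∈ S

lemma Sup.add {S : Set (ℤ × ℤ)} {y z : ℤ × ℤ → ℂ} (hy : Sup S y) (hz : Sup S z) :
    Sup S (y + z) := by
  refine ⟨(hy.1.union hz.1).subset (Function.support_add y z), fun p hp => ?_⟩
  by_contra hS
  apply hp
  have h1 : y p = 0 := by by_contra h; exact hS (hy.2 p h)
  have h2 : z p = 0 := by by_contra h; exact hS (hz.2 p h)
  rw [Pi.add_apply, h1, h2, add_zero]

lemma Sup.smul {S : Set (ℤ × ℤ)} {y : ℤ × ℤ → ℂ} (hy : Sup S y) (c : ℂ) : Sup S (c • y) := by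
  refine ⟨hy.1.subset ?_, fun p hp => hy.2 p ?_⟩
  · intro p hp hp0
    apply hp
    simp [hp0]
  · intro hp0
    apply hp
    simp [hp0]

lemma Sup.mono {S T : Set (ℤ × ℤ)} {y : ℤ × ℤ → ℂ} (hy : Sup S y) (h : S ⊆ T) : Sup T y :=
  ⟨hy.1, fun p hp => h (hy.2 p hp)⟩

/-- closed under the shifts -/
def Cl (κ : Polynomial ℂ) (S : Set (ℤ × ℤ)) : Prop :=
  ∀ p ∈ S, ∀ j ∈ κ.support, (p.1 + 1, p.2 + (j : ℤ)) ∈ S

lemma Sup.op {κ : Polynomial ℂ} {S : Set (ℤ × ℤ)} {y : ℤ × ℤ → ℂ} (hy : Sup S y)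
    (hS : Cl κ S) (a b : ℤ) (β : ℂ) : Sup S (op κ a b β y) := by
  classical
  constructor
  · have hfin : (Function.support y ∪ ⋃ j ∈ κ.support,
        (fun p : ℤ × ℤ => (p.1 + 1, p.2 + (j : ℤ))) '' Function.support y).Finite :=
      hy.1.union (Set.Finite.biUnion κ.support.finite_toSet fun j _ => hy.1.image _)
    refine hfin.subset fun p hp => ?_
    by_contra hno
    rw [Set.mem_union, not_or] at hno
    apply hp
    have h1 : y p = 0 := by
      by_contra h; exact hno.1 h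
    simp only [TWD.op]
    rw [h1, mul_zero, zero_add]
    refine Finset.sum_eq_zero fun j hj => ?_
    have h2 : y (p.1 - 1, p.2 - j) = 0 := by
      by_contra h
      apply hno.2
      refine Set.mem_biUnion hj ⟨(p.1 - 1, p.2 - j), h, ?_⟩
      ext <;> simp
    rw [h2, mul_zero]
  · intro p hp
    by_contra hno
    apply hp
    have h1 : y p = 0 := by
      by_contra h; exact hno (hy.2 p h)
    simp only [TWD.op]
    rw [h1, mul_zero, zero_add]
    refine Finset.sum_eq_zero fun j hj => ?_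
    have h2 : y (p.1 - 1, p.2 - j) = 0 := by
      by_contra h
      apply hno
      have := hS _ (hy.2 _ h) j hj
      simpa using this
    rw [h2, mul_zero]

/-- one raising step -/
lemma raise (κ : Polynomial ℂ) (a b a' b' : ℤ) (β β' : ℂ) (n : ℤ) (hn : (n : ℂ) + β ≠ 0)
    (hpos : ∀ j ∈ κ.support, 0 ≤ a + b * (j : ℤ)) (X : Set (ℤ × ℤ)) (hX : Cl κ X)
    (y z g : ℤ × ℤ → ℂ) (hy : Sup (X ∩ {p | n ≤ a * p.1 + b * p.2}) y)
    (hz : Sup (X ∩ {p | n ≤ a * p.1 + b * p.2}) z)
    (hg : op κ a' b' β' y + op κ a b β z = g) (hg0 : ∀ p : ℤ × ℤ, a * p.1 + b * p.2 = n → g p = 0) :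
    ∃ y' z' : ℤ × ℤ → ℂ, Sup (X ∩ {p | n + 1 ≤ a * p.1 + b * p.2}) y' ∧
      Sup (X ∩ {p | n + 1 ≤ a * p.1 + b * p.2}) z' ∧ op κ a' b' β' y' + op κ a b β z' = g := by
  classical
  set S : Set (ℤ × ℤ) := X ∩ {p | n ≤ a * p.1 + b * p.2} with hSdef
  have hS : Cl κ S := by
    intro p hp j hj
    refine ⟨hX p hp.1 j hj, ?_⟩
    have h1 : n ≤ a * p.1 + b * p.2 := hp.2
    have h2 := hpos j hj
    show n ≤ a * (p.1 + 1) + b * (p.2 + j)
    nlinarith
  let yb : ℤ × ℤ → ℂ := fun p => if a * p.1 + b * p.2 = n then y p else 0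
  have hyb : Sup S yb := by
    refine ⟨hy.1.subset fun p hp hp0 => ?_, fun p hp => hy.2 p fun hp0 => ?_⟩
    · apply hp; simp only [yb]; rw [hp0]; simp
    · apply hp; simp only [yb]; rw [hp0]; simp
  set c : ℂ := ((n : ℂ) + β)⁻¹ with hc
  let y' : ℤ × ℤ → ℂ := y + (-c) • op κ a b β yb
  let z' : ℤ × ℤ → ℂ := z + c • op κ a' b' β' yb
  have hy' : Sup S y' := hy.add ((hyb.op hS a b β).smul _)
  have hz' : Sup S z' := hz.add ((hyb.op hS a' b' β').smul _)
  have hg' : op κ a' b' β' y' + op κ a b β z' = g := by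
    simp only [y', z']
    rw [op_add, op_add, op_smul, op_smul, op_comm κ a' b' a b β' β yb, ← hg]
    funext p
    simp only [Pi.add_apply, Pi.smul_apply, smul_eq_mul]
    ring
  -- values on the level `n`
  have hylev : ∀ p : ℤ × ℤ, a * p.1 + b * p.2 = n → y' p = 0 := by
    intro p hp
    have hdiag : op κ a b β yb p = ((n : ℂ) + β) * y p := by
      simp only [TWD.op]
      have h1 : yb p = y p := by simp only [yb]; rw [if_pos hp]
      have h2 : (a : ℂ) * p.1 + b * p.2 = (n : ℂ) := by exact_mod_cast hp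
      rw [h1, h2]
      have h3 : ∑ j ∈ κ.support, κ.coeff j * ((a : ℂ) + b * j) * yb (p.1 - 1, p.2 - j) = 0 := by
        refine Finset.sum_eq_zero fun j hj => ?_
        by_cases hj0 : a + b * (j : ℤ) = 0
        · have : (a : ℂ) + b * j = 0 := by exact_mod_cast hj0
          rw [this, mul_zero, zero_mul]
        · have : yb (p.1 - 1, p.2 - j) = 0 := by
            simp only [yb]
            rw [if_neg]
            intro h4
            apply hj0
            linear_combination hp - h4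
          rw [this, mul_zero]
      rw [h3, add_zero]
    simp only [y', Pi.add_apply, Pi.smul_apply, smul_eq_mul]
    rw [hdiag, hc]
    field_simp
    ring
  have hbelow : ∀ x : ℤ × ℤ → ℂ, Sup S x → ∀ p : ℤ × ℤ, a * p.1 + b * p.2 < n → x p = 0 := by
    intro x hx p hp
    by_contra h
    have : n ≤ a * p.1 + b * p.2 := (hx.2 p h).2
    omega
  have hzlev : ∀ p : ℤ × ℤ, a * p.1 + b * p.2 = n → z' p = 0 := by
    intro p hp
    have h1 := congrFun hg' p
    rw [hg0 p hp, Pi.add_apply] at h1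
    have h2 : op κ a' b' β' y' p = 0 := by
      simp only [TWD.op]
      rw [hylev p hp, mul_zero, zero_add]
      refine Finset.sum_eq_zero fun j hj => ?_
      have h3 := hpos j hj
      have : y' (p.1 - 1, p.2 - j) = 0 := by
        by_cases hj0 : a + b * (j : ℤ) = 0
        · apply hylev
          show a * (p.1 - 1) + b * (p.2 - j) = n
          linear_combination hp - hj0
        · apply hbelow y' hy'
          show a * (p.1 - 1) + b * (p.2 - j) < n
          have : 0 < a + b * (j : ℤ) := lt_of_le_of_ne h3 (Ne.symm hj0)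
          nlinarith
      rw [this, mul_zero]
    have h4 : op κ a b β z' p = ((n : ℂ) + β) * z' p := by
      simp only [TWD.op]
      have h2 : (a : ℂ) * p.1 + b * p.2 = (n : ℂ) := by exact_mod_cast hp
      rw [h2]
      have h3 : ∑ j ∈ κ.support, κ.coeff j * ((a : ℂ) + b * j) * z' (p.1 - 1, p.2 - j) = 0 := by
        refine Finset.sum_eq_zero fun j hj => ?_
        have h3 := hpos j hj
        by_cases hj0 : a + b * (j : ℤ) = 0
        · have : (a : ℂ) + b * j = 0 := by exact_mod_cast hj0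
          rw [this, mul_zero, zero_mul]
        · have : z' (p.1 - 1, p.2 - j) = 0 := by
            apply hbelow z' hz'
            show a * (p.1 - 1) + b * (p.2 - j) < n
            have : 0 < a + b * (j : ℤ) := lt_of_le_of_ne h3 (Ne.symm hj0)
            nlinarith
          rw [this, mul_zero]
      rw [h3, add_zero]
    rw [h2, h4, zero_add] at h1
    exact (mul_eq_zero.mp h1).resolve_left hn
  refine ⟨y', z', ⟨hy'.1, fun p hp => ⟨(hy'.2 p hp).1, ?_⟩⟩,
    ⟨hz'.1, fun p hp => ⟨(hz'.2 p hp).1, ?_⟩⟩, hg'⟩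
  · have h1 : n ≤ a * p.1 + b * p.2 := (hy'.2 p hp).2
    show n + 1 ≤ a * p.1 + b * p.2
    rcases lt_or_eq_of_le h1 with h2 | h2
    · omega
    · exact absurd (hylev p h2.symm) hp
  · have h1 : n ≤ a * p.1 + b * p.2 := (hz'.2 p hp).2
    show n + 1 ≤ a * p.1 + b * p.2
    rcases lt_or_eq_of_le h1 with h2 | h2
    · omega
    · exact absurd (hzlev p h2.symm) hp

/-- iterated raising -/
lemma raiseTo (κ : Polynomial ℂ) (a b a' b' : ℤ) (β β' : ℂ) (n1 : ℤ)
    (hn : ∀ n < n1, (n : ℂ) + β ≠ 0)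
    (hpos : ∀ j ∈ κ.support, 0 ≤ a + b * (j : ℤ)) (X : Set (ℤ × ℤ)) (hX : Cl κ X)
    (g : ℤ × ℤ → ℂ) (hg0 : ∀ p : ℤ × ℤ, a * p.1 + b * p.2 < n1 → g p = 0) (m : ℕ)
    (y z : ℤ × ℤ → ℂ) (hy : Sup (X ∩ {p | n1 - m ≤ a * p.1 + b * p.2}) y)
    (hz : Sup (X ∩ {p | n1 - m ≤ a * p.1 + b * p.2}) z)
    (hg : op κ a' b' β' y + op κ a b β z = g) :
    ∃ y' z' : ℤ × ℤ → ℂ, Sup (X ∩ {p | n1 ≤ a * p.1 + b * p.2}) y' ∧
      Sup (X ∩ {p | n1 ≤ a * p.1 + b * p.2}) z' ∧ op κ a' b' β' y' + op κ a b β z' = g := by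
  induction m generalizing y z with
  | zero =>
    refine ⟨y, z, ?_, ?_, hg⟩
    · simpa using hy
    · simpa using hz
  | succ m ih =>
    obtain ⟨y', z', hy', hz', hg'⟩ := raise κ a b a' b' β β' (n1 - (m + 1 : ℕ))
      (hn _ (by push_cast; omega)) hpos X hX y z g hy hz hg
      (fun p hp => hg0 p (by rw [hp]; push_cast; omega))
    have he : n1 - ((m + 1 : ℕ) : ℤ) + 1 = n1 - m := by push_cast; ring
    rw [he] at hy' hz'
    exact ih y' z' hy' hz' hg'

/-- finitely many points have a lower bound -/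
lemma exists_lower (a b n1 : ℤ) (y z : ℤ × ℤ → ℂ) (hy : (Function.support y).Finite)
    (hz : (Function.support z).Finite) :
    ∃ m : ℕ, ∀ p, (y p ≠ 0 ∨ z p ≠ 0) → n1 - m ≤ a * p.1 + b * p.2 := by
  obtain ⟨l, hl⟩ := ((hy.union hz).image (fun p : ℤ × ℤ => a * p.1 + b * p.2)).bddBelow
  refine ⟨(n1 - l).toNat, fun p hp => ?_⟩
  have h1 : l ≤ a * p.1 + b * p.2 := hl ⟨p, hp, rfl⟩
  have h2 := Int.self_le_toNat (n1 - l)
  omega

/-! ### The polynomial version -/

open Polynomial in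
/-- top degree reduction -/
lemma reduce (κ : ℂ[X]) (hL : 1 ≤ κ.natDegree)
    (hcop : IsCoprime κ (X * derivative κ)) (s α : ℂ) (G : ℕ → ℂ[X])
    (hG : ∀ k, 3 ≤ k → G k = 0) (d : ℕ) (Y Z : ℕ → ℂ[X])
    (hY : ∀ k, Y k ∈ degreeLT ℂ (k * κ.natDegree - 1))
    (hZ : ∀ k, Z k ∈ degreeLT ℂ (k * κ.natDegree - 1))
    (hYd : ∀ k, d + 1 < k → Y k = 0) (hZd : ∀ k, d + 1 < k → Z k = 0)
    (h : ∀ k : ℕ, C ((k : ℂ) + 1 - s) * Y (k + 1) + κ * Y k +
      (X * derivative (Z (k + 1)) + C α * Z (k + 1)) + X * derivative κ * Z k = G (k + 1)) :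
    ∃ A ∈ degreeLT ℂ (κ.natDegree - 1), ∃ B ∈ degreeLT ℂ (κ.natDegree - 1),
      κ * A + X * derivative κ * B = G 2 := by
  have hκ : κ ≠ 0 := by
    intro h0; rw [h0] at hL; simp at hL
  induction d generalizing Y Z with
  | zero =>
    refine ⟨Y 1, by simpa using hY 1, Z 1, by simpa using hZ 1, ?_⟩
    have := h 1
    rw [hYd (1 + 1) (by omega), hZd (1 + 1) (by omega)] at this
    simpa using this
  | succ d ih =>
    have htop := h (d + 2)
    rw [hYd (d + 2 + 1) (by omega), hZd (d + 2 + 1) (by omega), hG (d + 2 + 1) (by omega)] at htop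
    simp only [mul_zero, zero_add, derivative_zero, add_zero] at htop
    -- factor
    have hdvd : κ ∣ Z (d + 2) := by
      apply hcop.dvd_of_dvd_mul_left
      refine ⟨-Y (d + 2), ?_⟩
      linear_combination htop
    obtain ⟨u, hu⟩ := hdvd
    have hYu : Y (d + 2) = - (X * derivative κ * u) := by
      apply mul_left_cancel₀ hκ
      rw [hu] at htop
      linear_combination htop
    have hudeg : u ∈ degreeLT ℂ ((d + 1) * κ.natDegree - 1) := by
      by_cases hu0 : u = 0
      · rw [hu0]; exact Submodule.zero_mem _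
      · have h1 := hZ (d + 2)
        rw [hu, mem_degreeLT, degree_mul, degree_eq_natDegree hκ, degree_eq_natDegree hu0] at h1
        rw [mem_degreeLT, degree_eq_natDegree hu0]
        have h2 : κ.natDegree + u.natDegree < (d + 2) * κ.natDegree - 1 := by exact_mod_cast h1
        have h3 : (d + 2) * κ.natDegree = (d + 1) * κ.natDegree + κ.natDegree := by ring
        have h4 : u.natDegree < (d + 1) * κ.natDegree - 1 := by omega
        exact_mod_cast h4
    have hθ : ∀ m : ℕ, u ∈ degreeLT ℂ m → X * derivative u ∈ degreeLT ℂ m := by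
      intro m hm
      rw [mem_degreeLT] at hm ⊢
      by_cases hu0 : derivative u = 0
      · rw [hu0, mul_zero, degree_zero]; exact WithBot.bot_lt_coe m
      · have hu1 : u ≠ 0 := by rintro rfl; simp at hu0
        have h1 : (derivative u).degree < u.degree := degree_derivative_lt hu1
        rw [degree_mul, degree_X, degree_eq_natDegree hu0]
        rw [degree_eq_natDegree hu0, degree_eq_natDegree hu1] at h1
        rw [degree_eq_natDegree hu1] at hm
        have h2 : (derivative u).natDegree < u.natDegree := by exact_mod_cast h1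
        have h3 : u.natDegree < m := by exact_mod_cast hm
        have h4 : 1 + (derivative u).natDegree < m := by omega
        exact_mod_cast h4
    let Y' : ℕ → ℂ[X] := fun k =>
      if k = d + 1 then Y k + (X * derivative u + C α * u) else if k = d + 2 then 0 else Y k
    let Z' : ℕ → ℂ[X] := fun k =>
      if k = d + 1 then Z k - C ((d : ℂ) + 1 - s) * u else if k = d + 2 then 0 else Z k
    have Y1 : Y' (d + 1) = Y (d + 1) + (X * derivative u + C α * u) := if_pos rfl
    have Y2 : Y' (d + 2) = 0 := by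
      simp only [Y']; rw [if_neg (by omega)]; simp
    have Y3 : ∀ k, k ≠ d + 1 → k ≠ d + 2 → Y' k = Y k := by
      intro k h1 h2
      simp only [Y']; rw [if_neg h1, if_neg h2]
    have Z1 : Z' (d + 1) = Z (d + 1) - C ((d : ℂ) + 1 - s) * u := if_pos rfl
    have Z2 : Z' (d + 2) = 0 := by
      simp only [Z']; rw [if_neg (by omega)]; simp
    have Z3 : ∀ k, k ≠ d + 1 → k ≠ d + 2 → Z' k = Z k := by
      intro k h1 h2
      simp only [Z']; rw [if_neg h1, if_neg h2]
    apply ih Y' Z'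
    · intro k
      by_cases h1 : k = d + 1
      · subst h1
        rw [Y1]
        refine Submodule.add_mem _ (hY _) (Submodule.add_mem _ (hθ _ hudeg) ?_)
        rw [← smul_eq_C_mul]
        exact Submodule.smul_mem _ _ hudeg
      · by_cases h2 : k = d + 2
        · subst h2; rw [Y2]; exact Submodule.zero_mem _
        · rw [Y3 k h1 h2]; exact hY k
    · intro k
      by_cases h1 : k = d + 1
      · subst h1
        rw [Z1]
        refine Submodule.sub_mem _ (hZ _) ?_
        rw [← smul_eq_C_mul]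
        exact Submodule.smul_mem _ _ hudeg
      · by_cases h2 : k = d + 2
        · subst h2; rw [Z2]; exact Submodule.zero_mem _
        · rw [Z3 k h1 h2]; exact hZ k
    · intro k hk
      by_cases h2 : k = d + 2
      · subst h2; exact Y2
      · rw [Y3 k (by omega) h2]; exact hYd k (by omega)
    · intro k hk
      by_cases h2 : k = d + 2
      · subst h2; exact Z2
      · rw [Z3 k (by omega) h2]; exact hZd k (by omega)
    · intro k
      by_cases k1 : k = d
      · subst k1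
        have h0 := h k
        rw [Y1, Z1, Y3 k (by omega) (by omega), Z3 k (by omega) (by omega), ← h0]
        simp only [derivative_sub, derivative_mul, derivative_C, zero_mul, zero_add]
        ring
      · by_cases k2 : k = d + 1
        · subst k2
          have h0 := h (d + 1)
          have e1 : Y (d + 1 + 1) = - (X * derivative κ * u) := hYu
          have e2 : Z (d + 1 + 1) = κ * u := hu
          have e4 : Y' (d + 1 + 1) = 0 := Y2
          have e5 : Z' (d + 1 + 1) = 0 := Z2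
          rw [Y1, Z1, e4, e5, ← h0, e1, e2]
          simp only [derivative_mul, derivative_zero, mul_zero, add_zero, zero_add]
          have e3 : C (((d + 1 : ℕ) : ℂ) + 1 - s) = C ((d : ℂ) + 1 - s) + 1 := by
            rw [← C_1, ← C_add]; push_cast; congr 1; ring
          rw [e3]
          ring
        · by_cases k3 : k = d + 2
          · subst k3
            rw [Y2, Z2, Y3 (d + 2 + 1) (by omega) (by omega), Z3 (d + 2 + 1) (by omega) (by omega),
              hYd (d + 2 + 1) (by omega), hZd (d + 2 + 1) (by omega), hG (d + 2 + 1) (by omega)]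
            simp
          · rw [Y3 k k2 k3, Z3 k k2 k3, Y3 (k + 1) (by omega) (by omega),
              Z3 (k + 1) (by omega) (by omega)]
            exact h k

open Polynomial in
lemma coeff_mul_sum (q p : ℂ[X]) (S : Finset ℕ) (hS : q.support ⊆ S) (i : ℕ) :
    (q * p).coeff i = ∑ j ∈ S, q.coeff j * (if j ≤ i then p.coeff (i - j) else 0) := by
  have h1 : (q * p).coeff i =
      ∑ j ∈ q.support, q.coeff j * (if j ≤ i then p.coeff (i - j) else 0) := by
    conv_lhs => rw [q.as_sum_support_C_mul_X_pow, Finset.sum_mul, finsetSum_coeff]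
    refine Finset.sum_congr rfl fun j _ => ?_
    rw [mul_assoc, coeff_C_mul, coeff_X_pow_mul']
  rw [h1]
  refine Finset.sum_subset hS fun j _ hj => ?_
  rw [notMem_support_iff.mp hj, zero_mul]

open Polynomial in
lemma coeff_X_mul_derivative (q : ℂ[X]) (j : ℕ) :
    (X * derivative q).coeff j = (j : ℂ) * q.coeff j := by
  cases j with
  | zero => simp
  | succ j => rw [coeff_X_mul, coeff_derivative]; push_cast; ring

open Polynomial in
lemma isolate (V : Submodule ℂ ℂ[X]) (R : ℂ[X]) (hR : R ∈ V) (i : ℕ) (hi : R.coeff i ≠ 0)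
    (h : ∀ j, j ≠ i → R.coeff j ≠ 0 → X ^ j ∈ V) : (X ^ i : ℂ[X]) ∈ V := by
  have h1 : C (R.coeff i) * X ^ i = R - ∑ j ∈ R.support.erase i, C (R.coeff j) * X ^ j := by
    conv_rhs => rw [R.as_sum_support_C_mul_X_pow]
    rw [← Finset.add_sum_erase _ _ (mem_support_iff.mpr hi)]
    have : ∑ x ∈ R.support.erase i, C (R.coeff x) * X ^ x =
      ∑ j ∈ (C (R.coeff i) * X ^ i + ∑ x ∈ R.support.erase i, C (R.coeff x) * X ^ x).support.erase i,
        C ((C (R.coeff i) * X ^ i +
          ∑ x ∈ R.support.erase i, C (R.coeff x) * X ^ x).coeff j) * X ^ j := by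
      rw [Finset.add_sum_erase _ (fun x => C (R.coeff x) * X ^ x) (mem_support_iff.mpr hi),
        ← R.as_sum_support_C_mul_X_pow]
    rw [← this]
    ring
  have h2 : C (R.coeff i) * X ^ i ∈ V := by
    rw [h1]
    refine Submodule.sub_mem _ hR (Submodule.sum_mem _ fun j hj => ?_)
    rw [Finset.mem_erase, mem_support_iff] at hj
    rw [← smul_eq_C_mul]
    exact Submodule.smul_mem _ _ (h j hj.1 hj.2)
  have h3 : (X ^ i : ℂ[X]) = (R.coeff i)⁻¹ • (C (R.coeff i) * X ^ i) := by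
    rw [← smul_eq_C_mul, smul_smul, inv_mul_cancel₀ hi, one_smul]
  rw [h3]
  exact Submodule.smul_mem _ _ h2

open Polynomial in
/-- the dimension count -/
lemma final (κ : ℂ[X]) (hL : 1 ≤ κ.natDegree) (h0 : κ.coeff 0 ≠ 0) (δ δ' : ℕ) (hδ : δ ≤ 1)
    (hδ' : δ' ≤ 1) (hcase : 2 ≤ κ.natDegree ∨ (δ = 0 ∧ δ' = 0))
    (h : ∀ i : ℕ, δ ≤ i → i + δ' + 2 ≤ 2 * κ.natDegree →
      ∃ A ∈ degreeLT ℂ (κ.natDegree - 1), ∃ B ∈ degreeLT ℂ (κ.natDegree - 1),
        κ * A + X * derivative κ * B = X ^ i) : False := by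
  set L := κ.natDegree with hLdef
  have hκ : κ ≠ 0 := by
    intro h; rw [h] at hLdef; simp at hLdef; omega
  let V1 : Submodule ℂ ℂ[X] := (degreeLT ℂ (L - 1)).map (LinearMap.mulLeft ℂ κ)
  let V2 : Submodule ℂ ℂ[X] := (degreeLT ℂ (L - 1)).map (LinearMap.mulLeft ℂ (X * derivative κ))
  let V : Submodule ℂ ℂ[X] := V1 ⊔ V2
  have hV1 : ∀ A ∈ degreeLT ℂ (L - 1), κ * A ∈ V := fun A hA =>
    Submodule.mem_sup_left ⟨A, hA, rfl⟩
  have hV2 : ∀ A ∈ degreeLT ℂ (L - 1), X * derivative κ * A ∈ V := fun A hA =>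
    Submodule.mem_sup_right ⟨A, hA, rfl⟩
  have hgood : ∀ i : ℕ, δ ≤ i → i + δ' + 2 ≤ 2 * L → (X ^ i : ℂ[X]) ∈ V := by
    intro i h1 h2
    obtain ⟨A, hA, B, hB, hAB⟩ := h i h1 h2
    rw [← hAB]
    exact Submodule.add_mem _ (hV1 A hA) (hV2 B hB)
  -- all exponents except the last
  have hlow : ∀ i : ℕ, i + δ' + 2 ≤ 2 * L → (X ^ i : ℂ[X]) ∈ V := by
    intro i hi
    by_cases h1 : δ ≤ i
    · exact hgood i h1 hi
    · have hδ1 : δ = 1 := by omega
      have hi0 : i = 0 := by omega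
      have hL2 : 2 ≤ L := by
        rcases hcase with h | h
        · exact h
        · omega
      subst hi0
      have h1mem : ∀ c : ℂ, (C c : ℂ[X]) ∈ degreeLT ℂ (L - 1) := by
        intro c
        rw [mem_degreeLT]
        refine lt_of_le_of_lt degree_C_le ?_
        have : 0 < L - 1 := by omega
        exact_mod_cast this
      refine isolate V (κ * C (L : ℂ) + X * derivative κ * C (-1))
        (Submodule.add_mem _ (hV1 _ (h1mem _)) (hV2 _ (h1mem _))) 0 ?_ ?_
      · rw [coeff_add, coeff_mul_C, coeff_mul_C, coeff_X_mul_derivative]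
        simp only [Nat.cast_zero, zero_mul, add_zero]
        refine mul_ne_zero h0 ?_
        exact_mod_cast (by omega : L ≠ 0)
      · intro j hj0 hj
        rw [coeff_add, coeff_mul_C, coeff_mul_C, coeff_X_mul_derivative] at hj
        have hjL : j < L := by
          by_contra hge
          rcases Nat.lt_or_ge L j with h2 | h2
          · apply hj
            rw [coeff_eq_zero_of_natDegree_lt h2]; ring
          · have : j = L := by omega
            apply hj
            rw [this]; ring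
        exact hgood j (by omega) (by omega)
  have hall : ∀ i : ℕ, i < 2 * L - 1 → (X ^ i : ℂ[X]) ∈ V := by
    intro i hi
    by_cases h1 : i + δ' + 2 ≤ 2 * L
    · exact hlow i h1
    · have hδ1 : δ' = 1 := by omega
      have hi0 : i = 2 * L - 2 := by omega
      have hL2 : 2 ≤ L := by
        rcases hcase with h | h
        · exact h
        · omega
      refine isolate V (κ * X ^ (L - 2)) (hV1 _ ?_) i ?_ ?_
      · rw [mem_degreeLT, degree_X_pow]
        have : L - 2 < L - 1 := by omega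
        exact_mod_cast this
      · rw [coeff_mul_X_pow', if_pos (by omega), show i - (L - 2) = L by omega]
        rw [hLdef]
        exact leadingCoeff_ne_zero.mpr hκ
      · intro j hj0 hj
        rw [coeff_mul_X_pow'] at hj
        split_ifs at hj with h2
        · have h3 : j - (L - 2) ≤ L := by
            rw [hLdef]; exact le_natDegree_of_ne_zero hj
          exact hlow j (by omega)
        · exact absurd rfl hj
  have hle : degreeLT ℂ (2 * L - 1) ≤ V := by
    rw [degreeLT_eq_span_X_pow, Submodule.span_le]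
    intro p hp
    rw [Finset.mem_coe, Finset.mem_image] at hp
    obtain ⟨i, hi, rfl⟩ := hp
    exact hall i (Finset.mem_range.mp hi)
  have hfd : ∀ n : ℕ, FiniteDimensional ℂ (degreeLT ℂ n) := fun n =>
    LinearEquiv.finiteDimensional (degreeLTEquiv ℂ n).symm
  have hfr : ∀ n : ℕ, Module.finrank ℂ (degreeLT ℂ n) = n := fun n => by
    rw [LinearEquiv.finrank_eq (degreeLTEquiv ℂ n), Module.finrank_fintype_fun_eq_card,
      Fintype.card_fin]
  have : FiniteDimensional ℂ V1 := Module.Finite.map _ _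
  have : FiniteDimensional ℂ V2 := Module.Finite.map _ _
  have : FiniteDimensional ℂ V := Submodule.finiteDimensional_sup V1 V2
  have h1 : 2 * L - 1 ≤ Module.finrank ℂ V := by
    have := Submodule.finrank_mono hle
    rwa [hfr] at this
  have h2 : Module.finrank ℂ V ≤ (L - 1) + (L - 1) := by
    refine (Submodule.finrank_add_le_finrank_add_finrank V1 V2).trans (add_le_add ?_ ?_)
    · exact (Submodule.finrank_map_le _ _).trans (hfr _).le
    · exact (Submodule.finrank_map_le _ _).trans (hfr _).le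
  omega

/-- raising in both directions -/
lemma raised (κ : Polynomial ℂ) (s α : ℂ)
    (hα : ∀ n : ℕ, 2 ≤ n → α ≠ n) (hα' : ∀ n : ℕ, 2 ≤ n → -(κ.natDegree : ℂ) * s - α ≠ n)
    (δ δ' : ℤ) (hδ0 : 0 ≤ δ) (hδ0' : 0 ≤ δ') (hδ : α = 1 → 1 ≤ δ)
    (hδ' : -(κ.natDegree : ℂ) * s - α = 1 → 1 ≤ δ')
    (y z g : ℤ × ℤ → ℂ) (hy : (Function.support y).Finite) (hz : (Function.support z).Finite)
    (hg : op κ 1 0 (-s) y + op κ 0 1 α z = g) (hg0 : ∀ p, p ≠ (0, 0) → g p = 0) :
    ∃ y' z' : ℤ × ℤ → ℂ,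
      Sup {p | -δ ≤ p.2 ∧ -δ' ≤ (κ.natDegree : ℤ) * p.1 - p.2} y' ∧
      Sup {p | -δ ≤ p.2 ∧ -δ' ≤ (κ.natDegree : ℤ) * p.1 - p.2} z' ∧
      op κ 1 0 (-s) y' + op κ 0 1 α z' = g := by
  obtain ⟨m, hm⟩ := exists_lower 0 1 (-δ) y z hy hz
  obtain ⟨y1, z1, hy1, hz1, hg1⟩ := raiseTo κ 0 1 1 0 α (-s) (-δ) (by
      intro n hn h
      have hα1 : α = ((-n).toNat : ℂ) := by
        have h1 : (((-n).toNat : ℤ) : ℂ) = ((-n : ℤ) : ℂ) := by
          rw [Int.toNat_of_nonneg (by omega)]
        have h2 : α = ((-n : ℤ) : ℂ) := by push_cast; linear_combination h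
        rw [h2, ← h1]; push_cast; rfl
      rcases Nat.lt_or_ge (-n).toNat 2 with h2 | h2
      · have h3 : (-n).toNat = 1 := by omega
        rw [h3] at hα1
        have := hδ (by simpa using hα1)
        omega
      · exact hα _ h2 hα1)
    (fun j _ => by positivity) Set.univ (fun _ _ _ _ => trivial) g
    (fun p hp => hg0 p (by rintro rfl; simp at hp; omega)) m y z
    ⟨hy, fun p hp => ⟨trivial, hm p (Or.inl hp)⟩⟩ ⟨hz, fun p hp => ⟨trivial, hm p (Or.inr hp)⟩⟩ hg
  have hD : ∀ x : ℤ × ℤ → ℂ, op κ (κ.natDegree : ℤ) (-1) (-(κ.natDegree : ℂ) * s - α) x =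
      (κ.natDegree : ℂ) • op κ 1 0 (-s) x - op κ 0 1 α x := by
    intro x
    have := op_comb κ 1 0 0 1 (κ.natDegree : ℤ) (-1) (-s) α x
    have e1 : ((κ.natDegree : ℤ) * 1 + -1 * 0) = (κ.natDegree : ℤ) := by ring
    have e2 : ((κ.natDegree : ℤ) * 0 + -1 * 1) = -1 := by ring
    rw [e1, e2] at this
    have e3 : (((κ.natDegree : ℤ) : ℂ) * -s + ((-1 : ℤ) : ℂ) * α) =
        -(κ.natDegree : ℂ) * s - α := by push_cast; ring
    rw [e3] at this
    rw [this]
    push_cast
    rw [neg_one_smul, sub_eq_add_neg]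
  set X : Set (ℤ × ℤ) := {p | -δ ≤ p.2} with hXdef
  have hX : Cl κ X := by
    intro p hp j _
    have : -δ ≤ p.2 := hp
    show -δ ≤ p.2 + (j : ℤ)
    omega
  have hy1' : Sup X y1 := hy1.mono fun p hp => by
    have : -δ ≤ 0 * p.1 + 1 * p.2 := hp.2
    show -δ ≤ p.2
    omega
  have hz1' : Sup X z1 := hz1.mono fun p hp => by
    have : -δ ≤ 0 * p.1 + 1 * p.2 := hp.2
    show -δ ≤ p.2
    omega
  set y2 : ℤ × ℤ → ℂ := y1 + (κ.natDegree : ℂ) • z1 with hy2def
  set z2 : ℤ × ℤ → ℂ := (-1 : ℂ) • z1 with hz2def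
  have hy2 : Sup X y2 := hy1'.add (hz1'.smul _)
  have hz2 : Sup X z2 := hz1'.smul _
  have hg2 : op κ 1 0 (-s) y2 +
      op κ (κ.natDegree : ℤ) (-1) (-(κ.natDegree : ℂ) * s - α) z2 = g := by
    rw [hD, hy2def, hz2def, op_add, op_smul, op_smul, op_smul, ← hg1]
    funext p
    simp only [Pi.add_apply, Pi.sub_apply, Pi.smul_apply, smul_eq_mul]
    ring
  obtain ⟨m2, hm2⟩ := exists_lower (κ.natDegree : ℤ) (-1) (-δ') y2 z2 hy2.1 hz2.1
  obtain ⟨y3, z3, hy3, hz3, hg3⟩ := raiseTo κ (κ.natDegree : ℤ) (-1) 1 0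
    (-(κ.natDegree : ℂ) * s - α) (-s) (-δ') (by
      intro n hn h
      have hα1 : -(κ.natDegree : ℂ) * s - α = ((-n).toNat : ℂ) := by
        have h1 : (((-n).toNat : ℤ) : ℂ) = ((-n : ℤ) : ℂ) := by
          rw [Int.toNat_of_nonneg (by omega)]
        have h2 : -(κ.natDegree : ℂ) * s - α = ((-n : ℤ) : ℂ) := by push_cast; linear_combination h
        rw [h2, ← h1]; push_cast; rfl
      rcases Nat.lt_or_ge (-n).toNat 2 with h2 | h2
      · have h3 : (-n).toNat = 1 := by omega
        rw [h3] at hα1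
        have := hδ' (by simpa using hα1)
        omega
      · exact hα' _ h2 hα1)
    (fun j hj => by
      have := Polynomial.le_natDegree_of_mem_supp j hj
      omega) X hX g
    (fun p hp => hg0 p (by rintro rfl; simp at hp; omega)) m2 y2 z2
    ⟨hy2.1, fun p hp => ⟨hy2.2 p hp, hm2 p (Or.inl hp)⟩⟩
    ⟨hz2.1, fun p hp => ⟨hz2.2 p hp, hm2 p (Or.inr hp)⟩⟩ hg2
  have hsub : X ∩ {p : ℤ × ℤ | -δ' ≤ (κ.natDegree : ℤ) * p.1 + (-1) * p.2} ⊆
      {p | -δ ≤ p.2 ∧ -δ' ≤ (κ.natDegree : ℤ) * p.1 - p.2} := by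
    intro p hp
    have h1 : -δ ≤ p.2 := hp.1
    have h2 : -δ' ≤ (κ.natDegree : ℤ) * p.1 + (-1) * p.2 := hp.2
    exact ⟨h1, by linarith⟩
  refine ⟨y3 + (κ.natDegree : ℂ) • z3, (-1 : ℂ) • z3, (hy3.mono hsub).add ((hz3.mono hsub).smul _),
    (hz3.mono hsub).smul _, ?_⟩
  rw [← hg3, hD, op_add, op_smul, op_smul]
  funext p
  simp only [Pi.add_apply, Pi.sub_apply, Pi.smul_apply, smul_eq_mul]
  ring

open Polynomial in
/-- reading off the monomial `X^(τ-1)` -/
lemma readoff (κ : ℂ[X]) (hL : 1 ≤ κ.natDegree) (hcop : IsCoprime κ (X * derivative κ)) (s α : ℂ)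
    (δ δ' : ℕ) (y z : ℤ × ℤ → ℂ)
    (hy : Sup {p | -(δ : ℤ) ≤ p.2 ∧ -(δ' : ℤ) ≤ (κ.natDegree : ℤ) * p.1 - p.2} y)
    (hz : Sup {p | -(δ : ℤ) ≤ p.2 ∧ -(δ' : ℤ) ≤ (κ.natDegree : ℤ) * p.1 - p.2} z)
    (h : ∀ p, op κ 1 0 (-s) y p + op κ 0 1 α z p = if p = (0, 0) then 1 else 0)
    (i0 : ℕ) (h1 : δ ≤ i0) (h2 : i0 + δ' + 2 ≤ 2 * κ.natDegree) :
    ∃ A ∈ degreeLT ℂ (κ.natDegree - 1), ∃ B ∈ degreeLT ℂ (κ.natDegree - 1),
      κ * A + X * derivative κ * B = X ^ i0 := by
  classical
  set L := κ.natDegree with hLdef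
  -- the polynomials
  let pol : (ℤ × ℤ → ℂ) → ℕ → ℂ[X] := fun x k =>
    ∑ i ∈ Finset.range (k * L - 1), monomial i (x ((k : ℤ) - 2, (i : ℤ) - i0))
  have hpdeg : ∀ x k, pol x k ∈ degreeLT ℂ (k * L - 1) := by
    intro x k
    refine Submodule.sum_mem _ fun i hi => ?_
    rw [mem_degreeLT]
    refine lt_of_le_of_lt (degree_monomial_le _ _) ?_
    exact_mod_cast Finset.mem_range.mp hi
  have hpcoeff : ∀ x, Sup {p : ℤ × ℤ | -(δ : ℤ) ≤ p.2 ∧ -(δ' : ℤ) ≤ (L : ℤ) * p.1 - p.2} x →
      ∀ k i, (pol x k).coeff i = x ((k : ℤ) - 2, (i : ℤ) - i0) := by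
    intro x hx k i
    simp only [pol]
    rw [finsetSum_coeff]
    simp only [coeff_monomial]
    rw [Finset.sum_ite_eq']
    split_ifs with hi
    · rfl
    · by_contra hne
      have h3 := (hx.2 _ (Ne.symm hne)).2
      simp only at h3
      apply hi
      rw [Finset.mem_range]
      have h4 : (L : ℤ) * ((k : ℤ) - 2) = ((k * L : ℕ) : ℤ) - 2 * L := by push_cast; ring
      rw [h4] at h3
      omega
  have hneg : ∀ x, Sup {p : ℤ × ℤ | -(δ : ℤ) ≤ p.2 ∧ -(δ' : ℤ) ≤ (L : ℤ) * p.1 - p.2} x →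
      ∀ (k : ℤ) (t : ℤ), t < -(i0 : ℤ) → x (k, t) = 0 := by
    intro x hx k t ht
    by_contra hne
    have h3 : -(δ : ℤ) ≤ t := (hx.2 _ hne).1
    omega
  -- degree bound
  obtain ⟨D, hD⟩ := ((hy.1.union hz.1).image (fun p : ℤ × ℤ => p.1)).bddAbove
  have hDy : ∀ x, x = y ∨ x = z → ∀ k, (D + 2).toNat + 1 < k → pol x k = 0 := by
    intro x hx k hk
    simp only [pol]
    refine Finset.sum_eq_zero fun i _ => ?_
    have : x ((k : ℤ) - 2, (i : ℤ) - i0) = 0 := by
      by_contra hne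
      have h3 : ((k : ℤ) - 2) ≤ D := by
        refine hD ⟨((k : ℤ) - 2, (i : ℤ) - i0), ?_, rfl⟩
        rcases hx with rfl | rfl
        · exact Or.inl hne
        · exact Or.inr hne
      have := Int.self_le_toNat (D + 2)
      omega
    rw [this, monomial_zero_right]
  have hred := reduce κ hL hcop (s + 2) (α - i0)
    (fun k => if k = 2 then X ^ i0 else 0) (fun k hk => if_neg (by omega)) (D + 2).toNat
    (pol y) (pol z) (hpdeg y) (hpdeg z) (hDy y (Or.inl rfl)) (hDy z (Or.inr rfl)) (by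
      intro k
      ext i
      have hp := h ((k : ℤ) + 1 - 2, (i : ℤ) - i0)
      simp only [op] at hp
      rw [coeff_add, coeff_add, coeff_add, coeff_add, coeff_C_mul, coeff_C_mul,
        coeff_X_mul_derivative, coeff_mul_sum κ (pol y k) κ.support subset_rfl,
        coeff_mul_sum (X * derivative κ) (pol z k) κ.support]
      · have e1 : ∀ x, Sup {p : ℤ × ℤ | -(δ : ℤ) ≤ p.2 ∧ -(δ' : ℤ) ≤ (L : ℤ) * p.1 - p.2} x →
            ∀ j : ℕ, (if j ≤ i then (pol x k).coeff (i - j) else 0) =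
              x ((k : ℤ) + 1 - 2 - 1, (i : ℤ) - i0 - j) := by
          intro x hx j
          split_ifs with hj
          · rw [hpcoeff x hx]
            congr 2
            · ring
            · push_cast [Nat.cast_sub hj]; ring
          · rw [hneg x hx _ _ (by omega)]
        simp only [e1 y hy, e1 z hz]
        simp only [hpcoeff y hy, hpcoeff z hz, coeff_X_mul_derivative]
        have e2 : (if k + 1 = 2 then (X ^ i0 : ℂ[X]) else 0).coeff i =
            if (((k : ℤ) + 1 - 2, (i : ℤ) - i0) : ℤ × ℤ) = (0, 0) then 1 else 0 := by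
          by_cases hk : k + 1 = 2
          · rw [if_pos hk, coeff_X_pow]
            by_cases hi : i = i0
            · rw [if_pos hi, if_pos]
              ext
              · simp only; omega
              · simp only; omega
            · rw [if_neg hi, if_neg]
              intro h3
              have := congrArg Prod.snd h3
              simp only at this
              omega
          · rw [if_neg hk, coeff_zero, if_neg]
            intro h3
            have := congrArg Prod.fst h3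
            simp only at this
            omega
        rw [e2, ← hp]
        push_cast
        have e3 : ∑ j ∈ κ.support, κ.coeff j * ((1 : ℂ) + 0 * j) *
            y ((k : ℤ) + 1 - 2 - 1, (i : ℤ) - i0 - j) =
            ∑ j ∈ κ.support, κ.coeff j * y ((k : ℤ) + 1 - 2 - 1, (i : ℤ) - i0 - j) :=
          Finset.sum_congr rfl fun j _ => by ring
        have e4 : ∑ j ∈ κ.support, κ.coeff j * ((0 : ℂ) + 1 * j) *
            z ((k : ℤ) + 1 - 2 - 1, (i : ℤ) - i0 - j) =
            ∑ j ∈ κ.support, (j : ℂ) * κ.coeff j * z ((k : ℤ) + 1 - 2 - 1, (i : ℤ) - i0 - j) :=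
          Finset.sum_congr rfl fun j _ => by ring
        rw [e3, e4]
        ring
      · intro j hj
        rw [mem_support_iff, coeff_X_mul_derivative] at hj
        exact mem_support_iff.mpr (right_ne_zero_of_mul hj))
  simpa using hred

end TWD

/-- The symbol `[0,0]` is not a boundary.

Proof. The two operators commute. `L = natDegree κ ≥ 1`. Suppose `tD0 y + tDt z = [0,0]`.
(1) Raise in `t`: if all points of `y, z` have `t ≥ n`, `n < 0`, `n ≠ -α`, replace
`(y, z)` by `(y, z) - (1/(n+α)) (tDt ȳ, - tD0 ȳ)` where `ȳ` is the `t = n` part of `y`; then `y` has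
`t ≥ n+1` and the `t = n` part of the equation gives `(n + α) z̄ = 0` for the new `z`. So we may assume
`t ≥ -1`, and `t ≥ 0` unless `α = 1`. (2) Same for `t' = k L - t` with the operator
`L tD0 - tDt`. (3) Translate by `(2, i0 + 1)` and reduce the top degree (`TWD.reduce`).
(4) Dimension count (`TWD.final`). -/
theorem two_dim (κ : Polynomial ℂ) (hL : 1 ≤ κ.natDegree) (h0 : κ.coeff 0 ≠ 0)
    (hsep : IsCoprime κ (Polynomial.derivative κ)) (s α : ℂ)
    (hα : ∀ n : ℕ, 2 ≤ n → α ≠ n) (hα' : ∀ n : ℕ, 2 ≤ n → -(κ.natDegree : ℂ) * s - α ≠ n)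
    (hcase : 2 ≤ κ.natDegree ∨ (α ≠ 1 ∧ -(κ.natDegree : ℂ) * s - α ≠ 1))
    (y z : ℤ × ℤ → ℂ) (hy : (Function.support y).Finite) (hz : (Function.support z).Finite)
    (h : ∀ p, tD0 κ s y p + tDt κ α z p = if p = (0, 0) then 1 else 0) : False := by
  classical
  have hcop : IsCoprime κ (Polynomial.X * Polynomial.derivative κ) := by
    refine IsCoprime.mul_right ?_ hsep
    have hX : Irreducible (Polynomial.X : Polynomial ℂ) := Polynomial.irreducible_X
    refine (IsCoprime.symm ((hX.coprime_iff_not_dvd).mpr ?_))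
    rw [Polynomial.X_dvd_iff]
    exact h0
  set δ : ℕ := if α = 1 then 1 else 0 with hδdef
  set δ' : ℕ := if -(κ.natDegree : ℂ) * s - α = 1 then 1 else 0 with hδdef'
  have hδ1 : δ ≤ 1 := by rw [hδdef]; split_ifs <;> omega
  have hδ1' : δ' ≤ 1 := by rw [hδdef']; split_ifs <;> omega
  obtain ⟨y', z', hy', hz', hg'⟩ := TWD.raised κ s α hα hα' (δ : ℤ) (δ' : ℤ) (by positivity)
    (by positivity) (fun h1 => by rw [hδdef, if_pos h1]; simp)
    (fun h1 => by rw [hδdef', if_pos h1]; simp) y z (fun p => if p = (0, 0) then 1 else 0) hy hz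
    (by
      funext p
      rw [← TWD.tD0_eq, ← TWD.tDt_eq]
      exact h p)
    (fun p hp => if_neg hp)
  refine TWD.final κ hL h0 δ δ' hδ1 hδ1' ?_ (fun i hi1 hi2 => ?_)
  · rcases hcase with h1 | ⟨h1, h2⟩
    · exact Or.inl h1
    · right
      rw [hδdef, hδdef', if_neg h1, if_neg h2]
      exact ⟨rfl, rfl⟩
  · exact TWD.readoff κ hL hcop s α δ δ' y' z' hy' hz' (fun p => congrFun hg' p) i hi1 hi2

end Pool.Agent.H37.SM
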