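import Pool.Agent.H37.SM.RAI

/-! Module UTL: small utilities. -/

set_option autoImplicit false

namespace Pool.Agent.H37.SM

open Finset

variable {r : ℕ} {F : Dat r} {w : Fin 3 → ℤ} {N : ℤ}

/-- Cutting at the lowest level: `D` becomes the face operator.
Proof: compare coefficients with `cf_D`, `cf_cut`; a shift `p - â_l` with `l ∉ face` has
`ℓ_w(p - â_l) = n - ℓ_w(â_l) < n`, so `η` vanishes there. -/
theorem cut_D (s : ℂ) (c : Fin 4 → ℂ) (B : Finset (Fin r)) (n : ℤ)
    (hmin : ∀ l ∈ B, 0 ≤ ell w N (F.hat l)) (η : LL) (hη : SuppIn {p | n ≤ ell w N p} η) :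
    cut (slice w N n) (D F B s c η) = D F (B ∩ F.face w N) s c (cut (slice w N n) η) := by
  apply ext_cf; intro p
  by_cases hp : p ∈ slice w N n
  · have hp' : ell w N p = n := hp
    rw [cf_cut_of_mem hp, cf_D, cf_D, cf_cut_of_mem hp]
    congr 1
    rw [← Finset.sum_subset (Finset.inter_subset_left : B ∩ F.face w N ⊆ B)]
    · refine Finset.sum_congr rfl fun i hi => ?_
      have h2 : ell w N (F.hat i) = 0 := mem_face.mp (Finset.mem_inter.mp hi).2
      rw [cf_cut_of_mem]
      show ell w N (p - F.hat i) = n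
      rw [ell_sub, hp', h2, sub_zero]
    · intro i hi hni
      have h1 := hmin i hi
      have h2 : ell w N (F.hat i) ≠ 0 := fun h =>
        hni (Finset.mem_inter.mpr ⟨hi, mem_face.mpr h⟩)
      rw [hη.cf_eq, mul_zero]
      intro h3
      have h4 : n ≤ ell w N (p - F.hat i) := h3
      rw [ell_sub, hp'] at h4
      omega
  · have hp' : ell w N p ≠ n := hp
    rw [cf_cut_of_notMem hp, cf_D, cf_cut_of_notMem hp, mul_zero, zero_add]
    symm
    refine Finset.sum_eq_zero fun i hi => ?_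
    have h2 : ell w N (F.hat i) = 0 := mem_face.mp (Finset.mem_inter.mp hi).2
    rw [cf_cut_of_notMem, mul_zero]
    intro h3
    have h4 : ell w N (p - F.hat i) = n := h3
    rw [ell_sub, h2, sub_zero] at h4
    exact hp' h4

/-- On the face of `w` the form `ℓ_w` vanishes: `D_{ℓ_w}` acts on the level `n` as the scalar
`n + N s`. -/
theorem D_ec (s : ℂ) (n : ℤ) (B : Finset (Fin r)) (hB : B ⊆ F.face w N) (η : LL)
    (hη : SuppIn (slice w N n) η) : D F B s (ec w N) η = ((n : ℂ) + N * s) • η := by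
  apply ext_cf; intro p
  rw [cf_D, cf_smul, lin_ec]
  have h0 : ∑ i ∈ B, F.κ i * lin (ec w N) (F.hat i) * cf η (p - F.hat i) = 0 := by
    refine Finset.sum_eq_zero fun i hi => ?_
    rw [lin_ec, mem_face.mp (hB hi)]
    simp
  rw [h0, add_zero]
  have h3 : ec w N 3 = -(N : ℂ) := rfl
  rw [h3]
  by_cases hp : p ∈ slice w N n
  · have hp' : ell w N p = n := hp
    rw [hp']; ring
  · rw [hη.cf_eq hp]; ring

/-- `D_{ℓ_w} = w_0 D_0 + w_1 D_1 + w_2 D_2 - N D_3`. -/
theorem D_ec_eq (B : Finset (Fin r)) (s : ℂ) (η : LL) :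
    D F B s (ec w N) η = (w 0 : ℂ) • D F B s (bs 0) η + (w 1 : ℂ) • D F B s (bs 1) η +
      (w 2 : ℂ) • D F B s (bs 2) η - (N : ℂ) • D F B s (bs 3) η := by
  have h : ec w N = (w 0 : ℂ) • bs 0 + (w 1 : ℂ) • bs 1 + (w 2 : ℂ) • bs 2 +
      (-(N : ℂ)) • bs 3 := by
    funext j
    fin_cases j <;> simp [ec, bs]
  rw [h, D_add_left, D_add_left, D_add_left, D_smul_left, D_smul_left, D_smul_left, D_smul_left,
    neg_smul, sub_eq_add_neg]

/-- multiplication by a monomial shifts the diagonal part -/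
theorem D_mono_mul (B : Finset (Fin r)) (s : ℂ) (c : Fin 4 → ℂ) (μ : Pt) (η : LL) :
    D F B s c (mono μ * η) = mono μ * (D F B s c η + lin c μ • η) := by
  apply ext_cf; intro p
  rw [cf_D, cf_mono_mul, cf_mono_mul, cf_add, cf_smul, cf_D, lin_sub]
  have h : ∀ i ∈ B, F.κ i * lin c (F.hat i) * cf (mono μ * η) (p - F.hat i) =
      F.κ i * lin c (F.hat i) * cf η (p - μ - F.hat i) := by
    intro i _
    rw [cf_mono_mul]
    congr 2
    abel
  rw [Finset.sum_congr rfl h]
  ring

/-- cutting a product with a factor that is homogeneous for a linear form `φ` (of weight zero):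
`cut {φ = n}` commutes with multiplication by `g` if `φ = 0` on the support of `g`. -/
theorem cut_mul (φ : Pt → ℤ) (hφ : ∀ p q, φ (p + q) = φ p + φ q) (n : ℤ) (g η : LL)
    (hg : SuppIn {p | φ p = 0} g) :
    cut {p | φ p = n} (g * η) = g * cut {p | φ p = n} η := by
  classical
  apply ext_cf; intro p
  have hg' : g = ∑ q ∈ g.coeff.support, AddMonoidAlgebra.single q (g.coeff q) := by
    apply ext_cf; intro q
    rw [cf_sum]
    simp only [cf_single]
    rw [Finset.sum_ite_eq]
    by_cases hq : q ∈ g.coeff.support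
    · rw [if_pos hq]; rfl
    · rw [if_neg hq]; exact Finsupp.notMem_support_iff.mp hq
  have key : ∀ ξ : LL, cf (g * ξ) p = ∑ q ∈ g.coeff.support, g.coeff q * cf ξ (p - q) := by
    intro ξ
    conv_lhs => rw [hg', Finset.sum_mul, cf_sum]
    exact Finset.sum_congr rfl fun q _ => cf_single_mul _ _ _ _
  have hφs : ∀ q ∈ g.coeff.support, φ (p - q) = φ p := by
    intro q hq
    have h1 : φ q = 0 := hg q (Finsupp.mem_support_iff.mp hq)
    have h2 := hφ (p - q) q
    rw [sub_add_cancel, h1, add_zero] at h2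
    exact h2.symm
  by_cases hp : φ p = n
  · rw [cf_cut_of_mem (show p ∈ {p | φ p = n} from hp), key, key]
    refine Finset.sum_congr rfl fun q hq => ?_
    rw [cf_cut_of_mem (show p - q ∈ {p | φ p = n} from (hφs q hq).trans hp)]
  · rw [cf_cut_of_notMem (show p ∉ {p | φ p = n} from hp), key]
    symm
    refine Finset.sum_eq_zero fun q hq => ?_
    rw [cf_cut_of_notMem (show p - q ∉ {p | φ p = n} from fun h => hp ((hφs q hq).symm.trans h)),
      mul_zero]

/-- the curl of a 2-chain has boundary zero -/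
theorem bd_curl3 (B : Finset (Fin r)) (s : ℂ) (z : Fin 3 → LL) :
    bd F B s c3 (curl3 F B s z) = 0 := by
  unfold bd curl3
  rw [Fin.sum_univ_three]
  simp only [Matrix.cons_val_zero, Matrix.cons_val_one, Matrix.cons_val, map_sub]
  rw [D_comm F B s (c3 1) (c3 0) (z 2), D_comm F B s (c3 2) (c3 0) (z 1),
    D_comm F B s (c3 2) (c3 1) (z 0)]
  abel

/-- closed supports are preserved by `curl3` -/
theorem SuppIn_curl3 {B : Finset (Fin r)} {X : Set Pt} (hX : Closed F B X) (s : ℂ)
    (z : Fin 3 → LL) (hz : ∀ j, SuppIn X (z j)) (j : Fin 3) : SuppIn X (curl3 F B s z j) := by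
  fin_cases j
  · exact ((hz 2).D hX s (c3 1)).sub ((hz 1).D hX s (c3 2))
  · exact ((hz 0).D hX s (c3 2)).sub ((hz 2).D hX s (c3 0))
  · exact ((hz 1).D hX s (c3 0)).sub ((hz 0).D hX s (c3 1))

theorem SuppIn_crossE {B : Finset (Fin r)} {X : Set Pt} (hX : Closed F B X)
    (z : Fin 3 → LL) (hz : ∀ j, SuppIn X (z j)) (j : Fin 3) : SuppIn X (crossE F B z j) := by
  fin_cases j
  · exact ((hz 2).E_mul hX (c3 1)).sub ((hz 1).E_mul hX (c3 2))
  · exact ((hz 0).E_mul hX (c3 2)).sub ((hz 2).E_mul hX (c3 0))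
  · exact ((hz 1).E_mul hX (c3 0)).sub ((hz 0).E_mul hX (c3 1))

/-- the curl of a gradient vanishes -/
theorem curl3_grad (B : Finset (Fin r)) (s : ℂ) (x : LL) (j : Fin 3) :
    curl3 F B s (fun j => D F B s (c3 j) x) j = 0 := by
  fin_cases j
  · show D F B s (c3 1) (D F B s (c3 2) x) - D F B s (c3 2) (D F B s (c3 1) x) = 0
    rw [D_comm, sub_self]
  · show D F B s (c3 2) (D F B s (c3 0) x) - D F B s (c3 0) (D F B s (c3 2) x) = 0
    rw [D_comm, sub_self]
  · show D F B s (c3 0) (D F B s (c3 1) x) - D F B s (c3 1) (D F B s (c3 0) x) = 0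
    rw [D_comm, sub_self]

/-- `closed` for the standard half spaces -/
theorem closed_ge (B : Finset (Fin r)) (hmin : ∀ l ∈ B, 0 ≤ ell w N (F.hat l)) (n : ℤ) :
    Closed F B {p | n ≤ ell w N p} := by
  intro p hp i hi
  have h1 : n ≤ ell w N p := hp
  show n ≤ ell w N (p + F.hat i)
  rw [ell_add]; have := hmin i hi; omega

theorem closed_gt (B : Finset (Fin r)) (hmin : ∀ l ∈ B, 0 ≤ ell w N (F.hat l)) (n : ℤ) :
    Closed F B {p | n < ell w N p} := by
  intro p hp i hi
  have h1 : n < ell w N p := hp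
  show n < ell w N (p + F.hat i)
  rw [ell_add]; have := hmin i hi; omega

/-- The coordinate supports of the 1-chains coming from the functional equation: `η_j`, `j < 3`,
has `u_j ≥ 0`, `u_l ≥ 1` (`l ≠ j`), and `η_3` has all `u_l ≥ 1`. -/
def Zc (j : Fin 4) : Set Pt := {p | ∀ l : Fin 3, (if l.castSucc = j then 0 else 1) ≤ p l.castSucc}

/-- The coordinate supports are stable. Proof: closed since `a ≥ 0`. Let `a = l.castSucc`,
`ξ` supported in `Z_a`; in `D_a ξ` the diagonal factor is `p_l` (zero if `p_l = 0`), and a shift by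
`â_i` has the factor `a_{i,l}`, zero unless `a_{i,l} ≥ 1`; so `D_a ξ` has `u_l ≥ 1`, i.e. it is
supported in `Z_3 ⊆ Z_j`. For `a = 3`: `Z_3 ⊆ Z_j`. -/
theorem stable_Zc (F : Dat r) (B : Finset (Fin r)) (s : ℂ) : Stable F B s bs Zc := by
  have hcl : ∀ j, Closed F B (Zc j) := by
    intro j p hp i _ l
    have h1 := hp l
    have h2 := F.a_nonneg i l
    have h3 : (p + F.hat i) l.castSucc = p l.castSucc + F.a i l := by
      rw [Pi.add_apply, F.hat_castSucc]
    rw [h3]; omega
  intro a j ξ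
  refine ⟨fun h => h.D (hcl j) s (bs a), fun h => ?_⟩
  intro p hp l
  by_cases hla : l.castSucc = a
  · -- the coordinate of the operator
    subst hla
    have hgoal : 1 ≤ p l.castSucc := by
      by_contra hlt
      push Not at hlt
      apply hp
      rw [cf_D, lin_bs]
      have hbs3 : bs l.castSucc 3 = 0 := c3_three l
      rw [hbs3, mul_zero, sub_zero]
      have h1 : (p l.castSucc : ℂ) * cf ξ p = 0 := by
        by_cases h0 : cf ξ p = 0
        · rw [h0, mul_zero]
        · have h2 := h p h0 l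
          rw [if_pos rfl] at h2
          have h3 : p l.castSucc = 0 := by omega
          rw [h3]; simp
      rw [h1, zero_add]
      refine Finset.sum_eq_zero fun i _ => ?_
      by_cases h0 : cf ξ (p - F.hat i) = 0
      · rw [h0, mul_zero]
      · have h2 := h _ h0 l
        rw [if_pos rfl] at h2
        have h3 : (p - F.hat i) l.castSucc = p l.castSucc - F.a i l := by
          rw [Pi.sub_apply, F.hat_castSucc]
        rw [h3] at h2
        have h4 := F.a_nonneg i l
        have h5 : F.a i l = 0 := by omega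
        have h6 : lin (bs l.castSucc) (F.hat i) = 0 := by
          rw [lin_bs, F.hat_castSucc, h5]; simp
        rw [h6]; ring
    split_ifs <;> omega
  · have h1 : SuppIn (Zc a) (D F B s (bs a) ξ) := h.D (hcl a) s (bs a)
    have h2 := h1 p hp l
    rw [if_neg hla] at h2
    split_ifs <;> omega

/-- supports of the error terms `x^{(1,1,1)} g T^{-1}` -/
def Gset : Set Pt := {p | p 3 = -1 ∧ ∀ j : Fin 3, 1 ≤ p j.castSucc}

/-- the component is high for all facet functionals that vanish on the coordinates in `Z` -/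
def High (F : Dat r) (Z : Finset (Fin 3)) (η : LL) : Prop :=
  ∀ (w : Fin 3 → ℤ) (N : ℤ), (∀ j, 0 ≤ w j) → (∀ j ∈ Z, w j = 0) →
    (∀ i, 0 ≤ ell w N (F.hat i)) → SuppIn {p | wt w + N ≤ ell w N p} η

/-- The output of the functional equation at `s0` (with `b(s0) ≠ 0`), for all choices of two
distinguished indices. -/
def HasId (F : Dat r) (s0 : ℂ) : Prop :=
  ∀ i0 i1 : Fin 3, i0 ≠ i1 → ∃ (c : ℂ) (η ξ : Fin 4 → LL) (G0 G1 : LL),
    SuppIn Gset G0 ∧ SuppIn Gset G1 ∧
    bd F univ s0 bs η = mono one4 + G0 ∧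
    bd F univ s0 bs ξ = c • mono one4 + G1 + η 3 ∧
    (∀ j, SuppIn (Zc j) (η j)) ∧ (∀ j, SuppIn (Zc j) (ξ j)) ∧
    High F {i0} (η i0.castSucc) ∧ High F {i0} (ξ i0.castSucc) ∧
    High F {i0, i1} (η i1.castSucc) ∧ High F {i0, i1} (ξ i1.castSucc)

end Pool.Agent.H37.SM
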