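import Pool.Agent.H37.SM.ZG2
import Pool.Agent.H37.SM.ZCZ

/-! Module ZAD: adjacency in the cyclic structure. -/

set_option autoImplicit false

namespace Pool.Agent.H37.SM

open Finset Pool.Agent.H22

variable {r : ℕ} {a : Fin r → (Fin 3 →₀ ℕ)}

/-! ### auxiliary lemmas -/

theorem zad_zero (φ : (Fin 3 → ℝ) →ₗ[ℝ] ℝ) {x y z : Fin 3 → ℝ} (hd : det3 x y z ≠ 0)
    (hx : φ x = 0) (hy : φ y = 0) (hz : φ z = 0) : φ = 0 := by
  ext1 w
  ext1
  have h1 := congrArg φ (zcz_cramer x y z ((LinearMap.single ℝ (fun _ => ℝ) w) 1))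
  rw [map_smul, map_add, map_add, map_smul, map_smul, map_smul, hx, hy, hz, smul_zero, smul_zero,
    smul_zero, add_zero, add_zero, smul_eq_mul] at h1
  have h2 := (mul_eq_zero.1 h1).resolve_left hd
  simpa using h2

theorem zad_nat_le (w : Fin 3 → ℕ) (i : Fin r) : wmin a w ≤ ∑ j, a i j * w j := by
  unfold wmin
  exact ciInf_le (OrderBot.bddBelow _) i

theorem zad_L_cast (v u : Fin r) (w : Fin 3 → ℕ) :
    zcz_L a v (Sum.inr u) (toReal w) =
      ((∑ j, a u j * w j : ℕ) : ℝ) - ((∑ j, a v j * w j : ℕ) : ℝ) := by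
  rw [zcz_L_inr]
  simp only [toReal, Nat.cast_sum, Nat.cast_mul, ← Finset.sum_sub_distrib]
  exact Finset.sum_congr rfl fun j _ => by ring

/-- the functional `(a_u - a_v)·` is nonnegative where `v` is minimal -/
theorem zad_L_nonneg {v : Fin r} (u : Fin r) {w : Fin 3 → ℕ} (hv : v ∈ faceN a w) :
    0 ≤ zcz_L a v (Sum.inr u) (toReal w) := by
  rw [zad_L_cast, sub_nonneg, Nat.cast_le, mem_faceN.1 hv]
  exact zad_nat_le w u

theorem zad_L_zero {v u : Fin r} {w : Fin 3 → ℕ} (hv : v ∈ faceN a w) (hu : u ∈ faceN a w) :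
    zcz_L a v (Sum.inr u) (toReal w) = 0 := by
  rw [zad_L_cast, mem_faceN.1 hv, mem_faceN.1 hu, sub_self]

theorem zad_L_pos {v u : Fin r} {w : Fin 3 → ℕ} (hv : v ∈ faceN a w) (hu : u ∉ faceN a w) :
    0 < zcz_L a v (Sum.inr u) (toReal w) := by
  rw [zad_L_cast, sub_pos, Nat.cast_lt, mem_faceN.1 hv]
  exact lt_of_le_of_ne (zad_nat_le w u) fun h => hu (mem_faceN.2 h.symm)

theorem zad_L_ne (ha : Function.Injective a) {v u : Fin r} (huv : u ≠ v) :
    zcz_L a v (Sum.inr u) ≠ 0 := by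
  intro h
  apply huv
  apply ha
  ext j
  have h1 := LinearMap.congr_fun h (Pi.single j 1)
  rw [zcz_L_inr] at h1
  simp only [Pi.single_apply, mul_ite, mul_one, mul_zero, Finset.sum_ite_eq', Finset.mem_univ,
    if_true, LinearMap.zero_apply] at h1
  exact_mod_cast sub_eq_zero.1 h1

theorem zad_eps {ι : Type*} [Finite ι] (A B : ι → ℝ) (h : ∀ s, 0 < A s ∨ (A s = 0 ∧ 0 < B s)) :
    ∃ ε : ℝ, 0 < ε ∧ ∀ s, 0 < A s + ε * B s := by
  have h1 : ∀ s, ∀ᶠ ε in nhdsWithin (0 : ℝ) (Set.Ioi 0), 0 < A s + ε * B s := by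
    intro s
    rcases h s with h | ⟨h, h'⟩
    · have c1 : Filter.Tendsto (fun ε : ℝ => A s + ε * B s) (nhds 0) (nhds (A s + 0 * B s)) :=
        (Continuous.tendsto (by fun_prop) 0)
      rw [zero_mul, add_zero] at c1
      exact nhdsWithin_le_nhds (c1.eventually (lt_mem_nhds h))
    · filter_upwards [self_mem_nhdsWithin] with ε hε
      rw [h, zero_add]
      exact mul_pos hε h'
  have h2 := (Filter.eventually_all.2 h1).and (self_mem_nhdsWithin (a := (0:ℝ)) (s := Set.Ioi 0))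
  obtain ⟨ε, hε, hpos⟩ := h2.exists
  exact ⟨ε, hpos, hε⟩

/-- Two rays at which a nonnegative nonzero functional vanishes are neighbours.

Proof. Suppose `y0 ≠ x0, nx x0, pv x0` (`pv = nx.symm`). The vectors `g_{x0}, g_{nx x0}, g_{pv x0}` are independent (`pos`), and
`g_{y0} = α g_{x0} + β g_{nx x0} + γ g_{pv x0}` with `γ > 0` (apply `det3 g_{x0} g_{nx x0} ·`) and `β > 0` (apply
`det3 g_{pv x0} g_{x0} ·`). `φ` vanishes at `x0` and `y0` and is nonnegative, so it vanishes at `nx x0` and `pv x0`: `φ = 0`. -/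
theorem Cyc.adjacent {v : Fin r} (C : Cyc a v) (φ : (Fin 3 → ℝ) →ₗ[ℝ] ℝ) (h0 : φ ≠ 0)
    (hnn : ∀ x, 0 ≤ φ (toReal (C.ray x))) (x0 y0 : Fin C.m) (hne : x0 ≠ y0)
    (hx : φ (toReal (C.ray x0)) = 0) (hy : φ (toReal (C.ray y0)) = 0) :
    y0 = C.nx x0 ∨ x0 = C.nx y0 := by
  by_contra hcon
  push Not at hcon
  obtain ⟨h1, h2⟩ := hcon
  set p0 := C.nx.symm x0 with hp0
  have hnp : C.nx p0 = x0 := C.nx.apply_symm_apply x0
  have hpy : y0 ≠ p0 := by
    intro h
    apply h2
    rw [h, hnp]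
  have hpx : p0 ≠ x0 := by
    intro h
    exact C.nx_ne p0 (hnp.trans h.symm)
  have hpn : p0 ≠ C.nx x0 := by
    intro h
    apply C.nx_nx_ne p0
    rw [hnp, ← h]
  have hd : 0 < det3 (toReal (C.ray x0)) (toReal (C.ray (C.nx x0))) (toReal (C.ray p0)) :=
    C.pos x0 p0 hpx hpn
  have hd1 : 0 < det3 (toReal (C.ray x0)) (toReal (C.ray (C.nx x0))) (toReal (C.ray y0)) :=
    C.pos x0 y0 hne.symm h1
  have hd2 : 0 < det3 (toReal (C.ray x0)) (toReal (C.ray y0)) (toReal (C.ray p0)) := by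
    have := C.pos p0 y0 hpy (by rw [hnp]; exact hne.symm)
    rw [hnp] at this
    rwa [co3_cyc, co3_cyc] at this
  have hc := congrArg φ (zcz_cramer (toReal (C.ray x0)) (toReal (C.ray (C.nx x0)))
    (toReal (C.ray p0)) (toReal (C.ray y0)))
  rw [map_smul, map_add, map_add, map_smul, map_smul, map_smul, hx, hy, smul_zero, smul_zero,
    zero_add, smul_eq_mul, smul_eq_mul] at hc
  have e1 := mul_nonneg hd2.le (hnn (C.nx x0))
  have e2 := mul_nonneg hd1.le (hnn p0)
  have e3 : φ (toReal (C.ray (C.nx x0))) = 0 := by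
    have : det3 (toReal (C.ray x0)) (toReal (C.ray y0)) (toReal (C.ray p0)) *
      φ (toReal (C.ray (C.nx x0))) = 0 := by linarith
    exact (mul_eq_zero.1 this).resolve_left hd2.ne'
  have e4 : φ (toReal (C.ray p0)) = 0 := by
    have : det3 (toReal (C.ray x0)) (toReal (C.ray (C.nx x0))) (toReal (C.ray y0)) *
      φ (toReal (C.ray p0)) = 0 := by linarith
    exact (mul_eq_zero.1 this).resolve_left hd1.ne'
  exact h0 (zad_zero φ hd.ne' hx e3 e4)

theorem zad_full (ha : Function.Injective a) (w w' : Fin 3 → ℕ) (p q : Fin r) (hpq : p ≠ q)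
    (hτ : faceN a w ∩ faceN a w' = {p, q}) (hpos : ∀ k, 0 < w k + w' k) : Full3 a p := by
  have hp : p ∈ faceN a w ∩ faceN a w' := by rw [hτ]; simp
  have hq : q ∈ faceN a w ∩ faceN a w' := by rw [hτ]; simp
  rw [mem_inter] at hp hq
  -- the direction
  set d : Fin 3 → ℝ := fun j => (a q j : ℝ) - (a p j : ℝ) with hd
  have hdd : 0 < zcz_L a p (Sum.inr q) d := by
    rw [zcz_L_inr]
    have h1 : ∃ j, d j ≠ 0 := by
      by_contra hcon
      push Not at hcon
      apply hpq
      apply ha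
      ext j
      have := sub_eq_zero.1 (hcon j)
      exact_mod_cast this.symm
    obtain ⟨j, hj⟩ := h1
    exact Finset.sum_pos' (fun i _ => mul_self_nonneg (d i)) ⟨j, mem_univ j, mul_self_pos.2 hj⟩
  -- first step
  obtain ⟨ε, hε, h1⟩ := zad_eps (ι := Fin 3 ⊕ {l : Fin r // l ≠ p})
    (fun s => match s with
      | Sum.inl j => zcz_L a p (Sum.inl j) (toReal w + toReal w')
      | Sum.inr l => zcz_L a p (Sum.inr l.1) (toReal w + toReal w'))
    (fun s => match s with
      | Sum.inl j => zcz_L a p (Sum.inl j) d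
      | Sum.inr l => zcz_L a p (Sum.inr l.1) d) (by
    rintro (j | ⟨l, hl⟩)
    · left
      simp only [zcz_L_inl, Pi.add_apply, toReal]
      exact_mod_cast hpos j
    · by_cases hlq : l = q
      · right
        subst hlq
        refine ⟨?_, hdd⟩
        simp only [map_add]
        rw [zad_L_zero hp.1 hq.1, zad_L_zero hp.2 hq.2, add_zero]
      · left
        simp only [map_add]
        have h2 : ¬ (l ∈ faceN a w ∧ l ∈ faceN a w') := by
          intro h
          have : l ∈ faceN a w ∩ faceN a w' := mem_inter.2 h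
          rw [hτ] at this
          simp [hl, hlq] at this
        by_cases h3 : l ∈ faceN a w
        · exact add_pos_of_nonneg_of_pos (zad_L_nonneg l hp.1) (zad_L_pos hp.2 fun h => h2 ⟨h3, h⟩)
        · exact add_pos_of_pos_of_nonneg (zad_L_pos hp.1 h3) (zad_L_nonneg l hp.2))
  set U : Fin 3 → ℝ := toReal w + toReal w' + ε • d with hU
  have hUj : ∀ j, 0 < U j := by
    intro j
    have := h1 (Sum.inl j)
    simpa [zcz_L_inl, hU] using this
  have hUl : ∀ l, l ≠ p → 0 < zcz_L a p (Sum.inr l) U := by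
    intro l hl
    have := h1 (Sum.inr ⟨l, hl⟩)
    rw [hU, map_add, map_smul, smul_eq_mul]
    exact this
  -- second step
  obtain ⟨δ, hδ, h2⟩ := zad_eps (ι := Fin 3 × {l : Fin r // l ≠ p})
    (fun s => zcz_L a p (Sum.inr s.2.1) U)
    (fun s => zcz_L a p (Sum.inr s.2.1) (Pi.single s.1 1)) (fun s => Or.inl (hUl _ s.2.2))
  have hmem : ∀ c : Fin 3, U + δ • (Pi.single c 1 : Fin 3 → ℝ) ∈ minCone a {p} := by
    intro c
    rw [zcz_mem]
    rintro (j | l)
    · rw [zcz_L_inl]
      simp only [Pi.add_apply, Pi.smul_apply, smul_eq_mul]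
      refine add_nonneg (hUj j).le (mul_nonneg hδ.le ?_)
      rw [Pi.single_apply]
      split_ifs <;> norm_num
    · by_cases hl : l = p
      · subst hl
        rw [zcz_L_inr]
        simp
      · have := h2 (c, ⟨l, hl⟩)
        rw [map_add, map_smul, smul_eq_mul]
        exact this.le
  refine ⟨![U + δ • (Pi.single 0 1 : Fin 3 → ℝ), U + δ • (Pi.single 1 1 : Fin 3 → ℝ),
    U + δ • (Pi.single 2 1 : Fin 3 → ℝ)], zcz_indep ?_, fun c => ?_⟩
  · have : det3 (U + δ • (Pi.single 0 1 : Fin 3 → ℝ)) (U + δ • (Pi.single 1 1 : Fin 3 → ℝ))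
        (U + δ • (Pi.single 2 1 : Fin 3 → ℝ)) = δ ^ 3 + δ ^ 2 * (U 0 + U 1 + U 2) := by
      simp [det3]
      ring
    rw [this]
    have h0 := hUj 0
    have h1 := hUj 1
    have h2 := hUj 2
    positivity
  · fin_cases c
    · exact hmem 0
    · exact hmem 1
    · exact hmem 2

/-- Both ends of a compact edge are full vertices.

Proof. `k0 = w + w'` has positive coordinates and its minimal exponents are exactly `p, q`. Let `p` be the given end, `d = a_q - a_p ≠ 0`
(a real vector). The three-dimensional cone: the vectors `k` near `k0` with `k·d ≥ 0` are in `D_p` (all other exponents stay strictly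
larger, coordinates stay positive). So take `k0`, and `k0 + ε d`, `k0 + ε d'` with `d'` close to `d`, ... : for small `ε > 0` the vectors
`k0 + ε d`, `k0 + ε (d + δ e)`, `k0 + ε (d + δ e')` with `e, e'` orthogonal to `d` and independent, or: the set
`{k near k0, k·d > 0}` is open and nonempty, hence spans. -/
theorem full_of_edge (ha : Function.Injective a) (w w' : Fin 3 → ℕ) (hw : RayN a w)
    (hw' : RayN a w') (hne : w ≠ w') (p q : Fin r) (hpq : p ≠ q)
    (hτ : faceN a w ∩ faceN a w' = {p, q}) (hpos : ∀ k, 0 < w k + w' k) :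
    Full3 a p ∧ Full3 a q := by
  refine ⟨zad_full ha w w' p q hpq hτ hpos, zad_full ha w w' q p hpq.symm ?_ hpos⟩
  rw [hτ, Finset.pair_comm]

/-- The rays of a compact edge are consecutive at its end `p`, in the orientation given by the other end.

Proof. `w`, `w'` occur in `C` (`complete`), `φ = (a_q - a_p)·` is nonnegative on `D_p`, vanishes at both and is nonzero:
`Cyc.adjacent`. -/
theorem Cyc.consecutive (ha : Function.Injective a) (w w' : Fin 3 → ℕ) (hw : RayN a w)
    (hw' : RayN a w') (hne : w ≠ w') (p q : Fin r) (hpq : p ≠ q)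
    (hp : p ∈ faceN a w ∩ faceN a w') (hq : q ∈ faceN a w ∩ faceN a w') (C : Cyc a p) :
    ∃ x, (C.ray x = w ∧ C.ray (C.nx x) = w') ∨ (C.ray x = w' ∧ C.ray (C.nx x) = w) := by
  rw [mem_inter] at hp hq
  obtain ⟨x, hx⟩ := C.complete w hw hp.1
  obtain ⟨y, hy⟩ := C.complete w' hw' hp.2
  have hxy : x ≠ y := by
    rintro rfl
    exact hne (hx.symm.trans hy)
  rcases C.adjacent (zcz_L a p (Sum.inr q)) (zad_L_ne ha hpq.symm)
    (fun z => zad_L_nonneg q (C.mem z)) x y hxy (by rw [hx]; exact zad_L_zero hp.1 hq.1)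
    (by rw [hy]; exact zad_L_zero hp.2 hq.2) with h | h
  · exact ⟨x, Or.inl ⟨hx, by rw [← h]; exact hy⟩⟩
  · exact ⟨y, Or.inr ⟨hy, by rw [← h]; exact hx⟩⟩

/-- Opposite orientation at the other end.

Proof. `Cyc.consecutive` at `u` gives `x'` with the same two rays; if the order were the same then for `z` in the interior of `D_u`
(for instance a third ray of `C'`) `det3 (ray x) (ray (nx x)) z > 0`, so `(a_u - a_v)·z > 0` by `ht`, but `u` is minimal at `z`. -/
theorem Cyc.partner (ha : Function.Injective a) {v u : Fin r} (C : Cyc a v) (x : Fin C.m)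
    (huv : u ≠ v) (hu : u ∈ faceN a (C.ray x) ∩ faceN a (C.ray (C.nx x))) (t : ℝ) (ht0 : 0 < t)
    (ht : ∀ z : Fin 3 → ℝ, ∑ j, ((a u j : ℝ) - (a v j : ℝ)) * z j =
        t * det3 (toReal (C.ray x)) (toReal (C.ray (C.nx x))) z) (C' : Cyc a u) :
    ∃ x', C'.ray x' = C.ray (C.nx x) ∧ C'.ray (C'.nx x') = C.ray x := by
  have hne : C.ray x ≠ C.ray (C.nx x) := fun h => C.nx_ne x (C.inj h).symm
  obtain ⟨x', h1 | h1⟩ := C'.consecutive ha (C.ray x) (C.ray (C.nx x)) (C.rayN x) (C.rayN _) hne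
    u v huv hu (mem_inter.2 ⟨C.mem x, C.mem _⟩)
  · exfalso
    have h2 := C'.pos x' (C'.nx (C'.nx x')) (C'.nx_nx_ne x') (C'.nx_ne (C'.nx x'))
    rw [h1.1, h1.2] at h2
    have h3 := ht (toReal (C'.ray (C'.nx (C'.nx x'))))
    have h4 : 0 ≤ zcz_L a u (Sum.inr v) (toReal (C'.ray (C'.nx (C'.nx x')))) :=
      zad_L_nonneg v (C'.mem _)
    rw [zcz_L_inr] at h4
    have h5 : ∑ j, ((a v j : ℝ) - (a u j : ℝ)) * toReal (C'.ray (C'.nx (C'.nx x'))) j =
        - ∑ j, ((a u j : ℝ) - (a v j : ℝ)) * toReal (C'.ray (C'.nx (C'.nx x'))) j := by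
      rw [← Finset.sum_neg_distrib]
      exact Finset.sum_congr rfl fun j _ => by ring
    rw [h5, h3] at h4
    have := mul_pos ht0 h2
    linarith
  · exact ⟨x', h1⟩

/-- The face of `D_v` is determined by an exponent `u ≠ v` on it.

Proof. The functional `(a_u - a_v)·` vanishes at `ray x`, `ray (nx x)`, `ray x'`, `ray (nx x')`. If `x ≠ x'` one of the last two, `y`, is different from
`x` and `nx x` (`nx_nx_ne`), and by `pos` the three vectors `ray x, ray (nx x), ray y` are independent: `a_u = a_v`. -/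
theorem Cyc.face_unique (ha : Function.Injective a) {v u : Fin r} (C : Cyc a v) (x x' : Fin C.m)
    (huv : u ≠ v) (hu : u ∈ faceN a (C.ray x) ∩ faceN a (C.ray (C.nx x)))
    (hu' : u ∈ faceN a (C.ray x') ∩ faceN a (C.ray (C.nx x'))) : x = x' := by
  by_contra hne
  rw [mem_inter] at hu hu'
  have key : ∀ y, y ≠ x → y ≠ C.nx x → u ∈ faceN a (C.ray y) → False := by
    intro y h1 h2 h3
    exact zad_L_ne ha huv (zad_zero _ (C.pos x y h1 h2).ne' (zad_L_zero (C.mem x) hu.1)
      (zad_L_zero (C.mem _) hu.2) (zad_L_zero (C.mem y) h3))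
  by_cases h : x' = C.nx x
  · refine key (C.nx x') ?_ ?_ hu'.2
    · rw [h]
      exact C.nx_nx_ne x
    · rw [h]
      exact C.nx_ne (C.nx x)
  · exact key x' (Ne.symm hne) h hu'.1

end Pool.Agent.H37.SM
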