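import Pool.Agent.H37.SM.ZDefs
import Pool.Agent.H37.SM.EXP
import Pool.Agent.H60.ConeExist

/-! Module ZCY: the cones `D_τ` are generated by exposed rays. -/

set_option autoImplicit false

namespace Pool.Agent.H37.SM

open Finset Pool.Agent.H22

variable {r : ℕ} {a : Fin r → (Fin 3 →₀ ℕ)}

private lemma zcy_wmin_le (w : Fin 3 → ℕ) (i : Fin r) : wmin a w ≤ ∑ j, a i j * w j := by
  unfold wmin
  exact ciInf_le (OrderBot.bddBelow _) i

private lemma zcy_exists_wmin (w : Fin 3 → ℕ) (i : Fin r) : ∃ l : Fin r, ∑ j, a l j * w j = wmin a w := by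
  have : Nonempty (Fin r) := ⟨i⟩
  exact exists_eq_ciInf_of_finite

private lemma zcy_cast (w : Fin 3 → ℕ) (i : Fin r) :
    ((∑ j, a i j * w j : ℕ) : ℝ) = ∑ j, (a i j : ℝ) * toReal w j := by
  simp [toReal]

private lemma zcy_mem_iff (τ : Finset (Fin r)) (w : Fin 3 → ℕ) :
    toReal w ∈ minCone a τ ↔ τ ⊆ faceN a w := by
  constructor
  · rintro ⟨-, h⟩ i hi
    rw [mem_faceN]
    obtain ⟨l, hl⟩ := zcy_exists_wmin (a := a) w i
    have h1 := h i hi l
    rw [← zcy_cast, ← zcy_cast, Nat.cast_le, hl] at h1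
    exact le_antisymm h1 (zcy_wmin_le w i)
  · intro h
    refine ⟨fun j => by simp [toReal], fun i hi l => ?_⟩
    rw [← zcy_cast, ← zcy_cast, Nat.cast_le, mem_faceN.1 (h hi)]
    exact zcy_wmin_le w l

private lemma zcy_eps {ι : Type*} [Finite ι] (A B : ι → ℝ) (h : ∀ s, 0 < A s ∨ (A s = 0 ∧ B s = 0)) :
    ∃ ε : ℝ, 0 < ε ∧ ∀ s, 0 ≤ A s + ε * B s ∧ 0 ≤ A s - ε * B s := by
  have h1 : ∀ s, ∀ᶠ ε in nhdsWithin (0 : ℝ) (Set.Ioi 0), 0 ≤ A s + ε * B s ∧ 0 ≤ A s - ε * B s := by
    intro s
    rcases h s with h | ⟨h, h'⟩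
    · have c1 : Filter.Tendsto (fun ε : ℝ => A s + ε * B s) (nhds 0) (nhds (A s + 0 * B s)) :=
        (Continuous.tendsto (by fun_prop) 0)
      have c2 : Filter.Tendsto (fun ε : ℝ => A s - ε * B s) (nhds 0) (nhds (A s - 0 * B s)) :=
        (Continuous.tendsto (by fun_prop) 0)
      rw [zero_mul, add_zero] at c1
      rw [zero_mul, sub_zero] at c2
      have e1 := (c1.eventually (lt_mem_nhds h)).and (c2.eventually (lt_mem_nhds h))
      filter_upwards [nhdsWithin_le_nhds e1] with ε hε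
      exact ⟨hε.1.le, hε.2.le⟩
    · filter_upwards with ε
      rw [h, h']
      simp
  have h2 := (Filter.eventually_all.2 h1).and (self_mem_nhdsWithin (a := (0:ℝ)) (s := Set.Ioi 0))
  obtain ⟨ε, hε, hpos⟩ := h2.exists
  exact ⟨ε, hpos, hε⟩

private lemma zcy_gcd_dvd (w : Fin 3 → ℕ) (j : Fin 3) :
    Nat.gcd (w 0) (Nat.gcd (w 1) (w 2)) ∣ w j := by
  fin_cases j
  · exact Nat.gcd_dvd_left _ _
  · exact (Nat.gcd_dvd_right _ _).trans (Nat.gcd_dvd_left _ _)
  · exact (Nat.gcd_dvd_right _ _).trans (Nat.gcd_dvd_right _ _)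

/-- Exposed generators of `D_τ` are rays. More precisely: if `g ≠ 0` is in `D_τ` (`τ` nonempty) and every vector
`k` such that `g + ε k` and `g - ε k` are in `D_τ` for some `ε > 0` is a multiple of `g`, then the primitive multiple of
`g` is a ray.
Proof: let `g = d • w` with `d = gcd`, `w` primitive. `τ ⊆ faceN a w`. If `k` is constant on `faceN a w` and `k_j = 0` where `w_j = 0`
then `g ± ε k ∈ D_τ` for small `ε`: coordinates with `g_j > 0` stay positive, exponents outside `faceN a w` stay strictly larger. -/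
theorem rayN_of_extreme (τ : Finset (Fin r)) (hne : τ.Nonempty) (g : Fin 3 → ℕ) (hg : g ≠ 0)
    (hm : toReal g ∈ minCone a τ)
    (hex : ∀ k : Fin 3 → ℝ, ∀ ε : ℝ, 0 < ε → toReal g + ε • k ∈ minCone a τ →
      toReal g - ε • k ∈ minCone a τ → ∃ c : ℝ, k = c • toReal g) :
    ∃ (d : ℕ) (w : Fin 3 → ℕ), 0 < d ∧ (∀ j, g j = d * w j) ∧ RayN a w ∧ τ ⊆ faceN a w := by
  set d := Nat.gcd (g 0) (Nat.gcd (g 1) (g 2)) with hd
  have hdpos : 0 < d := by
    rcases Nat.eq_zero_or_pos d with h0 | h0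
    · exfalso
      apply hg
      funext j
      have := zcy_gcd_dvd g j
      rw [← hd, h0] at this
      simpa using this
    · exact h0
  choose w hw using fun j => (zcy_gcd_dvd g j)
  rw [← hd] at hw
  have hgr : ∀ j, toReal g j = (d : ℝ) * (w j : ℝ) := by
    intro j
    simp only [toReal]
    rw [hw j]
    push_cast
    rfl
  have hprim : ∀ e : ℕ, (∀ j, e ∣ w j) → e = 1 := by
    intro e he
    have h1 : d * e ∣ d := by
      have : ∀ j, d * e ∣ g j := fun j => by
        rw [hw j]; exact Nat.mul_dvd_mul_left d (he j)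
      conv_rhs => rw [hd]
      exact Nat.dvd_gcd (this 0) (Nat.dvd_gcd (this 1) (this 2))
    have h2 : d * e ∣ d * 1 := by simpa using h1
    have h3 := Nat.dvd_of_mul_dvd_mul_left hdpos h2
    exact Nat.dvd_one.1 h3
  have hmw : toReal w ∈ minCone a τ := by
    obtain ⟨h1, h2⟩ := hm
    refine ⟨fun j => by simp [toReal], fun i hi l => ?_⟩
    have h3 := h2 i hi l
    have h4 : ∀ i, ∑ j, (a i j : ℝ) * toReal g j = (d : ℝ) * ∑ j, (a i j : ℝ) * toReal w j := by
      intro i
      rw [Finset.mul_sum]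
      refine Finset.sum_congr rfl fun j _ => ?_
      rw [hgr j]
      simp only [toReal]
      ring
    rw [h4, h4] at h3
    exact le_of_mul_le_mul_left h3 (by exact_mod_cast hdpos)
  have hsub : τ ⊆ faceN a w := (zcy_mem_iff τ w).1 hmw
  refine ⟨d, w, hdpos, hw, ⟨hprim, ?_⟩, hsub⟩
  intro k hk1 hk2
  -- the finite family of conditions
  let A : Fin 3 ⊕ (Fin r × Fin r) → ℝ := Sum.elim (fun j => toReal g j)
    (fun q => if q.1 ∈ τ then ∑ j, ((a q.2 j : ℝ) - (a q.1 j : ℝ)) * toReal g j else 0)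
  let B : Fin 3 ⊕ (Fin r × Fin r) → ℝ := Sum.elim (fun j => k j)
    (fun q => if q.1 ∈ τ then ∑ j, ((a q.2 j : ℝ) - (a q.1 j : ℝ)) * k j else 0)
  have hAB : ∀ s, 0 < A s ∨ (A s = 0 ∧ B s = 0) := by
    rintro (j | ⟨i, l⟩)
    · simp only [A, B, Sum.elim_inl]
      rcases Nat.eq_zero_or_pos (w j) with h0 | h0
      · right
        exact ⟨by rw [hgr j, h0]; simp, hk2 j h0⟩
      · left
        rw [hgr j]
        have : (0 : ℝ) < d := by exact_mod_cast hdpos
        have : (0 : ℝ) < w j := by exact_mod_cast h0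
        positivity
    · simp only [A, B, Sum.elim_inr]
      by_cases hi : i ∈ τ
      · rw [if_pos hi, if_pos hi]
        by_cases hl : l ∈ faceN a w
        · right
          have e1 := mem_faceN.1 hl
          have e2 := mem_faceN.1 (hsub hi)
          constructor
          · have e3 : ∑ j, (a l j : ℝ) * toReal w j = ∑ j, (a i j : ℝ) * toReal w j := by
              rw [← zcy_cast, ← zcy_cast, e1, e2]
            have e4 : ∑ j, ((a l j : ℝ) - (a i j : ℝ)) * toReal g j
                = (d : ℝ) * (∑ j, (a l j : ℝ) * toReal w j - ∑ j, (a i j : ℝ) * toReal w j) := by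
              rw [← Finset.sum_sub_distrib, Finset.mul_sum]
              refine Finset.sum_congr rfl fun j _ => ?_
              rw [hgr j]
              simp only [toReal]
              ring
            rw [e4, e3]
            ring
          · have e3 := hk1 l hl i (hsub hi)
            have e4 : ∑ j, ((a l j : ℝ) - (a i j : ℝ)) * k j
                = ∑ j, k j * (a l j : ℝ) - ∑ j, k j * (a i j : ℝ) := by
              rw [← Finset.sum_sub_distrib]
              refine Finset.sum_congr rfl fun j _ => ?_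
              ring
            rw [e4, e3]
            ring
        · left
          have e2 := mem_faceN.1 (hsub hi)
          have e1 : ∑ j, a i j * w j < ∑ j, a l j * w j := by
            rw [e2]
            exact lt_of_le_of_ne (zcy_wmin_le w l) (fun h => hl (mem_faceN.2 h.symm))
          have e3 : ∑ j, (a i j : ℝ) * toReal w j < ∑ j, (a l j : ℝ) * toReal w j := by
            rw [← zcy_cast, ← zcy_cast]
            exact_mod_cast e1
          have e4 : ∑ j, ((a l j : ℝ) - (a i j : ℝ)) * toReal g j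
              = (d : ℝ) * (∑ j, (a l j : ℝ) * toReal w j - ∑ j, (a i j : ℝ) * toReal w j) := by
            rw [← Finset.sum_sub_distrib, Finset.mul_sum]
            refine Finset.sum_congr rfl fun j _ => ?_
            rw [hgr j]
            simp only [toReal]
            ring
          rw [e4]
          have : (0 : ℝ) < d := by exact_mod_cast hdpos
          exact mul_pos this (by linarith)
      · rw [if_neg hi, if_neg hi]
        right
        exact ⟨rfl, rfl⟩
  obtain ⟨ε, hε, hall⟩ := zcy_eps A B hAB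
  have hplus : toReal g + ε • k ∈ minCone a τ := by
    refine ⟨fun j => ?_, fun i hi l => ?_⟩
    · have := (hall (Sum.inl j)).1
      simp only [A, B, Sum.elim_inl] at this
      simpa using this
    · have := (hall (Sum.inr (i, l))).1
      simp only [A, B, Sum.elim_inr, if_pos hi] at this
      have e : ∑ j, (a l j : ℝ) * (toReal g + ε • k) j - ∑ j, (a i j : ℝ) * (toReal g + ε • k) j
          = ∑ j, ((a l j : ℝ) - (a i j : ℝ)) * toReal g j
            + ε * ∑ j, ((a l j : ℝ) - (a i j : ℝ)) * k j := by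
        rw [← Finset.sum_sub_distrib, Finset.mul_sum, ← Finset.sum_add_distrib]
        refine Finset.sum_congr rfl fun j _ => ?_
        simp only [Pi.add_apply, Pi.smul_apply, smul_eq_mul]
        ring
      linarith
  have hminus : toReal g - ε • k ∈ minCone a τ := by
    refine ⟨fun j => ?_, fun i hi l => ?_⟩
    · have := (hall (Sum.inl j)).2
      simp only [A, B, Sum.elim_inl] at this
      simpa using this
    · have := (hall (Sum.inr (i, l))).2
      simp only [A, B, Sum.elim_inr, if_pos hi] at this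
      have e : ∑ j, (a l j : ℝ) * (toReal g - ε • k) j - ∑ j, (a i j : ℝ) * (toReal g - ε • k) j
          = ∑ j, ((a l j : ℝ) - (a i j : ℝ)) * toReal g j
            - ε * ∑ j, ((a l j : ℝ) - (a i j : ℝ)) * k j := by
        rw [← Finset.sum_sub_distrib, Finset.mul_sum, ← Finset.sum_sub_distrib]
        refine Finset.sum_congr rfl fun j _ => ?_
        simp only [Pi.sub_apply, Pi.smul_apply, smul_eq_mul]
        ring
      linarith
  obtain ⟨c, hc⟩ := hex k ε hε hplus hminus
  refine ⟨c * d, fun j => ?_⟩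
  rw [hc, Pi.smul_apply, smul_eq_mul, hgr j]
  ring

/-- Every cone `D_τ` is generated by finitely many rays; each of them is exposed.

Proof. `H60.ConeExist.exists_cone_generators` gives natural generators `w_j ≠ 0`; `exists_exposed` with `δ = ` sum of the
coordinates: a subset `I` which generates `D_τ`, with `φ_x`, `x ∈ I`. Each `w_x`, `x ∈ I`, satisfies the hypothesis of
`rayN_of_extreme`: `g_x ± ε k = ∑ c^±_y g_y`, apply `φ_x` and add: `0 = ∑ (c^+_y + c^-_y) φ_x(g_y)`, so `c^±_y = 0` for `y ≠ x` and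
`g_x + ε k` is a multiple of `g_x`. Replace the `w_x` by the primitive vectors (distinct for distinct `x` because of `φ_x`). -/
theorem exists_rays (τ : Finset (Fin r)) (hne : τ.Nonempty) :
    ∃ (m : ℕ) (g : Fin m → Fin 3 → ℕ), Function.Injective g ∧ (∀ x, RayN a (g x)) ∧
      (∀ x, τ ⊆ faceN a (g x)) ∧ (∀ x, toReal (g x) ∈ minCone a τ) ∧
      (∀ z ∈ minCone a τ, ∃ c : Fin m → ℝ, (∀ x, 0 ≤ c x) ∧ z = ∑ x, c x • toReal (g x)) ∧
      ∀ x, ∃ φ : (Fin 3 → ℝ) →ₗ[ℝ] ℝ, φ (toReal (g x)) = 0 ∧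
        ∀ y, y ≠ x → 0 < φ (toReal (g y)) := by
  classical
  obtain ⟨J, hJ1, hJ2, w, hw1, hw2, hw3⟩ := Pool.Agent.H60.ConeExist.exists_cone_generators a τ
  let δ : (Fin 3 → ℝ) →ₗ[ℝ] ℝ := ∑ j : Fin 3, LinearMap.proj j
  have hδ : ∀ x, 0 < δ (toReal (w x)) := by
    intro x
    have h1 : δ (toReal (w x)) = ∑ j, (w x j : ℝ) := by
      simp [δ, toReal]
    rw [h1]
    have h2 : ∃ j, w x j ≠ 0 := by
      by_contra hcon
      push Not at hcon
      exact hw2 x (funext hcon)
    obtain ⟨j, hj⟩ := h2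
    refine Finset.sum_pos' (fun i _ => by positivity) ⟨j, Finset.mem_univ _, ?_⟩
    exact_mod_cast Nat.pos_of_ne_zero hj
  obtain ⟨I, hI1, hI2⟩ := exists_exposed (fun x => toReal (w x)) δ hδ
  -- decomposition along `I`
  have hdec : ∀ z ∈ minCone a τ, ∃ c : J → ℝ, (∀ x, 0 ≤ c x) ∧ (∀ x ∉ I, c x = 0) ∧
      z = ∑ x, c x • toReal (w x) := by
    intro z hz
    obtain ⟨c, hc, hzc⟩ := hw3 z hz
    obtain ⟨c', h1, h2, h3⟩ := hI1 c hc
    exact ⟨c', h1, h2, by rw [h3, hzc]⟩
  have hray : ∀ x : I, ∃ (d : ℕ) (v : Fin 3 → ℕ), 0 < d ∧ (∀ j, w x j = d * v j) ∧ RayN a v ∧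
      τ ⊆ faceN a v := by
    rintro ⟨x, hx⟩
    refine rayN_of_extreme τ hne (w x) (hw2 x) (hw1 x) ?_
    intro k ε hε hp hm
    obtain ⟨φ, hφ0, hφ⟩ := hI2 x hx
    obtain ⟨c, hc1, hc2, hc3⟩ := hdec _ hp
    obtain ⟨c', hc1', hc2', hc3'⟩ := hdec _ hm
    have hsum : (2 : ℝ) • toReal (w x) = ∑ y, (c y + c' y) • toReal (w y) := by
      have : ∑ y, (c y + c' y) • toReal (w y)
          = ∑ y, c y • toReal (w y) + ∑ y, c' y • toReal (w y) := by
        rw [← Finset.sum_add_distrib]
        exact Finset.sum_congr rfl fun y _ => add_smul _ _ _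
      rw [this, ← hc3, ← hc3', two_smul]
      abel
    have hφs := congrArg φ hsum
    rw [map_smul, hφ0, smul_zero, map_sum] at hφs
    have hterm : ∀ y ∈ (Finset.univ : Finset J), 0 ≤ φ ((c y + c' y) • toReal (w y)) := by
      intro y _
      rw [map_smul, smul_eq_mul]
      by_cases hyI : y ∈ I
      · by_cases hyx : y = x
        · rw [hyx, hφ0, mul_zero]
        · exact mul_nonneg (add_nonneg (hc1 y) (hc1' y)) (hφ y hyI hyx).le
      · rw [hc2 y hyI, hc2' y hyI]
        simp
    have hz := (Finset.sum_eq_zero_iff_of_nonneg hterm).1 hφs.symm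
    have hcy : ∀ y, y ≠ x → c y = 0 := by
      intro y hyx
      by_cases hyI : y ∈ I
      · have h1 := hz y (Finset.mem_univ _)
        rw [map_smul, smul_eq_mul] at h1
        have h2 := hφ y hyI hyx
        have h3 : c y + c' y = 0 := by
          rcases mul_eq_zero.1 h1 with h | h
          · exact h
          · exact absurd h h2.ne'
        have := hc1 y
        have := hc1' y
        linarith
      · exact hc2 y hyI
    have hfin : toReal (w x) + ε • k = c x • toReal (w x) := by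
      rw [hc3]
      exact Finset.sum_eq_single x (fun y _ hyx => by rw [hcy y hyx, zero_smul])
        (fun h => absurd (Finset.mem_univ _) h)
    refine ⟨ε⁻¹ * (c x - 1), ?_⟩
    have h5 : ε • k = (c x - 1) • toReal (w x) := by
      rw [sub_smul, one_smul, ← hfin]
      abel
    rw [← smul_smul, ← h5, smul_smul, inv_mul_cancel₀ hε.ne', one_smul]
  choose d v hd hv hvr hvt using hray
  have hwv : ∀ x : I, toReal (w x) = (d x : ℝ) • toReal (v x) := by
    intro x
    funext j
    simp only [toReal, Pi.smul_apply, smul_eq_mul]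
    rw [hv x j]
    push_cast
    rfl
  have hdR : ∀ x : I, (0 : ℝ) < d x := fun x => by exact_mod_cast hd x
  have hφv : ∀ x : I, ∃ φ : (Fin 3 → ℝ) →ₗ[ℝ] ℝ, φ (toReal (v x)) = 0 ∧
      ∀ y : I, y ≠ x → 0 < φ (toReal (v y)) := by
    rintro ⟨x, hx⟩
    obtain ⟨φ, hφ0, hφ⟩ := hI2 x hx
    refine ⟨φ, ?_, ?_⟩
    · have h1 := hφ0
      rw [hwv ⟨x, hx⟩, map_smul, smul_eq_mul] at h1
      rcases mul_eq_zero.1 h1 with h | h
      · exact absurd h (hdR ⟨x, hx⟩).ne'
      · exact h
    · rintro ⟨y, hy⟩ hyx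
      have hne' : y ≠ x := fun h => hyx (Subtype.ext h)
      have h1 := hφ y hy hne'
      rw [hwv ⟨y, hy⟩, map_smul, smul_eq_mul] at h1
      exact (pos_iff_pos_of_mul_pos h1).1 (hdR ⟨y, hy⟩)
  let e : Fin I.card ≃ I := I.equivFin.symm
  refine ⟨I.card, fun x => v (e x), ?_, fun x => hvr _, fun x => hvt _,
    fun x => (zcy_mem_iff τ _).2 (hvt _), ?_, ?_⟩
  · intro x y hxy
    by_contra hne'
    have hexy : e y ≠ e x := fun h => hne' (e.injective h.symm)
    obtain ⟨φ, h0, h1⟩ := hφv (e x)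
    have h2 := h1 (e y) hexy
    simp only at hxy
    rw [← hxy, h0] at h2
    exact lt_irrefl _ h2
  · intro z hz
    obtain ⟨c, hc1, hc2, hc3⟩ := hdec z hz
    refine ⟨fun x => c (e x) * d (e x), fun x => mul_nonneg (hc1 _) (hdR _).le, ?_⟩
    have h1 : ∑ x : Fin I.card, (c (e x) * d (e x)) • toReal (v (e x))
        = ∑ x : I, (c x * d x) • toReal (v x) :=
      Equiv.sum_comp e (fun x : I => (c x * (d x : ℝ)) • toReal (v x))
    rw [h1]
    have h2 : ∑ x : I, (c x * d x) • toReal (v x) = ∑ x : I, c x • toReal (w x) := by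
      refine Finset.sum_congr rfl fun x _ => ?_
      rw [hwv x, smul_smul]
    rw [h2, hc3, Finset.sum_coe_sort I (fun x => c x • toReal (w x))]
    symm
    exact Finset.sum_subset (Finset.subset_univ _) (fun x _ hx => by rw [hc2 x hx, zero_smul])
  · intro x
    obtain ⟨φ, h0, h1⟩ := hφv (e x)
    exact ⟨φ, h0, fun y hy => h1 (e y) (fun h => hy (e.injective h))⟩

private lemma zcy_dvd_aux {w w' : Fin 3 → ℕ} (hw : RayN a w)
    (h : ∀ i j, w i * w' j = w' i * w j) (i : Fin 3) : w i ∣ w' i := by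
  have hg : Nat.gcd (w 0) (Nat.gcd (w 1) (w 2)) = 1 := hw.prim _ (zcy_gcd_dvd w)
  have h1 : ∀ j, w i ∣ w' i * w j := fun j => ⟨w' j, (h i j).symm⟩
  have h2 : w i ∣ Nat.gcd (w' i * w 0) (Nat.gcd (w' i * w 1) (w' i * w 2)) :=
    Nat.dvd_gcd (h1 0) (Nat.dvd_gcd (h1 1) (h1 2))
  rw [Nat.gcd_mul_left, Nat.gcd_mul_left, hg, mul_one] at h2
  exact h2

/-- two rays which are proportional are equal -/
theorem rayN_eq {w w' : Fin 3 → ℕ} (hw : RayN a w) (hw' : RayN a w') (c : ℝ)
    (h : ∀ j, (w' j : ℝ) = c * (w j : ℝ)) : w = w' := by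
  have hc : ∀ i j, w i * w' j = w' i * w j := by
    intro i j
    have : (w i : ℝ) * w' j = w' i * w j := by
      rw [h i, h j]; ring
    exact_mod_cast this
  have hc' : ∀ i j, w' i * w j = w i * w' j := fun i j => (hc i j).symm
  funext i
  exact Nat.dvd_antisymm (zcy_dvd_aux hw hc i) (zcy_dvd_aux hw' hc' i)

/-- A ray in `D_τ` is one of the generators. Proof: `w = ∑ c_y g_y`; if `c_y > 0` then every constraint which is an equality at
`w` is an equality at `g_y` (`g_y,j = 0` where `w_j = 0`; `faceN a w ⊆ faceN a (g_y)`), so `g_y` is a multiple of `w` by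
`RayN.ray` for `w` with `k = g_y`. Some `c_y > 0` as `w ≠ 0`. -/
theorem rays_complete (τ : Finset (Fin r)) (hne : τ.Nonempty) {m : ℕ} (g : Fin m → Fin 3 → ℕ)
    (hr : ∀ x, RayN a (g x)) (hm : ∀ x, toReal (g x) ∈ minCone a τ)
    (hg : ∀ z ∈ minCone a τ, ∃ c : Fin m → ℝ, (∀ x, 0 ≤ c x) ∧ z = ∑ x, c x • toReal (g x))
    (w : Fin 3 → ℕ) (hw : RayN a w) (hwt : τ ⊆ faceN a w) : ∃ x, g x = w := by
  obtain ⟨c, hc, hz⟩ := hg _ ((zcy_mem_iff τ w).2 hwt)
  obtain ⟨t, ht⟩ := hne
  have hw0 : w ≠ 0 := by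
    intro h0
    have := hw.prim 2 (fun j => by rw [h0]; simp)
    omega
  have hex : ∃ y, c y ≠ 0 := by
    by_contra hcon
    push Not at hcon
    apply hw0
    have h1 : toReal w = 0 := by
      rw [hz]
      exact Finset.sum_eq_zero fun y _ => by rw [hcon y, zero_smul]
    funext j
    have h2 := congrFun h1 j
    simp only [toReal, Pi.zero_apply, Nat.cast_eq_zero] at h2
    exact h2
  obtain ⟨y, hy⟩ := hex
  have hypos : 0 < c y := lt_of_le_of_ne (hc y) (Ne.symm hy)
  -- a linear functional nonnegative on the generators and zero at `w` is zero at `g y`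
  have key : ∀ u : Fin 3 → ℝ, (∀ x, 0 ≤ ∑ j, u j * toReal (g x) j) →
      ∑ j, u j * toReal w j = 0 → ∑ j, u j * toReal (g y) j = 0 := by
    intro u hu1 hu2
    have h1 : ∑ j, u j * toReal w j = ∑ x, c x * ∑ j, u j * toReal (g x) j := by
      rw [hz]
      simp only [Finset.sum_apply, Pi.smul_apply, smul_eq_mul, Finset.mul_sum]
      rw [Finset.sum_comm]
      refine Finset.sum_congr rfl fun x _ => Finset.sum_congr rfl fun j _ => ?_
      ring
    rw [h1] at hu2
    have h2 := (Finset.sum_eq_zero_iff_of_nonneg (fun x _ => mul_nonneg (hc x) (hu1 x))).1 hu2 y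
      (Finset.mem_univ _)
    rcases mul_eq_zero.1 h2 with h | h
    · exact absurd h hy
    · exact h
  have hface : ∀ i ∈ faceN a w, ∑ j, toReal (g y) j * (a i j : ℝ) = ∑ j, toReal (g y) j * (a t j : ℝ) := by
    intro i hi
    have h1 := key (fun j => (a i j : ℝ) - (a t j : ℝ)) (fun x => ?_) ?_
    · have h2 : ∑ j, ((a i j : ℝ) - (a t j : ℝ)) * toReal (g y) j
          = ∑ j, toReal (g y) j * (a i j : ℝ) - ∑ j, toReal (g y) j * (a t j : ℝ) := by
        rw [← Finset.sum_sub_distrib]
        exact Finset.sum_congr rfl fun j _ => by ring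
      rw [h2] at h1
      linarith
    · have h2 := (hm x).2 t ht i
      have h3 : ∑ j, ((a i j : ℝ) - (a t j : ℝ)) * toReal (g x) j
          = ∑ j, (a i j : ℝ) * toReal (g x) j - ∑ j, (a t j : ℝ) * toReal (g x) j := by
        rw [← Finset.sum_sub_distrib]
        exact Finset.sum_congr rfl fun j _ => by ring
      rw [h3]
      linarith
    · have h3 : ∑ j, ((a i j : ℝ) - (a t j : ℝ)) * toReal w j
          = ∑ j, (a i j : ℝ) * toReal w j - ∑ j, (a t j : ℝ) * toReal w j := by
        rw [← Finset.sum_sub_distrib]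
        exact Finset.sum_congr rfl fun j _ => by ring
      rw [h3, ← zcy_cast, ← zcy_cast, mem_faceN.1 hi, mem_faceN.1 (hwt ht)]
      ring
  obtain ⟨c', hc'⟩ := hw.ray (toReal (g y)) (fun i hi i' hi' => by rw [hface i hi, hface i' hi'])
    (fun j hj => by
      have h1 := key (fun l => if l = j then 1 else 0) (fun x => by simp [toReal])
        (by simp [toReal, hj])
      simpa using h1)
  exact ⟨y, (rayN_eq hw (hr y) c' (fun j => hc' j)).symm⟩

end Pool.Agent.H37.SM
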