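import Pool.Agent.H37.SM.ZAD

/-! Module ZFC: faces of a vertex cone which touch a critical ray. -/

set_option autoImplicit false

namespace Pool.Agent.H37.SM

open Finset Pool.Agent.H22

variable {r : ℕ} {a : Fin r → (Fin 3 →₀ ℕ)} {s0 : ℂ} {ι : (Fin 3 → ℕ) → Fin 3}

/-- the determinant over a commutative ring -/
def zfc_det {K : Type*} [CommRing K] (x y z : Fin 3 → K) : K :=
  x 0 * (y 1 * z 2 - y 2 * z 1) - x 1 * (y 0 * z 2 - y 2 * z 0) + x 2 * (y 0 * z 1 - y 1 * z 0)

lemma zfc_det_cast {K : Type*} [CommRing K] (x y z : Fin 3 → ℕ) :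
    ((det3Z x y z : ℤ) : K) =
      zfc_det (fun j => (x j : K)) (fun j => (y j : K)) (fun j => (z j : K)) := by
  simp [det3Z, zfc_det]

/-- Cramer's rule for a linear form -/
lemma zfc_cramer {K : Type*} [CommRing K] (c x y e z : Fin 3 → K) :
    zfc_det x y e * ∑ j, c j * z j = zfc_det z y e * ∑ j, c j * x j +
      zfc_det x z e * ∑ j, c j * y j + zfc_det x y z * ∑ j, c j * e j := by
  simp only [zfc_det, Fin.sum_univ_three]
  ring

lemma zfc_self (x y : Fin 3 → ℝ) : det3 x y x = 0 := by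
  simp only [det3]
  ring

lemma zfc_self' (x y : Fin 3 → ℝ) : det3 x y y = 0 := by
  simp only [det3]
  ring

lemma zfc_eN (i j : Fin 3) : toReal (eN i) j = if j = i then 1 else 0 := by
  simp only [toReal, eN, Pi.single_apply]
  split_ifs <;> simp

lemma zfc_sum_eN (c : Fin 3 → ℝ) (i : Fin 3) : ∑ j, c j * toReal (eN i) j = c i := by
  simp [zfc_eN]

/-- an exponent whose difference to `v` is orthogonal to `w` is on the face of `w` -/
lemma zfc_face {v u : Fin r} {w : Fin 3 → ℕ} (hv : v ∈ faceN a w)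
    (h : ∑ j, ((a u j : ℝ) - (a v j : ℝ)) * toReal w j = 0) : u ∈ faceN a w := by
  rw [mem_faceN] at hv ⊢
  rw [← hv]
  have h1 : ∑ j, (a u j : ℝ) * (w j : ℝ) = ∑ j, (a v j : ℝ) * (w j : ℝ) := by
    have h2 : ∑ j, ((a u j : ℝ) - (a v j : ℝ)) * toReal w j =
        ∑ j, (a u j : ℝ) * (w j : ℝ) - ∑ j, (a v j : ℝ) * (w j : ℝ) := by
      rw [← Finset.sum_sub_distrib]
      exact Finset.sum_congr rfl fun j _ => by simp only [toReal]; ring
    rw [h2] at h
    linarith
  exact_mod_cast h1

lemma zfc_face' {v u : Fin r} {w : Fin 3 → ℕ} (hv : v ∈ faceN a w) (hu : u ∈ faceN a w) :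
    ∑ j, ((a u j : ℝ) - (a v j : ℝ)) * toReal w j = 0 := by
  rw [mem_faceN] at hv hu
  have h1 : ∑ j, a u j * w j = ∑ j, a v j * w j := by rw [hv, hu]
  have h2 : ∑ j, ((a u j : ℝ) - (a v j : ℝ)) * toReal w j =
      ∑ j, (a u j : ℝ) * (w j : ℝ) - ∑ j, (a v j : ℝ) * (w j : ℝ) := by
    rw [← Finset.sum_sub_distrib]
    exact Finset.sum_congr rfl fun j _ => by simp only [toReal]; ring
  rw [h2, sub_eq_zero]
  exact_mod_cast h1

/-- the critical equation as a linear form -/
lemma zfc_crit {v : Fin r} {w : Fin 3 → ℕ} (hv : v ∈ faceN a w) (hc : Crit a s0 w) :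
    ∑ j, (1 + s0 * (a v j : ℂ)) * (w j : ℂ) = 0 := by
  rw [mem_faceN] at hv
  unfold Crit at hc
  rw [← hv] at hc
  rw [← hc]
  push_cast [wsum]
  rw [Finset.sum_mul, ← Finset.sum_add_distrib]
  exact Finset.sum_congr rfl fun j _ => by ring

/-- Two consecutive critical rays have the same index.

Proof. `C.normal x`. If the normal is `a_u - a_v`: `u ≠ v` are both in both faces (`C.mem`; `(a_u - a_v)·ray = 0`): `Thin.adj`. If the normal
is the coordinate `k`: both rays `w, w'` have `k`-th coordinate zero. Real equation: `s0 = - |w| / N` is real; the functional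
`z ↦ ∑ (1 + s0 v_j) z_j` vanishes at `w` and `w'` (`Crit`, `v` in both faces), which are independent in the plane `z_k = 0`: so
`1 + s0 v_j = 0` for `j ≠ k`. With `j = ι w`: `w_j > 0` so `j ≠ k`, and `v_j ≤ 1`: `v_j = 0` is impossible and `v_j = 1` gives `s0 = -1`. -/
theorem Cyc.index_eq (ha : Function.Injective a) (hs : s0 ≠ -1) (hT : Thin a s0 ι) {v : Fin r}
    (C : Cyc a v) (x : Fin C.m) (h1 : Crit a s0 (C.ray x)) (h2 : Crit a s0 (C.ray (C.nx x))) :
    ι (C.ray x) = ι (C.ray (C.nx x)) := by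
  obtain ⟨t, ht0, h | h⟩ := C.normal x
  · obtain ⟨u, huv, hu⟩ := h
    have hu1 : u ∈ faceN a (C.ray x) := by
      refine zfc_face (C.mem x) ?_
      rw [hu, zfc_self, mul_zero]
    have hu2 : u ∈ faceN a (C.ray (C.nx x)) := by
      refine zfc_face (C.mem _) ?_
      rw [hu, zfc_self', mul_zero]
    refine hT.adj _ _ (C.rayN x) (C.rayN _) h1 h2 ?_ u (mem_inter.2 ⟨hu1, hu2⟩) v
      (mem_inter.2 ⟨C.mem x, C.mem _⟩) huv
    intro h3
    exact C.nx_ne x (C.inj h3).symm
  · exfalso
    obtain ⟨k, hk⟩ := h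
    set w := C.ray x with hw
    set w' := C.ray (C.nx x) with hw'
    set i := ι w with hi
    have hwi : 0 < w i := hT.pos w (C.rayN x) h1
    have hle : a v i ≤ 1 := hT.le_one w (C.rayN x) h1 v (C.mem x)
    have hwk : w k = 0 := by
      have h3 := hk (toReal w)
      rw [zfc_self, mul_zero] at h3
      simpa [toReal] using h3
    have hik : i ≠ k := by
      intro h3
      rw [h3, hwk] at hwi
      exact lt_irrefl _ hwi
    have hdk : det3Z w w' (eN k) ≠ 0 := by
      intro h3
      have h4 := hk (toReal (eN k))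
      rw [det3_toReal, h3, zfc_eN] at h4
      simp at h4
    have hdi : det3Z w w' (eN i) = 0 := by
      have h4 := hk (toReal (eN i))
      rw [det3_toReal, zfc_eN, if_neg hik.symm] at h4
      rcases mul_eq_zero.1 h4.symm with h5 | h5
      · exact absurd h5 ht0.ne'
      · exact_mod_cast h5
    have h5 := zfc_cramer (fun j => 1 + s0 * (a v j : ℂ)) (fun j => (w j : ℂ))
      (fun j => (w' j : ℂ)) (fun j => (eN k j : ℂ)) (fun j => (eN i j : ℂ))
    rw [← zfc_det_cast, ← zfc_det_cast, ← zfc_det_cast, ← zfc_det_cast, hdi,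
      zfc_crit (C.mem x) h1, zfc_crit (C.mem _) h2, mul_zero, mul_zero, Int.cast_zero, zero_mul,
      add_zero, add_zero] at h5
    rcases mul_eq_zero.1 h5 with h6 | h6
    · exact hdk (by exact_mod_cast h6)
    · have h7 : ∑ j, (1 + s0 * (a v j : ℂ)) * (eN i j : ℂ) = 1 + s0 * (a v i : ℂ) := by
        simp [eN, Pi.single_apply]
      rw [h7] at h6
      have h8 : a v i = 0 ∨ a v i = 1 := by omega
      rcases h8 with h8 | h8
      · rw [h8] at h6
        simp at h6
      · rw [h8] at h6
        apply hs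
        push_cast at h6
        linear_combination h6

/-- The properties of the index of a touching face. Proof: `C.idx` is `ι w` for a critical `w` among the two rays. -/
theorem Cyc.idx_spec (hT : Thin a s0 ι) {v : Fin r} (C : Cyc a v) (x : Fin C.m)
    (ht : C.touch s0 x) :
    ∃ w, (w = C.ray x ∨ w = C.ray (C.nx x)) ∧ Crit a s0 w ∧ ι w = C.idx s0 ι x ∧
      0 < w (C.idx s0 ι x) ∧ ∀ u ∈ faceN a w, a u (C.idx s0 ι x) ≤ 1 := by
  by_cases h : Crit a s0 (C.ray x)
  · have h1 : C.idx s0 ι x = ι (C.ray x) := if_pos h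
    rw [h1]
    exact ⟨C.ray x, Or.inl rfl, h, rfl, hT.pos _ (C.rayN _) h, hT.le_one _ (C.rayN _) h⟩
  · have h1 : C.idx s0 ι x = ι (C.ray (C.nx x)) := if_neg h
    have h2 : Crit a s0 (C.ray (C.nx x)) := by
      rcases ht with h3 | h3
      · exact absurd h3 h
      · exact h3
    rw [h1]
    exact ⟨_, Or.inr rfl, h2, rfl, hT.pos _ (C.rayN _) h2, hT.le_one _ (C.rayN _) h2⟩

/-- The two kinds of touching faces.

Proof. `i = C.idx s0 ι x`, `w` from `idx_spec`. `C.normal x`. (a) Normal `z_k`: `w_k = 0`, so `k ≠ i` and `det3 .. e_i = 0`. (b) Normal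
`a_u - a_v = t det3 ..`: `u`, `v` are in both faces, so `a_u i, a_v i ∈ {0,1}`. If they are equal then `det3 .. e_i = 0`. Otherwise an exponent `l`
in both faces has `a_l - a_v = c (a_u - a_v)` (both orthogonal to the two independent rays), and the `i`-th coordinates in `{0,1}` give
`c ∈ {0,1}`, so `l ∈ {v, u}` (`ha`). `hpos`: if `w_k + w'_k = 0` then both rays have `k`-th coordinate zero, `z_k` and `a_u - a_v` are
proportional, so `k = i` since `(a_u - a_v)_i ≠ 0`, but `w_i > 0`. -/
theorem Cyc.face_cases (ha : Function.Injective a) (hT : Thin a s0 ι) {v : Fin r} (C : Cyc a v)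
    (x : Fin C.m) (ht : C.touch s0 x) :
    det3Z (C.ray x) (C.ray (C.nx x)) (eN (C.idx s0 ι x)) = 0 ∨
      ∃ u, u ≠ v ∧ faceN a (C.ray x) ∩ faceN a (C.ray (C.nx x)) = {v, u} ∧
        ((a v (C.idx s0 ι x) = 1 ∧ a u (C.idx s0 ι x) = 0) ∨
          (a v (C.idx s0 ι x) = 0 ∧ a u (C.idx s0 ι x) = 1)) ∧
        (∀ k, 0 < C.ray x k + C.ray (C.nx x) k) ∧
        ∃ t : ℝ, 0 < t ∧ ∀ z : Fin 3 → ℝ, ∑ j, ((a u j : ℝ) - (a v j : ℝ)) * z j =
          t * det3 (toReal (C.ray x)) (toReal (C.ray (C.nx x))) z := by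
  obtain ⟨w, hw, hwc, hwi, hwpos, hwle⟩ := C.idx_spec hT x ht
  set i := C.idx s0 ι x with hi
  obtain ⟨t, ht0, h | h⟩ := C.normal x
  · obtain ⟨u, huv, hu⟩ := h
    have hu1 : u ∈ faceN a (C.ray x) := by
      refine zfc_face (C.mem x) ?_
      rw [hu, zfc_self, mul_zero]
    have hu2 : u ∈ faceN a (C.ray (C.nx x)) := by
      refine zfc_face (C.mem _) ?_
      rw [hu, zfc_self', mul_zero]
    have hall : ∀ l, l ∈ faceN a (C.ray x) ∩ faceN a (C.ray (C.nx x)) → a l i ≤ 1 := by
      intro l hl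
      rcases hw with hw | hw
      · exact hwle l (by rw [hw]; exact (mem_inter.1 hl).1)
      · exact hwle l (by rw [hw]; exact (mem_inter.1 hl).2)
    have hvm : v ∈ faceN a (C.ray x) ∩ faceN a (C.ray (C.nx x)) :=
      mem_inter.2 ⟨C.mem x, C.mem _⟩
    have hum : u ∈ faceN a (C.ray x) ∩ faceN a (C.ray (C.nx x)) := mem_inter.2 ⟨hu1, hu2⟩
    have hei := hu (toReal (eN i))
    rw [zfc_sum_eN] at hei
    by_cases heq : a u i = a v i
    · left
      rw [heq, sub_self, det3_toReal] at hei
      rcases mul_eq_zero.1 hei.symm with h5 | h5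
      · exact absurd h5 ht0.ne'
      · exact_mod_cast h5
    · right
      set X := toReal (C.ray x) with hX
      set Y := toReal (C.ray (C.nx x)) with hY
      set E := toReal (eN i) with hE
      have hne : (a u i : ℝ) - (a v i : ℝ) ≠ 0 := by
        rw [sub_ne_zero]
        exact_mod_cast heq
      have hDE : det3 X Y E ≠ 0 := by
        intro h0
        rw [h0, mul_zero] at hei
        exact hne hei
      -- a linear form which vanishes on both rays is determined by its value at `e_i`
      have key : ∀ c : Fin 3 → ℝ, ∑ j, c j * X j = 0 → ∑ j, c j * Y j = 0 →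
          ∀ z : Fin 3 → ℝ, det3 X Y E * ∑ j, c j * z j = det3 X Y z * c i := by
        intro c hcX hcY z
        have h1 := zfc_cramer c X Y E z
        rw [hcX, hcY, mul_zero, mul_zero, zero_add, zero_add, hE, zfc_sum_eN] at h1
        exact h1
      have hsub : ∀ l ∈ faceN a (C.ray x) ∩ faceN a (C.ray (C.nx x)), l = v ∨ l = u := by
        intro l hl
        have hl1 : a l i ≤ 1 := hall l hl
        have hv1 : a v i ≤ 1 := hall v hvm
        have hu1' : a u i ≤ 1 := hall u hum
        have k1 := key (fun j => (a l j : ℝ) - (a v j : ℝ))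
          (zfc_face' (C.mem x) (mem_inter.1 hl).1) (zfc_face' (C.mem _) (mem_inter.1 hl).2)
        have k2 := key (fun j => (a u j : ℝ) - (a v j : ℝ))
          (zfc_face' (C.mem x) hu1) (zfc_face' (C.mem _) hu2)
        rcases (show a l i = a v i ∨ a l i = a u i by omega) with h6 | h6
        · left
          apply ha
          ext j
          have h7 := k1 (toReal (eN j))
          rw [zfc_sum_eN, h6, sub_self, mul_zero] at h7
          have h8 := (mul_eq_zero.1 h7).resolve_left hDE
          rw [sub_eq_zero] at h8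
          exact_mod_cast h8
        · right
          apply ha
          ext j
          have h7 := k1 (toReal (eN j))
          have h9 := k2 (toReal (eN j))
          rw [zfc_sum_eN, h6] at h7
          rw [zfc_sum_eN] at h9
          have h8 : det3 X Y E * ((a l j : ℝ) - (a u j : ℝ)) = 0 := by
            linear_combination h7 - h9
          have h10 := (mul_eq_zero.1 h8).resolve_left hDE
          rw [sub_eq_zero] at h10
          exact_mod_cast h10
      refine ⟨u, huv, ?_, ?_, ?_, t, ht0, hu⟩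
      · ext l
        simp only [Finset.mem_insert, Finset.mem_singleton]
        constructor
        · exact hsub l
        · rintro (rfl | rfl)
          · exact hvm
          · exact hum
      · have hv1 : a v i ≤ 1 := hall v hvm
        have hu1' : a u i ≤ 1 := hall u hum
        omega
      · intro k
        by_contra hk
        have hk1 : C.ray x k = 0 := by omega
        have hk2 : C.ray (C.nx x) k = 0 := by omega
        have hki : k = i := by
          by_contra hki
          have h1 := key (fun j => if j = k then 1 else 0) (by simp [hX, toReal, hk1])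
            (by simp [hY, toReal, hk2]) (toReal (eN k))
          rw [zfc_sum_eN] at h1
          simp only [if_true, mul_one] at h1
          rw [if_neg (fun h => hki h.symm), mul_zero] at h1
          exact hDE h1
        rw [hki] at hk1 hk2
        rcases hw with hw | hw
        · rw [hw, hk1] at hwpos
          exact lt_irrefl _ hwpos
        · rw [hw, hk2] at hwpos
          exact lt_irrefl _ hwpos
  · left
    obtain ⟨k, hk⟩ := h
    have hwk : w k = 0 := by
      rcases hw with hw | hw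
      · have h3 := hk (toReal (C.ray x))
        rw [zfc_self, mul_zero] at h3
        rw [hw]
        simpa [toReal] using h3
      · have h3 := hk (toReal (C.ray (C.nx x)))
        rw [zfc_self', mul_zero] at h3
        rw [hw]
        simpa [toReal] using h3
    have hik : i ≠ k := by
      intro h3
      rw [h3, hwk] at hwpos
      exact lt_irrefl _ hwpos
    have h4 := hk (toReal (eN i))
    rw [det3_toReal, zfc_eN, if_neg hik.symm] at h4
    rcases mul_eq_zero.1 h4.symm with h5 | h5
    · exact absurd h5 ht0.ne'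
    · exact_mod_cast h5

lemma zfc_X_add_one : (RatFunc.X + 1 : RatFunc ℂ) ≠ 0 := by
  have h : (RatFunc.X + 1 : RatFunc ℂ) =
      algebraMap (Polynomial ℂ) (RatFunc ℂ) (Polynomial.X + Polynomial.C 1) := by
    rw [map_add, RatFunc.algebraMap_X]
    simp
  rw [h]
  intro h0
  have h1 := RatFunc.algebraMap_injective ℂ (h0.trans (map_zero _).symm)
  exact Polynomial.X_add_C_ne_zero 1 h1

lemma zfc_Vr {v : Fin r} {x : Fin 3 → ℕ} (hv : v ∈ faceN a x) : Vr a v x = WF a x := by
  unfold Vr WF
  rw [mem_faceN.1 hv]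

lemma zfc_Vr_eN (v : Fin r) (i : Fin 3) :
    Vr a v (eN i) = 1 + (a v i : RatFunc ℂ) * RatFunc.X := by
  unfold Vr
  have h1 : wsum (eN i) = 1 := by
    simp [wsum, eN]
  have h2 : ∑ j, a v j * eN i j = a v i := by
    simp [eN, Pi.single_apply]
  rw [h1, h2, Nat.cast_one]

/-- The value of the two correction terms at the ends of a compact edge.

Proof. `W_x = V_v(x) = V_u(x)`, same for `y`. `Vr a p (eN i) = 1 + X` if `a p i = 1`, `= 1` if `a p i = 0`. From `ht` with `z = e_i`:
`det3Z x y (eN i)` has the sign of `a u i - a v i`. `coneMult_two` with `n = a_u - a_v` (`n·x = n·y = 0` by `ht`). If `a v i = 1`, `a u i = 0`: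
`δ = det3Z x y e_i < 0`, `det3Z e_i x y = δ`, `det3Z e_i y x = - δ`; the sum is `δ/((1+X) W W') - δ/(W W') = -δ X/((1+X) W W')
= X/(1+X) · |δ|/(W W')`. The other case: `δ > 0` and `δ/(W W') - δ/((1+X) W W') = δ X/((1+X) W W')`. -/
theorem tt_add (v u : Fin r) (x y : Fin 3 → ℕ) (i : Fin 3)
    (hv : v ∈ faceN a x ∩ faceN a y) (hu : u ∈ faceN a x ∩ faceN a y) (hx : x ≠ 0) (hy : y ≠ 0)
    (hi : (a v i = 1 ∧ a u i = 0) ∨ (a v i = 0 ∧ a u i = 1)) (t : ℝ) (ht0 : 0 < t)
    (ht : ∀ z : Fin 3 → ℝ, ∑ j, ((a u j : ℝ) - (a v j : ℝ)) * z j =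
        t * det3 (toReal x) (toReal y) z) :
    cR a v (eN i) x y + cR a u (eN i) y x =
      RatFunc.X / (RatFunc.X + 1) * ((coneMult ![x, y] : RatFunc ℂ) / (WF a x * WF a y)) := by
  have hvx := (mem_inter.1 hv).1
  have hvy := (mem_inter.1 hv).2
  have hux := (mem_inter.1 hu).1
  have huy := (mem_inter.1 hu).2
  set δ : ℤ := det3Z x y (eN i) with hδ
  have hd1 : det3Z (eN i) x y = δ := by
    simp only [hδ, det3Z]
    ring
  have hd2 : det3Z (eN i) y x = - δ := by
    simp only [hδ, det3Z]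
    ring
  have hei := ht (toReal (eN i))
  rw [zfc_sum_eN, det3_toReal, ← hδ] at hei
  have hδ0 : δ ≠ 0 := by
    intro h0
    rw [h0, Int.cast_zero, mul_zero, sub_eq_zero] at hei
    have h1 : a u i = a v i := by exact_mod_cast hei
    omega
  have horth : ∀ z : Fin 3 → ℕ, v ∈ faceN a z → u ∈ faceN a z →
      ∑ j, ((a u j : ℤ) - (a v j : ℤ)) * (z j : ℤ) = 0 := by
    intro z hvz huz
    have h1 : ∑ j, a u j * z j = ∑ j, a v j * z j := by
      rw [mem_faceN.1 hvz, mem_faceN.1 huz]
    have h2 : ∑ j, ((a u j : ℤ) - (a v j : ℤ)) * (z j : ℤ) =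
        ∑ j, (a u j : ℤ) * (z j : ℤ) - ∑ j, (a v j : ℤ) * (z j : ℤ) := by
      rw [← Finset.sum_sub_distrib]
      exact Finset.sum_congr rfl fun j _ => by ring
    rw [h2, sub_eq_zero]
    exact_mod_cast h1
  have hm := coneMult_two x y (fun j => (a u j : ℤ) - (a v j : ℤ)) i
    (by rcases hi with ⟨h1, h2⟩ | ⟨h1, h2⟩ <;> simp [h1, h2])
    (horth x hvx hux) (horth y hvy huy) hδ0
  rw [← hδ] at hm
  have hm' : ((coneMult ![x, y] : ℕ) : RatFunc ℂ) = ((|δ| : ℤ) : RatFunc ℂ) := by
    rw [← hm, Int.cast_natCast]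
  have hX1 : (1 + RatFunc.X : RatFunc ℂ) ≠ 0 := by
    rw [add_comm]
    exact zfc_X_add_one
  rw [hm']
  unfold cR
  rw [hd1, hd2, zfc_Vr hvx, zfc_Vr hvy, zfc_Vr hux, zfc_Vr huy, zfc_Vr_eN, zfc_Vr_eN,
    add_comm RatFunc.X 1]
  set W := WF a x
  set W' := WF a y
  rcases hi with ⟨h1, h2⟩ | ⟨h1, h2⟩
  · have hneg : δ < 0 := by
      rw [h1, h2] at hei
      push_cast at hei
      have h3 : (δ : ℝ) < 0 := by
        by_contra hcon
        have h4 := mul_nonneg ht0.le (not_lt.1 hcon)
        linarith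
      exact_mod_cast h3
    rw [abs_of_neg hneg, h1, h2]
    simp only [Nat.cast_one, Nat.cast_zero, zero_mul, one_mul, add_zero, Int.cast_neg,
      div_eq_mul_inv, mul_inv]
    have h5 : (1 + RatFunc.X : RatFunc ℂ)⁻¹ = 1 - RatFunc.X * (1 + RatFunc.X)⁻¹ := by
      field_simp
      ring
    linear_combination ((δ : RatFunc ℂ) * W⁻¹ * W'⁻¹) * h5
  · have hneg : 0 < δ := by
      rw [h1, h2] at hei
      push_cast at hei
      have h3 : 0 < (δ : ℝ) := by
        by_contra hcon
        have h4 := mul_nonneg ht0.le (neg_nonneg.2 (not_lt.1 hcon))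
        linarith
      exact_mod_cast h3
    rw [abs_of_pos hneg, h1, h2]
    simp only [Nat.cast_one, Nat.cast_zero, zero_mul, one_mul, add_zero, Int.cast_neg,
      div_eq_mul_inv, mul_inv, inv_one]
    have h5 : (1 + RatFunc.X : RatFunc ℂ)⁻¹ = 1 - RatFunc.X * (1 + RatFunc.X)⁻¹ := by
      field_simp
      ring
    linear_combination (-(δ : RatFunc ℂ) * W⁻¹ * W'⁻¹) * h5

end Pool.Agent.H37.SM
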