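import Pool.Agent.H37.SM.ZUN
import Pool.Agent.H37.SM.ZMU
import Pool.Agent.H37.SM.ZCY

/-! Module ZG2: faces of rank two. -/

set_option autoImplicit false

namespace Pool.Agent.H37.SM

open Finset Pool.Agent.H22

variable {r : ℕ} {a : Fin r → (Fin 3 →₀ ℕ)}

private lemma zg2_ne_zero {x : Fin 3 → ℕ} (hx : RayN a x) : toReal x ≠ 0 := by
  intro h
  have := hx.prim 2 (fun j => by
    have h1 := congrFun h j
    simp only [toReal, Pi.zero_apply, Nat.cast_eq_zero] at h1
    rw [h1]; exact dvd_zero _)
  omega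

/-- distinct rays are linearly independent -/
theorem rayN_indep {x y : Fin 3 → ℕ} (hx : RayN a x) (hy : RayN a y) (hxy : x ≠ y) :
    LinearIndependent ℝ ![toReal x, toReal y] := by
  rw [LinearIndependent.pair_iff]
  intro s t h
  have ht : t = 0 := by
    by_contra ht
    refine hxy (rayN_eq hx hy (-s / t) fun j => ?_)
    have h1 := congrFun h j
    simp only [Pi.add_apply, Pi.smul_apply, smul_eq_mul, Pi.zero_apply, toReal] at h1
    field_simp
    linarith
  refine ⟨?_, ht⟩
  rw [ht, zero_smul, add_zero] at h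
  exact (smul_eq_zero.mp h).resolve_right (zg2_ne_zero hx)

private lemma zg2_nonempty {τ : Finset (Fin r)} (h2 : faceRank a τ = 2) : τ.Nonempty := by
  by_contra hne
  rw [Finset.not_nonempty_iff_eq_empty] at hne
  have h1 : faceRank a τ = 0 := by
    rw [hne]; unfold faceRank; simp
  omega

private lemma zg2_fam (x y : Fin 3 → ℕ) :
    (fun c => toReal ((![x, y] : Fin 2 → Fin 3 → ℕ) c)) = ![toReal x, toReal y] := by
  funext c
  fin_cases c <;> rfl

/-- Two independent generators of `D_τ`: formula for `J_τ`.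
Proof: `jfun_eq` with one cone. -/
theorem jfun_two (hr : 0 < r) (τ : Finset (Fin r)) (hτ : IsFace a τ) (h2 : faceRank a τ = 2)
    (x y : Fin 3 → ℕ) (hxy : LinearIndependent ℝ ![toReal x, toReal y])
    (hx : toReal x ∈ minCone a τ) (hy : toReal y ∈ minCone a τ)
    (hg : ∀ z ∈ minCone a τ, ∃ α β : ℝ, 0 ≤ α ∧ 0 ≤ β ∧ z = α • toReal x + β • toReal y)
    (𝒟 : FaceCones a τ) :
    JfunG a τ 𝒟 = (coneMult ![x, y] : RatFunc ℂ) / (WF a x * WF a y) := by
  have key := jfun_eq a τ (zg2_nonempty h2) hτ 𝒟 (d := 2) (m := 1) (by rw [h2])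
    (fun _ => ![x, y]) (fun C c => by fin_cases c <;> assumption)
    (fun C => by rw [zg2_fam]; exact hxy)
    (fun C C' h => absurd (Subsingleton.elim C C') h)
    (fun _ k hk => by
      obtain ⟨α, β, hα, hβ, h⟩ := hg k hk
      refine ⟨0, ![α, β], fun c => by fin_cases c <;> assumption, ?_⟩
      rw [Fin.sum_univ_two]
      exact h)
  rw [key, Fin.sum_univ_one, Fin.prod_univ_two, div_eq_mul_inv, mul_inv]
  rfl

/-- the two generators -/
private lemma zg2_gens (τ : Finset (Fin r)) (h2 : faceRank a τ = 2) (v : Fin 2 → Fin 3 → ℝ)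
    (hv : LinearIndependent ℝ v) (hvm : ∀ c, v c ∈ minCone a τ) :
    ∃ x y, RayN a x ∧ RayN a y ∧ x ≠ y ∧ τ ⊆ faceN a x ∧ τ ⊆ faceN a y ∧
      toReal x ∈ minCone a τ ∧ toReal y ∈ minCone a τ ∧
      (∀ z ∈ minCone a τ, ∃ α β : ℝ, 0 ≤ α ∧ 0 ≤ β ∧ z = α • toReal x + β • toReal y) := by
  obtain ⟨m, g, hinj, hray, hface, hmem, hgen, hφ⟩ := exists_rays (a := a) τ (zg2_nonempty h2)
  have hspan : Module.finrank ℝ (Submodule.span ℝ (minCone a τ)) ≤ 2 := by
    have := Pool.Agent.H60.ConeExist.finrank_span_minCone_le a τ (zg2_nonempty h2)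
    rw [h2] at this
    exact this
  have hm2 : 2 ≤ m := by
    have h1 := finrank_span_eq_card hv
    rw [Fintype.card_fin] at h1
    have h3 : Submodule.span ℝ (Set.range v) ≤
        Submodule.span ℝ (Set.range fun x => toReal (g x)) := by
      rw [Submodule.span_le]
      rintro _ ⟨c, rfl⟩
      obtain ⟨e, -, he⟩ := hgen _ (hvm c)
      rw [he]
      exact Submodule.sum_mem _ fun x _ => Submodule.smul_mem _ _ (Submodule.subset_span ⟨x, rfl⟩)
    have h4 := Submodule.finrank_mono h3
    have h5 := finrank_range_le_card (R := ℝ) (fun x => toReal (g x))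
    rw [Fintype.card_fin] at h5
    unfold Set.finrank at h5
    omega
  have hm3 : m < 3 := by
    by_contra hcon
    push Not at hcon
    set x0 : Fin m := ⟨0, by omega⟩
    set x1 : Fin m := ⟨1, by omega⟩
    set x2 : Fin m := ⟨2, by omega⟩
    have h01 : x0 ≠ x1 := by simp [x0, x1]
    have h02 : x0 ≠ x2 := by simp [x0, x2]
    have h12 : x1 ≠ x2 := by simp [x1, x2]
    have hdep : ¬ LinearIndependent ℝ ![toReal (g x0), toReal (g x1), toReal (g x2)] := by
      intro hind
      have h1 := finrank_span_eq_card hind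
      rw [Fintype.card_fin] at h1
      have h3 : Submodule.span ℝ (Set.range ![toReal (g x0), toReal (g x1), toReal (g x2)]) ≤
          Submodule.span ℝ (minCone a τ) := by
        apply Submodule.span_mono
        rintro _ ⟨c, rfl⟩
        fin_cases c
        · exact hmem x0
        · exact hmem x1
        · exact hmem x2
      have h4 := Submodule.finrank_mono h3
      omega
    rw [Fintype.not_linearIndependent_iff] at hdep
    obtain ⟨c, hc, i, hi⟩ := hdep
    rw [Fin.sum_univ_three] at hc
    simp only [Matrix.cons_val_zero, Matrix.cons_val_one, Matrix.cons_val] at hc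
    obtain ⟨φ0, h00, h0p⟩ := hφ x0
    obtain ⟨φ1, h10, h1p⟩ := hφ x1
    obtain ⟨φ2, h20, h2p⟩ := hφ x2
    have e0 := congrArg φ0 hc
    have e1 := congrArg φ1 hc
    have e2 := congrArg φ2 hc
    simp only [map_add, map_smul, smul_eq_mul, map_zero, h00, h10, h20, mul_zero, zero_add,
      add_zero] at e0 e1 e2
    have p01 := h0p x1 h01.symm
    have p02 := h0p x2 h02.symm
    have p10 := h1p x0 h01
    have p12 := h1p x2 h12.symm
    have p20 := h2p x0 h02
    have p21 := h2p x1 h12
    have hz0 : c 0 = 0 := by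
      rcases lt_trichotomy (c 0) 0 with h | h | h
      · exfalso
        have q2 : 0 < c 2 := by
          by_contra hn
          push Not at hn
          nlinarith [mul_neg_of_neg_of_pos h p10, mul_nonpos_of_nonpos_of_nonneg hn p12.le]
        have q1 : 0 < c 1 := by
          by_contra hn
          push Not at hn
          nlinarith [mul_neg_of_neg_of_pos h p20, mul_nonpos_of_nonpos_of_nonneg hn p21.le]
        nlinarith [mul_pos q1 p01, mul_pos q2 p02]
      · exact h
      · exfalso
        have q2 : c 2 < 0 := by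
          by_contra hn
          push Not at hn
          nlinarith [mul_pos h p10, mul_nonneg hn p12.le]
        have q1 : c 1 < 0 := by
          by_contra hn
          push Not at hn
          nlinarith [mul_pos h p20, mul_nonneg hn p21.le]
        nlinarith [mul_neg_of_neg_of_pos q1 p01, mul_neg_of_neg_of_pos q2 p02]
    rw [hz0, zero_mul, zero_add] at e1 e2
    have hz2 : c 2 = 0 := (mul_eq_zero.mp e1).resolve_right p12.ne'
    have hz1 : c 1 = 0 := (mul_eq_zero.mp e2).resolve_right p21.ne'
    apply hi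
    fin_cases i
    · exact hz0
    · exact hz1
    · exact hz2
  obtain rfl : m = 2 := by omega
  refine ⟨g 0, g 1, hray 0, hray 1, fun h => absurd (hinj h) (by decide), hface 0, hface 1,
    hmem 0, hmem 1, fun z hz => ?_⟩
  obtain ⟨c, hc, h⟩ := hgen z hz
  rw [Fin.sum_univ_two] at h
  exact ⟨c 0, c 1, hc 0, hc 1, h⟩

private lemma zg2_cast (w : Fin 3 → ℕ) (i : Fin r) :
    ((∑ j, a i j * w j : ℕ) : ℝ) = ∑ j, (a i j : ℝ) * toReal w j := by
  simp [toReal]

private lemma zg2_wmin_le (w : Fin 3 → ℕ) (i : Fin r) : wmin a w ≤ ∑ j, a i j * w j := by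
  unfold wmin
  exact ciInf_le (OrderBot.bddBelow _) i

private lemma zg2_face {w : Fin 3 → ℕ} {i : Fin r} (h : i ∈ faceN a w) (l : Fin r) :
    ∑ j, (a i j : ℝ) * toReal w j ≤ ∑ j, (a l j : ℝ) * toReal w j := by
  rw [← zg2_cast, ← zg2_cast, Nat.cast_le, mem_faceN.1 h]
  exact zg2_wmin_le w l

private lemma zg2_comb (i : Fin r) (α β : ℝ) (x y : Fin 3 → ℝ) :
    ∑ j, (a i j : ℝ) * (α • x + β • y) j =
      α * ∑ j, (a i j : ℝ) * x j + β * ∑ j, (a i j : ℝ) * y j := by
  rw [Finset.mul_sum, Finset.mul_sum, ← Finset.sum_add_distrib]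
  refine Finset.sum_congr rfl fun j _ => ?_
  simp only [Pi.add_apply, Pi.smul_apply, smul_eq_mul]
  ring

/-- Faces of rank two.

Proof. If `D_τ` does not contain two independent vectors, `jfun_zero`. Otherwise `exists_rays`: generators `g_x`, `x : Fin m`. The
cone is two-dimensional (`H60.ConeExist.finrank_span_minCone_le`), so `m ≥ 2`, and `m = 2`: if there were three distinct
generators `x, y, z`, normalise by `δ = ` sum of coordinates, the three points lie on a line, one is between the two others, but the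
functional `φ` of the middle one is positive at the two others and zero at it. So `D_τ = cone(x, y)`. `τ = faceN x ∩ faceN y`: `⊆`
by `exists_rays`; let `k0 = α x + β y` be the vector of `IsFace`; an exponent which is minimal for `x` and for `y` is minimal for `k0`, so it
is in `τ`. The formula: `jfun_two`. -/
theorem rank_two (hr : 0 < r) (τ : Finset (Fin r)) (hτ : IsFace a τ) (h2 : faceRank a τ = 2)
    (𝒟 : FaceCones a τ) :
    JfunG a τ 𝒟 = 0 ∨ ∃ x y, RayN a x ∧ RayN a y ∧ x ≠ y ∧ τ = faceN a x ∩ faceN a y ∧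
      (∀ z ∈ minCone a τ, ∃ α β : ℝ, 0 ≤ α ∧ 0 ≤ β ∧ z = α • toReal x + β • toReal y) ∧
      JfunG a τ 𝒟 = (coneMult ![x, y] : RatFunc ℂ) / (WF a x * WF a y) := by
  by_cases hfull : ∃ v : Fin (3 + 1 - faceRank a τ) → Fin 3 → ℝ,
      LinearIndependent ℝ v ∧ ∀ c, v c ∈ minCone a τ
  swap
  · exact Or.inl (jfun_zero a τ 𝒟 hfull)
  right
  rw [h2] at hfull
  obtain ⟨v, hv, hvm⟩ := hfull
  obtain ⟨x, y, hx, hy, hxy, hfx, hfy, hmx, hmy, hg⟩ := zg2_gens τ h2 v hv hvm
  refine ⟨x, y, hx, hy, hxy, ?_, hg,
    jfun_two hr τ hτ h2 x y (rayN_indep hx hy hxy) hmx hmy hg 𝒟⟩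
  apply le_antisymm
  · exact Finset.subset_inter hfx hfy
  · intro i hi
    rw [Finset.mem_inter] at hi
    obtain ⟨k, hk0, hk⟩ := hτ
    rw [hk]
    intro l
    obtain ⟨α, β, hα, hβ, rfl⟩ := hg k ⟨hk0, fun i hi => (hk i).1 hi⟩
    rw [zg2_comb, zg2_comb]
    exact add_le_add (mul_le_mul_of_nonneg_left (zg2_face hi.1 l) hα)
      (mul_le_mul_of_nonneg_left (zg2_face hi.2 l) hβ)

/-- Converse.

Proof. `τ` is the set of exponents which are minimal for `x + y` (it is nonempty): `IsFace`. `D_τ` contains the independent vectors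
`x, y`, so `2 ≤ 4 - faceRank` (`finrank_span_minCone_le`); two distinct exponents give `faceRank ≥ 2`. So the rank is two. As in
`rank_two` `D_τ = cone(x', y')` with rays `x', y'`; `rays_complete` shows that `x` and `y` are among `x', y'`. -/
theorem face_two (ha : Function.Injective a) (hr : 0 < r) (x y : Fin 3 → ℕ) (hx : RayN a x)
    (hy : RayN a y) (hxy : x ≠ y) (p q : Fin r) (hpq : p ≠ q) (hp : p ∈ faceN a x ∩ faceN a y)
    (hq : q ∈ faceN a x ∩ faceN a y) :
    IsFace a (faceN a x ∩ faceN a y) ∧ faceRank a (faceN a x ∩ faceN a y) = 2 ∧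
      (∀ z ∈ minCone a (faceN a x ∩ faceN a y),
        ∃ α β : ℝ, 0 ≤ α ∧ 0 ≤ β ∧ z = α • toReal x + β • toReal y) ∧
      ∀ 𝒟 : FaceCones a (faceN a x ∩ faceN a y),
        JfunG a (faceN a x ∩ faceN a y) 𝒟 =
          (coneMult ![x, y] : RatFunc ℂ) / (WF a x * WF a y) := by
  have hp' := Finset.mem_inter.1 hp
  have hmx : toReal x ∈ minCone a (faceN a x ∩ faceN a y) :=
    ⟨fun j => by simp [toReal], fun i hi l => zg2_face (Finset.mem_inter.1 hi).1 l⟩
  have hmy : toReal y ∈ minCone a (faceN a x ∩ faceN a y) :=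
    ⟨fun j => by simp [toReal], fun i hi l => zg2_face (Finset.mem_inter.1 hi).2 l⟩
  have hind := rayN_indep hx hy hxy
  have hface : IsFace a (faceN a x ∩ faceN a y) := by
    refine ⟨(1 : ℝ) • toReal x + (1 : ℝ) • toReal y, fun j => ?_, fun l => ⟨fun hl l' => ?_,
      fun hl => ?_⟩⟩
    · simp only [Pi.add_apply, Pi.smul_apply, smul_eq_mul, toReal]
      positivity
    · rw [Finset.mem_inter] at hl
      rw [zg2_comb, zg2_comb]
      exact add_le_add (mul_le_mul_of_nonneg_left (zg2_face hl.1 l') zero_le_one)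
        (mul_le_mul_of_nonneg_left (zg2_face hl.2 l') zero_le_one)
    · have h1 := hl p
      rw [zg2_comb, zg2_comb, one_mul, one_mul, one_mul, one_mul, ← zg2_cast, ← zg2_cast,
        ← zg2_cast, ← zg2_cast] at h1
      have h3 : (∑ j, a l j * x j) + (∑ j, a l j * y j) ≤
          (∑ j, a p j * x j) + (∑ j, a p j * y j) := by exact_mod_cast h1
      have h4 := mem_faceN.1 hp'.1
      have h5 := mem_faceN.1 hp'.2
      have h6 := zg2_wmin_le (a := a) x l
      have h7 := zg2_wmin_le (a := a) y l
      rw [Finset.mem_inter, mem_faceN, mem_faceN]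
      omega
  have hrank : faceRank a (faceN a x ∩ faceN a y) = 2 := by
    apply le_antisymm
    · have h1 := Pool.Agent.H60.ConeExist.finrank_span_minCone_le a _ ⟨p, hp⟩
      have h3 := finrank_span_eq_card hind
      rw [Fintype.card_fin] at h3
      have h4 : Submodule.span ℝ (Set.range ![toReal x, toReal y]) ≤
          Submodule.span ℝ (minCone a (faceN a x ∩ faceN a y)) := by
        apply Submodule.span_mono
        rintro _ ⟨c, rfl⟩
        fin_cases c
        · exact hmx
        · exact hmy
      have h5 := Submodule.finrank_mono h4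
      omega
    · have hrow : LinearIndependent ℝ ![rowR a p, rowR a q] := by
        rw [LinearIndependent.pair_iff]
        intro s t h
        have h1 := congrFun h (Sum.inl ())
        simp only [Pi.add_apply, Pi.smul_apply, smul_eq_mul, Pi.zero_apply, rowR, Sum.elim_inl,
          mul_one] at h1
        have h3 : s = 0 := by
          by_contra hs
          apply hpq
          apply ha
          ext j
          have h4 := congrFun h (Sum.inr j)
          simp only [Pi.add_apply, Pi.smul_apply, smul_eq_mul, Pi.zero_apply, rowR,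
            Sum.elim_inr] at h4
          have h5 : t = -s := by linarith
          rw [h5] at h4
          have h6 : s * ((a p j : ℝ) - a q j) = 0 := by linarith
          have h7 := (mul_eq_zero.mp h6).resolve_left hs
          have h8 : (a p j : ℝ) = a q j := by linarith
          exact_mod_cast h8
        exact ⟨h3, by linarith⟩
      have h3 := finrank_span_eq_card hrow
      rw [Fintype.card_fin] at h3
      have h4 : Submodule.span ℝ (Set.range ![rowR a p, rowR a q]) ≤
          Submodule.span ℝ (rowR a '' ((faceN a x ∩ faceN a y : Finset (Fin r)) : Set (Fin r))) := by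
        apply Submodule.span_mono
        rintro _ ⟨c, rfl⟩
        fin_cases c
        · exact ⟨p, by exact_mod_cast hp, rfl⟩
        · exact ⟨q, by exact_mod_cast hq, rfl⟩
      have h5 := Submodule.finrank_mono h4
      unfold faceRank
      omega
  have hgen : ∀ z ∈ minCone a (faceN a x ∩ faceN a y),
      ∃ α β : ℝ, 0 ≤ α ∧ 0 ≤ β ∧ z = α • toReal x + β • toReal y := by
    obtain ⟨x', y', hx', hy', hxy', hfx, hfy, hmx', hmy', hg⟩ := zg2_gens _ hrank
      ![toReal x, toReal y] hind (fun c => by fin_cases c <;> assumption)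
    have hcomp := rays_complete (a := a) (faceN a x ∩ faceN a y) ⟨p, hp⟩
      (m := 2) ![x', y'] (fun c => by fin_cases c <;> assumption)
      (fun c => by fin_cases c <;> assumption)
      (fun z hz => by
        obtain ⟨α, β, hα, hβ, h⟩ := hg z hz
        refine ⟨![α, β], fun c => by fin_cases c <;> assumption, ?_⟩
        rw [Fin.sum_univ_two]
        exact h)
    obtain ⟨c1, hc1⟩ := hcomp x hx Finset.inter_subset_left
    obtain ⟨c2, hc2⟩ := hcomp y hy Finset.inter_subset_right
    have hxx : x = x' ∨ x = y' := by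
      fin_cases c1
      · exact Or.inl hc1.symm
      · exact Or.inr hc1.symm
    have hyy : y = x' ∨ y = y' := by
      fin_cases c2
      · exact Or.inl hc2.symm
      · exact Or.inr hc2.symm
    intro z hz
    obtain ⟨α, β, hα, hβ, h⟩ := hg z hz
    rcases hxx with rfl | rfl
    · rcases hyy with rfl | rfl
      · exact absurd rfl hxy
      · exact ⟨α, β, hα, hβ, h⟩
    · rcases hyy with rfl | rfl
      · exact ⟨β, α, hβ, hα, by rw [h, add_comm]⟩
      · exact absurd rfl hxy
  exact ⟨hface, hrank, hgen, fun 𝒟 => jfun_two hr _ hface hrank x y hind hmx hmy hgen 𝒟⟩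

end Pool.Agent.H37.SM
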