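import Pool.Agent.H37.SM.ZUN
import Pool.Agent.H37.SM.ZMU
import Pool.Agent.H37.SM.ZCY

/-! Module ZG3: faces of rank three. -/

set_option autoImplicit false

namespace Pool.Agent.H37.SM

open Finset Pool.Agent.H22

variable {r : ℕ} {a : Fin r → (Fin 3 →₀ ℕ)}

private lemma zg3_cast (w : Fin 3 → ℕ) (i : Fin r) :
    ((∑ j, a i j * w j : ℕ) : ℝ) = ∑ j, (a i j : ℝ) * toReal w j := by
  simp [toReal]

private lemma zg3_wmin_le (w : Fin 3 → ℕ) (i : Fin r) : wmin a w ≤ ∑ j, a i j * w j := by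
  unfold wmin
  exact ciInf_le (OrderBot.bddBelow _) i

private lemma zg3_face {w : Fin 3 → ℕ} {i : Fin r} (h : i ∈ faceN a w) (l : Fin r) :
    ∑ j, (a i j : ℝ) * toReal w j ≤ ∑ j, (a l j : ℝ) * toReal w j := by
  rw [← zg3_cast, ← zg3_cast, Nat.cast_le, mem_faceN.1 h]
  exact zg3_wmin_le w l

/-- `toReal w ∈ minCone a τ` iff `τ ⊆ faceN a w` -/
theorem mem_minCone_iff_subset (w : Fin 3 → ℕ) (τ : Finset (Fin r)) :
    toReal w ∈ minCone a τ ↔ τ ⊆ faceN a w := by
  constructor
  · rintro ⟨-, h⟩ i hi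
    rw [mem_faceN]
    have : Nonempty (Fin r) := ⟨i⟩
    obtain ⟨l, hl⟩ : ∃ l : Fin r, ∑ j, a l j * w j = wmin a w := exists_eq_ciInf_of_finite
    have h1 := h i hi l
    rw [← zg3_cast, ← zg3_cast, Nat.cast_le, hl] at h1
    exact le_antisymm h1 (zg3_wmin_le w i)
  · intro h
    exact ⟨fun j => by simp [toReal], fun i hi l => zg3_face (h hi) l⟩

private lemma zg3_nonempty {τ : Finset (Fin r)} (h3 : faceRank a τ = 3) : τ.Nonempty := by
  by_contra hne
  rw [Finset.not_nonempty_iff_eq_empty] at hne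
  have h1 : faceRank a τ = 0 := by
    rw [hne]; unfold faceRank; simp
  omega

private lemma zg3_ne_zero {x : Fin 3 → ℕ} (hx : RayN a x) : toReal x ≠ 0 := by
  intro h
  have := hx.prim 2 (fun j => by
    have h1 := congrFun h j
    simp only [toReal, Pi.zero_apply, Nat.cast_eq_zero] at h1
    rw [h1]; exact dvd_zero _)
  omega

/-- the generator of a one-dimensional cone -/
private lemma zg3_gen (τ : Finset (Fin r)) (h3 : faceRank a τ = 3) (v : Fin 3 → ℝ) (hv : v ≠ 0)
    (hvm : v ∈ minCone a τ) :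
    ∃ w, RayN a w ∧ τ ⊆ faceN a w ∧ toReal w ∈ minCone a τ ∧
      ∀ z ∈ minCone a τ, ∃ c : ℝ, 0 ≤ c ∧ z = c • toReal w := by
  obtain ⟨m, g, hinj, hray, hface, hmem, hgen, hφ⟩ := exists_rays (a := a) τ (zg3_nonempty h3)
  have hspan : Module.finrank ℝ (Submodule.span ℝ (minCone a τ)) ≤ 1 := by
    have := Pool.Agent.H60.ConeExist.finrank_span_minCone_le a τ (zg3_nonempty h3)
    rw [h3] at this
    exact this
  have hm1 : m ≠ 0 := by
    rintro rfl
    obtain ⟨c, -, hc⟩ := hgen v hvm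
    exact hv (by rw [hc]; simp)
  have hm2 : m < 2 := by
    by_contra hcon
    push Not at hcon
    set x0 : Fin m := ⟨0, by omega⟩
    set x1 : Fin m := ⟨1, by omega⟩
    have h01 : x1 ≠ x0 := by simp [x0, x1]
    obtain ⟨φ, h00, h0p⟩ := hφ x0
    have hind : LinearIndependent ℝ ![toReal (g x0), toReal (g x1)] := by
      rw [LinearIndependent.pair_iff]
      intro s t h
      have h1 := congrArg φ h
      rw [map_add, map_smul, map_smul, h00, smul_zero, zero_add, map_zero, smul_eq_mul] at h1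
      have ht : t = 0 := by
        rcases mul_eq_zero.1 h1 with h | h
        · exact h
        · exact absurd h (h0p x1 h01).ne'
      refine ⟨?_, ht⟩
      rw [ht, zero_smul, add_zero] at h
      exact (smul_eq_zero.mp h).resolve_right (zg3_ne_zero (hray x0))
    have h1 := finrank_span_eq_card hind
    rw [Fintype.card_fin] at h1
    have h4 : Submodule.span ℝ (Set.range ![toReal (g x0), toReal (g x1)]) ≤
        Submodule.span ℝ (minCone a τ) := by
      apply Submodule.span_mono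
      rintro _ ⟨c, rfl⟩
      fin_cases c
      · exact hmem x0
      · exact hmem x1
    have h5 := Submodule.finrank_mono h4
    omega
  obtain rfl : m = 1 := by omega
  refine ⟨g 0, hray 0, hface 0, hmem 0, fun z hz => ?_⟩
  obtain ⟨c, hc, h⟩ := hgen z hz
  rw [Fin.sum_univ_one] at h
  exact ⟨c 0, hc 0, h⟩

/-- the formula for `J` -/
private lemma zg3_jfun (τ : Finset (Fin r)) (hτ : IsFace a τ) (h3 : faceRank a τ = 3)
    (w : Fin 3 → ℕ) (hw : RayN a w) (hm : toReal w ∈ minCone a τ)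
    (hg : ∀ z ∈ minCone a τ, ∃ c : ℝ, 0 ≤ c ∧ z = c • toReal w) (𝒟 : FaceCones a τ) :
    JfunG a τ 𝒟 = (WF a w)⁻¹ := by
  have key := jfun_eq a τ (zg3_nonempty h3) hτ 𝒟 (d := 1) (m := 1) (by rw [h3])
    (fun _ => ![w]) (fun C c => by
      have : (![w] : Fin 1 → Fin 3 → ℕ) c = w := by fin_cases c; rfl
      rw [this]; exact hm)
    (fun _ => LinearIndependent.of_subsingleton (0 : Fin 1) (zg3_ne_zero hw))
    (fun C C' h => absurd (Subsingleton.elim C C') h)
    (fun _ k hk => by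
      obtain ⟨α, hα, h⟩ := hg k hk
      refine ⟨0, ![α], fun c => by fin_cases c; exact hα, ?_⟩
      rw [Fin.sum_univ_one]
      exact h)
  rw [key, Fin.sum_univ_one, Fin.prod_univ_one, coneMult_one w hw.prim, Nat.cast_one, one_mul]
  rfl

/-- Proof. If `D_τ` contains no nonzero vector, `jfun_zero`. Otherwise `D_τ` is a half line (`finrank_span_minCone_le`,
nonnegative vectors), generated by one ray `w` (`exists_rays`); `τ ⊆ faceN a w`, and equality: the vector `k0` of `IsFace` is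
`c • w`, `c ≥ 0`. `J_τ`: `jfun_eq` with one cone, `coneMult_one`. -/
theorem rank_three (hr : 0 < r) (τ : Finset (Fin r)) (hτ : IsFace a τ) (h3 : faceRank a τ = 3)
    (𝒟 : FaceCones a τ) :
    JfunG a τ 𝒟 = 0 ∨ ∃ w, RayN a w ∧ τ = faceN a w ∧ JfunG a τ 𝒟 = (WF a w)⁻¹ := by
  have _ := hr
  by_cases hfull : ∃ v : Fin (3 + 1 - faceRank a τ) → Fin 3 → ℝ,
      LinearIndependent ℝ v ∧ ∀ c, v c ∈ minCone a τ
  swap
  · exact Or.inl (jfun_zero a τ 𝒟 hfull)
  right
  rw [h3] at hfull
  obtain ⟨v, hv, hvm⟩ := hfull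
  obtain ⟨w, hw, hsub, hm, hg⟩ := zg3_gen τ h3 (v 0) (hv.ne_zero 0) (hvm 0)
  refine ⟨w, hw, ?_, zg3_jfun τ hτ h3 w hw hm hg 𝒟⟩
  apply le_antisymm hsub
  intro i hi
  obtain ⟨k, hk0, hk⟩ := hτ
  rw [hk]
  intro l
  obtain ⟨c, hc, rfl⟩ := hg k ⟨hk0, fun i hi => (hk i).1 hi⟩
  have e : ∀ i : Fin r, ∑ j, (a i j : ℝ) * (c • toReal w) j = c * ∑ j, (a i j : ℝ) * toReal w j := by
    intro i
    rw [Finset.mul_sum]
    refine Finset.sum_congr rfl fun j _ => ?_
    rw [Pi.smul_apply, smul_eq_mul]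
    ring
  rw [e, e]
  exact mul_le_mul_of_nonneg_left (zg3_face hi l) hc

/-- the face of a ray of rank three -/
theorem face_three (hr : 0 < r) (w : Fin 3 → ℕ) (hw : RayN a w)
    (h3 : faceRank a (faceN a w) = 3) :
    IsFace a (faceN a w) ∧ ∀ 𝒟 : FaceCones a (faceN a w), JfunG a (faceN a w) 𝒟 = (WF a w)⁻¹ := by
  have _ := hr
  have hface : IsFace a (faceN a w) := by
    refine ⟨toReal w, fun j => by simp [toReal], fun l => ⟨fun hl l' => zg3_face hl l', fun hl => ?_⟩⟩
    have : Nonempty (Fin r) := ⟨l⟩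
    obtain ⟨i, hi⟩ : ∃ l : Fin r, ∑ j, a l j * w j = wmin a w := exists_eq_ciInf_of_finite
    have h1 := hl i
    rw [← zg3_cast, ← zg3_cast, Nat.cast_le, hi] at h1
    exact mem_faceN.2 (le_antisymm h1 (zg3_wmin_le w l))
  have hm : toReal w ∈ minCone a (faceN a w) := (mem_minCone_iff_subset w _).2 subset_rfl
  obtain ⟨u, hu, -, hum, hg⟩ := zg3_gen (faceN a w) h3 (toReal w) (zg3_ne_zero hw) hm
  have huw : u = w := by
    obtain ⟨c, hc, h⟩ := hg _ hm
    exact rayN_eq hu hw c fun j => by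
      have := congrFun h j
      simpa only [toReal, Pi.smul_apply, smul_eq_mul] using this
  subst huw
  exact ⟨hface, fun 𝒟 => zg3_jfun _ hface h3 u hu hum hg 𝒟⟩

/-- the rank of the face of a nonzero vector is at most three -/
theorem faceRank_le_three (hr : 0 < r) (w : Fin 3 → ℕ) (hw : w ≠ 0) :
    faceRank a (faceN a w) ≤ 3 := by
  have : Nonempty (Fin r) := ⟨⟨0, hr⟩⟩
  obtain ⟨i, hi⟩ : ∃ l : Fin r, ∑ j, a l j * w j = wmin a w := exists_eq_ciInf_of_finite
  have hne : (faceN a w).Nonempty := ⟨i, mem_faceN.2 hi⟩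
  have h1 := Pool.Agent.H60.ConeExist.finrank_span_minCone_le a (faceN a w) hne
  have hm : toReal w ∈ minCone a (faceN a w) := (mem_minCone_iff_subset w _).2 subset_rfl
  have h2 : 0 < Module.finrank ℝ (Submodule.span ℝ (minCone a (faceN a w))) := by
    rw [Module.finrank_pos_iff_exists_ne_zero]
    refine ⟨⟨toReal w, Submodule.subset_span hm⟩, ?_⟩
    intro h0
    apply hw
    funext j
    have h3 := congrFun (congrArg Subtype.val h0) j
    simpa [toReal] using h3
  omega

/-- if the faces of two rays of rank three agree, the rays agree -/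
theorem rayN_eq_of_face (w w' : Fin 3 → ℕ) (hw : RayN a w) (hw' : RayN a w')
    (h3 : faceRank a (faceN a w) = 3) (h : faceN a w = faceN a w') : w = w' := by
  have hm : toReal w ∈ minCone a (faceN a w) := (mem_minCone_iff_subset w _).2 subset_rfl
  have hm' : toReal w' ∈ minCone a (faceN a w) := (mem_minCone_iff_subset w' _).2 h.subset
  obtain ⟨u, hu, -, hum, hg⟩ := zg3_gen (faceN a w) h3 (toReal w) (zg3_ne_zero hw) hm
  have key : ∀ x, RayN a x → toReal x ∈ minCone a (faceN a w) → u = x := by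
    intro x hx hxm
    obtain ⟨c, hc, h⟩ := hg _ hxm
    exact rayN_eq hu hx c fun j => by
      have := congrFun h j
      simpa only [toReal, Pi.smul_apply, smul_eq_mul] using this
  rw [← key w hw hm, ← key w' hw' hm']

end Pool.Agent.H37.SM
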