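import Pool.Agent.H37.SM.ZSets
import Pool.Agent.H37.SM.ZG2
import Pool.Agent.H37.SM.ZG3
import Pool.Agent.H37.SM.ZRG

/-! Module ZHC: the edges parallel to the index at a critical facet. -/

set_option autoImplicit false

namespace Pool.Agent.H37.SM

open Finset Pool.Agent.H22

variable {r : ℕ} {a : Fin r → (Fin 3 →₀ ℕ)} {s0 : ℂ} {ι : (Fin 3 → ℕ) → Fin 3}

/-- the part of the face of `w` with `ι w`-coordinate `c` -/
noncomputable def side (a : Fin r → (Fin 3 →₀ ℕ)) (ι : (Fin 3 → ℕ) → Fin 3) (w : Fin 3 → ℕ)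
    (c : ℕ) : Finset (Fin r) := (faceN a w).filter fun u => a u (ι w) = c

private lemma zhc_mem_side {w : Fin 3 → ℕ} {c : ℕ} {u : Fin r} :
    u ∈ side a ι w c ↔ u ∈ faceN a w ∧ a u (ι w) = c := by
  unfold side
  rw [Finset.mem_filter]

private lemma zhc_ne_zero {w : Fin 3 → ℕ} (hw : RayN a w) : w ≠ 0 := by
  intro h0
  have := hw.prim 2 (fun j => by rw [h0]; simp)
  omega

private lemma zhc_wsum_pos {w : Fin 3 → ℕ} (hw : RayN a w) : 0 < wsum w := by
  rw [Nat.pos_iff_ne_zero]
  intro h
  apply zhc_ne_zero hw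
  funext j
  unfold wsum at h
  exact (Finset.sum_eq_zero_iff.1 h) j (Finset.mem_univ j)

private lemma zhc_wmin_pos {w : Fin 3 → ℕ} (hw : RayN a w) (hc : Crit a s0 w) : wmin a w ≠ 0 := by
  intro h
  have h1 := zhc_wsum_pos hw
  unfold Crit at hc
  rw [h, Nat.cast_zero, zero_mul, add_zero, Nat.cast_eq_zero] at hc
  omega

private lemma zhc_face_nonempty {w : Fin 3 → ℕ} (h : wmin a w ≠ 0) : (faceN a w).Nonempty := by
  have : Nonempty (Fin r) := by
    by_contra hn
    rw [not_nonempty_iff] at hn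
    apply h
    unfold wmin
    show sInf (Set.range _) = 0
    rw [Set.range_eq_empty, Nat.sInf_empty]
  obtain ⟨l, hl⟩ : ∃ l : Fin r, ∑ j, a l j * w j = wmin a w := exists_eq_ciInf_of_finite
  exact ⟨l, mem_faceN.2 hl⟩

private lemma zhc_wmin_le (w : Fin 3 → ℕ) (i : Fin r) : wmin a w ≤ ∑ j, a i j * w j := by
  unfold wmin
  exact ciInf_le (OrderBot.bddBelow _) i

private lemma zhc_sum_eN (u : Fin r) (e : Fin 3) : ∑ j, a u j * eN e j = a u e := by
  unfold eN
  rw [Finset.sum_eq_single e]
  · simp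
  · intro b _ hb
    rw [Pi.single_eq_of_ne hb, mul_zero]
  · intro h
    exact absurd (Finset.mem_univ e) h

private lemma zhc_wmin_eN {e : Fin 3} {u : Fin r} (h : a u e = 0) : wmin a (eN e) = 0 := by
  have h1 := zhc_wmin_le (a := a) (eN e) u
  rw [zhc_sum_eN, h] at h1
  omega

private lemma zhc_mem_faceN_eN {e : Fin 3} (h : wmin a (eN e) = 0) (u : Fin r) :
    u ∈ faceN a (eN e) ↔ a u e = 0 := by
  rw [mem_faceN, zhc_sum_eN, h]

private lemma zhc_wsum_eN (e : Fin 3) : wsum (eN e) = 1 := by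
  unfold wsum eN
  rw [Finset.sum_pi_single']
  simp

/-- A critical ray is not a unit vector; both sides are nonempty; `w` has a nonzero coordinate different from `ι w`.

Proof. `i = ι w`. If `w = e_i`: `|w| = 1`, `N = a_u i ≤ 1` on the face; `N = 0` gives `1 = 0`, `N = 1` gives `s0 = -1`. Another unit vector is
excluded by `w_i > 0`. If a side is empty then `u_i` is constant on the face and `RayN.ray` with `k = e_i` gives `e_i = c w`, so
`w = e_i` by primitivity. -/
theorem side_nonempty (hs : s0 ≠ -1) (hT : Thin a s0 ι) (w : Fin 3 → ℕ) (hw : RayN a w)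
    (hc : Crit a s0 w) : (side a ι w 0).Nonempty ∧ (side a ι w 1).Nonempty ∧
      ∃ j, j ≠ ι w ∧ w j ≠ 0 := by
  have hwm := zhc_wmin_pos hw hc
  obtain ⟨u0, hu0⟩ := zhc_face_nonempty hwm
  have hpos := hT.pos w hw hc
  have hle := hT.le_one w hw hc
  have hj : ∃ j, j ≠ ι w ∧ w j ≠ 0 := by
    by_contra hcon
    push Not at hcon
    have hwi : w (ι w) = 1 := by
      apply hw.prim
      intro j
      by_cases h : j = ι w
      · rw [h]
      · rw [hcon j h]
        exact dvd_zero _
    have hwe : w = eN (ι w) := by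
      funext j
      by_cases h : j = ι w
      · rw [h]
        unfold eN
        rw [Pi.single_eq_same]
        exact hwi
      · rw [hcon j h]
        unfold eN
        rw [Pi.single_eq_of_ne h]
    have h1 : wmin a w = a u0 (ι w) := by
      have h2 := mem_faceN.1 hu0
      have h3 : ∑ j, a u0 j * w j = a u0 (ι w) := by
        conv_lhs => rw [hwe]
        exact zhc_sum_eN u0 (ι w)
      rw [← h2, h3]
    have h4 := hle u0 hu0
    have h5 : wmin a w = 1 := by omega
    have h6 : wsum w = 1 := by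
      conv_lhs => rw [hwe]
      exact zhc_wsum_eN (ι w)
    unfold Crit at hc
    rw [h5, h6, Nat.cast_one, one_mul] at hc
    exact hs (by linear_combination hc)
  have hray : ∀ c : ℕ, ¬ ∀ u ∈ faceN a w, a u (ι w) = c := by
    intro c hcst
    obtain ⟨j, hj1, hj2⟩ := hj
    obtain ⟨t, ht⟩ := hw.ray (fun l => if l = ι w then 1 else 0) (by
      intro i hi i' hi'
      have key : ∀ l ∈ faceN a w, ∑ j, (if j = ι w then (1 : ℝ) else 0) * (a l j : ℝ) = c := by
        intro l hl
        rw [Finset.sum_eq_single (ι w)]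
        · rw [if_pos rfl, one_mul, hcst l hl]
        · intro b _ hb
          rw [if_neg hb, zero_mul]
        · intro h
          exact absurd (Finset.mem_univ _) h
      rw [key i hi, key i' hi']) (by
      intro l hl
      by_cases h : l = ι w
      · rw [h] at hl
        omega
      · exact if_neg h)
    have h1 := ht (ι w)
    have h2 := ht j
    rw [if_pos rfl] at h1
    rw [if_neg hj1] at h2
    have h3 : (w j : ℝ) ≠ 0 := by exact_mod_cast hj2
    have h4 : t = 0 := by
      rcases mul_eq_zero.1 h2.symm with h | h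
      · exact h
      · exact absurd h h3
    rw [h4, zero_mul] at h1
    exact one_ne_zero h1
  refine ⟨?_, ?_, hj⟩
  · by_contra hcon
    apply hray 1
    intro u hu
    have h1 := hle u hu
    have h2 : a u (ι w) ≠ 0 := by
      intro h
      exact hcon ⟨u, zhc_mem_side.2 ⟨hu, h⟩⟩
    omega
  · by_contra hcon
    apply hray 0
    intro u hu
    have h1 := hle u hu
    have h2 : a u (ι w) ≠ 1 := by
      intro h
      exact hcon ⟨u, zhc_mem_side.2 ⟨hu, h⟩⟩
    omega

private lemma zhc_others (i : Fin 3) : ∃ j k : Fin 3, i ≠ j ∧ i ≠ k ∧ j ≠ k ∧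
    ∀ l : Fin 3, l = i ∨ l = j ∨ l = k := by
  revert i
  decide

private lemma zhc_third (i j : Fin 3) (h : j ≠ i) : ∃ k : Fin 3, j ≠ k ∧ i ≠ k := by
  revert i j
  decide

private lemma zhc_sum3 (i j k : Fin 3) (hij : i ≠ j) (hik : i ≠ k) (hjk : j ≠ k) (f : Fin 3 → ℕ) :
    ∑ l, f l = f i + f j + f k := by
  rw [Fin.sum_univ_three]
  fin_cases i <;> fin_cases j <;> fin_cases k <;> simp_all <;> ring

/-- A side with at least two elements: the second ray of the edge is a unit vector `e_c` whose coordinate vanishes on it, and the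
multiplicity is one.

Proof. `c = 0`: `e = e_i`, `i = ι w`. `gcd(w_j, w_k) = 1` for the other two indices: `p`, `q` in the two sides, `w·(a_p - a_q) = 0`, so the gcd divides `w_i`, hence
is one (`prim`): `coneMult_unit`. `c = 1`: by `Thin.type` (two exponents with coordinate one) `w = e_i + e_{i'}`, `N = 1`: on the face
`u_i + u_{i'} = 1`, so the side `1` is `{u_{i'} = 0}`; `e = e_{i'}`, `gcd(w_i, w_k) = gcd(1, 0) = 1`. -/
theorem side_unit (hs : s0 ≠ -1) (hT : Thin a s0 ι) (w : Fin 3 → ℕ) (hw : RayN a w)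
    (hc : Crit a s0 w) (c : ℕ) (hc2 : c = 0 ∨ c = 1) (h2 : 2 ≤ (side a ι w c).card) :
    ∃ e : Fin 3, w ≠ eN e ∧ side a ι w c = faceN a w ∩ faceN a (eN e) ∧ wmin a (eN e) = 0 ∧
      coneMult ![w, eN e] = 1 ∧ coneMult ![eN e, w] = 1 ∧
      ∃ p ∈ faceN a w, 0 < a p e := by
  obtain ⟨⟨p, hp⟩, ⟨q, hq⟩, ⟨j0, hj0, hj0'⟩⟩ := side_nonempty hs hT w hw hc
  rw [zhc_mem_side] at hp hq
  rcases hc2 with rfl | rfl
  · have hwm : wmin a (eN (ι w)) = 0 := zhc_wmin_eN hp.2
    obtain ⟨j, k, hij, hik, hjk, hall⟩ := zhc_others (ι w)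
    have hgcd : Nat.gcd (w j) (w k) = 1 := by
      apply hw.prim
      intro l
      rcases hall l with rfl | rfl | rfl
      · have h3 := mem_faceN.1 hp.1
        have h4 := mem_faceN.1 hq.1
        rw [zhc_sum3 _ j k hij hik hjk] at h3 h4
        rw [hp.2, zero_mul, zero_add] at h3
        rw [hq.2, one_mul] at h4
        have d1 : Nat.gcd (w j) (w k) ∣ a p j * w j + a p k * w k :=
          dvd_add (Dvd.dvd.mul_left (Nat.gcd_dvd_left _ _) _)
            (Dvd.dvd.mul_left (Nat.gcd_dvd_right _ _) _)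
        have d2 : Nat.gcd (w j) (w k) ∣ a q j * w j + a q k * w k :=
          dvd_add (Dvd.dvd.mul_left (Nat.gcd_dvd_left _ _) _)
            (Dvd.dvd.mul_left (Nat.gcd_dvd_right _ _) _)
        rw [h3, ← h4, add_assoc] at d1
        exact (Nat.dvd_add_left d2).1 d1
      · exact Nat.gcd_dvd_left _ _
      · exact Nat.gcd_dvd_right _ _
    obtain ⟨c1, c2⟩ := coneMult_unit w (ι w) j k hij hik hjk hgcd
    refine ⟨ι w, ?_, ?_, hwm, c1, c2, q, hq.1, by omega⟩
    · intro h
      apply hj0'
      rw [h]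
      unfold eN
      rw [Pi.single_eq_of_ne]
      exact hj0
    · ext u
      rw [zhc_mem_side, Finset.mem_inter, zhc_mem_faceN_eN hwm]
  · have htype := hT.type w hw hc
    obtain ⟨u, hu, u', hu', huu⟩ := Finset.one_lt_card.1 (show 1 < (side a ι w 1).card by omega)
    rw [zhc_mem_side] at hu hu'
    rcases htype with h | ⟨i', hi', hwi, hmin⟩
    · exact absurd (h u hu.1 u' hu'.1 hu.2 hu'.2) huu
    · obtain ⟨k, hik, hik'⟩ := zhc_third (ι w) i' hi'
      have hwl : ∀ l, w l = (Pi.single (ι w) 1 : Fin 3 → ℕ) l + (Pi.single i' 1 : Fin 3 → ℕ) l :=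
        fun l => congrFun hwi l
      have hwι : w (ι w) = 1 := by
        rw [hwl, Pi.single_eq_same, Pi.single_eq_of_ne hi'.symm, add_zero]
      have hwi' : w i' = 1 := by
        rw [hwl, Pi.single_eq_same, Pi.single_eq_of_ne hi']
      have hwk : w k = 0 := by
        rw [hwl, Pi.single_eq_of_ne hik'.symm, Pi.single_eq_of_ne hik.symm, add_zero]
      have hsum : ∀ v ∈ faceN a w, a v (ι w) + a v i' = 1 := by
        intro v hv
        have h3 := mem_faceN.1 hv
        rw [zhc_sum3 (ι w) i' k hi'.symm hik' hik, hwι, hwi', hwk, hmin] at h3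
        omega
      have hz : a u i' = 0 := by
        have := hsum u hu.1
        omega
      have hwm : wmin a (eN i') = 0 := zhc_wmin_eN hz
      obtain ⟨c1, c2⟩ := coneMult_unit w i' (ι w) k hi' hik hik' (by rw [hwι, hwk]; rfl)
      refine ⟨i', ?_, ?_, hwm, c1, c2, p, hp.1, ?_⟩
      · intro h
        have h5 : eN i' (ι w) = 0 := by
          unfold eN
          rw [Pi.single_eq_of_ne hi'.symm]
        have h6 : w (ι w) = eN i' (ι w) := congrFun h _
        omega
      · ext v
        rw [zhc_mem_side, Finset.mem_inter, zhc_mem_faceN_eN hwm]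
        constructor
        · rintro ⟨h3, h4⟩
          have := hsum v h3
          exact ⟨h3, by omega⟩
        · rintro ⟨h3, h4⟩
          have := hsum v h3
          exact ⟨h3, by omega⟩
      · have := hsum p hp.1
        omega

/-- Unit vectors `e` with `N(e) = 0` and a face with two elements with a ray `w` of the stated kind are rays.
Proof: `RayN.ray` for `e_e`: the face of `e_e` is `{u_e = 0}`; a functional `k` with `k_j = 0` for `j ≠ e` is a multiple of `e_e`... `k` is
supported where `(eN e) j ≠ 0`, i.e. at `e`. -/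
theorem rayN_unit (e : Fin 3) : RayN a (eN e) := by
  refine ⟨fun d hd => ?_, fun k _ hk => ⟨k e, fun j => ?_⟩⟩
  · have h := hd e
    unfold eN at h
    rw [Pi.single_eq_same] at h
    exact Nat.dvd_one.1 h
  · by_cases h : j = e
    · rw [h]
      unfold eN
      rw [Pi.single_eq_same, Nat.cast_one, mul_one]
    · have h1 : eN e j = 0 := by
        unfold eN
        rw [Pi.single_eq_of_ne h]
      rw [hk j h1, h1, Nat.cast_zero, mul_zero]

private lemma zhc_WF_eN {e : Fin 3} (h : wmin a (eN e) = 0) : WF a (eN e) = 1 := by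
  unfold WF
  rw [h, zhc_wsum_eN, Nat.cast_one, Nat.cast_zero, zero_mul, add_zero]

/-- the rays of a cone with two generators -/
private lemma zhc_complete (τ : Finset (Fin r)) (hne : τ.Nonempty) {x y : Fin 3 → ℕ}
    (hx : RayN a x) (hy : RayN a y) (hτx : τ ⊆ faceN a x) (hτy : τ ⊆ faceN a y)
    (hg : ∀ z ∈ minCone a τ, ∃ α β : ℝ, 0 ≤ α ∧ 0 ≤ β ∧ z = α • toReal x + β • toReal y)
    (w : Fin 3 → ℕ) (hw : RayN a w) (hwt : τ ⊆ faceN a w) : x = w ∨ y = w := by
  obtain ⟨c, hc⟩ := rays_complete τ hne ![x, y]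
    (by intro c; fin_cases c <;> simpa)
    (by
      intro c
      fin_cases c
      · exact (mem_minCone_iff_subset x τ).2 hτx
      · exact (mem_minCone_iff_subset y τ).2 hτy)
    (by
      intro z hz
      obtain ⟨α, β, hα, hβ, h⟩ := hg z hz
      refine ⟨![α, β], ?_, ?_⟩
      · intro c
        fin_cases c <;> simpa
      · rw [h, Fin.sum_univ_two]
        rfl) w hw hwt
  fin_cases c
  · exact Or.inl hc
  · exact Or.inr hc

/-- The sides with at least two elements are edges with `J = 1/W_w`, not transversal; the facet has rank three.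

Proof. `face_two` with `x = w`, `y = e_e` (`rayN_unit`); `W_{e} = 1`. Not `TT`: if `side = faceN w1 ∩ faceN w1'` with `w1` critical and coordinates `ι w1` not
constant: `w1` is in the cone of `w` and `e_e` (`face_two`), so by `rays_complete` it is `w` or `e_e`; `e_e` is not critical (`|e| = 1`, `N = 0`), and
`ι w` is constant on the side. Rank: the functional `u_e` vanishes on the side but not on the face (`side_unit`), so
`faceRank ≥ 3`; `faceRank_le_three`. -/
theorem side_face (ha : Function.Injective a) (hr : 0 < r) (hs : s0 ≠ -1) (hT : Thin a s0 ι)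
    (w : Fin 3 → ℕ) (hw : RayN a w) (hc : Crit a s0 w) (c : ℕ) (hc2 : c = 0 ∨ c = 1)
    (h2 : 2 ≤ (side a ι w c).card) :
    side a ι w c ∈ fH a s0 ι ∧ faceRank a (faceN a w) = 3 ∧
      ∀ 𝒟 : FaceCones a (side a ι w c), JfunG a (side a ι w c) 𝒟 = (WF a w)⁻¹ := by
  obtain ⟨e, hwe, hside, hwm, hm1, hm2, p0, hp0, hp0'⟩ := side_unit hs hT w hw hc c hc2 h2
  obtain ⟨p, hp, q, hq, hpq⟩ := Finset.one_lt_card.1 (show 1 < (side a ι w c).card by omega)
  have hp' := hp
  have hq' := hq
  rw [hside] at hp' hq'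
  obtain ⟨f1, f2, f3, f4⟩ := face_two ha hr w (eN e) hw (rayN_unit e) hwe p q hpq hp' hq'
  rw [← hside] at f1 f2 f3 f4
  refine ⟨?_, ?_, ?_⟩
  · rw [mem_fH]
    refine ⟨f1, f2, ?_⟩
    rintro ⟨w1, w1', hw1, hw1', hne, heq, hcr, u, hu, v, hv, huv⟩
    have hsub : side a ι w c ⊆ faceN a w1 := by
      rw [heq]
      exact Finset.inter_subset_left
    rcases zhc_complete (side a ι w c) ⟨p, hp⟩ hw (rayN_unit e)
      (by rw [hside]; exact Finset.inter_subset_left)
      (by rw [hside]; exact Finset.inter_subset_right) f3 w1 hw1 hsub with h | h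
    · apply huv
      rw [← h, (zhc_mem_side.1 hu).2, (zhc_mem_side.1 hv).2]
    · rw [← h] at hcr
      unfold Crit at hcr
      rw [hwm, zhc_wsum_eN, Nat.cast_one, Nat.cast_zero, zero_mul, add_zero] at hcr
      exact one_ne_zero hcr
  · have hle := faceRank_le_three (a := a) hr w (zhc_ne_zero hw)
    have hlt : faceRank a (side a ι w c) < faceRank a (faceN a w) := by
      unfold faceRank
      apply Submodule.finrank_lt_finrank_of_lt
      refine lt_of_le_of_ne (Submodule.span_mono (Set.image_mono ?_)) ?_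
      · rw [hside]
        exact_mod_cast Finset.inter_subset_left
      · intro h
        have h3 : rowR a p0 ∈ Submodule.span ℝ (rowR a '' (faceN a w : Set (Fin r))) :=
          Submodule.subset_span ⟨p0, by exact_mod_cast hp0, rfl⟩
        rw [← h] at h3
        have h4 : Submodule.span ℝ (rowR a '' (side a ι w c : Set (Fin r))) ≤
            LinearMap.ker (LinearMap.proj (R := ℝ) (φ := fun _ : Unit ⊕ Fin 3 => ℝ)
              (Sum.inr e)) := by
          rw [Submodule.span_le]
          rintro _ ⟨u, hu, rfl⟩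
          have hu1 : u ∈ side a ι w c := by exact_mod_cast hu
          rw [hside, Finset.mem_inter, zhc_mem_faceN_eN hwm] at hu1
          show rowR a u (Sum.inr e) = 0
          simp [rowR, hu1.2]
        have h5 : rowR a p0 (Sum.inr e) = 0 := h4 h3
        simp only [rowR, Sum.elim_inr, Nat.cast_eq_zero] at h5
        omega
    omega
  · intro 𝒟
    have h3 := f4
    rw [f4 𝒟, hm1, zhc_WF_eN hwm, Nat.cast_one, mul_one, one_div]

private lemma zhc_card (τ : Finset (Fin r)) (h2 : faceRank a τ = 2) : 2 ≤ τ.card := by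
  classical
  rw [← h2]
  unfold faceRank
  have h : (rowR a '' (τ : Set (Fin r))) = ((τ.image (rowR a) : Finset _) : Set _) := by
    rw [Finset.coe_image]
  rw [h]
  exact (finrank_span_finset_le_card _).trans Finset.card_image_le

private lemma zhc_aux (hs : s0 ≠ -1) (hT : Thin a s0 ι) (τ : Finset (Fin r))
    (h2 : faceRank a τ = 2) (hTT : ¬ TT a s0 ι τ) {w w' : Fin 3 → ℕ} (hw : RayN a w)
    (hw' : RayN a w') (hne : w ≠ w') (hτ : τ = faceN a w ∩ faceN a w')
    (hg : ∀ z ∈ minCone a τ, ∃ α β : ℝ, 0 ≤ α ∧ 0 ≤ β ∧ z = α • toReal w + β • toReal w')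
    (hc : Crit a s0 w) : ∃ w c, RayN a w ∧ Crit a s0 w ∧ (c = 0 ∨ c = 1) ∧
      2 ≤ (side a ι w c).card ∧ τ = side a ι w c := by
  have hcard := zhc_card τ h2
  obtain ⟨p, hp⟩ : τ.Nonempty := Finset.card_pos.1 (by omega)
  have hcst : ∀ q ∈ τ, a q (ι w) = a p (ι w) := by
    intro q hq
    by_contra hcon
    exact hTT ⟨w, w', hw, hw', hne, hτ, hc, q, hq, p, hp, hcon⟩
  have hpw : p ∈ faceN a w := by
    rw [hτ] at hp
    exact (Finset.mem_inter.1 hp).1
  have hle := hT.le_one w hw hc p hpw
  have hc2 : a p (ι w) = 0 ∨ a p (ι w) = 1 := by omega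
  have hsub : τ ⊆ side a ι w (a p (ι w)) := by
    intro q hq
    rw [zhc_mem_side]
    refine ⟨?_, hcst q hq⟩
    rw [hτ] at hq
    exact (Finset.mem_inter.1 hq).1
  have hcard' : 2 ≤ (side a ι w (a p (ι w))).card := hcard.trans (Finset.card_le_card hsub)
  refine ⟨w, a p (ι w), hw, hc, hc2, hcard', ?_⟩
  obtain ⟨e, hwe, hside, hwm, -, -, -⟩ := side_unit hs hT w hw hc _ hc2 hcard'
  rcases zhc_complete τ ⟨p, hp⟩ hw hw' (by rw [hτ]; exact Finset.inter_subset_left)
    (by rw [hτ]; exact Finset.inter_subset_right) hg (eN e) (rayN_unit e)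
    (by
      refine hsub.trans ?_
      rw [hside]
      exact Finset.inter_subset_right) with h | h
  · exact absurd h hwe
  · rw [hside, ← h]
    exact hτ

/-- An edge which is not transversal is regular or a side of a critical facet.

Proof. `rank_two`: `J = 0` or two rays `x, y`. If none is critical `J` is regular (`reg_inv_linear`, `wsum`). If `w ∈ {x, y}` is critical, `w'` the other
one: `ι w` is constant on `τ` (otherwise `TT`), equal to `c ∈ {0,1}` (`le_one`). `τ ⊆ side a ι w c`; `τ` has at least two elements (rank two).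
`side_unit` gives `e` with `side = faceN w ∩ faceN (e_e)`; `e_e ∈ minCone a τ` (its coordinate vanishes on `τ`), so
`e_e` is one of the two rays (`rays_complete`), `w' = e_e` as `w ≠ e_e`. So `τ = side a ι w c`. -/
theorem hor_cases (ha : Function.Injective a) (hr : 0 < r) (hs : s0 ≠ -1) (hT : Thin a s0 ι)
    (τ : Finset (Fin r)) (hτ : τ ∈ fH a s0 ι) (𝒟 : FaceCones a τ) :
    Reg s0 (JfunG a τ 𝒟) ∨ ∃ w c, RayN a w ∧ Crit a s0 w ∧ (c = 0 ∨ c = 1) ∧
      2 ≤ (side a ι w c).card ∧ τ = side a ι w c := by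
  have _ := ha
  rw [mem_fH] at hτ
  obtain ⟨hF, h2, hTT⟩ := hτ
  rcases rank_two hr τ hF h2 𝒟 with h | ⟨x, y, hx, hy, hxy, hτxy, hg, hJ⟩
  · left
    rw [h]
    exact reg_zero
  · by_cases hcx : Crit a s0 x
    · right
      exact zhc_aux hs hT τ h2 hTT hx hy hxy hτxy hg hcx
    · by_cases hcy : Crit a s0 y
      · right
        refine zhc_aux hs hT τ h2 hTT hy hx hxy.symm (by rw [hτxy, Finset.inter_comm]) ?_ hcy
        intro z hz
        obtain ⟨α, β, hα, hβ, h⟩ := hg z hz
        exact ⟨β, α, hβ, hα, by rw [h, add_comm]⟩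
      · left
        rw [hJ, div_eq_mul_inv, mul_inv]
        exact (reg_natCast _).mul ((reg_inv_linear _ _ hcx).mul (reg_inv_linear _ _ hcy))

end Pool.Agent.H37.SM
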