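import Pool.Agent.H37.SM.ZMU
import Pool.Agent.H22.VolAdd

/-! Module ZTR: normalised volumes of trapezoids of height one. -/

set_option autoImplicit false

namespace Pool.Agent.H37.SM

open Finset Pool.Agent.H22

variable {r : ℕ} {a : Fin r → (Fin 3 →₀ ℕ)}

/-- A simplex with one vertex at height one over the others.
Proof: `latIndex_insert` with `φ = (u_i - c u_0)` (`u_0` the homogenising coordinate); reindex the subtype of `insert x σ` by
`Option σ`. -/
theorem faceVol_insert (σ : Finset (Fin r)) (x : Fin r) (hx : x ∉ σ) (i : Fin 3) (c : ℤ)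
    (h0 : ∀ l ∈ σ, (a l i : ℤ) = c) (h1 : (a x i : ℤ) - c = 1 ∨ (a x i : ℤ) - c = -1) :
    faceVol a (insert x σ) = faceVol a σ := by
  classical
  set v : Option σ → (Unit ⊕ Fin 3 → ℤ) := fun o => o.elim (homRow a x) (fun l => homRow a l)
    with hv
  have h2 : faceVol a (insert x σ) = latIndex v := by
    unfold faceVol latIndex
    have h3 : Set.range (fun l : (insert x σ : Finset (Fin r)) => homRow a l) = Set.range v := by
      ext z
      simp only [Set.mem_range]
      constructor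
      · rintro ⟨⟨l, hl⟩, rfl⟩
        rcases Finset.mem_insert.1 hl with rfl | hl'
        · exact ⟨none, rfl⟩
        · exact ⟨some ⟨l, hl'⟩, rfl⟩
      · rintro ⟨o, rfl⟩
        cases o with
        | none => exact ⟨⟨x, Finset.mem_insert_self _ _⟩, rfl⟩
        | some l => exact ⟨⟨l, Finset.mem_insert_of_mem l.2⟩, rfl⟩
    rw [h3]
  rw [h2]
  let φ : (Unit ⊕ Fin 3 → ℤ) →ₗ[ℤ] ℤ :=
    LinearMap.proj (Sum.inr i) - c • LinearMap.proj (Sum.inl ())
  refine latIndex_insert v φ ?_ ?_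
  · intro l
    simp [φ, v, homRow, h0 l l.2]
  · simpa [φ, v, homRow] using h1

private theorem ztr_faceVol_empty : faceVol a (∅ : Finset (Fin r)) = 1 := by
  unfold faceVol latIndex
  rw [Nat.card_eq_one_iff_unique]
  refine ⟨⟨?_⟩, ⟨0⟩⟩
  have key : ∀ q : Submodule.torsion ℤ ((Unit ⊕ Fin 3 → ℤ) ⧸
      Submodule.span ℤ (Set.range (fun l : (∅ : Finset (Fin r)) => homRow a l))), q = 0 := by
    rintro ⟨q, hq⟩
    obtain ⟨z, rfl⟩ := Submodule.mkQ_surjective _ q
    rw [Submodule.mem_torsion_iff] at hq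
    obtain ⟨⟨m, hm⟩, h⟩ := hq
    have hm0 : m ≠ 0 := nonZeroDivisors.ne_zero hm
    have h2 : Submodule.mkQ (Submodule.span ℤ (Set.range
        (fun l : (∅ : Finset (Fin r)) => homRow a l))) (m • z) = 0 := by
      rw [map_smul]; exact h
    rw [Submodule.mkQ_apply, Submodule.Quotient.mk_eq_zero, Set.range_eq_empty,
      Submodule.span_empty, Submodule.mem_bot] at h2
    have h3 : z = 0 := (smul_eq_zero.1 h2).resolve_left hm0
    apply Subtype.ext
    change Submodule.mkQ _ z = 0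
    rw [h3, map_zero]
  intro q q'
  rw [key q, key q']

/-- two exponents with difference one in some coordinate: volume one.
Proof: `faceVol_insert`, and `faceVol a {q} = 1`: `latIndex_insert` again over the empty family, or directly. -/
theorem faceVol_pair (p q : Fin r) (i : Fin 3) (h : (a p i : ℤ) - a q i = 1) :
    faceVol a {p, q} = 1 := by
  classical
  have hpq : p ≠ q := by
    rintro rfl
    simp at h
  rw [faceVol_insert {q} p (by simpa using hpq) i (a q i) (by simp) (Or.inl h)]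
  have h2 := faceVol_insert (a := a) ∅ q (by simp) i ((a q i : ℤ) - 1) (by simp)
    (Or.inl (by ring))
  rw [insert_empty_eq] at h2
  rw [h2, ztr_faceVol_empty]

private theorem ztr_sum2 {V : Type*} [AddCommGroup V] [Module ℝ V] (v : Fin r → V)
    {p q : Fin r} (hpq : p ≠ q) (x : Fin r → ℝ) :
    ∑ l ∈ ({p, q} : Finset (Fin r)), x l • v l = x p • v p + x q • v q :=
  Finset.sum_pair hpq

private theorem ztr_sum3 {V : Type*} [AddCommGroup V] [Module ℝ V] (v : Fin r → V)
    {p q t : Fin r} (hpq : p ≠ q) (hpt : p ≠ t) (hqt : q ≠ t) (x : Fin r → ℝ) :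
    ∑ l ∈ ({p, q, t} : Finset (Fin r)), x l • v l = x p • v p + x q • v q + x t • v t := by
  rw [Finset.sum_insert (by simp [hpq, hpt]), Finset.sum_pair hqt, add_assoc]

private theorem ztr_mem2 {V : Type*} [AddCommGroup V] [Module ℝ V] (v : Fin r → V)
    {p q : Fin r} (hpq : p ≠ q) {x y : ℝ} (hx : 0 < x) (hy : 0 < y) :
    x • v p + y • v q ∈ posCone v {p, q} := by
  refine ⟨fun l => if l = p then x else y, ?_, ?_⟩
  · intro l _
    dsimp only
    split_ifs
    · exact hx
    · exact hy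
  · rw [ztr_sum2 v hpq]
    simp [hpq.symm]

private theorem ztr_mem3 {V : Type*} [AddCommGroup V] [Module ℝ V] (v : Fin r → V)
    {p q t : Fin r} (hpq : p ≠ q) (hpt : p ≠ t) (hqt : q ≠ t) {x y z : ℝ} (hx : 0 < x)
    (hy : 0 < y) (hz : 0 < z) :
    x • v p + y • v q + z • v t ∈ posCone v {p, q, t} := by
  refine ⟨fun l => if l = p then x else if l = q then y else z, ?_, ?_⟩
  · intro l _
    dsimp only
    split_ifs
    · exact hx
    · exact hy
    · exact hz
  · rw [ztr_sum3 v hpq hpt hqt]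
    simp [hpq.symm, hpt.symm, hqt.symm]

private theorem ztr_of_mem3 {V : Type*} [AddCommGroup V] [Module ℝ V] (v : Fin r → V)
    {p q t : Fin r} (hpq : p ≠ q) (hpt : p ≠ t) (hqt : q ≠ t) {z : V}
    (hz : z ∈ posCone v {p, q, t}) :
    ∃ x y u : ℝ, 0 < x ∧ 0 < y ∧ 0 < u ∧ z = x • v p + y • v q + u • v t := by
  obtain ⟨x, hx, rfl⟩ := hz
  rw [ztr_sum3 v hpq hpt hqt]
  exact ⟨x p, x q, x t, hx p (by simp), hx q (by simp), hx t (by simp), rfl⟩

private theorem ztr_indep2 {p q : Fin r} (hpq : p ≠ q)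
    (h : ∀ x y : ℝ, x • rowR a p + y • rowR a q = 0 → x = 0 ∧ y = 0) :
    LinearIndependent ℝ (fun l : ({p, q} : Finset (Fin r)) => rowR a l) := by
  classical
  rw [Fintype.linearIndependent_iff]
  intro g hg
  set g' : Fin r → ℝ := fun l => if hl : l ∈ ({p, q} : Finset (Fin r)) then g ⟨l, hl⟩ else 0
    with hg'
  have h1 : ∑ l ∈ ({p, q} : Finset (Fin r)), g' l • rowR a l = 0 := by
    rw [← hg, ← Finset.sum_coe_sort]
    refine Finset.sum_congr rfl fun l _ => ?_
    simp only [hg', l.2, dif_pos]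
  rw [ztr_sum2 _ hpq] at h1
  obtain ⟨h2, h3⟩ := h _ _ h1
  rintro ⟨l, hl⟩
  have h4 : g' l = g ⟨l, hl⟩ := by simp only [hg', hl, dif_pos]
  rw [← h4]
  rcases Finset.mem_insert.1 hl with rfl | hl'
  · exact h2
  · rw [Finset.mem_singleton.1 hl']
    exact h3

private theorem ztr_indep3 {p q t : Fin r} (hpq : p ≠ q) (hpt : p ≠ t) (hqt : q ≠ t)
    (h : ∀ x y z : ℝ, x • rowR a p + y • rowR a q + z • rowR a t = 0 →
      x = 0 ∧ y = 0 ∧ z = 0) :
    LinearIndependent ℝ (fun l : ({p, q, t} : Finset (Fin r)) => rowR a l) := by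
  classical
  rw [Fintype.linearIndependent_iff]
  intro g hg
  set g' : Fin r → ℝ := fun l => if hl : l ∈ ({p, q, t} : Finset (Fin r)) then g ⟨l, hl⟩ else 0
    with hg'
  have h1 : ∑ l ∈ ({p, q, t} : Finset (Fin r)), g' l • rowR a l = 0 := by
    rw [← hg, ← Finset.sum_coe_sort]
    refine Finset.sum_congr rfl fun l _ => ?_
    simp only [hg', l.2, dif_pos]
  rw [ztr_sum3 _ hpq hpt hqt] at h1
  obtain ⟨h2, h3, h4⟩ := h _ _ _ h1
  rintro ⟨l, hl⟩
  have h5 : g' l = g ⟨l, hl⟩ := by simp only [hg', hl, dif_pos]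
  rw [← h5]
  rcases Finset.mem_insert.1 hl with rfl | hl'
  · exact h2
  rcases Finset.mem_insert.1 hl' with rfl | hl''
  · exact h3
  · rw [Finset.mem_singleton.1 hl'']
    exact h4

private theorem ztr_rel2 {p q : Fin r} (hpq : ∃ j, (a p j : ℝ) ≠ a q j) :
    ∀ x y : ℝ, x • rowR a p + y • rowR a q = 0 → x = 0 ∧ y = 0 := by
  intro x y h
  obtain ⟨j, hj⟩ := hpq
  have h1 := congrFun h (Sum.inl ())
  have h2 := congrFun h (Sum.inr j)
  simp only [rowR, Pi.add_apply, Pi.smul_apply, Sum.elim_inl, Sum.elim_inr, smul_eq_mul,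
    mul_one, Pi.zero_apply] at h1 h2
  have h3 : x * ((a p j : ℝ) - a q j) = 0 := by linear_combination h2 - (a q j : ℝ) * h1
  have h4 : x = 0 := (mul_eq_zero.1 h3).resolve_right (sub_ne_zero.2 hj)
  exact ⟨h4, by linarith⟩

private theorem ztr_ne_of_inj (ha : Function.Injective a) {p q : Fin r} (hpq : p ≠ q) :
    ∃ j, (a p j : ℝ) ≠ a q j := by
  by_contra hcon
  push Not at hcon
  apply hpq
  apply ha
  ext j
  exact_mod_cast hcon j

/-- the rank of a set of exponents in the span of two independent rows of it -/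
private theorem ztr_rank2 {G : Finset (Fin r)} {p q : Fin r} (hp : p ∈ G) (hq : q ∈ G)
    (hpq : p ≠ q)
    (hi : LinearIndependent ℝ (fun l : ({p, q} : Finset (Fin r)) => rowR a l))
    (hG : ∀ l ∈ G, ∃ x y : ℝ, rowR a l = x • rowR a p + y • rowR a q) :
    faceRank a G = 2 := by
  classical
  have h1 : Submodule.span ℝ (rowR a '' (G : Set (Fin r))) =
      Submodule.span ℝ (Set.range (fun l : ({p, q} : Finset (Fin r)) => rowR a l)) := by
    apply le_antisymm
    · rw [Submodule.span_le]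
      rintro _ ⟨l, hl, rfl⟩
      obtain ⟨x, y, hxy⟩ := hG l hl
      rw [hxy]
      refine Submodule.add_mem _ (Submodule.smul_mem _ _ (Submodule.subset_span ?_))
        (Submodule.smul_mem _ _ (Submodule.subset_span ?_))
      · exact ⟨⟨p, by simp⟩, rfl⟩
      · exact ⟨⟨q, by simp⟩, rfl⟩
    · apply Submodule.span_mono
      rintro _ ⟨⟨l, hl⟩, rfl⟩
      refine ⟨l, ?_, rfl⟩
      rcases Finset.mem_insert.1 hl with rfl | hl'
      · exact hp
      · rw [Finset.mem_singleton.1 hl']; exact hq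
  unfold faceRank
  rw [h1, finrank_span_eq_card hi, Fintype.card_coe, Finset.card_pair hpq]

/-- A face with exactly two exponents of difference one has `nvol = 1`.
Proof: the rank is two, every simplex of the triangulation has two elements, so it is `{p, q}`, and there is at least one by `cover`. -/
theorem nvol_pair (p q : Fin r) (i : Fin 3) (h : (a p i : ℤ) - a q i = 1)
    (𝒯 : FaceTriang a {p, q}) : nvol 𝒯 = 1 := by
  classical
  have hpq : p ≠ q := by
    rintro rfl
    simp at h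
  have hne : ∃ j, (a p j : ℝ) ≠ a q j := by
    refine ⟨i, fun h2 => ?_⟩
    have h3 : (a p i : ℤ) = a q i := by exact_mod_cast h2
    rw [h3] at h
    simp at h
  have hrank : faceRank a {p, q} = 2 := by
    refine ztr_rank2 (p := p) (q := q) (by simp) (by simp) hpq (ztr_indep2 hpq (ztr_rel2 hne)) ?_
    intro l hl
    rcases Finset.mem_insert.1 hl with rfl | hl'
    · exact ⟨1, 0, by simp⟩
    · rw [Finset.mem_singleton.1 hl']; exact ⟨0, 1, by simp⟩
  have hall : ∀ σ ∈ 𝒯.S, σ = {p, q} := by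
    intro σ hσ
    apply Finset.eq_of_subset_of_card_le (𝒯.sub σ hσ)
    rw [𝒯.card σ hσ, hrank, Finset.card_pair hpq]
  obtain ⟨σ, hσ, -⟩ := 𝒯.cover (pointR a p) (subset_convexHull ℝ _ ⟨p, by simp, rfl⟩)
  have hS : 𝒯.S = {{p, q}} := by
    apply Finset.eq_singleton_iff_unique_mem.2
    exact ⟨hall σ hσ ▸ hσ, hall⟩
  unfold nvol
  rw [hS, Finset.sum_singleton, faceVol_pair p q i h]

/-- An edge: the normalised volume is that of the segment between its two extreme exponents.

Proof. `GoodFam.sum_eq` (`FaceTriang.goodFam`) with the one-element family `{{p, q}}`: all exponents of `G` are convex combinations of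
`p` and `q`. -/
theorem nvol_edge (ha : Function.Injective a) (G : Finset (Fin r)) (p q : Fin r) (hp : p ∈ G)
    (hq : q ∈ G) (hpq : p ≠ q)
    (hG : ∀ l ∈ G, ∃ t : ℝ, 0 ≤ t ∧ t ≤ 1 ∧ ∀ j, (a l j : ℝ) = (1 - t) * a p j + t * a q j)
    (𝒯 : FaceTriang a G) : nvol 𝒯 = faceVol a {p, q} := by
  classical
  have hi := ztr_indep2 hpq (ztr_rel2 (ztr_ne_of_inj ha hpq))
  have hrow : ∀ l ∈ G, ∃ t : ℝ, 0 ≤ t ∧ t ≤ 1 ∧ rowR a l = (1 - t) • rowR a p + t • rowR a q := by
    intro l hl
    obtain ⟨t, h0, h1, ht⟩ := hG l hl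
    refine ⟨t, h0, h1, ?_⟩
    funext z
    rcases z with z | z
    · simp [rowR]
    · simp only [rowR, Pi.add_apply, Pi.smul_apply, Sum.elim_inr, smul_eq_mul]
      exact ht z
  have hrank : faceRank a G = 2 :=
    ztr_rank2 hp hq hpq hi fun l hl => by
      obtain ⟨t, -, -, ht⟩ := hrow l hl
      exact ⟨_, _, ht⟩
  choose! t ht0 ht1 ht using hrow
  have hgood : GoodFam a G {{p, q}} := by
    refine ⟨?_, ?_, ?_, ?_, ?_⟩
    · intro σ hσ
      rw [Finset.mem_singleton.1 hσ]
      intro l hl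
      rcases Finset.mem_insert.1 hl with rfl | hl'
      · exact hp
      · rw [Finset.mem_singleton.1 hl']; exact hq
    · intro σ hσ
      rw [Finset.mem_singleton.1 hσ, hrank, Finset.card_pair hpq]
    · intro σ hσ
      rw [Finset.mem_singleton.1 hσ]
      exact hi
    · intro σ hσ σ' hσ' hne
      exact absurd ((Finset.mem_singleton.1 hσ).trans (Finset.mem_singleton.1 hσ').symm) hne
    · intro x hx hgen
      refine ⟨{p, q}, Finset.mem_singleton_self _, ?_⟩
      have heq : ∑ l ∈ G, x l • rowR a l =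
          (∑ l ∈ G, x l * (1 - t l)) • rowR a p + (∑ l ∈ G, x l * t l) • rowR a q := by
        rw [Finset.sum_smul, Finset.sum_smul, ← Finset.sum_add_distrib]
        refine Finset.sum_congr rfl fun l hl => ?_
        conv_lhs => rw [ht l hl, smul_add, smul_smul, smul_smul]
      have hA : 0 ≤ ∑ l ∈ G, x l * (1 - t l) :=
        Finset.sum_nonneg fun l hl => mul_nonneg (hx l hl) (by linarith [ht1 l hl])
      have hB : 0 ≤ ∑ l ∈ G, x l * t l :=
        Finset.sum_nonneg fun l hl => mul_nonneg (hx l hl) (ht0 l hl)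
      have hA0 : ∑ l ∈ G, x l * (1 - t l) ≠ 0 := by
        intro h0
        apply hgen {q} (by simpa using hq) (by rw [hrank]; simp)
        rw [heq, h0, zero_smul, zero_add]
        exact Submodule.smul_mem _ _ (Submodule.subset_span ⟨q, by simp, rfl⟩)
      have hB0 : ∑ l ∈ G, x l * t l ≠ 0 := by
        intro h0
        apply hgen {p} (by simpa using hp) (by rw [hrank]; simp)
        rw [heq, h0, zero_smul, add_zero]
        exact Submodule.smul_mem _ _ (Submodule.subset_span ⟨p, by simp, rfl⟩)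
      rw [heq]
      exact ztr_mem2 _ hpq (lt_of_le_of_ne hA hA0.symm) (lt_of_le_of_ne hB hB0.symm)
  have h2 := hgood.sum_eq (𝒯.goodFam ⟨p, hp⟩) (Finset.mem_singleton_self _)
  rw [Finset.sum_singleton] at h2
  exact h2.symm

/-! ### Trapezoids -/

private theorem ztr_ext {V : Type*} [AddCommGroup V] [Module ℝ V] (W : Submodule ℝ V)
    (L1 L2 L3 : V →ₗ[ℝ] ℝ)
    (hinj : ∀ z ∈ W, L1 z = 0 → L2 z = 0 → L3 z = 0 → z = 0)
    {y y' : V} (hy : y ∈ W) (hy' : y' ∈ W) (e1 : L1 y = L1 y') (e2 : L2 y = L2 y')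
    (e3 : L3 y = L3 y') : y = y' := by
  rw [← sub_eq_zero]
  apply hinj _ (W.sub_mem hy hy')
  · rw [map_sub, e1, sub_self]
  · rw [map_sub, e2, sub_self]
  · rw [map_sub, e3, sub_self]

/-- the points of one height lie between the two extreme ones -/
private theorem ztr_line {V : Type*} [AddCommGroup V] [Module ℝ V] (v : Fin r → V)
    (W : Submodule ℝ V) (L1 L2 L3 : V →ₗ[ℝ] ℝ)
    (hinj : ∀ z ∈ W, L1 z = 0 → L2 z = 0 → L3 z = 0 → z = 0) (G : Finset (Fin r))
    (hv : ∀ l ∈ G, v l ∈ W) (h1 : ∀ l ∈ G, L1 (v l) = 1) (c : ℝ) (h2 : ∀ l ∈ G, L2 (v l) = c)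
    {p q : Fin r} (hp : p ∈ G) (hq : q ∈ G) (hpm : ∀ l ∈ G, L3 (v p) ≤ L3 (v l))
    (hqm : ∀ l ∈ G, L3 (v l) ≤ L3 (v q)) :
    ∀ l ∈ G, ∃ t : ℝ, 0 ≤ t ∧ t ≤ 1 ∧ v l = (1 - t) • v p + t • v q := by
  intro l hl
  rcases eq_or_ne (L3 (v q)) (L3 (v p)) with heq | hne
  · refine ⟨0, le_rfl, zero_le_one, ?_⟩
    rw [sub_zero, one_smul, zero_smul, add_zero]
    apply ztr_ext W L1 L2 L3 hinj (hv l hl) (hv p hp)
    · rw [h1 l hl, h1 p hp]
    · rw [h2 l hl, h2 p hp]
    · exact le_antisymm (heq ▸ hqm l hl) (hpm l hl)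
  · have hd : 0 < L3 (v q) - L3 (v p) :=
      sub_pos.2 (lt_of_le_of_ne (hpm q hq) hne.symm)
    refine ⟨(L3 (v l) - L3 (v p)) / (L3 (v q) - L3 (v p)),
      div_nonneg (sub_nonneg.2 (hpm l hl)) hd.le, ?_, ?_⟩
    · rw [div_le_one hd]
      linarith [hqm l hl]
    · apply ztr_ext W L1 L2 L3 hinj (hv l hl)
        (W.add_mem (W.smul_mem _ (hv p hp)) (W.smul_mem _ (hv q hq)))
      · rw [map_add, map_smul, map_smul, h1 l hl, h1 p hp, h1 q hq]
        simp
      · rw [map_add, map_smul, map_smul, h2 l hl, h2 p hp, h2 q hq]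
        simp only [smul_eq_mul]
        ring
      · rw [map_add, map_smul, map_smul]
        simp only [smul_eq_mul]
        field_simp
        ring

/-- the sum over one height in terms of the two extreme points -/
private theorem ztr_two {V : Type*} [AddCommGroup V] [Module ℝ V] (v : Fin r → V)
    (G : Finset (Fin r)) (p q : Fin r)
    (h : ∀ l ∈ G, ∃ t : ℝ, 0 ≤ t ∧ t ≤ 1 ∧ v l = (1 - t) • v p + t • v q) (x : Fin r → ℝ)
    (hx : ∀ l ∈ G, 0 ≤ x l) :
    ∃ α β : ℝ, 0 ≤ α ∧ 0 ≤ β ∧ ∑ l ∈ G, x l • v l = α • v p + β • v q := by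
  choose! t ht0 ht1 ht using h
  refine ⟨∑ l ∈ G, x l * (1 - t l), ∑ l ∈ G, x l * t l,
    Finset.sum_nonneg fun l hl => mul_nonneg (hx l hl) (by linarith [ht1 l hl]),
    Finset.sum_nonneg fun l hl => mul_nonneg (hx l hl) (ht0 l hl), ?_⟩
  rw [Finset.sum_smul, Finset.sum_smul, ← Finset.sum_add_distrib]
  refine Finset.sum_congr rfl fun l hl => ?_
  conv_lhs => rw [ht l hl, smul_add, smul_smul, smul_smul]

private theorem ztr_good (A G0 G1 : Finset (Fin r)) (h3 : faceRank a A = 3)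
    (L1 L2 L3 : (Unit ⊕ Fin 3 → ℝ) →ₗ[ℝ] ℝ)
    (hinj : ∀ z ∈ Submodule.span ℝ (rowR a '' (A : Set (Fin r))),
      L1 z = 0 → L2 z = 0 → L3 z = 0 → z = 0)
    (hG : A = G0 ∪ G1) (hd1 : ∀ l, L1 (rowR a l) = 1) (h0 : ∀ l ∈ G0, L2 (rowR a l) = 0)
    (h1 : ∀ l ∈ G1, L2 (rowR a l) = 1) {p0 q0 p1 q1 : Fin r} (hp0 : p0 ∈ G0) (hq0 : q0 ∈ G0)
    (hp1 : p1 ∈ G1) (hq1 : q1 ∈ G1) (hpm0 : ∀ l ∈ G0, L3 (rowR a p0) ≤ L3 (rowR a l))
    (hqm0 : ∀ l ∈ G0, L3 (rowR a l) ≤ L3 (rowR a q0))
    (hpm1 : ∀ l ∈ G1, L3 (rowR a p1) ≤ L3 (rowR a l))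
    (hqm1 : ∀ l ∈ G1, L3 (rowR a l) ≤ L3 (rowR a q1))
    (hn0 : p0 ≠ q0 → L3 (rowR a p0) ≠ L3 (rowR a q0))
    (hn1 : p1 ≠ q1 → L3 (rowR a p1) ≠ L3 (rowR a q1)) :
    GoodFam a A (({{p0, q0, p1}, {q0, p1, q1}} : Finset (Finset (Fin r))).filter
      fun σ => σ.card = 3) := by
  classical
  set W := Submodule.span ℝ (rowR a '' (A : Set (Fin r))) with hW
  have hsub0 : G0 ⊆ A := by rw [hG]; exact Finset.subset_union_left
  have hsub1 : G1 ⊆ A := by rw [hG]; exact Finset.subset_union_right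
  have hvW : ∀ l ∈ A, rowR a l ∈ W := fun l hl => Submodule.subset_span ⟨l, hl, rfl⟩
  have hne : ∀ l ∈ G0, ∀ l' ∈ G1, l ≠ l' := by
    rintro l hl l' hl' rfl
    have e1 := h0 l hl
    rw [h1 l hl'] at e1
    exact one_ne_zero e1
  have hdisj : Disjoint G0 G1 := Finset.disjoint_left.2 fun l hl hl' => hne l hl l hl' rfl
  have hlt0 : p0 ≠ q0 → L3 (rowR a p0) < L3 (rowR a q0) := fun h =>
    lt_of_le_of_ne (hpm0 q0 hq0) (hn0 h)
  have hlt1 : p1 ≠ q1 → L3 (rowR a p1) < L3 (rowR a q1) := fun h =>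
    lt_of_le_of_ne (hpm1 q1 hq1) (hn1 h)
  have hc1 : ({p0, q0, p1} : Finset (Fin r)).card = 3 → p0 ≠ q0 := by
    rintro h rfl
    rw [Finset.insert_eq_of_mem (by simp)] at h
    have := Finset.card_le_two (a := p0) (b := p1)
    omega
  have hc2 : ({q0, p1, q1} : Finset (Fin r)).card = 3 → p1 ≠ q1 := by
    rintro h rfl
    rw [Finset.pair_eq_singleton] at h
    have := Finset.card_le_two (a := q0) (b := p1)
    omega
  have hc1' : p0 ≠ q0 → ({p0, q0, p1} : Finset (Fin r)).card = 3 := fun h =>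
    Finset.card_eq_three.2 ⟨p0, q0, p1, h, hne _ hp0 _ hp1, hne _ hq0 _ hp1, rfl⟩
  have hc2' : p1 ≠ q1 → ({q0, p1, q1} : Finset (Fin r)).card = 3 := fun h =>
    Finset.card_eq_three.2 ⟨q0, p1, q1, hne _ hq0 _ hp1, hne _ hq0 _ hq1, h, rfl⟩
  have hF : ∀ σ, σ ∈ (({{p0, q0, p1}, {q0, p1, q1}} : Finset (Finset (Fin r))).filter
      fun σ => σ.card = 3) ↔ (σ = {p0, q0, p1} ∧ p0 ≠ q0) ∨ (σ = {q0, p1, q1} ∧ p1 ≠ q1) := by
    intro σ
    rw [Finset.mem_filter, Finset.mem_insert, Finset.mem_singleton]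
    constructor
    · rintro ⟨rfl | rfl, h⟩
      · exact Or.inl ⟨rfl, hc1 h⟩
      · exact Or.inr ⟨rfl, hc2 h⟩
    · rintro (⟨rfl, h⟩ | ⟨rfl, h⟩)
      · exact ⟨Or.inl rfl, hc1' h⟩
      · exact ⟨Or.inr rfl, hc2' h⟩
  -- the separation of the two cones
  have hsep : p0 ≠ q0 → p1 ≠ q1 →
      Disjoint (posCone (rowR a) {p0, q0, p1}) (posCone (rowR a) {q0, p1, q1}) := by
    intro hne0 hne1
    rw [Set.disjoint_left]
    intro y hy hy'
    obtain ⟨x1, x2, x3, hx1, hx2, hx3, e⟩ :=
      ztr_of_mem3 _ hne0 (hne _ hp0 _ hp1) (hne _ hq0 _ hp1) hy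
    obtain ⟨z1, z2, z3, hz1, hz2, hz3, e'⟩ :=
      ztr_of_mem3 _ (hne _ hq0 _ hp1) (hne _ hq0 _ hq1) hne1 hy'
    rw [e] at e'
    have e1 := congrArg L1 e'
    have e2 := congrArg L2 e'
    have e3 := congrArg L3 e'
    simp only [map_add, map_smul, smul_eq_mul, hd1, h0 _ hp0, h0 _ hq0, h1 _ hp1, h1 _ hq1]
      at e1 e2 e3
    have k1 := mul_pos hx1 (sub_pos.2 (hlt0 hne0))
    have k2 := mul_pos hz3 (sub_pos.2 (hlt1 hne1))
    have k3 : x1 + x2 = z1 := by linarith
    have k4 : x3 = z2 + z3 := by linarith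
    rw [← k3, k4] at e3
    nlinarith
  refine ⟨?_, ?_, ?_, ?_, ?_⟩
  · intro σ hσ l hl
    rcases (hF σ).1 hσ with ⟨rfl, -⟩ | ⟨rfl, -⟩
    · simp only [Finset.mem_insert, Finset.mem_singleton] at hl
      rcases hl with rfl | rfl | rfl
      · exact hsub0 hp0
      · exact hsub0 hq0
      · exact hsub1 hp1
    · simp only [Finset.mem_insert, Finset.mem_singleton] at hl
      rcases hl with rfl | rfl | rfl
      · exact hsub0 hq0
      · exact hsub1 hp1
      · exact hsub1 hq1
  · intro σ hσ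
    rw [h3]
    exact (Finset.mem_filter.1 hσ).2
  · intro σ hσ
    rcases (hF σ).1 hσ with ⟨rfl, h⟩ | ⟨rfl, h⟩
    · apply ztr_indep3 h (hne _ hp0 _ hp1) (hne _ hq0 _ hp1)
      intro x y z hxyz
      have e1 := congrArg L1 hxyz
      have e2 := congrArg L2 hxyz
      have e3 := congrArg L3 hxyz
      simp only [map_add, map_smul, map_zero, smul_eq_mul, hd1, h0 _ hp0, h0 _ hq0, h1 _ hp1]
        at e1 e2 e3
      have hz : z = 0 := by linarith
      have hx : x * (L3 (rowR a q0) - L3 (rowR a p0)) = 0 := by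
        rw [hz] at e1 e3
        have : y = -x := by linarith
        rw [this] at e3
        linarith
      have hx0 : x = 0 := (mul_eq_zero.1 hx).resolve_right (sub_pos.2 (hlt0 h)).ne'
      exact ⟨hx0, by linarith, hz⟩
    · apply ztr_indep3 (hne _ hq0 _ hp1) (hne _ hq0 _ hq1) h
      intro x y z hxyz
      have e1 := congrArg L1 hxyz
      have e2 := congrArg L2 hxyz
      have e3 := congrArg L3 hxyz
      simp only [map_add, map_smul, map_zero, smul_eq_mul, hd1, h0 _ hq0, h1 _ hp1, h1 _ hq1]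
        at e1 e2 e3
      have hx : x = 0 := by linarith
      have hz : z * (L3 (rowR a q1) - L3 (rowR a p1)) = 0 := by
        rw [hx] at e1 e3
        have : y = -z := by linarith
        rw [this] at e3
        linarith
      have hz0 : z = 0 := (mul_eq_zero.1 hz).resolve_right (sub_pos.2 (hlt1 h)).ne'
      exact ⟨hx, by linarith, hz0⟩
  · intro σ hσ σ' hσ' hne'
    rcases (hF σ).1 hσ with ⟨rfl, h⟩ | ⟨rfl, h⟩ <;>
      rcases (hF σ').1 hσ' with ⟨rfl, h'⟩ | ⟨rfl, h'⟩
    · exact absurd rfl hne'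
    · exact hsep h h'
    · exact (hsep h' h).symm
    · exact absurd rfl hne'
  · intro x hx hgen
    obtain ⟨α0, β0, hα0, hβ0, hy0⟩ := ztr_two (rowR a) G0 p0 q0
      (ztr_line _ W L1 L2 L3 hinj G0 (fun l hl => hvW l (hsub0 hl)) (fun l _ => hd1 l) 0 h0 hp0 hq0
        hpm0 hqm0) x (fun l hl => hx l (hsub0 hl))
    obtain ⟨α1, β1, hα1, hβ1, hy1⟩ := ztr_two (rowR a) G1 p1 q1
      (ztr_line _ W L1 L2 L3 hinj G1 (fun l hl => hvW l (hsub1 hl)) (fun l _ => hd1 l) 1 h1 hp1 hq1
        hpm1 hqm1) x (fun l hl => hx l (hsub1 hl))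
    set y := ∑ l ∈ A, x l • rowR a l with hydef
    have hy : y = α0 • rowR a p0 + β0 • rowR a q0 + (α1 • rowR a p1 + β1 • rowR a q1) := by
      rw [hydef, hG, Finset.sum_union hdisj, hy0, hy1]
    have hP0 := hvW _ (hsub0 hp0)
    have hQ0 := hvW _ (hsub0 hq0)
    have hP1 := hvW _ (hsub1 hp1)
    have hQ1 := hvW _ (hsub1 hq1)
    have hyW : y ∈ W := by
      rw [hy]
      exact W.add_mem (W.add_mem (W.smul_mem _ hP0) (W.smul_mem _ hQ0))
        (W.add_mem (W.smul_mem _ hP1) (W.smul_mem _ hQ1))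
    have hext : ∀ y' ∈ W, L1 y = L1 y' → L2 y = L2 y' → L3 y = L3 y' → y = y' :=
      fun y' hy' => ztr_ext W L1 L2 L3 hinj hyW hy'
    -- genericity
    have hgen2 : ∀ s t, s ∈ A → t ∈ A → ∀ c d : ℝ, y ≠ c • rowR a s + d • rowR a t := by
      intro s t hs ht c d heq
      apply hgen {s, t}
      · intro l hl
        rcases Finset.mem_insert.1 hl with rfl | hl'
        · exact hs
        · rw [Finset.mem_singleton.1 hl']; exact ht
      · rw [h3]
        have := Finset.card_le_two (a := s) (b := t)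
        omega
      · rw [heq]
        exact Submodule.add_mem _ (Submodule.smul_mem _ _ (Submodule.subset_span ⟨s, by simp, rfl⟩))
          (Submodule.smul_mem _ _ (Submodule.subset_span ⟨t, by simp, rfl⟩))
    have E1 : L1 y = α0 + β0 + (α1 + β1) := by
      rw [hy]; simp only [map_add, map_smul, smul_eq_mul, hd1, mul_one]
    have E2 : L2 y = α1 + β1 := by
      rw [hy]
      simp only [map_add, map_smul, smul_eq_mul, h0 _ hp0, h0 _ hq0, h1 _ hp1, h1 _ hq1, mul_one,
        mul_zero, zero_add]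
    have E3 : L3 y = α0 * L3 (rowR a p0) + β0 * L3 (rowR a q0) +
        (α1 * L3 (rowR a p1) + β1 * L3 (rowR a q1)) := by
      rw [hy]; simp only [map_add, map_smul, smul_eq_mul]
    set P0 := L3 (rowR a p0) with hP0def
    set Q0 := L3 (rowR a q0) with hQ0def
    set P1 := L3 (rowR a p1) with hP1def
    set Q1 := L3 (rowR a q1) with hQ1def
    have hle0 : 0 ≤ Q0 - P0 := sub_nonneg.2 (hpm0 q0 hq0)
    have hle1 : 0 ≤ Q1 - P1 := sub_nonneg.2 (hpm1 q1 hq1)
    have hS0 : 0 < α0 + β0 := by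
      refine lt_of_le_of_ne (add_nonneg hα0 hβ0) fun h => ?_
      have e1 : α0 = 0 := by linarith
      have e2 : β0 = 0 := by linarith
      apply hgen2 p1 q1 (hsub1 hp1) (hsub1 hq1) α1 β1
      rw [hy, e1, e2, zero_smul, zero_smul, zero_add, zero_add]
    have hS1 : 0 < α1 + β1 := by
      refine lt_of_le_of_ne (add_nonneg hα1 hβ1) fun h => ?_
      have e1 : α1 = 0 := by linarith
      have e2 : β1 = 0 := by linarith
      apply hgen2 p0 q0 (hsub0 hp0) (hsub0 hq0) α0 β0
      rw [hy, e1, e2, zero_smul, zero_smul, zero_add, add_zero]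
    rcases lt_trichotomy (β1 * (Q1 - P1)) (α0 * (Q0 - P0)) with hD | hD | hD
    · -- below the diagonal
      have hpos : 0 < α0 * (Q0 - P0) := lt_of_le_of_lt (mul_nonneg hβ1 hle1) hD
      have hd : 0 < Q0 - P0 := by
        refine lt_of_le_of_ne hle0 fun h => ?_
        rw [← h, mul_zero] at hpos
        exact lt_irrefl _ hpos
      have hne0 : p0 ≠ q0 := by
        rintro rfl
        rw [hP0def] at hd
        linarith
      refine ⟨{p0, q0, p1}, (hF _).2 (Or.inl ⟨rfl, hne0⟩), ?_⟩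
      set D := (α0 * (Q0 - P0) - β1 * (Q1 - P1)) / (Q0 - P0) with hDdef
      have hDp : 0 < D := div_pos (by linarith) hd
      have hDe : D * (Q0 - P0) = α0 * (Q0 - P0) - β1 * (Q1 - P1) := by
        rw [hDdef]; field_simp
      have heq : y = D • rowR a p0 + (α0 + β0 - D) • rowR a q0 + (α1 + β1) • rowR a p1 := by
        apply hext
        · exact W.add_mem (W.add_mem (W.smul_mem _ hP0) (W.smul_mem _ hQ0)) (W.smul_mem _ hP1)
        · rw [E1]
          simp only [map_add, map_smul, smul_eq_mul, hd1]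
          ring
        · rw [E2]
          simp only [map_add, map_smul, smul_eq_mul, h0 _ hp0, h0 _ hq0, h1 _ hp1]
          ring
        · rw [E3]
          simp only [map_add, map_smul, smul_eq_mul, ← hP0def, ← hQ0def, ← hP1def]
          linear_combination hDe
      have hx2 : 0 ≤ α0 + β0 - D := by
        have h5 : 0 ≤ (α0 + β0 - D) * (Q0 - P0) := by
          have h6 : (α0 + β0 - D) * (Q0 - P0) = β0 * (Q0 - P0) + β1 * (Q1 - P1) := by
            linear_combination -hDe
          rw [h6]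
          exact add_nonneg (mul_nonneg hβ0 hle0) (mul_nonneg hβ1 hle1)
        by_contra hcon
        push Not at hcon
        nlinarith
      have hx2' : 0 < α0 + β0 - D := by
        refine lt_of_le_of_ne hx2 fun h => ?_
        apply hgen2 p0 p1 (hsub0 hp0) (hsub1 hp1) D (α1 + β1)
        rw [heq, ← h, zero_smul, add_zero]
      rw [heq]
      exact ztr_mem3 _ hne0 (hne _ hp0 _ hp1) (hne _ hq0 _ hp1) hDp hx2' hS1
    · -- on the diagonal
      exfalso
      apply hgen2 q0 p1 (hsub0 hq0) (hsub1 hp1) (α0 + β0) (α1 + β1)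
      apply hext
      · exact W.add_mem (W.smul_mem _ hQ0) (W.smul_mem _ hP1)
      · rw [E1]
        simp only [map_add, map_smul, smul_eq_mul, hd1]
        ring
      · rw [E2]
        simp only [map_add, map_smul, smul_eq_mul, h0 _ hq0, h1 _ hp1]
        ring
      · rw [E3]
        simp only [map_add, map_smul, smul_eq_mul, ← hQ0def, ← hP1def]
        linear_combination hD
    · -- above the diagonal
      have hpos : 0 < β1 * (Q1 - P1) := lt_of_le_of_lt (mul_nonneg hα0 hle0) hD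
      have hd : 0 < Q1 - P1 := by
        refine lt_of_le_of_ne hle1 fun h => ?_
        rw [← h, mul_zero] at hpos
        exact lt_irrefl _ hpos
      have hne1 : p1 ≠ q1 := by
        rintro rfl
        rw [hP1def] at hd
        linarith
      refine ⟨{q0, p1, q1}, (hF _).2 (Or.inr ⟨rfl, hne1⟩), ?_⟩
      set D := (β1 * (Q1 - P1) - α0 * (Q0 - P0)) / (Q1 - P1) with hDdef
      have hDp : 0 < D := div_pos (by linarith) hd
      have hDe : D * (Q1 - P1) = β1 * (Q1 - P1) - α0 * (Q0 - P0) := by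
        rw [hDdef]; field_simp
      have heq : y = (α0 + β0) • rowR a q0 + (α1 + β1 - D) • rowR a p1 + D • rowR a q1 := by
        apply hext
        · exact W.add_mem (W.add_mem (W.smul_mem _ hQ0) (W.smul_mem _ hP1)) (W.smul_mem _ hQ1)
        · rw [E1]
          simp only [map_add, map_smul, smul_eq_mul, hd1]
          ring
        · rw [E2]
          simp only [map_add, map_smul, smul_eq_mul, h0 _ hq0, h1 _ hp1, h1 _ hq1]
          ring
        · rw [E3]
          simp only [map_add, map_smul, smul_eq_mul, ← hQ0def, ← hP1def, ← hQ1def]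
          linear_combination -hDe
      have hx2 : 0 ≤ α1 + β1 - D := by
        have h5 : 0 ≤ (α1 + β1 - D) * (Q1 - P1) := by
          have h6 : (α1 + β1 - D) * (Q1 - P1) = α1 * (Q1 - P1) + α0 * (Q0 - P0) := by
            linear_combination -hDe
          rw [h6]
          exact add_nonneg (mul_nonneg hα1 hle1) (mul_nonneg hα0 hle0)
        by_contra hcon
        push Not at hcon
        nlinarith
      have hx2' : 0 < α1 + β1 - D := by
        refine lt_of_le_of_ne hx2 fun h => ?_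
        apply hgen2 q0 q1 (hsub0 hq0) (hsub1 hq1) (α0 + β0) D
        rw [heq, ← h, zero_smul, add_zero]
      rw [heq]
      exact ztr_mem3 _ (hne _ hq0 _ hp1) (hne _ hq0 _ hq1) hne1 hS0 hx2' hDp

private theorem ztr_fin3 : ∀ i j : Fin 3, j ≠ i → ∃ k, k ≠ i ∧ k ≠ j ∧ ∀ l, l = i ∨ l = j ∨ l = k := by
  decide

/-- Trapezoids: `A` a set of exponents of rank three in which the `i`-th coordinate takes the values `0` and `1`. The
normalised volume is the sum of the normalised volumes of the two parallel sides (zero for a side with only one exponent).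

Proof. Let `G_c = {a_i = c}`, `c = 0, 1`, both nonempty (`h01`, rank three: if one is empty ... assumed), at least one of them has two elements.
All exponents of `A` lie in the affine plane `w·u = N`; the differences within `G_0` and within `G_1` are multiples of one vector
(orthogonal to `w` and `e_i`, which are independent: `hw`). So each `G_c` lies on a line, with ends `p_c, q_c` (extreme with respect to the common direction
`ρ`, `p_c` the smaller). Triangulate by `{p_0, q_0, p_1}` and `{q_0, p_1, q_1}` (only the first if `p_1 = q_1`, only the second if `p_0 = q_0`): this is a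
`GoodFam` (coordinates: height `u_i` and position along `ρ`). `GoodFam.sum_eq`, `faceVol_insert`, `nvol_edge`. -/
theorem nvol_trap (ha : Function.Injective a) (A G0 G1 : Finset (Fin r)) (i : Fin 3)
    (w : Fin 3 → ℕ) (N : ℕ) (hA : ∀ l ∈ A, ∑ j, a l j * w j = N) (hw : ∃ j, j ≠ i ∧ w j ≠ 0)
    (h3 : faceRank a A = 3) (hG : A = G0 ∪ G1) (h0 : ∀ l ∈ G0, a l i = 0)
    (h1 : ∀ l ∈ G1, a l i = 1) (hne0 : G0.Nonempty) (hne1 : G1.Nonempty)
    (𝒯 : FaceTriang a A) (𝒯0 : FaceTriang a G0) (𝒯1 : FaceTriang a G1) :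
    nvol 𝒯 = (if 2 ≤ G0.card then nvol 𝒯0 else 0) + (if 2 ≤ G1.card then nvol 𝒯1 else 0) := by
  classical
  obtain ⟨j, hji, hwj⟩ := hw
  obtain ⟨k, hki, hkj, hall⟩ := ztr_fin3 i j hji
  have hwj' : (0 : ℝ) < w j := by exact_mod_cast Nat.pos_of_ne_zero hwj
  let L1 : (Unit ⊕ Fin 3 → ℝ) →ₗ[ℝ] ℝ := LinearMap.proj (Sum.inl ())
  let L2 : (Unit ⊕ Fin 3 → ℝ) →ₗ[ℝ] ℝ := LinearMap.proj (Sum.inr i)
  let L3 : (Unit ⊕ Fin 3 → ℝ) →ₗ[ℝ] ℝ :=
    (w k : ℝ) • LinearMap.proj (Sum.inr j) - (w j : ℝ) • LinearMap.proj (Sum.inr k)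
  let L4 : (Unit ⊕ Fin 3 → ℝ) →ₗ[ℝ] ℝ :=
    (∑ l, (w l : ℝ) • LinearMap.proj (Sum.inr l)) - (N : ℝ) • LinearMap.proj (Sum.inl ())
  have hsum : ∀ f : Fin 3 → ℝ, ∑ l, f l = f i + f j + f k := by
    intro f
    have h2 : (univ : Finset (Fin 3)) = {i, j, k} := by
      ext l
      simp only [Finset.mem_univ, Finset.mem_insert, Finset.mem_singleton, true_iff]
      exact hall l
    rw [h2, Finset.sum_insert (by simp [hji.symm, hki.symm]), Finset.sum_pair hkj.symm, add_assoc]
  have hL4 : ∀ l ∈ A, L4 (rowR a l) = 0 := by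
    intro l hl
    have e := hA l hl
    have e' : (∑ j, (a l j : ℝ) * w j) = N := by exact_mod_cast e
    simp only [L4, LinearMap.sub_apply, LinearMap.sum_apply, LinearMap.smul_apply,
      LinearMap.proj_apply, smul_eq_mul, rowR, Sum.elim_inr, Sum.elim_inl, mul_one]
    rw [← e', sub_eq_zero]
    exact Finset.sum_congr rfl fun _ _ => mul_comm _ _
  have hinj : ∀ z ∈ Submodule.span ℝ (rowR a '' (A : Set (Fin r))),
      L1 z = 0 → L2 z = 0 → L3 z = 0 → z = 0 := by
    intro z hz e1 e2 e3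
    have e4 : L4 z = 0 := by
      have h5 : Submodule.span ℝ (rowR a '' (A : Set (Fin r))) ≤ LinearMap.ker L4 := by
        rw [Submodule.span_le]
        rintro _ ⟨l, hl, rfl⟩
        exact hL4 l hl
      exact h5 hz
    simp only [L1, L2, L3, L4, LinearMap.sub_apply, LinearMap.sum_apply, LinearMap.smul_apply,
      LinearMap.proj_apply, smul_eq_mul] at e1 e2 e3 e4
    rw [hsum, e1, e2] at e4
    have h6 : ((w j : ℝ) * w j + w k * w k) * z (Sum.inr j) = 0 := by
      linear_combination (w j : ℝ) * e4 + (w k : ℝ) * e3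
    have h7 : (w j : ℝ) * w j + w k * w k ≠ 0 := by positivity
    have h8 : z (Sum.inr j) = 0 := (mul_eq_zero.1 h6).resolve_left h7
    have h9 : (w j : ℝ) * z (Sum.inr k) = 0 := by rw [h8] at e3; linarith
    have h10 : z (Sum.inr k) = 0 := (mul_eq_zero.1 h9).resolve_left hwj'.ne'
    funext t
    rcases t with t | t
    · exact e1
    · rcases hall t with rfl | rfl | rfl
      · exact e2
      · exact h8
      · exact h10
  have hd1 : ∀ l, L1 (rowR a l) = 1 := fun l => rfl
  have hd0' : ∀ l ∈ G0, L2 (rowR a l) = 0 := by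
    intro l hl
    simp [L2, rowR, h0 l hl]
  have hd1' : ∀ l ∈ G1, L2 (rowR a l) = 1 := by
    intro l hl
    simp [L2, rowR, h1 l hl]
  obtain ⟨p0, hp0, hpm0⟩ := Finset.exists_min_image G0 (fun l => L3 (rowR a l)) hne0
  obtain ⟨q0, hq0, hqm0⟩ := Finset.exists_max_image G0 (fun l => L3 (rowR a l)) hne0
  obtain ⟨p1, hp1, hpm1⟩ := Finset.exists_min_image G1 (fun l => L3 (rowR a l)) hne1
  obtain ⟨q1, hq1, hqm1⟩ := Finset.exists_max_image G1 (fun l => L3 (rowR a l)) hne1
  have hsub0 : G0 ⊆ A := by rw [hG]; exact Finset.subset_union_left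
  have hsub1 : G1 ⊆ A := by rw [hG]; exact Finset.subset_union_right
  set W := Submodule.span ℝ (rowR a '' (A : Set (Fin r))) with hW
  have hvW : ∀ l ∈ A, rowR a l ∈ W := fun l hl => Submodule.subset_span ⟨l, hl, rfl⟩
  have hrinj : ∀ l l', rowR a l = rowR a l' → l = l' := by
    intro l l' h
    apply ha
    ext t
    have h5 := congrFun h (Sum.inr t)
    simp only [rowR, Sum.elim_inr] at h5
    exact_mod_cast h5
  have hinj0 : ∀ l ∈ G0, ∀ l' ∈ G0, L3 (rowR a l) = L3 (rowR a l') → l = l' := by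
    intro l hl l' hl' h
    apply hrinj
    apply ztr_ext W L1 L2 L3 hinj (hvW _ (hsub0 hl)) (hvW _ (hsub0 hl'))
    · rw [hd1, hd1]
    · rw [hd0' l hl, hd0' l' hl']
    · exact h
  have hinj1 : ∀ l ∈ G1, ∀ l' ∈ G1, L3 (rowR a l) = L3 (rowR a l') → l = l' := by
    intro l hl l' hl' h
    apply hrinj
    apply ztr_ext W L1 L2 L3 hinj (hvW _ (hsub1 hl)) (hvW _ (hsub1 hl'))
    · rw [hd1, hd1]
    · rw [hd1' l hl, hd1' l' hl']
    · exact h
  have hgood := ztr_good A G0 G1 h3 L1 L2 L3 hinj hG hd1 hd0' hd1' hp0 hq0 hp1 hq1 hpm0 hqm0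
    hpm1 hqm1 (fun h h' => h (hinj0 _ hp0 _ hq0 h')) (fun h h' => h (hinj1 _ hp1 _ hq1 h'))
  have hne : ∀ l ∈ G0, ∀ l' ∈ G1, l ≠ l' := by
    rintro l hl l' hl' rfl
    have e1 := h0 l hl
    rw [h1 l hl'] at e1
    exact one_ne_zero e1
  have hline0 := ztr_line _ W L1 L2 L3 hinj G0 (fun l hl => hvW l (hsub0 hl)) (fun l _ => hd1 l) 0
    hd0' hp0 hq0 hpm0 hqm0
  have hline1 := ztr_line _ W L1 L2 L3 hinj G1 (fun l hl => hvW l (hsub1 hl)) (fun l _ => hd1 l) 1
    hd1' hp1 hq1 hpm1 hqm1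
  -- not both parallel sides are points
  have hor : p0 ≠ q0 ∨ p1 ≠ q1 := by
    by_contra hcon
    push Not at hcon
    obtain ⟨rfl, rfl⟩ := hcon
    have h5 : Submodule.span ℝ (rowR a '' (A : Set (Fin r))) ≤
        Submodule.span ℝ (rowR a '' (({p0, p1} : Finset (Fin r)) : Set (Fin r))) := by
      rw [Submodule.span_le]
      rintro _ ⟨l, hl, rfl⟩
      rw [hG] at hl
      rcases Finset.mem_union.1 (Finset.mem_coe.1 hl) with hl' | hl'
      · obtain ⟨t, -, -, ht⟩ := hline0 l hl'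
        rw [ht, ← add_smul]
        exact Submodule.smul_mem _ _ (Submodule.subset_span ⟨p0, by simp, rfl⟩)
      · obtain ⟨t, -, -, ht⟩ := hline1 l hl'
        rw [ht, ← add_smul]
        exact Submodule.smul_mem _ _ (Submodule.subset_span ⟨p1, by simp, rfl⟩)
    have h6 := Submodule.finrank_mono h5
    have h7 : Module.finrank ℝ (Submodule.span ℝ
        (rowR a '' (({p0, p1} : Finset (Fin r)) : Set (Fin r)))) ≤ 2 := by
      rw [← Finset.coe_image]
      exact (finrank_span_finset_le_card _).trans (Finset.card_image_le.trans Finset.card_le_two)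
    unfold faceRank at h3
    omega
  have hneF : ({p0, q0, p1} : Finset (Fin r)) ≠ {q0, p1, q1} := by
    intro h
    rcases hor with h5 | h5
    · have : p0 ∈ ({q0, p1, q1} : Finset (Fin r)) := by rw [← h]; simp
      simp only [Finset.mem_insert, Finset.mem_singleton] at this
      rcases this with h6 | h6 | h6
      · exact h5 h6
      · exact hne _ hp0 _ hp1 h6
      · exact hne _ hp0 _ hq1 h6
    · have : q1 ∈ ({p0, q0, p1} : Finset (Fin r)) := by rw [h]; simp
      simp only [Finset.mem_insert, Finset.mem_singleton] at this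
      rcases this with h6 | h6 | h6
      · exact hne _ hp0 _ hq1 h6.symm
      · exact hne _ hq0 _ hq1 h6.symm
      · exact h5 h6.symm
  obtain ⟨σ₀, hσ₀, -⟩ := 𝒯.cover (pointR a p0)
    (subset_convexHull ℝ _ ⟨p0, hsub0 hp0, rfl⟩)
  have hkey := (𝒯.goodFam ⟨p0, hsub0 hp0⟩).sum_eq hgood hσ₀
  have hcoord : ∀ (G : Finset (Fin r)) (p q : Fin r), (∀ l ∈ G, ∃ t : ℝ, 0 ≤ t ∧ t ≤ 1 ∧
      rowR a l = (1 - t) • rowR a p + t • rowR a q) →
      ∀ l ∈ G, ∃ t : ℝ, 0 ≤ t ∧ t ≤ 1 ∧ ∀ j, (a l j : ℝ) = (1 - t) * a p j + t * a q j := by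
    intro G p q h l hl
    obtain ⟨t, t0, t1, ht⟩ := h l hl
    refine ⟨t, t0, t1, fun s => ?_⟩
    have h5 := congrFun ht (Sum.inr s)
    simpa [rowR] using h5
  unfold nvol at hkey ⊢
  rw [hkey, Finset.sum_filter, Finset.sum_pair hneF]
  congr 1
  · rcases eq_or_ne p0 q0 with heq | hneq
    · have hc : ¬ ({p0, q0, p1} : Finset (Fin r)).card = 3 := by
        rw [heq, Finset.insert_eq_of_mem (by simp)]
        have := Finset.card_le_two (a := q0) (b := p1)
        omega
      have hcG : ¬ 2 ≤ G0.card := by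
        have : G0.card ≤ 1 := by
          rw [Finset.card_le_one]
          intro l hl l' hl'
          apply hinj0 l hl l' hl'
          have k1 := hpm0 l hl
          have k2 := hqm0 l hl
          have k3 := hpm0 l' hl'
          have k4 := hqm0 l' hl'
          rw [heq] at k1 k3
          exact (le_antisymm k2 k1).trans (le_antisymm k4 k3).symm
        omega
      rw [if_neg hc, if_neg hcG]
    · have hc : ({p0, q0, p1} : Finset (Fin r)).card = 3 :=
        Finset.card_eq_three.2 ⟨p0, q0, p1, hneq, hne _ hp0 _ hp1, hne _ hq0 _ hp1, rfl⟩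
      have hcG : 2 ≤ G0.card := Finset.one_lt_card.2 ⟨p0, hp0, q0, hq0, hneq⟩
      rw [if_pos hc, if_pos hcG]
      have h5 := nvol_edge ha G0 p0 q0 hp0 hq0 hneq (hcoord G0 p0 q0 hline0) 𝒯0
      unfold nvol at h5
      rw [h5]
      have h6 : ({p0, q0, p1} : Finset (Fin r)) = insert p1 {p0, q0} := by
        ext l
        simp only [Finset.mem_insert, Finset.mem_singleton]
        tauto
      rw [h6]
      apply faceVol_insert {p0, q0} p1 _ i 0
      · intro l hl
        rcases Finset.mem_insert.1 hl with rfl | hl'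
        · rw [h0 _ hp0]; rfl
        · rw [Finset.mem_singleton.1 hl', h0 _ hq0]; rfl
      · left
        rw [h1 _ hp1]; rfl
      · simp only [Finset.mem_insert, Finset.mem_singleton, not_or]
        exact ⟨(hne _ hp0 _ hp1).symm, (hne _ hq0 _ hp1).symm⟩
  · rcases eq_or_ne p1 q1 with heq | hneq
    · have hc : ¬ ({q0, p1, q1} : Finset (Fin r)).card = 3 := by
        rw [heq, Finset.pair_eq_singleton]
        have := Finset.card_le_two (a := q0) (b := q1)
        omega
      have hcG : ¬ 2 ≤ G1.card := by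
        have : G1.card ≤ 1 := by
          rw [Finset.card_le_one]
          intro l hl l' hl'
          apply hinj1 l hl l' hl'
          have k1 := hpm1 l hl
          have k2 := hqm1 l hl
          have k3 := hpm1 l' hl'
          have k4 := hqm1 l' hl'
          rw [heq] at k1 k3
          exact (le_antisymm k2 k1).trans (le_antisymm k4 k3).symm
        omega
      rw [if_neg hc, if_neg hcG]
    · have hc : ({q0, p1, q1} : Finset (Fin r)).card = 3 :=
        Finset.card_eq_three.2 ⟨q0, p1, q1, hne _ hq0 _ hp1, hne _ hq0 _ hq1, hneq, rfl⟩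
      have hcG : 2 ≤ G1.card := Finset.one_lt_card.2 ⟨p1, hp1, q1, hq1, hneq⟩
      rw [if_pos hc, if_pos hcG]
      have h5 := nvol_edge ha G1 p1 q1 hp1 hq1 hneq (hcoord G1 p1 q1 hline1) 𝒯1
      unfold nvol at h5
      rw [h5]
      apply faceVol_insert {p1, q1} q0 _ i 1
      · intro l hl
        rcases Finset.mem_insert.1 hl with rfl | hl'
        · rw [h1 _ hp1]; rfl
        · rw [Finset.mem_singleton.1 hl', h1 _ hq1]; rfl
      · right
        rw [h0 _ hq0]; rfl
      · simp only [Finset.mem_insert, Finset.mem_singleton, not_or]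
        exact ⟨hne _ hq0 _ hp1, hne _ hq0 _ hq1⟩

end Pool.Agent.H37.SM
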