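import Pool.Agent.H37.SM.ZHC
import Pool.Agent.H37.SM.ZTR

/-! Module ZHO: facets and parallel edges cancel at critical facets. -/

set_option autoImplicit false

namespace Pool.Agent.H37.SM

open Finset Pool.Agent.H22

variable {r : ℕ} {a : Fin r → (Fin 3 →₀ ℕ)} {s0 : ℂ} {ι : (Fin 3 → ℕ) → Fin 3}

lemma zho_mem_side {w : Fin 3 → ℕ} {c : ℕ} {u : Fin r} :
    u ∈ side a ι w c ↔ u ∈ faceN a w ∧ a u (ι w) = c := by
  simp [side]

/-- The facet `w` and its sides cancel.

Proof. `face_three`: `J = 1/W_w`; `nvol_trap` with `A = faceN a w`, `G_c = side a ι w c` (`side_nonempty`, `le_one`); `side_face`. -/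
theorem facet_cancel (ha : Function.Injective a) (hr : 0 < r) (hs : s0 ≠ -1) (hT : Thin a s0 ι)
    (w : Fin 3 → ℕ) (hw : RayN a w) (hc : Crit a s0 w) (h3 : faceRank a (faceN a w) = 3)
    (𝒟 : ∀ τ, FaceCones a τ) (𝒯 : ∀ τ, FaceTriang a τ) :
    (nvol (𝒯 (faceN a w)) : RatFunc ℂ) * JfunG a (faceN a w) (𝒟 (faceN a w)) =
      (if 2 ≤ (side a ι w 0).card then (nvol (𝒯 (side a ι w 0)) : RatFunc ℂ) *
          JfunG a (side a ι w 0) (𝒟 (side a ι w 0)) else 0) +
      (if 2 ≤ (side a ι w 1).card then (nvol (𝒯 (side a ι w 1)) : RatFunc ℂ) *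
          JfunG a (side a ι w 1) (𝒟 (side a ι w 1)) else 0) := by
  obtain ⟨hn0, hn1, hj⟩ := side_nonempty hs hT w hw hc
  have hJ := (face_three hr w hw h3).2 (𝒟 (faceN a w))
  have hG : faceN a w = side a ι w 0 ∪ side a ι w 1 := by
    ext u
    rw [Finset.mem_union, zho_mem_side, zho_mem_side]
    constructor
    · intro hu
      have := hT.le_one w hw hc u hu
      have h01 : a u (ι w) = 0 ∨ a u (ι w) = 1 := by omega
      rcases h01 with h | h
      · exact Or.inl ⟨hu, h⟩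
      · exact Or.inr ⟨hu, h⟩
    · rintro (h | h)
      · exact h.1
      · exact h.1
  have hnv := nvol_trap ha (faceN a w) (side a ι w 0) (side a ι w 1) (ι w) w (wmin a w)
    (fun l hl => mem_faceN.mp hl) hj h3 hG (fun l hl => (zho_mem_side.mp hl).2)
    (fun l hl => (zho_mem_side.mp hl).2) hn0 hn1 (𝒯 (faceN a w)) (𝒯 (side a ι w 0))
    (𝒯 (side a ι w 1))
  rw [hnv, hJ]
  push_cast
  rw [add_mul]
  congr 1
  · by_cases h : 2 ≤ (side a ι w 0).card
    · rw [if_pos h, if_pos h,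
        (side_face ha hr hs hT w hw hc 0 (Or.inl rfl) h).2.2 (𝒟 (side a ι w 0))]
    · rw [if_neg h, if_neg h, zero_mul]
  · by_cases h : 2 ≤ (side a ι w 1).card
    · rw [if_pos h, if_pos h,
        (side_face ha hr hs hT w hw hc 1 (Or.inr rfl) h).2.2 (𝒟 (side a ι w 1))]
    · rw [if_neg h, if_neg h, zero_mul]

/-- a side with at least two elements determines the critical facet and the value -/
lemma zho_side_inj (ha : Function.Injective a) (hr : 0 < r) (hs : s0 ≠ -1) (hT : Thin a s0 ι)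
    {w w' : Fin 3 → ℕ} (hw : RayN a w) (hw' : RayN a w') (hc : Crit a s0 w) (hc' : Crit a s0 w')
    {c c' : ℕ} (hc2 : c = 0 ∨ c = 1) (h2 : 2 ≤ (side a ι w c).card)
    (h : side a ι w c = side a ι w' c') : w = w' ∧ c = c' := by
  obtain ⟨e, hwe, hse, hme, -, -, -⟩ := side_unit hs hT w hw hc c hc2 h2
  obtain ⟨p, hp, q, hq, hpq⟩ := Finset.one_lt_card.mp (show 1 < (side a ι w c).card by omega)
  have hp' : p ∈ faceN a w ∩ faceN a (eN e) := by rw [← hse]; exact hp
  have hq' : q ∈ faceN a w ∩ faceN a (eN e) := by rw [← hse]; exact hq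
  obtain ⟨-, -, hgen, -⟩ := face_two ha hr w (eN e) hw (rayN_unit e) hwe p q hpq hp' hq'
  rw [← hse] at hgen
  have hsub : side a ι w c ⊆ faceN a w' := by
    rw [h]
    intro u hu
    exact (zho_mem_side.mp hu).1
  have hsubw : side a ι w c ⊆ faceN a w := fun u hu => (zho_mem_side.mp hu).1
  have hsube : side a ι w c ⊆ faceN a (eN e) := by
    rw [hse]; exact Finset.inter_subset_right
  have hray : ∀ x : Fin 2, RayN a ((![w, eN e] : Fin 2 → Fin 3 → ℕ) x) := by
    intro x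
    fin_cases x
    · exact hw
    · exact rayN_unit e
  have hmem : ∀ x : Fin 2, toReal ((![w, eN e] : Fin 2 → Fin 3 → ℕ) x) ∈
      minCone a (side a ι w c) := by
    intro x
    fin_cases x
    · exact (mem_minCone_iff_subset _ _).mpr hsubw
    · exact (mem_minCone_iff_subset _ _).mpr hsube
  have hgen' : ∀ z ∈ minCone a (side a ι w c), ∃ c : Fin 2 → ℝ, (∀ x, 0 ≤ c x) ∧
      z = ∑ x, c x • toReal ((![w, eN e] : Fin 2 → Fin 3 → ℕ) x) := by
    intro z hz
    obtain ⟨α, β, hα, hβ, hz'⟩ := hgen z hz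
    refine ⟨![α, β], ?_, ?_⟩
    · intro x
      fin_cases x
      · exact hα
      · exact hβ
    · rw [Fin.sum_univ_two]
      exact hz'
  obtain ⟨x, hx⟩ := rays_complete (side a ι w c) ⟨p, hp⟩ ![w, eN e] hray hmem hgen' w' hw' hsub
  have hww : w = w' := by
    fin_cases x
    · exact hx
    · exfalso
      have hx' : eN e = w' := hx
      rw [← hx'] at hc'
      unfold Crit at hc'
      rw [hme] at hc'
      have : wsum (eN e) = 1 := by
        simp [wsum, eN]
      rw [this] at hc'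
      simp at hc'
  subst hww
  refine ⟨rfl, ?_⟩
  have h1 := (zho_mem_side.mp hp).2
  rw [h] at hp
  have h2' := (zho_mem_side.mp hp).2
  rw [← h1, ← h2']

/-- Proof. Split `f3` into the faces with regular `J` and the faces `faceN a w`, `w` critical (`rank_three`; if `J = 1/W_w` and `w` is not critical it is
regular). Split `fH` by `hor_cases` into regular ones and sides of critical facets; a side with at least two elements belongs to exactly
one critical `w` and one `c`: the two rays of its cone are `w` and a unit vector (`side_unit`, `face_two`, `rays_complete`), unit vectors with `N = 0` are not critical; the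
coordinate `ι w` on it is `c`. By `side_face` every side with at least two elements of a critical `w` is in `fH` and `faceN a w` is in `f3` (distinct `w`
have distinct faces, `rayN_eq_of_face`). So the difference is regular plus the sum over the critical `w` of rank three of the differences in
`facet_cancel`, which vanish. -/
theorem hor_reg (ha : Function.Injective a) (hr : 0 < r) (hs : s0 ≠ -1) (hT : Thin a s0 ι)
    (𝒟 : ∀ τ, FaceCones a τ) (𝒯 : ∀ τ, FaceTriang a τ) :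
    Reg s0 (∑ τ ∈ f3 a, (nvol (𝒯 τ) : RatFunc ℂ) * JfunG a τ (𝒟 τ) -
      ∑ τ ∈ fH a s0 ι, (nvol (𝒯 τ) : RatFunc ℂ) * JfunG a τ (𝒟 τ)) := by
  classical
  let T : Finset (Fin r) → RatFunc ℂ := fun τ => (nvol (𝒯 τ) : RatFunc ℂ) * JfunG a τ (𝒟 τ)
  let P3 : Finset (Fin r) → Prop := fun τ => ∃ w, RayN a w ∧ Crit a s0 w ∧ τ = faceN a w
  let PH : Finset (Fin r) → Prop := fun τ => ∃ w c, RayN a w ∧ Crit a s0 w ∧ (c = 0 ∨ c = 1) ∧
    2 ≤ (side a ι w c).card ∧ τ = side a ι w c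
  change Reg s0 (∑ τ ∈ f3 a, T τ - ∑ τ ∈ fH a s0 ι, T τ)
  have hreg3 : ∀ τ ∈ f3 a, ¬ P3 τ → Reg s0 (T τ) := by
    intro τ hτ hP
    obtain ⟨hf, h3⟩ := mem_f3.mp hτ
    rcases rank_three hr τ hf h3 (𝒟 τ) with h | ⟨w, hw, hτw, hJ⟩
    · change Reg s0 ((nvol (𝒯 τ) : RatFunc ℂ) * JfunG a τ (𝒟 τ))
      rw [h, mul_zero]
      exact reg_zero
    · change Reg s0 ((nvol (𝒯 τ) : RatFunc ℂ) * JfunG a τ (𝒟 τ))
      rw [hJ]
      refine (reg_natCast _).mul ?_
      exact reg_inv_linear _ _ (fun hc => hP ⟨w, hw, hc, hτw⟩)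
  have hregH : ∀ τ ∈ fH a s0 ι, ¬ PH τ → Reg s0 (T τ) := by
    intro τ hτ hP
    rcases hor_cases ha hr hs hT τ hτ (𝒟 τ) with h | h
    · exact (reg_natCast _).mul h
    · exact absurd h hP
  have hwex : ∀ τ, ∃ w, P3 τ → RayN a w ∧ Crit a s0 w ∧ τ = faceN a w := by
    intro τ
    by_cases h : P3 τ
    · obtain ⟨w, hw⟩ := h
      exact ⟨w, fun _ => hw⟩
    · exact ⟨0, fun h' => absurd h' h⟩
  choose W hW using hwex
  have hrank : ∀ τ ∈ (f3 a).filter P3, faceRank a (faceN a (W τ)) = 3 := by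
    intro τ hτ
    obtain ⟨h1, h2⟩ := Finset.mem_filter.mp hτ
    rw [← (hW τ h2).2.2]
    exact (mem_f3.mp h1).2
  have key : ∑ τ ∈ (f3 a).filter P3, T τ = ∑ τ ∈ (fH a s0 ι).filter PH, T τ := by
    have h1 : ∑ τ ∈ (f3 a).filter P3, T τ = ∑ τ ∈ (f3 a).filter P3, ∑ c ∈ ({0, 1} : Finset ℕ),
        if 2 ≤ (side a ι (W τ) c).card then T (side a ι (W τ) c) else 0 := by
      refine Finset.sum_congr rfl fun τ hτ => ?_
      obtain ⟨hτ3, hP⟩ := Finset.mem_filter.mp hτ
      obtain ⟨hw, hc, hτw⟩ := hW τ hP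
      have hcan := facet_cancel ha hr hs hT (W τ) hw hc (hrank τ hτ) 𝒟 𝒯
      have hTT : T τ = T (faceN a (W τ)) := congrArg T hτw
      rw [hTT, Finset.sum_pair (by norm_num)]
      exact hcan
    rw [h1, ← Finset.sum_product', ← Finset.sum_filter]
    refine Finset.sum_bij (fun x _ => side a ι (W x.1) x.2) ?_ ?_ ?_ ?_
    · rintro ⟨τ, c⟩ hx
      obtain ⟨hx1, hx2⟩ := Finset.mem_filter.mp hx
      obtain ⟨hx3, hx4⟩ := Finset.mem_product.mp hx1
      obtain ⟨hτ3, hP⟩ := Finset.mem_filter.mp hx3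
      obtain ⟨hw, hc, hτw⟩ := hW τ hP
      have hc01 : c = 0 ∨ c = 1 := by simpa using hx4
      refine Finset.mem_filter.mpr ⟨?_, W τ, c, hw, hc, hc01, hx2, rfl⟩
      exact (side_face ha hr hs hT (W τ) hw hc c hc01 hx2).1
    · rintro ⟨τ, c⟩ hx ⟨τ', c'⟩ hx' heq
      obtain ⟨hx1, hx2⟩ := Finset.mem_filter.mp hx
      obtain ⟨hx3, hx4⟩ := Finset.mem_product.mp hx1
      obtain ⟨hτ3, hP⟩ := Finset.mem_filter.mp hx3
      obtain ⟨hw, hc, hτw⟩ := hW τ hP
      have hc01 : c = 0 ∨ c = 1 := by simpa using hx4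
      obtain ⟨hx1', hx2'⟩ := Finset.mem_filter.mp hx'
      obtain ⟨hx3', hx4'⟩ := Finset.mem_product.mp hx1'
      obtain ⟨hτ3', hP'⟩ := Finset.mem_filter.mp hx3'
      obtain ⟨hw', hc', hτw'⟩ := hW τ' hP'
      obtain ⟨e1, e2⟩ := zho_side_inj ha hr hs hT hw hw' hc hc' hc01 hx2 heq
      have e3 : τ = τ' := by rw [hτw, hτw', e1]
      exact Prod.ext e3 e2
    · intro τ' hτ'
      obtain ⟨hτH, w, c, hw, hc, hc01, h2, hτs⟩ := Finset.mem_filter.mp hτ'
      obtain ⟨-, h3, -⟩ := side_face ha hr hs hT w hw hc c hc01 h2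
      have hP : P3 (faceN a w) := ⟨w, hw, hc, rfl⟩
      have hmem : faceN a w ∈ (f3 a).filter P3 :=
        Finset.mem_filter.mpr ⟨mem_f3.mpr ⟨(face_three hr w hw h3).1, h3⟩, hP⟩
      obtain ⟨hw', hc', hww'⟩ := hW (faceN a w) hP
      have hWw : W (faceN a w) = w :=
        rayN_eq_of_face (W (faceN a w)) w hw' hw (hrank _ hmem) hww'.symm
      refine ⟨(faceN a w, c), ?_, ?_⟩
      · refine Finset.mem_filter.mpr ⟨Finset.mem_product.mpr ⟨hmem, ?_⟩, ?_⟩
        · simpa using hc01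
        · simp only [hWw]
          exact h2
      · simp only [hWw]
        exact hτs.symm
    · rintro ⟨τ, c⟩ _
      rfl
  have hs3 : ∑ τ ∈ f3 a, T τ = ∑ τ ∈ (f3 a).filter P3, T τ +
      ∑ τ ∈ (f3 a).filter (fun τ => ¬ P3 τ), T τ :=
    (Finset.sum_filter_add_sum_filter_not _ _ _).symm
  have hsH : ∑ τ ∈ fH a s0 ι, T τ = ∑ τ ∈ (fH a s0 ι).filter PH, T τ +
      ∑ τ ∈ (fH a s0 ι).filter (fun τ => ¬ PH τ), T τ :=
    (Finset.sum_filter_add_sum_filter_not _ _ _).symm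
  have hfin : ∑ τ ∈ f3 a, T τ - ∑ τ ∈ fH a s0 ι, T τ =
      ∑ τ ∈ (f3 a).filter (fun τ => ¬ P3 τ), T τ -
        ∑ τ ∈ (fH a s0 ι).filter (fun τ => ¬ PH τ), T τ := by
    rw [hs3, hsH, key]
    ring
  rw [hfin]
  refine Reg.sub ?_ ?_
  · refine Reg.sum _ _ fun τ hτ => ?_
    obtain ⟨h1, h2⟩ := Finset.mem_filter.mp hτ
    exact hreg3 τ h1 h2
  · refine Reg.sum _ _ fun τ hτ => ?_
    obtain ⟨h1, h2⟩ := Finset.mem_filter.mp hτ
    exact hregH τ h1 h2

end Pool.Agent.H37.SM
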