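import Pool.Agent.H37.SM.ZDefs
import Pool.Agent.H22.G9
import Pool.Agent.H22.VolAdd

/-! Module ZUN: `J_τ` does not depend on the decomposition; any family of cones computes it. -/

set_option autoImplicit false

namespace Pool.Agent.H37.SM

open Finset Pool.Agent.H22

variable {n r : ℕ}

/-- rational functions with the same values on the positive half line are equal -/
theorem goodR_unique {Z Z' : RatFunc ℂ} {G : ℝ → ℂ} (h : GoodR Z G) (h' : GoodR Z' G) :
    Z = Z' := by
  obtain ⟨p, q, hq, hZ, hF⟩ := h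
  obtain ⟨p', q', hq', hZ', hF'⟩ := h'
  have key : p * q' = p' * q := by
    apply Polynomial.eq_of_infinite_eval_eq
    refine Set.Infinite.mono (s := (fun s : ℝ => (s : ℂ)) '' Set.Ioi (0 : ℝ)) ?_ ?_
    · rintro _ ⟨s, hs, rfl⟩
      have hs' : 0 < s := hs
      show Polynomial.eval (s : ℂ) (p * q') = Polynomial.eval (s : ℂ) (p' * q)
      have h1 := hF s hs'
      rw [hF' s hs', div_eq_div_iff (hq'.eval_ne hs') (hq.eval_ne hs')] at h1
      rw [Polynomial.eval_mul, Polynomial.eval_mul]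
      exact h1.symm
    · refine Set.Infinite.image ?_ (Set.Ioi_infinite 0)
      intro x _ y _ hxy
      have : (x : ℂ) = (y : ℂ) := hxy
      exact_mod_cast this
  rw [hZ, hZ', div_eq_div_iff (algMap_ne hq.1) (algMap_ne hq'.1), ← map_mul, ← map_mul, key]

/-- a basis of the rows of `τ` -/
theorem exists_rowBasis (a : Fin r → (Fin n →₀ ℕ)) (τ : Finset (Fin r)) :
    ∃ σ : Finset (Fin r), σ ⊆ τ ∧ LinearIndependent ℝ (fun i : σ => rowR a i) ∧
      σ.card = faceRank a τ := by
  classical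
  obtain ⟨b, hb1, -, hb2, hb3⟩ := exists_linearIndepOn_extension (K := ℝ) (v := rowR a)
    (s := (∅ : Set (Fin r))) (t := (τ : Set (Fin r))) (linearIndepOn_empty ℝ _)
    (Set.empty_subset _)
  have hcoe : ((b.toFinset : Finset (Fin r)) : Set (Fin r)) = b := Set.coe_toFinset b
  have hind : LinearIndependent ℝ (fun i : b.toFinset => rowR a i) := by
    have h1 : LinearIndepOn ℝ (rowR a) ((b.toFinset : Finset (Fin r)) : Set (Fin r)) := by
      rw [hcoe]; exact hb3
    exact h1
  refine ⟨b.toFinset, ?_, hind, ?_⟩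
  · intro i hi
    have : i ∈ (τ : Set (Fin r)) := hb1 (Set.mem_toFinset.mp hi)
    exact_mod_cast this
  · rw [← finrank_span_indep hind]
    unfold faceRank
    rw [hcoe]
    have hspan : Submodule.span ℝ (rowR a '' b) = Submodule.span ℝ (rowR a '' (τ : Set (Fin r))) := by
      apply le_antisymm
      · exact Submodule.span_mono (Set.image_mono hb1)
      · rw [Submodule.span_le]; exact hb2
    rw [hspan]

/-- Proof. Choose `σ ⊆ τ` with `rowR a i`, `i ∈ σ`, a basis of the span of the rows of `τ`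
(`exists_linearIndependent` or `Submodule.exists_fun_fin_finrank_span_eq`), so
`σ.card = faceRank a τ`, `flatF a σ = τ` (`flatF_eq_of_card`, `isFace_flat`). There is a `LatDat a σ` (see how
`Pool.Agent.H22.G10`/`G11` obtain it). For real `s > 0` both sides have the value `faceVol a σ * D.Jint s`: `JvalG_eq` for the
left side, `Jint_aux` for the right side (via `minCone_flatF`). Both sides are `GoodR` (`JfunG_good` and the same proof), and two
rational functions which agree for all real `s > 0` are equal (see the use of `GoodR` in `Pool.Agent.H22.Main`/`G12`). -/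
theorem jfun_eq (a : Fin r → (Fin n →₀ ℕ)) (τ : Finset (Fin r)) (hne : τ.Nonempty)
    (hτ : IsFace a τ) (𝒟 : FaceCones a τ) {d m : ℕ} (hd : d = n + 1 - faceRank a τ)
    (w : Fin m → Fin d → Fin n → ℕ)
    (mem : ∀ C c, toReal (w C c) ∈ minCone a τ)
    (indep : ∀ C, LinearIndependent ℝ (fun c => toReal (w C c)))
    (disj : ∀ C C', C ≠ C' →
      Disjoint (openCone fun c => toReal (w C c)) (openCone fun c => toReal (w C' c)))
    (cover : (∃ v : Fin d → Fin n → ℝ, LinearIndependent ℝ v ∧ ∀ c, v c ∈ minCone a τ) →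
      ∀ k ∈ minCone a τ, ∃ C, k ∈ closedCone fun c => toReal (w C c)) :
    JfunG a τ 𝒟 = ∑ C, (coneMult (w C) : RatFunc ℂ) *
      ∏ c, ((wsum (w C c) : RatFunc ℂ) + (wmin a (w C c) : RatFunc ℂ) * RatFunc.X)⁻¹ := by
  obtain ⟨σ, hσ1, hσ2, hσ3⟩ := exists_rowBasis a τ
  have hflat := flatF_eq_of_card hσ2 hσ1 hσ3 (isFace_flat hne hτ)
  have hσne : σ.Nonempty := by
    rw [← Finset.card_pos, hσ3]
    obtain ⟨i, hi⟩ := hne
    unfold faceRank
    rw [Module.finrank_pos_iff_exists_ne_zero]
    refine ⟨⟨rowR a i, Submodule.subset_span ⟨i, by exact_mod_cast hi, rfl⟩⟩, ?_⟩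
    intro h0
    have h1 : rowR a i = 0 := congrArg Subtype.val h0
    have h2 := congrFun h1 (Sum.inl ())
    simp [rowR] at h2
  obtain ⟨D⟩ := exists_latDat (a := a) σ ((rows_indep_iff a σ).mp hσ2)
  have hmc : minCone a τ = minCone a σ := by rw [← hflat]; exact minCone_flatF hσne
  refine goodR_unique (JfunG_good a τ 𝒟) ?_
  refine GoodR.congr (GoodR.sum _ fun C _ => (GoodR.natCast _).mul
    (GoodR.prod _ fun c _ => GoodR.inv_linear (wsum_pos (indep C) c))) ?_
  intro s hs
  rw [JvalG_eq D hσne hσ2 hflat 𝒟 hs, ← Jint_aux D hσne hs (by rw [hd, hσ3]) w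
    (fun C c => by rw [← hmc]; exact mem C c) indep disj
    (fun h k hk => by
      rw [← hmc] at hk
      refine cover ?_ k hk
      obtain ⟨v, hv1, hv2⟩ := h
      exact ⟨v, hv1, fun c => by rw [hmc]; exact hv2 c⟩)]
  push_cast
  rfl

/-- no full cone: `J_τ = 0` (the decomposition is empty by `indep`) -/
theorem jfun_zero (a : Fin r → (Fin n →₀ ℕ)) (τ : Finset (Fin r)) (𝒟 : FaceCones a τ)
    (h : ¬ ∃ v : Fin (n + 1 - faceRank a τ) → Fin n → ℝ,
      LinearIndependent ℝ v ∧ ∀ c, v c ∈ minCone a τ) : JfunG a τ 𝒟 = 0 := by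
  have hE : IsEmpty (Fin 𝒟.m) := ⟨fun C => h ⟨fun c => toReal (𝒟.w C c), 𝒟.indep C, 𝒟.mem C⟩⟩
  unfold JfunG
  exact Fintype.sum_empty _

/-- zero-dimensional cones: a constant -/
theorem jfun_const (a : Fin r → (Fin n →₀ ℕ)) (τ : Finset (Fin r)) (𝒟 : FaceCones a τ)
    (h : n + 1 ≤ faceRank a τ) : ∃ N : ℕ, JfunG a τ 𝒟 = N := by
  have hE : IsEmpty (Fin (n + 1 - faceRank a τ)) := by
    rw [Nat.sub_eq_zero_of_le h]; infer_instance
  refine ⟨∑ C, coneMult (𝒟.w C), ?_⟩
  unfold JfunG
  push_cast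
  refine Finset.sum_congr rfl fun C _ => ?_
  rw [Fintype.prod_empty, mul_one]

end Pool.Agent.H37.SM
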